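import Pool.Agent.TSB.Defs

open scoped Classical

namespace TSB

/-! ## Module AL: growth of ones in a box without twos, and monotonicity of bad blocks -/

private theorem al_persist {ω : Config} {t : ℕ} {x : Site} (h : xi ω t x = 1)
    (h2 : xi ω (t + 1) x ≠ 2) : xi ω (t + 1) x = 1 := by
  have e : xi ω (t + 1) x = step (xi ω t) x := rfl
  rw [e] at h2 ⊢
  unfold step at h2 ⊢
  rw [if_neg (by rw [h]; decide), if_pos h] at h2 ⊢
  by_cases hc : 2 ≤ cnt {y | xi ω t y = 2} x
  · rw [if_pos hc] at h2; exact absurd rfl h2
  · rw [if_neg hc]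

private theorem al_two_nb {S : Set Site} {x a b : Site} (ha : a ∈ nb x) (hb : b ∈ nb x)
    (hab : a ≠ b) (haS : a ∈ S) (hbS : b ∈ S) : 2 ≤ cnt S x := by
  unfold cnt
  have : ({a, b} : Finset Site) ⊆ (nb x).filter (fun y => y ∈ S) := by
    intro y hy
    rw [Finset.mem_insert, Finset.mem_singleton] at hy
    rcases hy with rfl | rfl
    · exact Finset.mem_filter.2 ⟨ha, haS⟩
    · exact Finset.mem_filter.2 ⟨hb, hbS⟩
  calc 2 = ({a, b} : Finset Site).card := (Finset.card_pair hab).symm
    _ ≤ _ := Finset.card_le_card this

private theorem al_grow {ω : Config} {t : ℕ} {x a b : Site} (ha : a ∈ nb x) (hb : b ∈ nb x)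
    (hab : a ≠ b) (h1 : xi ω t a = 1) (h2 : xi ω t b = 1) (hx : xi ω t x ≠ 2)
    (hx' : xi ω (t + 1) x ≠ 2) : xi ω (t + 1) x = 1 := by
  by_cases hone : xi ω t x = 1
  · exact al_persist hone hx'
  · have h0 : xi ω t x = 0 := by
      have : ∀ v : Fin 3, v ≠ 2 → v ≠ 1 → v = 0 := by decide
      exact this _ hx hone
    have e : xi ω (t + 1) x = step (xi ω t) x := rfl
    rw [e]
    unfold step
    rw [if_pos h0, if_pos]
    exact al_two_nb (S := {y | xi ω t y = 1}) ha hb hab h1 h2

/-- growth of ones in a box without obstacles -/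
theorem al_fill (ω : Config) (w : ℕ) (hw : 1 ≤ w) (x0 : Site) (h : AL w ω x0)
    (hno : ∀ s ≤ w ^ 2, ∀ x : Site, x0.1 ≤ x.1 → x.1 < x0.1 + w → x0.2 ≤ x.2 → x.2 < x0.2 + w →
      xi ω s x ≠ 2) :
    ∀ x : Site, x0.1 ≤ x.1 → x.1 < x0.1 + w → x0.2 ≤ x.2 → x.2 < x0.2 + w →
      xi ω (w ^ 2) x = 1 := by
  -- work with natural offsets
  have hno' : ∀ s ≤ w ^ 2, ∀ i j : ℕ, i < w → j < w → xi ω s (x0.1 + i, x0.2 + j) ≠ 2 := by
    intro s hs i j hi hj
    exact hno s hs _ (by simp) (by simp only; omega) (by simp) (by simp only; omega)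
  -- ones persist
  have hpers : ∀ (i j : ℕ), i < w → j < w → ∀ n t : ℕ, t + n ≤ w ^ 2 →
      xi ω t (x0.1 + i, x0.2 + j) = 1 → xi ω (t + n) (x0.1 + i, x0.2 + j) = 1 := by
    intro i j hi hj n
    induction n with
    | zero => intro t _ ht; exact ht
    | succ n ih =>
      intro t htn ht
      have := ih t (by omega) ht
      exact al_persist this (hno' (t + n + 1) (by omega) i j hi hj)
  -- the main claim
  have key : ∀ r : ℕ, 1 ≤ r → r ≤ w → ∀ i j : ℕ, i < r → j < r →
      xi ω (r ^ 2) (x0.1 + i, x0.2 + j) = 1 := by
    intro r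
    induction r with
    | zero => intro h0; omega
    | succ r ih =>
      intro _ hrw i j hi hj
      rcases Nat.eq_zero_or_pos r with hr0 | hrpos
      · subst hr0
        have hi0 : i = 0 := by omega
        have hj0 : j = 0 := by omega
        subst hi0; subst hj0
        have h1 : xi ω 0 (x0.1 + (0 : ℕ), x0.2 + (0 : ℕ)) = 1 := by
          have : ((x0.1 + ((0 : ℕ) : ℤ), x0.2 + ((0 : ℕ) : ℤ)) : Site) = x0 := by
            apply Prod.ext <;> simp
          rw [this]; exact h.1
        have := hpers 0 0 (by omega) (by omega) 1 0 (by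
          have : 1 ≤ w ^ 2 := Nat.one_le_pow _ _ (by omega)
          omega) h1
        simpa using this
      · have ihr := ih hrpos (by omega)
        have hsq : (r + 1) ^ 2 = r ^ 2 + r + (r + 1) := by ring
        have hle : (r + 1) ^ 2 ≤ w ^ 2 := Nat.pow_le_pow_left hrw 2
        obtain ⟨⟨jc, hjc, hjc1⟩, ⟨ic, hic, hic1⟩⟩ := h.2 r hrpos (by omega)
        -- square stays filled
        have hsqr : ∀ n, r ^ 2 + n ≤ w ^ 2 → ∀ i j : ℕ, i < r → j < r →
            xi ω (r ^ 2 + n) (x0.1 + i, x0.2 + j) = 1 := fun n hn i j hi hj =>
          hpers i j (by omega) (by omega) n _ hn (ihr i j hi hj)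
        have hjc2 : xi ω (r ^ 2) (x0.1 + (r : ℕ), x0.2 + (jc : ℕ)) = 1 := by
          have := hpers r jc (by omega) (by omega) (r ^ 2) 0 (by
            have : r ^ 2 ≤ w ^ 2 := Nat.pow_le_pow_left (by omega) 2
            omega) hjc1
          simpa using this
        have hic2 : xi ω (r ^ 2) (x0.1 + (ic : ℕ), x0.2 + (r : ℕ)) = 1 := by
          have := hpers ic r (by omega) (by omega) (r ^ 2) 0 (by
            have : r ^ 2 ≤ w ^ 2 := Nat.pow_le_pow_left (by omega) 2
            omega) hic1
          simpa using this
        -- column r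
        have hcol : ∀ n : ℕ, r ^ 2 + n ≤ w ^ 2 → ∀ j : ℕ, j < r → j ≤ jc + n → jc ≤ j + n →
            xi ω (r ^ 2 + n) (x0.1 + (r : ℕ), x0.2 + (j : ℕ)) = 1 := by
          intro n
          induction n with
          | zero =>
            intro _ j hj h1 h2
            have : j = jc := by omega
            subst this; exact hjc2
          | succ n ihn =>
            intro hn j hj h1 h2
            have hx : xi ω (r ^ 2 + n) (x0.1 + (r : ℕ), x0.2 + (j : ℕ)) ≠ 2 :=
              hno' _ (by omega) r j (by omega) (by omega)
            have hx' : xi ω (r ^ 2 + n + 1) (x0.1 + (r : ℕ), x0.2 + (j : ℕ)) ≠ 2 :=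
              hno' _ (by omega) r j (by omega) (by omega)
            have hleft : xi ω (r ^ 2 + n) (x0.1 + ((r - 1 : ℕ) : ℤ), x0.2 + (j : ℕ)) = 1 :=
              hsqr n (by omega) (r - 1) j (by omega) hj
            have hnbl : ((x0.1 + ((r - 1 : ℕ) : ℤ), x0.2 + (j : ℤ)) : Site) ∈
                nb (x0.1 + (r : ℤ), x0.2 + (j : ℤ)) := by
              have : ((r - 1 : ℕ) : ℤ) = (r : ℤ) - 1 := by omega
              rw [this]
              simp only [nb, Finset.mem_insert, Finset.mem_singleton, Prod.mk.injEq]
              right; left; constructor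
              · ring
              · trivial
            by_cases hc : j ≤ jc + n ∧ jc ≤ j + n
            · exact al_persist (ihn (by omega) j hj hc.1 hc.2) hx'
            · rcases (by omega : (j = jc + n + 1) ∨ (jc = j + n + 1)) with hc1 | hc1
              · have hd := ihn (by omega) (j - 1) (by omega) (by omega) (by omega)
                refine al_grow hnbl ?_ ?_ hleft hd hx hx'
                · have : ((j - 1 : ℕ) : ℤ) = (j : ℤ) - 1 := by omega
                  rw [this]
                  simp only [nb, Finset.mem_insert, Finset.mem_singleton, Prod.mk.injEq]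
                  right; right; right; constructor
                  · trivial
                  · ring
                · intro he
                  have := (Prod.mk.inj he).1
                  omega
              · have hd := ihn (by omega) (j + 1) (by omega) (by omega) (by omega)
                refine al_grow hnbl ?_ ?_ hleft hd hx hx'
                · push_cast
                  simp only [nb, Finset.mem_insert, Finset.mem_singleton, Prod.mk.injEq]
                  right; right; left; constructor
                  · trivial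
                  · ring
                · intro he
                  have := (Prod.mk.inj he).1
                  omega
        -- row r
        have hrow : ∀ n : ℕ, r ^ 2 + n ≤ w ^ 2 → ∀ i : ℕ, i < r → i ≤ ic + n → ic ≤ i + n →
            xi ω (r ^ 2 + n) (x0.1 + (i : ℕ), x0.2 + (r : ℕ)) = 1 := by
          intro n
          induction n with
          | zero =>
            intro _ i hi h1 h2
            have : i = ic := by omega
            subst this; exact hic2
          | succ n ihn =>
            intro hn i hi h1 h2
            have hx : xi ω (r ^ 2 + n) (x0.1 + (i : ℕ), x0.2 + (r : ℕ)) ≠ 2 :=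
              hno' _ (by omega) i r (by omega) (by omega)
            have hx' : xi ω (r ^ 2 + n + 1) (x0.1 + (i : ℕ), x0.2 + (r : ℕ)) ≠ 2 :=
              hno' _ (by omega) i r (by omega) (by omega)
            have hdown : xi ω (r ^ 2 + n) (x0.1 + (i : ℕ), x0.2 + ((r - 1 : ℕ) : ℤ)) = 1 :=
              hsqr n (by omega) i (r - 1) hi (by omega)
            have hnbl : ((x0.1 + (i : ℤ), x0.2 + ((r - 1 : ℕ) : ℤ)) : Site) ∈
                nb (x0.1 + (i : ℤ), x0.2 + (r : ℤ)) := by
              have : ((r - 1 : ℕ) : ℤ) = (r : ℤ) - 1 := by omega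
              rw [this]
              simp only [nb, Finset.mem_insert, Finset.mem_singleton, Prod.mk.injEq]
              right; right; right; constructor
              · trivial
              · ring
            by_cases hc : i ≤ ic + n ∧ ic ≤ i + n
            · exact al_persist (ihn (by omega) i hi hc.1 hc.2) hx'
            · rcases (by omega : (i = ic + n + 1) ∨ (ic = i + n + 1)) with hc1 | hc1
              · have hd := ihn (by omega) (i - 1) (by omega) (by omega) (by omega)
                refine al_grow hnbl ?_ ?_ hdown hd hx hx'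
                · have : ((i - 1 : ℕ) : ℤ) = (i : ℤ) - 1 := by omega
                  rw [this]
                  simp only [nb, Finset.mem_insert, Finset.mem_singleton, Prod.mk.injEq]
                  right; left; constructor
                  · ring
                  · trivial
                · intro he
                  have := (Prod.mk.inj he).2
                  omega
              · have hd := ihn (by omega) (i + 1) (by omega) (by omega) (by omega)
                refine al_grow hnbl ?_ ?_ hdown hd hx hx'
                · push_cast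
                  simp only [nb, Finset.mem_insert, Finset.mem_singleton, Prod.mk.injEq]
                  left; constructor
                  · ring
                  · trivial
                · intro he
                  have := (Prod.mk.inj he).2
                  omega
        have hcolr : ∀ j : ℕ, j < r → xi ω (r ^ 2 + r) (x0.1 + (r : ℕ), x0.2 + (j : ℕ)) = 1 :=
          fun j hj => hcol r (by omega) j hj (by omega) (by omega)
        have hrowr : ∀ i : ℕ, i < r → xi ω (r ^ 2 + r) (x0.1 + (i : ℕ), x0.2 + (r : ℕ)) = 1 :=
          fun i hi => hrow r (by omega) i hi (by omega) (by omega)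
        have hsq2 : (r + 1) ^ 2 = (r ^ 2 + r) + (r + 1) := hsq
        rcases (by omega : i < r ∧ j < r ∨ i = r ∧ j < r ∨ i < r ∧ j = r ∨ i = r ∧ j = r) with
          ⟨h1, h2⟩ | ⟨h1, h2⟩ | ⟨h1, h2⟩ | ⟨h1, h2⟩
        · have := hsqr (r + (r + 1)) (by omega) i j h1 h2
          rw [hsq2, Nat.add_assoc]; exact this
        · subst h1
          rw [hsq2]
          exact hpers i j (by omega) (by omega) (i + 1) _ (by omega) (hcolr j h2)
        · subst h2
          rw [hsq2]
          exact hpers i j (by omega) (by omega) (j + 1) _ (by omega) (hrowr i h1)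
        · obtain rfl : i = j := by omega
          obtain rfl : r = i := by omega
          have hx : xi ω (r ^ 2 + r) (x0.1 + (r : ℕ), x0.2 + (r : ℕ)) ≠ 2 :=
            hno' _ (by omega) r r (by omega) (by omega)
          have hx' : xi ω (r ^ 2 + r + 1) (x0.1 + (r : ℕ), x0.2 + (r : ℕ)) ≠ 2 :=
            hno' _ (by omega) r r (by omega) (by omega)
          have hcor : xi ω (r ^ 2 + r + 1) (x0.1 + (r : ℕ), x0.2 + (r : ℕ)) = 1 := by
            refine al_grow ?_ ?_ ?_ (hcolr (r - 1) (by omega)) (hrowr (r - 1) (by omega)) hx hx'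
            · have : ((r - 1 : ℕ) : ℤ) = (r : ℤ) - 1 := by omega
              rw [this]
              simp only [nb, Finset.mem_insert, Finset.mem_singleton, Prod.mk.injEq]
              right; right; right; constructor
              · trivial
              · ring
            · have : ((r - 1 : ℕ) : ℤ) = (r : ℤ) - 1 := by omega
              rw [this]
              simp only [nb, Finset.mem_insert, Finset.mem_singleton, Prod.mk.injEq]
              right; left; constructor
              · ring
              · trivial
            · intro he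
              have := (Prod.mk.inj he).1
              omega
          have := hpers r r (by omega) (by omega) r _ (by omega) hcor
          rw [hsq2]
          have e : r ^ 2 + r + (r + 1) = r ^ 2 + r + 1 + r := by omega
          rw [e]; exact this
  intro x h1 h2 h3 h4
  have := key w hw le_rfl (x.1 - x0.1).toNat (x.2 - x0.2).toNat (by omega) (by omega)
  have e : ((x0.1 + ((x.1 - x0.1).toNat : ℤ), x0.2 + ((x.2 - x0.2).toNat : ℤ)) : Site) = x := by
    apply Prod.ext
    · simp only; omega
    · simp only; omega
  rw [e] at this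
  exact this

private theorem al_upd_two {w : ℕ} {ω : Config} {c x : Site} (h : updw w ω c x = 2) : ω x = 2 := by
  unfold updw at h
  split_ifs at h with hc
  · exact absurd h (by decide)
  · exact h

private theorem al_upd_zero {w : ℕ} {ω : Config} {c x : Site} (h : updw w ω c x = 0) :
    ω x = 0 := by
  unfold updw at h
  split_ifs at h with hc
  · exact absurd h (by decide)
  · exact h

private theorem al_upd_one {w : ℕ} {ω : Config} {c x : Site} (h : updw w ω c x ≠ 1) :
    ω x ≠ 1 := by
  unfold updw at h
  split_ifs at h with hc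
  · exact absurd rfl h
  · exact h

theorem dbad_updw (w d mw : ℕ) (ω : Config) (c b : Site)
    (h : DBad w d mw (updw w ω c) b) : DBad w d mw ω b := by
  rcases h with h | h | h | h
  · left
    obtain ⟨x, hx, y, hy, z, hz, h1, h2, h3, h4⟩ := h
    exact ⟨x, hx, y, hy, z, hz, al_upd_two h1, al_upd_two h2, al_upd_two h3, h4⟩
  · right; left
    rcases h with ⟨x, hx⟩ | ⟨x, hx⟩
    · exact Or.inl ⟨x, fun i hi => ⟨(hx i hi).1, al_upd_one (hx i hi).2⟩⟩
    · exact Or.inr ⟨x, fun i hi => ⟨(hx i hi).1, al_upd_one (hx i hi).2⟩⟩
  · right; right; left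
    obtain ⟨C, h1, h2, h3, h4⟩ := h
    refine ⟨C, h1, fun e he => ?_, h3, h4⟩
    obtain ⟨z, hz, h5⟩ := h2 e he
    exact ⟨z, al_upd_two hz, h5⟩
  · right; right; right
    obtain ⟨a, b1, a', b', c1, c', za, zb, za', zb', zc, zc', h1, h2, h3, h4, n1, n2, n3, n4, n5,
      n6, h5⟩ := h
    have hr : ∀ {x y : Site}, HRun (updw w ω c) (win (d * w) 2 b) x y →
        HRun ω (win (d * w) 2 b) x y := fun hh =>
      ⟨hh.1, hh.2.1, fun z e1 e2 e3 => ⟨al_upd_zero (hh.2.2 z e1 e2 e3).1, (hh.2.2 z e1 e2 e3).2⟩⟩
    have vr : ∀ {x y : Site}, VRun (updw w ω c) (win (d * w) 2 b) x y →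
        VRun ω (win (d * w) 2 b) x y := fun hh =>
      ⟨hh.1, hh.2.1, fun z e1 e2 e3 => ⟨al_upd_zero (hh.2.2 z e1 e2 e3).1, (hh.2.2 z e1 e2 e3).2⟩⟩
    have nt : ∀ {x y : Site}, NearTwo (updw w ω c) (win (d * w) 2 b) x y →
        NearTwo ω (win (d * w) 2 b) x y := fun hh => ⟨al_upd_two hh.1, hh.2⟩
    exact ⟨a, b1, a', b', c1, c', za, zb, za', zb', zc, zc', hr h1, hr h2, vr h3, h4, nt n1, nt n2,
      nt n3, nt n4, nt n5, nt n6, h5⟩

end TSB
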