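import Pool.Agent.TSB.Dyn

open scoped Classical

namespace TSB

private theorem blob_lay_adj {x y : Site} (h : adj x y) : lay y ≤ lay x + 1 ∧ lay x ≤ lay y + 1 := by
  have h' : y = (x.1 + 1, x.2) ∨ y = (x.1 - 1, x.2) ∨ y = (x.1, x.2 + 1) ∨ y = (x.1, x.2 - 1) := by
    simpa [adj, nb] using h
  rcases h' with h | h | h | h <;> subst h <;> simp only [lay, abs_eq_max_neg] <;> omega

private theorem blob_adj_dist {x y : Site} (h : adj x y) : |y.1 - x.1| ≤ 1 ∧ |y.2 - x.2| ≤ 1 := by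
  have h' : y = (x.1 + 1, x.2) ∨ y = (x.1 - 1, x.2) ∨ y = (x.1, x.2 + 1) ∨ y = (x.1, x.2 - 1) := by
    simpa [adj, nb] using h
  rcases h' with h | h | h | h <;> subst h <;> simp

private theorem blob_lay_unique {x y z : Site} (h : adj x y) (h' : adj x z) (hy : lay y < lay x)
    (hz : lay z < lay x) : y = z := by
  have h1 : y = (x.1 + 1, x.2) ∨ y = (x.1 - 1, x.2) ∨ y = (x.1, x.2 + 1) ∨ y = (x.1, x.2 - 1) := by
    simpa [adj, nb] using h
  have h2 : z = (x.1 + 1, x.2) ∨ z = (x.1 - 1, x.2) ∨ z = (x.1, x.2 + 1) ∨ z = (x.1, x.2 - 1) := by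
    simpa [adj, nb] using h'
  rcases h1 with h1 | h1 | h1 | h1 <;> rcases h2 with h2 | h2 | h2 | h2 <;> subst h1 <;> subst h2 <;>
    simp only [lay, abs_eq_max_neg] at hy hz <;> first | rfl | (exfalso; omega)

private theorem blob_two {S : Set Site} {x : Site} (h : 2 ≤ cnt S x) :
    ∃ a b, a ≠ b ∧ adj x a ∧ adj x b ∧ a ∈ S ∧ b ∈ S := by
  unfold cnt at h
  obtain ⟨a, ha, b, hb, hab⟩ := Finset.one_lt_card.mp h
  simp only [Finset.mem_filter] at ha hb
  exact ⟨a, b, hab, ha.1, hb.1, ha.2, hb.2⟩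

private theorem blob_cnt2 {C : Set Site} {x a b : Site} (hab : a ≠ b) (ha : adj x a)
    (hb : adj x b) (haC : a ∈ C) (hbC : b ∈ C) : 2 ≤ cnt C x := by
  unfold cnt
  rw [← Finset.card_pair hab]
  apply Finset.card_le_card
  intro z hz
  simp only [Finset.mem_insert, Finset.mem_singleton] at hz
  simp only [Finset.mem_filter]
  rcases hz with h | h
  · rw [h]; exact ⟨ha, haC⟩
  · rw [h]; exact ⟨hb, hbC⟩

private theorem blob_step (O : Set Site) (j0 Rh : ℕ)
    (h1 : ∀ x, x ∉ O → cnt {y | y ∈ O ∧ (j0 : ℤ) < lay y} x ≤ 1)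
    (h2 : ∀ x ∈ O, ∀ y ∈ O, (j0 : ℤ) < lay x → lay x < lay y → lay y ≤ lay x + 3 →
      lay y ≤ Rh → lay x ≤ 10 * max |x.1 - y.1| |x.2 - y.2|)
    (r t1 : ℕ) (hr : j0 < r) (hR : r + 3 ≤ Rh)
    (P : ∀ x ∈ boot O t1, (r : ℤ) ≤ lay x → x ∈ O) :
    ∀ t2 : ℕ, 10 * (t2 + 2) < r + 10 * t1 → ∀ x ∈ boot O t2, (r : ℤ) + 2 ≤ lay x → x ∈ O := by
  have hrz : (j0 : ℤ) < r := by exact_mod_cast hr
  have hRz : (r : ℤ) + 3 ≤ Rh := by exact_mod_cast hR
  have no2 : ∀ x, x ∉ O → ∀ a b, a ≠ b → adj x a → adj x b → a ∈ O → b ∈ O →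
      (j0 : ℤ) < lay a → (j0 : ℤ) < lay b → False := by
    intro x hx a b hab ha hb haO hbO hla hlb
    have := blob_cnt2 (C := {y | y ∈ O ∧ (j0 : ℤ) < lay y}) hab ha hb ⟨haO, hla⟩ ⟨hbO, hlb⟩
    have := h1 x hx
    omega
  intro t2
  induction t2 using Nat.strong_induction_on with
  | _ t2 IH =>
  intro ht2 x hx hlx
  by_cases hle : t2 ≤ t1
  · exact P x (boot_mono_time O hle hx) (by linarith)
  obtain ⟨t, rfl⟩ : ∃ t, t2 = t + 1 := ⟨t2 - 1, by omega⟩
  have ht1 : t1 ≤ t := by omega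
  -- the sub-claim
  have sub : ∀ t', t1 ≤ t' → t' ≤ t → ∀ y ∈ boot O t', y ∉ O → (r : ℤ) ≤ lay y →
      ∃ s ∈ O, (r : ℤ) ≤ lay s ∧ lay s ≤ r + 1 ∧ |s.1 - y.1| ≤ 1 + ((t' : ℤ) - t1) ∧
        |s.2 - y.2| ≤ 1 + ((t' : ℤ) - t1) := by
    intro t' ht'
    induction t', ht' using Nat.le_induction with
    | base =>
      intro _ y hy hyO hly
      exact absurd (P y hy hly) hyO
    | succ t' ht' IH' =>
      intro htt y hy hyO hly
      have IH'' := IH' (by omega)
      have hy2 : lay y ≤ r + 1 := by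
        by_contra hcon
        push Not at hcon
        exact hyO (IH (t' + 1) (by omega) (by omega) y hy (by linarith))
      have far : ∀ a, adj y a → a ∈ boot O t' → a ∉ O → (r : ℤ) ≤ lay a →
          ∃ s ∈ O, (r : ℤ) ≤ lay s ∧ lay s ≤ r + 1 ∧ |s.1 - y.1| ≤ 1 + (((t' + 1 : ℕ) : ℤ) - t1) ∧
            |s.2 - y.2| ≤ 1 + (((t' + 1 : ℕ) : ℤ) - t1) := by
        intro a hya ha haO hla
        obtain ⟨s, hs, hs1, hs2, hs3, hs4⟩ := IH'' a ha haO hla
        obtain ⟨d1, d2⟩ := blob_adj_dist hya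
        refine ⟨s, hs, hs1, hs2, ?_, ?_⟩
        · have := abs_sub_le s.1 a.1 y.1
          push_cast; linarith
        · have := abs_sub_le s.2 a.2 y.2
          push_cast; linarith
      rcases hy with hy | hy
      · obtain ⟨s, hs, hs1, hs2, hs3, hs4⟩ := IH'' y hy hyO hly
        exact ⟨s, hs, hs1, hs2, by push_cast; linarith, by push_cast; linarith⟩
      obtain ⟨a, b, hab, ha, hb, haB, hbB⟩ := blob_two hy
      by_cases ca : a ∉ O ∧ (r : ℤ) ≤ lay a
      · exact far a ha haB ca.1 ca.2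
      by_cases cb : b ∉ O ∧ (r : ℤ) ≤ lay b
      · exact far b hb hbB cb.1 cb.2
      have one : ∀ a, adj y a → a ∈ O → (r : ℤ) ≤ lay a → lay y ≤ r →
          ∃ s ∈ O, (r : ℤ) ≤ lay s ∧ lay s ≤ r + 1 ∧ |s.1 - y.1| ≤ 1 + (((t' + 1 : ℕ) : ℤ) - t1) ∧
            |s.2 - y.2| ≤ 1 + (((t' + 1 : ℕ) : ℤ) - t1) := by
        intro a hya haO hla hly'
        obtain ⟨d1, d2⟩ := blob_adj_dist hya
        have := (blob_lay_adj hya).1
        have ht'z : (t1 : ℤ) ≤ t' := by exact_mod_cast ht'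
        exact ⟨a, haO, hla, by linarith, by push_cast; linarith, by push_cast; linarith⟩
      by_cases la : (r : ℤ) ≤ lay a
      · have haO : a ∈ O := by
          by_contra h
          exact ca ⟨h, la⟩
        by_cases lb : (r : ℤ) ≤ lay b
        · have hbO : b ∈ O := by
            by_contra h
            exact cb ⟨h, lb⟩
          exact (no2 y hyO a b hab ha hb haO hbO (by linarith) (by linarith)).elim
        · push Not at lb
          have := (blob_lay_adj hb).2
          exact one a ha haO la (by linarith)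
      · push Not at la
        by_cases lb : (r : ℤ) ≤ lay b
        · have hbO : b ∈ O := by
            by_contra h
            exact cb ⟨h, lb⟩
          have := (blob_lay_adj ha).2
          exact one b hb hbO lb (by linarith)
        · push Not at lb
          exact absurd (blob_lay_unique ha hb (by linarith) (by linarith)) hab
  rcases hx with hx | hx
  · exact IH t (by omega) (by omega) x hx hlx
  by_contra hxO
  -- final contradiction
  have fin : ∀ a b, a ≠ b → adj x a → adj x b → a ∈ boot O t → b ∈ boot O t → a ∉ O → False := by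
    intro a b hab ha hb haB hbB haO
    have la : lay a < r + 2 := by
      by_contra hcon
      push Not at hcon
      exact haO (IH t (by omega) (by omega) a haB hcon)
    have la2 := blob_lay_adj ha
    have la3 : lay a = r + 1 := by omega
    have lx : lay x = r + 2 := by omega
    have lb : lay x ≤ lay b := by
      by_contra hcon
      push Not at hcon
      exact hab (blob_lay_unique ha hb (by linarith) hcon)
    have hbO : b ∈ O := IH t (by omega) (by omega) b hbB (by linarith)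
    obtain ⟨s, hs, hs1, hs2, hs3, hs4⟩ := sub t ht1 le_rfl a haB haO (by linarith)
    obtain ⟨a1, a2⟩ := blob_adj_dist ha
    obtain ⟨b1, b2⟩ := blob_adj_dist hb
    have lb2 := (blob_lay_adj hb).1
    have hfin := h2 s hs b hbO (by linarith) (by linarith) (by linarith) (by linarith)
    have hm : max |s.1 - b.1| |s.2 - b.2| ≤ 1 + ((t : ℤ) - t1) + 2 := by
      apply max_le
      · have e1 := abs_sub_le s.1 a.1 b.1
        have e2 := abs_sub_le a.1 x.1 b.1
        have e3 : |x.1 - b.1| ≤ 1 := by rw [abs_sub_comm]; exact b1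
        linarith
      · have e1 := abs_sub_le s.2 a.2 b.2
        have e2 := abs_sub_le a.2 x.2 b.2
        have e3 : |x.2 - b.2| ≤ 1 := by rw [abs_sub_comm]; exact b2
        linarith
    have hz : 10 * ((t : ℤ) + 1 + 2) < r + 10 * t1 := by exact_mod_cast ht2
    linarith
  obtain ⟨a, b, hab, ha, hb, haB, hbB⟩ := blob_two hx
  by_cases haO : a ∈ O
  · by_cases hbO : b ∈ O
    · have la := (blob_lay_adj ha).2
      have lb := (blob_lay_adj hb).2
      exact no2 x hxO a b hab ha hb haO hbO (by linarith) (by linarith)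
    · exact fin b a hab.symm hb ha hbB haB hbO
  · exact fin a b hab ha hb haB hbB haO

theorem blob (O : Set Site) (j0 Rh : ℕ) (hj : 1000 ≤ j0) (hcore : ∀ x, lay x ≤ j0 → x ∈ O)
    (h1 : ∀ x, x ∉ O → cnt {y | y ∈ O ∧ (j0 : ℤ) < lay y} x ≤ 1)
    (h2 : ∀ x ∈ O, ∀ y ∈ O, (j0 : ℤ) < lay x → lay x < lay y → lay y ≤ lay x + 3 →
      lay y ≤ Rh → lay x ≤ 10 * max |x.1 - y.1| |x.2 - y.2|)
    (r t : ℕ) (hr : j0 < r) (hr' : r + 4 ≤ Rh) (ht : 100 * t + 4 * (j0 + 1) ^ 2 ≤ r ^ 2) :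
    ∀ x ∈ boot O t, (r : ℤ) ≤ lay x → x ∈ O := by
  have key : ∀ r : ℕ, ∀ t : ℕ, r + 1 ≤ Rh → 100 * t + 4 * (j0 + 1) ^ 2 ≤ r ^ 2 →
      ∀ x ∈ boot O t, (r : ℤ) ≤ lay x → x ∈ O := by
    intro r
    induction r using Nat.strong_induction_on with
    | _ r IH =>
    intro t hrR ht
    have hr2 : 2 * (j0 + 1) ≤ r := by
      by_contra hcon
      push Not at hcon
      have : r ^ 2 < (2 * (j0 + 1)) ^ 2 := Nat.pow_lt_pow_left hcon (by norm_num)
      nlinarith
    obtain ⟨q, rfl⟩ : ∃ q, r = q + 2 := ⟨r - 2, by omega⟩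
    by_cases hq : 4 * (j0 + 1) ^ 2 ≤ q ^ 2
    · set t1 := (q ^ 2 - 4 * (j0 + 1) ^ 2) / 100 with ht1
      have ht1a : 100 * t1 + 4 * (j0 + 1) ^ 2 ≤ q ^ 2 := by omega
      have ht1b : q ^ 2 < 100 * t1 + 100 + 4 * (j0 + 1) ^ 2 := by omega
      have hP := IH q (by omega) t1 (by omega) ht1a
      have hst := blob_step O j0 Rh h1 h2 q t1 (by omega) (by omega) hP t (by
        have : (q + 2) ^ 2 = q ^ 2 + 4 * q + 4 := by ring
        omega)
      intro x hx hlx
      exact hst x hx (by push_cast at hlx; linarith)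
    · push Not at hq
      have hq2 : q < 2 * (j0 + 1) := by
        by_contra hcon
        push Not at hcon
        have : (2 * (j0 + 1)) ^ 2 ≤ q ^ 2 := Nat.pow_le_pow_left hcon 2
        nlinarith
      have hP : ∀ x ∈ boot O 0, (q : ℤ) ≤ lay x → x ∈ O := fun x hx _ => hx
      have hst := blob_step O j0 Rh h1 h2 q 0 (by omega) (by omega) hP t (by
        have h3 : (q + 2) ^ 2 = q ^ 2 + 4 * q + 4 := by ring
        omega)
      intro x hx hlx
      exact hst x hx (by push_cast at hlx; linarith)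
  exact key r t (by omega) ht

end TSB
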