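import Pool.Agent.TSB.Defs

open scoped Classical

namespace TSB

private theorem chain1_nb {x y : Site} (h : y ∈ nb x) :
    y = (x.1 + 1, x.2) ∨ y = (x.1 - 1, x.2) ∨ y = (x.1, x.2 + 1) ∨ y = (x.1, x.2 - 1) := by
  simpa [nb] using h

theorem chain_step (O : Set Site) (hO : ∀ x, x ∉ O → cnt O x ≤ 1) (c0 : ℤ) :
    ∀ (t : ℕ) (x : Site), x ∉ O → c0 < x.1 → x ∈ boot ({y | y.1 ≤ c0} ∪ O) t →
      ∃ (y0 : ℤ) (t0 : ℕ), 1 ≤ t0 ∧ |x.2 - y0| + t0 ≤ t ∧ (x.1, y0) ∉ O ∧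
        (∃ z ∈ O, adj (x.1, y0) z) ∧ (x.1 - 1, y0) ∉ O ∧
        (x.1 - 1, y0) ∈ boot ({y | y.1 ≤ c0} ∪ O) (t0 - 1) := by
  set B := boot ({y | y.1 ≤ c0} ∪ O) with hB
  intro t
  induction t using Nat.strong_induction_on with
  | _ t IH =>
  intro x hx hc hxt
  cases t with
  | zero =>
    exfalso
    rcases hxt with h | h
    · exact absurd h (not_le.mpr hc)
    · exact hx h
  | succ t =>
  rcases hxt with hxt | hxt
  · obtain ⟨y0, t0, h1, h2, h3⟩ := IH t (Nat.lt_succ_self t) x hx hc hxt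
    exact ⟨y0, t0, h1, by push_cast; linarith, h3⟩
  change 2 ≤ cnt (B t) x at hxt
  -- up
  by_cases hu : (x.1, x.2 + 1) ∈ B t ∧ (x.1, x.2 + 1) ∉ O
  · obtain ⟨y0, t0, h1, h2, h3⟩ := IH t (Nat.lt_succ_self t) (x.1, x.2 + 1) hu.2 hc hu.1
    refine ⟨y0, t0, h1, ?_, h3⟩
    have : |x.2 - y0| ≤ |x.2 + 1 - y0| + 1 := by
      have := abs_sub_abs_le_abs_sub (x.2 - y0) (x.2 + 1 - y0)
      have e : |(x.2 - y0) - (x.2 + 1 - y0)| = 1 := by
        rw [show (x.2 - y0) - (x.2 + 1 - y0) = -1 by ring]; simp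
      linarith
    push_cast
    simp only at h2
    linarith
  by_cases hd : (x.1, x.2 - 1) ∈ B t ∧ (x.1, x.2 - 1) ∉ O
  · obtain ⟨y0, t0, h1, h2, h3⟩ := IH t (Nat.lt_succ_self t) (x.1, x.2 - 1) hd.2 hc hd.1
    refine ⟨y0, t0, h1, ?_, h3⟩
    have : |x.2 - y0| ≤ |x.2 - 1 - y0| + 1 := by
      have := abs_sub_abs_le_abs_sub (x.2 - y0) (x.2 - 1 - y0)
      have e : |(x.2 - y0) - (x.2 - 1 - y0)| = 1 := by
        rw [show (x.2 - y0) - (x.2 - 1 - y0) = 1 by ring]; simp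
      linarith
    push_cast
    simp only at h2
    linarith
  by_cases hr : (x.1 + 1, x.2) ∈ B t ∧ (x.1 + 1, x.2) ∉ O
  · obtain ⟨y1, t1, h1, h2, -, -, h5, h6⟩ := IH t (Nat.lt_succ_self t) (x.1 + 1, x.2) hr.2
      (by simp only; linarith) hr.1
    simp only [add_sub_cancel_right] at h2 h5 h6
    have ht1 : t1 ≤ t := by
      have := abs_nonneg (x.2 - y1)
      have : (t1 : ℤ) ≤ t := by linarith
      exact_mod_cast this
    obtain ⟨y0, t0, k1, k2, k3⟩ := IH (t1 - 1) (by omega) (x.1, y1) h5 hc h6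
    refine ⟨y0, t0, k1, ?_, k3⟩
    simp only at k2
    have e : ((t1 - 1 : ℕ) : ℤ) = (t1 : ℤ) - 1 := by push_cast [Nat.cast_sub h1]; ring
    rw [e] at k2
    have tri : |x.2 - y0| ≤ |x.2 - y1| + |y1 - y0| := abs_sub_le _ _ _
    push_cast
    linarith
  -- all infected neighbours except possibly the left one are in O
  have hall : ∀ y ∈ nb x, y ∈ B t → y ≠ (x.1 - 1, x.2) → y ∈ O := by
    intro y hy hyB hne
    by_contra hyO
    rcases chain1_nb hy with h | h | h | h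
    · exact hr (h ▸ ⟨hyB, hyO⟩)
    · exact hne h
    · exact hu (h ▸ ⟨hyB, hyO⟩)
    · exact hd (h ▸ ⟨hyB, hyO⟩)
  have hl : (x.1 - 1, x.2) ∈ B t ∧ (x.1 - 1, x.2) ∉ O := by
    by_contra hcon
    have : cnt (B t) x ≤ cnt O x := by
      unfold cnt
      apply Finset.card_le_card
      intro y hy
      simp only [Finset.mem_filter] at hy ⊢
      refine ⟨hy.1, ?_⟩
      by_cases e : y = (x.1 - 1, x.2)
      · by_contra hyO
        exact hcon (e ▸ ⟨hy.2, hyO⟩)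
      · exact hall y hy.1 hy.2 e
    have := hO x hx
    omega
  obtain ⟨z, hz1, hz2, hz3⟩ : ∃ z ∈ nb x, z ∈ B t ∧ z ≠ (x.1 - 1, x.2) := by
    by_contra hcon
    push Not at hcon
    have : cnt (B t) x ≤ 1 := by
      unfold cnt
      rw [← Finset.card_singleton ((x.1 - 1, x.2) : Site)]
      apply Finset.card_le_card
      intro y hy
      simp only [Finset.mem_filter] at hy
      rw [Finset.mem_singleton]
      exact hcon y hy.1 hy.2
    omega
  refine ⟨x.2, t + 1, by omega, by simp, by simpa using hx, ⟨z, hall z hz1 hz2 hz3, ?_⟩, hl.2, ?_⟩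
  · exact hz1
  · simpa using hl.1

end TSB
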