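import Pool.Agent.TSB.Defs

/-! Module PARTS-A of the project on two-stage bootstrap percolation: the rectangles process. -/

open MeasureTheory
open scoped Classical

namespace TSB

theorem mg_nonempty {A : Finset Site} (h : Mg A) : A.Nonempty := by
  induction h with
  | single x => exact Finset.singleton_nonempty x
  | merge A B _ _ _ _ ihA _ => exact ihA.mono Finset.subset_union_left

private theorem partsA_aux (A : Finset Site) : ∀ (n : ℕ) (F : Finset (Finset Site)),
    F.card ≤ n → (∀ P ∈ F, Mg P) → (∀ P ∈ F, ∀ Q ∈ F, P ≠ Q → Disjoint P Q) →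
    (∀ x, x ∈ A ↔ ∃ P ∈ F, x ∈ P) → ∃ Pt, IsParts Pt A := by
  intro n
  induction n with
  | zero =>
    intro F hF h1 h2 h3
    have hF' : F = ∅ := Finset.card_eq_zero.mp (Nat.le_zero.mp hF)
    subst hF'
    refine ⟨∅, ?_, ?_, h3⟩
    · intro P hP; simp at hP
    · intro P hP; simp at hP
  | succ n ih =>
    intro F hF h1 h2 h3
    by_cases hnear : ∃ P ∈ F, ∃ Q ∈ F, P ≠ Q ∧ Near P Q
    · obtain ⟨P, hP, Q, hQ, hPQ, hN⟩ := hnear
      have hQ' : Q ∈ F.erase P := Finset.mem_erase.mpr ⟨fun h => hPQ h.symm, hQ⟩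
      have hc1 : (F.erase P).card = F.card - 1 := Finset.card_erase_of_mem hP
      have hc2 : ((F.erase P).erase Q).card = (F.erase P).card - 1 :=
        Finset.card_erase_of_mem hQ'
      have hpos : 1 ≤ (F.erase P).card := Finset.card_pos.mpr ⟨Q, hQ'⟩
      have hc3 := Finset.card_insert_le (P ∪ Q) ((F.erase P).erase Q)
      have mem_old : ∀ R, R ∈ (F.erase P).erase Q → R ∈ F ∧ R ≠ P ∧ R ≠ Q := by
        intro R hR
        rw [Finset.mem_erase, Finset.mem_erase] at hR
        exact ⟨hR.2.2, hR.2.1, hR.1⟩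
      refine ih (insert (P ∪ Q) ((F.erase P).erase Q)) (by omega) ?_ ?_ ?_
      · intro R hR
        rw [Finset.mem_insert] at hR
        rcases hR with rfl | hR
        · exact Mg.merge P Q (h1 P hP) (h1 Q hQ) (h2 P hP Q hQ hPQ) hN
        · exact h1 R (mem_old R hR).1
      · intro R hR S hS hRS
        rw [Finset.mem_insert] at hR hS
        rcases hR with rfl | hR
        · rcases hS with rfl | hS
          · exact absurd rfl hRS
          · obtain ⟨a, b, c⟩ := mem_old S hS
            rw [Finset.disjoint_union_left]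
            exact ⟨h2 P hP S a (Ne.symm b), h2 Q hQ S a (Ne.symm c)⟩
        · obtain ⟨a, b, c⟩ := mem_old R hR
          rcases hS with rfl | hS
          · rw [Finset.disjoint_union_right]
            exact ⟨h2 R a P hP b, h2 R a Q hQ c⟩
          · exact h2 R a S (mem_old S hS).1 hRS
      · intro x
        rw [h3 x]
        constructor
        · rintro ⟨R, hR, hx⟩
          by_cases hRP : R = P
          · exact ⟨P ∪ Q, Finset.mem_insert_self _ _,
              Finset.mem_union_left _ (hRP ▸ hx)⟩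
          · by_cases hRQ : R = Q
            · exact ⟨P ∪ Q, Finset.mem_insert_self _ _,
                Finset.mem_union_right _ (hRQ ▸ hx)⟩
            · exact ⟨R, Finset.mem_insert_of_mem
                (Finset.mem_erase.mpr ⟨hRQ, Finset.mem_erase.mpr ⟨hRP, hR⟩⟩), hx⟩
        · rintro ⟨R, hR, hx⟩
          rw [Finset.mem_insert] at hR
          rcases hR with rfl | hR
          · rcases Finset.mem_union.mp hx with hx | hx
            · exact ⟨P, hP, hx⟩
            · exact ⟨Q, hQ, hx⟩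
          · exact ⟨R, (mem_old R hR).1, hx⟩
    · refine ⟨F, h1, ?_, h3⟩
      intro P hP Q hQ hPQ
      exact ⟨h2 P hP Q hQ hPQ, fun hN => hnear ⟨P, hP, Q, hQ, hPQ, hN⟩⟩

theorem exists_parts (A : Finset Site) : ∃ Pt, IsParts Pt A := by
  refine partsA_aux A _ (A.image (fun x => ({x} : Finset Site))) le_rfl ?_ ?_ ?_
  · intro P hP
    obtain ⟨x, _, rfl⟩ := Finset.mem_image.mp hP
    exact Mg.single x
  · intro P hP Q hQ hPQ
    obtain ⟨x, _, rfl⟩ := Finset.mem_image.mp hP
    obtain ⟨y, _, rfl⟩ := Finset.mem_image.mp hQ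
    rw [Finset.disjoint_singleton]
    intro h
    exact hPQ (by rw [h])
  · intro x
    constructor
    · intro hx
      exact ⟨{x}, Finset.mem_image.mpr ⟨x, hx, rfl⟩, Finset.mem_singleton_self x⟩
    · rintro ⟨P, hP, hx⟩
      obtain ⟨y, hy, rfl⟩ := Finset.mem_image.mp hP
      rw [Finset.mem_singleton.mp hx]
      exact hy

theorem partsA_sub_hull {P : Finset Site} {x : Site} (hx : x ∈ P) : x ∈ hull P :=
  ⟨⟨x, hx, le_rfl⟩, ⟨x, hx, le_rfl⟩, ⟨x, hx, le_rfl⟩, ⟨x, hx, le_rfl⟩⟩

theorem sub_obst {Pt : Finset (Finset Site)} {A : Finset Site} (h : IsParts Pt A) {x : Site}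
    (hx : x ∈ A) : x ∈ obst Pt := by
  obtain ⟨P, hP, hxP⟩ := (h.2.2 x).mp hx
  exact ⟨P, hP, partsA_sub_hull hxP⟩

/-- a site with two different neighbours in a rectangle is in the rectangle -/
theorem partsA_hull_two_nb {P : Finset Site} {z x y : Site} (hx : x ∈ nb z) (hy : y ∈ nb z)
    (hxy : x ≠ y) (hxP : x ∈ hull P) (hyP : y ∈ hull P) : z ∈ hull P := by
  obtain ⟨⟨a1, ha1, ha1'⟩, ⟨a2, ha2, ha2'⟩, ⟨a3, ha3, ha3'⟩, ⟨a4, ha4, ha4'⟩⟩ := hxP
  obtain ⟨⟨b1, hb1, hb1'⟩, ⟨b2, hb2, hb2'⟩, ⟨b3, hb3, hb3'⟩, ⟨b4, hb4, hb4'⟩⟩ := hyP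
  obtain ⟨z1, z2⟩ := z
  simp only [nb, Finset.mem_insert, Finset.mem_singleton] at hx hy
  rcases hx with rfl | rfl | rfl | rfl <;> rcases hy with rfl | rfl | rfl | rfl <;>
    first
    | exact absurd rfl hxy
    | (simp only at ha1' ha2' ha3' ha4' hb1' hb2' hb3' hb4'
       refine ⟨?_, ?_, ?_, ?_⟩
       · first
         | exact ⟨a1, ha1, by simp only; omega⟩
         | exact ⟨b1, hb1, by simp only; omega⟩
       · first
         | exact ⟨a2, ha2, by simp only; omega⟩
         | exact ⟨b2, hb2, by simp only; omega⟩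
       · first
         | exact ⟨a3, ha3, by simp only; omega⟩
         | exact ⟨b3, hb3, by simp only; omega⟩
       · first
         | exact ⟨a4, ha4, by simp only; omega⟩
         | exact ⟨b4, hb4, by simp only; omega⟩)

theorem partsA_nb_dist {z x y : Site} (hx : x ∈ nb z) (hy : y ∈ nb z) :
    |x.1 - y.1| + |x.2 - y.2| ≤ 2 := by
  obtain ⟨z1, z2⟩ := z
  simp only [nb, Finset.mem_insert, Finset.mem_singleton] at hx hy
  rcases hx with rfl | rfl | rfl | rfl <;> rcases hy with rfl | rfl | rfl | rfl <;>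
    (simp only; ring_nf; norm_num)

theorem obst_cnt {Pt : Finset (Finset Site)} {A : Finset Site} (h : IsParts Pt A) {z : Site}
    (hz : z ∉ obst Pt) : cnt (obst Pt) z ≤ 1 := by
  by_contra hc
  unfold cnt at hc
  rw [not_le, Finset.one_lt_card] at hc
  obtain ⟨x, hx, y, hy, hxy⟩ := hc
  rw [Finset.mem_filter] at hx hy
  obtain ⟨hxz, P, hP, hxP⟩ := hx
  obtain ⟨hyz, Q, hQ, hyQ⟩ := hy
  by_cases hPQ : P = Q
  · subst hPQ
    exact hz ⟨P, hP, partsA_hull_two_nb hxz hyz hxy hxP hyQ⟩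
  · exact (h.2.1 P hP Q hQ hPQ).2 ⟨x, hxP, y, hyQ, partsA_nb_dist hxz hyz⟩

end TSB
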