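import Pool.Agent.TSB.Defs

/-! Module PARTS-B of the project on two-stage bootstrap percolation: inductions on merged sets. -/

open MeasureTheory
open scoped Classical

namespace TSB

theorem partsB_nonempty {A : Finset Site} (h : Mg A) : A.Nonempty := by
  induction h with
  | single x => exact Finset.singleton_nonempty x
  | merge A B _ _ _ _ ihA _ => exact ihA.mono Finset.subset_union_left

/-- points of the hull are within the span of `A` of the points of `A` -/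
theorem partsB_hull_close {A : Finset Site} {n : ℤ}
    (h : ∀ x ∈ A, ∀ y ∈ A, |x.1 - y.1| ≤ n ∧ |x.2 - y.2| ≤ n) {x u : Site} (hx : x ∈ A)
    (hu : u ∈ hull A) : |x.1 - u.1| ≤ n ∧ |x.2 - u.2| ≤ n := by
  obtain ⟨⟨a1, ha1, ha1'⟩, ⟨a2, ha2, ha2'⟩, ⟨a3, ha3, ha3'⟩, ⟨a4, ha4, ha4'⟩⟩ := hu
  have e1 := abs_le.mp (h x hx a1 ha1).1
  have e2 := abs_le.mp (h x hx a2 ha2).1
  have e3 := abs_le.mp (h x hx a3 ha3).2
  have e4 := abs_le.mp (h x hx a4 ha4).2
  refine ⟨abs_le.mpr ⟨?_, ?_⟩, abs_le.mpr ⟨?_, ?_⟩⟩ <;> omega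

/-- differences between points of two near sets -/
theorem partsB_merge_close {A B : Finset Site} {n m : ℤ}
    (hA : ∀ x ∈ A, ∀ y ∈ A, |x.1 - y.1| ≤ n ∧ |x.2 - y.2| ≤ n)
    (hB : ∀ x ∈ B, ∀ y ∈ B, |x.1 - y.1| ≤ m ∧ |x.2 - y.2| ≤ m) (hN : Near A B)
    {x y : Site} (hx : x ∈ A) (hy : y ∈ B) :
    |x.1 - y.1| ≤ n + m + 2 ∧ |x.2 - y.2| ≤ n + m + 2 := by
  obtain ⟨u, hu, v, hv, huv⟩ := hN
  obtain ⟨e1, e2⟩ := partsB_hull_close hA hx hu
  obtain ⟨e3, e4⟩ := partsB_hull_close hB hy hv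
  have f1 := abs_le.mp e1
  have f2 := abs_le.mp e2
  have f3 := abs_le.mp e3
  have f4 := abs_le.mp e4
  have g1 := abs_nonneg (u.1 - v.1)
  have g2 := abs_nonneg (u.2 - v.2)
  have g3 : |u.1 - v.1| ≤ 2 := by omega
  have g4 : |u.2 - v.2| ≤ 2 := by omega
  have g5 := abs_le.mp g3
  have g6 := abs_le.mp g4
  refine ⟨abs_le.mpr ⟨?_, ?_⟩, abs_le.mpr ⟨?_, ?_⟩⟩ <;> omega

theorem partsB_abs_symm {x y : Site} {n : ℤ} (h : |x.1 - y.1| ≤ n ∧ |x.2 - y.2| ≤ n) :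
    |y.1 - x.1| ≤ n ∧ |y.2 - x.2| ≤ n := by
  rw [abs_sub_comm y.1, abs_sub_comm y.2]
  exact h

theorem mg_span {A : Finset Site} (h : Mg A) : ∀ x ∈ A, ∀ y ∈ A,
    |x.1 - y.1| ≤ 2 * ((A.card : ℤ) - 1) ∧ |x.2 - y.2| ≤ 2 * ((A.card : ℤ) - 1) := by
  induction h with
  | single z =>
    intro x hx y hy
    rw [Finset.mem_singleton] at hx hy
    subst hx
    subst hy
    simp
  | merge A B hA hB hd hN ihA ihB =>
    intro x hx y hy
    have hc : (A ∪ B).card = A.card + B.card := Finset.card_union_of_disjoint hd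
    have hc' : ((A ∪ B).card : ℤ) = A.card + B.card := by rw [hc]; push_cast; ring
    have pA : 1 ≤ (A.card : ℤ) := by exact_mod_cast (partsB_nonempty hA).card_pos
    have pB : 1 ≤ (B.card : ℤ) := by exact_mod_cast (partsB_nonempty hB).card_pos
    rw [hc']
    rcases Finset.mem_union.mp hx with hx | hx <;> rcases Finset.mem_union.mp hy with hy | hy
    · have := ihA x hx y hy
      constructor <;> linarith [this.1, this.2]
    · have := partsB_merge_close ihA ihB hN hx hy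
      constructor <;> linarith [this.1, this.2]
    · have := partsB_abs_symm (partsB_merge_close ihA ihB hN hy hx)
      constructor <;> linarith [this.1, this.2]
    · have := ihB x hx y hy
      constructor <;> linarith [this.1, this.2]

theorem mg_card_inter {A : Finset Site} (h : Mg A) (h3 : 3 ≤ A.card) :
    ∃ B ⊆ A, Mg B ∧ 3 ≤ B.card ∧ B.card ≤ 4 := by
  induction h with
  | single z => simp at h3
  | merge A B hA hB hd hN ihA ihB =>
    have hc : (A ∪ B).card = A.card + B.card := Finset.card_union_of_disjoint hd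
    by_cases cA : 3 ≤ A.card
    · obtain ⟨C, h1, h2⟩ := ihA cA
      exact ⟨C, h1.trans Finset.subset_union_left, h2⟩
    · by_cases cB : 3 ≤ B.card
      · obtain ⟨C, h1, h2⟩ := ihB cB
        exact ⟨C, h1.trans Finset.subset_union_right, h2⟩
      · exact ⟨A ∪ B, subset_rfl, Mg.merge A B hA hB hd hN, h3, by omega⟩

theorem mg_pair {A : Finset Site} (h : Mg A) (h2 : 2 ≤ A.card) :
    ∃ x ∈ A, ∃ y ∈ A, x ≠ y ∧ |x.1 - y.1| + |x.2 - y.2| ≤ 2 := by
  induction h with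
  | single z => simp at h2
  | merge A B hA hB hd hN ihA ihB =>
    by_cases cA : 2 ≤ A.card
    · obtain ⟨x, hx, y, hy, h⟩ := ihA cA
      exact ⟨x, Finset.mem_union_left _ hx, y, Finset.mem_union_left _ hy, h⟩
    · by_cases cB : 2 ≤ B.card
      · obtain ⟨x, hx, y, hy, h⟩ := ihB cB
        exact ⟨x, Finset.mem_union_right _ hx, y, Finset.mem_union_right _ hy, h⟩
      · have pA : 1 ≤ A.card := (partsB_nonempty hA).card_pos
        have pB : 1 ≤ B.card := (partsB_nonempty hB).card_pos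
        obtain ⟨x, rfl⟩ := Finset.card_eq_one.mp (by omega : A.card = 1)
        obtain ⟨y, rfl⟩ := Finset.card_eq_one.mp (by omega : B.card = 1)
        refine ⟨x, Finset.mem_union_left _ (Finset.mem_singleton_self x), y,
          Finset.mem_union_right _ (Finset.mem_singleton_self y), ?_, ?_⟩
        · rintro rfl
          exact (Finset.disjoint_singleton.mp hd) rfl
        · obtain ⟨u, hu, v, hv, huv⟩ := hN
          simp only [hull, Finset.mem_singleton, exists_eq_left, Set.mem_ofPred_eq] at hu hv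
          have e1 : u.1 = x.1 := le_antisymm hu.2.1 hu.1
          have e2 : u.2 = x.2 := le_antisymm hu.2.2.2 hu.2.2.1
          have e3 : v.1 = y.1 := le_antisymm hv.2.1 hv.1
          have e4 : v.2 = y.2 := le_antisymm hv.2.2.2 hv.2.2.1
          rw [e1, e2, e3, e4] at huv
          exact huv

theorem mg_span_inter {A : Finset Site} (h : Mg A) (k : ℕ) (hk : 1 ≤ k)
    (hA : ∃ x ∈ A, ∃ y ∈ A, (k : ℤ) ≤ |x.1 - y.1| ∨ (k : ℤ) ≤ |x.2 - y.2|) :
    ∃ B ⊆ A, Mg B ∧ SpanLe (2 * k) (B : Set Site) ∧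
      ∃ x ∈ B, ∃ y ∈ B, (k : ℤ) ≤ |x.1 - y.1| ∨ (k : ℤ) ≤ |x.2 - y.2| := by
  induction h with
  | single z =>
    exfalso
    obtain ⟨x, hx, y, hy, h⟩ := hA
    rw [Finset.mem_singleton] at hx hy
    subst hx
    subst hy
    simp only [sub_self, abs_zero, or_self] at h
    omega
  | merge A B mA mB hd hN ihA ihB =>
    by_cases cA : ∃ x ∈ A, ∃ y ∈ A, (k : ℤ) ≤ |x.1 - y.1| ∨ (k : ℤ) ≤ |x.2 - y.2|
    · obtain ⟨C, h1, h2⟩ := ihA cA
      exact ⟨C, h1.trans Finset.subset_union_left, h2⟩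
    · by_cases cB : ∃ x ∈ B, ∃ y ∈ B, (k : ℤ) ≤ |x.1 - y.1| ∨ (k : ℤ) ≤ |x.2 - y.2|
      · obtain ⟨C, h1, h2⟩ := ihB cB
        exact ⟨C, h1.trans Finset.subset_union_right, h2⟩
      · have sA : ∀ x ∈ A, ∀ y ∈ A, |x.1 - y.1| ≤ (k : ℤ) - 1 ∧ |x.2 - y.2| ≤ (k : ℤ) - 1 := by
          intro x hx y hy
          have h' : ¬ ((k : ℤ) ≤ |x.1 - y.1| ∨ (k : ℤ) ≤ |x.2 - y.2|) :=
            fun h => cA ⟨x, hx, y, hy, h⟩
          omega
        have sB : ∀ x ∈ B, ∀ y ∈ B, |x.1 - y.1| ≤ (k : ℤ) - 1 ∧ |x.2 - y.2| ≤ (k : ℤ) - 1 := by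
          intro x hx y hy
          have h' : ¬ ((k : ℤ) ≤ |x.1 - y.1| ∨ (k : ℤ) ≤ |x.2 - y.2|) :=
            fun h => cB ⟨x, hx, y, hy, h⟩
          omega
        refine ⟨A ∪ B, subset_rfl, Mg.merge A B mA mB hd hN, ?_, hA⟩
        intro x hx y hy
        rw [Finset.mem_coe, Finset.mem_union] at hx hy
        have e : ((2 * k : ℕ) : ℤ) = (k : ℤ) - 1 + ((k : ℤ) - 1) + 2 := by push_cast; ring
        rw [e]
        rcases hx with hx | hx <;> rcases hy with hy | hy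
        · have := sA x hx y hy
          constructor <;> omega
        · exact partsB_merge_close sA sB hN hx hy
        · exact partsB_abs_symm (partsB_merge_close sA sB hN hy hx)
        · have := sB x hx y hy
          constructor <;> omega

theorem mg_tight1 {A : Finset Site} (h : Mg A) (c : ℤ) (h1 : ∃ a ∈ A, a.1 ≤ c)
    (h2 : ∃ a ∈ A, c + 1 ≤ a.1) : ∃ a ∈ A, a.1 = c ∨ a.1 = c + 1 := by
  induction h with
  | single z =>
    obtain ⟨a, ha, h1⟩ := h1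
    obtain ⟨b, hb, h2⟩ := h2
    rw [Finset.mem_singleton] at ha hb
    subst ha
    subst hb
    omega
  | merge A B mA mB hd hN ihA ihB =>
    by_cases cA : (∃ a ∈ A, a.1 ≤ c) ∧ (∃ a ∈ A, c + 1 ≤ a.1)
    · obtain ⟨a, ha, h⟩ := ihA cA.1 cA.2
      exact ⟨a, Finset.mem_union_left _ ha, h⟩
    by_cases cB : (∃ a ∈ B, a.1 ≤ c) ∧ (∃ a ∈ B, c + 1 ≤ a.1)
    · obtain ⟨a, ha, h⟩ := ihB cB.1 cB.2
      exact ⟨a, Finset.mem_union_right _ ha, h⟩
    obtain ⟨u, hu, v, hv, huv⟩ := hN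
    have g1 := abs_nonneg (u.1 - v.1)
    have g2 := abs_nonneg (u.2 - v.2)
    have g3 : |u.1 - v.1| ≤ 2 := by omega
    have g5 := abs_le.mp g3
    obtain ⟨⟨a1, ha1, ha1'⟩, ⟨a2, ha2, ha2'⟩, -, -⟩ := hu
    obtain ⟨⟨b1, hb1, hb1'⟩, ⟨b2, hb2, hb2'⟩, -, -⟩ := hv
    have kA : ∀ x ∈ A, ∀ y ∈ A, x.1 ≤ c → y.1 ≤ c := by
      intro x hx y hy hxc
      by_contra hyc
      exact cA ⟨⟨x, hx, hxc⟩, ⟨y, hy, by omega⟩⟩
    have kB : ∀ x ∈ B, ∀ y ∈ B, x.1 ≤ c → y.1 ≤ c := by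
      intro x hx y hy hxc
      by_contra hyc
      exact cB ⟨⟨x, hx, hxc⟩, ⟨y, hy, by omega⟩⟩
    obtain ⟨p, hp, hpc⟩ := h1
    obtain ⟨r, hr, hrc⟩ := h2
    rw [Finset.mem_union] at hp hr
    rcases hp with hp | hp <;> rcases hr with hr | hr
    · have := kA p hp r hr hpc
      omega
    · have e1 := kA p hp a2 ha2 hpc
      have e2 : ¬ b1.1 ≤ c := fun h => by have := kB b1 hb1 r hr h; omega
      by_cases e3 : a2.1 = c
      · exact ⟨a2, Finset.mem_union_left _ ha2, Or.inl e3⟩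
      · exact ⟨b1, Finset.mem_union_right _ hb1, Or.inr (by omega)⟩
    · have e1 := kB p hp b2 hb2 hpc
      have e2 : ¬ a1.1 ≤ c := fun h => by have := kA a1 ha1 r hr h; omega
      by_cases e3 : b2.1 = c
      · exact ⟨b2, Finset.mem_union_right _ hb2, Or.inl e3⟩
      · exact ⟨a1, Finset.mem_union_left _ ha1, Or.inr (by omega)⟩
    · have := kB p hp r hr hpc
      omega

theorem mg_tight2 {A : Finset Site} (h : Mg A) (c : ℤ) (h1 : ∃ a ∈ A, a.2 ≤ c)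
    (h2 : ∃ a ∈ A, c + 1 ≤ a.2) : ∃ a ∈ A, a.2 = c ∨ a.2 = c + 1 := by
  induction h with
  | single z =>
    obtain ⟨a, ha, h1⟩ := h1
    obtain ⟨b, hb, h2⟩ := h2
    rw [Finset.mem_singleton] at ha hb
    subst ha
    subst hb
    omega
  | merge A B mA mB hd hN ihA ihB =>
    by_cases cA : (∃ a ∈ A, a.2 ≤ c) ∧ (∃ a ∈ A, c + 1 ≤ a.2)
    · obtain ⟨a, ha, h⟩ := ihA cA.1 cA.2
      exact ⟨a, Finset.mem_union_left _ ha, h⟩
    by_cases cB : (∃ a ∈ B, a.2 ≤ c) ∧ (∃ a ∈ B, c + 1 ≤ a.2)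
    · obtain ⟨a, ha, h⟩ := ihB cB.1 cB.2
      exact ⟨a, Finset.mem_union_right _ ha, h⟩
    obtain ⟨u, hu, v, hv, huv⟩ := hN
    have g1 := abs_nonneg (u.1 - v.1)
    have g2 := abs_nonneg (u.2 - v.2)
    have g3 : |u.2 - v.2| ≤ 2 := by omega
    have g5 := abs_le.mp g3
    obtain ⟨-, -, ⟨a1, ha1, ha1'⟩, ⟨a2, ha2, ha2'⟩⟩ := hu
    obtain ⟨-, -, ⟨b1, hb1, hb1'⟩, ⟨b2, hb2, hb2'⟩⟩ := hv
    have kA : ∀ x ∈ A, ∀ y ∈ A, x.2 ≤ c → y.2 ≤ c := by
      intro x hx y hy hxc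
      by_contra hyc
      exact cA ⟨⟨x, hx, hxc⟩, ⟨y, hy, by omega⟩⟩
    have kB : ∀ x ∈ B, ∀ y ∈ B, x.2 ≤ c → y.2 ≤ c := by
      intro x hx y hy hxc
      by_contra hyc
      exact cB ⟨⟨x, hx, hxc⟩, ⟨y, hy, by omega⟩⟩
    obtain ⟨p, hp, hpc⟩ := h1
    obtain ⟨r, hr, hrc⟩ := h2
    rw [Finset.mem_union] at hp hr
    rcases hp with hp | hp <;> rcases hr with hr | hr
    · have := kA p hp r hr hpc
      omega
    · have e1 := kA p hp a2 ha2 hpc
      have e2 : ¬ b1.2 ≤ c := fun h => by have := kB b1 hb1 r hr h; omega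
      by_cases e3 : a2.2 = c
      · exact ⟨a2, Finset.mem_union_left _ ha2, Or.inl e3⟩
      · exact ⟨b1, Finset.mem_union_right _ hb1, Or.inr (by omega)⟩
    · have e1 := kB p hp b2 hb2 hpc
      have e2 : ¬ a1.2 ≤ c := fun h => by have := kA a1 ha1 r hr h; omega
      by_cases e3 : b2.2 = c
      · exact ⟨b2, Finset.mem_union_right _ hb2, Or.inl e3⟩
      · exact ⟨a1, Finset.mem_union_left _ ha1, Or.inr (by omega)⟩
    · have := kB p hp r hr hpc
      omega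

end TSB
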