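import Pool.Agent.TSB.Defs
import Pool.Agent.TSB.PartsA
import Pool.Agent.TSB.PartsB
import Pool.Agent.TSB.Chain1

open scoped Classical

namespace TSB

/-- The inverse of `dirc i`. -/
def chain2_inv (i : Fin 4) (y : Site) : Site :=
  match i with
  | 0 => (y.1, y.2)
  | 1 => (-y.1, y.2)
  | 2 => (y.2, y.1)
  | 3 => (y.2, -y.1)

theorem chain2_inv_dirc (i : Fin 4) (x : Site) : chain2_inv i (dirc i x) = x := by
  fin_cases i <;> simp [chain2_inv, dirc]

theorem chain2_dirc_inv (i : Fin 4) (x : Site) : dirc i (chain2_inv i x) = x := by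
  fin_cases i <;> simp [chain2_inv, dirc]

theorem chain2_nb (i : Fin 4) (y : Site) : (nb y).image (chain2_inv i) = nb (chain2_inv i y) := by
  ext z
  simp only [nb, Finset.image_insert, Finset.image_singleton, Finset.mem_insert,
    Finset.mem_singleton]
  fin_cases i
  · simp only [chain2_inv]
  · simp only [chain2_inv]
    rw [show -(y.1 + 1) = -y.1 - 1 by ring, show -(y.1 - 1) = -y.1 + 1 by ring]
    tauto
  · simp only [chain2_inv]
    tauto
  · simp only [chain2_inv]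
    rw [show -(y.1 + 1) = -y.1 - 1 by ring, show -(y.1 - 1) = -y.1 + 1 by ring]
    tauto

theorem chain2_inv_inj (i : Fin 4) : Function.Injective (chain2_inv i) := by
  intro x y h
  rw [← chain2_dirc_inv i x, ← chain2_dirc_inv i y, h]

theorem chain2_cnt (i : Fin 4) (S : Set Site) (y : Site) :
    cnt {z | chain2_inv i z ∈ S} y = cnt S (chain2_inv i y) := by
  unfold cnt
  rw [← chain2_nb, Finset.filter_image, Finset.card_image_of_injective _ (chain2_inv_inj i)]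
  rfl

theorem chain2_boot (i : Fin 4) (A : Set Site) (t : ℕ) :
    boot {z | chain2_inv i z ∈ A} t = {z | chain2_inv i z ∈ boot A t} := by
  induction t with
  | zero => rfl
  | succ t ih =>
    simp only [boot]
    rw [ih]
    ext y
    simp only [Set.mem_union, Set.mem_ofPred_eq]
    rw [chain2_cnt]

/-- Iteration of `chain_step`. -/
theorem chain2_seq (O : Set Site) (hO : ∀ x, x ∉ O → cnt O x ≤ 1) (c0 : ℤ) :
    ∀ (N t : ℕ) (x : Site), x ∉ O → x.1 = c0 + N → x ∈ boot ({y | y.1 ≤ c0} ∪ O) t →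
      ∃ (y : ℕ → ℤ) (τ : ℕ → ℤ), (∀ n < N, ∃ z ∈ O, adj (c0 + N - n, y n) z) ∧
        (∀ n < N, 0 ≤ τ n) ∧ (1 ≤ N → |x.2 - y 0| + τ 0 ≤ t) ∧
        (∀ n, n + 1 < N → |y n - y (n + 1)| + τ (n + 1) ≤ τ n) := by
  intro N
  induction N with
  | zero =>
    intro t x _ _ _
    exact ⟨fun _ => 0, fun _ => 0, by simp, by simp, by simp, by simp⟩
  | succ N ih =>
    intro t x hx hx1 hb
    obtain ⟨y0, t0, ht0, hle, _, hz, hn, hb'⟩ := chain_step O hO c0 t x hx
      (by rw [hx1]; push_cast; linarith) hb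
    obtain ⟨y, τ, h1, h2, h3, h4⟩ := ih (t0 - 1) (x.1 - 1, y0) hn
      (by rw [hx1]; push_cast; ring) hb'
    refine ⟨fun n => match n with | 0 => y0 | n + 1 => y n,
      fun n => match n with | 0 => (t0 : ℤ) | n + 1 => τ n, ?_, ?_, ?_, ?_⟩
    · intro n hn
      rcases n with _ | n
      · obtain ⟨z, hz1, hz2⟩ := hz
        refine ⟨z, hz1, ?_⟩
        have : x.1 = c0 + ((N + 1 : ℕ) : ℤ) - ((0 : ℕ) : ℤ) := by rw [hx1]; push_cast; ring
        rw [← this]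
        exact hz2
      · obtain ⟨z, hz1, hz2⟩ := h1 n (by omega)
        refine ⟨z, hz1, ?_⟩
        have : c0 + ((N + 1 : ℕ) : ℤ) - ((n + 1 : ℕ) : ℤ) = c0 + N - n := by push_cast; ring
        rw [this]
        exact hz2
    · intro n hn
      rcases n with _ | n
      · simp
      · exact h2 n (by omega)
    · intro _
      exact hle
    · intro n hn
      rcases n with _ | n
      · have h6 := h3 (by omega)
        have h5 : ((t0 - 1 : ℕ) : ℤ) = (t0 : ℤ) - 1 := by omega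
        rw [h5] at h6
        have h7 : |y0 - y 0| + τ 0 ≤ (t0 : ℤ) - 1 := h6
        change |y0 - y 0| + τ 0 ≤ (t0 : ℤ)
        linarith
      · exact h4 n (by omega)

theorem chain2_far {y τ : ℕ → ℤ} {N : ℕ}
    (h4 : ∀ n, n + 1 < N → |y n - y (n + 1)| + τ (n + 1) ≤ τ n) :
    ∀ m n, n ≤ m → m < N → |y n - y m| + τ m ≤ τ n := by
  intro m n hnm
  induction m, hnm using Nat.le_induction with
  | base => intro _; simp
  | succ m hnm ih =>
    intro hm
    have h1 := ih (by omega)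
    have h2 := h4 m hm
    have h3 : |y n - y (m + 1)| ≤ |y n - y m| + |y m - y (m + 1)| := abs_sub_le _ _ _
    linarith

theorem chain2_hull (i : Fin 4) (P : Finset Site) (z : Site) (hz : z ∈ hull P) :
    (∃ a ∈ P, (dirc i a).1 ≤ (dirc i z).1) ∧ (∃ a ∈ P, (dirc i z).1 ≤ (dirc i a).1) ∧
    (∃ a ∈ P, (dirc i a).2 ≤ (dirc i z).2) ∧ (∃ a ∈ P, (dirc i z).2 ≤ (dirc i a).2) := by
  obtain ⟨⟨a, ha, ha'⟩, ⟨b, hb, hb'⟩, ⟨c, hc, hc'⟩, ⟨d, hd, hd'⟩⟩ := hz
  fin_cases i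
  · exact ⟨⟨a, ha, ha'⟩, ⟨b, hb, hb'⟩, ⟨c, hc, hc'⟩, ⟨d, hd, hd'⟩⟩
  · exact ⟨⟨b, hb, neg_le_neg hb'⟩, ⟨a, ha, neg_le_neg ha'⟩, ⟨c, hc, hc'⟩, ⟨d, hd, hd'⟩⟩
  · exact ⟨⟨c, hc, hc'⟩, ⟨d, hd, hd'⟩, ⟨a, ha, ha'⟩, ⟨b, hb, hb'⟩⟩
  · exact ⟨⟨d, hd, neg_le_neg hd'⟩, ⟨c, hc, neg_le_neg hc'⟩, ⟨a, ha, ha'⟩, ⟨b, hb, hb'⟩⟩

theorem chain2_tight (i : Fin 4) {P : Finset Site} (h : Mg P) (c : ℤ)
    (h1 : ∃ a ∈ P, (dirc i a).1 ≤ c) (h2 : ∃ a ∈ P, c + 1 ≤ (dirc i a).1) :
    ∃ a ∈ P, (dirc i a).1 = c ∨ (dirc i a).1 = c + 1 := by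
  obtain ⟨a, ha, ha'⟩ := h1
  obtain ⟨b, hb, hb'⟩ := h2
  fin_cases i
  · exact mg_tight1 h c ⟨a, ha, ha'⟩ ⟨b, hb, hb'⟩
  · simp only [dirc] at ha' hb' ⊢
    obtain ⟨e, he, he'⟩ := mg_tight1 h (-c - 1) ⟨b, hb, by linarith⟩ ⟨a, ha, by linarith⟩
    refine ⟨e, he, ?_⟩
    omega
  · exact mg_tight2 h c ⟨a, ha, ha'⟩ ⟨b, hb, hb'⟩
  · simp only [dirc] at ha' hb' ⊢
    obtain ⟨e, he, he'⟩ := mg_tight2 h (-c - 1) ⟨b, hb, by linarith⟩ ⟨a, ha, by linarith⟩
    refine ⟨e, he, ?_⟩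
    omega

theorem chain2_span (i : Fin 4) {P : Finset Site} {k : ℕ} (h : SpanLe k (P : Set Site))
    {a b : Site} (ha : a ∈ P) (hb : b ∈ P) : |(dirc i a).2 - (dirc i b).2| ≤ k := by
  have := h a ha b hb
  fin_cases i
  · exact this.2
  · exact this.2
  · exact this.1
  · exact this.1

theorem seeds_chain (i : Fin 4) (A : Finset Site) (Pt : Finset (Finset Site))
    (hP : IsParts Pt A) (k : ℕ) (hk : ∀ P ∈ Pt, SpanLe k (P : Set Site)) (c0 : ℤ) (N : ℕ)
    (hN : 1 ≤ N) (t : ℕ) (x : Site) (hx : x ∉ obst Pt) (hxc : (dirc i x).1 = c0 + N)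
    (hb : x ∈ boot ({y | (dirc i y).1 ≤ c0} ∪ obst Pt) t) :
    ∃ f : ℕ → Site, (∀ j ≤ (N - 1) / 4, f j ∈ A) ∧
      (∀ j < (N - 1) / 4, 1 ≤ (dirc i (f j)).1 - (dirc i (f (j + 1))).1 ∧
        (dirc i (f j)).1 - (dirc i (f (j + 1))).1 ≤ 4) ∧
      ∑ j ∈ Finset.range ((N - 1) / 4), |(dirc i (f j)).2 - (dirc i (f (j + 1))).2|
        ≤ (t : ℤ) + 2 * (k + 1) * (((N - 1) / 4 : ℕ) : ℤ) := by
  -- transported obstacle set
  set O : Set Site := {z | chain2_inv i z ∈ obst Pt} with hOdef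
  have hO : ∀ y, y ∉ O → cnt O y ≤ 1 := by
    intro y hy
    rw [hOdef, chain2_cnt]
    exact obst_cnt hP hy
  have hx' : dirc i x ∉ O := by
    rw [hOdef, Set.mem_ofPred_eq, chain2_inv_dirc]
    exact hx
  have hb' : dirc i x ∈ boot ({y | y.1 ≤ c0} ∪ O) t := by
    have h1 : ({y : Site | y.1 ≤ c0} ∪ O) =
        {z | chain2_inv i z ∈ ({y | (dirc i y).1 ≤ c0} ∪ obst Pt : Set Site)} := by
      ext z
      simp only [hOdef, Set.mem_union, Set.mem_ofPred_eq, chain2_dirc_inv]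
    rw [h1, chain2_boot, Set.mem_ofPred_eq, chain2_inv_dirc]
    exact hb
  obtain ⟨y, τ, h1, h2, h3, h4⟩ := chain2_seq O hO c0 N t (dirc i x) hx' hxc hb'
  -- the twos
  have hA : ∀ n : ℕ, n < N → ∃ a ∈ A, (dirc i a).1 ≤ c0 + N - n + 1 ∧ c0 + N - n - 2 ≤ (dirc i a).1 ∧
      |(dirc i a).2 - y n| ≤ k + 1 := by
    intro n hn
    obtain ⟨z, hz, hadj⟩ := h1 n hn
    obtain ⟨P, hPP, hzP⟩ := hz
    have hzz := chain2_hull i P _ hzP
    rw [chain2_dirc_inv] at hzz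
    obtain ⟨⟨a1, ha1, ha1'⟩, ⟨a2, ha2, ha2'⟩, ⟨a3, ha3, ha3'⟩, ⟨a4, ha4, ha4'⟩⟩ := hzz
    have hadj' : |z.1 - (c0 + N - n)| ≤ 1 ∧ |z.2 - y n| ≤ 1 := by
      simp only [adj, nb, Finset.mem_insert, Finset.mem_singleton] at hadj
      rcases hadj with h | h | h | h <;> rw [h] <;> simp
    have hex : ∃ a ∈ P, (dirc i a).1 = z.1 - 1 ∨ (dirc i a).1 = z.1 := by
      by_cases hcase : ∃ a ∈ P, (dirc i a).1 ≤ z.1 - 1
      · obtain ⟨a, ha, ha'⟩ := chain2_tight i (hP.1 P hPP) (z.1 - 1) hcase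
          ⟨a2, ha2, by linarith⟩
        refine ⟨a, ha, ?_⟩
        rcases ha' with h | h
        · exact Or.inl h
        · right; rw [h]; ring
      · push Not at hcase
        refine ⟨a1, ha1, Or.inr ?_⟩
        have := hcase a1 ha1
        omega
    obtain ⟨a, ha, ha'⟩ := hex
    refine ⟨a, (hP.2.2 a).mpr ⟨P, hPP, ha⟩, ?_, ?_, ?_⟩
    · have := abs_le.mp hadj'.1
      rcases ha' with h | h <;> rw [h] <;> linarith
    · have := abs_le.mp hadj'.1
      rcases ha' with h | h <;> rw [h] <;> linarith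
    · have e1 := abs_le.mp (chain2_span i (hk P hPP) ha ha3)
      have e2 := abs_le.mp (chain2_span i (hk P hPP) ha ha4)
      have e3 := abs_le.mp hadj'.2
      rw [abs_le]
      constructor <;> linarith
  choose! a haA haU haL haY using hA
  -- indices of the columns
  obtain ⟨ν, hν0, hνs⟩ : ∃ ν : ℕ → ℕ, ν 0 = 0 ∧
      ∀ j, ν (j + 1) = (c0 + N - ((dirc i (a (ν j))).1 - 2)).toNat :=
    ⟨fun j => Nat.rec 0 (fun _ n => (c0 + N - ((dirc i (a n)).1 - 2)).toNat) j, rfl,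
      fun _ => rfl⟩
  have hstep : ∀ j, ν j < N → ν j + 1 ≤ ν (j + 1) ∧ ν (j + 1) ≤ ν j + 4 ∧
      ((ν (j + 1) : ℕ) : ℤ) = c0 + N - ((dirc i (a (ν j))).1 - 2) := by
    intro j hj
    have u := haU (ν j) hj
    have l := haL (ν j) hj
    have e : ((ν (j + 1) : ℕ) : ℤ) = c0 + N - ((dirc i (a (ν j))).1 - 2) := by
      rw [hνs, Int.toNat_of_nonneg]
      linarith [Int.natCast_nonneg (ν j)]
    refine ⟨?_, ?_, e⟩
    · have : ((ν j : ℕ) : ℤ) + 1 ≤ ((ν (j + 1) : ℕ) : ℤ) := by rw [e]; linarith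
      exact_mod_cast this
    · have : ((ν (j + 1) : ℕ) : ℤ) ≤ ((ν j : ℕ) : ℤ) + 4 := by rw [e]; linarith
      exact_mod_cast this
  have hbd : ∀ j, j ≤ (N - 1) / 4 → ν j ≤ 4 * j ∧ ν j < N := by
    intro j
    induction j with
    | zero => intro _; rw [hν0]; omega
    | succ j ih =>
      intro hj
      obtain ⟨h5, h6⟩ := ih (by omega)
      have h7 := (hstep j h6).2.1
      constructor
      · omega
      · omega
  refine ⟨fun j => a (ν j), ?_, ?_, ?_⟩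
  · intro j hj
    exact haA _ (hbd j hj).2
  · intro j hj
    have hj1 := (hbd j (by omega)).2
    have hj2 := (hbd (j + 1) (by omega)).2
    have e := (hstep j hj1).2.2
    have u := haU (ν (j + 1)) hj2
    have l := haL (ν (j + 1)) hj2
    rw [e] at u l
    constructor <;> linarith
  · -- the sum
    have key : ∀ J, J ≤ (N - 1) / 4 →
        ∑ j ∈ Finset.range J, |(dirc i (a (ν j))).2 - (dirc i (a (ν (j + 1)))).2|
          + τ (ν J) ≤ τ 0 + 2 * (k + 1) * (J : ℤ) := by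
      intro J
      induction J with
      | zero => intro _; simp [hν0]
      | succ J ih =>
        intro hJ
        have h5 := ih (by omega)
        have hj1 := (hbd J (by omega)).2
        have hj2 := (hbd (J + 1) hJ).2
        have h6 := chain2_far h4 (ν (J + 1)) (ν J) (by have := (hstep J hj1).1; omega) hj2
        have h7 := haY (ν J) hj1
        have h8 := haY (ν (J + 1)) hj2
        have h9 : |(dirc i (a (ν J))).2 - (dirc i (a (ν (J + 1)))).2| ≤
            |(dirc i (a (ν J))).2 - y (ν J)| + |y (ν J) - y (ν (J + 1))| +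
              |(dirc i (a (ν (J + 1)))).2 - y (ν (J + 1))| := by
          have e1 : (dirc i (a (ν J))).2 - (dirc i (a (ν (J + 1)))).2 =
            ((dirc i (a (ν J))).2 - y (ν J)) + (y (ν J) - y (ν (J + 1))) +
              (-((dirc i (a (ν (J + 1)))).2 - y (ν (J + 1)))) := by ring
          rw [e1]
          refine le_trans (abs_add_le _ _) ?_
          rw [abs_neg]
          gcongr
          exact abs_add_le _ _
        rw [Finset.sum_range_succ]
        push_cast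
        linarith
    have h5 := key ((N - 1) / 4) le_rfl
    have h6 := h2 (ν ((N - 1) / 4)) (hbd _ le_rfl).2
    have h7 := h3 hN
    have h8 := abs_nonneg ((dirc i x).2 - y 0)
    linarith

end TSB
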