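import Pool.Agent.TSB.Dyn

open scoped Classical

namespace TSB

private theorem closure_cnt2 {C : Set Site} {x a b : Site} (hab : a ≠ b) (ha : adj x a)
    (hb : adj x b) (haC : a ∈ C) (hbC : b ∈ C) : 2 ≤ cnt C x := by
  unfold cnt
  rw [← Finset.card_pair hab]
  apply Finset.card_le_card
  intro z hz
  simp only [Finset.mem_insert, Finset.mem_singleton] at hz
  simp only [Finset.mem_filter]
  rcases hz with h | h
  · rw [h]; exact ⟨ha, haC⟩
  · rw [h]; exact ⟨hb, hbC⟩

private theorem closure_line (C Y : Set Site) (hC : ∀ x ∈ Y, 2 ≤ cnt C x → x ∈ C)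
    (L N : ℤ → Site) (a b : ℤ) (hL : ∀ y, adj (L y) (L (y + 1)) ∧ adj (L (y + 1)) (L y))
    (hN : ∀ y, adj (L y) (N y)) (hne : ∀ y, N y ≠ L (y + 1) ∧ N (y + 1) ≠ L y)
    (hLY : ∀ y, a ≤ y → y < b → L y ∈ Y) (hNC : ∀ y, a ≤ y → y < b → N y ∈ C)
    (h : ℤ) (ha : a ≤ h) (hb : h < b) (hh : L h ∈ C) : ∀ y, a ≤ y → y < b → L y ∈ C := by
  have up : ∀ y, h ≤ y → y < b → L y ∈ C := by
    intro y hy
    induction y, hy using Int.leInduction with
    | base => intro _; exact hh
    | succ y hy IH =>
      intro hyb
      have h1 := IH (by linarith)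
      exact hC _ (hLY _ (by linarith) hyb)
        (closure_cnt2 (hne y).2 (hN (y + 1)) (hL y).2 (hNC _ (by linarith) hyb) h1)
  have down : ∀ n : ℕ, a ≤ h - n → L (h - n) ∈ C := by
    intro n
    induction n with
    | zero => intro _; simpa using hh
    | succ n IH =>
      intro hn
      push_cast at hn ⊢
      have h1 := IH (by linarith)
      have e : h - n = (h - (n + 1)) + 1 := by ring
      rw [e] at h1
      exact hC _ (hLY _ hn (by linarith))
        (closure_cnt2 (hne _).1 (hN _) (hL _).1 (hNC _ hn (by linarith)) h1)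
  intro y hya hyb
  by_cases hy : h ≤ y
  · exact up y hy hyb
  · push Not at hy
    have := down (h - y).toNat (by
      have : ((h - y).toNat : ℤ) = h - y := Int.toNat_of_nonneg (by linarith)
      rw [this]; linarith)
    have e : ((h - y).toNat : ℤ) = h - y := Int.toNat_of_nonneg (by linarith)
    rw [e] at this
    simpa using this

private theorem closure_lay {x : Site} {r : ℤ} : lay x ≤ r ↔ |x.1| ≤ r ∧ |x.2| ≤ r := by
  unfold lay
  exact max_le_iff

theorem twolay (C Y : Set Site) (hC : ∀ x ∈ Y, 2 ≤ cnt C x → x ∈ C) (j0 W : ℕ) (hj : 1 ≤ j0)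
    (hY : ∀ x, lay x ≤ W → x ∈ Y) (core : ∀ x, lay x ≤ j0 → x ∈ C)
    (hs : ∀ r : ℕ, j0 < r → r ≤ W → ∀ i : Fin 4, ∃ h : ℤ, |h| < r ∧ sd i r h ∈ C) :
    ∀ x, lay x ≤ W → x ∈ C := by
  have key : ∀ r : ℕ, j0 ≤ r → r ≤ W → ∀ x, lay x ≤ r → x ∈ C := by
    intro r hr
    induction r, hr using Nat.le_induction with
    | base => intro _; exact core
    | succ r hr IH =>
      intro hrW
      have IH' := IH (by omega)
      have hrW' : ((r : ℤ) + 1) ≤ W := by exact_mod_cast hrW
      -- the sides
      have side : ∀ i : Fin 4, ∀ y : ℤ, -(r : ℤ) ≤ y → y < r + 1 → sd i ((r : ℤ) + 1) y ∈ C := by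
        intro i
        obtain ⟨h, hh, hc⟩ := hs (r + 1) (by omega) hrW i
        push_cast at hh hc
        have hh' := abs_lt.mp hh
        apply closure_line C Y hC (fun y => sd i ((r : ℤ) + 1) y) (fun y => sd i (r : ℤ) y)
          (-(r : ℤ)) (r + 1) _ _ _ _ _ h (by linarith) hh'.2 hc
        · intro y
          fin_cases i <;> simp [sd, adj, nb]
        · intro y
          fin_cases i <;> simp [sd, adj, nb]
        · intro y
          fin_cases i <;> simp [sd]
        · intro y h1 h2
          apply hY
          have h3 : |y| ≤ (W : ℤ) := abs_le.mpr ⟨by linarith, by linarith⟩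
          have h4 : |(r : ℤ) + 1| ≤ (W : ℤ) := abs_le.mpr ⟨by linarith [Int.natCast_nonneg r], by linarith⟩
          have h5 : |-((r : ℤ) + 1)| ≤ (W : ℤ) := by rw [abs_neg]; exact h4
          rw [closure_lay]
          fin_cases i
          · exact ⟨h4, h3⟩
          · exact ⟨h5, h3⟩
          · exact ⟨h3, h4⟩
          · exact ⟨h3, h5⟩
        · intro y h1 h2
          apply IH'
          have h3 : |y| ≤ (r : ℤ) := abs_le.mpr ⟨by linarith, by linarith⟩
          have h4 : |(r : ℤ)| ≤ (r : ℤ) := by simp
          have h5 : |-(r : ℤ)| ≤ (r : ℤ) := by simp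
          rw [closure_lay]
          fin_cases i
          · exact ⟨h4, h3⟩
          · exact ⟨h5, h3⟩
          · exact ⟨h3, h4⟩
          · exact ⟨h3, h5⟩
      intro x hx
      push_cast at hx
      have hx' := closure_lay.mp hx
      obtain ⟨hx1, hx2⟩ := hx'
      rw [abs_le] at hx1 hx2
      by_cases h2 : -(r : ℤ) ≤ x.2 ∧ x.2 < r + 1
      · by_cases h1 : x.1 = r + 1
        · have := side 0 x.2 h2.1 h2.2
          simp only [sd] at this
          rw [← h1] at this
          exact this
        by_cases h1' : x.1 = -(r + 1)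
        · have := side 1 x.2 h2.1 h2.2
          simp only [sd] at this
          rw [← h1'] at this
          exact this
        · apply IH'
          rw [closure_lay, abs_le, abs_le]
          refine ⟨⟨?_, ?_⟩, ⟨?_, ?_⟩⟩ <;> omega
      · by_cases h1 : -(r : ℤ) ≤ x.1 ∧ x.1 < r + 1
        · have : x.2 = r + 1 ∨ x.2 = -(r + 1) := by omega
          rcases this with h | h
          · have := side 2 x.1 h1.1 h1.2
            simp only [sd] at this
            rw [← h] at this
            exact this
          · have := side 3 x.1 h1.1 h1.2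
            simp only [sd] at this
            rw [← h] at this
            exact this
        · -- corners
          have hxY : x ∈ Y := hY x (le_trans hx hrW')
          have c1 : x.1 = r + 1 ∨ x.1 = -(r + 1) := by omega
          have c2 : x.2 = r + 1 ∨ x.2 = -(r + 1) := by omega
          rcases c1 with c1 | c1 <;> rcases c2 with c2 | c2
          · have p1 := side 0 r (by omega) (by omega)
            have p2 := side 2 r (by omega) (by omega)
            simp only [sd] at p1 p2
            apply hC x hxY
            apply closure_cnt2 _ _ _ p1 p2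
            · intro h; have := congrArg Prod.fst h; simp at this
            · simp [adj, nb, Prod.ext_iff, c1, c2]
            · simp [adj, nb, Prod.ext_iff, c1, c2]
          · have p1 := side 0 (-r) (by omega) (by omega)
            have p2 := side 3 r (by omega) (by omega)
            simp only [sd] at p1 p2
            apply hC x hxY
            apply closure_cnt2 _ _ _ p1 p2
            · intro h; have := congrArg Prod.fst h; simp at this
            · simp [adj, nb, Prod.ext_iff, c1, c2]; try omega
            · simp [adj, nb, Prod.ext_iff, c1, c2]; try omega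
          · have p1 := side 1 r (by omega) (by omega)
            have p2 := side 2 (-r) (by omega) (by omega)
            simp only [sd] at p1 p2
            apply hC x hxY
            apply closure_cnt2 _ _ _ p1 p2
            · intro h; have := congrArg Prod.fst h; simp at this
            · simp [adj, nb, Prod.ext_iff, c1, c2]; try omega
            · simp [adj, nb, Prod.ext_iff, c1, c2]; try omega
          · have p1 := side 1 (-r) (by omega) (by omega)
            have p2 := side 3 (-r) (by omega) (by omega)
            simp only [sd] at p1 p2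
            apply hC x hxY
            apply closure_cnt2 _ _ _ p1 p2
            · intro h; have := congrArg Prod.fst h; simp at this
            · simp [adj, nb, Prod.ext_iff, c1, c2]; try omega
            · simp [adj, nb, Prod.ext_iff, c1, c2]; try omega
  intro x hx
  by_cases h : j0 ≤ W
  · exact key W h le_rfl x hx
  · exact core x (le_trans hx (by push Not at h; exact_mod_cast h.le))

theorem wclose (C Y : Set Site) (hC : ∀ x ∈ Y, 2 ≤ cnt C x → x ∈ C) (n : ℕ) (β β' : Site)
    (hadj : adj β β') (hfull : box n β' ⊆ C) (hY : box n β ⊆ Y)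
    (h1 : ∀ i : ℤ, β.1 * n ≤ i → i < (β.1 + 1) * n → ∃ x ∈ box n β, x.1 = i ∧ x ∈ C)
    (h2 : ∀ i : ℤ, β.2 * n ≤ i → i < (β.2 + 1) * n → ∃ x ∈ box n β, x.2 = i ∧ x ∈ C) :
    box n β ⊆ C := by
  by_cases hn : n = 0
  · subst hn
    intro x hx
    obtain ⟨h3, h4, -⟩ := hx
    simp at h3 h4
    omega
  have hn' : (0 : ℤ) < n := by exact_mod_cast Nat.pos_of_ne_zero hn
  have hadj' : β' = (β.1 + 1, β.2) ∨ β' = (β.1 - 1, β.2) ∨ β' = (β.1, β.2 + 1) ∨
      β' = (β.1, β.2 - 1) := by
    simpa [adj, nb] using hadj
  have e1 : (β.1 + 1) * n = β.1 * n + n := by ring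
  have e2 : (β.2 + 1) * n = β.2 * n + n := by ring
  have e3 : (β.1 + 1 + 1) * n = β.1 * n + n + n := by ring
  have e4 : (β.2 + 1 + 1) * n = β.2 * n + n + n := by ring
  have e5 : (β.1 - 1) * n = β.1 * n - n := by ring
  have e6 : (β.2 - 1) * n = β.2 * n - n := by ring
  rcases hadj' with h | h | h | h
  · -- from the right
    have P : ∀ k : ℕ, k ≤ n → ∀ y : ℤ, β.2 * n ≤ y → y < (β.2 + 1) * n →
        ((β.1 + 1) * n - k, y) ∈ C := by
      intro k
      induction k with
      | zero =>
        intro _ y hy1 hy2
        apply hfull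
        rw [h]
        refine ⟨?_, ?_, hy1, hy2⟩
        · simp
        · simp only [e3]; push_cast; linarith
      | succ k IH =>
        intro hk
        have IH' := IH (by omega)
        have hk' : (k : ℤ) + 1 ≤ n := by exact_mod_cast hk
        have hk0 : (0 : ℤ) ≤ k := Int.natCast_nonneg k
        obtain ⟨z, hz, hz1, hzC⟩ := h1 ((β.1 + 1) * n - (k + 1)) (by linarith) (by linarith)
        push_cast
        apply closure_line C Y hC (fun y => ((β.1 + 1) * n - ((k : ℤ) + 1), y))
          (fun y => ((β.1 + 1) * n - (k : ℤ), y)) (β.2 * n) ((β.2 + 1) * n) _ _ _ _ IH' z.2 hz.2.2.1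
          hz.2.2.2
        · rw [← hz1]; exact hzC
        · intro y; simp [adj, nb]
        · intro y; simp [adj, nb]; left; ring
        · intro y; simp
        · intro y hy1 hy2
          apply hY
          exact ⟨by simp only; linarith, by simp only; linarith, hy1, hy2⟩
    intro x hx
    obtain ⟨a1, a2, a3, a4⟩ := hx
    have hk := P ((β.1 + 1) * n - x.1).toNat (by omega) x.2 a3 a4
    have e : ((((β.1 + 1) * n - x.1).toNat : ℕ) : ℤ) = (β.1 + 1) * n - x.1 :=
      Int.toNat_of_nonneg (by linarith)
    rw [e] at hk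
    simpa using hk
  · -- from the left
    have P : ∀ k : ℕ, k ≤ n → ∀ y : ℤ, β.2 * n ≤ y → y < (β.2 + 1) * n →
        (β.1 * n - 1 + k, y) ∈ C := by
      intro k
      induction k with
      | zero =>
        intro _ y hy1 hy2
        apply hfull
        rw [h]
        refine ⟨?_, ?_, hy1, hy2⟩
        · simp only [e5]; push_cast; linarith
        · simp
      | succ k IH =>
        intro hk
        have IH' := IH (by omega)
        have hk' : (k : ℤ) + 1 ≤ n := by exact_mod_cast hk
        have hk0 : (0 : ℤ) ≤ k := Int.natCast_nonneg k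
        obtain ⟨z, hz, hz1, hzC⟩ := h1 (β.1 * n - 1 + (k + 1)) (by linarith) (by linarith)
        push_cast
        apply closure_line C Y hC (fun y => (β.1 * n - 1 + ((k : ℤ) + 1), y))
          (fun y => (β.1 * n - 1 + (k : ℤ), y)) (β.2 * n) ((β.2 + 1) * n) _ _ _ _ IH' z.2 hz.2.2.1
          hz.2.2.2
        · rw [← hz1]; exact hzC
        · intro y; simp [adj, nb]
        · intro y; simp [adj, nb]; try omega
        · intro y; simp
        · intro y hy1 hy2
          apply hY
          exact ⟨by simp only; linarith, by simp only; linarith, hy1, hy2⟩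
    intro x hx
    obtain ⟨a1, a2, a3, a4⟩ := hx
    have hk := P (x.1 - (β.1 * n - 1)).toNat (by omega) x.2 a3 a4
    have e : (((x.1 - (β.1 * n - 1)).toNat : ℕ) : ℤ) = x.1 - (β.1 * n - 1) :=
      Int.toNat_of_nonneg (by linarith)
    rw [e] at hk
    simpa using hk
  · -- from above
    have P : ∀ k : ℕ, k ≤ n → ∀ y : ℤ, β.1 * n ≤ y → y < (β.1 + 1) * n →
        (y, (β.2 + 1) * n - k) ∈ C := by
      intro k
      induction k with
      | zero =>
        intro _ y hy1 hy2
        apply hfull
        rw [h]
        refine ⟨hy1, hy2, ?_, ?_⟩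
        · simp
        · simp only [e4]; push_cast; linarith
      | succ k IH =>
        intro hk
        have IH' := IH (by omega)
        have hk' : (k : ℤ) + 1 ≤ n := by exact_mod_cast hk
        have hk0 : (0 : ℤ) ≤ k := Int.natCast_nonneg k
        obtain ⟨z, hz, hz1, hzC⟩ := h2 ((β.2 + 1) * n - (k + 1)) (by linarith) (by linarith)
        push_cast
        apply closure_line C Y hC (fun y => (y, (β.2 + 1) * n - ((k : ℤ) + 1)))
          (fun y => (y, (β.2 + 1) * n - (k : ℤ))) (β.1 * n) ((β.1 + 1) * n) _ _ _ _ IH' z.1 hz.1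
          hz.2.1
        · rw [← hz1]; exact hzC
        · intro y; simp [adj, nb]
        · intro y; simp [adj, nb]; left; ring
        · intro y; simp
        · intro y hy1 hy2
          apply hY
          exact ⟨hy1, hy2, by simp only; linarith, by simp only; linarith⟩
    intro x hx
    obtain ⟨a1, a2, a3, a4⟩ := hx
    have hk := P ((β.2 + 1) * n - x.2).toNat (by omega) x.1 a1 a2
    have e : ((((β.2 + 1) * n - x.2).toNat : ℕ) : ℤ) = (β.2 + 1) * n - x.2 :=
      Int.toNat_of_nonneg (by linarith)
    rw [e] at hk
    simpa using hk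
  · -- from below
    have P : ∀ k : ℕ, k ≤ n → ∀ y : ℤ, β.1 * n ≤ y → y < (β.1 + 1) * n →
        (y, β.2 * n - 1 + k) ∈ C := by
      intro k
      induction k with
      | zero =>
        intro _ y hy1 hy2
        apply hfull
        rw [h]
        refine ⟨hy1, hy2, ?_, ?_⟩
        · simp only [e6]; push_cast; linarith
        · simp
      | succ k IH =>
        intro hk
        have IH' := IH (by omega)
        have hk' : (k : ℤ) + 1 ≤ n := by exact_mod_cast hk
        have hk0 : (0 : ℤ) ≤ k := Int.natCast_nonneg k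
        obtain ⟨z, hz, hz1, hzC⟩ := h2 (β.2 * n - 1 + (k + 1)) (by linarith) (by linarith)
        push_cast
        apply closure_line C Y hC (fun y => (y, β.2 * n - 1 + ((k : ℤ) + 1)))
          (fun y => (y, β.2 * n - 1 + (k : ℤ))) (β.1 * n) ((β.1 + 1) * n) _ _ _ _ IH' z.1 hz.1
          hz.2.1
        · rw [← hz1]; exact hzC
        · intro y; simp [adj, nb]
        · intro y; simp [adj, nb]; try omega
        · intro y; simp
        · intro y hy1 hy2
          apply hY
          exact ⟨hy1, hy2, by simp only; linarith, by simp only; linarith⟩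
    intro x hx
    obtain ⟨a1, a2, a3, a4⟩ := hx
    have hk := P (x.2 - (β.2 * n - 1)).toNat (by omega) x.1 a1 a2
    have e : (((x.2 - (β.2 * n - 1)).toNat : ℕ) : ℤ) = x.2 - (β.2 * n - 1) :=
      Int.toNat_of_nonneg (by linarith)
    rw [e] at hk
    simpa using hk

/-- after the time `t`, the twos inside a finite set `Y` of nonzero sites reach a closed set in at
most `|Y|` steps. -/
theorem twos_closed (ω : Config) (t : ℕ) (Y : Finset Site) (hY : ∀ x ∈ Y, xi ω t x ≠ 0) :
    ∃ C : Set Site, (∀ x ∈ C, x ∈ Y ∧ xi ω (t + Y.card) x = 2) ∧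
      (∀ x ∈ Y, xi ω t x = 2 → x ∈ C) ∧ (∀ x ∈ Y, 2 ≤ cnt C x → x ∈ C) := by
  have hle2 : ∀ a : Fin 3, 2 ≤ a → a = 2 := by decide
  set O : ℕ → Finset Site := fun n => Y.filter (fun x => xi ω (t + n) x = 2) with hO
  have hmono : ∀ m n, m ≤ n → O m ⊆ O n := by
    intro m n hmn x hx
    simp only [hO, Finset.mem_filter] at hx ⊢
    refine ⟨hx.1, hle2 _ ?_⟩
    rw [← hx.2]
    exact xi_mono ω (by omega) x
  have hst : ∃ n ≤ Y.card, O n = O (n + 1) := by
    by_contra hcon
    push Not at hcon
    have hc : ∀ n, n ≤ Y.card + 1 → n ≤ (O n).card := by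
      intro n
      induction n with
      | zero => intro _; omega
      | succ n IH =>
        intro hn
        have h1 := IH (by omega)
        have h2 : (O n).card < (O (n + 1)).card :=
          Finset.card_lt_card (Finset.ssubset_iff_subset_ne.mpr ⟨hmono _ _ (by omega), hcon n (by omega)⟩)
        omega
    have h1 := hc (Y.card + 1) le_rfl
    have h2 : (O (Y.card + 1)).card ≤ Y.card := Finset.card_le_card (Finset.filter_subset _ _)
    omega
  obtain ⟨n, hn, hst⟩ := hst
  refine ⟨{x | x ∈ O n}, ?_, ?_, ?_⟩
  · intro x hx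
    have hx' := hmono n Y.card hn hx
    simp only [hO, Finset.mem_filter] at hx'
    exact hx'
  · intro x hx h
    have : x ∈ O 0 := by simp only [hO, Finset.mem_filter]; exact ⟨hx, h⟩
    exact hmono 0 n (by omega) this
  · intro x hx h
    have hm : cnt {x | x ∈ O n} x ≤ cnt {y | xi ω (t + n) y = 2} x := by
      apply cnt_mono
      intro y hy
      have : y ∈ O n := hy
      simp only [hO, Finset.mem_filter] at this
      exact this.2
    have h2 := le_trans h hm
    have h0 : xi ω (t + n) x ≠ 0 := by
      intro h0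
      have := xi_mono ω (show t ≤ t + n by omega) x
      rw [h0] at this
      exact hY x hx (by
        have h3 : ∀ a : Fin 3, a ≤ 0 → a = 0 := by decide
        exact h3 _ this)
    have h3 : ∀ a : Fin 3, a ≠ 0 → a = 1 ∨ a = 2 := by decide
    change x ∈ O n
    rcases h3 _ h0 with h4 | h4
    · rw [hst]
      simp only [hO, Finset.mem_filter]
      exact ⟨hx, xi_one_two h4 h2⟩
    · simp only [hO, Finset.mem_filter]
      exact ⟨hx, h4⟩

end TSB
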