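import Pool.Agent.TSB.Planar

/-! Giant clusters in rectangles (problem MP_a5207b_pr), module GIANT. -/

open MeasureTheory
open scoped Classical

namespace TSB

/-! ### Elementary facts -/

private theorem g_adj_iff {x y : Site} : adj x y ↔
    (y.1 = x.1 + 1 ∧ y.2 = x.2) ∨ (y.1 = x.1 - 1 ∧ y.2 = x.2) ∨
    (y.1 = x.1 ∧ y.2 = x.2 + 1) ∨ (y.1 = x.1 ∧ y.2 = x.2 - 1) := by
  obtain ⟨a, b⟩ := x
  obtain ⟨c, d⟩ := y
  simp [adj, nb]

private theorem g_adj_symm {x y : Site} (h : adj x y) : adj y x := by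
  rw [g_adj_iff] at h ⊢
  omega

private theorem g_mem_Icc {u v x : Site} : x ∈ Set.Icc u v ↔
    u.1 ≤ x.1 ∧ x.1 ≤ v.1 ∧ u.2 ≤ x.2 ∧ x.2 ≤ v.2 := by
  simp only [Set.mem_Icc, Prod.le_def]
  tauto

/-- the component of `x` in `S` -/
private def comp (S : Set Site) (x : Site) : Set Site :=
  {y | Relation.ReflTransGen (fun a b => a ∈ S ∧ b ∈ S ∧ adj a b) x y}

private theorem mem_comp_self (S : Set Site) (x : Site) : x ∈ comp S x :=
  Relation.ReflTransGen.refl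

private theorem comp_sub {S : Set Site} {x : Site} (hx : x ∈ S) : comp S x ⊆ S := by
  intro y hy
  rcases Relation.ReflTransGen.cases_tail hy with h | ⟨z, _, hz⟩
  · rw [h]; exact hx
  · exact hz.2.1

private theorem comp_closed {S : Set Site} {x y z : Site} (hx : x ∈ S) (hy : y ∈ comp S x)
    (hz : z ∈ S) (h : adj y z) : z ∈ comp S x :=
  Relation.ReflTransGen.tail hy ⟨comp_sub hx hy, hz, h⟩

private theorem comp_path {S : Set Site} {x y : Site} (hy : y ∈ comp S x) :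
    Relation.ReflTransGen (fun a b => a ∈ comp S x ∧ b ∈ comp S x ∧ adj a b) x y := by
  have hy' : Relation.ReflTransGen (fun a b => a ∈ S ∧ b ∈ S ∧ adj a b) x y := hy
  induction hy' with
  | refl => exact Relation.ReflTransGen.refl
  | tail h1 h2 ih => exact Relation.ReflTransGen.tail (ih h1) ⟨h1, h1.tail h2, h2.2.2⟩

private theorem rtg_symm {S : Set Site} {x y : Site}
    (h : Relation.ReflTransGen (fun a b => a ∈ S ∧ b ∈ S ∧ adj a b) x y) :
    Relation.ReflTransGen (fun a b => a ∈ S ∧ b ∈ S ∧ adj a b) y x := by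
  induction h with
  | refl => exact Relation.ReflTransGen.refl
  | tail _ h2 ih =>
    exact Relation.ReflTransGen.head ⟨h2.2.1, h2.1, g_adj_symm h2.2.2⟩ ih

private theorem comp_conn (S : Set Site) (x : Site) : Conn adj (comp S x) := by
  intro y hy z hz
  exact (rtg_symm (comp_path hy)).trans (comp_path hz)

private theorem conn_sub_comp {S K : Set Site} (hK : K ⊆ S) (hc : Conn adj K) {x : Site}
    (hx : x ∈ K) : K ⊆ comp S x := by
  intro y hy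
  refine Relation.ReflTransGen.mono ?_ _ _ (hc x hx y hy)
  intro a b h
  exact ⟨hK h.1, hK h.2.1, h.2.2⟩

/-- a property that changes between `a` and `b` changes at one step -/
private theorem change_up (P : ℤ → Prop) (a : ℤ) (n : ℕ) (ha : P a) (hb : ¬ P (a + n)) :
    ∃ i : ℤ, a ≤ i ∧ i < a + n ∧ P i ∧ ¬ P (i + 1) := by
  induction n with
  | zero => simp at hb; exact absurd ha hb
  | succ n ih =>
    by_cases h : P (a + n)
    · refine ⟨a + n, by omega, by push_cast; omega, h, ?_⟩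
      intro h'
      apply hb
      have : a + ((n + 1 : ℕ) : ℤ) = a + n + 1 := by push_cast; ring
      rw [this]; exact h'
    · obtain ⟨i, h1, h2, h3, h4⟩ := ih h
      exact ⟨i, h1, by push_cast; omega, h3, h4⟩

private theorem change (P : ℤ → Prop) (a b : ℤ) (ha : P a) (hb : ¬ P b) :
    ∃ i j : ℤ, min a b ≤ i ∧ i ≤ max a b ∧ min a b ≤ j ∧ j ≤ max a b ∧
      (j = i + 1 ∨ j = i - 1) ∧ P i ∧ ¬ P j := by
  rcases le_total a b with h | h
  · obtain ⟨n, hn⟩ := Int.eq_ofNat_of_zero_le (sub_nonneg.2 h)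
    have hb' : ¬ P (a + n) := by
      have : a + (n : ℤ) = b := by omega
      rw [this]; exact hb
    obtain ⟨i, h1, h2, h3, h4⟩ := change_up P a n ha hb'
    refine ⟨i, i + 1, ?_, ?_, ?_, ?_, Or.inl rfl, h3, h4⟩ <;> omega
  · obtain ⟨n, hn⟩ := Int.eq_ofNat_of_zero_le (sub_nonneg.2 h)
    have hb' : ¬ (fun i => P (-i)) (-a + n) := by
      have : -(-a + (n : ℤ)) = b := by omega
      simp only [this]; exact hb
    obtain ⟨i, h1, h2, h3, h4⟩ := change_up (fun i => P (-i)) (-a) n (by simpa using ha) hb'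
    refine ⟨-i, -i - 1, ?_, ?_, ?_, ?_, Or.inr rfl, h3, ?_⟩
    · omega
    · omega
    · omega
    · omega
    · have : -i - 1 = -(i + 1) := by ring
      rw [this]; exact h4

private theorem col_cross {u v : Site} {K : Set Site} {x y : Site} (hx : x ∈ Set.Icc u v)
    (hy : y ∈ Set.Icc u v) (hxK : x ∈ K) (hyK : y ∉ K) (h : x.1 = y.1) :
    ∃ z z' : Site, z ∈ Set.Icc u v ∧ z' ∈ Set.Icc u v ∧ z ∈ K ∧ z' ∉ K ∧ adj z z' ∧
      z.1 = x.1 ∧ z'.1 = x.1 := by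
  obtain ⟨x1, x2⟩ := x
  obtain ⟨y1, y2⟩ := y
  simp only at h
  subst h
  obtain ⟨i, j, h1, h2, h3, h4, h5, h6, h7⟩ := change (fun i => (x1, i) ∈ K) x2 y2 hxK hyK
  rw [g_mem_Icc] at hx hy
  simp only at hx hy
  refine ⟨(x1, i), (x1, j), ?_, ?_, h6, h7, ?_, rfl, rfl⟩
  · rw [g_mem_Icc]; simp only; omega
  · rw [g_mem_Icc]; simp only; omega
  · rw [g_adj_iff]
    rcases h5 with h5 | h5 <;> simp [h5]

private theorem row_cross {u v : Site} {K : Set Site} {x y : Site} (hx : x ∈ Set.Icc u v)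
    (hy : y ∈ Set.Icc u v) (hxK : x ∈ K) (hyK : y ∉ K) (h : x.2 = y.2) :
    ∃ z z' : Site, z ∈ Set.Icc u v ∧ z' ∈ Set.Icc u v ∧ z ∈ K ∧ z' ∉ K ∧ adj z z' ∧
      z.2 = x.2 ∧ z'.2 = x.2 := by
  obtain ⟨x1, x2⟩ := x
  obtain ⟨y1, y2⟩ := y
  simp only at h
  subst h
  obtain ⟨i, j, h1, h2, h3, h4, h5, h6, h7⟩ := change (fun i => (i, x2) ∈ K) x1 y1 hxK hyK
  rw [g_mem_Icc] at hx hy
  simp only at hx hy
  refine ⟨(i, x2), (j, x2), ?_, ?_, h6, h7, ?_, rfl, rfl⟩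
  · rw [g_mem_Icc]; simp only; omega
  · rw [g_mem_Icc]; simp only; omega
  · rw [g_adj_iff]
    rcases h5 with h5 | h5 <;> simp [h5]

/-- a connected set meets all the columns between two of its columns -/
private theorem conn_cols {G : Set Site} (hG : Conn adj G) {x y : Site} (hx : x ∈ G) (hy : y ∈ G)
    (i : ℤ) (h1 : x.1 ≤ i) (h2 : i ≤ y.1) : ∃ z ∈ G, z.1 = i := by
  have key : ∀ z, Relation.ReflTransGen (fun a b => a ∈ G ∧ b ∈ G ∧ adj a b) x z →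
      ∀ i : ℤ, x.1 ≤ i → i ≤ z.1 → ∃ w ∈ G, w.1 = i := by
    intro z hz
    induction hz with
    | refl => intro i h1 h2; exact ⟨x, hx, by omega⟩
    | @tail b c _ hbc ih =>
      intro i h1 h2
      by_cases h : i ≤ b.1
      · exact ih i h1 h
      · refine ⟨c, hbc.2.1, ?_⟩
        have := g_adj_iff.1 hbc.2.2
        omega
  exact key y (hG x hx y hy) i h1 h2

/-- a row segment is connected -/
private theorem conn_row (a b j : ℤ) : Conn adj {x : Site | a ≤ x.1 ∧ x.1 ≤ b ∧ x.2 = j} := by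
  have key : ∀ (n : ℕ) (i : ℤ), a ≤ i → i + n ≤ b →
      Relation.ReflTransGen (fun p q => p ∈ {x : Site | a ≤ x.1 ∧ x.1 ≤ b ∧ x.2 = j} ∧
        q ∈ {x : Site | a ≤ x.1 ∧ x.1 ≤ b ∧ x.2 = j} ∧ adj p q) (i, j) (i + n, j) := by
    intro n
    induction n with
    | zero => intro i _ _; simp; exact Relation.ReflTransGen.refl
    | succ n ih =>
      intro i h1 h2
      push_cast at h2
      have hc : i + ((n + 1 : ℕ) : ℤ) = i + n + 1 := by push_cast; ring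
      rw [hc]
      refine Relation.ReflTransGen.tail (ih i h1 (by omega)) ⟨⟨?_, ?_, rfl⟩, ⟨?_, ?_, rfl⟩, ?_⟩
      · simp only; omega
      · simp only; omega
      · simp only; omega
      · simp only; omega
      · rw [g_adj_iff]; simp
  intro x hx y hy
  obtain ⟨x1, x2⟩ := x
  obtain ⟨y1, y2⟩ := y
  obtain ⟨hx1, hx2, hx3⟩ := hx
  obtain ⟨hy1, hy2, hy3⟩ := hy
  simp only at hx1 hx2 hx3 hy1 hy2 hy3
  subst hx3
  subst hy3
  rcases le_total x1 y1 with h | h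
  · obtain ⟨n, hn⟩ := Int.eq_ofNat_of_zero_le (sub_nonneg.2 h)
    have h' := key n x1 hx1 (by omega)
    have : x1 + (n : ℤ) = y1 := by omega
    rw [this] at h'
    exact h'
  · obtain ⟨n, hn⟩ := Int.eq_ofNat_of_zero_le (sub_nonneg.2 h)
    have h' := key n y1 hy1 (by omega)
    have : y1 + (n : ℤ) = x1 := by omega
    rw [this] at h'
    exact rtg_symm h'

/-- a column segment is connected -/
private theorem conn_col (a b j : ℤ) : Conn adj {x : Site | a ≤ x.2 ∧ x.2 ≤ b ∧ x.1 = j} := by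
  have key : ∀ (n : ℕ) (i : ℤ), a ≤ i → i + n ≤ b →
      Relation.ReflTransGen (fun p q => p ∈ {x : Site | a ≤ x.2 ∧ x.2 ≤ b ∧ x.1 = j} ∧
        q ∈ {x : Site | a ≤ x.2 ∧ x.2 ≤ b ∧ x.1 = j} ∧ adj p q) (j, i) (j, i + n) := by
    intro n
    induction n with
    | zero => intro i _ _; simp; exact Relation.ReflTransGen.refl
    | succ n ih =>
      intro i h1 h2
      push_cast at h2
      have hc : i + ((n + 1 : ℕ) : ℤ) = i + n + 1 := by push_cast; ring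
      rw [hc]
      refine Relation.ReflTransGen.tail (ih i h1 (by omega)) ⟨⟨?_, ?_, rfl⟩, ⟨?_, ?_, rfl⟩, ?_⟩
      · simp only; omega
      · simp only; omega
      · simp only; omega
      · simp only; omega
      · rw [g_adj_iff]; simp
  intro x hx y hy
  obtain ⟨x1, x2⟩ := x
  obtain ⟨y1, y2⟩ := y
  obtain ⟨hx1, hx2, hx3⟩ := hx
  obtain ⟨hy1, hy2, hy3⟩ := hy
  simp only at hx1 hx2 hx3 hy1 hy2 hy3
  subst hx3
  subst hy3
  rcases le_total x2 y2 with h | h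
  · obtain ⟨n, hn⟩ := Int.eq_ofNat_of_zero_le (sub_nonneg.2 h)
    have h' := key n x2 hx1 (by omega)
    have : x2 + (n : ℤ) = y2 := by omega
    rw [this] at h'
    exact h'
  · obtain ⟨n, hn⟩ := Int.eq_ofNat_of_zero_le (sub_nonneg.2 h)
    have h' := key n y2 hy1 (by omega)
    have : y2 + (n : ℤ) = x2 := by omega
    rw [this] at h'
    exact rtg_symm h'

/-! ### The boundary of a component of the complement of a connected set -/

/-- inner boundary of the component of `x` in `Icc u v \ A` -/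
private def bd (u v : Site) (A : Set Site) (x : Site) : Set Site :=
  {z | z ∈ comp (Set.Icc u v \ A) x ∧ ∃ y ∈ A, adj z y}

private theorem bd_conn {u v : Site} {A : Set Site} (hA : A ⊆ Set.Icc u v) (cA : Conn adj A)
    {x : Site} (hx : x ∈ Set.Icc u v \ A) : Conn star (bd u v A x) := by
  refine boundary_star_conn u v A (comp (Set.Icc u v \ A) x) hA ?_ ?_ cA (comp_conn _ _) ?_
  · exact fun y hy => (comp_sub hx hy).1
  · exact fun y hy => (comp_sub hx hy).2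
  · exact fun y hy z hz h hzA => comp_closed hx hy ⟨hz, hzA⟩ h

private theorem bd_sub {u v : Site} {A : Set Site} {x : Site} (hx : x ∈ Set.Icc u v \ A) :
    bd u v A x ⊆ Set.Icc u v := fun _ hy => (comp_sub hx hy.1).1

private theorem bd_col {u v : Site} {A : Set Site} (hA : A ⊆ Set.Icc u v)
    {x : Site} (hx : x ∈ Set.Icc u v \ A) {y z : Site} (hy : y ∈ comp (Set.Icc u v \ A) x)
    (hz : z ∈ A) (h : y.1 = z.1) : ∃ w ∈ bd u v A x, w.1 = y.1 := by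
  obtain ⟨a, b, ha, hb, h1, h2, h3, h4, _⟩ := col_cross (K := comp (Set.Icc u v \ A) x)
    (comp_sub hx hy).1 (hA hz) hy (fun h' => (comp_sub hx h').2 hz) h
  refine ⟨a, ⟨h1, b, ?_, h3⟩, h4⟩
  by_contra hbA
  exact h2 (comp_closed hx h1 ⟨hb, hbA⟩ h3)

private theorem bd_row {u v : Site} {A : Set Site} (hA : A ⊆ Set.Icc u v)
    {x : Site} (hx : x ∈ Set.Icc u v \ A) {y z : Site} (hy : y ∈ comp (Set.Icc u v \ A) x)
    (hz : z ∈ A) (h : y.2 = z.2) : ∃ w ∈ bd u v A x, w.2 = y.2 := by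
  obtain ⟨a, b, ha, hb, h1, h2, h3, h4, _⟩ := row_cross (K := comp (Set.Icc u v \ A) x)
    (comp_sub hx hy).1 (hA hz) hy (fun h' => (comp_sub hx h').2 hz) h
  refine ⟨a, ⟨h1, b, ?_, h3⟩, h4⟩
  by_contra hbA
  exact h2 (comp_closed hx h1 ⟨hb, hbA⟩ h3)

/-! ### The crossing -/

private theorem crossing (u v : Site) (m : ℕ) (h1 : u.1 ≤ v.1) (h2 : u.2 + m + 1 ≤ v.2)
    (bad : Set Site) (hb : BadSpan (Set.Icc u v) bad m) :
    ∃ x y : Site, x ∈ Set.Icc u v \ bad ∧ x.1 = u.1 ∧ y.1 = v.1 ∧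
      y ∈ comp (Set.Icc u v \ bad) x := by
  by_contra hno
  push Not at hno
  set u' : Site := (u.1 - 1, u.2) with hu'
  set A : Set Site := {x | (x.1 = u.1 - 1 ∧ u.2 ≤ x.2 ∧ x.2 ≤ v.2) ∨
    ∃ p ∈ Set.Icc u v \ bad, p.1 = u.1 ∧ x ∈ comp (Set.Icc u v \ bad) p} with hAdef
  have hAsub : A ⊆ Set.Icc u' v := by
    rintro x (⟨hx1, hx2, hx3⟩ | ⟨p, hp, _, hx⟩)
    · rw [g_mem_Icc]; simp only [hu']; omega
    · have := (comp_sub hp hx).1
      rw [g_mem_Icc] at this ⊢; simp only [hu']; omega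
  -- the virtual column
  have hV : ∀ j, u.2 ≤ j → j ≤ v.2 → ((u.1 - 1, j) : Site) ∈ A := by
    intro j hj1 hj2
    exact Or.inl ⟨rfl, hj1, hj2⟩
  have hVconn : ∀ a b : ℤ, u.2 ≤ a → a ≤ v.2 → u.2 ≤ b → b ≤ v.2 →
      Relation.ReflTransGen (fun p q => p ∈ A ∧ q ∈ A ∧ adj p q) (u.1 - 1, a) (u.1 - 1, b) := by
    intro a b ha1 ha2 hb1 hb2
    have := conn_col u.2 v.2 (u.1 - 1) (u.1 - 1, a) ⟨ha1, ha2, rfl⟩ (u.1 - 1, b) ⟨hb1, hb2, rfl⟩
    refine Relation.ReflTransGen.mono ?_ _ _ this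
    rintro p q ⟨⟨hp1, hp2, hp3⟩, ⟨hq1, hq2, hq3⟩, h⟩
    exact ⟨Or.inl ⟨hp3, hp1, hp2⟩, Or.inl ⟨hq3, hq1, hq2⟩, h⟩
  have hto : ∀ x ∈ A, Relation.ReflTransGen (fun p q => p ∈ A ∧ q ∈ A ∧ adj p q)
      (u.1 - 1, u.2) x := by
    rintro x (⟨hx1, hx2, hx3⟩ | ⟨p, hp, hp1, hx⟩)
    · obtain ⟨x1, x2⟩ := x
      simp only at hx1 hx2 hx3
      subst hx1
      exact hVconn _ _ le_rfl (by omega) hx2 hx3
    · have hpI := g_mem_Icc.1 hp.1
      have h1' := hVconn u.2 p.2 le_rfl (by omega) hpI.2.2.1 hpI.2.2.2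
      have hpA : p ∈ A := Or.inr ⟨p, hp, hp1, mem_comp_self _ _⟩
      have h2' : Relation.ReflTransGen (fun p q => p ∈ A ∧ q ∈ A ∧ adj p q)
          (u.1 - 1, u.2) p := by
        refine Relation.ReflTransGen.tail h1' ⟨hV _ hpI.2.2.1 hpI.2.2.2, hpA, ?_⟩
        rw [g_adj_iff]
        exact Or.inl ⟨by simp only; omega, rfl⟩
      refine h2'.trans ?_
      refine Relation.ReflTransGen.mono ?_ _ _ (comp_path hx)
      rintro a b ⟨ha, hb, hab⟩
      exact ⟨Or.inr ⟨p, hp, hp1, ha⟩, Or.inr ⟨p, hp, hp1, hb⟩, hab⟩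
  have cA : Conn adj A := fun x hx y hy => (rtg_symm (hto x hx)).trans (hto y hy)
  -- A does not meet the last column
  have hlast : ∀ x ∈ A, x.1 < v.1 := by
    intro x hxA
    have hx' := g_mem_Icc.1 (hAsub hxA)
    rcases hxA with ⟨hx1, hx2, hx3⟩ | ⟨p, hp, hp1, hx⟩
    · omega
    · rcases lt_or_eq_of_le hx'.2.1 with h | h
      · exact h
      · exact absurd hx (hno p x hp hp1 h)
  -- the last column is disjoint from A
  have hxv : ((v.1, u.2) : Site) ∈ Set.Icc u' v \ A := by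
    refine ⟨?_, fun h => ?_⟩
    · rw [g_mem_Icc]; simp only [hu']; omega
    · exact lt_irrefl v.1 (hlast (v.1, u.2) h)
  have hcol : ∀ j, u.2 ≤ j → j ≤ v.2 → ((v.1, j) : Site) ∈ comp (Set.Icc u' v \ A) (v.1, u.2) := by
    intro j hj1 hj2
    refine conn_sub_comp (K := {x : Site | u.2 ≤ x.2 ∧ x.2 ≤ v.2 ∧ x.1 = v.1}) ?_
      (conn_col _ _ _) (x := (v.1, u.2)) ⟨le_rfl, by simp only; omega, rfl⟩
      (show ((v.1, j) : Site) ∈ {x : Site | u.2 ≤ x.2 ∧ x.2 ≤ v.2 ∧ x.1 = v.1} from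
        ⟨hj1, hj2, rfl⟩)
    rintro x ⟨hx1, hx2, hx3⟩
    refine ⟨?_, fun h => ?_⟩
    · rw [g_mem_Icc]; simp only [hu']; omega
    · have := hlast _ h; omega
  set C := bd u' v A (v.1, u.2) with hC
  have hCconn : Conn star C := bd_conn hAsub cA hxv
  have hCnA : ∀ x ∈ C, x ∉ A := fun x hx => (comp_sub hxv hx.1).2
  have hCsub : C ⊆ Set.Icc u v := by
    intro x hx
    have h1' := g_mem_Icc.1 (bd_sub hxv hx)
    simp only [hu'] at h1'
    rw [g_mem_Icc]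
    refine ⟨?_, h1'.2.1, h1'.2.2.1, h1'.2.2.2⟩
    by_contra hlt
    exact hCnA x hx (Or.inl ⟨by omega, h1'.2.2.1, h1'.2.2.2⟩)
  have hCbad : C ⊆ bad := by
    intro x hx
    by_contra hxb
    apply hCnA x hx
    have hxI : x ∈ Set.Icc u v \ bad := ⟨hCsub hx, hxb⟩
    obtain ⟨y, hyA, hxy⟩ := hx.2
    rcases hyA with ⟨hy1, hy2, hy3⟩ | ⟨p, hp, hp1, hy⟩
    · refine Or.inr ⟨x, hxI, ?_, mem_comp_self _ _⟩
      have hx1 := (g_mem_Icc.1 hxI.1).1
      have := g_adj_iff.1 hxy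
      omega
    · exact Or.inr ⟨p, hp, hp1, comp_closed hp hy hxI (g_adj_symm hxy)⟩
  have hspan := hb C hCsub hCbad hCconn
  obtain ⟨a, ha, ha2⟩ := bd_row hAsub hxv (hcol u.2 le_rfl (by omega))
    (hV u.2 le_rfl (by omega)) rfl
  obtain ⟨b, hb', hb2⟩ := bd_row hAsub hxv (hcol v.2 (by omega) le_rfl)
    (hV v.2 (by omega) le_rfl) rfl
  have := (hspan b hb' a ha).2
  simp only at ha2 hb2
  rw [ha2, hb2] at this
  have h3 := le_abs_self (v.2 - u.2)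
  omega

theorem giant_exists (u v : Site) (m : ℕ) (h1 : u.1 + m + 1 ≤ v.1) (h2 : u.2 + m + 1 ≤ v.2)
    (bad : Set Site) (hb : BadSpan (Set.Icc u v) bad m) :
    ∃ G, IsGiant (Set.Icc u v) bad m G := by
  obtain ⟨p, q, hp, hp1, hq1, hq⟩ := crossing u v m (by omega) h2 bad hb
  set G := comp (Set.Icc u v \ bad) p with hG
  have hGsub : G ⊆ Set.Icc u v := fun x hx => (comp_sub hp hx).1
  have hGgood : ∀ x ∈ G, x ∉ bad := fun x hx => (comp_sub hp hx).2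
  have cG : Conn adj G := comp_conn _ _
  have hGcl : ∀ x ∈ G, ∀ y ∈ Set.Icc u v, adj x y → y ∉ bad → y ∈ G :=
    fun x hx y hy h hyb => comp_closed hp hx ⟨hy, hyb⟩ h
  have hGcol : ∀ i, u.1 ≤ i → i ≤ v.1 → ∃ y ∈ G, y.1 = i := by
    intro i hi1 hi2
    exact conn_cols cG (mem_comp_self _ _) hq i (by omega) (by omega)
  -- boundaries are bad
  have hbdbad : ∀ x, x ∈ Set.Icc u v \ G → bd u v G x ⊆ bad := by
    intro x hx y hy
    by_contra hyb
    obtain ⟨z, hz, hyz⟩ := hy.2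
    have hy' := comp_sub hx hy.1
    exact hy'.2 (hGcl z hz y hy'.1 (g_adj_symm hyz) hyb)
  have hbdspan : ∀ x, x ∈ Set.Icc u v \ G → SpanLe m (bd u v G x) := fun x hx =>
    hb _ (bd_sub hx) (hbdbad x hx) (bd_conn hGsub cG hx)
  have hGrow : ∀ j, u.2 ≤ j → j ≤ v.2 → ∃ y ∈ G, y.2 = j := by
    intro j hj1 hj2
    by_contra hno
    push Not at hno
    have hx0 : ((u.1, j) : Site) ∈ Set.Icc u v \ G := by
      refine ⟨?_, fun h => hno _ h rfl⟩
      rw [g_mem_Icc]; simp only; omega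
    have hrow : ∀ i, u.1 ≤ i → i ≤ v.1 →
        ((i, j) : Site) ∈ comp (Set.Icc u v \ G) (u.1, j) := by
      intro i hi1 hi2
      refine conn_sub_comp (K := {x : Site | u.1 ≤ x.1 ∧ x.1 ≤ v.1 ∧ x.2 = j}) ?_
        (conn_row _ _ _) (x := (u.1, j)) ⟨le_rfl, by simp only; omega, rfl⟩
        (show ((i, j) : Site) ∈ {x : Site | u.1 ≤ x.1 ∧ x.1 ≤ v.1 ∧ x.2 = j} from
          ⟨hi1, hi2, rfl⟩)
      rintro x ⟨hx1, hx2, hx3⟩
      refine ⟨?_, fun h => hno _ h hx3⟩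
      rw [g_mem_Icc]; omega
    obtain ⟨g1, hg1, hg1'⟩ := hGcol u.1 le_rfl (by omega)
    obtain ⟨g2, hg2, hg2'⟩ := hGcol v.1 (by omega) le_rfl
    obtain ⟨a, ha, ha2⟩ := bd_col hGsub hx0 (hrow u.1 le_rfl (by omega)) hg1 hg1'.symm
    obtain ⟨b, hb', hb2⟩ := bd_col hGsub hx0 (hrow v.1 (by omega) le_rfl) hg2 hg2'.symm
    have := (hbdspan _ hx0 b hb' a ha).1
    simp only at ha2 hb2
    rw [ha2, hb2] at this
    have h3 := le_abs_self (v.1 - u.1)
    omega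
  refine ⟨G, hGsub, hGgood, ⟨p, mem_comp_self _ _⟩, cG, hGcl, ?_, ?_⟩
  · intro x hx
    rw [g_mem_Icc] at hx
    exact ⟨hGcol x.1 hx.1 hx.2.1, hGrow x.2 hx.2.2.1 hx.2.2.2⟩
  · intro K hK hKG cK x hx y hy
    have hx0 : x ∈ Set.Icc u v \ G := ⟨hK hx, hKG x hx⟩
    have hKS : K ⊆ Set.Icc u v \ G := fun z hz => ⟨hK hz, hKG z hz⟩
    have hKs : K ⊆ comp (Set.Icc u v \ G) x := conn_sub_comp hKS cK hx
    have hxI := g_mem_Icc.1 (hK hx)
    have hyI := g_mem_Icc.1 (hK hy)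
    constructor
    · obtain ⟨g1, hg1, hg1'⟩ := hGcol x.1 hxI.1 hxI.2.1
      obtain ⟨g2, hg2, hg2'⟩ := hGcol y.1 hyI.1 hyI.2.1
      obtain ⟨a, ha, ha2⟩ := bd_col hGsub hx0 (hKs hx) hg1 hg1'.symm
      obtain ⟨b, hb', hb2⟩ := bd_col hGsub hx0 (hKs hy) hg2 hg2'.symm
      have := (hbdspan _ hx0 a ha b hb').1
      rw [ha2, hb2] at this
      exact this
    · obtain ⟨g1, hg1, hg1'⟩ := hGrow x.2 hxI.2.2.1 hxI.2.2.2
      obtain ⟨g2, hg2, hg2'⟩ := hGrow y.2 hyI.2.2.1 hyI.2.2.2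
      obtain ⟨a, ha, ha2⟩ := bd_row hGsub hx0 (hKs hx) hg1 hg1'.symm
      obtain ⟨b, hb', hb2⟩ := bd_row hGsub hx0 (hKs hy) hg2 hg2'.symm
      have := (hbdspan _ hx0 a ha b hb').2
      rw [ha2, hb2] at this
      exact this

theorem giant_absorb {Λ bad G C : Set Site} {m : ℕ} (hG : IsGiant Λ bad m G) (hC : C ⊆ Λ)
    (hg : ∀ x ∈ C, x ∉ bad) (hc : Conn adj C) (hs : ¬ SpanLe m C) : C ⊆ G := by
  obtain ⟨hG1, hG2, hG3, hG4, hG5, hG6, hG7⟩ := hG
  have hex : ∃ x ∈ C, x ∈ G := by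
    by_contra hno
    push Not at hno
    exact hs (hG7 C hC hno hc)
  obtain ⟨x, hxC, hxG⟩ := hex
  intro y hy
  have hp := hc x hxC y hy
  clear hy
  induction hp with
  | refl => exact hxG
  | tail _ h ih => exact hG5 _ ih _ (hC h.2.1) h.2.2 (hg _ h.2.1)

theorem giant_overlap {Λ Λ' bad G G' : Set Site} {m : ℕ} (u v : Site)
    (h1 : u.1 + m + 1 ≤ v.1) (h2 : u.2 + m + 1 ≤ v.2) (hu : Set.Icc u v ⊆ Λ)
    (hu' : Set.Icc u v ⊆ Λ') (hb : BadSpan (Set.Icc u v) bad m)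
    (hG : IsGiant Λ bad m G) (hG' : IsGiant Λ' bad m G') : ∃ x ∈ Set.Icc u v, x ∈ G ∧ x ∈ G' := by
  obtain ⟨H, hH⟩ := giant_exists u v m h1 h2 bad hb
  have hspan : ¬ SpanLe m H := by
    intro hs
    obtain ⟨hH1, hH2, hH3, hH4, hH5, hH6, hH7⟩ := hH
    obtain ⟨⟨a, ha, ha'⟩, -⟩ := hH6 u (g_mem_Icc.2 ⟨le_rfl, by omega, le_rfl, by omega⟩)
    obtain ⟨⟨b, hb, hb'⟩, -⟩ := hH6 v (g_mem_Icc.2 ⟨by omega, le_rfl, by omega, le_rfl⟩)
    have := (hs b hb a ha).1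
    rw [ha', hb'] at this
    have h3 := le_abs_self (v.1 - u.1)
    omega
  have hGa := giant_absorb hG (hH.1.trans hu) hH.2.1 hH.2.2.2.1 hspan
  have hGb := giant_absorb hG' (hH.1.trans hu') hH.2.1 hH.2.2.2.1 hspan
  obtain ⟨x, hx⟩ := hH.2.2.1
  exact ⟨x, hH.1 hx, hGa hx, hGb hx⟩

theorem giant_point {u v : Site} {bad G : Set Site} {m : ℕ}
    (hG : IsGiant (Set.Icc u v) bad m G) {x0 : Site} (hx : x0 ∈ Set.Icc u v) (hx0 : x0 ∉ G) :
    ∃ n ≤ m, NearBad (Set.Icc u v) bad x0 n := by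
  obtain ⟨hG1, hG2, hG3, hG4, hG5, hG6, hG7⟩ := hG
  have hxx : x0 ∈ Set.Icc u v \ G := ⟨hx, hx0⟩
  set K := comp (Set.Icc u v \ G) x0 with hK
  set C := bd u v G x0 with hC
  have hxK : x0 ∈ K := mem_comp_self _ _
  have hKI : K ⊆ Set.Icc u v := fun y hy => (comp_sub hxx hy).1
  have hKspan : SpanLe m K := hG7 K hKI (fun y hy => (comp_sub hxx hy).2) (comp_conn _ _)
  have hCK : C ⊆ K := fun y hy => hy.1
  have hcol : ∀ y ∈ K, ∃ w ∈ C, w.1 = y.1 := by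
    intro y hy
    obtain ⟨⟨g, hg, hg'⟩, -⟩ := hG6 y (hKI hy)
    exact bd_col hG1 hxx hy hg hg'.symm
  have hrow : ∀ y ∈ K, ∃ w ∈ C, w.2 = y.2 := by
    intro y hy
    obtain ⟨-, ⟨g, hg, hg'⟩⟩ := hG6 y (hKI hy)
    exact bd_row hG1 hxx hy hg hg'.symm
  have hCbad : C ⊆ bad := by
    intro y hy
    by_contra hyb
    obtain ⟨z, hz, hyz⟩ := hy.2
    have hy' := comp_sub hxx hy.1
    exact hy'.2 (hG5 z hz y hy'.1 (g_adj_symm hyz) hyb)
  -- the largest span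
  have hKfin : K.Finite := (Set.finite_Icc u v).subset hKI
  set S : Finset ℕ := (hKfin.toFinset ×ˢ hKfin.toFinset).image
    (fun p => max (p.1.1 - p.2.1).natAbs (p.1.2 - p.2.2).natAbs) with hS
  have hSne : S.Nonempty := by
    refine ⟨_, Finset.mem_image.2 ⟨(x0, x0), ?_, rfl⟩⟩
    simp [hxK]
  obtain ⟨n, hn⟩ := Finset.max_of_nonempty hSne
  have hnS : n ∈ S := Finset.mem_of_max hn
  have hmax : ∀ y ∈ K, ∀ z ∈ K, max (y.1 - z.1).natAbs (y.2 - z.2).natAbs ≤ n := by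
    intro y hy z hz
    refine Finset.le_max_of_eq (Finset.mem_image.2 ⟨(y, z), ?_, rfl⟩) hn
    simp [hy, hz]
  obtain ⟨⟨y, z⟩, hyz, hyzn⟩ := Finset.mem_image.1 hnS
  simp only [Finset.mem_product, Set.Finite.mem_toFinset] at hyz
  simp only at hyzn
  refine ⟨n, ?_, C, fun y hy => hKI (hCK hy), hCbad, bd_conn hG1 hG4 hxx, ?_, ?_⟩
  · have := hKspan y hyz.1 z hyz.2
    simp only [Int.abs_eq_natAbs] at this
    omega
  · intro c hc
    have := hmax c (hCK hc) x0 hxK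
    simp only [Int.abs_eq_natAbs]
    omega
  · rcases le_total (y.1 - z.1).natAbs (y.2 - z.2).natAbs with h | h
    · obtain ⟨a, ha, ha'⟩ := hrow y hyz.1
      obtain ⟨b, hb, hb'⟩ := hrow z hyz.2
      refine ⟨a, ha, b, hb, Or.inr ?_⟩
      rw [ha', hb', Int.abs_eq_natAbs]; omega
    · obtain ⟨a, ha, ha'⟩ := hcol y hyz.1
      obtain ⟨b, hb, hb'⟩ := hcol z hyz.2
      refine ⟨a, ha, b, hb, Or.inl ?_⟩
      rw [ha', hb', Int.abs_eq_natAbs]; omega

theorem win_eq_Icc (n a : ℕ) (c : Site) : win n a c =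
    Set.Icc ((c.1 - a) * n, (c.2 - a) * n) ((c.1 + 1 + a) * n - 1, (c.2 + 1 + a) * n - 1) := by
  ext x
  rw [g_mem_Icc]
  simp only [win, Set.mem_ofPred_eq]
  constructor
  · rintro ⟨h1, h2, h3, h4⟩; exact ⟨h1, by omega, h3, by omega⟩
  · rintro ⟨h1, h2, h3, h4⟩; exact ⟨h1, by omega, h3, by omega⟩

theorem box_eq_win (n : ℕ) (c : Site) : box n c = win n 0 c := by
  ext x
  simp [win, box]

theorem swin_eq_Icc (s : ℕ) (o : Site) : swin s o =
    Set.Icc o (o.1 + 2 * s - 1, o.2 + 2 * s - 1) := by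
  ext x
  rw [g_mem_Icc]
  simp only [swin, Set.mem_ofPred_eq]
  omega

end TSB
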