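import Pool.Agent.TSB.Dyn
import Pool.Agent.TSB.PartsA
import Pool.Agent.TSB.PartsB
import Pool.Agent.TSB.Giant
open MeasureTheory
open scoped Classical

namespace TSB

/-! Lemmas shared by the modules GEN, SPECA, SPECB, FINALDET. -/

theorem hull_span {k : ℕ} {Q : Finset Site} (h : SpanLe k (Q : Set Site)) {x : Site}
    (hx : x ∈ hull Q) {y : Site} (hy : y ∈ Q) : |y.1 - x.1| ≤ k ∧ |y.2 - x.2| ≤ k := by
  obtain ⟨⟨a, ha, ha'⟩, ⟨b, hb, hb'⟩, ⟨c, hc, hc'⟩, ⟨d, hd, hd'⟩⟩ := hx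
  have h1 := (h y hy a ha).1
  have h2 := (h y hy b hb).1
  have h3 := (h y hy c hc).2
  have h4 := (h y hy d hd).2
  rw [abs_le] at *
  rw [abs_le]
  constructor <;> constructor <;> linarith

theorem mem_obst_sub {Pt : Finset (Finset Site)} {A : Finset Site} (h : IsParts Pt A)
    {Q : Finset Site} (hQ : Q ∈ Pt) {x : Site} (hx : x ∈ Q) : x ∈ A :=
  (h.2.2 x).2 ⟨Q, hQ, hx⟩

/-- no big parts -/
theorem spanLe_of_notBig {k : ℕ} (hk : 1 ≤ k) {R : Set Site} {ω : Config}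
    (hb : ¬ BigPart k R ω) {A : Finset Site} (hA : ∀ x ∈ A, ω x = 2 ∧ x ∈ R)
    {Pt : Finset (Finset Site)} (hPt : IsParts Pt A) : ∀ Q ∈ Pt, SpanLe k (Q : Set Site) := by
  intro Q hQ x hx y hy
  by_contra hcon
  apply hb
  have hmg := hPt.1 Q hQ
  have hpair : ∃ x ∈ Q, ∃ y ∈ Q, (k : ℤ) ≤ |x.1 - y.1| ∨ (k : ℤ) ≤ |x.2 - y.2| := by
    refine ⟨x, hx, y, hy, ?_⟩
    by_contra hc
    push Not at hc
    exact hcon ⟨hc.1.le, hc.2.le⟩
  obtain ⟨B, hBQ, hB, hBs, hBp⟩ := mg_span_inter hmg k hk hpair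
  exact ⟨B, hB, fun x hx => hA x (mem_obst_sub hPt hQ (hBQ hx)), hBs, hBp⟩

/-- twos stay inside the obstacles as long as no information arrives from outside of `A`. -/
theorem two_in_obst {ω : Config} {A : Finset Site} {Pt : Finset (Finset Site)}
    (hPt : IsParts Pt A) {t : ℕ} {x : Site} (hball : ∀ y ∈ ball x t, ω y = 2 → y ∈ A)
    (hx : xi ω t x = 2) : x ∈ obst Pt := by
  have h1 : x ∈ boot {x | ω x = 2} t := xi_two_boot ω t hx
  have h2 := boot_local _ _ _ h1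
  have h3 : ({x | ω x = 2} ∩ ball x t) ⊆ obst Pt := by
    rintro y ⟨hy1, hy2⟩
    exact sub_obst hPt (hball y hy2 hy1)
  refine boot_closed h3 ?_ t h2
  intro z hz
  by_contra hz'
  have := obst_cnt hPt hz'
  omega

/-- parts meeting a window without three close twos are small -/
theorem part_small {ω : Config} {A : Finset Site} {Pt : Finset (Finset Site)}
    (hPt : IsParts Pt A) (hA : ∀ a ∈ A, ω a = 2) {k D : ℕ}
    (hspan : ∀ Q ∈ Pt, SpanLe k (Q : Set Site)) (hkD : k ≤ D) {b : Site}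
    (hdb : ¬ DB1 D ω b) {x : Site} (hx : x ∈ win D 1 b) :
    ∀ Q ∈ Pt, x ∈ hull Q → Q.card ≤ 2 ∧ ∀ z ∈ Q, ω z = 2 := by
  intro Q hQ hxQ
  refine ⟨?_, fun z hz => hA z (mem_obst_sub hPt hQ hz)⟩
  by_contra hcard
  push Not at hcard
  obtain ⟨B, hBQ, hB, hB3, hB4⟩ := mg_card_inter (hPt.1 Q hQ) hcard
  obtain ⟨a, b', c, ha, hb', hc, hab, hac, hbc⟩ := Finset.two_lt_card_iff.1 (show 2 < B.card from hB3)
  apply hdb
  have hwin : ∀ y ∈ Q, y ∈ win D 2 b := by
    intro y hy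
    have := hull_span (hspan Q hQ) hxQ hy
    obtain ⟨h1, h2, h3, h4⟩ := hx
    rw [abs_le, abs_le] at this
    have hk : (k : ℤ) ≤ D := by exact_mod_cast hkD
    refine ⟨?_, ?_, ?_, ?_⟩ <;> push_cast at * <;> nlinarith [this.1.1, this.1.2, this.2.1, this.2.2]
  have hsp := mg_span hB
  have hb4 : (B.card : ℤ) ≤ 4 := by exact_mod_cast hB4
  refine ⟨a, hwin a (hBQ ha), b', hwin _ (hBQ hb'), c, hwin _ (hBQ hc),
    hA _ (mem_obst_sub hPt hQ (hBQ ha)), hA _ (mem_obst_sub hPt hQ (hBQ hb')),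
    hA _ (mem_obst_sub hPt hQ (hBQ hc)), hab, hac, hbc, ?_, ?_⟩
  · have := hsp b' hb' a ha
    exact ⟨by linarith [this.1], by linarith [this.2]⟩
  · have := hsp c hc a ha
    exact ⟨by linarith [this.1], by linarith [this.2]⟩

/-- rectangles are connected -/
theorem rect_conn (u v : Site) : Conn adj (Set.Icc u v) := by
  -- horizontal moves
  have hor : ∀ (n : ℕ) (x y : Site), x ∈ Set.Icc u v → y ∈ Set.Icc u v → x.2 = y.2 →
      |x.1 - y.1| = n →
      Relation.ReflTransGen (fun a b => a ∈ Set.Icc u v ∧ b ∈ Set.Icc u v ∧ adj a b) x y := by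
    intro n
    induction n with
    | zero =>
      intro x y hx hy h2 h1
      have : x = y := by
        apply Prod.ext
        · have h1' : x.1 - y.1 = 0 := by simpa using h1
          linarith
        · exact h2
      rw [this]
    | succ n ih =>
      intro x y hx hy h2 h1
      obtain ⟨⟨hx1, hx2⟩, ⟨hx3, hx4⟩⟩ := hx
      obtain ⟨⟨hy1, hy2⟩, ⟨hy3, hy4⟩⟩ := hy
      rcases le_total x.1 y.1 with hle | hle
      · rw [abs_of_nonpos (by linarith)] at h1
        push_cast at h1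
        have hmem : ((x.1 + 1, x.2) : Site) ∈ Set.Icc u v := by
          refine ⟨⟨?_, ?_⟩, ⟨?_, ?_⟩⟩ <;> simp only <;> linarith
        refine Relation.ReflTransGen.head ⟨⟨⟨hx1, hx2⟩, ⟨hx3, hx4⟩⟩, hmem, ?_⟩
          (ih _ y hmem ⟨⟨hy1, hy2⟩, ⟨hy3, hy4⟩⟩ h2 ?_)
        · simp [adj, nb]
        · simp only
          rw [abs_of_nonpos (by linarith)]; linarith
      · rw [abs_of_nonneg (by linarith)] at h1
        push_cast at h1
        have hmem : ((x.1 - 1, x.2) : Site) ∈ Set.Icc u v := by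
          refine ⟨⟨?_, ?_⟩, ⟨?_, ?_⟩⟩ <;> simp only <;> linarith
        refine Relation.ReflTransGen.head ⟨⟨⟨hx1, hx2⟩, ⟨hx3, hx4⟩⟩, hmem, ?_⟩
          (ih _ y hmem ⟨⟨hy1, hy2⟩, ⟨hy3, hy4⟩⟩ h2 ?_)
        · simp [adj, nb]
        · simp only
          rw [abs_of_nonneg (by linarith)]; linarith
  have ver : ∀ (n : ℕ) (x y : Site), x ∈ Set.Icc u v → y ∈ Set.Icc u v → x.1 = y.1 →
      |x.2 - y.2| = n →
      Relation.ReflTransGen (fun a b => a ∈ Set.Icc u v ∧ b ∈ Set.Icc u v ∧ adj a b) x y := by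
    intro n
    induction n with
    | zero =>
      intro x y hx hy h2 h1
      have : x = y := by
        apply Prod.ext
        · exact h2
        · have h1' : x.2 - y.2 = 0 := by simpa using h1
          linarith
      rw [this]
    | succ n ih =>
      intro x y hx hy h2 h1
      obtain ⟨⟨hx1, hx2⟩, ⟨hx3, hx4⟩⟩ := hx
      obtain ⟨⟨hy1, hy2⟩, ⟨hy3, hy4⟩⟩ := hy
      rcases le_total x.2 y.2 with hle | hle
      · rw [abs_of_nonpos (by linarith)] at h1
        push_cast at h1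
        have hmem : ((x.1, x.2 + 1) : Site) ∈ Set.Icc u v := by
          refine ⟨⟨?_, ?_⟩, ⟨?_, ?_⟩⟩ <;> simp only <;> linarith
        refine Relation.ReflTransGen.head ⟨⟨⟨hx1, hx2⟩, ⟨hx3, hx4⟩⟩, hmem, ?_⟩
          (ih _ y hmem ⟨⟨hy1, hy2⟩, ⟨hy3, hy4⟩⟩ h2 ?_)
        · simp [adj, nb]
        · simp only
          rw [abs_of_nonpos (by linarith)]; linarith
      · rw [abs_of_nonneg (by linarith)] at h1
        push_cast at h1
        have hmem : ((x.1, x.2 - 1) : Site) ∈ Set.Icc u v := by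
          refine ⟨⟨?_, ?_⟩, ⟨?_, ?_⟩⟩ <;> simp only <;> linarith
        refine Relation.ReflTransGen.head ⟨⟨⟨hx1, hx2⟩, ⟨hx3, hx4⟩⟩, hmem, ?_⟩
          (ih _ y hmem ⟨⟨hy1, hy2⟩, ⟨hy3, hy4⟩⟩ h2 ?_)
        · simp [adj, nb]
        · simp only
          rw [abs_of_nonneg (by linarith)]; linarith
  intro x hx y hy
  have hm : ((y.1, x.2) : Site) ∈ Set.Icc u v := by
    obtain ⟨⟨hx1, hx2⟩, ⟨hx3, hx4⟩⟩ := hx
    obtain ⟨⟨hy1, hy2⟩, ⟨hy3, hy4⟩⟩ := hy
    refine ⟨⟨?_, ?_⟩, ⟨?_, ?_⟩⟩ <;> simp only <;> linarith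
  exact (hor (x.1 - y.1).natAbs x (y.1, x.2) hx hm rfl (by simp)).trans
    (ver (x.2 - y.2).natAbs (y.1, x.2) y hm hy rfl (by simp))

/-- a window without bad blocks is contained in each of its giants -/
theorem swin_sub_giant {s m : ℕ} (hs : m + 2 ≤ s) {o : Site} {bad G : Set Site}
    (hgood : ∀ b ∈ swin s o, b ∉ bad) (hG : IsGiant (swin s o) bad m G) : swin s o ⊆ G := by
  refine giant_absorb hG (le_refl _) hgood ?_ ?_
  · rw [swin_eq_Icc]; exact rect_conn _ _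
  · intro h
    have h1 : o ∈ swin s o := ⟨le_refl _, by omega, le_refl _, by omega⟩
    have h2 : ((o.1 + 2 * s - 1, o.2) : Site) ∈ swin s o := by
      refine ⟨?_, ?_, ?_, ?_⟩ <;> simp only <;> omega
    have := (h _ h1 _ h2).1
    simp only at this
    rw [abs_of_nonpos (by omega)] at this
    omega

/-- the local hypotheses on a block -/
theorem blkOk_of {D k t : ℕ} {ω ω' : Config} {A : Finset Site} {Pt : Finset (Finset Site)}
    (hPt : IsParts Pt A) (hA : ∀ a ∈ A, ω a = 2) (hspan : ∀ Q ∈ Pt, SpanLe k (Q : Set Site))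
    (hkD : k ≤ D) {b : Site} (h1 : ∀ x, ω' x = 2 ↔ ω x = 2)
    (hwin : ∀ x ∈ win D 1 b, ω x = 2 → x ∈ A)
    (hun : ∀ s ≤ t, ∀ x ∈ win D 1 b, xi ω s x = 2 → x ∈ obst Pt) :
    BlkOk D ω ω' A Pt t b := by
  refine ⟨fun z hz hz2 => hwin z hz ((h1 z).1 hz2), ?_, hun⟩
  rintro Q hQ ⟨z, hzQ, hz⟩ x hx
  refine ⟨(h1 x).2 (hA x (mem_obst_sub hPt hQ hx)), ?_⟩
  have := hull_span (hspan Q hQ) hzQ hx
  obtain ⟨h1, h2, h3, h4⟩ := hz
  rw [abs_le, abs_le] at this
  have hk : (k : ℤ) ≤ D := by exact_mod_cast hkD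
  refine ⟨?_, ?_, ?_, ?_⟩ <;> push_cast at * <;>
    nlinarith [this.1.1, this.1.2, this.2.1, this.2.2]

/-- first coordinate of the path of windows (in units of `s`) -/
def cpos (j : ℤ) (i : ℤ) : ℤ := if 0 ≤ j then min i j else - min i (-j)

/-- the path of windows from `b` to `b + s j`: first horizontally, then vertically -/
def wpath (s : ℕ) (b j : Site) (i : ℕ) : Site :=
  (b.1 + s * cpos j.1 i, b.2 + s * cpos j.2 (max ((i : ℤ) - |j.1|) 0))

theorem wpath_zero (s : ℕ) (b j : Site) : wpath s b j 0 = b := by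
  have h1 : cpos j.1 0 = 0 := by unfold cpos; split_ifs <;> omega
  have h2 : cpos j.2 (max ((0 : ℤ) - |j.1|) 0) = 0 := by
    have := abs_nonneg j.1
    rw [max_eq_right (by omega)]
    unfold cpos; split_ifs <;> omega
  apply Prod.ext
  · simp [wpath, h1]
  · simp only [wpath]; push_cast; rw [h2]; ring

theorem wpath_end (s : ℕ) (b j : Site) :
    wpath s b j (j.1.natAbs + j.2.natAbs) = (b.1 + s * j.1, b.2 + s * j.2) := by
  have h1 : cpos j.1 ((j.1.natAbs + j.2.natAbs : ℕ) : ℤ) = j.1 := by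
    unfold cpos; split_ifs <;> omega
  have h2 : cpos j.2 (max (((j.1.natAbs + j.2.natAbs : ℕ) : ℤ) - |j.1|) 0) = j.2 := by
    have : (((j.1.natAbs + j.2.natAbs : ℕ) : ℤ) - |j.1|) = |j.2| := by
      push_cast; ring
    rw [this, max_eq_left (abs_nonneg _)]
    unfold cpos; split_ifs with h
    · rw [abs_of_nonneg h]; exact min_self _
    · rw [abs_of_neg (by omega)]; omega
  simp only [wpath]
  rw [h1, h2]

theorem wpath_step (s : ℕ) (b j : Site) (i : ℕ) (hi : i < j.1.natAbs + j.2.natAbs) :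
    wpath s b j (i + 1) = ((wpath s b j i).1 + s, (wpath s b j i).2) ∨
    wpath s b j (i + 1) = ((wpath s b j i).1 - s, (wpath s b j i).2) ∨
    wpath s b j (i + 1) = ((wpath s b j i).1, (wpath s b j i).2 + s) ∨
    wpath s b j (i + 1) = ((wpath s b j i).1, (wpath s b j i).2 - s) := by
  have hj1 : (j.1.natAbs : ℤ) = |j.1| := by simp
  have hj2 : (j.2.natAbs : ℤ) = |j.2| := by simp
  rcases lt_or_ge i j.1.natAbs with h | h
  · have h2 : cpos j.2 (max ((i : ℤ) - |j.1|) 0) = cpos j.2 (max (((i : ℤ) + 1) - |j.1|) 0) := by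
      rw [max_eq_right (by omega), max_eq_right (by omega)]
    rcases le_total 0 j.1 with hj | hj
    · left
      have h1 : cpos j.1 ((i : ℤ) + 1) = cpos j.1 i + 1 := by
        unfold cpos; rw [if_pos hj, if_pos hj]; omega
      simp only [wpath]; push_cast; rw [h1, ← h2]
      apply Prod.ext <;> simp only <;> ring
    · right; left
      have h1 : cpos j.1 ((i : ℤ) + 1) = cpos j.1 i - 1 := by
        unfold cpos; split_ifs <;> omega
      simp only [wpath]; push_cast; rw [h1, ← h2]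
      apply Prod.ext <;> simp only <;> ring
  · have h2 : cpos j.1 ((i : ℤ) + 1) = cpos j.1 i := by
      unfold cpos; split_ifs <;> omega
    have e1 : max ((i : ℤ) - |j.1|) 0 = (i : ℤ) - |j.1| := max_eq_left (by omega)
    have e2 : max (((i : ℤ) + 1) - |j.1|) 0 = ((i : ℤ) + 1) - |j.1| := max_eq_left (by omega)
    rcases le_total 0 j.2 with hj | hj
    · right; right; left
      have h1 : cpos j.2 (((i : ℤ) + 1) - |j.1|) = cpos j.2 ((i : ℤ) - |j.1|) + 1 := by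
        rw [abs_of_nonneg hj] at hj2
        unfold cpos; rw [if_pos hj, if_pos hj]; omega
      simp only [wpath]; push_cast; rw [h2, e1, e2, h1]
      apply Prod.ext <;> simp only <;> ring
    · right; right; right
      have h1 : cpos j.2 (((i : ℤ) + 1) - |j.1|) = cpos j.2 ((i : ℤ) - |j.1|) - 1 := by
        rw [abs_of_nonpos hj] at hj2
        unfold cpos; split_ifs <;> omega
      simp only [wpath]; push_cast; rw [h2, e1, e2, h1]
      apply Prod.ext <;> simp only <;> ring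

/-- the path stays between its endpoints -/
theorem wpath_between (s : ℕ) (b j : Site) (i : ℕ) :
    (min b.1 (b.1 + s * j.1) ≤ (wpath s b j i).1 ∧ (wpath s b j i).1 ≤ max b.1 (b.1 + s * j.1)) ∧
    (min b.2 (b.2 + s * j.2) ≤ (wpath s b j i).2 ∧ (wpath s b j i).2 ≤ max b.2 (b.2 + s * j.2)) := by
  have key : ∀ (j i : ℤ), 0 ≤ i → (0 ≤ cpos j i ∧ cpos j i ≤ j) ∨ (j ≤ cpos j i ∧ cpos j i ≤ 0) := by
    intro j i hi; unfold cpos; split_ifs <;> omega
  have hs : (0 : ℤ) ≤ s := by positivity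
  refine ⟨?_, ?_⟩
  · simp only [wpath]
    rcases key j.1 i (by positivity) with ⟨h1, h2⟩ | ⟨h1, h2⟩
    · have a1 : 0 ≤ (s : ℤ) * cpos j.1 i := by positivity
      have a2 : (s : ℤ) * cpos j.1 i ≤ s * j.1 := by gcongr
      omega
    · have a1 : (s : ℤ) * cpos j.1 i ≤ 0 := mul_nonpos_of_nonneg_of_nonpos hs h2
      have a2 : (s : ℤ) * j.1 ≤ s * cpos j.1 i := by gcongr
      omega
  · simp only [wpath]
    rcases key j.2 (max ((i : ℤ) - |j.1|) 0) (le_max_right _ _) with ⟨h1, h2⟩ | ⟨h1, h2⟩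
    · have a1 : 0 ≤ (s : ℤ) * cpos j.2 (max ((i : ℤ) - |j.1|) 0) := by positivity
      have a2 : (s : ℤ) * cpos j.2 (max ((i : ℤ) - |j.1|) 0) ≤ s * j.2 := by gcongr
      omega
    · have a1 : (s : ℤ) * cpos j.2 (max ((i : ℤ) - |j.1|) 0) ≤ 0 :=
        mul_nonpos_of_nonneg_of_nonpos hs h2
      have a2 : (s : ℤ) * j.2 ≤ s * cpos j.2 (max ((i : ℤ) - |j.1|) 0) := by gcongr
      omega

end TSB
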