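import Pool.Agent.TSB.Defs

open scoped Classical

namespace TSB

private theorem ctrlfar_zone {r : ℕ} {y : ℤ} (h : zoneOK r y) :
    (r % 4 = 0 ∧ -8 * (r : ℤ) ≤ 10 * y ∧ 10 * y ≤ -7 * r) ∨
    (r % 4 = 1 ∧ -4 * (r : ℤ) ≤ 10 * y ∧ 10 * y ≤ -3 * r) ∨
    (r % 4 = 2 ∧ 0 ≤ 10 * y ∧ 10 * y ≤ r) ∨
    (r % 4 = 3 ∧ 4 * (r : ℤ) ≤ 10 * y ∧ 10 * y ≤ 5 * r) := by
  obtain ⟨h1, h2⟩ := h
  have hm : r % 4 = 0 ∨ r % 4 = 1 ∨ r % 4 = 2 ∨ r % 4 = 3 := by omega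
  rcases hm with hm | hm | hm | hm <;> rw [hm] at h1 h2 <;> norm_num at h1 h2
  · exact Or.inl ⟨hm, by linarith, by linarith⟩
  · exact Or.inr (Or.inl ⟨hm, by linarith, by linarith⟩)
  · exact Or.inr (Or.inr (Or.inl ⟨hm, by linarith, by linarith⟩))
  · exact Or.inr (Or.inr (Or.inr ⟨hm, by linarith, by linarith⟩))

private theorem ctrlfar_main {r r' : ℕ} (hr : 100 ≤ r) (hrr : r ≤ r') (hr3 : r' ≤ r + 3)
    (i j : Fin 4) (a b : ℤ) (ha : zoneOK r a) (hb : zoneOK r' b) (hne : i = j → r ≠ r') :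
    (r : ℤ) ≤ 10 * max |(sd i r a).1 - (sd j r' b).1| |(sd i r a).2 - (sd j r' b).2| := by
  set M := max |(sd i r a).1 - (sd j r' b).1| |(sd i r a).2 - (sd j r' b).2| with hM
  have m1 : (sd i r a).1 - (sd j r' b).1 ≤ M := le_trans (le_abs_self _) (le_max_left _ _)
  have m2 : (sd j r' b).1 - (sd i r a).1 ≤ M := by
    have := le_trans (neg_le_abs ((sd i r a).1 - (sd j r' b).1)) (le_max_left _ |(sd i r a).2 - (sd j r' b).2|)
    linarith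
  have m3 : (sd i r a).2 - (sd j r' b).2 ≤ M := le_trans (le_abs_self _) (le_max_right _ _)
  have m4 : (sd j r' b).2 - (sd i r a).2 ≤ M := by
    have := le_trans (neg_le_abs ((sd i r a).2 - (sd j r' b).2)) (le_max_right |(sd i r a).1 - (sd j r' b).1| _)
    linarith
  clear_value M
  have za := ctrlfar_zone ha
  have zb := ctrlfar_zone hb
  clear ha hb
  fin_cases i <;> fin_cases j <;> simp only [sd] at m1 m2 m3 m4 <;> omega

theorem ctrl_far {ω : Config} {r r' : ℕ} {h h' : Fin 4 → ℤ} (hr : 100 ≤ r) (hrr : r ≤ r')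
    (hr3 : r' ≤ r + 3) (c : CtrlLayer ω r h) (c' : CtrlLayer ω r' h') (x y : Site)
    (hx : lay x = r) (hy : lay y = r') (hx2 : ω x = 2) (hy2 : ω y = 2) (hxy : x ≠ y) :
    (r : ℤ) ≤ 10 * max |x.1 - y.1| |x.2 - y.2| := by
  obtain ⟨i, hi⟩ := c.2 x hx hx2
  by_cases hre : r = r'
  · subst hre
    obtain ⟨j, hj⟩ := c.2 y hy hy2
    by_cases hij : i = j
    · exact absurd (by rw [hi, hj, hij]) hxy
    · rw [hi, hj]
      exact ctrlfar_main hr le_rfl hr3 i j _ _ (c.1 i).1 (c.1 j).1 (fun hh => absurd hh hij)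
  · obtain ⟨j, hj⟩ := c'.2 y hy hy2
    rw [hi, hj]
    exact ctrlfar_main hr hrr hr3 i j _ _ (c.1 i).1 (c'.1 j).1 (fun _ => hre)

end TSB
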