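import Mathlib

/-! Two-stage bootstrap percolation on `ℤ²` (problem MP_a5207b_pr): definitions.

Shared by all modules `Pool.Agent.TSB.*`. -/

open MeasureTheory
open scoped Classical

namespace TSB

/-! ### The model -/

/-- Sites of the square lattice (also used for indices of boxes). -/
abbrev Site := ℤ × ℤ

/-- Configurations with values in `{0, 1, 2}`. -/
abbrev Config := Site → Fin 3

/-- The four nearest neighbours of a site. -/
def nb (x : Site) : Finset Site :=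
  {(x.1 + 1, x.2), (x.1 - 1, x.2), (x.1, x.2 + 1), (x.1, x.2 - 1)}

/-- Nearest neighbour adjacency. -/
def adj (x y : Site) : Prop := y ∈ nb x

/-- The number of nearest neighbours of `x` lying in `S`. -/
noncomputable def cnt (S : Set Site) (x : Site) : ℕ := ((nb x).filter (fun y => y ∈ S)).card

/-- One synchronous update of the standard two-stage dynamics. -/
noncomputable def step (ξ : Config) : Config := fun x =>
  if ξ x = 0 then (if 2 ≤ cnt {y | ξ y = 1} x then 1 else 0)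
  else if ξ x = 1 then (if 2 ≤ cnt {y | ξ y = 2} x then 2 else 1)
  else 2

/-- The configuration at time `t` started from `ω`. -/
noncomputable def xi (ω : Config) : ℕ → Config
  | 0 => ω
  | t + 1 => step (xi ω t)

/-- The time at which the origin reaches state `2` (`⊤` if it never does). -/
noncomputable def T2 (ω : Config) : ℕ∞ := ⨅ t ∈ {t : ℕ | xi ω t (0, 0) = 2}, (t : ℕ∞)

/-- Law of one site: `2` with probability `q`, `1` with probability `p`, `0` otherwise. -/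
noncomputable def siteLaw (p q : ℝ) : Measure (Fin 3) :=
  ENNReal.ofReal (1 - p - q) • Measure.dirac 0 + ENNReal.ofReal p • Measure.dirac 1
    + ENNReal.ofReal q • Measure.dirac 2

/-- The product measure with densities `p` of ones and `q` of twos. -/
noncomputable def law (p q : ℝ) : Measure Config := Measure.infinitePi (fun _ => siteLaw p q)

/-! ### Two-neighbour bootstrap percolation -/

/-- Two-neighbour bootstrap percolation started from `A`. -/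
def boot (A : Set Site) : ℕ → Set Site
  | 0 => A
  | t + 1 => boot A t ∪ {x | 2 ≤ cnt (boot A t) x}

/-- The `ℓ^∞` ball of radius `r` around `x`. -/
def ball (x : Site) (r : ℤ) : Set Site := {y | |y.1 - x.1| ≤ r ∧ |y.2 - x.2| ≤ r}

/-- `ℓ^∞` norm. -/
def lay (x : Site) : ℤ := max |x.1| |x.2|

/-! ### Parts: the rectangles process -/

/-- The smallest rectangle containing `A` (empty if `A` is empty). -/
def hull (A : Finset Site) : Set Site :=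
  {z | (∃ a ∈ A, a.1 ≤ z.1) ∧ (∃ a ∈ A, z.1 ≤ a.1) ∧ (∃ a ∈ A, a.2 ≤ z.2) ∧ (∃ a ∈ A, z.2 ≤ a.2)}

/-- Two sets are near if their hulls contain points at `ℓ¹` distance at most `2`. -/
def Near (A B : Finset Site) : Prop :=
  ∃ x ∈ hull A, ∃ y ∈ hull B, |x.1 - y.1| + |x.2 - y.2| ≤ 2

/-- Sets obtained from single sites by merging near disjoint sets. -/
inductive Mg : Finset Site → Prop
  | single (x : Site) : Mg {x}
  | merge (A B : Finset Site) : Mg A → Mg B → Disjoint A B → Near A B → Mg (A ∪ B)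

/-- `Pt` is a decomposition of `A` into merged sets which are pairwise not near. -/
def IsParts (Pt : Finset (Finset Site)) (A : Finset Site) : Prop :=
  (∀ P ∈ Pt, Mg P) ∧ (∀ P ∈ Pt, ∀ Q ∈ Pt, P ≠ Q → Disjoint P Q ∧ ¬ Near P Q) ∧
    (∀ x, x ∈ A ↔ ∃ P ∈ Pt, x ∈ P)

/-- The obstacles: the union of the hulls of the parts. -/
def obst (Pt : Finset (Finset Site)) : Set Site := {z | ∃ P ∈ Pt, z ∈ hull P}

/-! ### Connectivity and spans -/

/-- `*`-adjacency or equality. -/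
def star (x y : Site) : Prop := |x.1 - y.1| ≤ 1 ∧ |x.2 - y.2| ≤ 1

/-- `C` is connected for the relation `r` (inside `C`). -/
def Conn (r : Site → Site → Prop) (C : Set Site) : Prop :=
  ∀ x ∈ C, ∀ y ∈ C, Relation.ReflTransGen (fun a b => a ∈ C ∧ b ∈ C ∧ r a b) x y

/-- `C` has span at most `m` in both coordinates. -/
def SpanLe (m : ℕ) (C : Set Site) : Prop :=
  ∀ x ∈ C, ∀ y ∈ C, |x.1 - y.1| ≤ m ∧ |x.2 - y.2| ≤ m

/-- All `*`-connected sets of bad elements of `Λ` have span at most `m`. -/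
def BadSpan (Λ bad : Set Site) (m : ℕ) : Prop :=
  ∀ C ⊆ Λ, C ⊆ bad → Conn star C → SpanLe m C

/-- `G` is the giant cluster of good elements of the rectangle `Λ = Set.Icc u v`. -/
def IsGiant (Λ bad : Set Site) (m : ℕ) (G : Set Site) : Prop :=
  G ⊆ Λ ∧ (∀ x ∈ G, x ∉ bad) ∧ G.Nonempty ∧ Conn adj G ∧
  (∀ x ∈ G, ∀ y ∈ Λ, adj x y → y ∉ bad → y ∈ G) ∧
  (∀ x ∈ Λ, (∃ y ∈ G, y.1 = x.1) ∧ (∃ y ∈ G, y.2 = x.2)) ∧
  (∀ K ⊆ Λ, (∀ x ∈ K, x ∉ G) → Conn adj K → SpanLe m K)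

/-- A `*`-connected bad set of span exactly `n` (in some coordinate) within distance `n` of
`x0`. -/
def NearBad (Λ bad : Set Site) (x0 : Site) (n : ℕ) : Prop :=
  ∃ C : Set Site, C ⊆ Λ ∧ C ⊆ bad ∧ Conn star C ∧ (∀ c ∈ C, |c.1 - x0.1| ≤ n ∧ |c.2 - x0.2| ≤ n) ∧
    ∃ x ∈ C, ∃ y ∈ C, |x.1 - y.1| = n ∨ |x.2 - y.2| = n

/-! ### Boxes and windows -/

/-- The `a`-neighbourhood (in units of boxes) of the box of side `n` with index `c`. -/
def win (n a : ℕ) (c : Site) : Set Site :=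
  {x | (c.1 - a) * n ≤ x.1 ∧ x.1 < (c.1 + 1 + a) * n ∧
       (c.2 - a) * n ≤ x.2 ∧ x.2 < (c.2 + 1 + a) * n}

/-- The box of side `n` with index `c`. -/
def box (n : ℕ) (c : Site) : Set Site :=
  {x | c.1 * n ≤ x.1 ∧ x.1 < (c.1 + 1) * n ∧ c.2 * n ≤ x.2 ∧ x.2 < (c.2 + 1) * n}

/-- The square of side `2 * s` (of indices) with lower left corner `o`. -/
def swin (s : ℕ) (o : Site) : Set Site :=
  {b | o.1 ≤ b.1 ∧ b.1 < o.1 + 2 * s ∧ o.2 ≤ b.2 ∧ b.2 < o.2 + 2 * s}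

/-! ### Hole witnesses -/

/-- A horizontal run of initial zeros from `a` to `b` (at least two sites). -/
def HRun (ω : Config) (R : Set Site) (a b : Site) : Prop :=
  a.2 = b.2 ∧ a.1 < b.1 ∧ ∀ x : Site, x.2 = a.2 → a.1 ≤ x.1 → x.1 ≤ b.1 → ω x = 0 ∧ x ∈ R

/-- A vertical run of initial zeros from `c` to `d` (at least two sites). -/
def VRun (ω : Config) (R : Set Site) (c d : Site) : Prop :=
  c.1 = d.1 ∧ c.2 < d.2 ∧ ∀ x : Site, x.1 = c.1 → c.2 ≤ x.2 → x.2 ≤ d.2 → ω x = 0 ∧ x ∈ R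

/-- `z` is a two in `R` at `ℓ^∞` distance at most `3` from `x`. -/
def NearTwo (ω : Config) (R : Set Site) (x z : Site) : Prop :=
  ω z = 2 ∧ z ∈ R ∧ |x.1 - z.1| ≤ 3 ∧ |x.2 - z.2| ≤ 3

/-- The witness for a hole (a finite set of sites that stay `0` forever). -/
def HoleWit (ω : Config) (R : Set Site) : Prop :=
  ∃ a b a' b' c c' za zb za' zb' zc zc' : Site,
    HRun ω R a b ∧ HRun ω R a' b' ∧ VRun ω R c c' ∧ a.2 ≠ a'.2 ∧
    NearTwo ω R a za ∧ NearTwo ω R b zb ∧ NearTwo ω R a' za' ∧ NearTwo ω R b' zb' ∧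
    NearTwo ω R c zc ∧ NearTwo ω R c' zc' ∧
    za ≠ zb ∧ za ≠ za' ∧ za ≠ zb' ∧ zb ≠ za' ∧ zb ≠ zb' ∧ za' ≠ zb' ∧ zc ≠ zc'

/-! ### Bad blocks

`w` is the side of the small boxes, `D = d * w` the side of the `D`-blocks, `mw` the maximal
span of bad sets of small boxes. -/

/-- A `w`-box is bad if there is a two in it or within distance `2` of it. -/
def wbad (w : ℕ) (ω : Config) (c : Site) : Prop :=
  ∃ z : Site, ω z = 2 ∧ c.1 * w - 2 ≤ z.1 ∧ z.1 < (c.1 + 1) * w + 2 ∧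
    c.2 * w - 2 ≤ z.2 ∧ z.2 < (c.2 + 1) * w + 2

/-- Three twos close to each other in the window. -/
def DB1 (D : ℕ) (ω : Config) (b : Site) : Prop :=
  ∃ x ∈ win D 2 b, ∃ y ∈ win D 2 b, ∃ z ∈ win D 2 b, ω x = 2 ∧ ω y = 2 ∧ ω z = 2 ∧
    x ≠ y ∧ x ≠ z ∧ y ≠ z ∧ y ∈ ball x 6 ∧ z ∈ ball x 6

/-- A segment of length `w` without ones in the window. -/
def DB2 (w D : ℕ) (ω : Config) (b : Site) : Prop :=
  (∃ x : Site, ∀ i : ℕ, i < w → (x.1 + i, x.2) ∈ win D 2 b ∧ ω (x.1 + i, x.2) ≠ 1) ∨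
  (∃ x : Site, ∀ i : ℕ, i < w → (x.1, x.2 + i) ∈ win D 2 b ∧ ω (x.1, x.2 + i) ≠ 1)

/-- A large `*`-connected set of bad `w`-boxes. -/
def DB3 (w d mw : ℕ) (ω : Config) (b : Site) : Prop :=
  ∃ C : Set Site, C ⊆ win d 1 b ∧ (∀ c ∈ C, wbad w ω c) ∧ Conn star C ∧ ¬ SpanLe mw C

/-- A `D`-block is bad. -/
def DBad (w d mw : ℕ) (ω : Config) (b : Site) : Prop :=
  DB1 (d * w) ω b ∨ DB2 w (d * w) ω b ∨ DB3 w d mw ω b ∨ HoleWit ω (win (d * w) 2 b)

/-- The set of bad `D`-blocks. -/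
def dbad (w d mw : ℕ) (ω : Config) : Set Site := {b | DBad w d mw ω b}

/-- A block of side `W = e * D` is bad: some `D`-block near it is bad, or one of its rows or
columns contains no two. `s` is half the side (in `D`-blocks) of the `S`-windows. -/
def WBad (w d mw e s : ℕ) (ω : Config) (β : Site) : Prop :=
  (∃ b : Site, (β.1 * e - 3 * s ≤ b.1 ∧ b.1 < (β.1 + 1) * e + 3 * s ∧
      β.2 * e - 3 * s ≤ b.2 ∧ b.2 < (β.2 + 1) * e + 3 * s) ∧ DBad w d mw ω b) ∨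
  (∃ i : ℤ, β.1 * (e * (d * w) : ℕ) ≤ i ∧ i < (β.1 + 1) * (e * (d * w) : ℕ) ∧
      ∀ x ∈ box (e * (d * w)) β, x.1 = i → ω x ≠ 2) ∨
  (∃ i : ℤ, β.2 * (e * (d * w) : ℕ) ≤ i ∧ i < (β.2 + 1) * (e * (d * w) : ℕ) ∧
      ∀ x ∈ box (e * (d * w)) β, x.2 = i → ω x ≠ 2)

/-- A merged set of twos of intermediate size inside `R`. -/
def BigPart (k : ℕ) (R : Set Site) (ω : Config) : Prop :=
  ∃ B : Finset Site, Mg B ∧ (∀ x ∈ B, ω x = 2 ∧ x ∈ R) ∧ SpanLe (2 * k) (B : Set Site) ∧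
    ∃ x ∈ B, ∃ y ∈ B, (k : ℤ) ≤ |x.1 - y.1| ∨ (k : ℤ) ≤ |x.2 - y.2|

/-! ### Fillings, chains, layers -/

/-- All sites of the block that are not obstacles are in state `1` at time `t`. -/
def Filled (ω : Config) (Pt : Finset (Finset Site)) (D t : ℕ) (b : Site) : Prop :=
  ∀ x ∈ box D b, x ∉ obst Pt → xi ω t x = 1

/-- Local hypotheses on a block; `ω` is the configuration that evolves, `ω'` the configuration
for which the block is good, `Pt` the parts of the set `A` of twos; up to time `t` there is no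
two in the window outside the obstacles. -/
structure BlkOk (D : ℕ) (ω ω' : Config) (A : Finset Site) (Pt : Finset (Finset Site)) (t : ℕ)
    (b : Site) : Prop where
  two_mem : ∀ z ∈ win D 1 b, ω' z = 2 → z ∈ A
  loc : ∀ P ∈ Pt, (∃ z ∈ hull P, z ∈ win D 1 b) → ∀ x ∈ P, ω' x = 2 ∧ x ∈ win D 2 b
  uninv : ∀ s ≤ t, ∀ x ∈ win D 1 b, xi ω s x = 2 → x ∈ obst Pt

/-- Coordinates adapted to the four directions: the first one increases in the direction. -/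
def dirc (i : Fin 4) (x : Site) : Site :=
  match i with
  | 0 => (x.1, x.2)
  | 1 => (-x.1, x.2)
  | 2 => (x.2, x.1)
  | 3 => (-x.2, x.1)

/-- A chain of `n + 1` twos in `R`, moving backwards in the direction `i`. -/
def SeedChain (i : Fin 4) (ω : Config) (R : Set Site) (n T : ℕ) : Prop :=
  ∃ f : ℕ → Site, (∀ j ≤ n, ω (f j) = 2 ∧ f j ∈ R) ∧
    (∀ j < n, 1 ≤ (dirc i (f j)).1 - (dirc i (f (j + 1))).1 ∧
      (dirc i (f j)).1 - (dirc i (f (j + 1))).1 ≤ 4) ∧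
    ∑ j ∈ Finset.range n, |(dirc i (f j)).2 - (dirc i (f (j + 1))).2| ≤ (T : ℤ)

/-- The site on side `i` of the layer `r` with transversal coordinate `h`. -/
def sd (i : Fin 4) (r h : ℤ) : Site :=
  match i with
  | 0 => (r, h)
  | 1 => (-r, h)
  | 2 => (h, r)
  | 3 => (h, -r)

/-- The prescribed zone for the position of the two on a side of layer `r`. -/
def zoneOK (r : ℕ) (y : ℤ) : Prop :=
  (-8 + 4 * ((r % 4 : ℕ) : ℤ)) * r ≤ 10 * y ∧ 10 * y ≤ (-7 + 4 * ((r % 4 : ℕ) : ℤ)) * r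

/-- The layer `r` contains exactly one two on each side, at positions `h i` in the zone. -/
def CtrlLayer (ω : Config) (r : ℕ) (h : Fin 4 → ℤ) : Prop :=
  (∀ i, zoneOK r (h i) ∧ ω (sd i r (h i)) = 2) ∧
    ∀ x : Site, lay x = r → ω x = 2 → ∃ i, x = sd i r (h i)

/-- On each side of the layer `r`, among any `g` consecutive sites there is a one. -/
def DenseSide (ω : Config) (r g : ℕ) : Prop :=
  ∀ (i : Fin 4) (y : ℤ), -(r : ℤ) < y → y + g ≤ r → ∃ j : ℕ, j < g ∧ ω (sd i r (y + j)) = 1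

/-- The times by which the square of radius `r` has no zeros. -/
def theta (j0 r2 g1 w : ℕ) (r : ℕ) : ℕ :=
  (min r r2 - 4 * j0) * (g1 + 2) + (r - r2) * (w + 2)

/-- The sites with `a < lay x ≤ b`. -/
def annulus (a b : ℤ) : Set Site := {x | a < lay x ∧ lay x ≤ b}

/-! ### Parameters and good regions at large scales -/

/-- All the parameters of the construction. -/
structure Par where
  (w d mw m k s e f g j0 g1 r2 Rh v : ℕ)

namespace Par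
/-- side of the `D`-blocks -/
def D (P : Par) : ℕ := P.d * P.w
/-- side of the `W`-blocks -/
def W (P : Par) : ℕ := P.e * P.D
/-- side of the `T0`-boxes -/
def T0 (P : Par) : ℕ := P.f * P.W
/-- side of the `T`-boxes -/
def T (P : Par) : ℕ := P.g * P.T0
/-- time by which the neighbourhood of the controlled nucleus is filled -/
def T' (P : Par) : ℕ := 1000 * P.s * P.D * P.T
/-- radius of the region controlled around the nucleus -/
def Rs (P : Par) : ℕ := 2000 * P.s * P.D * P.T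

/-- The numerical conditions used by the deterministic part. -/
structure Ok (P : Par) : Prop where
  hw : 3 ≤ P.w
  hd : P.mw + 2 ≤ P.d
  hs : P.m + 2 ≤ P.s
  hk : 1 ≤ P.k
  hkD : 4 * P.k + 20 ≤ P.D
  he : 10 * P.s + 10 ≤ P.e
  hf : 1 ≤ P.f
  hg : 400 * P.s * P.D ≤ P.g
  hg1 : 1 ≤ P.g1
  hgw : P.g1 ≤ P.w
  hj : 1000 ≤ P.j0
  hj1 : 100 * (P.g1 + 10) ≤ P.j0
  hr2 : 4 * P.j0 ≤ P.r2
  hr2w : 300 * (P.w + 10) ≤ P.r2
  hRr : P.r2 ≤ P.Rh
  hRw : 1000 * (P.w + 10) ≤ P.Rh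
  hRj : 100 * P.j0 ≤ P.Rh
  hRk : 100 * P.k ≤ P.Rh
  hRs : 40 * P.s * P.D ≤ P.Rh
  hW : 10 * P.Rh ≤ P.W
  hv : 100 * P.v ≤ P.Rh
  hv' : 2000 * P.s * P.D ≤ P.v
end Par

/-- Growth pattern of ones in a box of side `w` with corner `x0`. -/
def AL (w : ℕ) (ω : Config) (x0 : Site) : Prop :=
  ω x0 = 1 ∧ ∀ r : ℕ, 1 ≤ r → r < w →
    (∃ j : ℕ, j < r ∧ ω (x0.1 + r, x0.2 + j) = 1) ∧ (∃ j : ℕ, j < r ∧ ω (x0.1 + j, x0.2 + r) = 1)

/-- Put ones in the `w`-box of index `c`. -/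
noncomputable def updw (w : ℕ) (ω : Config) (c : Site) : Config :=
  fun x => if x ∈ box w c then 1 else ω x

/-- A nucleus of ones in the lower left corner of the `D`-block `b`. -/
def Nuc1 (P : Par) (ω : Config) (b : Site) : Prop :=
  (∀ z ∈ win P.D 2 b, ω z ≠ 2) ∧ AL P.w ω (b.1 * P.D, b.2 * P.D) ∧
    ∀ b' ∈ swin P.s b, ¬ DBad P.w P.d P.mw (updw P.w ω (b.1 * P.d, b.2 * P.d)) b'

/-- The `T`-box `z` is bad. -/
def TBad (P : Par) (ω : Config) (z : Site) : Prop :=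
  BigPart P.k (win P.T 2 z) ω ∨
  (∃ C : Set Site, (∀ b ∈ C, win P.D 2 b ⊆ win P.T 2 z ∧ DBad P.w P.d P.mw ω b) ∧
    Conn star C ∧ ¬ SpanLe P.m C) ∨
  (∃ C : Set Site, (∀ β ∈ C, win P.W 1 β ⊆ win P.T 2 z ∧ WBad P.w P.d P.mw P.e P.s ω β) ∧
    Conn star C ∧ ¬ SpanLe P.m C)

/-- The controlled nucleus centred at the origin. -/
structure Nuc2 (P : Par) (ω : Config) (h : ℕ → Fin 4 → ℤ) : Prop where
  core : ∀ x, lay x ≤ P.j0 → ω x = 2
  ctrl : ∀ r, P.j0 < r → r ≤ 2 * P.Rh → CtrlLayer ω r (h r)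
  ann : ∀ x, (P.j0 : ℤ) < lay x → lay x ≤ 4 * P.j0 → ω x ≠ 0
  dense1 : ∀ r, 4 * P.j0 < r → r ≤ P.r2 → DenseSide ω r P.g1
  dense2 : ∀ r, P.r2 < r → r ≤ 2 * P.Rh → DenseSide ω r P.w
  outer : ∀ r : ℕ, 2 * P.Rh < r → r ≤ P.W → ∀ i, ∃ y : ℤ, |y| < r ∧ ω (sd i r y) = 2

/-- The `W`-blocks covered by the nucleus. -/
def Kset : Set Site := {β | (β.1 = 0 ∨ β.1 = -1) ∧ (β.2 = 0 ∨ β.2 = -1)}

/-- The region around the nucleus (centred at the origin) is typical. -/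
structure SpecOk (P : Par) (ω : Config) : Prop where
  big : ¬ BigPart P.k (annulus P.Rh P.Rs) ω
  dspan : ∀ C : Set Site, (∀ b ∈ C, win P.D 2 b ⊆ annulus P.Rh P.Rs ∧ DBad P.w P.d P.mw ω b) →
    Conn star C → SpanLe P.m C
  chain : ∀ (i : Fin 4) (N : ℕ), P.Rh ≤ N → N ≤ P.Rs →
    ¬ SeedChain i ω (annulus P.Rh P.Rs) ((N - 1) / 4) (N * P.v + 2 * (P.k + 1) * ((N - 1) / 4))
  near : ∀ b : Site, win P.D 2 b ⊆ annulus P.Rh (2 * P.W) → ¬ DBad P.w P.d P.mw ω b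
  wspan : ∀ C : Set Site, (∀ β ∈ C, β ∉ Kset ∧ win P.W 1 β ⊆ {x | lay x ≤ P.Rs} ∧
    WBad P.w P.d P.mw P.e P.s ω β) → Conn star C → SpanLe P.m C
  wnear : ∀ n : ℕ, ¬ NearBad (win (P.g * P.f) 1 (0, 0))
    {β | WBad P.w P.d P.mw P.e P.s ω β ∧ β ∉ Kset} (0, 0) n

/-! ### Probability: witnesses -/

/-- Triples of finite sets: `(Z, Y, X)`. -/
abbrev Tri := Finset Site × Finset Site × Finset Site

/-- The cylinder: all sites of `Z` are twos, no site of `Y` is a one, no site of `X` is a two. -/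
def cyl (τ : Tri) : Set Config :=
  {ω | (∀ x ∈ τ.1, ω x = 2) ∧ (∀ x ∈ τ.2.1, ω x ≠ 1) ∧ (∀ x ∈ τ.2.2, ω x ≠ 2)}

/-- The weight of a triple. -/
noncomputable def wt (a b c : ℝ) (τ : Tri) : ℝ :=
  a ^ τ.1.card * b ^ τ.2.1.card * c ^ τ.2.2.card

/-- Pairwise disjointness of the three sets. -/
def Disj3 (τ : Tri) : Prop := Disjoint τ.1 τ.2.1 ∧ Disjoint τ.1 τ.2.2 ∧ Disjoint τ.2.1 τ.2.2

/-- The event `E` is witnessed by finitely many cylinders inside `R` (with `X` inside `V`) of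
total weight at most `δ`. -/
def Wit (a b c : ℝ) (V R : Set Site) (δ : ℝ) (E : Set Config) : Prop :=
  ∃ F : Finset Tri, (∀ τ ∈ F, Disj3 τ ∧ (τ.1 : Set Site) ⊆ R ∧ (τ.2.1 : Set Site) ⊆ R ∧
    (τ.2.2 : Set Site) ⊆ R ∩ V) ∧ (∀ ω ∈ E, ∃ τ ∈ F, ω ∈ cyl τ) ∧ ∑ τ ∈ F, wt a b c τ ≤ δ

/-- The measure `ν` is dominated by the weights on cylinders inside `U` (with `X` inside `V`). -/
def Dom (ν : Measure Config) (a b c : ℝ) (U V : Set Site) : Prop :=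
  ∀ τ : Tri, Disj3 τ → (τ.1 : Set Site) ⊆ U → (τ.2.1 : Set Site) ⊆ U →
    (τ.2.2 : Set Site) ⊆ V → ν.real (cyl τ) ≤ wt a b c τ

/-- The event `E` depends only on the sites of `R`. -/
def DepOn (E : Set Config) (R : Finset Site) : Prop :=
  ∀ ω ω' : Config, (∀ x ∈ R, ω x = ω' x) → (ω ∈ E ↔ ω' ∈ E)

/-- A `*`-path with `n` steps and distinct vertices in `C` starting at `x`. -/
def StarPath (C : Set Site) (x : Site) (n : ℕ) : Prop :=
  ∃ f : ℕ → Site, f 0 = x ∧ (∀ i ≤ n, f i ∈ C) ∧ (∀ i < n, star (f i) (f (i + 1))) ∧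
    Set.InjOn f (Set.Iic n)

/-- The shifted configuration. -/
def shift (u : Site) (ω : Config) : Config := fun x => ω (x.1 + u.1, x.2 + u.2)

/-- The sum of the bounds for `NearBad`. -/
noncomputable def nearSum (δ : ℝ) (M : ℕ) : ℝ :=
  ∑ n ∈ Finset.range (M + 1), (2 * (n : ℝ) + 1) ^ 2 * 8 ^ n * δ ^ ((n + 81) / 81)

/-- Bound for the weight of `DBad`. -/
noncomputable def deltaD (w d mw : ℕ) (a b : ℝ) : ℝ :=
  10 ^ 6 * ((d * w : ℕ) : ℝ) ^ 2 * a ^ 3 + 50 * ((d * w : ℕ) : ℝ) ^ 2 * b ^ w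
  + 9 * (d : ℝ) ^ 2 * 8 ^ (mw + 1) * (a * ((w : ℝ) + 4) ^ 2) ^ ((mw + 82) / 81)
  + 10 ^ 18 * (((d * w : ℕ) : ℝ) ^ 2 * a ^ 4 / (1 - b) ^ 3 + ((d * w : ℕ) : ℝ) ^ 4 * a ^ 4 / (1 - b)
      + ((d * w : ℕ) : ℝ) ^ 4 * a ^ 5 / (1 - b) ^ 3 + ((d * w : ℕ) : ℝ) ^ 6 * a ^ 6 / (1 - b) ^ 3)

/-- Bound for the weight of `WBad`. -/
noncomputable def deltaW (w d mw e s : ℕ) (a b c : ℝ) : ℝ :=
  ((e : ℝ) + 6 * s) ^ 2 * deltaD w d mw a b + 2 * ((e * (d * w) : ℕ) : ℝ) * c ^ (e * (d * w))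

/-- Bound for the weight of `BigPart k R` with `R` of cardinality `n`. -/
noncomputable def bigW (k : ℕ) (a : ℝ) (n : ℝ) : ℝ := 2 * n * (2 * (4 * k + 1) * a) ^ (k / 2)

/-- Bound for the weight of a large bad set: `n` boxes, span larger than `m`. -/
noncomputable def spanW (m : ℕ) (δ n : ℝ) : ℝ := n * 8 ^ (m + 1) * δ ^ ((m + 82) / 81)

/-- Bound for the weight of `TBad`. -/
noncomputable def deltaT (P : Par) (a b c : ℝ) : ℝ :=
  bigW P.k a (25 * (P.T : ℝ) ^ 2)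
  + spanW P.m (deltaD P.w P.d P.mw a b) (25 * ((P.g * P.f * P.e : ℕ) : ℝ) ^ 2)
  + spanW P.m (deltaW P.w P.d P.mw P.e P.s a b c) (25 * ((P.g * P.f : ℕ) : ℝ) ^ 2)

/-- The neighbourhood of the `W`-block `β` on which `WBad` depends. -/
def wreg (P : Par) (β : Site) : Set Site :=
  {x | β.1 * P.W - (3 * P.s + 3) * P.D ≤ x.1 ∧ x.1 < (β.1 + 1) * P.W + (3 * P.s + 3) * P.D ∧
       β.2 * P.W - (3 * P.s + 3) * P.D ≤ x.2 ∧ x.2 < (β.2 + 1) * P.W + (3 * P.s + 3) * P.D}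

/-- The event that there is a controlled nucleus centred at the origin. -/
def Nev (P : Par) : Set Config := {ω | ∃ h, Nuc2 P ω h}

/-- The event that the trial at the origin succeeds. -/
def Tr (P : Par) (mT : ℕ) : Set Config :=
  {ω | ω ∈ Nev P ∧ SpecOk P ω ∧ ∀ n ≤ mT, ¬ NearBad (ball (0, 0) mT)
    {z | TBad P ω z ∧ ¬ (|z.1| ≤ 4 ∧ |z.2| ≤ 4)} (0, 0) n}

/-- Bound for the conditional probability that a trial fails. -/
noncomputable def deltaS (P : Par) (mT : ℕ) (a b c lam : ℝ) : ℝ :=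
  bigW P.k a ((2 * (P.Rs : ℝ) + 1) ^ 2)
  + spanW P.m (deltaD P.w P.d P.mw a b) ((2 * (P.Rs : ℝ) + 1) ^ 2)
  + ∑ N ∈ Finset.Icc P.Rh P.Rs, 4 * ((2 * (P.Rs : ℝ) + 1) ^ 2 * a *
      (4 * a * (1 + 2 / lam)) ^ ((N - 1) / 4) *
      Real.exp (lam * (N * P.v + 2 * (P.k + 1) * ((N - 1) / 4) : ℕ)))
  + (4 * (P.e : ℝ) + 4) ^ 2 * deltaD P.w P.d P.mw a b
  + spanW P.m (deltaW P.w P.d P.mw P.e P.s a b c) ((2 * (P.Rs : ℝ) + 1) ^ 2)
  + nearSum (deltaW P.w P.d P.mw P.e P.s a b c) (3 * P.g * P.f)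
  + nearSum (deltaT P a b c) mT

/-- lower bound for the probability of the nucleus -/
noncomputable def nucLow (P : Par) (p q : ℝ) : ℝ :=
  q ^ ((2 * P.j0 + 1) ^ 2) * p ^ ((8 * P.j0 + 1) ^ 2)
  * (∏ r ∈ Finset.Icc (P.j0 + 1) (2 * P.Rh), ((r : ℝ) / 20 * q * (1 - q) ^ (2 * r)) ^ 4)
  * (1 - q) ^ (8 * P.Rh) * (1 / 2) ^ (64 * (P.r2 + 1) ^ 2 / P.g1 + 64 * P.r2)
  * (∏ r ∈ Finset.Icc (2 * P.Rh + 1) P.W, (1 - (1 - q) ^ (2 * r - 1)) ^ 4)
  * (1 / 2)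

/-- radius of the square on which the trial depends -/
def trRadius (P : Par) (mT : ℕ) : ℕ := P.Rs + (mT + 4) * P.T

/-- lower bound for the probability of a nucleus of ones -/
noncomputable def nuc1Low (P : Par) (p q : ℝ) : ℝ :=
  (1 - q) ^ (25 * P.D ^ 2) * p * (∏ r ∈ Finset.Ico 1 P.w, (1 - (1 - p) ^ r) ^ 2)
  * (1 - 4 * (P.s : ℝ) ^ 2 * deltaD P.w P.d P.mw (2 * q) (1 - p / 2))

/-! ### The components of the controlled nucleus -/

/-- the corners of the layer `r` -/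
def corner (i : Fin 4) (r : ℤ) : Site :=
  match i with
  | 0 => (r, r)
  | 1 => (-r, r)
  | 2 => (r, -r)
  | 3 => (-r, -r)

/-- Cells of the nucleus: `none` is the core, `some (r, i, false)` the side `i` of the layer `r`
without corners, `some (r, i, true)` the corner `i` of the layer `r`. -/
noncomputable def cell (P : Par) : Option (ℕ × Fin 4 × Bool) → Finset Site
  | none => Finset.Icc (-(P.j0 : ℤ), -(P.j0 : ℤ)) ((P.j0 : ℤ), (P.j0 : ℤ))
  | some (r, i, false) => (Finset.Ioo (-(r : ℤ)) (r : ℤ)).image (sd i r)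
  | some (r, i, true) => {corner i r}

/-- the event on a side of the layer `r ≤ 2 * Rh` -/
def sideEv (P : Par) (r : ℕ) (i : Fin 4) : Set Config :=
  {ω | ∃ h : ℤ, zoneOK r h ∧ ω (sd i r h) = 2 ∧
    (∀ y : ℤ, |y| < r → y ≠ h → ω (sd i r y) ≠ 2) ∧
    (r ≤ 4 * P.j0 → ∀ y : ℤ, |y| < r → ω (sd i r y) ≠ 0) ∧
    (4 * P.j0 < r → r ≤ P.r2 → ∀ y : ℤ, -(r : ℤ) < y → y + P.g1 ≤ r →
      ∃ j : ℕ, j < P.g1 ∧ ω (sd i r (y + j)) = 1) ∧
    (P.r2 < r → ∀ y : ℤ, -(r : ℤ) < y → y + P.w ≤ r →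
      ∃ j : ℕ, j < P.w ∧ ω (sd i r (y + j)) = 1)}

/-- the events on the cells -/
def cev (P : Par) : Option (ℕ × Fin 4 × Bool) → Set Config
  | none => {ω | ∀ x, lay x ≤ P.j0 → ω x = 2}
  | some (r, i, false) => {ω | (r ≤ 2 * P.Rh → ω ∈ sideEv P r i) ∧
      (2 * P.Rh < r → ∃ y : ℤ, |y| < r ∧ ω (sd i r y) = 2)}
  | some (r, i, true) => {ω | r ≤ 2 * P.Rh → (ω (corner i r) ≠ 2 ∧
      (r ≤ 4 * P.j0 → ω (corner i r) ≠ 0))}

/-- the cells -/
def cidx (P : Par) : Finset (Option (ℕ × Fin 4 × Bool)) :=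
  Finset.insertNone (Finset.Icc (P.j0 + 1) P.W ×ˢ (Finset.univ ×ˢ Finset.univ))

/-- domination on one cell -/
def CellDom (P : Par) (p q : ℝ) (c : Option (ℕ × Fin 4 × Bool)) : Prop :=
  ∀ τ : Tri, Disj3 τ → τ.1 ⊆ cell P c → τ.2.1 ⊆ cell P c → τ.2.2 ⊆ cell P c →
    (∀ x ∈ τ.1 ∪ τ.2.1, (P.Rh : ℤ) < lay x) → (∀ x ∈ τ.2.2, 2 * (P.Rh : ℤ) < lay x) →
    (law p q).real (cev P c ∩ cyl τ) ≤
      (law p q).real (cev P c) * wt (2 * q) (1 - p / 2) (1 - q) τ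

/-! ### Numerical conditions and the choice of the parameters -/

/-- sum of the bounds for the probabilities of the exceptional events -/
noncomputable def failSum (P : Par) (mT M n K : ℕ) (p q : ℝ) : ℝ :=
  spanW mT (deltaT P (2 * q) (1 - p / 2) (1 - q)) ((2 * (M : ℝ) + 1) ^ 2)
  + nearSum (deltaT P (2 * q) (1 - p / 2) (1 - q)) (2 * M)
  + nearSum (deltaW P.w P.d P.mw P.e P.s (2 * q) (1 - p / 2) (1 - q)) (3 * P.g * P.f)
  + (2 * ((3 * (M : ℝ) + 20) * P.g) + 2) ^ 2 * (1 - nuc1Low P p q) ^ (n ^ 2)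
  + (1 - nucLow P p q / 2) ^ (K ^ 2)

/-- the numerical conditions for the probabilistic part -/
structure ProbOk (P : Par) (mT M n K : ℕ) (p q lam : ℝ) : Prop where
  hp : 0 < p
  hq : 0 < q
  hp' : p ≤ 1 / 100
  hqp : q ≤ p ^ 2
  hl : 0 < lam
  hRh : 20 ≤ q * P.Rh
  hg1 : (1 - p) ^ (P.g1 / 2 - 1) ≤ 1 / 4
  hg2 : 8 ≤ P.g1
  hw : 100 * ((P.Rh : ℝ)) ^ 2 * (1 - p) ^ (P.w - 1) ≤ p / 100
  haw : 2 * q * ((P.w : ℝ) + 4) ^ 2 ≤ 1
  hD1 : deltaD P.w P.d P.mw (2 * q) (1 - p / 2) ≤ 1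
  hW1 : deltaW P.w P.d P.mw P.e P.s (2 * q) (1 - p / 2) (1 - q) ≤ 1
  hT1 : deltaT P (2 * q) (1 - p / 2) (1 - q) ≤ 1
  hS : deltaS P mT (2 * q) (1 - p / 2) (1 - q) lam ≤ 1 / 2
  h0 : 0 ≤ nuc1Low P p q
  hn : n * (2 * P.s + 5) + 4 ≤ P.f * P.e
  hM : mT + 10 ≤ M
  hK : K * (4000 * P.s * P.D + 2 * mT + 10) ≤ M

/-- `p` and `q` are small, in the regime of the question. -/
def Small (p q η : ℝ) : Prop :=
  0 < p ∧ p ≤ η ∧ 0 < q ∧ q * (Real.log (1 / p)) ^ 2 ≤ η * p ^ 2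

/-- the choice of the parameters -/
noncomputable def pr (p q : ℝ) : Par :=
  let L := Real.log (1 / q)
  let w := ⌈100 * L / p⌉₊
  let mw := ⌈81 * L⌉₊
  let d := mw + 2
  let m := ⌈10 ^ 5 * (1 / p + L) / L⌉₊
  let s := m + 2
  let g1 := ⌈20 / p⌉₊
  { w := w, d := d, mw := mw, m := m, k := m, s := s,
    e := ⌈100 * L / (q * (d * w : ℕ))⌉₊,
    f := ⌈Real.exp (10 * (1 / p + L))⌉₊,
    g := 400 * s * (d * w),
    j0 := 100 * (g1 + 10), g1 := g1, r2 := 300 * (w + 10),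
    Rh := ⌈20 / q⌉₊, v := 2000 * s * (d * w) }

noncomputable def prmT (p q : ℝ) : ℕ := ⌈2 * 10 ^ 6 / (q * (1 / p + Real.log (1 / q)))⌉₊
noncomputable def prM (q : ℝ) : ℕ := ⌈Real.exp (20000 / q)⌉₊
noncomputable def prn (p q : ℝ) : ℕ := (pr p q).f * (pr p q).e / (2 * (pr p q).s + 5) - 1
noncomputable def prK (p q : ℝ) : ℕ :=
  prM q / (4000 * (pr p q).s * (pr p q).D + 2 * prmT p q + 10)

end TSB
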