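import Pool.Agent.TSB.Defs

/-! Two-stage bootstrap percolation, module DYN: elementary facts on the dynamics. -/

open scoped Classical

namespace TSB

theorem dyn_mem_nb {x y : Site} : y ∈ nb x ↔ y = (x.1 + 1, x.2) ∨ y = (x.1 - 1, x.2) ∨
    y = (x.1, x.2 + 1) ∨ y = (x.1, x.2 - 1) := by
  simp only [nb, Finset.mem_insert, Finset.mem_singleton]

theorem dyn_adj_iff {x y : Site} : adj x y ↔ y = (x.1 + 1, x.2) ∨ y = (x.1 - 1, x.2) ∨
    y = (x.1, x.2 + 1) ∨ y = (x.1, x.2 - 1) := dyn_mem_nb

theorem adj_symm {x y : Site} (h : adj x y) : adj y x := by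
  rw [dyn_adj_iff] at h ⊢
  rcases h with h | h | h | h <;> subst h
  · right; left; ext <;> simp
  · left; ext <;> simp
  · right; right; right; ext <;> simp
  · right; right; left; ext <;> simp

theorem cnt_mono {S T : Set Site} (h : S ⊆ T) (x : Site) : cnt S x ≤ cnt T x := by
  unfold cnt
  apply Finset.card_le_card
  intro y hy
  rw [Finset.mem_filter] at hy ⊢
  exact ⟨hy.1, h hy.2⟩

theorem cnt_pos {S : Set Site} {x : Site} : 1 ≤ cnt S x ↔ ∃ y ∈ S, adj x y := by
  unfold cnt
  rw [Nat.one_le_iff_ne_zero, ← Nat.pos_iff_ne_zero, Finset.card_pos]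
  constructor
  · rintro ⟨y, hy⟩
    rw [Finset.mem_filter] at hy
    exact ⟨y, hy.2, hy.1⟩
  · rintro ⟨y, hy, hxy⟩
    exact ⟨y, Finset.mem_filter.mpr ⟨hxy, hy⟩⟩

theorem dyn_step_ge (ξ : Config) (x : Site) : ξ x ≤ step ξ x := by
  unfold step
  by_cases h0 : ξ x = 0
  · rw [h0]; exact Fin.zero_le _
  · by_cases h1 : ξ x = 1
    · rw [if_neg h0, if_pos h1, h1]
      split_ifs <;> decide
    · rw [if_neg h0, if_neg h1]
      exact Fin.le_last _

theorem xi_mono (ω : Config) {s t : ℕ} (h : s ≤ t) (x : Site) : xi ω s x ≤ xi ω t x := by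
  induction h with
  | refl => exact le_refl _
  | step _ ih => exact ih.trans (dyn_step_ge _ x)

theorem xi_zero_one {ω : Config} {t : ℕ} {x : Site} (h0 : xi ω t x = 0)
    (h : 2 ≤ cnt {y | xi ω t y = 1} x) : xi ω (t + 1) x = 1 := by
  show step (xi ω t) x = 1
  unfold step
  rw [if_pos h0, if_pos h]

theorem xi_one_two {ω : Config} {t : ℕ} {x : Site} (h0 : xi ω t x = 1)
    (h : 2 ≤ cnt {y | xi ω t y = 2} x) : xi ω (t + 1) x = 2 := by
  show step (xi ω t) x = 2
  unfold step
  rw [if_neg (by rw [h0]; decide), if_pos h0, if_pos h]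

theorem boot_mono {A B : Set Site} (h : A ⊆ B) (t : ℕ) : boot A t ⊆ boot B t := by
  induction t with
  | zero => exact h
  | succ t ih =>
    intro x hx
    rcases hx with hx | hx
    · exact Or.inl (ih hx)
    · exact Or.inr (le_trans hx (cnt_mono ih x))

theorem boot_mono_time (A : Set Site) {s t : ℕ} (h : s ≤ t) : boot A s ⊆ boot A t := by
  induction h with
  | refl => exact subset_rfl
  | step _ ih => exact ih.trans (fun x hx => Or.inl hx)

theorem boot_closed {A C : Set Site} (hA : A ⊆ C) (hC : ∀ x, 2 ≤ cnt C x → x ∈ C) (t : ℕ) :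
    boot A t ⊆ C := by
  induction t with
  | zero => exact hA
  | succ t ih =>
    intro x hx
    rcases hx with hx | hx
    · exact ih hx
    · exact hC x (le_trans hx (cnt_mono ih x))

theorem dyn_adj_abs {x y : Site} (h : adj x y) : |y.1 - x.1| ≤ 1 ∧ |y.2 - x.2| ≤ 1 := by
  rw [dyn_adj_iff] at h
  rcases h with h | h | h | h <;> subst h <;> constructor <;> simp

theorem dyn_ball_sub {x y : Site} (h : adj x y) (t : ℕ) : ball y t ⊆ ball x (t + 1 : ℕ) := by
  intro z hz
  obtain ⟨h1, h2⟩ := dyn_adj_abs h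
  obtain ⟨h3, h4⟩ := hz
  refine ⟨?_, ?_⟩
  · have := abs_add_le (z.1 - y.1) (y.1 - x.1)
    have e : z.1 - y.1 + (y.1 - x.1) = z.1 - x.1 := by ring
    rw [e] at this
    push_cast
    linarith
  · have := abs_add_le (z.2 - y.2) (y.2 - x.2)
    have e : z.2 - y.2 + (y.2 - x.2) = z.2 - x.2 := by ring
    rw [e] at this
    push_cast
    linarith

theorem dyn_ball_mono (x : Site) {s t : ℤ} (h : s ≤ t) : ball x s ⊆ ball x t :=
  fun _ hz => ⟨hz.1.trans h, hz.2.trans h⟩

theorem boot_local (A : Set Site) (t : ℕ) (x : Site) (h : x ∈ boot A t) :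
    x ∈ boot (A ∩ ball x t) t := by
  induction t generalizing x with
  | zero =>
    refine ⟨h, ?_, ?_⟩ <;> simp
  | succ t ih =>
    rcases h with h | h
    · left
      exact boot_mono (Set.inter_subset_inter_right A (dyn_ball_mono x (by push_cast; linarith))) t
        (ih x h)
    · right
      have h' : 2 ≤ cnt (boot A t) x := h
      refine le_trans h' ?_
      unfold cnt
      apply Finset.card_le_card
      intro y hy
      rw [Finset.mem_filter] at hy ⊢
      refine ⟨hy.1, ?_⟩
      exact boot_mono (Set.inter_subset_inter_right A (dyn_ball_sub hy.1 t)) t (ih y hy.2)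

theorem xi_two_boot (ω : Config) (t : ℕ) : {x | xi ω t x = 2} ⊆ boot {x | ω x = 2} t := by
  induction t with
  | zero => exact subset_rfl
  | succ t ih =>
    intro x hx
    have hx' : step (xi ω t) x = 2 := hx
    unfold step at hx'
    by_cases h0 : xi ω t x = 0
    · rw [if_pos h0] at hx'
      split_ifs at hx' <;> exact absurd hx' (by decide)
    · rw [if_neg h0] at hx'
      by_cases h1 : xi ω t x = 1
      · rw [if_pos h1] at hx'
        by_cases h2 : 2 ≤ cnt {y | xi ω t y = 2} x
        · right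
          exact le_trans h2 (cnt_mono ih x)
        · rw [if_neg h2] at hx'
          exact absurd hx' (by decide)
      · left
        apply ih
        show xi ω t x = 2
        have : ∀ a : Fin 3, a ≠ 0 → a ≠ 1 → a = 2 := by decide
        exact this _ h0 h1

end TSB
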