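import Pool.Agent.TSB.PartsA
import Pool.Agent.TSB.PartsB

/-! Module HOLE of the project on two-stage bootstrap percolation: the witness of a hole. -/

open MeasureTheory
open scoped Classical

namespace TSB

/-- the indicator of a proposition -/
noncomputable def holeInd (p : Prop) : ℕ := if p then 1 else 0

theorem holeInd_eq (p : Prop) [Decidable p] : (if p then 1 else 0 : ℕ) = holeInd p := by
  unfold holeInd
  split_ifs <;> rfl

theorem holeInd_le (p : Prop) : holeInd p ≤ 1 := by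
  unfold holeInd
  split_ifs <;> omega

theorem holeInd_pos {p : Prop} (h : p) : holeInd p = 1 := by
  unfold holeInd
  rw [if_pos h]

theorem holeInd_neg {p : Prop} (h : ¬ p) : holeInd p = 0 := by
  unfold holeInd
  rw [if_neg h]

theorem hole_cnt_eq (T : Set Site) (x : Site) :
    cnt T x = holeInd ((x.1 + 1, x.2) ∈ T) + holeInd ((x.1 - 1, x.2) ∈ T)
      + holeInd ((x.1, x.2 + 1) ∈ T) + holeInd ((x.1, x.2 - 1) ∈ T) := by
  unfold cnt nb
  rw [Finset.card_filter, Finset.sum_insert, Finset.sum_insert, Finset.sum_insert,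
    Finset.sum_singleton]
  · simp only [holeInd_eq]
    ring
  · simp only [Finset.mem_singleton, Prod.mk.injEq, not_and]
    omega
  · simp only [Finset.mem_insert, Finset.mem_singleton, Prod.mk.injEq, not_or, not_and]
    omega
  · simp only [Finset.mem_insert, Finset.mem_singleton, Prod.mk.injEq, not_or, not_and]
    omega

private theorem hole_logic (x3 x4 o1 o2 o3 o4 : Prop)
    (h3 : 3 ≤ holeInd o1 + holeInd o2 + holeInd (x3 ∨ o3) + holeInd (x4 ∨ o4))
    (h1 : holeInd o1 + holeInd o2 + holeInd o3 + holeInd o4 ≤ 1) : (o1 ∨ o2) ∧ x3 ∧ x4 := by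
  have j3 := holeInd_le (x3 ∨ o3)
  have j4 := holeInd_le (x4 ∨ o4)
  refine ⟨?_, ?_, ?_⟩
  · by_contra h
    rw [not_or] at h
    rw [holeInd_neg h.1, holeInd_neg h.2] at h3
    omega
  · by_contra h
    rw [show (x3 ∨ o3) = o3 by simp [h]] at h3
    omega
  · by_contra h
    rw [show (x4 ∨ o4) = o4 by simp [h]] at h3
    omega

/-- horizontal runs -/
private theorem hole_run (S : Finset Site) (a : Site) (ha : a ∈ S) :
    ∃ n : ℕ, (∀ i : ℕ, i ≤ n → (a.1 + i, a.2) ∈ S) ∧ (a.1 + n + 1, a.2) ∉ S := by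
  have hex : ∃ m : ℕ, (a.1 + m, a.2) ∉ S := by
    by_contra hcon
    push Not at hcon
    have : Set.Infinite (S : Set Site) := by
      refine Set.infinite_of_injective_forall_mem (f := fun m : ℕ => ((a.1 + m, a.2) : Site))
        ?_ (fun m => hcon m)
      intro m m' h
      simp only [Prod.mk.injEq, add_right_inj, Nat.cast_inj, and_true] at h
      exact h
    exact this S.finite_toSet
  have h0 : Nat.find hex ≠ 0 := by
    intro h
    have := Nat.find_spec hex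
    rw [h] at this
    simp only [Nat.cast_zero, add_zero, Prod.mk.eta] at this
    exact this ha
  refine ⟨Nat.find hex - 1, ?_, ?_⟩
  · intro i hi
    have := Nat.find_min hex (m := i) (by omega)
    rwa [not_not] at this
  · have := Nat.find_spec hex
    have e : ((a.1 + ((Nat.find hex - 1 : ℕ) : ℤ) + 1, a.2) : Site)
        = (a.1 + (Nat.find hex : ℤ), a.2) := by
      rw [Prod.mk.injEq]
      refine ⟨?_, rfl⟩
      omega
    rw [e]
    exact this

/-- vertical runs -/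
private theorem hole_runv (S : Finset Site) (a : Site) (ha : a ∈ S) :
    ∃ n : ℕ, (∀ i : ℕ, i ≤ n → (a.1, a.2 + i) ∈ S) ∧ (a.1, a.2 + n + 1) ∉ S := by
  have hex : ∃ m : ℕ, (a.1, a.2 + m) ∉ S := by
    by_contra hcon
    push Not at hcon
    have : Set.Infinite (S : Set Site) := by
      refine Set.infinite_of_injective_forall_mem (f := fun m : ℕ => ((a.1, a.2 + m) : Site))
        ?_ (fun m => hcon m)
      intro m m' h
      simp only [Prod.mk.injEq, add_right_inj, Nat.cast_inj, true_and] at h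
      exact h
    exact this S.finite_toSet
  have h0 : Nat.find hex ≠ 0 := by
    intro h
    have := Nat.find_spec hex
    rw [h] at this
    simp only [Nat.cast_zero, add_zero, Prod.mk.eta] at this
    exact this ha
  refine ⟨Nat.find hex - 1, ?_, ?_⟩
  · intro i hi
    have := Nat.find_min hex (m := i) (by omega)
    rwa [not_not] at this
  · have := Nat.find_spec hex
    have e : ((a.1, a.2 + ((Nat.find hex - 1 : ℕ) : ℤ) + 1) : Site)
        = (a.1, a.2 + (Nat.find hex : ℤ)) := by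
      rw [Prod.mk.injEq]
      refine ⟨rfl, ?_⟩
      omega
    rw [e]
    exact this

section corners
variable {S : Finset Site} {O : Set Site} (h1 : ∀ s ∈ S, cnt O s ≤ 1)
  (h3 : ∀ s ∈ S, 3 ≤ cnt ({x | x ∈ S} ∪ O) s)

include h1 h3

private theorem hole_ul {s : Site} (hs : s ∈ S) (hu : (s.1, s.2 + 1) ∉ S)
    (hl : (s.1 - 1, s.2) ∉ S) :
    ((s.1, s.2 + 1) ∈ O ∨ (s.1 - 1, s.2) ∈ O) ∧ (s.1 + 1, s.2) ∈ S ∧ (s.1, s.2 - 1) ∈ S := by
  have e1 := h1 s hs
  have e3 := h3 s hs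
  rw [hole_cnt_eq] at e1 e3
  simp only [Set.mem_union, Set.mem_ofPred_eq, hu, hl, false_or] at e3
  exact hole_logic _ _ _ _ ((s.1 + 1, s.2) ∈ O) ((s.1, s.2 - 1) ∈ O) (by omega) (by omega)

private theorem hole_ur {s : Site} (hs : s ∈ S) (hu : (s.1, s.2 + 1) ∉ S)
    (hr : (s.1 + 1, s.2) ∉ S) :
    ((s.1, s.2 + 1) ∈ O ∨ (s.1 + 1, s.2) ∈ O) ∧ (s.1 - 1, s.2) ∈ S ∧ (s.1, s.2 - 1) ∈ S := by
  have e1 := h1 s hs
  have e3 := h3 s hs
  rw [hole_cnt_eq] at e1 e3
  simp only [Set.mem_union, Set.mem_ofPred_eq, hu, hr, false_or] at e3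
  exact hole_logic _ _ _ _ ((s.1 - 1, s.2) ∈ O) ((s.1, s.2 - 1) ∈ O) (by omega) (by omega)

private theorem hole_dl {s : Site} (hs : s ∈ S) (hd : (s.1, s.2 - 1) ∉ S)
    (hl : (s.1 - 1, s.2) ∉ S) :
    ((s.1, s.2 - 1) ∈ O ∨ (s.1 - 1, s.2) ∈ O) ∧ (s.1 + 1, s.2) ∈ S ∧ (s.1, s.2 + 1) ∈ S := by
  have e1 := h1 s hs
  have e3 := h3 s hs
  rw [hole_cnt_eq] at e1 e3
  simp only [Set.mem_union, Set.mem_ofPred_eq, hd, hl, false_or] at e3
  exact hole_logic _ _ _ _ ((s.1 + 1, s.2) ∈ O) ((s.1, s.2 + 1) ∈ O) (by omega) (by omega)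

private theorem hole_dr {s : Site} (hs : s ∈ S) (hd : (s.1, s.2 - 1) ∉ S)
    (hr : (s.1 + 1, s.2) ∉ S) :
    ((s.1, s.2 - 1) ∈ O ∨ (s.1 + 1, s.2) ∈ O) ∧ (s.1 - 1, s.2) ∈ S ∧ (s.1, s.2 + 1) ∈ S := by
  have e1 := h1 s hs
  have e3 := h3 s hs
  rw [hole_cnt_eq] at e1 e3
  simp only [Set.mem_union, Set.mem_ofPred_eq, hd, hr, false_or] at e3
  exact hole_logic _ _ _ _ ((s.1 - 1, s.2) ∈ O) ((s.1, s.2 + 1) ∈ O) (by omega) (by omega)

private theorem hole_top (hS : S.Nonempty) : ∃ a b oa ob : Site, a.2 = b.2 ∧ a.1 < b.1 ∧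
    (∀ x : Site, x.2 = a.2 → a.1 ≤ x.1 → x.1 ≤ b.1 → x ∈ S) ∧ (∀ s ∈ S, s.2 ≤ a.2) ∧
    (∃ s ∈ S, s.2 < a.2) ∧ oa ∈ O ∧ ob ∈ O ∧
    (oa = (a.1, a.2 + 1) ∨ oa = (a.1 - 1, a.2)) ∧ (ob = (b.1, b.2 + 1) ∨ ob = (b.1 + 1, b.2)) := by
  obtain ⟨t, htS, ht⟩ := Finset.exists_max_image S (fun s => s.2) hS
  obtain ⟨a, haT, ha⟩ := Finset.exists_min_image (S.filter (fun s => s.2 = t.2))
    (fun s => s.1) ⟨t, Finset.mem_filter.mpr ⟨htS, rfl⟩⟩
  obtain ⟨haS, hat⟩ := Finset.mem_filter.mp haT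
  have top : ∀ s ∈ S, s.2 ≤ a.2 := fun s hs => by rw [hat]; exact ht s hs
  have left : ∀ s ∈ S, s.2 = a.2 → a.1 ≤ s.1 := fun s hs h =>
    ha s (Finset.mem_filter.mpr ⟨hs, by rw [h, hat]⟩)
  have hu : ∀ y : ℤ, (y, a.2 + 1) ∉ S := fun y h => by
    have := top _ h
    simp only at this
    omega
  have hl : (a.1 - 1, a.2) ∉ S := fun h => by
    have := left _ h rfl
    simp only at this
    omega
  obtain ⟨n, hn, hn'⟩ := hole_run S a haS
  obtain ⟨A1, A2, A3⟩ := hole_ul h1 h3 haS (hu _) hl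
  have hbS : (a.1 + n, a.2) ∈ S := hn n le_rfl
  obtain ⟨B1, -, -⟩ := hole_ur h1 h3 hbS (hu _) hn'
  have hn0 : n ≠ 0 := by
    rintro rfl
    simp only [Nat.cast_zero, add_zero] at hn'
    exact hn' A2
  have hrun : ∀ x : Site, x.2 = a.2 → a.1 ≤ x.1 → x.1 ≤ a.1 + n → x ∈ S := by
    intro x hx2 hx1 hx1'
    have := hn (x.1 - a.1).toNat (by omega)
    have e : x = (a.1 + ((x.1 - a.1).toNat : ℤ), a.2) := by
      refine Prod.ext ?_ hx2
      simp only
      omega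
    rw [e]
    exact this
  have hd : ∃ s ∈ S, s.2 < a.2 := ⟨_, A3, by simp only; omega⟩
  rcases A1 with A1 | A1 <;> rcases B1 with B1 | B1
  · exact ⟨a, (a.1 + n, a.2), _, _, rfl, by simp only; omega, hrun, top, hd, A1, B1,
      Or.inl rfl, Or.inl rfl⟩
  · exact ⟨a, (a.1 + n, a.2), _, _, rfl, by simp only; omega, hrun, top, hd, A1, B1,
      Or.inl rfl, Or.inr rfl⟩
  · exact ⟨a, (a.1 + n, a.2), _, _, rfl, by simp only; omega, hrun, top, hd, A1, B1,
      Or.inr rfl, Or.inl rfl⟩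
  · exact ⟨a, (a.1 + n, a.2), _, _, rfl, by simp only; omega, hrun, top, hd, A1, B1,
      Or.inr rfl, Or.inr rfl⟩

private theorem hole_bot (hS : S.Nonempty) : ∃ a b oa ob : Site, a.2 = b.2 ∧ a.1 < b.1 ∧
    (∀ x : Site, x.2 = a.2 → a.1 ≤ x.1 → x.1 ≤ b.1 → x ∈ S) ∧ (∀ s ∈ S, a.2 ≤ s.2) ∧
    oa ∈ O ∧ ob ∈ O ∧
    (oa = (a.1, a.2 - 1) ∨ oa = (a.1 - 1, a.2)) ∧ (ob = (b.1, b.2 - 1) ∨ ob = (b.1 + 1, b.2)) := by
  obtain ⟨t, htS, ht⟩ := Finset.exists_min_image S (fun s => s.2) hS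
  obtain ⟨a, haT, ha⟩ := Finset.exists_min_image (S.filter (fun s => s.2 = t.2))
    (fun s => s.1) ⟨t, Finset.mem_filter.mpr ⟨htS, rfl⟩⟩
  obtain ⟨haS, hat⟩ := Finset.mem_filter.mp haT
  have bot : ∀ s ∈ S, a.2 ≤ s.2 := fun s hs => by rw [hat]; exact ht s hs
  have left : ∀ s ∈ S, s.2 = a.2 → a.1 ≤ s.1 := fun s hs h =>
    ha s (Finset.mem_filter.mpr ⟨hs, by rw [h, hat]⟩)
  have hu : ∀ y : ℤ, (y, a.2 - 1) ∉ S := fun y h => by
    have := bot _ h
    simp only at this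
    omega
  have hl : (a.1 - 1, a.2) ∉ S := fun h => by
    have := left _ h rfl
    simp only at this
    omega
  obtain ⟨n, hn, hn'⟩ := hole_run S a haS
  obtain ⟨A1, A2, A3⟩ := hole_dl h1 h3 haS (hu _) hl
  have hbS : (a.1 + n, a.2) ∈ S := hn n le_rfl
  obtain ⟨B1, -, -⟩ := hole_dr h1 h3 hbS (hu _) hn'
  have hn0 : n ≠ 0 := by
    rintro rfl
    simp only [Nat.cast_zero, add_zero] at hn'
    exact hn' A2
  have hrun : ∀ x : Site, x.2 = a.2 → a.1 ≤ x.1 → x.1 ≤ a.1 + n → x ∈ S := by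
    intro x hx2 hx1 hx1'
    have := hn (x.1 - a.1).toNat (by omega)
    have e : x = (a.1 + ((x.1 - a.1).toNat : ℤ), a.2) := by
      refine Prod.ext ?_ hx2
      simp only
      omega
    rw [e]
    exact this
  rcases A1 with A1 | A1 <;> rcases B1 with B1 | B1
  · exact ⟨a, (a.1 + n, a.2), _, _, rfl, by simp only; omega, hrun, bot, A1, B1,
      Or.inl rfl, Or.inl rfl⟩
  · exact ⟨a, (a.1 + n, a.2), _, _, rfl, by simp only; omega, hrun, bot, A1, B1,
      Or.inl rfl, Or.inr rfl⟩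
  · exact ⟨a, (a.1 + n, a.2), _, _, rfl, by simp only; omega, hrun, bot, A1, B1,
      Or.inr rfl, Or.inl rfl⟩
  · exact ⟨a, (a.1 + n, a.2), _, _, rfl, by simp only; omega, hrun, bot, A1, B1,
      Or.inr rfl, Or.inr rfl⟩

private theorem hole_left (hS : S.Nonempty) : ∃ a b oa ob : Site, a.1 = b.1 ∧ a.2 < b.2 ∧
    (∀ x : Site, x.1 = a.1 → a.2 ≤ x.2 → x.2 ≤ b.2 → x ∈ S) ∧
    oa ∈ O ∧ ob ∈ O ∧
    (oa = (a.1, a.2 - 1) ∨ oa = (a.1 - 1, a.2)) ∧ (ob = (b.1, b.2 + 1) ∨ ob = (b.1 - 1, b.2)) := by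
  obtain ⟨t, htS, ht⟩ := Finset.exists_min_image S (fun s => s.1) hS
  obtain ⟨a, haT, ha⟩ := Finset.exists_min_image (S.filter (fun s => s.1 = t.1))
    (fun s => s.2) ⟨t, Finset.mem_filter.mpr ⟨htS, rfl⟩⟩
  obtain ⟨haS, hat⟩ := Finset.mem_filter.mp haT
  have left : ∀ s ∈ S, a.1 ≤ s.1 := fun s hs => by rw [hat]; exact ht s hs
  have bot : ∀ s ∈ S, s.1 = a.1 → a.2 ≤ s.2 := fun s hs h =>
    ha s (Finset.mem_filter.mpr ⟨hs, by rw [h, hat]⟩)
  have hl : ∀ y : ℤ, (a.1 - 1, y) ∉ S := fun y h => by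
    have := left _ h
    simp only at this
    omega
  have hd : (a.1, a.2 - 1) ∉ S := fun h => by
    have := bot _ h rfl
    simp only at this
    omega
  obtain ⟨n, hn, hn'⟩ := hole_runv S a haS
  obtain ⟨A1, A2, A3⟩ := hole_dl h1 h3 haS hd (hl _)
  have hbS : (a.1, a.2 + n) ∈ S := hn n le_rfl
  obtain ⟨B1, -, -⟩ := hole_ul h1 h3 hbS hn' (hl _)
  have hn0 : n ≠ 0 := by
    rintro rfl
    simp only [Nat.cast_zero, add_zero] at hn'
    exact hn' A3
  have hrun : ∀ x : Site, x.1 = a.1 → a.2 ≤ x.2 → x.2 ≤ a.2 + n → x ∈ S := by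
    intro x hx2 hx1 hx1'
    have := hn (x.2 - a.2).toNat (by omega)
    have e : x = (a.1, a.2 + ((x.2 - a.2).toNat : ℤ)) := by
      refine Prod.ext hx2 ?_
      simp only
      omega
    rw [e]
    exact this
  rcases A1 with A1 | A1 <;> rcases B1 with B1 | B1
  · exact ⟨a, (a.1, a.2 + n), _, _, rfl, by simp only; omega, hrun, A1, B1,
      Or.inl rfl, Or.inl rfl⟩
  · exact ⟨a, (a.1, a.2 + n), _, _, rfl, by simp only; omega, hrun, A1, B1,
      Or.inl rfl, Or.inr rfl⟩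
  · exact ⟨a, (a.1, a.2 + n), _, _, rfl, by simp only; omega, hrun, A1, B1,
      Or.inr rfl, Or.inl rfl⟩
  · exact ⟨a, (a.1, a.2 + n), _, _, rfl, by simp only; omega, hrun, A1, B1,
      Or.inr rfl, Or.inr rfl⟩

end corners

/-- systems of distinct representatives of sets which are pairwise equal or disjoint -/
private theorem hole_sdr {ι α : Type} [Fintype ι] (t : ι → Finset α)
    (hd : ∀ i j, t i ≠ t j → Disjoint (t i) (t j))
    (hc : ∀ i, ∃ F : Finset ι, (∀ j, t j = t i → j ∈ F) ∧ F.card ≤ (t i).card) :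
    ∃ f : ι → α, Function.Injective f ∧ ∀ x, f x ∈ t x := by
  rw [← Finset.all_card_le_biUnion_card_iff_exists_injective]
  intro s
  have e1 : s.biUnion t = (s.image t).biUnion id := by
    ext x
    simp
  rw [e1, Finset.card_biUnion]
  · rw [Finset.card_eq_sum_card_image t s]
    refine Finset.sum_le_sum ?_
    intro P hP
    obtain ⟨i, hi, rfl⟩ := Finset.mem_image.mp hP
    obtain ⟨F, hF, hF'⟩ := hc i
    refine le_trans (Finset.card_le_card ?_) hF'
    intro j hj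
    rw [Finset.mem_filter] at hj
    exact hF j hj.2
  · intro P hP Q hQ hPQ
    obtain ⟨i, _, rfl⟩ := Finset.mem_image.mp hP
    obtain ⟨j, _, rfl⟩ := Finset.mem_image.mp hQ
    exact hd i j hPQ

/-- any horizontal extent plus any vertical extent of the hull of a part with at most two
elements -/
private theorem hole_hull_sum {P : Finset Site} (hM : Mg P) (hc : P.card ≤ 2)
    {u v u' v' : Site} (hu : u ∈ hull P) (hv : v ∈ hull P) (hu' : u' ∈ hull P)
    (hv' : v' ∈ hull P) : (u.1 - v.1) + (u'.2 - v'.2) ≤ 2 * ((P.card : ℤ) - 1) := by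
  have hpos : 1 ≤ P.card := (partsB_nonempty hM).card_pos
  by_cases h1 : P.card = 1
  · obtain ⟨x, rfl⟩ := Finset.card_eq_one.mp h1
    simp only [hull, Finset.mem_singleton, exists_eq_left, Set.mem_ofPred_eq] at hu hv hu' hv'
    simp only [Finset.card_singleton, Nat.cast_one]
    omega
  · have h2 : P.card = 2 := by omega
    obtain ⟨x, hx, y, hy, hxy, hd⟩ := mg_pair hM (by omega)
    have hP : P = {x, y} := by
      symm
      refine Finset.eq_of_subset_of_card_le ?_ ?_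
      · intro z hz
        rw [Finset.mem_insert, Finset.mem_singleton] at hz
        rcases hz with rfl | rfl
        · exact hx
        · exact hy
      · rw [Finset.card_pair hxy, h2]
    rw [h2]
    subst hP
    simp only [hull, Finset.mem_insert, Finset.mem_singleton, exists_eq_or_imp, exists_eq_left,
      Set.mem_ofPred_eq] at hu hv hu' hv'
    obtain ⟨-, hu2, -, -⟩ := hu
    obtain ⟨hv1, -, -, -⟩ := hv
    obtain ⟨-, -, -, hu4⟩ := hu'
    obtain ⟨-, -, hv3, -⟩ := hv'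
    have e1 : u.1 - v.1 ≤ |x.1 - y.1| := by
      have := le_abs_self (x.1 - y.1)
      have := neg_abs_le (x.1 - y.1)
      have := abs_nonneg (x.1 - y.1)
      omega
    have e2 : u'.2 - v'.2 ≤ |x.2 - y.2| := by
      have := le_abs_self (x.2 - y.2)
      have := neg_abs_le (x.2 - y.2)
      have := abs_nonneg (x.2 - y.2)
      omega
    push_cast
    linarith

private theorem hole_count (P Q1 Q2 Q3 : Finset Site) (h0 : 1 ≤ P.card)
    (e1 : Q1 = P → 2 ≤ P.card) (e2 : Q2 = P → 2 ≤ P.card) (e3 : Q3 = P → 2 ≤ P.card)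
    (t1 : Q1 = P → Q2 = P → False) (t2 : Q1 = P → Q3 = P → False)
    (t3 : Q2 = P → Q3 = P → False) :
    1 + holeInd (Q1 = P) + holeInd (Q2 = P) + holeInd (Q3 = P) ≤ P.card := by
  by_cases a : Q1 = P
  · rw [holeInd_pos a, holeInd_neg (t1 a), holeInd_neg (t2 a)]
    exact e1 a
  · rw [holeInd_neg a]
    by_cases b : Q2 = P
    · rw [holeInd_pos b, holeInd_neg (t3 b)]
      exact e2 b
    · rw [holeInd_neg b]
      by_cases c : Q3 = P
      · rw [holeInd_pos c]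
        exact e3 c
      · rw [holeInd_neg c]
        exact h0

/-- four parts: no part is used more often than its cardinality -/
private theorem hole_four (P1 P2 P3 P4 : Finset Site)
    (g1 : 0 < P1.card) (g2 : 0 < P2.card) (g3 : 0 < P3.card) (g4 : 0 < P4.card)
    (e12 : P2 = P1 → 2 ≤ P1.card) (e13 : P3 = P1 → 2 ≤ P1.card) (e14 : P4 = P1 → 2 ≤ P1.card)
    (e23 : P3 = P2 → 2 ≤ P2.card) (e24 : P4 = P2 → 2 ≤ P2.card) (e34 : P4 = P3 → 2 ≤ P3.card)
    (t123 : P2 = P1 → P3 = P1 → False) (t124 : P2 = P1 → P4 = P1 → False)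
    (t134 : P3 = P1 → P4 = P1 → False) (t234 : P3 = P2 → P4 = P2 → False) (i : Fin 4) :
    (Finset.univ.filter (fun j => (![P1, P2, P3, P4] : Fin 4 → Finset Site) j
      = (![P1, P2, P3, P4] : Fin 4 → Finset Site) i)).card
      ≤ ((![P1, P2, P3, P4] : Fin 4 → Finset Site) i).card := by
  rw [Finset.card_filter, Fin.sum_univ_four]
  simp only [holeInd_eq]
  fin_cases i
  · have := hole_count P1 P2 P3 P4 g1 e12 e13 e14 t123 t124 t134
    show holeInd (P1 = P1) + holeInd (P2 = P1) + holeInd (P3 = P1) + holeInd (P4 = P1) ≤ P1.card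
    rw [holeInd_pos rfl]
    exact this
  · have := hole_count P2 P1 P3 P4 g2 (fun h => h ▸ e12 h.symm) e23 e24
      (fun h h' => t123 h.symm (h'.trans h.symm)) (fun h h' => t124 h.symm (h'.trans h.symm))
      t234
    show holeInd (P1 = P2) + holeInd (P2 = P2) + holeInd (P3 = P2) + holeInd (P4 = P2) ≤ P2.card
    rw [holeInd_pos (rfl : P2 = P2)]
    omega
  · have := hole_count P3 P1 P2 P4 g3 (fun h => h ▸ e13 h.symm) (fun h => h ▸ e23 h.symm) e34
      (fun h h' => t123 (h'.trans h.symm) h.symm) (fun h h' => t134 h.symm (h'.trans h.symm))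
      (fun h h' => t234 h.symm (h'.trans h.symm))
    show holeInd (P1 = P3) + holeInd (P2 = P3) + holeInd (P3 = P3) + holeInd (P4 = P3) ≤ P3.card
    rw [holeInd_pos (rfl : P3 = P3)]
    omega
  · have := hole_count P4 P1 P2 P3 g4 (fun h => h ▸ e14 h.symm) (fun h => h ▸ e24 h.symm)
      (fun h => h ▸ e34 h.symm)
      (fun h h' => t124 (h'.trans h.symm) h.symm) (fun h h' => t134 (h'.trans h.symm) h.symm)
      (fun h h' => t234 (h'.trans h.symm) h.symm)
    show holeInd (P1 = P4) + holeInd (P2 = P4) + holeInd (P3 = P4) + holeInd (P4 = P4) ≤ P4.card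
    rw [holeInd_pos (rfl : P4 = P4)]
    omega

theorem hole_wit (ω : Config) (R : Set Site) (A : Finset Site) (Pt : Finset (Finset Site))
    (hP : IsParts Pt A) (S : Finset Site) (hS : S.Nonempty)
    (h0 : ∀ s ∈ S, ω s = 0 ∧ s ∈ R ∧ s ∉ obst Pt)
    (h3 : ∀ s ∈ S, 3 ≤ cnt ({x | x ∈ S} ∪ obst Pt) s)
    (hsmall : ∀ P ∈ Pt, (∃ z ∈ hull P, ∃ s ∈ S, adj s z) →
      P.card ≤ 2 ∧ ∀ x ∈ P, ω x = 2 ∧ x ∈ R) :
    HoleWit ω R := by
  have h1 : ∀ s ∈ S, cnt (obst Pt) s ≤ 1 := fun s hs => obst_cnt hP (h0 s hs).2.2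
  obtain ⟨a, b, oa, ob, ha1, ha2, ha3, ha4, ⟨s0, hs0, hs0'⟩, ha6, ha7, ha8, ha9⟩ :=
    hole_top h1 h3 hS
  obtain ⟨a', b', oa', ob', hb1, hb2, hb3, hb4, hb6, hb7, hb8, hb9⟩ := hole_bot h1 h3 hS
  obtain ⟨c, c', oc, oc', hc1, hc2, hc3, hc6, hc7, hc8, hc9⟩ := hole_left h1 h3 hS
  have hlow : a'.2 < a.2 := lt_of_le_of_lt (hb4 s0 hs0) hs0'
  -- the parts
  have key : ∀ (s o : Site), s ∈ S → o ∈ obst Pt → adj s o → ∃ P ∈ Pt, o ∈ hull P ∧ Mg P ∧
      P.card ≤ 2 ∧ ∀ x ∈ P, NearTwo ω R s x := by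
    intro s o hs ho hso
    obtain ⟨P, hPt, hoP⟩ := ho
    obtain ⟨hc, hx⟩ := hsmall P hPt ⟨o, hoP, s, hs, hso⟩
    have hM := hP.1 P hPt
    have hpos : 1 ≤ P.card := (partsB_nonempty hM).card_pos
    refine ⟨P, hPt, hoP, hM, hc, ?_⟩
    intro x hxP
    obtain ⟨k1, k2⟩ := partsB_hull_close (mg_span hM) hxP hoP
    have k3 : 2 * ((P.card : ℤ) - 1) ≤ 2 := by omega
    have k4 := abs_le.mp (k1.trans k3)
    have k5 := abs_le.mp (k2.trans k3)
    refine ⟨(hx x hxP).1, (hx x hxP).2, ?_, ?_⟩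
    · unfold adj nb at hso
      simp only [Finset.mem_insert, Finset.mem_singleton] at hso
      rw [abs_le]
      rcases hso with h | h | h | h <;> rw [h] at k4 k5 <;> simp only at k4 k5 <;> omega
    · unfold adj nb at hso
      simp only [Finset.mem_insert, Finset.mem_singleton] at hso
      rw [abs_le]
      rcases hso with h | h | h | h <;> rw [h] at k4 k5 <;> simp only at k4 k5 <;> omega
  have adjm : ∀ s o : Site, (o = (s.1 + 1, s.2) ∨ o = (s.1 - 1, s.2) ∨ o = (s.1, s.2 + 1) ∨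
      o = (s.1, s.2 - 1)) → adj s o := by
    intro s o h
    unfold adj nb
    simp only [Finset.mem_insert, Finset.mem_singleton]
    exact h
  have aS : a ∈ S := ha3 a rfl le_rfl ha2.le
  have bS : b ∈ S := ha3 b ha1.symm ha2.le le_rfl
  have a'S : a' ∈ S := hb3 a' rfl le_rfl hb2.le
  have b'S : b' ∈ S := hb3 b' hb1.symm hb2.le le_rfl
  have cS : c ∈ S := hc3 c rfl le_rfl hc2.le
  have c'S : c' ∈ S := hc3 c' hc1.symm hc2.le le_rfl
  obtain ⟨P1, p1, q1, m1, n1, r1⟩ := key a oa aS ha6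
    (adjm _ _ (ha8.elim (fun h => Or.inr (Or.inr (Or.inl h))) (fun h => Or.inr (Or.inl h))))
  obtain ⟨P2, p2, q2, m2, n2, r2⟩ := key b ob bS ha7
    (adjm _ _ (ha9.elim (fun h => Or.inr (Or.inr (Or.inl h))) (fun h => Or.inl h)))
  obtain ⟨P3, p3, q3, m3, n3, r3⟩ := key a' oa' a'S hb6
    (adjm _ _ (hb8.elim (fun h => Or.inr (Or.inr (Or.inr h))) (fun h => Or.inr (Or.inl h))))
  obtain ⟨P4, p4, q4, m4, n4, r4⟩ := key b' ob' b'S hb7
    (adjm _ _ (hb9.elim (fun h => Or.inr (Or.inr (Or.inr h))) (fun h => Or.inl h)))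
  obtain ⟨P5, p5, q5, m5, n5, r5⟩ := key c oc cS hc6
    (adjm _ _ (hc8.elim (fun h => Or.inr (Or.inr (Or.inr h))) (fun h => Or.inr (Or.inl h))))
  obtain ⟨P6, p6, q6, m6, n6, r6⟩ := key c' oc' c'S hc7
    (adjm _ _ (hc9.elim (fun h => Or.inr (Or.inr (Or.inl h))) (fun h => Or.inr (Or.inl h))))
  have disj : ∀ P ∈ Pt, ∀ Q ∈ Pt, P ≠ Q → Disjoint P Q := fun P hP' Q hQ h =>
    (hP.2.1 P hP' Q hQ h).1
  -- positions
  have oaF : (oa.1 = a.1 ∧ oa.2 = a.2 + 1) ∨ (oa.1 = a.1 - 1 ∧ oa.2 = a.2) := by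
    rcases ha8 with h | h
    · left; rw [h]; exact ⟨rfl, rfl⟩
    · right; rw [h]; exact ⟨rfl, rfl⟩
  have obF : (ob.1 = b.1 ∧ ob.2 = a.2 + 1) ∨ (ob.1 = b.1 + 1 ∧ ob.2 = a.2) := by
    rw [ha1]
    rcases ha9 with h | h
    · left; rw [h]; exact ⟨rfl, rfl⟩
    · right; rw [h]; exact ⟨rfl, rfl⟩
  have oaF' : (oa'.1 = a'.1 ∧ oa'.2 = a'.2 - 1) ∨ (oa'.1 = a'.1 - 1 ∧ oa'.2 = a'.2) := by
    rcases hb8 with h | h
    · left; rw [h]; exact ⟨rfl, rfl⟩
    · right; rw [h]; exact ⟨rfl, rfl⟩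
  have obF' : (ob'.1 = b'.1 ∧ ob'.2 = a'.2 - 1) ∨ (ob'.1 = b'.1 + 1 ∧ ob'.2 = a'.2) := by
    rw [hb1]
    rcases hb9 with h | h
    · left; rw [h]; exact ⟨rfl, rfl⟩
    · right; rw [h]; exact ⟨rfl, rfl⟩
  have ocF : (oc.2 = c.2 - 1) ∨ (oc.2 = c.2) := by
    rcases hc8 with h | h
    · left; rw [h]
    · right; rw [h]
  have ocF' : (oc'.2 = c'.2 + 1) ∨ (oc'.2 = c'.2) := by
    rcases hc9 with h | h
    · left; rw [h]
    · right; rw [h]
  -- four different representatives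
  obtain ⟨f, fi, fm⟩ : ∃ f : Fin 4 → Site, Function.Injective f ∧
      ∀ i, f i ∈ (![P1, P2, P3, P4] : Fin 4 → Finset Site) i := by
    refine hole_sdr _ ?_ ?_
    · intro i j hij
      fin_cases i <;> fin_cases j <;>
        first
        | exact absurd rfl hij
        | exact disj _ (by assumption) _ (by assumption) hij
    · have g1 := (partsB_nonempty m1).card_pos
      have g2 := (partsB_nonempty m2).card_pos
      have g3 := (partsB_nonempty m3).card_pos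
      have g4 := (partsB_nonempty m4).card_pos
      have e12 : P2 = P1 → 2 ≤ P1.card := by
        rintro rfl
        have := hole_hull_sum m1 n1 q2 q1 q1 q1
        omega
      have e13 : P3 = P1 → 2 ≤ P1.card := by
        rintro rfl
        have := hole_hull_sum m1 n1 q1 q1 q1 q3
        omega
      have e14 : P4 = P1 → 2 ≤ P1.card := by
        rintro rfl
        have := hole_hull_sum m1 n1 q1 q1 q1 q4
        omega
      have e23 : P3 = P2 → 2 ≤ P2.card := by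
        rintro rfl
        have := hole_hull_sum m2 n2 q2 q2 q2 q3
        omega
      have e24 : P4 = P2 → 2 ≤ P2.card := by
        rintro rfl
        have := hole_hull_sum m2 n2 q2 q2 q2 q4
        omega
      have e34 : P4 = P3 → 2 ≤ P3.card := by
        rintro rfl
        have := hole_hull_sum m3 n3 q4 q3 q3 q3
        omega
      have t123 : P2 = P1 → P3 = P1 → False := by
        rintro rfl rfl
        have := hole_hull_sum m1 n1 q2 q1 q1 q3
        have := hole_hull_sum m1 n1 q2 q1 q2 q3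
        omega
      have t124 : P2 = P1 → P4 = P1 → False := by
        rintro rfl rfl
        have := hole_hull_sum m1 n1 q2 q1 q1 q4
        have := hole_hull_sum m1 n1 q2 q1 q2 q4
        omega
      have t134 : P3 = P1 → P4 = P1 → False := by
        rintro rfl rfl
        have := hole_hull_sum m1 n1 q4 q3 q1 q3
        have := hole_hull_sum m1 n1 q4 q3 q1 q4
        omega
      have t234 : P3 = P2 → P4 = P2 → False := by
        rintro rfl rfl
        have := hole_hull_sum m2 n2 q4 q3 q2 q3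
        have := hole_hull_sum m2 n2 q4 q3 q2 q4
        omega
      intro i
      exact ⟨_, fun j hj => Finset.mem_filter.mpr ⟨Finset.mem_univ j, hj⟩,
        hole_four P1 P2 P3 P4 g1 g2 g3 g4 e12 e13 e14 e23 e24 e34 t123 t124 t134 t234 i⟩
  -- two different representatives
  obtain ⟨zc, zc', hzc, hzc', hzcc⟩ : ∃ zc zc' : Site, zc ∈ P5 ∧ zc' ∈ P6 ∧ zc ≠ zc' := by
    by_cases h56 : P5 = P6
    · subst h56
      have e := hole_hull_sum m5 n5 q5 q5 q6 q5
      have : 1 < P5.card := by omega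
      obtain ⟨x, hx, y, hy, hxy⟩ := Finset.one_lt_card.mp this
      exact ⟨x, y, hx, hy, hxy⟩
    · obtain ⟨x, hx⟩ := partsB_nonempty m5
      obtain ⟨y, hy⟩ := partsB_nonempty m6
      refine ⟨x, y, hx, hy, ?_⟩
      rintro rfl
      exact (Finset.disjoint_left.mp (disj _ p5 _ p6 h56) hx) hy
  have f0 : f 0 ∈ P1 := fm 0
  have f1 : f 1 ∈ P2 := fm 1
  have f2 : f 2 ∈ P3 := fm 2
  have f3 : f 3 ∈ P4 := fm 3
  refine ⟨a, b, a', b', c, c', f 0, f 1, f 2, f 3, zc, zc', ?_, ?_, ?_, hlow.ne', r1 _ f0,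
    r2 _ f1, r3 _ f2, r4 _ f3, r5 _ hzc, r6 _ hzc', ?_, ?_, ?_, ?_, ?_, ?_, hzcc⟩
  · exact ⟨ha1, ha2, fun x hx1 hx2 hx3 => ⟨(h0 x (ha3 x hx1 hx2 hx3)).1,
      (h0 x (ha3 x hx1 hx2 hx3)).2.1⟩⟩
  · exact ⟨hb1, hb2, fun x hx1 hx2 hx3 => ⟨(h0 x (hb3 x hx1 hx2 hx3)).1,
      (h0 x (hb3 x hx1 hx2 hx3)).2.1⟩⟩
  · exact ⟨hc1, hc2, fun x hx1 hx2 hx3 => ⟨(h0 x (hc3 x hx1 hx2 hx3)).1,
      (h0 x (hc3 x hx1 hx2 hx3)).2.1⟩⟩
  all_goals exact fun h => absurd (fi h) (by decide)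

end TSB
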