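import Pool.Agent.TSB.Defs
import Pool.Agent.TSB.Dyn
import Pool.Agent.TSB.PartsA
import Pool.Agent.TSB.PartsB
import Pool.Agent.TSB.Giant
import Pool.Agent.TSB.Hole

open MeasureTheory
open scoped Classical

namespace TSB

private theorem dfill_cnt2 {S : Set Site} {x y z : Site} (hy : adj x y) (hz : adj x z)
    (hyz : y ≠ z) (hyS : y ∈ S) (hzS : z ∈ S) : 2 ≤ cnt S x := by
  unfold cnt
  have h : ({y, z} : Finset Site) ⊆ (nb x).filter (fun y => y ∈ S) := by
    intro a ha
    simp only [Finset.mem_insert, Finset.mem_singleton] at ha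
    rw [Finset.mem_filter]
    rcases ha with rfl | rfl
    · exact ⟨hy, hyS⟩
    · exact ⟨hz, hzS⟩
  calc 2 = ({y, z} : Finset Site).card := (Finset.card_pair hyz).symm
    _ ≤ _ := Finset.card_le_card h

private theorem dfill_small (w d mw : ℕ) (ω' : Config) (b : Site)
    (hgood : ¬ DBad w d mw ω' b) (P : Finset Site) (hPm : Mg P)
    (hl : ∀ x ∈ P, ω' x = 2 ∧ x ∈ win (d * w) 2 b) : P.card ≤ 2 := by
  by_contra hc
  push Not at hc
  obtain ⟨B, hBP, hB, h3, h4⟩ := mg_card_inter hPm hc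
  obtain ⟨x, y, z, hx, hy, hz, hxy, hxz, hyz⟩ := Finset.two_lt_card_iff.mp h3
  have sp := mg_span hB
  have h4' : (B.card : ℤ) ≤ 4 := by exact_mod_cast h4
  apply hgood
  left
  refine ⟨x, (hl x (hBP hx)).2, y, (hl y (hBP hy)).2, z, (hl z (hBP hz)).2, (hl x (hBP hx)).1,
    (hl y (hBP hy)).1, (hl z (hBP hz)).1, hxy, hxz, hyz, ?_, ?_⟩
  · have := sp y hy x hx
    constructor <;> linarith [this.1, this.2]
  · have := sp z hz x hx
    constructor <;> linarith [this.1, this.2]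

private theorem dfill_1d (w d : ℕ) (B1 B2 c x : ℤ) (h1 : B1 * d ≤ c) (h2 : c < B2 * d)
    (h3 : c * w ≤ x) (h4 : x < (c + 1) * w) :
    B1 * ((d * w : ℕ) : ℤ) ≤ x ∧ x < B2 * ((d * w : ℕ) : ℤ) := by
  have hw : (0 : ℤ) ≤ w := by positivity
  push_cast
  constructor
  · have := mul_le_mul_of_nonneg_right h1 hw
    linarith [mul_assoc B1 (d : ℤ) (w : ℤ)]
  · have h2' : c + 1 ≤ B2 * d := h2
    have := mul_le_mul_of_nonneg_right h2' hw
    linarith [mul_assoc B2 (d : ℤ) (w : ℤ)]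

private theorem dfill_box_win (w d a : ℕ) (b c : Site) (hc : c ∈ win d a b) :
    box w c ⊆ win (d * w) a b := by
  intro x hx
  obtain ⟨h1, h2, h3, h4⟩ := hc
  obtain ⟨g1, g2, g3, g4⟩ := hx
  have e1 := dfill_1d w d _ _ _ _ h1 h2 g1 g2
  have e2 := dfill_1d w d _ _ _ _ h3 h4 g3 g4
  exact ⟨e1.1, e1.2, e2.1, e2.2⟩

private theorem dfill_win_mono (n : ℕ) {a a' : ℕ} (h : a ≤ a') (c : Site) :
    win n a c ⊆ win n a' c := by
  intro x hx
  obtain ⟨h1, h2, h3, h4⟩ := hx
  have hn : (0 : ℤ) ≤ n := by positivity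
  have ha : (a : ℤ) ≤ a' := by exact_mod_cast h
  refine ⟨?_, ?_, ?_, ?_⟩ <;> nlinarith

private theorem dfill_clean (w d mw : ℕ) (ω' : Config) (b : Site)
    (hgood : ¬ DBad w d mw ω' b) (A : Finset Site) (Pt : Finset (Finset Site))
    (hP : IsParts Pt A)
    (hloc : ∀ P ∈ Pt, (∃ z ∈ hull P, z ∈ win (d * w) 1 b) →
      ∀ x ∈ P, ω' x = 2 ∧ x ∈ win (d * w) 2 b)
    (c : Site) (hc : c ∈ win d 1 b) (hcb : ¬ wbad w ω' c) : ∀ x ∈ box w c, x ∉ obst Pt := by
  rintro x hx ⟨P, hPt, hxP⟩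
  have hxw : x ∈ win (d * w) 1 b := dfill_box_win w d 1 b c hc hx
  have hl := hloc P hPt ⟨x, hxP, hxw⟩
  have hcard := dfill_small w d mw ω' b hgood P (hP.1 P hPt) hl
  have hcard' : (P.card : ℤ) ≤ 2 := by exact_mod_cast hcard
  have sp := mg_span (hP.1 P hPt)
  obtain ⟨⟨a, ha, ha1⟩, ⟨a', ha', ha1'⟩, ⟨e, he, he1⟩, ⟨e', he', he1'⟩⟩ := hxP
  obtain ⟨g1, g2, g3, g4⟩ := hx
  have s1 := abs_le.mp (sp a' ha' a ha).1
  have s2 := abs_le.mp (sp a ha e he).2
  have s3 := abs_le.mp (sp a ha e' he').2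
  apply hcb
  refine ⟨a, (hl a ha).1, ?_, ?_, ?_, ?_⟩ <;> linarith [s1.1, s1.2, s2.1, s2.2, s3.1, s3.2]

private theorem dfill_line (J : Set Site) (w : ℕ) (f g : ℕ → Site)
    (a1 : ∀ i, adj (f i) (f (i + 1))) (a2 : ∀ i, adj (f (i + 1)) (f i))
    (a3 : ∀ i, adj (f i) (g i)) (n1 : ∀ i, g i ≠ f (i + 1)) (n2 : ∀ i, g (i + 1) ≠ f i)
    (hg : ∀ i < w, g i ∈ J) (hcl : ∀ i < w, 2 ≤ cnt J (f i) → f i ∈ J)
    (h0 : ∃ i < w, f i ∈ J) : ∀ i < w, f i ∈ J := by
  obtain ⟨i0, hi0, hJ⟩ := h0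
  have up : ∀ n, i0 + n < w → f (i0 + n) ∈ J := by
    intro n
    induction n with
    | zero => intro _; exact hJ
    | succ n ih =>
      intro hn
      have h := ih (by omega)
      apply hcl (i0 + (n + 1)) hn
      exact dfill_cnt2 (a2 (i0 + n)) (a3 (i0 + (n + 1))) (n2 (i0 + n)).symm h (hg _ hn)
  have down : ∀ n, n ≤ i0 → f (i0 - n) ∈ J := by
    intro n
    induction n with
    | zero => intro _; exact hJ
    | succ n ih =>
      intro hn
      have h := ih (by omega)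
      have e : i0 - n = (i0 - (n + 1)) + 1 := by omega
      rw [e] at h
      apply hcl (i0 - (n + 1)) (by omega)
      exact dfill_cnt2 (a1 (i0 - (n + 1))) (a3 (i0 - (n + 1))) (n1 (i0 - (n + 1))).symm h
        (hg _ (by omega))
  intro i hi
  rcases le_total i0 i with h | h
  · have := up (i - i0) (by omega)
    rwa [Nat.add_sub_cancel' h] at this
  · have := down (i0 - i) (by omega)
    rwa [Nat.sub_sub_self h] at this

private theorem dfill_lines (J : Set Site) (w : ℕ) (P : ℕ → ℕ → Site)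
    (a1 : ∀ k i, adj (P k i) (P k (i + 1))) (a2 : ∀ k i, adj (P k (i + 1)) (P k i))
    (a3 : ∀ k i, adj (P (k + 1) i) (P k i))
    (n1 : ∀ k i, P k i ≠ P (k + 1) (i + 1)) (n2 : ∀ k i, P k (i + 1) ≠ P (k + 1) i)
    (h0 : ∀ i < w, P 0 i ∈ J)
    (hcl : ∀ k i, 1 ≤ k → k ≤ w → i < w → 2 ≤ cnt J (P k i) → P k i ∈ J)
    (hone : ∀ k, 1 ≤ k → k ≤ w → ∃ i < w, P k i ∈ J) : ∀ k ≤ w, ∀ i < w, P k i ∈ J := by
  intro k
  induction k with
  | zero => intro _; exact h0
  | succ k ih =>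
    intro hk
    have h := ih (by omega)
    exact dfill_line J w (P (k + 1)) (P k) (a1 _) (a2 _) (a3 k) (n1 k) (n2 k) h
      (fun i hi => hcl (k + 1) i (by omega) hk hi) (hone (k + 1) (by omega) hk)

private theorem dfill_step (w : ℕ) (ω' : Config) (J : Set Site) (c c' : Site)
    (hadj : adj c c') (hbox : box w c ⊆ J)
    (hcl : ∀ x ∈ box w c', 2 ≤ cnt J x → x ∈ J)
    (hone : ∀ x ∈ box w c', ω' x = 1 → x ∈ J)
    (hrow : ∀ x : Site, (∀ i : ℕ, i < w → (x.1 + i, x.2) ∈ box w c') →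
      ∃ i : ℕ, i < w ∧ ω' (x.1 + i, x.2) = 1)
    (hcol : ∀ x : Site, (∀ i : ℕ, i < w → (x.1, x.2 + i) ∈ box w c') →
      ∃ i : ℕ, i < w ∧ ω' (x.1, x.2 + i) = 1) : box w c' ⊆ J := by
  have hk : c' = (c.1 + 1, c.2) ∨ c' = (c.1 - 1, c.2) ∨ c' = (c.1, c.2 + 1) ∨
      c' = (c.1, c.2 - 1) := by
    unfold adj nb at hadj
    simpa using hadj
  intro x hx
  obtain ⟨g1, g2, g3, g4⟩ := hx
  rcases hk with h | h | h | h
  · -- to the right
    have key := dfill_lines J w (fun k i => (c'.1 * w - 1 + k, c'.2 * w + i))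
      (by intro k i; unfold adj nb; simp; omega) (by intro k i; unfold adj nb; simp; omega)
      (by intro k i; unfold adj nb; simp; omega)
      (by intro k i; simp) (by intro k i; simp)
      (by
        intro i hi
        apply hbox
        subst h
        refine ⟨?_, ?_, ?_, ?_⟩ <;> simp only [] <;> push_cast <;> nlinarith)
      (by
        intro k i k1 k2 hi hc
        apply hcl _ _ hc
        refine ⟨?_, ?_, ?_, ?_⟩ <;> simp only [] <;> nlinarith)
      (by
        intro k k1 k2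
        have hb : ∀ i : ℕ, i < w → ((c'.1 * w - 1 + k, c'.2 * w + i) : Site) ∈ box w c' := by
          intro i hi
          refine ⟨?_, ?_, ?_, ?_⟩ <;> simp only [] <;> nlinarith
        obtain ⟨i, hi, ho⟩ := hcol (c'.1 * w - 1 + k, c'.2 * w) hb
        exact ⟨i, hi, hone _ (hb i hi) ho⟩)
    have e := key (x.1 - (c'.1 * w - 1)).toNat (by
        have : (c'.1 + 1) * (w : ℤ) = c'.1 * w + w := by ring
        omega) (x.2 - c'.2 * w).toNat (by
        have : (c'.2 + 1) * (w : ℤ) = c'.2 * w + w := by ring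
        omega)
    have e1 : ((c'.1 * w - 1 + ((x.1 - (c'.1 * w - 1)).toNat : ℤ),
        c'.2 * w + ((x.2 - c'.2 * w).toNat : ℤ)) : Site) = x := by
      apply Prod.ext <;> simp only [] <;> omega
    simp only [e1] at e
    exact e
  · -- to the left
    have key := dfill_lines J w (fun k i => ((c'.1 + 1) * w - k, c'.2 * w + i))
      (by intro k i; unfold adj nb; simp; omega) (by intro k i; unfold adj nb; simp; omega)
      (by intro k i; unfold adj nb; simp; omega)
      (by intro k i; simp) (by intro k i; simp)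
      (by
        intro i hi
        apply hbox
        subst h
        refine ⟨?_, ?_, ?_, ?_⟩ <;> simp only [] <;> push_cast <;> nlinarith)
      (by
        intro k i k1 k2 hi hc
        apply hcl _ _ hc
        refine ⟨?_, ?_, ?_, ?_⟩ <;> simp only [] <;> nlinarith)
      (by
        intro k k1 k2
        have hb : ∀ i : ℕ, i < w → (((c'.1 + 1) * w - k, c'.2 * w + i) : Site) ∈ box w c' := by
          intro i hi
          refine ⟨?_, ?_, ?_, ?_⟩ <;> simp only [] <;> nlinarith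
        obtain ⟨i, hi, ho⟩ := hcol ((c'.1 + 1) * w - k, c'.2 * w) hb
        exact ⟨i, hi, hone _ (hb i hi) ho⟩)
    have e := key ((c'.1 + 1) * w - x.1).toNat (by
        have : (c'.1 + 1) * (w : ℤ) = c'.1 * w + w := by ring
        omega) (x.2 - c'.2 * w).toNat (by
        have : (c'.2 + 1) * (w : ℤ) = c'.2 * w + w := by ring
        omega)
    have e1 : (((c'.1 + 1) * w - (((c'.1 + 1) * w - x.1).toNat : ℤ),
        c'.2 * w + ((x.2 - c'.2 * w).toNat : ℤ)) : Site) = x := by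
      apply Prod.ext <;> simp only [] <;> omega
    simp only [e1] at e
    exact e
  · -- up
    have key := dfill_lines J w (fun k i => (c'.1 * w + i, c'.2 * w - 1 + k))
      (by intro k i; unfold adj nb; simp; omega) (by intro k i; unfold adj nb; simp; omega)
      (by intro k i; unfold adj nb; simp; omega)
      (by intro k i; simp) (by intro k i; simp)
      (by
        intro i hi
        apply hbox
        subst h
        refine ⟨?_, ?_, ?_, ?_⟩ <;> simp only [] <;> push_cast <;> nlinarith)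
      (by
        intro k i k1 k2 hi hc
        apply hcl _ _ hc
        refine ⟨?_, ?_, ?_, ?_⟩ <;> simp only [] <;> nlinarith)
      (by
        intro k k1 k2
        have hb : ∀ i : ℕ, i < w → ((c'.1 * w + i, c'.2 * w - 1 + k) : Site) ∈ box w c' := by
          intro i hi
          refine ⟨?_, ?_, ?_, ?_⟩ <;> simp only [] <;> nlinarith
        obtain ⟨i, hi, ho⟩ := hrow (c'.1 * w, c'.2 * w - 1 + k) hb
        exact ⟨i, hi, hone _ (hb i hi) ho⟩)
    have e := key (x.2 - (c'.2 * w - 1)).toNat (by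
        have : (c'.2 + 1) * (w : ℤ) = c'.2 * w + w := by ring
        omega) (x.1 - c'.1 * w).toNat (by
        have : (c'.1 + 1) * (w : ℤ) = c'.1 * w + w := by ring
        omega)
    have e1 : ((c'.1 * w + ((x.1 - c'.1 * w).toNat : ℤ),
        c'.2 * w - 1 + ((x.2 - (c'.2 * w - 1)).toNat : ℤ)) : Site) = x := by
      apply Prod.ext <;> simp only [] <;> omega
    simp only [e1] at e
    exact e
  · -- down
    have key := dfill_lines J w (fun k i => (c'.1 * w + i, (c'.2 + 1) * w - k))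
      (by intro k i; unfold adj nb; simp; omega) (by intro k i; unfold adj nb; simp; omega)
      (by intro k i; unfold adj nb; simp; omega)
      (by intro k i; simp) (by intro k i; simp)
      (by
        intro i hi
        apply hbox
        subst h
        refine ⟨?_, ?_, ?_, ?_⟩ <;> simp only [] <;> push_cast <;> nlinarith)
      (by
        intro k i k1 k2 hi hc
        apply hcl _ _ hc
        refine ⟨?_, ?_, ?_, ?_⟩ <;> simp only [] <;> nlinarith)
      (by
        intro k k1 k2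
        have hb : ∀ i : ℕ, i < w → ((c'.1 * w + i, (c'.2 + 1) * w - k) : Site) ∈ box w c' := by
          intro i hi
          refine ⟨?_, ?_, ?_, ?_⟩ <;> simp only [] <;> nlinarith
        obtain ⟨i, hi, ho⟩ := hrow (c'.1 * w, (c'.2 + 1) * w - k) hb
        exact ⟨i, hi, hone _ (hb i hi) ho⟩)
    have e := key ((c'.2 + 1) * w - x.2).toNat (by
        have : (c'.2 + 1) * (w : ℤ) = c'.2 * w + w := by ring
        omega) (x.1 - c'.1 * w).toNat (by
        have : (c'.1 + 1) * (w : ℤ) = c'.1 * w + w := by ring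
        omega)
    have e1 : ((c'.1 * w + ((x.1 - c'.1 * w).toNat : ℤ),
        (c'.2 + 1) * w - (((c'.2 + 1) * w - x.2).toNat : ℤ)) : Site) = x := by
      apply Prod.ext <;> simp only [] <;> omega
    simp only [e1] at e
    exact e

private theorem dfill_idx1 (w : ℕ) (hw : 0 < w) (a : ℤ) :
    (a + 1) / (w : ℤ) = a / w ∨ (a + 1) / (w : ℤ) = a / w + 1 := by
  have hw' : (0 : ℤ) < w := by exact_mod_cast hw
  have h1 : a / w ≤ (a + 1) / (w : ℤ) := Int.ediv_le_ediv hw' (by omega)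
  have h2 : (a + 1) / (w : ℤ) < a / w + 2 := by
    rw [Int.ediv_lt_iff_lt_mul hw']
    have := Int.lt_ediv_add_one_mul_self a hw'
    nlinarith
  omega

private theorem dfill_idx_adj (w : ℕ) (hw : 0 < w) {x y : Site} (h : adj x y) :
    ((x.1 / (w : ℤ), x.2 / (w : ℤ)) : Site) = (y.1 / (w : ℤ), y.2 / (w : ℤ)) ∨
      adj ((x.1 / (w : ℤ), x.2 / (w : ℤ)) : Site) (y.1 / (w : ℤ), y.2 / (w : ℤ)) := by
  have hk : y = (x.1 + 1, x.2) ∨ y = (x.1 - 1, x.2) ∨ y = (x.1, x.2 + 1) ∨
      y = (x.1, x.2 - 1) := by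
    unfold adj nb at h
    simpa using h
  rcases hk with h | h | h | h <;> subst h <;> simp only []
  · rcases dfill_idx1 w hw x.1 with e | e
    · left; rw [e]
    · right; unfold adj nb; simp [e]
  · have e' := dfill_idx1 w hw (x.1 - 1)
    rw [sub_add_cancel] at e'
    rcases e' with e | e
    · left; rw [e]
    · right; unfold adj nb; simp [e]
  · rcases dfill_idx1 w hw x.2 with e | e
    · left; rw [e]
    · right; unfold adj nb; simp [e]
  · have e' := dfill_idx1 w hw (x.2 - 1)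
    rw [sub_add_cancel] at e'
    rcases e' with e | e
    · left; rw [e]
    · right; unfold adj nb; simp [e]

private theorem dfill_mem_box (w : ℕ) (hw : 0 < w) (x : Site) :
    x ∈ box w (x.1 / (w : ℤ), x.2 / (w : ℤ)) := by
  have hw' : (0 : ℤ) < w := by exact_mod_cast hw
  exact ⟨Int.ediv_mul_le _ hw'.ne', Int.lt_ediv_add_one_mul_self _ hw',
    Int.ediv_mul_le _ hw'.ne', Int.lt_ediv_add_one_mul_self _ hw'⟩

private theorem dfill_idx_win (w d a : ℕ) (hw : 0 < w) (b x : Site) (hx : x ∈ win (d * w) a b) :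
    ((x.1 / (w : ℤ), x.2 / (w : ℤ)) : Site) ∈ win d a b := by
  have hw' : (0 : ℤ) < w := by exact_mod_cast hw
  obtain ⟨h1, h2, h3, h4⟩ := hx
  push_cast at h1 h2 h3 h4
  rw [← mul_assoc] at h1 h2 h3 h4
  refine ⟨?_, ?_, ?_, ?_⟩
  · exact (Int.le_ediv_iff_mul_le hw').mpr h1
  · exact (Int.ediv_lt_iff_lt_mul hw').mpr h2
  · exact (Int.le_ediv_iff_mul_le hw').mpr h3
  · exact (Int.ediv_lt_iff_lt_mul hw').mpr h4

private theorem dfill_nb_card (x : Site) : (nb x).card = 4 := by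
  unfold nb
  rw [Finset.card_insert_of_notMem, Finset.card_insert_of_notMem, Finset.card_pair]
  · intro h
    have := congrArg Prod.snd h
    simp only [] at this
    omega
  · simp
  · simp only [Finset.mem_insert, Finset.mem_singleton, Prod.mk.injEq]
    omega

private theorem dfill_cnt3 (J T : Set Site) (x : Site) (h : ∀ y, adj x y → y ∈ J ∨ y ∈ T) 
    (hJ : ¬ 2 ≤ cnt J x) : 3 ≤ cnt T x := by
  have h1 : (nb x).filter (fun y => y ∈ J) ∪ (nb x).filter (fun y => y ∈ T) = nb x := by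
    rw [← Finset.filter_or]
    exact Finset.filter_true_of_mem (fun y hy => h y hy)
  have h2 := Finset.card_union_le ((nb x).filter (fun y => y ∈ J))
    ((nb x).filter (fun y => y ∈ T))
  rw [h1, dfill_nb_card] at h2
  unfold cnt at hJ ⊢
  omega

private theorem dfill_win_sub (n : ℕ) {a a' : ℕ} (c c' : Site) (h1 : c.1 - a' ≤ c'.1 - a)
    (h2 : c'.1 + a ≤ c.1 + a') (h3 : c.2 - a' ≤ c'.2 - a) (h4 : c'.2 + a ≤ c.2 + a') :
    win n a c' ⊆ win n a' c := by
  intro x hx
  obtain ⟨g1, g2, g3, g4⟩ := hx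
  have hn : (0 : ℤ) ≤ n := by positivity
  refine ⟨?_, ?_, ?_, ?_⟩ <;> nlinarith

theorem dfill (w d mw : ℕ) (hw : 3 ≤ w) (hd : mw + 2 ≤ d) (ω' : Config) (b : Site)
    (hgood : ¬ DBad w d mw ω' b) (A : Finset Site) (Pt : Finset (Finset Site))
    (hP : IsParts Pt A) (hA : ∀ z ∈ win (d * w) 1 b, ω' z = 2 → z ∈ A)
    (hloc : ∀ P ∈ Pt, (∃ z ∈ hull P, z ∈ win (d * w) 1 b) →
      ∀ x ∈ P, ω' x = 2 ∧ x ∈ win (d * w) 2 b)
    (J : Set Site) (hJ : ∀ x ∈ J, x ∈ win (d * w) 1 b ∧ x ∉ obst Pt)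
    (hcl : ∀ x ∈ win (d * w) 1 b, x ∉ obst Pt → 2 ≤ cnt J x → x ∈ J)
    (hone : ∀ x ∈ win (d * w) 1 b, ω' x = 1 → x ∉ obst Pt → x ∈ J)
    (hstart : (∃ b', adj b b' ∧ ∀ x ∈ box (d * w) b', x ∉ obst Pt → x ∈ J) ∨
      ((∀ z ∈ win (d * w) 2 b, ω' z ≠ 2) ∧ ∃ c ∈ win d 1 b, ∀ x ∈ box w c, x ∈ J)) :
    ∀ x ∈ box (d * w) b, x ∉ obst Pt → x ∈ J := by
  have hw0 : 0 < w := by omega
  have hdw : (6 : ℤ) ≤ (d : ℤ) * w := by
    have h1 : (2 : ℤ) ≤ d := by omega
    have h2 : (3 : ℤ) ≤ w := by exact_mod_cast hw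
    nlinarith
  have hrow : ∀ x : Site, (∀ i : ℕ, i < w → (x.1 + i, x.2) ∈ win (d * w) 2 b) →
      ∃ i : ℕ, i < w ∧ ω' (x.1 + i, x.2) = 1 := by
    intro x hx
    by_contra hn
    push Not at hn
    exact hgood (Or.inr (Or.inl (Or.inl ⟨x, fun i hi => ⟨hx i hi, hn i hi⟩⟩)))
  have hcol : ∀ x : Site, (∀ i : ℕ, i < w → (x.1, x.2 + i) ∈ win (d * w) 2 b) →
      ∃ i : ℕ, i < w ∧ ω' (x.1, x.2 + i) = 1 := by
    intro x hx
    by_contra hn
    push Not at hn
    exact hgood (Or.inr (Or.inl (Or.inr ⟨x, fun i hi => ⟨hx i hi, hn i hi⟩⟩)))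
  have clean := dfill_clean w d mw ω' b hgood A Pt hP hloc
  have prop : ∀ c' ∈ win d 1 b, ∀ c, adj c c' → ¬ wbad w ω' c' → box w c ⊆ J →
      box w c' ⊆ J := by
    intro c' hc' c hadj hbc hbox
    have hcl' := clean c' hc' hbc
    have h1 := dfill_box_win w d 1 b c' hc'
    have h2 : box w c' ⊆ win (d * w) 2 b := h1.trans (dfill_win_mono _ (by norm_num) _)
    exact dfill_step w ω' J c c' hadj hbox (fun x hx h => hcl x (h1 hx) (hcl' x hx) h)
      (fun x hx h => hone x (h1 hx) h (hcl' x hx))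
      (fun x hx => hrow x (fun i hi => h2 (hx i hi)))
      (fun x hx => hcol x (fun i hi => h2 (hx i hi)))
  -- the giant cluster
  have bs : BadSpan (win d 1 b) {c | wbad w ω' c} mw := by
    intro C hC hCb hconn
    by_contra hs
    exact hgood (Or.inr (Or.inr (Or.inl ⟨C, hC, hCb, hconn, hs⟩)))
  obtain ⟨G, hG⟩ : ∃ G, IsGiant (win d 1 b) {c | wbad w ω' c} mw G := by
    have bs2 := bs
    rw [win_eq_Icc] at bs2 ⊢
    refine giant_exists _ _ _ ?_ ?_ _ bs2 <;> simp only [] <;> push_cast <;> nlinarith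
  obtain ⟨hG1, hG2, hG3, hG4, hG5, hG6, hG7⟩ := hG
  have hG : IsGiant (win d 1 b) {c | wbad w ω' c} mw G := ⟨hG1, hG2, hG3, hG4, hG5, hG6, hG7⟩
  have hstart' : ∃ c ∈ G, box w c ⊆ J := by
    rcases hstart with ⟨b', hbb, hb'⟩ | ⟨hno, c, hc, hcJ⟩
    · have hk : b' = (b.1 + 1, b.2) ∨ b' = (b.1 - 1, b.2) ∨ b' = (b.1, b.2 + 1) ∨
          b' = (b.1, b.2 - 1) := by
        unfold adj nb at hbb
        simpa using hbb
      have hsub : win d 0 b' ⊆ win d 1 b := by
        apply dfill_win_sub <;> rcases hk with h | h | h | h <;> subst h <;> simp <;> omega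
      have bs' : BadSpan (win d 0 b') {c | wbad w ω' c} mw := fun C hC => bs C (hC.trans hsub)
      obtain ⟨G', hG'⟩ : ∃ G', IsGiant (win d 0 b') {c | wbad w ω' c} mw G' := by
        have bs2 := bs'
        rw [win_eq_Icc] at bs2 ⊢
        refine giant_exists _ _ _ ?_ ?_ _ bs2 <;> simp only [] <;> push_cast <;> nlinarith
      have hab : G' ⊆ G := by
        apply giant_absorb hG (hG'.1.trans hsub) hG'.2.1 hG'.2.2.2.1
        intro hs
        have d0 : (0 : ℤ) < d := by omega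
        have p1 : ((b'.1 * d, b'.2 * d) : Site) ∈ win d 0 b' := by
          refine ⟨?_, ?_, ?_, ?_⟩ <;> simp only [] <;> push_cast <;> nlinarith
        have p2 : ((b'.1 * d + d - 1, b'.2 * d) : Site) ∈ win d 0 b' := by
          refine ⟨?_, ?_, ?_, ?_⟩ <;> simp only [] <;> push_cast <;> nlinarith
        obtain ⟨y1, hy1, e1⟩ := (hG'.2.2.2.2.2.1 _ p1).1
        obtain ⟨y2, hy2, e2⟩ := (hG'.2.2.2.2.2.1 _ p2).1
        have := (hs y2 hy2 y1 hy1).1
        rw [e1, e2] at this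
        simp only [] at this
        have := (abs_le.mp this).2
        omega
      obtain ⟨c0, hc0⟩ := hG'.2.2.1
      refine ⟨c0, hab hc0, fun x hx => hb' x ?_
        (clean c0 (hsub (hG'.1 hc0)) (hG'.2.1 c0 hc0) x hx)⟩
      rw [box_eq_win]
      exact dfill_box_win w d 0 b' c0 (hG'.1 hc0) hx
    · have hnb : ∀ e ∈ win d 1 b, ¬ wbad w ω' e := by
        rintro e he ⟨z, hz, z1, z2, z3, z4⟩
        refine hno z ?_ hz
        obtain ⟨h1, h2, h3, h4⟩ := he
        have hw' : (0 : ℤ) ≤ w := by positivity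
        have m1 := mul_le_mul_of_nonneg_right h1 hw'
        have m2 := mul_le_mul_of_nonneg_right (show e.1 + 1 ≤ _ from h2) hw'
        have m3 := mul_le_mul_of_nonneg_right h3 hw'
        have m4 := mul_le_mul_of_nonneg_right (show e.2 + 1 ≤ _ from h4) hw'
        push_cast at m1 m2 m3 m4
        refine ⟨?_, ?_, ?_, ?_⟩ <;> push_cast <;> nlinarith
      have walk : ∀ n : ℕ, ∀ y ∈ G, y.1 = c.1 → (c.2 - y.2).natAbs = n → c ∈ G := by
        intro n
        induction n with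
        | zero =>
          intro y hy h1 h2
          have : y = c := Prod.ext h1 (by omega)
          rwa [this] at hy
        | succ n ih =>
          intro y hy h1 h2
          have hyw := hG1 hy
          obtain ⟨a1, a2, a3, a4⟩ := hyw
          obtain ⟨b1, b2, b3, b4⟩ := hc
          rcases lt_or_gt_of_ne (show y.2 ≠ c.2 by omega) with h | h
          · have hw1 : ((y.1, y.2 + 1) : Site) ∈ win d 1 b :=
              ⟨a1, a2, by simp only []; linarith, by simp only []; linarith⟩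
            refine ih (y.1, y.2 + 1) (hG5 y hy _ hw1 ?_ (hnb _ hw1)) h1 ?_
            · unfold adj nb; simp
            · simp only []; omega
          · have hw1 : ((y.1, y.2 - 1) : Site) ∈ win d 1 b :=
              ⟨a1, a2, by simp only []; linarith, by simp only []; linarith⟩
            refine ih (y.1, y.2 - 1) (hG5 y hy _ hw1 ?_ (hnb _ hw1)) h1 ?_
            · unfold adj nb; simp
            · simp only []; omega
      obtain ⟨y, hy, e⟩ := (hG6 c hc).1
      exact ⟨c, walk _ y hy e rfl, fun x hx => hcJ x hx⟩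
  have hGJ : ∀ c ∈ G, box w c ⊆ J := by
    obtain ⟨c0, hc0, h0⟩ := hstart'
    intro c hc
    have hr := hG4 c0 hc0 c hc
    clear hc
    induction hr with
    | refl => exact h0
    | tail _ h ih => exact prop _ (hG1 h.2.1) _ h.2.2 (hG2 _ h.2.1) ih
  -- a hole
  intro u0 hu0 hu0o
  by_contra hu0J
  have hu0w : u0 ∈ win (d * w) 1 b := by
    rw [box_eq_win] at hu0
    exact dfill_win_mono _ (by norm_num) _ hu0
  set U : Set Site := {x | x ∈ win (d * w) 1 b ∧ x ∉ obst Pt ∧ x ∉ J} with hU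
  have hu0U : u0 ∈ U := ⟨hu0w, hu0o, hu0J⟩
  set S : Set Site := {x | Relation.ReflTransGen (fun a b => a ∈ U ∧ b ∈ U ∧ adj a b) u0 x}
    with hS
  have hSU : ∀ s ∈ S, s ∈ U := by
    intro s hs
    rcases Relation.ReflTransGen.cases_tail hs with h | ⟨_, _, h⟩
    · rw [h]; exact hu0U
    · exact h.2.1
  have hSc : ∀ s ∈ S, ∀ y ∈ U, adj s y → y ∈ S := fun s hs y hy h =>
    Relation.ReflTransGen.tail hs ⟨hSU s hs, hy, h⟩
  have hSfin : S.Finite := by
    apply Set.Finite.subset (Set.finite_Icc ((b.1 - (1 : ℕ)) * ((d * w : ℕ) : ℤ),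
      (b.2 - (1 : ℕ)) * ((d * w : ℕ) : ℤ)) ((b.1 + 1 + (1 : ℕ)) * ((d * w : ℕ) : ℤ) - 1,
      (b.2 + 1 + (1 : ℕ)) * ((d * w : ℕ) : ℤ) - 1))
    rw [← win_eq_Icc]
    exact fun s hs => (hSU s hs).1
  set idx : Site → Site := fun x => (x.1 / (w : ℤ), x.2 / (w : ℤ)) with hidx
  have hKspan : SpanLe mw (idx '' S) := by
    apply hG7
    · rintro _ ⟨s, hs, rfl⟩
      exact dfill_idx_win w d 1 hw0 b s (hSU s hs).1
    · rintro _ ⟨s, hs, rfl⟩ hk
      exact (hSU s hs).2.2 (hGJ _ hk (dfill_mem_box w hw0 s))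
    · have hr : ∀ s ∈ S, Relation.ReflTransGen
          (fun a b => a ∈ idx '' S ∧ b ∈ idx '' S ∧ adj a b) (idx u0) (idx s) := by
        intro s hs
        induction hs with
        | refl => exact Relation.ReflTransGen.refl
        | @tail p q hp hq ih =>
          rcases dfill_idx_adj w hw0 hq.2.2 with e | e
          · have e' : idx p = idx q := e
            rw [← e']; exact ih
          · exact ih.tail ⟨⟨p, hp, rfl⟩, ⟨q, hp.tail hq, rfl⟩, e⟩
      have hr' : ∀ s ∈ S, Relation.ReflTransGen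
          (fun a b => a ∈ idx '' S ∧ b ∈ idx '' S ∧ adj a b) (idx s) (idx u0) := by
        intro s hs
        induction hs with
        | refl => exact Relation.ReflTransGen.refl
        | @tail p q hp hq ih =>
          rcases dfill_idx_adj w hw0 hq.2.2 with e | e
          · have e' : idx p = idx q := e
            rw [← e']; exact ih
          · exact Relation.ReflTransGen.head ⟨⟨q, hp.tail hq, rfl⟩, ⟨p, hp, rfl⟩, adj_symm e⟩ ih
      rintro _ ⟨s, hs, rfl⟩ _ ⟨s', hs', rfl⟩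
      exact (hr' s hs).trans (hr s' hs')
  have hnbw : ∀ s ∈ S, ∀ y, adj s y → y ∈ win (d * w) 1 b := by
    intro s hs y hy
    have h0S : u0 ∈ S := Relation.ReflTransGen.refl
    have sp := hKspan (idx s) ⟨s, hs, rfl⟩ (idx u0) ⟨u0, h0S, rfl⟩
    have hu : idx u0 ∈ win d 0 b := by
      rw [box_eq_win] at hu0
      exact dfill_idx_win w d 0 hw0 b u0 hu0
    obtain ⟨u1, u2, u3, u4⟩ := hu
    obtain ⟨s1, s2, s3, s4⟩ := dfill_mem_box w hw0 s
    have q1 := abs_le.mp sp.1
    have q2 := abs_le.mp sp.2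
    have hw' : (3 : ℤ) ≤ w := by exact_mod_cast hw
    have hd' : (mw : ℤ) + 2 ≤ d := by exact_mod_cast hd
    have i1 : (idx s).1 = s.1 / (w : ℤ) := rfl
    have i2 : (idx s).2 = s.2 / (w : ℤ) := rfl
    simp only [] at s1 s2 s3 s4
    rw [← i1] at s1 s2
    rw [← i2] at s3 s4
    push_cast at u1 u2 u3 u4
    have l1 : (b.1 - 1) * d + 2 ≤ (idx s).1 := by nlinarith [q1.1]
    have l2 : (idx s).1 + 1 ≤ (b.1 + 2) * d - 2 := by nlinarith [q1.2]
    have l3 : (b.2 - 1) * d + 2 ≤ (idx s).2 := by nlinarith [q2.1]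
    have l4 : (idx s).2 + 1 ≤ (b.2 + 2) * d - 2 := by nlinarith [q2.2]
    have w0 : (0 : ℤ) ≤ w := by linarith
    have m1 := mul_le_mul_of_nonneg_right l1 w0
    have m2 := mul_le_mul_of_nonneg_right l2 w0
    have m3 := mul_le_mul_of_nonneg_right l3 w0
    have m4 := mul_le_mul_of_nonneg_right l4 w0
    have hk : y = (s.1 + 1, s.2) ∨ y = (s.1 - 1, s.2) ∨ y = (s.1, s.2 + 1) ∨
        y = (s.1, s.2 - 1) := by
      unfold adj nb at hy
      simpa using hy
    have y1 : s.1 - 1 ≤ y.1 := by rcases hk with h | h | h | h <;> subst h <;> simp <;> omega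
    have y2 : y.1 ≤ s.1 + 1 := by rcases hk with h | h | h | h <;> subst h <;> simp <;> omega
    have y3 : s.2 - 1 ≤ y.2 := by rcases hk with h | h | h | h <;> subst h <;> simp <;> omega
    have y4 : y.2 ≤ s.2 + 1 := by rcases hk with h | h | h | h <;> subst h <;> simp <;> omega
    refine ⟨?_, ?_, ?_, ?_⟩ <;> push_cast <;> nlinarith
  apply hgood
  right; right; right
  refine hole_wit ω' (win (d * w) 2 b) A Pt hP hSfin.toFinset ?_ ?_ ?_ ?_
  · exact ⟨u0, hSfin.mem_toFinset.mpr Relation.ReflTransGen.refl⟩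
  · intro s hs
    have hs' := hSU s (hSfin.mem_toFinset.mp hs)
    have hn1 : ω' s ≠ 1 := fun h => hs'.2.2 (hone s hs'.1 h hs'.2.1)
    have hn2 : ω' s ≠ 2 := fun h => hs'.2.1 (sub_obst hP (hA s hs'.1 h))
    refine ⟨?_, dfill_win_mono _ (by norm_num) _ hs'.1, hs'.2.1⟩
    generalize ω' s = a at hn1 hn2 ⊢
    fin_cases a
    · rfl
    · exact absurd rfl hn1
    · exact absurd rfl hn2
  · intro s hs
    have hs1 := hSfin.mem_toFinset.mp hs
    have hs' := hSU s hs1
    apply dfill_cnt3 J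
    · intro y hy
      have hyw := hnbw s hs1 y hy
      by_cases h1 : y ∈ J
      · exact Or.inl h1
      · right
        by_cases h2 : y ∈ obst Pt
        · exact Or.inr h2
        · left
          exact hSfin.mem_toFinset.mpr (hSc s hs1 y ⟨hyw, h2, h1⟩ hy)
    · intro h
      exact hs'.2.2 (hcl s hs'.1 hs'.2.1 h)
  · rintro P hPt ⟨z, hz, s, hs, hsz⟩
    have hs1 := hSfin.mem_toFinset.mp hs
    have hl := hloc P hPt ⟨z, hz, hnbw s hs1 z hsz⟩
    exact ⟨dfill_small w d mw ω' b hgood P (hP.1 P hPt) hl, hl⟩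

end TSB
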