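import Pool.Agent.TSB.Dyn
import Pool.Agent.TSB.PartsA
import Pool.Agent.TSB.PartsB
import Pool.Agent.TSB.Giant
import Pool.Agent.TSB.Dfill

/-! Two-stage bootstrap percolation, module DSTEP. -/

open scoped Classical

namespace TSB

/-- An increasing sequence of subsets of a finite set is stationary at some moment before the
cardinality, or it reaches the whole set. -/
theorem ds_stationary {α : Type*} [DecidableEq α] (U : Finset α) (J : ℕ → Finset α)
    (hU : ∀ n, J n ⊆ U) (hm : ∀ n < U.card, J n ⊆ J (n + 1)) :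
    (∃ n < U.card, J n = J (n + 1)) ∨ J U.card = U := by
  by_contra hcon
  push Not at hcon
  obtain ⟨h1, h2⟩ := hcon
  have key : ∀ n ≤ U.card, n ≤ (J n).card := by
    intro n
    induction n with
    | zero => intro _; exact Nat.zero_le _
    | succ n ih =>
      intro hn
      have hlt : (J n).card < (J (n + 1)).card :=
        Finset.card_lt_card (lt_of_le_of_ne (hm n (by omega)) (h1 n (by omega)))
      have := ih (by omega)
      omega
  exact h2 (Finset.eq_of_subset_of_card_le (hU _) (key _ le_rfl))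

/-- `win` as a finset. -/
noncomputable def ds_winF (n a : ℕ) (c : Site) : Finset Site :=
  Finset.Ico ((c.1 - a) * n) ((c.1 + 1 + a) * n) ×ˢ Finset.Ico ((c.2 - a) * n) ((c.2 + 1 + a) * n)

theorem ds_mem_winF {n a : ℕ} {c x : Site} : x ∈ ds_winF n a c ↔ x ∈ win n a c := by
  unfold ds_winF win
  rw [Finset.mem_product, Finset.mem_Ico, Finset.mem_Ico, Set.mem_ofPred_eq]
  tauto

theorem ds_card_winF (n a : ℕ) (c : Site) : (ds_winF n a c).card = ((2 * a + 1) * n) ^ 2 := by
  unfold ds_winF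
  rw [Finset.card_product, Int.card_Ico, Int.card_Ico]
  have h1 : (c.1 + 1 + a) * n - (c.1 - a) * n = (((2 * a + 1) * n : ℕ) : ℤ) := by
    push_cast; ring
  have h2 : (c.2 + 1 + a) * n - (c.2 - a) * n = (((2 * a + 1) * n : ℕ) : ℤ) := by
    push_cast; ring
  rw [h1, h2, Int.toNat_natCast]
  ring

theorem ds_box_sub_win {n : ℕ} {b b' : Site} (h : adj b b') : box n b' ⊆ win n 1 b := by
  intro x hx
  obtain ⟨h1, h2⟩ := dyn_adj_abs h
  rw [abs_le] at h1 h2
  obtain ⟨x1, x2, x3, x4⟩ := hx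
  have hn : (0 : ℤ) ≤ n := Int.natCast_nonneg n
  refine ⟨?_, ?_, ?_, ?_⟩
  · have : (b.1 - (1 : ℕ)) * (n : ℤ) ≤ b'.1 * n :=
      mul_le_mul_of_nonneg_right (by push_cast; linarith [h1.1]) hn
    linarith
  · have : (b'.1 + 1) * (n : ℤ) ≤ (b.1 + 1 + (1 : ℕ)) * n :=
      mul_le_mul_of_nonneg_right (by push_cast; linarith [h1.2]) hn
    linarith
  · have : (b.2 - (1 : ℕ)) * (n : ℤ) ≤ b'.2 * n :=
      mul_le_mul_of_nonneg_right (by push_cast; linarith [h2.1]) hn
    linarith
  · have : (b'.2 + 1) * (n : ℤ) ≤ (b.2 + 1 + (1 : ℕ)) * n :=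
      mul_le_mul_of_nonneg_right (by push_cast; linarith [h2.2]) hn
    linarith

theorem ds_box_sub_win0 {n : ℕ} {b : Site} : box n b ⊆ win n 1 b := by
  intro x hx
  obtain ⟨x1, x2, x3, x4⟩ := hx
  have hn : (0 : ℤ) ≤ n := Int.natCast_nonneg n
  refine ⟨?_, ?_, ?_, ?_⟩
  · have : (b.1 - (1 : ℕ)) * (n : ℤ) ≤ b.1 * n :=
      mul_le_mul_of_nonneg_right (by push_cast; linarith) hn
    linarith
  · have : (b.1 + 1) * (n : ℤ) ≤ (b.1 + 1 + (1 : ℕ)) * n :=
      mul_le_mul_of_nonneg_right (by push_cast; linarith) hn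
    linarith
  · have : (b.2 - (1 : ℕ)) * (n : ℤ) ≤ b.2 * n :=
      mul_le_mul_of_nonneg_right (by push_cast; linarith) hn
    linarith
  · have : (b.2 + 1) * (n : ℤ) ≤ (b.2 + 1 + (1 : ℕ)) * n :=
      mul_le_mul_of_nonneg_right (by push_cast; linarith) hn
    linarith

theorem ds_wbox_sub {w d a : ℕ} {b c : Site} (hc : c ∈ win d a b) : box w c ⊆ win (d * w) a b := by
  intro x hx
  obtain ⟨c1, c2, c3, c4⟩ := hc
  obtain ⟨x1, x2, x3, x4⟩ := hx
  have hw : (0 : ℤ) ≤ w := Int.natCast_nonneg w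
  refine ⟨?_, ?_, ?_, ?_⟩
  · have := mul_le_mul_of_nonneg_right c1 hw
    push_cast; linarith
  · have : (c.1 + 1) * (w : ℤ) ≤ (b.1 + 1 + a) * d * w :=
      mul_le_mul_of_nonneg_right (by linarith) hw
    push_cast; linarith
  · have := mul_le_mul_of_nonneg_right c3 hw
    push_cast; linarith
  · have : (c.2 + 1) * (w : ℤ) ≤ (b.2 + 1 + a) * d * w :=
      mul_le_mul_of_nonneg_right (by linarith) hw
    push_cast; linarith

theorem ds_xi_stay {ω : Config} {s t : ℕ} {x : Site} (h : s ≤ t) (h1 : xi ω s x = 1)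
    (h2 : xi ω t x ≠ 2) : xi ω t x = 1 := by
  have hm := xi_mono ω h x
  rw [h1] at hm
  have : ∀ a : Fin 3, 1 ≤ a → a ≠ 2 → a = 1 := by decide
  exact this _ hm h2

theorem dstep (w d mw : ℕ) (hw : 3 ≤ w) (hd : mw + 2 ≤ d) (ω ω' : Config) (b : Site)
    (hgood : ¬ DBad w d mw ω' b) (A : Finset Site) (Pt : Finset (Finset Site))
    (hP : IsParts Pt A) (t : ℕ) (hok : BlkOk (d * w) ω ω' A Pt (t + 9 * (d * w) ^ 2) b)
    (hone : ∀ x ∈ win (d * w) 1 b, ω' x = 1 → x ∉ obst Pt → xi ω t x = 1)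
    (hstart : (∃ b', adj b b' ∧ Filled ω Pt (d * w) t b') ∨
      ((∀ z ∈ win (d * w) 2 b, ω' z ≠ 2) ∧ ∃ c ∈ win d 1 b, ∀ x ∈ box w c, xi ω t x = 1)) :
    Filled ω Pt (d * w) (t + 9 * (d * w) ^ 2) b := by
  set D := d * w with hD
  -- the finite set
  set U := ds_winF D 1 b with hU
  have hUc : U.card = 9 * D ^ 2 := by rw [hU, ds_card_winF]; ring
  set J : ℕ → Finset Site := fun n => U.filter (fun x => x ∉ obst Pt ∧ xi ω (t + n) x = 1) with hJ
  have hJmem : ∀ n x, x ∈ J n ↔ x ∈ win D 1 b ∧ x ∉ obst Pt ∧ xi ω (t + n) x = 1 := by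
    intro n x
    simp only [hJ, hU, Finset.mem_filter, ds_mem_winF]
  have hmono : ∀ m n, m ≤ n → n ≤ 9 * D ^ 2 → J m ⊆ J n := by
    intro m n hmn hn x hx
    rw [hJmem] at hx ⊢
    refine ⟨hx.1, hx.2.1, ds_xi_stay (s := t + m) (by omega) hx.2.2 ?_⟩
    intro h2
    exact hx.2.1 (hok.uninv (t + n) (by omega) x hx.1 h2)
  have hfin : ∀ n ≤ 9 * D ^ 2, ∀ x ∈ J n, xi ω (t + 9 * D ^ 2) x = 1 := by
    intro n hn x hx
    exact ((hJmem _ _).mp (hmono n _ hn le_rfl hx)).2.2
  rcases ds_stationary U J (fun n => Finset.filter_subset _ _)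
    (fun n hn => hmono n (n + 1) (by omega) (by omega)) with ⟨n, hn, hst⟩ | hall
  · rw [hUc] at hn
    have hfill := dfill w d mw hw hd ω' b hgood A Pt hP hok.two_mem hok.loc (J n : Set Site)
      (fun x hx => by
        have := (hJmem n x).mp (Finset.mem_coe.mp hx)
        exact ⟨this.1, this.2.1⟩)
      (fun x hx hxo h2 => by
        rw [Finset.mem_coe]
        have hle : cnt (J n : Set Site) x ≤ cnt {y | xi ω (t + n) y = 1} x := by
          apply cnt_mono
          intro y hy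
          exact ((hJmem n y).mp (Finset.mem_coe.mp hy)).2.2
        by_cases h0 : xi ω (t + n) x = 0
        · have h1 := xi_zero_one h0 (le_trans h2 hle)
          rw [hst, hJmem]
          exact ⟨hx, hxo, h1⟩
        · by_cases h1 : xi ω (t + n) x = 1
          · rw [hJmem]
            exact ⟨hx, hxo, h1⟩
          · exfalso
            have : ∀ a : Fin 3, a ≠ 0 → a ≠ 1 → a = 2 := by decide
            exact hxo (hok.uninv (t + n) (by omega) x hx (this _ h0 h1)))
      (fun x hx h1 hxo => by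
        rw [Finset.mem_coe]
        apply hmono 0 n (by omega) (by omega)
        rw [hJmem]
        exact ⟨hx, hxo, hone x hx h1 hxo⟩)
      (by
        rcases hstart with ⟨b', hb', hf⟩ | ⟨hno, c, hc, hf⟩
        · left
          refine ⟨b', hb', ?_⟩
          intro x hx hxo
          rw [Finset.mem_coe]
          apply hmono 0 n (by omega) (by omega)
          rw [hJmem]
          exact ⟨ds_box_sub_win hb' hx, hxo, hf x hx hxo⟩
        · right
          refine ⟨hno, c, hc, ?_⟩
          intro x hx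
          rw [Finset.mem_coe]
          apply hmono 0 n (by omega) (by omega)
          rw [hJmem]
          have hxw : x ∈ win D 1 b := ds_wbox_sub hc hx
          refine ⟨hxw, ?_, hf x hx⟩
          rintro ⟨P, hPP, hxP⟩
          obtain ⟨a, ha, -⟩ := hxP.1
          have := hok.loc P hPP ⟨x, hxP, hxw⟩ a ha
          exact hno a this.2 this.1)
    intro x hx hxo
    exact hfin n (by omega) x (Finset.mem_coe.mp (hfill x hx hxo))
  · intro x hx hxo
    rw [hUc] at hall
    apply hfin (9 * D ^ 2) le_rfl x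
    rw [hall, hU, ds_mem_winF]
    exact ds_box_sub_win0 hx

end TSB
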