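import Pool.Agent.TSB.Dyn
import Pool.Agent.TSB.PartsA
import Pool.Agent.TSB.PartsB

/-! Two-stage bootstrap percolation, module NONZERO. -/

open scoped Classical

namespace TSB

theorem nz_cnt_two {S : Set Site} {x y z : Site} (hy : adj x y) (hz : adj x z) (hyz : y ≠ z)
    (hyS : y ∈ S) (hzS : z ∈ S) : 2 ≤ cnt S x := by
  unfold cnt
  have : 1 < ((nb x).filter (fun y => y ∈ S)).card := by
    rw [Finset.one_lt_card]
    exact ⟨y, Finset.mem_filter.mpr ⟨hy, hyS⟩, z, Finset.mem_filter.mpr ⟨hz, hzS⟩, hyz⟩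
  exact this

theorem nz_adj_l1 {x y : Site} (h : adj x y) : |x.1 - y.1| + |x.2 - y.2| ≤ 2 := by
  rw [dyn_adj_iff] at h
  rcases h with h | h | h | h <;> subst h <;> simp

/-- A neighbour of a point of the hull of a part which is outside of this hull is not in any
obstacle. -/
theorem nz_not_obst {Pt : Finset (Finset Site)} {A : Finset Site} (hP : IsParts Pt A)
    {P : Finset Site} (hPP : P ∈ Pt) {x y : Site} (hx : x ∈ hull P) (hxy : adj x y)
    (hy : y ∉ hull P) : y ∉ obst Pt := by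
  rintro ⟨Q, hQ, hyQ⟩
  have hne : P ≠ Q := by
    rintro rfl
    exact hy hyQ
  exact (hP.2.1 P hPP Q hQ hne).2 ⟨x, hx, y, hyQ, nz_adj_l1 hxy⟩

theorem nonzero_of_filled (ω : Config) (A : Finset Site) (Pt : Finset (Finset Site))
    (hP : IsParts Pt A) (t : ℕ) (x : Site)
    (hx : ∀ y ∈ ball x 1, y ∉ obst Pt → xi ω t y = 1)
    (hsmall : ∀ P ∈ Pt, x ∈ hull P → P.card ≤ 2 ∧ ∀ z ∈ P, ω z = 2) :
    xi ω (t + 1) x ≠ 0 := by
  intro hzero
  have hmono := xi_mono ω (Nat.le_succ t) x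
  have hzt : xi ω t x = 0 := by
    have h1 : xi ω t x ≤ 0 := by rw [← hzero]; exact hmono
    exact Fin.le_zero_iff.mp h1
  by_cases hobs : x ∈ obst Pt
  · obtain ⟨P, hPP, hxP⟩ := hobs
    obtain ⟨hcard, htwo⟩ := hsmall P hPP hxP
    -- two elements
    obtain ⟨a, b, hab, hl1⟩ : ∃ a b : Site, P = {a, b} ∧ |a.1 - b.1| + |a.2 - b.2| ≤ 2 := by
      by_cases h2 : 2 ≤ P.card
      · obtain ⟨u, hu, v, hv, huv, hd⟩ := mg_pair (hP.1 P hPP) h2
        refine ⟨u, v, ?_, hd⟩
        symm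
        apply Finset.eq_of_subset_of_card_le
        · intro z hz
          rw [Finset.mem_insert, Finset.mem_singleton] at hz
          rcases hz with rfl | rfl
          · exact hu
          · exact hv
        · rw [Finset.card_pair huv]
          exact hcard
      · obtain ⟨u, hu⟩ := mg_nonempty (hP.1 P hPP)
        have h1 : P.card = 1 := by
          have := Finset.card_pos.mpr ⟨u, hu⟩
          omega
        obtain ⟨v, hv⟩ := Finset.card_eq_one.mp h1
        refine ⟨v, v, ?_, by simp⟩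
        rw [hv]
        simp
    obtain ⟨m1, M1, m2, M2, hhull, hsz⟩ : ∃ m1 M1 m2 M2 : ℤ, (∀ z : Site, z ∈ hull P ↔
        m1 ≤ z.1 ∧ z.1 ≤ M1 ∧ m2 ≤ z.2 ∧ z.2 ≤ M2) ∧ (M1 - m1) + (M2 - m2) ≤ 2 := by
      refine ⟨min a.1 b.1, max a.1 b.1, min a.2 b.2, max a.2 b.2, ?_, ?_⟩
      · intro z
        rw [hab, min_le_iff, le_max_iff, min_le_iff, le_max_iff]
        unfold hull
        simp only [Set.mem_ofPred_eq, Finset.mem_insert, Finset.mem_singleton,
          exists_eq_or_imp, exists_eq_left]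
      · rw [max_sub_min_eq_abs', max_sub_min_eq_abs']
        exact hl1
    have key : ∃ y z : Site, adj x y ∧ adj x z ∧ y ≠ z ∧ y ∉ hull P ∧ z ∉ hull P := by
      have hx' := (hhull x).mp hxP
      have cases3 : (((x.1 + 1, x.2) : Site) ∉ hull P ∧ ((x.1 - 1, x.2) : Site) ∉ hull P) ∨
          (((x.1, x.2 + 1) : Site) ∉ hull P ∧ ((x.1, x.2 - 1) : Site) ∉ hull P) ∨
          ((((x.1 + 1, x.2) : Site) ∉ hull P ∨ ((x.1 - 1, x.2) : Site) ∉ hull P) ∧
          (((x.1, x.2 + 1) : Site) ∉ hull P ∨ ((x.1, x.2 - 1) : Site) ∉ hull P)) := by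
        simp only [hhull]
        by_cases c1 : M1 ≤ m1
        · left; constructor <;> omega
        · by_cases c2 : M2 ≤ m2
          · right; left; constructor <;> omega
          · right; right; constructor <;> omega
      have a1 : adj x (x.1 + 1, x.2) := dyn_adj_iff.mpr (Or.inl rfl)
      have a2 : adj x (x.1 - 1, x.2) := dyn_adj_iff.mpr (Or.inr (Or.inl rfl))
      have a3 : adj x (x.1, x.2 + 1) := dyn_adj_iff.mpr (Or.inr (Or.inr (Or.inl rfl)))
      have a4 : adj x (x.1, x.2 - 1) := dyn_adj_iff.mpr (Or.inr (Or.inr (Or.inr rfl)))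
      rcases cases3 with ⟨h1, h2⟩ | ⟨h1, h2⟩ | ⟨h1 | h1, h2 | h2⟩
      · exact ⟨_, _, a1, a2, by intro h; rw [Prod.ext_iff] at h; simp at h; omega, h1, h2⟩
      · exact ⟨_, _, a3, a4, by intro h; rw [Prod.ext_iff] at h; simp at h; omega, h1, h2⟩
      · exact ⟨_, _, a1, a3, by intro h; rw [Prod.ext_iff] at h; simp at h, h1, h2⟩
      · exact ⟨_, _, a1, a4, by intro h; rw [Prod.ext_iff] at h; simp at h, h1, h2⟩
      · exact ⟨_, _, a2, a3, by intro h; rw [Prod.ext_iff] at h; simp at h, h1, h2⟩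
      · exact ⟨_, _, a2, a4, by intro h; rw [Prod.ext_iff] at h; simp at h, h1, h2⟩
    obtain ⟨y, z, hy, hz, hyz, hyP, hzP⟩ := key
    have h1 : xi ω t y = 1 := hx y (dyn_adj_abs hy) (nz_not_obst hP hPP hxP hy hyP)
    have h2 : xi ω t z = 1 := hx z (dyn_adj_abs hz) (nz_not_obst hP hPP hxP hz hzP)
    have h3 := xi_zero_one hzt (nz_cnt_two (S := {y | xi ω t y = 1}) hy hz hyz h1 h2)
    rw [hzero] at h3
    exact absurd h3 (by decide)
  · have := hx x ⟨by simp, by simp⟩ hobs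
    rw [hzt] at this
    exact absurd this (by decide)

end TSB
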