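import Pool.Agent.TSB.Dstep

/-! Two-stage bootstrap percolation, module SSPREAD. -/

open scoped Classical

namespace TSB

theorem ss_filled_mono {D : ℕ} {ω ω' : Config} {A : Finset Site} {Pt : Finset (Finset Site)}
    {b : Site} {t s s' : ℕ} (hok : BlkOk D ω ω' A Pt t b) (h : s ≤ s') (h' : s' ≤ t)
    (hf : Filled ω Pt D s b) : Filled ω Pt D s' b := by
  intro x hx hxo
  refine ds_xi_stay h (hf x hx hxo) ?_
  intro h2
  exact hxo (hok.uninv s' h' x (ds_box_sub_win0 hx) h2)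

theorem ss_blkOk_mono {D : ℕ} {ω ω' : Config} {A : Finset Site} {Pt : Finset (Finset Site)}
    {b : Site} {t t' : ℕ} (hok : BlkOk D ω ω' A Pt t b) (h : t' ≤ t) :
    BlkOk D ω ω' A Pt t' b :=
  ⟨hok.two_mem, hok.loc, fun s hs => hok.uninv s (hs.trans h)⟩

/-- Filling of a connected set of good blocks starting from one of them. -/
theorem ss_window (w d mw : ℕ) (hw : 3 ≤ w) (hd : mw + 2 ≤ d)
    (ω ω' : Config) (A : Finset Site) (Pt : Finset (Finset Site)) (hP : IsParts Pt A)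
    (t0 t1 N : ℕ) (ht : t0 ≤ t1) (G : Finset Site) (hN : G.card ≤ N)
    (hgood : ∀ b ∈ G, ¬ DBad w d mw ω' b) (hconn : Conn adj (G : Set Site))
    (hok : ∀ b ∈ G, BlkOk (d * w) ω ω' A Pt (t1 + N * (9 * (d * w) ^ 2)) b)
    (hone : ∀ b ∈ G, ∀ x ∈ win (d * w) 1 b, ω' x = 1 → x ∉ obst Pt → xi ω t0 x = 1)
    (b0 : Site) (hb0 : b0 ∈ G) (hf0 : Filled ω Pt (d * w) t1 b0) :
    ∀ b ∈ G, Filled ω Pt (d * w) (t1 + N * (9 * (d * w) ^ 2)) b := by
  set D := d * w with hD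
  set F : ℕ → Finset Site := fun k => G.filter (fun b => Filled ω Pt D (t1 + k * (9 * D ^ 2)) b)
    with hF
  have hFmem : ∀ k b, b ∈ F k ↔ b ∈ G ∧ Filled ω Pt D (t1 + k * (9 * D ^ 2)) b := by
    intro k b
    simp only [hF, Finset.mem_filter]
  have hmono : ∀ k l, k ≤ l → l ≤ N → F k ⊆ F l := by
    intro k l hkl hl b hb
    rw [hFmem] at hb ⊢
    refine ⟨hb.1, ss_filled_mono (hok b hb.1) ?_ ?_ hb.2⟩
    · exact Nat.add_le_add_left (Nat.mul_le_mul_right _ hkl) _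
    · exact Nat.add_le_add_left (Nat.mul_le_mul_right _ hl) _
  rcases ds_stationary G F (fun k => Finset.filter_subset _ _)
    (fun k hk => hmono k (k + 1) (by omega) (by omega)) with ⟨k, hk, hst⟩ | hall
  · have hb0F : b0 ∈ F k := by
      apply hmono 0 k (by omega) (by omega)
      rw [hFmem]
      refine ⟨hb0, ?_⟩
      rw [Nat.zero_mul, Nat.add_zero]
      exact hf0
    have hstep : ∀ b ∈ F k, ∀ b' ∈ G, adj b b' → b' ∈ F k := by
      intro b hb b' hb' hadj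
      rw [hst, hFmem]
      refine ⟨hb', ?_⟩
      have hle : t1 + k * (9 * D ^ 2) + 9 * D ^ 2 ≤ t1 + N * (9 * D ^ 2) := by
        have : (k + 1) * (9 * D ^ 2) ≤ N * (9 * D ^ 2) := Nat.mul_le_mul_right _ (by omega)
        linarith
      have h := dstep w d mw hw hd ω ω' b' (hgood b' hb') A Pt hP (t1 + k * (9 * D ^ 2))
        (ss_blkOk_mono (hok b' hb') hle)
        (fun x hx h1 hxo => by
          refine ds_xi_stay (s := t0) ?_ (hone b' hb' x hx h1 hxo) ?_
          · exact ht.trans (Nat.le_add_right _ _)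
          · intro h2
            exact hxo ((hok b' hb').uninv _ (le_trans (Nat.le_add_right _ _) hle) x hx h2))
        (Or.inl ⟨b, adj_symm hadj, ((hFmem k b).mp hb).2⟩)
      have e : t1 + (k + 1) * (9 * D ^ 2) = t1 + k * (9 * D ^ 2) + 9 * D ^ 2 := by ring
      rw [e]
      exact h
    intro b hb
    have hreach : b ∈ F k := by
      have hr := hconn b0 (Finset.mem_coe.mpr hb0) b (Finset.mem_coe.mpr hb)
      induction hr with
      | refl => exact hb0F
      | tail _ hlast ih =>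
        exact hstep _ (ih (Finset.mem_coe.mp hlast.1)) _ (Finset.mem_coe.mp hlast.2.1) hlast.2.2
    exact ((hFmem N b).mp (hmono k N (by omega) le_rfl hreach)).2
  · intro b hb
    have : b ∈ F G.card := by rw [hall]; exact hb
    exact ((hFmem N b).mp (hmono _ N hN le_rfl this)).2

/-- `swin` as a finset. -/
noncomputable def ss_swinF (s : ℕ) (o : Site) : Finset Site :=
  Finset.Ico o.1 (o.1 + 2 * s) ×ˢ Finset.Ico o.2 (o.2 + 2 * s)

theorem ss_mem_swinF {s : ℕ} {o x : Site} : x ∈ ss_swinF s o ↔ x ∈ swin s o := by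
  unfold ss_swinF swin
  rw [Finset.mem_product, Finset.mem_Ico, Finset.mem_Ico, Set.mem_ofPred_eq]
  tauto

theorem ss_card_swinF (s : ℕ) (o : Site) : (ss_swinF s o).card = 4 * s ^ 2 := by
  unfold ss_swinF
  rw [Finset.card_product, Int.card_Ico, Int.card_Ico]
  have h1 : o.1 + 2 * s - o.1 = ((2 * s : ℕ) : ℤ) := by push_cast; ring
  have h2 : o.2 + 2 * s - o.2 = ((2 * s : ℕ) : ℤ) := by push_cast; ring
  rw [h1, h2, Int.toNat_natCast]
  ring

theorem ss_badSpan_mono {Λ Λ' bad : Set Site} {m : ℕ} (h : BadSpan Λ bad m) (hs : Λ' ⊆ Λ) :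
    BadSpan Λ' bad m := fun C hC => h C (hC.trans hs)

/-- The filling of one window. -/
theorem ss_one (w d mw m s : ℕ) (hw : 3 ≤ w) (hd : mw + 2 ≤ d)
    (ω ω' : Config) (A : Finset Site) (Pt : Finset (Finset Site)) (hP : IsParts Pt A)
    (t0 t1 : ℕ) (ht : t0 ≤ t1) (o : Site)
    (hok : ∀ b ∈ swin s o, BlkOk (d * w) ω ω' A Pt (t1 + 36 * s ^ 2 * (d * w) ^ 2) b)
    (hone : ∀ b ∈ swin s o, ∀ x ∈ win (d * w) 1 b, ω' x = 1 → x ∉ obst Pt → xi ω t0 x = 1)
    (G : Set Site) (hG : IsGiant (swin s o) (dbad w d mw ω') m G)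
    (b0 : Site) (hb0 : b0 ∈ G) (hf0 : Filled ω Pt (d * w) t1 b0) :
    ∀ b ∈ G, Filled ω Pt (d * w) (t1 + 36 * s ^ 2 * (d * w) ^ 2) b := by
  obtain ⟨hG1, hG2, -, hG4, -⟩ := hG
  set Gf := (ss_swinF s o).filter (fun b => b ∈ G) with hGf
  have hmem : ∀ b, b ∈ Gf ↔ b ∈ G := by
    intro b
    rw [hGf, Finset.mem_filter, ss_mem_swinF]
    exact ⟨fun h => h.2, fun h => ⟨hG1 h, h⟩⟩
  have hcoe : (Gf : Set Site) = G := by
    ext b
    rw [Finset.mem_coe, hmem]
  have hcard : Gf.card ≤ 4 * s ^ 2 := by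
    rw [← ss_card_swinF s o]
    exact Finset.card_le_card (Finset.filter_subset _ _)
  have e : 4 * s ^ 2 * (9 * (d * w) ^ 2) = 36 * s ^ 2 * (d * w) ^ 2 := by ring
  have h := ss_window w d mw hw hd ω ω' A Pt hP t0 t1 (4 * s ^ 2) ht Gf hcard
    (fun b hb => hG2 b ((hmem b).mp hb)) (by rw [hcoe]; exact hG4)
    (fun b hb => by rw [e]; exact hok b (hG1 ((hmem b).mp hb)))
    (fun b hb => hone b (hG1 ((hmem b).mp hb))) b0 ((hmem b0).mpr hb0) hf0
  intro b hb
  have := h b ((hmem b).mpr hb)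
  rw [e] at this
  exact this

/-- Two windows shifted by `s` have giants with a common point. -/
theorem ss_common {s m : ℕ} (hs : m + 2 ≤ s) {bad G G' : Set Site} {o o' : Site}
    (ho : o' = (o.1 + s, o.2) ∨ o' = (o.1 - s, o.2) ∨ o' = (o.1, o.2 + s) ∨ o' = (o.1, o.2 - s))
    (hb : BadSpan (swin s o) bad m) (hG : IsGiant (swin s o) bad m G)
    (hG' : IsGiant (swin s o') bad m G') : ∃ x, x ∈ G ∧ x ∈ G' := by
  have key : ∀ u v : Site, u.1 + m + 1 ≤ v.1 → u.2 + m + 1 ≤ v.2 →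
      Set.Icc u v ⊆ swin s o → Set.Icc u v ⊆ swin s o' → ∃ x, x ∈ G ∧ x ∈ G' := by
    intro u v h1 h2 h3 h4
    obtain ⟨x, -, hx⟩ := giant_overlap u v h1 h2 h3 h4 (ss_badSpan_mono hb h3) hG hG'
    exact ⟨x, hx⟩
  have hsub : ∀ u v o'' : Site, o''.1 ≤ u.1 → o''.2 ≤ u.2 → v.1 < o''.1 + 2 * s →
      v.2 < o''.2 + 2 * s → Set.Icc u v ⊆ swin s o'' := by
    intro u v o'' h1 h2 h3 h4 x hx
    rw [Set.mem_Icc, Prod.le_def, Prod.le_def] at hx
    obtain ⟨⟨a1, a2⟩, a3, a4⟩ := hx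
    exact ⟨by omega, by omega, by omega, by omega⟩
  rcases ho with h | h | h | h <;> subst h
  · apply key (o.1 + s, o.2) (o.1 + 2 * s - 1, o.2 + 2 * s - 1)
    · dsimp only; omega
    · dsimp only; omega
    · apply hsub <;> dsimp only <;> omega
    · apply hsub <;> dsimp only <;> omega
  · apply key (o.1, o.2) (o.1 + s - 1, o.2 + 2 * s - 1)
    · dsimp only; omega
    · dsimp only; omega
    · apply hsub <;> dsimp only <;> omega
    · apply hsub <;> dsimp only <;> omega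
  · apply key (o.1, o.2 + s) (o.1 + 2 * s - 1, o.2 + 2 * s - 1)
    · dsimp only; omega
    · dsimp only; omega
    · apply hsub <;> dsimp only <;> omega
    · apply hsub <;> dsimp only <;> omega
  · apply key (o.1, o.2) (o.1 + 2 * s - 1, o.2 + s - 1)
    · dsimp only; omega
    · dsimp only; omega
    · apply hsub <;> dsimp only <;> omega
    · apply hsub <;> dsimp only <;> omega

theorem ss_giant_exists {s m : ℕ} (hs : m + 2 ≤ s) {bad : Set Site} {o : Site}
    (hb : BadSpan (swin s o) bad m) : ∃ G, IsGiant (swin s o) bad m G := by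
  rw [swin_eq_Icc] at hb ⊢
  apply giant_exists _ _ m _ _ bad hb
  · dsimp only; omega
  · dsimp only; omega

theorem sspread (w d mw m s : ℕ) (hw : 3 ≤ w) (hd : mw + 2 ≤ d) (hs : m + 2 ≤ s)
    (ω ω' : Config) (A : Finset Site) (Pt : Finset (Finset Site)) (hP : IsParts Pt A)
    (t0 n : ℕ) (o : ℕ → Site)
    (ho : ∀ i < n, o (i + 1) = ((o i).1 + s, (o i).2) ∨ o (i + 1) = ((o i).1 - s, (o i).2) ∨
      o (i + 1) = ((o i).1, (o i).2 + s) ∨ o (i + 1) = ((o i).1, (o i).2 - s))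
    (hok : ∀ i ≤ n, ∀ b ∈ swin s (o i),
      BlkOk (d * w) ω ω' A Pt (t0 + (i + 1) * (36 * s ^ 2 * (d * w) ^ 2)) b)
    (hone : ∀ i ≤ n, ∀ b ∈ swin s (o i), ∀ x ∈ win (d * w) 1 b, ω' x = 1 → x ∉ obst Pt →
      xi ω t0 x = 1)
    (hbad : ∀ i ≤ n, BadSpan (swin s (o i)) (dbad w d mw ω') m)
    (hstart : ∃ b0 ∈ swin s (o 0), (∀ G, IsGiant (swin s (o 0)) (dbad w d mw ω') m G → b0 ∈ G) ∧
      Filled ω Pt (d * w) t0 b0) :
    ∀ G, IsGiant (swin s (o n)) (dbad w d mw ω') m G → ∀ b ∈ G,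
      Filled ω Pt (d * w) (t0 + (n + 1) * (36 * s ^ 2 * (d * w) ^ 2)) b := by
  have main : ∀ i ≤ n, ∀ G, IsGiant (swin s (o i)) (dbad w d mw ω') m G → ∀ b ∈ G,
      Filled ω Pt (d * w) (t0 + (i + 1) * (36 * s ^ 2 * (d * w) ^ 2)) b := by
    intro i
    induction i with
    | zero =>
      intro h0 G hG b hb
      obtain ⟨b0, -, hb0, hf0⟩ := hstart
      have e : t0 + (0 + 1) * (36 * s ^ 2 * (d * w) ^ 2) = t0 + 36 * s ^ 2 * (d * w) ^ 2 := by
        ring
      rw [e]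
      refine ss_one w d mw m s hw hd ω ω' A Pt hP t0 t0 le_rfl (o 0) ?_ (hone 0 h0) G hG b0
        (hb0 G hG) hf0 b hb
      intro b' hb'
      have := hok 0 h0 b' hb'
      rw [e] at this
      exact this
    | succ i ih =>
      intro hi G' hG' b hb
      obtain ⟨G, hG⟩ := ss_giant_exists hs (hbad i (by omega))
      obtain ⟨x, hxG, hxG'⟩ := ss_common hs (ho i (by omega)) (hbad i (by omega)) hG hG'
      have hx := ih (by omega) G hG x hxG
      have e : t0 + (i + 1 + 1) * (36 * s ^ 2 * (d * w) ^ 2) =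
          t0 + (i + 1) * (36 * s ^ 2 * (d * w) ^ 2) + 36 * s ^ 2 * (d * w) ^ 2 := by
        ring
      rw [e]
      refine ss_one w d mw m s hw hd ω ω' A Pt hP t0 (t0 + (i + 1) * (36 * s ^ 2 * (d * w) ^ 2))
        (Nat.le_add_right _ _) (o (i + 1)) ?_ (hone (i + 1) hi) G' hG' x hxG' hx b hb
      intro b' hb'
      have := hok (i + 1) hi b' hb'
      rw [e] at this
      exact this
  exact main n le_rfl

end TSB
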