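import Pool.Agent.TSB.Common
import Pool.Agent.TSB.Alfill
import Pool.Agent.TSB.Dstep
import Pool.Agent.TSB.Sspread
import Pool.Agent.TSB.Nonzero
open MeasureTheory
open scoped Classical

namespace TSB

theorem fin3_one {a b : Fin 3} (ha : a = 1) (hab : a ≤ b) (hb : b ≠ 2) : b = 1 := by
  subst ha
  omega

private theorem gen_time (w s F D g n : ℕ) (hs : 2 ≤ s) (hF : 10 * s + 10 ≤ F) (hD : 20 ≤ D)
    (hw : w ≤ D) (hg : 400 * s * D ≤ g) (hn : s * n ≤ 2 * F + 2 * s) :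
    w ^ 2 + 9 * D ^ 2 + (n + 1) * (36 * s ^ 2 * D ^ 2) + (3 * s + 6) * D + 1 ≤ g * (F * D) := by
  have h1 : (n + 1) * (36 * s ^ 2 * D ^ 2) ≤ 36 * s * D ^ 2 * (2 * F + 3 * s) := by
    calc (n + 1) * (36 * s ^ 2 * D ^ 2) = 36 * s * D ^ 2 * (s * n + s) := by ring
      _ ≤ _ := Nat.mul_le_mul_left _ (by omega)
  have h2 : 400 * s * D * (F * D) ≤ g * (F * D) := by gcongr
  have h3 : s * D ^ 2 * (10 * s + 10) ≤ s * D ^ 2 * F := by gcongr
  have h4 : w ^ 2 ≤ D ^ 2 := by gcongr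
  have h5 : 2 * D ^ 2 ≤ s * D ^ 2 := by gcongr
  have h6 : (3 * s + 6) * D + 1 ≤ 7 * (s * D ^ 2) := by
    have : 20 * (s * D) ≤ s * D ^ 2 := by
      calc 20 * (s * D) ≤ D * (s * D) := by gcongr
        _ = _ := by ring
    nlinarith
  nlinarith

theorem win_finite (n a : ℕ) (c : Site) : (win n a c).Finite := by
  rw [win_eq_Icc]; exact Set.finite_Icc _ _

theorem exists_twos {R : Set Site} (hR : R.Finite) (ω : Config) :
    ∃ A : Finset Site, ∀ x, x ∈ A ↔ x ∈ R ∧ ω x = 2 := by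
  refine ⟨(hR.subset (Set.inter_subset_left (t := {x | ω x = 2}))).toFinset, ?_⟩
  intro x
  rw [Set.Finite.mem_toFinset]
  rfl

/-- index bounds from inclusion of a box in a window -/
theorem idx_of_box_sub {n r a : ℕ} (hn : 1 ≤ n) {β z : Site} (h : box n β ⊆ win (r * n) a z) :
    (z.1 - a) * r ≤ β.1 ∧ β.1 + 1 ≤ (z.1 + 1 + a) * r ∧
    (z.2 - a) * r ≤ β.2 ∧ β.2 + 1 ≤ (z.2 + 1 + a) * r := by
  have hn' : (0 : ℤ) < n := by exact_mod_cast hn
  have hmem : ((β.1 * n, β.2 * n) : Site) ∈ box n β := by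
    refine ⟨le_refl _, ?_, le_refl _, ?_⟩ <;> simp only <;> nlinarith
  obtain ⟨h1, h2, h3, h4⟩ := h hmem
  simp only at h1 h2 h3 h4
  push_cast at h1 h2 h3 h4
  refine ⟨?_, ?_, ?_, ?_⟩
  · have : (z.1 - a) * r * n ≤ β.1 * n := by linarith
    exact le_of_mul_le_mul_right this hn'
  · have : β.1 * n < (z.1 + 1 + a) * r * n := by linarith
    have := lt_of_mul_lt_mul_right this hn'.le
    omega
  · have : (z.2 - a) * r * n ≤ β.2 * n := by linarith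
    exact le_of_mul_le_mul_right this hn'
  · have : β.2 * n < (z.2 + 1 + a) * r * n := by linarith
    have := lt_of_mul_lt_mul_right this hn'.le
    omega

theorem idx_of_box_sub_box {n r : ℕ} (hn : 1 ≤ n) {β z : Site} (h : box n β ⊆ box (r * n) z) :
    z.1 * r ≤ β.1 ∧ β.1 + 1 ≤ (z.1 + 1) * r ∧ z.2 * r ≤ β.2 ∧ β.2 + 1 ≤ (z.2 + 1) * r := by
  rw [box_eq_win (r * n)] at h
  have := idx_of_box_sub hn h
  simpa using this

theorem mem_box_div {D : ℕ} (hD : 1 ≤ D) (x : Site) : x ∈ box D (x.1 / D, x.2 / D) := by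
  have hD' : (0 : ℤ) < D := by exact_mod_cast hD
  refine ⟨?_, ?_, ?_, ?_⟩
  · exact Int.ediv_mul_le _ hD'.ne'
  · exact Int.lt_ediv_add_one_mul_self _ hD'
  · exact Int.ediv_mul_le _ hD'.ne'
  · exact Int.lt_ediv_add_one_mul_self _ hD'

theorem box_sub_win_of_idx {n r a : ℕ} {β z : Site}
    (h1 : (z.1 - a) * r ≤ β.1) (h2 : β.1 + 1 ≤ (z.1 + 1 + a) * r)
    (h3 : (z.2 - a) * r ≤ β.2) (h4 : β.2 + 1 ≤ (z.2 + 1 + a) * r) :
    box n β ⊆ win (r * n) a z := by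
  rintro x ⟨x1, x2, x3, x4⟩
  have hn' : (0 : ℤ) ≤ n := by positivity
  have e1 := mul_le_mul_of_nonneg_right h1 hn'
  have e2 := mul_le_mul_of_nonneg_right h2 hn'
  have e3 := mul_le_mul_of_nonneg_right h3 hn'
  have e4 := mul_le_mul_of_nonneg_right h4 hn'
  refine ⟨?_, ?_, ?_, ?_⟩ <;> push_cast <;> linarith

private theorem gen_low {Z X b y D T G s : ℤ} (hT : T = G * D) (hD : 0 < D) (hs : 0 ≤ s)
    (h1 : Z * G ≤ X) (h2 : X - (s + 1) ≤ b) (h3 : (b - 2) * D ≤ y) :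
    Z * T - (3 * s + 6) * D ≤ y := by
  have e1 : Z * G - (s + 3) ≤ b - 2 := by linarith
  have e2 := mul_le_mul_of_nonneg_right e1 hD.le
  have e3 : (s + 3) * D ≤ (3 * s + 6) * D := mul_le_mul_of_nonneg_right (by linarith) hD.le
  rw [hT]; nlinarith

private theorem gen_up {Z X b y D T G s : ℤ} (hT : T = G * D) (hD : 0 < D) (hs : 0 ≤ s)
    (h1 : X ≤ Z * G) (h2 : b + 1 ≤ X + (2 * s + 1)) (h3 : y < (b + 3) * D) :
    y + 1 ≤ Z * T + (3 * s + 6) * D := by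
  have e1 : b + 3 ≤ Z * G + (2 * s + 3) := by linarith
  have e2 := mul_le_mul_of_nonneg_right e1 hD.le
  have e3 : (2 * s + 3) * D ≤ (3 * s + 6) * D := mul_le_mul_of_nonneg_right (by linarith) hD.le
  rw [hT]; nlinarith

theorem gen (P : Par) (hP : P.Ok) (ω : Config) (z : Site) (hz : ¬ TBad P ω z)
    (hn : ∀ τ : Site, box P.T0 τ ⊆ win P.T 2 z →
      ∃ b : Site, (∀ b' ∈ swin P.s b, box P.D b' ⊆ box P.T0 τ) ∧ Nuc1 P ω b) :
    ∀ β : Site, box P.W β ⊆ win P.T 1 z → ¬ WBad P.w P.d P.mw P.e P.s ω β →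
      ∀ x ∈ box P.W β, xi ω P.T x ≠ 0 := by
  -- numbers
  have hs2 : 2 ≤ P.s := by have := hP.hs; omega
  have hD20 : 20 ≤ P.D := by have := hP.hkD; omega
  have hD0 : (0 : ℤ) < P.D := by have : 0 < P.D := by omega
                                 exact_mod_cast this
  have hkD : P.k ≤ P.D := by have := hP.hkD; omega
  have he := hP.he
  have hf := hP.hf
  have hwD : P.w ≤ P.D := by
    have : 1 ≤ P.d := by have := hP.hd; omega
    unfold Par.D; nlinarith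
  set F : ℕ := P.f * P.e with hF
  have hFe : P.e ≤ F := by rw [hF]; nlinarith
  have hTeq : P.T = P.g * (F * P.D) := by
    simp only [Par.T, Par.T0, Par.W, hF]; ring
  have hT0eq : P.T0 = F * P.D := by
    simp only [Par.T0, Par.W, hF]; ring
  have hWpos : 1 ≤ P.W := by
    have : 1 ≤ P.e * P.D := Nat.mul_pos (by omega) (by omega)
    exact this
  -- the twos and their parts
  obtain ⟨A, hAmem⟩ := exists_twos (win_finite P.T 2 z) ω
  have hA2 : ∀ a ∈ A, ω a = 2 := fun a ha => ((hAmem a).1 ha).2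
  obtain ⟨Pt, hPt⟩ := exists_parts A
  have hspan : ∀ Q ∈ Pt, SpanLe P.k (Q : Set Site) :=
    spanLe_of_notBig hP.hk (fun h => hz (Or.inl h))
      (fun x hx => ⟨((hAmem x).1 hx).2, ((hAmem x).1 hx).1⟩) hPt
  have hTW : P.T = (P.g * P.f) * P.W := by simp only [Par.T, Par.T0]; ring
  have hT0W : P.T0 = P.f * P.W := rfl
  have hTT0 : P.T = P.g * P.T0 := rfl
  intro β hβ hWb x hx
  rw [hTW] at hβ
  obtain ⟨b1, b2, b3, b4⟩ := idx_of_box_sub hWpos hβ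
  have hf0 : (0 : ℤ) < P.f := by exact_mod_cast hf
  push_cast at b1 b2 b3 b4
  -- the `T0`-box of `β`
  set τ : Site := (β.1 / P.f, β.2 / P.f) with hτ
  have t1 : τ.1 * P.f ≤ β.1 := Int.ediv_mul_le _ hf0.ne'
  have t2 : β.1 + 1 ≤ (τ.1 + 1) * P.f := Int.lt_ediv_add_one_mul_self _ hf0
  have t3 : τ.2 * P.f ≤ β.2 := Int.ediv_mul_le _ hf0.ne'
  have t4 : β.2 + 1 ≤ (τ.2 + 1) * P.f := Int.lt_ediv_add_one_mul_self _ hf0
  have z1 : (z.1 - 1) * P.g ≤ τ.1 := by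
    rw [hτ]; simp only; rw [Int.le_ediv_iff_mul_le hf0]; linarith
  have z2 : τ.1 + 1 ≤ (z.1 + 2) * P.g := by
    have : τ.1 < (z.1 + 2) * P.g := by
      rw [hτ]; simp only; rw [Int.ediv_lt_iff_lt_mul hf0]; linarith
    omega
  have z3 : (z.2 - 1) * P.g ≤ τ.2 := by
    rw [hτ]; simp only; rw [Int.le_ediv_iff_mul_le hf0]; linarith
  have z4 : τ.2 + 1 ≤ (z.2 + 2) * P.g := by
    have : τ.2 < (z.2 + 2) * P.g := by
      rw [hτ]; simp only; rw [Int.ediv_lt_iff_lt_mul hf0]; linarith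
    omega
  have hg0 : (0 : ℤ) ≤ P.g := by positivity
  have hτwin : box P.T0 τ ⊆ win P.T 2 z := by
    rw [hTT0]
    refine box_sub_win_of_idx ?_ ?_ ?_ ?_ <;> push_cast <;> linarith
  obtain ⟨b, hb, hnuc2, hnucAL, hnucG⟩ := hn τ hτwin
  -- positions in units of `D`-blocks
  have hFz : (F : ℤ) = P.f * P.e := by rw [hF]; push_cast; ring
  have he0 : (0 : ℤ) ≤ P.e := by positivity
  have hF0 : (0 : ℤ) ≤ F := by positivity
  have y1 : τ.1 * F ≤ β.1 * P.e := by rw [hFz]; linarith [mul_le_mul_of_nonneg_right t1 he0]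
  have y2 : (β.1 + 1) * P.e ≤ τ.1 * F + F := by
    rw [hFz]; linarith [mul_le_mul_of_nonneg_right t2 he0]
  have y3 : τ.2 * F ≤ β.2 * P.e := by rw [hFz]; linarith [mul_le_mul_of_nonneg_right t3 he0]
  have y4 : (β.2 + 1) * P.e ≤ τ.2 * F + F := by
    rw [hFz]; linarith [mul_le_mul_of_nonneg_right t4 he0]
  have x1 : (z.1 - 1) * (P.g * F : ℤ) ≤ τ.1 * F := by
    linarith [mul_le_mul_of_nonneg_right z1 hF0]
  have x2 : τ.1 * F + F ≤ (z.1 + 2) * (P.g * F : ℤ) := by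
    linarith [mul_le_mul_of_nonneg_right z2 hF0]
  have x3 : (z.2 - 1) * (P.g * F : ℤ) ≤ τ.2 * F := by
    linarith [mul_le_mul_of_nonneg_right z3 hF0]
  have x4 : τ.2 * F + F ≤ (z.2 + 2) * (P.g * F : ℤ) := by
    linarith [mul_le_mul_of_nonneg_right z4 hF0]
  have hbs : ∀ b' ∈ swin P.s b, τ.1 * F ≤ b'.1 ∧ b'.1 + 1 ≤ (τ.1 + 1) * F ∧
      τ.2 * F ≤ b'.2 ∧ b'.2 + 1 ≤ (τ.2 + 1) * F := by
    intro b' hb'
    have h := hb b' hb'
    rw [hT0eq] at h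
    exact idx_of_box_sub_box (by omega) h
  have hbmem : b ∈ swin P.s b := ⟨le_refl _, by omega, le_refl _, by omega⟩
  have hbmem2 : ((b.1 + 2 * P.s - 1, b.2 + 2 * P.s - 1) : Site) ∈ swin P.s b := by
    refine ⟨?_, ?_, ?_, ?_⟩ <;> simp only <;> omega
  obtain ⟨c1, -, c3, -⟩ := hbs b hbmem
  obtain ⟨-, c2, -, c4⟩ := hbs _ hbmem2
  simp only at c2 c4
  -- generalise the nonlinear quantities
  obtain ⟨X1, hX1⟩ : ∃ X : ℤ, X = τ.1 * F := ⟨_, rfl⟩
  obtain ⟨X2, hX2⟩ : ∃ X : ℤ, X = τ.2 * F := ⟨_, rfl⟩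
  have c2' : b.1 + 2 * P.s ≤ X1 + F := by rw [hX1]; linarith
  have c4' : b.2 + 2 * P.s ≤ X2 + F := by rw [hX2]; linarith
  rw [← hX1] at y1 y2 x1 x2 c1
  rw [← hX2] at y3 y4 x3 x4 c3
  have hDG : (P.T : ℤ) = (P.g * F : ℤ) * P.D := by rw [hTeq]; push_cast; ring
  have hs0 : (0 : ℤ) ≤ P.s := by positivity
  obtain ⟨Rg, hRg⟩ : ∃ Rg : Set Site, Rg = {y |
      ((z.1 - 1) * P.T - (3 * P.s + 6) * P.D ≤ y.1 ∧
        y.1 + 1 ≤ (z.1 + 2) * P.T + (3 * P.s + 6) * P.D) ∧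
      ((z.2 - 1) * P.T - (3 * P.s + 6) * P.D ≤ y.2 ∧
        y.2 + 1 ≤ (z.2 + 2) * P.T + (3 * P.s + 6) * P.D)} := ⟨_, rfl⟩
  have hreg : ∀ b' : Site, X1 - (P.s + 1) ≤ b'.1 → b'.1 + 1 ≤ X1 + F + (2 * P.s + 1) →
      X2 - (P.s + 1) ≤ b'.2 → b'.2 + 1 ≤ X2 + F + (2 * P.s + 1) → win P.D 2 b' ⊆ Rg := by
    rintro b' h1 h2 h3 h4 y ⟨q1, q2, q3, q4⟩
    push_cast at q1 q2 q3 q4
    rw [hRg]
    exact ⟨⟨gen_low hDG hD0 hs0 x1 h1 q1, gen_up hDG hD0 hs0 x2 h2 (by linarith)⟩,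
      ⟨gen_low hDG hD0 hs0 x3 h3 q3, gen_up hDG hD0 hs0 x4 h4 (by linarith)⟩⟩
  have hball : ∀ t : ℕ, t + (3 * P.s + 6) * P.D ≤ P.T → ∀ y ∈ Rg, ball y t ⊆ win P.T 2 z := by
    rintro t ht y hy x ⟨h1, h2⟩
    rw [hRg] at hy
    obtain ⟨⟨q1, q2⟩, ⟨q3, q4⟩⟩ := hy
    rw [abs_le] at h1 h2
    have ht' : (t : ℤ) + (3 * P.s + 6) * P.D ≤ P.T := by exact_mod_cast ht
    refine ⟨?_, ?_, ?_, ?_⟩ <;> push_cast <;> linarith
  have hno : ∀ t : ℕ, t + (3 * P.s + 6) * P.D ≤ P.T → ∀ y ∈ Rg, xi ω t y = 2 →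
      y ∈ obst Pt := by
    intro t ht y hy h2
    exact two_in_obst hPt (fun y' hy' h => (hAmem y').2 ⟨hball t ht y hy hy', h⟩) h2
  have hmono1 : ∀ t t' : ℕ, t ≤ t' → t' + (3 * P.s + 6) * P.D ≤ P.T → ∀ y ∈ Rg, y ∉ obst Pt →
      xi ω t y = 1 → xi ω t' y = 1 := by
    intro t t' htt ht' y hy hyo h1
    exact fin3_one h1 (xi_mono ω htt y) (fun h2 => hyo (hno t' ht' y hy h2))
  -- blocks near `b`
  have hRb : ∀ b' ∈ swin P.s b, win P.D 2 b' ⊆ Rg := by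
    rintro b' ⟨h1, h2, h3, h4⟩
    exact hreg b' (by linarith) (by linarith) (by linarith) (by linarith)
  have hwin12 : ∀ b' : Site, win P.D 1 b' ⊆ win P.D 2 b' := by
    rintro b' y ⟨q1, q2, q3, q4⟩
    push_cast at q1 q2 q3 q4
    refine ⟨?_, ?_, ?_, ?_⟩ <;> push_cast <;> linarith
  have hnoobst : ∀ y ∈ win P.D 1 b, y ∉ obst Pt := by
    rintro y hy ⟨Q, hQ, hyQ⟩
    obtain ⟨a, ha⟩ := mg_nonempty (hPt.1 Q hQ)
    refine hnuc2 a ?_ (hA2 a (mem_obst_sub hPt hQ ha))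
    have := hull_span (hspan Q hQ) hyQ ha
    rw [abs_le, abs_le] at this
    obtain ⟨q1, q2, q3, q4⟩ := hy
    have hk : (P.k : ℤ) ≤ P.D := by exact_mod_cast hkD
    push_cast at q1 q2 q3 q4
    refine ⟨?_, ?_, ?_, ?_⟩ <;> push_cast <;> linarith [this.1.1, this.1.2, this.2.1, this.2.2]
  -- the initial box
  have hd1 : 1 ≤ P.d := by have := hP.hd; omega
  have hw1 : 1 ≤ P.w := by have := hP.hw; omega
  have hw3 := hP.hw
  have hDw : (P.D : ℤ) = P.d * P.w := by simp only [Par.D]; push_cast; ring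
  have hwDz : (P.w : ℤ) ≤ P.D := by exact_mod_cast hwD
  have hboxw : ∀ y ∈ box P.w (b.1 * P.d, b.2 * P.d), (b.1 * P.D ≤ y.1 ∧ y.1 < b.1 * P.D + P.w) ∧
      (b.2 * P.D ≤ y.2 ∧ y.2 < b.2 * P.D + P.w) := by
    rintro y ⟨q1, q2, q3, q4⟩
    simp only at q1 q2 q3 q4
    rw [hDw]
    refine ⟨⟨?_, ?_⟩, ⟨?_, ?_⟩⟩ <;> linarith
  have hboxw1 : box P.w (b.1 * P.d, b.2 * P.d) ⊆ win P.D 1 b := by
    intro y hy
    obtain ⟨⟨q1, q2⟩, ⟨q3, q4⟩⟩ := hboxw y hy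
    refine ⟨?_, ?_, ?_, ?_⟩ <;> push_cast <;> linarith
  have htime0 := gen_time P.w P.s F P.D P.g 0 hs2 (by omega) hD20 hwD hP.hg (by omega)
  rw [← hTeq] at htime0
  have hfillw : ∀ y ∈ box P.w (b.1 * P.d, b.2 * P.d), xi ω (P.w ^ 2) y = 1 := by
    have hAL := al_fill ω P.w hw1 _ hnucAL (by
      intro s hs y h1 h2 h3 h4 hy2
      simp only at h1 h2 h3 h4
      have hyb : y ∈ win P.D 1 b := by
        refine ⟨?_, ?_, ?_, ?_⟩ <;> push_cast <;> linarith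
      exact hnoobst y hyb (hno s (by omega) y (hRb b hbmem (hwin12 b hyb)) hy2))
    intro y hy
    obtain ⟨⟨q1, q2⟩, ⟨q3, q4⟩⟩ := hboxw y hy
    exact hAL y q1 q2 q3 q4
  obtain ⟨ω', hω'⟩ : ∃ ω', ω' = updw P.w ω (b.1 * P.d, b.2 * P.d) := ⟨_, rfl⟩
  have hω1 : ∀ y ∈ box P.w (b.1 * P.d, b.2 * P.d), ω' y = 1 := by
    intro y hy; rw [hω']; simp only [updw]; rw [if_pos hy]
  have hω2 : ∀ y, y ∉ box P.w (b.1 * P.d, b.2 * P.d) → ω' y = ω y := by
    intro y hy; rw [hω']; simp only [updw]; rw [if_neg hy]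
  have htwo : ∀ y, ω' y = 2 ↔ ω y = 2 := by
    intro y
    by_cases hy : y ∈ box P.w (b.1 * P.d, b.2 * P.d)
    · rw [hω1 y hy]
      constructor
      · intro h; exact absurd h (by decide)
      · intro h; exact absurd h (hnuc2 y (hwin12 b (hboxw1 hy)))
    · rw [hω2 y hy]
  have hone : ∀ t : ℕ, P.w ^ 2 ≤ t → t + (3 * P.s + 6) * P.D ≤ P.T → ∀ y ∈ Rg, ω' y = 1 →
      y ∉ obst Pt → xi ω t y = 1 := by
    intro t ht ht' y hy h1 hyo
    by_cases hyb : y ∈ box P.w (b.1 * P.d, b.2 * P.d)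
    · exact hmono1 _ t ht ht' y hy hyo (hfillw y hyb)
    · exact hmono1 0 t (Nat.zero_le _) ht' y hy hyo (by rw [hω2 y hyb] at h1; exact h1)
  have hblk : ∀ (t : ℕ) (b' : Site), t + (3 * P.s + 6) * P.D ≤ P.T → win P.D 2 b' ⊆ Rg →
      BlkOk P.D ω ω' A Pt t b' := by
    intro t b' ht hb'
    refine blkOk_of hPt hA2 hspan hkD htwo ?_ ?_
    · intro y hy h2
      refine (hAmem y).2 ⟨hball 0 (by omega) y (hb' (hwin12 b' hy)) ⟨by simp, by simp⟩, h2⟩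
    · intro s hs y hy h2
      exact hno s (by omega) y (hb' (hwin12 b' hy)) h2
  -- the first block is filled
  have hfirst : Filled ω Pt P.D (P.w ^ 2 + 9 * P.D ^ 2) b := by
    refine dstep P.w P.d P.mw hP.hw hP.hd ω ω' b ?_ A Pt hPt (P.w ^ 2) ?_ ?_ ?_
    · rw [hω']; exact hnucG b hbmem
    · exact hblk _ b (by have : P.D = P.d * P.w := rfl
                         rw [← this]; omega) (hRb b hbmem)
    · intro y hy h1 hyo
      exact hone _ le_rfl (by omega) y (hRb b hbmem (hwin12 b hy)) h1 hyo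
    · right
      refine ⟨fun y hy h => hnuc2 y hy ((htwo y).1 h), (b.1 * P.d, b.2 * P.d), ?_, ?_⟩
      · have hd0 : (0 : ℤ) ≤ P.d := by positivity
        refine ⟨?_, ?_, ?_, ?_⟩ <;> push_cast <;> linarith
      · intro y hy
        exact hfillw y hy
  -- good blocks near `β`
  have hgoodβ : ∀ b' : Site, β.1 * P.e - 3 * P.s ≤ b'.1 → b'.1 < (β.1 + 1) * P.e + 3 * P.s →
      β.2 * P.e - 3 * P.s ≤ b'.2 → b'.2 < (β.2 + 1) * P.e + 3 * P.s →
      ¬ DBad P.w P.d P.mw ω b' := by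
    intro b' h1 h2 h3 h4 h
    exact hWb (Or.inl ⟨b', ⟨h1, h2, h3, h4⟩, h⟩)
  have hTT : P.T ≤ P.T - 1 + 1 := by omega
  have hs1 : (0 : ℤ) < P.s := by have : 0 < P.s := by omega
                                 exact_mod_cast this
  -- filling of the blocks near `β`
  have hfill : ∀ c : Site, β.1 * P.e - 1 ≤ c.1 → c.1 ≤ (β.1 + 1) * P.e →
      β.2 * P.e - 1 ≤ c.2 → c.2 ≤ (β.2 + 1) * P.e →
      ∃ t : ℕ, t + (3 * P.s + 6) * P.D + 1 ≤ P.T ∧ Filled ω Pt P.D t c := by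
    intro c h1 h2 h3 h4
    obtain ⟨j1, hj1⟩ : ∃ j1 : ℤ, j1 = (c.1 - b.1) / P.s := ⟨_, rfl⟩
    obtain ⟨j2, hj2⟩ : ∃ j2 : ℤ, j2 = (c.2 - b.2) / P.s := ⟨_, rfl⟩
    have k1 : P.s * j1 ≤ c.1 - b.1 := by rw [hj1]; exact Int.mul_ediv_self_le hs1.ne'
    have k2 : c.1 - b.1 < P.s * j1 + P.s := by rw [hj1]; exact Int.lt_mul_ediv_self_add hs1
    have k3 : P.s * j2 ≤ c.2 - b.2 := by rw [hj2]; exact Int.mul_ediv_self_le hs1.ne'
    have k4 : c.2 - b.2 < P.s * j2 + P.s := by rw [hj2]; exact Int.lt_mul_ediv_self_add hs1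
    have hn1 : (P.s : ℤ) * |j1| ≤ F := by
      have e := abs_mul (P.s : ℤ) j1
      rw [abs_of_pos hs1] at e
      rw [← e, abs_le]
      constructor <;> linarith
    have hn2 : (P.s : ℤ) * |j2| ≤ F := by
      have e := abs_mul (P.s : ℤ) j2
      rw [abs_of_pos hs1] at e
      rw [← e, abs_le]
      constructor <;> linarith
    obtain ⟨n, hn⟩ : ∃ n : ℕ, n = j1.natAbs + j2.natAbs := ⟨_, rfl⟩
    have hnF : P.s * n ≤ 2 * F + 2 * P.s := by
      have : (P.s : ℤ) * n ≤ 2 * F + 2 * P.s := by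
        rw [hn]; push_cast; linarith
      exact_mod_cast this
    have htime := gen_time P.w P.s F P.D P.g n hs2 (by omega) hD20 hwD hP.hg hnF
    rw [← hTeq] at htime
    have hend := wpath_end P.s b (j1, j2)
    simp only at hend
    rw [← hn] at hend
    have hbet := fun i => wpath_between P.s b (j1, j2) i
    simp only at hbet
    have hpos : ∀ i, X1 - P.s ≤ (wpath P.s b (j1, j2) i).1 ∧ (wpath P.s b (j1, j2) i).1 ≤ X1 + F ∧
        X2 - P.s ≤ (wpath P.s b (j1, j2) i).2 ∧ (wpath P.s b (j1, j2) i).2 ≤ X2 + F := by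
      intro i
      obtain ⟨⟨q1, q2⟩, ⟨q3, q4⟩⟩ := hbet i
      refine ⟨?_, ?_, ?_, ?_⟩
      · refine le_trans (le_min ?_ ?_) q1 <;> linarith
      · refine le_trans q2 (max_le ?_ ?_) <;> linarith
      · refine le_trans (le_min ?_ ?_) q3 <;> linarith
      · refine le_trans q4 (max_le ?_ ?_) <;> linarith
    have hRo : ∀ i, ∀ b' ∈ swin P.s (wpath P.s b (j1, j2) i), win P.D 2 b' ⊆ Rg := by
      rintro i b' ⟨h1, h2, h3, h4⟩
      obtain ⟨q1, q2, q3, q4⟩ := hpos i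
      exact hreg b' (by linarith) (by linarith) (by linarith) (by linarith)
    have hRgwin : Rg ⊆ win P.T 2 z := by
      intro y hy
      exact hball 0 (by omega) y hy ⟨by simp, by simp⟩
    have hbadC : ∀ i, BadSpan (swin P.s (wpath P.s b (j1, j2) i)) (dbad P.w P.d P.mw ω') P.m := by
      intro i C hC hCb hCc
      by_contra hcon
      apply hz
      right; left
      refine ⟨C, ?_, hCc, hcon⟩
      intro b' hb'
      refine ⟨(hRo i b' (hC hb')).trans hRgwin, ?_⟩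
      have := hCb hb'
      simp only [dbad, Set.mem_ofPred_eq] at this
      rw [hω'] at this
      exact dbad_updw _ _ _ _ _ _ this
    have hfin : ∀ b' ∈ swin P.s (wpath P.s b (j1, j2) n), b' ∉ dbad P.w P.d P.mw ω' := by
      rintro b' ⟨h1', h2', h3', h4'⟩ hbad
      rw [hend] at h1' h2' h3' h4'
      simp only at h1' h2' h3' h4'
      simp only [dbad, Set.mem_ofPred_eq] at hbad
      rw [hω'] at hbad
      exact hgoodβ b' (by linarith) (by linarith) (by linarith) (by linarith)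
        (dbad_updw _ _ _ _ _ _ hbad)
    have hms := hP.hs
    have hsp := sspread P.w P.d P.mw P.m P.s hP.hw hP.hd hP.hs ω ω' A Pt hPt
      (P.w ^ 2 + 9 * P.D ^ 2) n (wpath P.s b (j1, j2))
      (fun i hi => wpath_step P.s b (j1, j2) i (by simp only; rw [← hn]; exact hi))
      (fun i hi b' hb' => hblk _ b' (by
        have e1 : (i + 1) * (36 * P.s ^ 2 * (P.d * P.w) ^ 2) ≤
            (n + 1) * (36 * P.s ^ 2 * P.D ^ 2) := by
          have : P.D = P.d * P.w := rfl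
          rw [← this]; gcongr
        omega) (hRo i b' hb'))
      (fun i hi b' hb' y hy h1 hyo => hone _ (by omega) (by
        have : P.w ^ 2 + 9 * P.D ^ 2 ≤ P.w ^ 2 + 9 * P.D ^ 2 +
          (n + 1) * (36 * P.s ^ 2 * P.D ^ 2) := Nat.le_add_right _ _
        omega) y (hRo i b' hb' (hwin12 b' hy)) h1 hyo)
      (fun i hi => hbadC i)
      (by
        rw [wpath_zero]
        refine ⟨b, hbmem, ?_, hfirst⟩
        intro G hG
        exact swin_sub_giant hP.hs (fun b' hb' h => by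
          simp only [dbad, Set.mem_ofPred_eq] at h
          rw [hω'] at h
          exact hnucG b' hb' h) hG hbmem)
    obtain ⟨G, hG⟩ : ∃ G, IsGiant (swin P.s (wpath P.s b (j1, j2) n)) (dbad P.w P.d P.mw ω')
        P.m G := by
      have hbc := hbadC n
      rw [swin_eq_Icc] at hbc ⊢
      exact giant_exists _ _ P.m (by simp only; omega) (by simp only; omega) _ hbc
    have hcG : c ∈ G := by
      refine swin_sub_giant hP.hs hfin hG ?_
      rw [hend]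
      refine ⟨?_, ?_, ?_, ?_⟩ <;> simp only <;> linarith
    exact ⟨_, by have : P.D = P.d * P.w := rfl
                 rw [← this]; omega, hsp G hG c hcG⟩
  -- conclusion
  obtain ⟨r1, r2, r3, r4⟩ := hx
  have hD1 : 1 ≤ P.D := by omega
  have hWD : (P.W : ℤ) = P.e * P.D := by simp only [Par.W]; push_cast; ring
  have hblocks : ∀ y ∈ ball x 1, (β.1 * P.e - 1 ≤ y.1 / P.D ∧ y.1 / P.D ≤ (β.1 + 1) * P.e) ∧
      (β.2 * P.e - 1 ≤ y.2 / P.D ∧ y.2 / P.D ≤ (β.2 + 1) * P.e) := by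
    rintro y ⟨h1, h2⟩
    rw [abs_le] at h1 h2
    rw [hWD] at r1 r2 r3 r4
    refine ⟨⟨?_, ?_⟩, ⟨?_, ?_⟩⟩
    · rw [Int.le_ediv_iff_mul_le hD0]
      have : (β.1 * P.e - 1) * (P.D : ℤ) = β.1 * (P.e * P.D) - P.D := by ring
      rw [this]; linarith
    · have : y.1 / (P.D : ℤ) < (β.1 + 1) * P.e + 1 := by
        rw [Int.ediv_lt_iff_lt_mul hD0]
        have : ((β.1 + 1) * P.e + 1) * (P.D : ℤ) = (β.1 + 1) * (P.e * P.D) + P.D := by ring
        rw [this]; linarith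
      omega
    · rw [Int.le_ediv_iff_mul_le hD0]
      have : (β.2 * P.e - 1) * (P.D : ℤ) = β.2 * (P.e * P.D) - P.D := by ring
      rw [this]; linarith
    · have : y.2 / (P.D : ℤ) < (β.2 + 1) * P.e + 1 := by
        rw [Int.ediv_lt_iff_lt_mul hD0]
        have : ((β.2 + 1) * P.e + 1) * (P.D : ℤ) = (β.2 + 1) * (P.e * P.D) + P.D := by ring
        rw [this]; linarith
      omega
  have hxball : x ∈ ball x 1 := ⟨by simp, by simp⟩
  have hone1 : ∀ y ∈ ball x 1, y ∉ obst Pt → xi ω (P.T - 1) y = 1 := by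
    intro y hy hyo
    obtain ⟨⟨h1, h2⟩, ⟨h3, h4⟩⟩ := hblocks y hy
    obtain ⟨t, ht, hfl⟩ := hfill (y.1 / P.D, y.2 / P.D) h1 h2 h3 h4
    have hy1 := hfl y (mem_box_div hD1 y) hyo
    refine fin3_one hy1 (xi_mono ω (by omega) y) ?_
    intro h2'
    refine hyo (two_in_obst hPt (fun y' hy' h => (hAmem y').2 ⟨?_, h⟩) h2')
    obtain ⟨g1, g2⟩ := hy
    obtain ⟨g3, g4⟩ := hy'
    rw [abs_le] at g1 g2 g3 g4
    have hT1 : ((P.T - 1 : ℕ) : ℤ) = P.T - 1 := by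
      have : 1 ≤ P.T := by omega
      push_cast [this]; ring
    rw [hT1] at g3 g4
    have hTWz : (P.T : ℤ) = (P.g * P.f : ℤ) * P.W := by rw [hTW]; push_cast; ring
    have hW0 : (0 : ℤ) ≤ P.W := by positivity
    have m1 := mul_le_mul_of_nonneg_right b1 hW0
    have m2 := mul_le_mul_of_nonneg_right b2 hW0
    have m3 := mul_le_mul_of_nonneg_right b3 hW0
    have m4 := mul_le_mul_of_nonneg_right b4 hW0
    have u1 : (z.1 - 1) * (P.T : ℤ) ≤ β.1 * P.W := by rw [hTWz]; linarith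
    have u2 : (β.1 + 1) * (P.W : ℤ) ≤ (z.1 + 2) * P.T := by rw [hTWz]; linarith
    have u3 : (z.2 - 1) * (P.T : ℤ) ≤ β.2 * P.W := by rw [hTWz]; linarith
    have u4 : (β.2 + 1) * (P.W : ℤ) ≤ (z.2 + 2) * P.T := by rw [hTWz]; linarith
    refine ⟨?_, ?_, ?_, ?_⟩ <;> push_cast <;> linarith
  have hsmall := part_small (D := P.D) (b := (x.1 / P.D, x.2 / P.D)) (x := x) hPt hA2 hspan hkD
    (by
      intro h
      obtain ⟨⟨h1, h2⟩, ⟨h3, h4⟩⟩ := hblocks x hxball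
      have h5 : β.1 * P.e ≤ x.1 / P.D := by
        rw [Int.le_ediv_iff_mul_le hD0]; rw [hWD] at r1; linarith
      refine hgoodβ (x.1 / P.D, x.2 / P.D) ?_ ?_ ?_ ?_ (Or.inl h) <;> simp only <;> linarith)
    (by
      obtain ⟨q1, q2, q3, q4⟩ := mem_box_div hD1 x
      refine ⟨?_, ?_, ?_, ?_⟩ <;> push_cast <;> linarith)
  have hT1 : P.T = P.T - 1 + 1 := by omega
  rw [hT1]
  exact nonzero_of_filled ω A Pt hPt (P.T - 1) x hone1 hsmall

end TSB
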