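import Pool.Agent.TSB.Defs

/-! Two-stage bootstrap percolation (MP_a5207b_pr): the ones fill layer by layer. -/

open MeasureTheory
open scoped Classical

namespace TSB

private theorem onelay_step_le (ξ : Config) (x : Site) : ξ x ≤ step ξ x := by
  unfold step
  split_ifs with h1 h2 h3 h4
  · rw [h1]; exact Fin.zero_le _
  · rw [h1]
  · rw [h3]; decide
  · rw [h3]
  · exact Fin.le_last _

private theorem onelay_xi_mono (ω : Config) {s t : ℕ} (h : s ≤ t) (x : Site) :
    xi ω s x ≤ xi ω t x := by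
  induction t, h using Nat.le_induction with
  | base => exact le_rfl
  | succ n _ ih => exact ih.trans (onelay_step_le _ x)

private theorem onelay_nz (ω : Config) {s t : ℕ} (h : s ≤ t) (x : Site) (hx : xi ω s x ≠ 0) :
    xi ω t x ≠ 0 := by
  have h1 := onelay_xi_mono ω h x
  intro h0
  rw [h0] at h1
  exact hx (le_antisymm h1 (Fin.zero_le _))

private theorem onelay_eq_one {v : Fin 3} (h0 : v ≠ 0) (h2 : v ≠ 2) : v = 1 := by
  revert h0 h2; revert v; decide

private theorem onelay_cnt {S : Set Site} {x y z : Site} (hy : adj x y) (hz : adj x z)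
    (hyz : y ≠ z) (h1 : y ∈ S) (h2 : z ∈ S) : 2 ≤ cnt S x := by
  unfold cnt
  refine Finset.one_lt_card.mpr ⟨y, ?_, z, ?_, hyz⟩
  · exact Finset.mem_filter.mpr ⟨hy, h1⟩
  · exact Finset.mem_filter.mpr ⟨hz, h2⟩

private theorem onelay_next {ω : Config} {t : ℕ} {x y z : Site} (hy : adj x y) (hz : adj x z)
    (hyz : y ≠ z) (h1 : xi ω t y = 1) (h2 : xi ω t z = 1) : xi ω (t + 1) x ≠ 0 := by
  by_cases h0 : xi ω t x = 0
  · show step (xi ω t) x ≠ 0
    unfold step
    have hc : 2 ≤ cnt {y | xi ω t y = 1} x := onelay_cnt hy hz hyz h1 h2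
    rw [if_pos h0, if_pos hc]
    decide
  · exact onelay_nz ω (Nat.le_succ t) x h0

private theorem onelay_adj_right (i : Fin 4) (r y : ℤ) : adj (sd i r y) (sd i r (y + 1)) := by
  fin_cases i <;> simp [adj, nb, sd]

private theorem onelay_adj_left (i : Fin 4) (r y : ℤ) : adj (sd i r y) (sd i r (y - 1)) := by
  fin_cases i <;> simp [adj, nb, sd]

private theorem onelay_adj_in (i : Fin 4) (r y : ℤ) : adj (sd i (r + 1) y) (sd i r y) := by
  fin_cases i <;> simp [adj, nb, sd]

private theorem onelay_sd_ne_in (i : Fin 4) (r y y' : ℤ) :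
    sd i (r + 1) y ≠ sd i r y' := by
  fin_cases i <;> simp [sd]

private theorem onelay_sd_inj (i : Fin 4) (r y y' : ℤ) (h : sd i r y = sd i r y') : y = y' := by
  fin_cases i <;> simpa [sd] using h

private theorem onelay_lay_sd (i : Fin 4) (r : ℕ) (y : ℤ) (h1 : -(r : ℤ) ≤ y) (h2 : y ≤ r) :
    lay (sd i r y) = r := by
  have hy : |y| ≤ (r : ℤ) := abs_le.mpr ⟨h1, h2⟩
  have hr : |(r : ℤ)| = r := abs_of_nonneg (by positivity)
  fin_cases i <;> simp [sd, lay, hr, hy]

/-- the position of a two on a side -/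
private theorem onelay_ctrl_two {ω : Config} {r : ℕ} {h : Fin 4 → ℤ} (hr : 1 ≤ r)
    (c : CtrlLayer ω r h) (i : Fin 4) (y : ℤ) (h1 : -(r : ℤ) ≤ y) (h2 : y ≤ r)
    (hw : ω (sd i r y) = 2) : y = h i := by
  obtain ⟨j, hj⟩ := c.2 _ (onelay_lay_sd i r y h1 h2) hw
  have hz : ∀ k, -8 * (r : ℤ) ≤ 10 * h k ∧ 10 * h k ≤ 5 * (r : ℤ) := by
    intro k
    have h3 := (c.1 k).1
    unfold zoneOK at h3
    have h4 : r % 4 < 4 := Nat.mod_lt _ (by norm_num)
    have h5 : (0 : ℤ) ≤ (r : ℤ) := by positivity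
    rcases (by omega : r % 4 = 0 ∨ r % 4 = 1 ∨ r % 4 = 2 ∨ r % 4 = 3) with h | h | h | h <;>
      rw [h] at h3 <;> push_cast at h3 <;> constructor <;> nlinarith [h3.1, h3.2]
  have hzj := hz j
  have hr' : (1 : ℤ) ≤ r := by exact_mod_cast hr
  fin_cases i <;> fin_cases j <;> simp only [sd, Prod.mk.injEq] at hj <;> first
    | exact hj.2
    | exact hj.1
    | (exfalso; obtain ⟨h6, h7⟩ := hj; simp only [] at hzj; omega)

/-- the two positions of consecutive layers are far from each other and from the corners -/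
private theorem onelay_zone {r : ℕ} {a b : ℤ} (ha : zoneOK r a) (hb : zoneOK (r + 1) b) :
    -8 * (r : ℤ) ≤ 10 * a ∧ 10 * a ≤ 5 * r ∧ -8 * ((r : ℤ) + 1) ≤ 10 * b ∧
      10 * b ≤ 5 * ((r : ℤ) + 1) ∧ (3 * (r : ℤ) - 4 ≤ 10 * (b - a) ∨
        3 * (r : ℤ) - 4 ≤ 10 * (a - b)) := by
  unfold zoneOK at ha hb
  have h4 : r % 4 < 4 := Nat.mod_lt _ (by norm_num)
  have h5 : (0 : ℤ) ≤ (r : ℤ) := by positivity
  rcases (by omega : r % 4 = 0 ∨ r % 4 = 1 ∨ r % 4 = 2 ∨ r % 4 = 3) with h | h | h | h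
  · have h' : (r + 1) % 4 = 1 := by omega
    rw [h] at ha; rw [h'] at hb; push_cast at ha hb
    refine ⟨by linarith [ha.1], by linarith [ha.2], by linarith [hb.1], by linarith [hb.2],
      Or.inl (by linarith [ha.2, hb.1])⟩
  · have h' : (r + 1) % 4 = 2 := by omega
    rw [h] at ha; rw [h'] at hb; push_cast at ha hb
    refine ⟨by linarith [ha.1], by linarith [ha.2], by linarith [hb.1], by linarith [hb.2],
      Or.inl (by linarith [ha.2, hb.1])⟩
  · have h' : (r + 1) % 4 = 3 := by omega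
    rw [h] at ha; rw [h'] at hb; push_cast at ha hb
    refine ⟨by linarith [ha.1], by linarith [ha.2], by linarith [hb.1], by linarith [hb.2],
      Or.inl (by linarith [ha.2, hb.1])⟩
  · have h' : (r + 1) % 4 = 0 := by omega
    rw [h] at ha; rw [h'] at hb; push_cast at ha hb
    refine ⟨by linarith [ha.1], by linarith [ha.2], by linarith [hb.1], by linarith [hb.2],
      Or.inr (by linarith [ha.1, hb.2])⟩

/-- a piece of a side of the layer `r + 1` without twos fills up with ones -/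
private theorem onelay_piece (ω : Config) (i : Fin 4) (r g τ : ℕ) (a b : ℤ)
    (hin : ∀ s, τ ≤ s → s ≤ τ + g → ∀ y : ℤ, -(r : ℤ) ≤ y → y ≤ r → y ≠ a →
      xi ω s (sd i r y) = 1)
    (hne2 : ∀ s, s ≤ τ + g → ∀ y : ℤ, -(r : ℤ) ≤ y → y ≤ r → y ≠ b →
      xi ω s (sd i ((r : ℤ) + 1) y) ≠ 2)
    (u v : ℤ) (hu : -(r : ℤ) ≤ u) (hv : v ≤ r) (huv : (g : ℤ) ≤ v - u + 1)
    (hab : ∀ y : ℤ, u ≤ y → y ≤ v → y ≠ a ∧ y ≠ b) (hd : DenseSide ω (r + 1) g) :
    ∀ y : ℤ, u ≤ y → y ≤ v → xi ω (τ + g) (sd i ((r : ℤ) + 1) y) = 1 := by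
  -- spreading from one site
  have spread : ∀ y1 : ℤ, u ≤ y1 → y1 ≤ v → ω (sd i ((r : ℤ) + 1) y1) = 1 → ∀ k : ℕ, k ≤ g →
      ∀ y : ℤ, u ≤ y → y ≤ v → |y - y1| ≤ k → xi ω (τ + k) (sd i ((r : ℤ) + 1) y) = 1 := by
    intro y1 hy1 hy1' h1 k
    induction k with
    | zero =>
      intro _ y hy hy' hk
      have hyy : y = y1 := by
        have := abs_nonpos_iff.mp (by simpa using hk : |y - y1| ≤ 0)
        omega
      subst hyy
      refine onelay_eq_one ?_ (hne2 _ (by omega) y (by omega) (by omega) (hab y hy hy').2)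
      exact onelay_nz ω (Nat.zero_le _) _ (by
        show ω _ ≠ 0
        rw [h1]; decide)
    | succ k ih =>
      intro hk y hy hy' hky
      refine onelay_eq_one ?_ (hne2 _ (by omega) y (by omega) (by omega) (hab y hy hy').2)
      by_cases hc : |y - y1| ≤ k
      · have h2 := ih (by omega) y hy hy' hc
        exact onelay_nz ω (by omega : τ + k ≤ τ + (k + 1)) _ (by rw [h2]; decide)
      · have hinner := hin (τ + k) (by omega) (by omega) y (by omega) (by omega) (hab y hy hy').1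
        push_cast at hky
        rcases le_total y y1 with h | h
        · have hab1 : |y - y1| = y1 - y := by rw [abs_of_nonpos (by omega)]; ring
          have h3 := ih (by omega) (y + 1) (by omega) (by omega) (by
            rw [abs_of_nonpos (by omega)]; omega)
          exact onelay_next (onelay_adj_right i _ y) (onelay_adj_in i _ y)
            (onelay_sd_ne_in i _ _ _) h3 hinner
        · have hab1 : |y - y1| = y - y1 := abs_of_nonneg (by omega)
          have h3 := ih (by omega) (y - 1) (by omega) (by omega) (by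
            rw [abs_of_nonneg (by omega)]; omega)
          exact onelay_next (onelay_adj_left i _ y) (onelay_adj_in i _ y)
            (onelay_sd_ne_in i _ _ _) h3 hinner
  intro y hy hy'
  -- a window of `g` consecutive sites containing `y`
  obtain ⟨z, hz1, hz2, hz3, hz4⟩ : ∃ z : ℤ, u ≤ z ∧ z + g ≤ v + 1 ∧ z ≤ y ∧ y ≤ z + g := by
    by_cases hc : y + g ≤ v + 1
    · exact ⟨y, hy, hc, le_rfl, by omega⟩
    · exact ⟨v + 1 - g, by omega, by omega, by omega, by omega⟩
  obtain ⟨j, hj, hj1⟩ := hd i z (by push_cast; omega) (by push_cast; omega)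
  have hj2 : ω (sd i ((r : ℤ) + 1) (z + j)) = 1 := by
    have := hj1
    push_cast at this
    exact this
  exact spread (z + j) (by omega) (by omega) hj2 g le_rfl y hy hy' (by
    rw [abs_le]; constructor <;> omega)

private theorem onelay_theta_succ (j0 r2 g1 w r : ℕ) (h1 : 4 * j0 ≤ r) :
    theta j0 r2 g1 w (r + 1) = theta j0 r2 g1 w r + ((if r + 1 ≤ r2 then g1 else w) + 2) := by
  unfold theta
  split_ifs with h
  · have e1 : min (r + 1) r2 = r + 1 := min_eq_left h
    have e2 : min r r2 = r := min_eq_left (by omega)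
    have e3 : r + 1 - r2 = 0 := by omega
    have e4 : r - r2 = 0 := by omega
    have e5 : r + 1 - 4 * j0 = (r - 4 * j0) + 1 := by omega
    rw [e1, e2, e3, e4, e5]
    ring
  · have e1 : min (r + 1) r2 = r2 := min_eq_right (by omega)
    have e2 : min r r2 = r2 := min_eq_right (by omega)
    have e5 : r + 1 - r2 = (r - r2) + 1 := by omega
    rw [e1, e2, e5]
    ring

/-- the sites of a layer -/
private theorem onelay_cases (r : ℕ) (x : Site) (hx : lay x = (r : ℤ) + 1) :
    (∃ i : Fin 4, ∃ y : ℤ, -(r : ℤ) ≤ y ∧ y ≤ r ∧ x = sd i ((r : ℤ) + 1) y) ∨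
    (∃ e1 e2 : ℤ, (e1 = 1 ∨ e1 = -1) ∧ (e2 = 1 ∨ e2 = -1) ∧
      x = (e1 * ((r : ℤ) + 1), e2 * ((r : ℤ) + 1))) := by
  obtain ⟨p, q⟩ := x
  unfold lay at hx
  simp only at hx
  have hp : |p| ≤ (r : ℤ) + 1 := hx ▸ le_max_left _ _
  have hq : |q| ≤ (r : ℤ) + 1 := hx ▸ le_max_right _ _
  rw [abs_le] at hp hq
  have hor : |p| = (r : ℤ) + 1 ∨ |q| = (r : ℤ) + 1 := by
    rcases max_choice |p| |q| with h | h
    · left; rw [← h, hx]
    · right; rw [← h, hx]
  have hp1 : |p| = (r : ℤ) + 1 ↔ (p = (r : ℤ) + 1 ∨ p = -((r : ℤ) + 1)) :=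
    abs_eq (by positivity)
  have hq1 : |q| = (r : ℤ) + 1 ↔ (q = (r : ℤ) + 1 ∨ q = -((r : ℤ) + 1)) :=
    abs_eq (by positivity)
  rw [hp1, hq1] at hor
  by_cases cp : p = (r : ℤ) + 1
  · by_cases cq : q = (r : ℤ) + 1
    · exact Or.inr ⟨1, 1, Or.inl rfl, Or.inl rfl, by rw [cp, cq]; simp⟩
    · by_cases cq' : q = -((r : ℤ) + 1)
      · exact Or.inr ⟨1, -1, Or.inl rfl, Or.inr rfl, by rw [cp, cq']; simp⟩
      · exact Or.inl ⟨0, q, by omega, by omega, by rw [cp]; rfl⟩
  · by_cases cp' : p = -((r : ℤ) + 1)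
    · by_cases cq : q = (r : ℤ) + 1
      · exact Or.inr ⟨-1, 1, Or.inr rfl, Or.inl rfl, by rw [cp', cq]; simp⟩
      · by_cases cq' : q = -((r : ℤ) + 1)
        · exact Or.inr ⟨-1, -1, Or.inr rfl, Or.inr rfl, by rw [cp', cq']; simp⟩
        · exact Or.inl ⟨1, q, by omega, by omega, by rw [cp']; rfl⟩
    · have hq2 : q = (r : ℤ) + 1 ∨ q = -((r : ℤ) + 1) := by
        rcases hor with h | h
        · exfalso; tauto
        · exact h
      rcases hq2 with cq | cq
      · exact Or.inl ⟨2, p, by omega, by omega, by rw [cq]; rfl⟩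
      · exact Or.inl ⟨3, p, by omega, by omega, by rw [cq]; rfl⟩

/-- one layer -/
private theorem onelay_layer (ω : Config) (r g τ : ℕ) (h h' : Fin 4 → ℤ)
    (hbig : 5 * g + 40 ≤ r) (c : CtrlLayer ω r h) (c' : CtrlLayer ω (r + 1) h')
    (hd : DenseSide ω (r + 1) g)
    (ih : ∀ x, lay x ≤ r → xi ω τ x ≠ 0)
    (twos : ∀ t ≤ τ + (g + 2), ∀ x : Site, (r : ℤ) ≤ lay x → lay x ≤ r + 1 → xi ω t x = 2 →
      ω x = 2) :
    ∀ x, lay x ≤ (r : ℤ) + 1 → xi ω (τ + (g + 2)) x ≠ 0 := by
  have hr1 : 1 ≤ r := by omega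
  -- inner layer: ones
  have hin : ∀ i : Fin 4, ∀ s, τ ≤ s → s ≤ τ + g → ∀ y : ℤ, -(r : ℤ) ≤ y → y ≤ r → y ≠ h i →
      xi ω s (sd i r y) = 1 := by
    intro i s hs hs' y hy hy' hya
    have hl := onelay_lay_sd i r y hy hy'
    refine onelay_eq_one (onelay_nz ω hs _ (ih _ (by rw [hl]))) ?_
    intro h2
    exact hya (onelay_ctrl_two hr1 c i y hy hy'
      (twos s (by omega) _ (by rw [hl]) (by rw [hl]; omega) h2))
  have hne2 : ∀ i : Fin 4, ∀ s, s ≤ τ + g → ∀ y : ℤ, -(r : ℤ) ≤ y → y ≤ r → y ≠ h' i →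
      xi ω s (sd i ((r : ℤ) + 1) y) ≠ 2 := by
    intro i s hs y hy hy' hya h2
    have hl := onelay_lay_sd i (r + 1) y (by push_cast; omega) (by push_cast; omega)
    push_cast at hl
    apply hya
    refine onelay_ctrl_two (by omega) c' i y (by push_cast; omega) (by push_cast; omega) ?_
    push_cast
    exact twos s (by omega) _ (by rw [hl]; omega) (by rw [hl]) h2
  -- the sites of the sides different from `h i`, `h' i` are ones at time `τ + g`
  have hones : ∀ i : Fin 4, ∀ y : ℤ, -(r : ℤ) ≤ y → y ≤ r → y ≠ h i → y ≠ h' i →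
      xi ω (τ + g) (sd i ((r : ℤ) + 1) y) = 1 := by
    intro i y hy hy' hya hyb
    obtain ⟨z1, z2, z3, z4, z5⟩ := onelay_zone (c.1 i).1 (c'.1 i).1
    have piece := onelay_piece ω i r g τ (h i) (h' i) (hin i) (hne2 i)
    rcases z5 with z5 | z5
    · -- h i < h' i
      rcases lt_trichotomy y (h i) with k | k | k
      · exact piece (-r) (h i - 1) le_rfl (by omega) (by omega)
          (fun y _ _ => ⟨by omega, by omega⟩) hd y (by omega) (by omega)
      · exact absurd k hya
      · rcases lt_trichotomy y (h' i) with l | l | l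
        · exact piece (h i + 1) (h' i - 1) (by omega) (by omega) (by omega)
            (fun y _ _ => ⟨by omega, by omega⟩) hd y (by omega) (by omega)
        · exact absurd l hyb
        · exact piece (h' i + 1) r (by omega) le_rfl (by omega)
            (fun y _ _ => ⟨by omega, by omega⟩) hd y (by omega) (by omega)
    · rcases lt_trichotomy y (h' i) with k | k | k
      · exact piece (-r) (h' i - 1) le_rfl (by omega) (by omega)
          (fun y _ _ => ⟨by omega, by omega⟩) hd y (by omega) (by omega)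
      · exact absurd k hyb
      · rcases lt_trichotomy y (h i) with l | l | l
        · exact piece (h' i + 1) (h i - 1) (by omega) (by omega) (by omega)
            (fun y _ _ => ⟨by omega, by omega⟩) hd y (by omega) (by omega)
        · exact absurd l hya
        · exact piece (h i + 1) r (by omega) le_rfl (by omega)
            (fun y _ _ => ⟨by omega, by omega⟩) hd y (by omega) (by omega)
  intro x hx
  rcases lt_or_eq_of_le hx with hlt | heq
  · exact onelay_nz ω (by omega) x (ih x (by omega))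
  · rcases onelay_cases r x heq with ⟨i, y, hy, hy', rfl⟩ | ⟨e1, e2, he1, he2, rfl⟩
    · obtain ⟨z1, z2, z3, z4, z5⟩ := onelay_zone (c.1 i).1 (c'.1 i).1
      by_cases hb : y = h' i
      · have h2 := (c'.1 i).2
        push_cast at h2
        rw [hb]
        exact onelay_nz ω (Nat.zero_le _) _ (by
          show ω _ ≠ 0
          rw [h2]; decide)
      · by_cases ha : y = h i
        · have k1 := hones i (y - 1) (by omega) (by omega) (by omega) (by omega)
          have k2 := hones i (y + 1) (by omega) (by omega) (by omega) (by omega)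
          refine onelay_nz ω (by omega : τ + g + 1 ≤ τ + (g + 2)) _ ?_
          refine onelay_next (onelay_adj_left i _ y) (onelay_adj_right i _ y) ?_ k1 k2
          intro hh
          have := onelay_sd_inj i _ _ _ hh
          omega
        · exact onelay_nz ω (by omega : τ + g ≤ τ + (g + 2)) _ (by
            rw [hones i y hy hy' ha hb]; decide)
    · refine onelay_nz ω (by omega : τ + g + 1 ≤ τ + (g + 2)) _ ?_
      have hz : ∀ i, -(r : ℤ) < h i ∧ h i < r ∧ -(r : ℤ) < h' i ∧ h' i < r := by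
        intro i
        obtain ⟨z1, z2, z3, z4, z5⟩ := onelay_zone (c.1 i).1 (c'.1 i).1
        refine ⟨by omega, by omega, by omega, by omega⟩
      have key : ∀ (i j : Fin 4) (y y' : ℤ), (y = r ∨ y = -(r : ℤ)) → (y' = r ∨ y' = -(r : ℤ)) →
          adj (e1 * ((r : ℤ) + 1), e2 * ((r : ℤ) + 1)) (sd i ((r : ℤ) + 1) y) →
          adj (e1 * ((r : ℤ) + 1), e2 * ((r : ℤ) + 1)) (sd j ((r : ℤ) + 1) y') →
          sd i ((r : ℤ) + 1) y ≠ sd j ((r : ℤ) + 1) y' →
          xi ω (τ + g + 1) (e1 * ((r : ℤ) + 1), e2 * ((r : ℤ) + 1)) ≠ 0 := by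
        intro i j y y' hy hy' h1 h2 h3
        have zi := hz i
        have zj := hz j
        refine onelay_next h1 h2 h3 (hones i y ?_ ?_ ?_ ?_) (hones j y' ?_ ?_ ?_ ?_) <;> omega
      rcases he1 with rfl | rfl <;> rcases he2 with rfl | rfl
      · exact key 0 2 r r (Or.inl rfl) (Or.inl rfl) (by simp [adj, nb, sd])
          (by simp [adj, nb, sd]) (by simp [sd])
      · exact key 0 3 (-r) r (Or.inr rfl) (Or.inl rfl) (by simp [adj, nb, sd])
          (by simp [adj, nb, sd]) (by simp [sd])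
      · exact key 1 2 r (-r) (Or.inl rfl) (Or.inr rfl) (by simp [adj, nb, sd])
          (by simp [adj, nb, sd]) (by simp [sd])
      · exact key 1 3 (-r) (-r) (Or.inr rfl) (Or.inr rfl) (by simp [adj, nb, sd])
          (by simp [adj, nb, sd]) (by simp [sd])

theorem onelay (ω : Config) (j0 r2 R g1 w : ℕ) (hg : 2 * (g1 + 10) ≤ j0)
    (hr2 : 4 * j0 ≤ r2) (hw : 10 * (w + 10) ≤ r2) (hR : r2 ≤ R)
    (core : ∀ x, lay x ≤ 4 * j0 → ω x ≠ 0)
    (h : ℕ → Fin 4 → ℤ) (ctrl : ∀ r, 4 * j0 ≤ r → r ≤ R → CtrlLayer ω r (h r))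
    (dense1 : ∀ r, 4 * j0 < r → r ≤ r2 → DenseSide ω r g1)
    (dense2 : ∀ r, r2 < r → r ≤ R → DenseSide ω r w)
    (twos : ∀ r, 4 * j0 ≤ r → r < R → ∀ t ≤ theta j0 r2 g1 w (r + 1), ∀ x : Site,
      (r : ℤ) ≤ lay x → lay x ≤ r + 1 → xi ω t x = 2 → ω x = 2) :
    ∀ r, 4 * j0 ≤ r → r ≤ R → ∀ x, lay x ≤ r → xi ω (theta j0 r2 g1 w r) x ≠ 0 := by
  have _hR := hR
  have _hr2 := hr2
  intro r hr
  induction r, hr using Nat.le_induction with
  | base =>
    intro _ x hx
    exact onelay_nz ω (Nat.zero_le _) x (core x (by push_cast at hx; exact hx))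
  | succ r hr ih =>
    intro hrR x hx
    have hth := onelay_theta_succ j0 r2 g1 w r hr
    have tw := twos r hr (by omega)
    rw [hth] at tw ⊢
    refine onelay_layer ω r _ _ (h r) (h (r + 1)) ?_ (ctrl r hr (by omega))
      (ctrl (r + 1) (by omega) hrR) ?_ (ih (by omega)) tw x (by push_cast at hx; exact hx)
    · split_ifs with hc <;> omega
    · split_ifs with hc
      · exact dense1 (r + 1) (by omega) hc
      · exact dense2 (r + 1) (by omega) hrR

end TSB
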