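import Pool.Agent.TSB.Defs
import Pool.Agent.TSB.Dyn
import Pool.Agent.TSB.PartsA
import Pool.Agent.TSB.PartsB
import Pool.Agent.TSB.Chain2
import Pool.Agent.TSB.CtrlFar
import Pool.Agent.TSB.Blob

open MeasureTheory
open scoped Classical

namespace TSB

theorem speca_cnt2 {S : Set Site} {x : Site} (h : 2 ≤ cnt S x) :
    ∃ y z, adj x y ∧ adj x z ∧ y ≠ z ∧ y ∈ S ∧ z ∈ S := by
  unfold cnt at h
  obtain ⟨y, hy, z, hz, hyz⟩ := Finset.one_lt_card.mp h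
  rw [Finset.mem_filter] at hy hz
  exact ⟨y, z, hy.1, hz.1, hyz, hy.2, hz.2⟩

theorem speca_cnt2_mk {S : Set Site} {x y z : Site} (hy : adj x y) (hz : adj x z)
    (hyz : y ≠ z) (hyS : y ∈ S) (hzS : z ∈ S) : 2 ≤ cnt S x := by
  unfold cnt
  exact Finset.one_lt_card.mpr ⟨y, Finset.mem_filter.mpr ⟨hy, hyS⟩, z,
    Finset.mem_filter.mpr ⟨hz, hzS⟩, hyz⟩

theorem speca_lay_close {x y : Site} {n : ℤ} (h1 : |x.1 - y.1| ≤ n) (h2 : |x.2 - y.2| ≤ n) :
    lay x ≤ lay y + n := by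
  unfold lay
  have a1 := abs_sub_abs_le_abs_sub x.1 y.1
  have a2 := abs_sub_abs_le_abs_sub x.2 y.2
  have m1 := le_max_left |y.1| |y.2|
  have m2 := le_max_right |y.1| |y.2|
  apply max_le <;> linarith

theorem speca_abs_symm {x y : Site} {n : ℤ} (h : |x.1 - y.1| ≤ n ∧ |x.2 - y.2| ≤ n) :
    |y.1 - x.1| ≤ n ∧ |y.2 - x.2| ≤ n := by
  rw [abs_sub_comm y.1, abs_sub_comm y.2]; exact h

theorem speca_nb2 {x y z : Site} (hy : adj x y) (hz : adj x z) :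
    |y.1 - z.1| ≤ 2 ∧ |y.2 - z.2| ≤ 2 := by
  obtain ⟨a1, a2⟩ := dyn_adj_abs hy
  obtain ⟨b1, b2⟩ := dyn_adj_abs hz
  rw [abs_le] at a1 a2 b1 b2
  constructor <;> rw [abs_le] <;> constructor <;>
    linarith [a1.1, a1.2, a2.1, a2.2, b1.1, b1.2, b2.1, b2.2]

theorem speca_dirc_le (i : Fin 4) (y : Site) : (dirc i y).1 ≤ lay y := by
  unfold lay
  have m1 := le_max_left |y.1| |y.2|
  have m2 := le_max_right |y.1| |y.2|
  have a1 := le_abs_self y.1
  have a2 := neg_abs_le y.1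
  have a3 := le_abs_self y.2
  have a4 := neg_abs_le y.2
  fin_cases i <;> simp only [dirc] <;> linarith

theorem speca_dirc_ex (x : Site) : ∃ i : Fin 4, (dirc i x).1 = lay x := by
  unfold lay
  rcases le_total |x.1| |x.2| with h | h
  · rw [max_eq_right h]
    rcases le_total 0 x.2 with g | g
    · exact ⟨2, by simp only [dirc]; rw [abs_of_nonneg g]⟩
    · exact ⟨3, by simp only [dirc]; rw [abs_of_nonpos g]⟩
  · rw [max_eq_left h]
    rcases le_total 0 x.1 with g | g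
    · exact ⟨0, by simp only [dirc]; rw [abs_of_nonneg g]⟩
    · exact ⟨1, by simp only [dirc]; rw [abs_of_nonpos g]⟩

theorem speca_far (P : Par) (hP : P.Ok) (ω : Config) (h : ℕ → Fin 4 → ℤ) (hN : Nuc2 P ω h)
    (x y : Site) (hx : ω x = 2) (hy : ω y = 2) (hxy : x ≠ y) (h1 : (P.j0 : ℤ) < lay x)
    (h2 : lay x ≤ lay y) (h3 : lay y ≤ lay x + 3) (h4 : lay y ≤ 2 * (P.Rh : ℤ)) :
    lay x ≤ 10 * max |x.1 - y.1| |x.2 - y.2| := by
  have hj := hP.hj
  obtain ⟨r, hr⟩ : ∃ r : ℕ, (r : ℤ) = lay x := ⟨(lay x).toNat, by omega⟩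
  obtain ⟨r', hr'⟩ : ∃ r : ℕ, (r : ℤ) = lay y := ⟨(lay y).toNat, by omega⟩
  have := ctrl_far (ω := ω) (r := r) (r' := r') (h := h r) (h' := h r') (by omega) (by omega)
    (by omega) (hN.ctrl r (by omega) (by omega)) (hN.ctrl r' (by omega) (by omega)) x y hr.symm
    hr'.symm hx hy hxy
  rw [← hr]
  exact this

/-- two different twos at sup-distance at most two in the controlled region: impossible -/
theorem speca_far2 (P : Par) (hP : P.Ok) (ω : Config) (h : ℕ → Fin 4 → ℤ) (hN : Nuc2 P ω h)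
    (x y : Site) (hx : ω x = 2) (hy : ω y = 2) (hxy : x ≠ y) (h1 : (P.j0 : ℤ) < lay x)
    (h1' : (P.j0 : ℤ) < lay y) (hd : |x.1 - y.1| ≤ 2 ∧ |x.2 - y.2| ≤ 2)
    (h4 : lay x ≤ 2 * (P.Rh : ℤ)) (h4' : lay y ≤ 2 * (P.Rh : ℤ)) : False := by
  have hj : (1000 : ℤ) ≤ P.j0 := by exact_mod_cast hP.hj
  have hd' := speca_abs_symm hd
  have l1 := speca_lay_close hd.1 hd.2
  have l2 := speca_lay_close hd'.1 hd'.2
  rcases le_total (lay x) (lay y) with g | g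
  · have := speca_far P hP ω h hN x y hx hy hxy h1 g (by linarith) h4'
    have m : max |x.1 - y.1| |x.2 - y.2| ≤ 2 := max_le hd.1 hd.2
    linarith
  · have := speca_far P hP ω h hN y x hy hx hxy.symm h1' g (by linarith) h4
    have m : max |y.1 - x.1| |y.2 - x.2| ≤ 2 := max_le hd'.1 hd'.2
    linarith

theorem speca_span (k : ℕ) (hk : 1 ≤ k) (ω : Config) (R : Set Site)
    (hbig : ¬ BigPart k R ω) (Q : Finset Site) (hQ : Mg Q)
    (hR : ∀ x ∈ Q, ω x = 2 ∧ x ∈ R) : SpanLe k (Q : Set Site) := by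
  intro x hx y hy
  by_contra hc
  have h : (k : ℤ) ≤ |x.1 - y.1| ∨ (k : ℤ) ≤ |x.2 - y.2| := by
    rw [not_and_or] at hc
    rcases hc with h | h
    · left; linarith [not_le.mp h]
    · right; linarith [not_le.mp h]
  obtain ⟨B, hB, hBm, hBs, hBe⟩ := mg_span_inter hQ k hk ⟨x, hx, y, hy, h⟩
  exact hbig ⟨B, hBm, fun x hx => hR x (hB hx), hBs, hBe⟩

theorem speca_hull_close {Q : Finset Site} {k : ℕ} (hk : SpanLe k (Q : Set Site)) {z a : Site}
    (hz : z ∈ hull Q) (ha : a ∈ Q) : |a.1 - z.1| ≤ k ∧ |a.2 - z.2| ≤ k := by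
  obtain ⟨⟨p, hp, hp1⟩, ⟨p', hp', hp1'⟩, ⟨q, hq, hq1⟩, ⟨q', hq', hq1'⟩⟩ := hz
  have s1 := abs_le.mp (hk p hp a ha).1
  have s2 := abs_le.mp (hk p' hp' a ha).1
  have s3 := abs_le.mp (hk q hq a ha).2
  have s4 := abs_le.mp (hk q' hq' a ha).2
  constructor <;> rw [abs_le] <;> constructor <;> linarith [s1.1, s1.2, s2.1, s2.2, s3.1,
    s3.2, s4.1, s4.2]

theorem speca_card (P : Par) (hP : P.Ok) (ω : Config) (h : ℕ → Fin 4 → ℤ) (hN : Nuc2 P ω h)
    (Q : Finset Site) (hQ : Mg Q) (hk : SpanLe P.k (Q : Set Site))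
    (hR : ∀ x ∈ Q, ω x = 2 ∧ (P.Rh : ℤ) < lay x) (z : Site) (hz : z ∈ hull Q)
    (hl : lay z ≤ 2 * (P.Rh : ℤ) - 2 * P.k - 10) : Q.card = 1 := by
  have h1 : 1 ≤ Q.card := (mg_nonempty hQ).card_pos
  by_contra hc
  have h2 : 2 ≤ Q.card := by omega
  obtain ⟨x, hx, y, hy, hxy, hd⟩ := mg_pair hQ h2
  have hj : (100 : ℤ) * P.j0 ≤ P.Rh := by exact_mod_cast hP.hRj
  have e1 := speca_hull_close hk hz hx
  have e2 := speca_hull_close hk hz hy
  have l1 := speca_lay_close e1.1 e1.2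
  have l2 := speca_lay_close e2.1 e2.2
  have k0 : (0 : ℤ) ≤ P.k := by positivity
  have j0 : (0 : ℤ) ≤ P.j0 := by positivity
  have b1 := abs_nonneg (x.1 - y.1)
  have b2 := abs_nonneg (x.2 - y.2)
  exact speca_far2 P hP ω h hN x y (hR x hx).1 (hR y hy).1 hxy (by linarith [(hR x hx).2])
    (by linarith [(hR y hy).2]) ⟨by linarith, by linarith⟩ (by linarith) (by linarith)

theorem speca_obst (P : Par) (hP : P.Ok) (ω : Config) (h : ℕ → Fin 4 → ℤ) (hN : Nuc2 P ω h)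
    (A : Finset Site) (hA : ∀ x, x ∈ A ↔ ω x = 2 ∧ x ∈ annulus P.Rh P.Rs)
    (Pt : Finset (Finset Site)) (hPt : IsParts Pt A)
    (hk : ∀ Q ∈ Pt, SpanLe P.k (Q : Set Site)) (z : Site) (hz : z ∈ obst Pt)
    (hl : lay z ≤ 2 * (P.Rh : ℤ) - 2 * P.k - 10) : ω z = 2 ∧ (P.Rh : ℤ) < lay z := by
  obtain ⟨Q, hQ, hzQ⟩ := hz
  have hR : ∀ x ∈ Q, ω x = 2 ∧ (P.Rh : ℤ) < lay x := by
    intro x hx
    have := (hA x).mp ((hPt.2.2 x).mpr ⟨Q, hQ, hx⟩)
    exact ⟨this.1, this.2.1⟩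
  have hc := speca_card P hP ω h hN Q (hPt.1 Q hQ) (hk Q hQ) hR z hzQ hl
  obtain ⟨q, rfl⟩ := Finset.card_eq_one.mp hc
  have : z = q := by
    obtain ⟨⟨p, hp, hp1⟩, ⟨p', hp', hp1'⟩, ⟨r, hr, hr1⟩, ⟨r', hr', hr1'⟩⟩ := hzQ
    rw [Finset.mem_singleton] at hp hp' hr hr'
    subst hp hp' hr hr'
    exact Prod.ext (by omega) (by omega)
  rw [this]
  exact hR q (Finset.mem_singleton_self q)

/-- the obstacles seen by the blob argument -/
def specaO (P : Par) (ω : Config) (Pt : Finset (Finset Site)) : Set Site :=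
  {x | lay x ≤ P.j0} ∪ {x | ω x = 2 ∧ (P.j0 : ℤ) < lay x ∧ lay x ≤ P.Rh} ∪ obst Pt

theorem speca_blob (P : Par) (hP : P.Ok) (ω : Config) (h : ℕ → Fin 4 → ℤ) (hN : Nuc2 P ω h)
    (A : Finset Site) (hA : ∀ x, x ∈ A ↔ ω x = 2 ∧ x ∈ annulus P.Rh P.Rs)
    (Pt : Finset (Finset Site)) (hPt : IsParts Pt A)
    (hk : ∀ Q ∈ Pt, SpanLe P.k (Q : Set Site)) (r t : ℕ) (hr : P.j0 < r) (hr' : r + 4 ≤ P.Rh)
    (ht : 100 * t + 4 * (P.j0 + 1) ^ 2 ≤ r ^ 2) (x : Site) (hx : (r : ℤ) ≤ lay x)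
    (hl : lay x + t ≤ P.Rs) (h2 : xi ω t x = 2) : x ∈ specaO P ω Pt := by
  have hj : (1000 : ℤ) ≤ P.j0 := by exact_mod_cast hP.hj
  have hRj : (100 : ℤ) * P.j0 ≤ P.Rh := by exact_mod_cast hP.hRj
  have hRk : (100 : ℤ) * P.k ≤ P.Rh := by exact_mod_cast hP.hRk
  have hsub : {x | ω x = 2} ∩ ball x t ⊆ specaO P ω Pt := by
    rintro y ⟨hy, hyb⟩
    have hly : lay y ≤ P.Rs := by
      have := speca_lay_close hyb.1 hyb.2
      linarith
    rcases le_or_gt (lay y) P.j0 with g | g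
    · exact Or.inl (Or.inl g)
    · rcases le_or_gt (lay y) P.Rh with g' | g'
      · exact Or.inl (Or.inr ⟨hy, g, g'⟩)
      · exact Or.inr (sub_obst hPt ((hA y).mpr ⟨hy, g', hly⟩))
  have hb : x ∈ boot (specaO P ω Pt) t :=
    boot_mono hsub t (boot_local _ t x (xi_two_boot ω t h2))
  have two_of : ∀ z ∈ specaO P ω Pt, (P.j0 : ℤ) < lay z → lay z ≤ P.Rh + 4 → ω z = 2 := by
    rintro z ((hz | hz) | hz) hz1 hz2
    · exact absurd hz (not_le.mpr hz1)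
    · exact hz.1
    · exact (speca_obst P hP ω h hN A hA Pt hPt hk z hz (by linarith)).1
  refine blob (specaO P ω Pt) P.j0 P.Rh hP.hj (fun x hx => Or.inl (Or.inl hx)) ?_ ?_ r t hr hr'
    ht x hb hx
  · intro x hxO
    by_contra hc
    have hc2 : 2 ≤ cnt {y | y ∈ specaO P ω Pt ∧ (P.j0 : ℤ) < lay y} x := by omega
    obtain ⟨y, z, hy, hz, hyz, hyS, hzS⟩ := speca_cnt2 hc2
    have d3 := speca_nb2 hy hz
    have d3' := speca_abs_symm d3
    have l1 := speca_lay_close d3.1 d3.2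
    have l2 := speca_lay_close d3'.1 d3'.2
    by_cases hin : lay y ≤ P.Rh ∨ lay z ≤ P.Rh
    · have hy4 : lay y ≤ P.Rh + 4 := by rcases hin with g | g <;> linarith
      have hz4 : lay z ≤ P.Rh + 4 := by rcases hin with g | g <;> linarith
      exact speca_far2 P hP ω h hN y z (two_of y hyS.1 hyS.2 hy4) (two_of z hzS.1 hzS.2 hz4) hyz
        hyS.2 hzS.2 d3 (by linarith) (by linarith)
    · push Not at hin
      have ho : ∀ v ∈ specaO P ω Pt, (P.Rh : ℤ) < lay v → v ∈ obst Pt := by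
        rintro v ((hv | hv) | hv) hv1
        · have : lay v ≤ P.j0 := hv
          exfalso; linarith
        · exfalso; linarith [hv.2.2]
        · exact hv
      have := speca_cnt2_mk hy hz hyz (ho y hyS.1 hin.1) (ho z hzS.1 hin.2)
      have h1 := obst_cnt hPt (z := x) (fun hh => hxO (Or.inr hh))
      omega
  · intro x hx y hy hx1 hxy1 hxy2 hy1
    have t1 := two_of x hx hx1 (by linarith)
    have t2 := two_of y hy (by linarith) (by linarith)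
    exact speca_far P hP ω h hN x y t1 t2 (fun e => by rw [e] at hxy1; exact lt_irrefl _ hxy1)
      hx1 hxy1.le hxy2 (by linarith)

theorem speca_numT (P : Par) (hP : P.Ok) : 10 * P.Rh ≤ P.T ∧ 9 * P.T + P.T' ≤ P.Rs ∧
    2 * P.Rh * (P.w + 2) ≤ P.T' ∧ 1 ≤ P.T := by
  have hw := hP.hw
  have hd := hP.hd
  have hs := hP.hs
  have hf := hP.hf
  have hj := hP.hj
  have hRj := hP.hRj
  have hD : P.w * 2 ≤ P.D := by
    unfold Par.D
    calc P.w * 2 = 2 * P.w := by ring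
      _ ≤ P.d * P.w := Nat.mul_le_mul_right _ (by omega)
  have hsD : 12 ≤ P.s * P.D := by
    calc 12 = 2 * 6 := rfl
      _ ≤ P.s * P.D := Nat.mul_le_mul (by omega) (by omega)
  have hg : 1 ≤ P.g := by
    have := hP.hg
    have e : 400 * P.s * P.D = 400 * (P.s * P.D) := by ring
    omega
  have hT : P.W ≤ P.T := by
    unfold Par.T Par.T0
    calc P.W = 1 * (1 * P.W) := by ring
      _ ≤ P.g * (P.f * P.W) := Nat.mul_le_mul hg (Nat.mul_le_mul_right _ hf)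
  have hW := hP.hW
  have e1 : P.T' = 1000 * (P.s * P.D) * P.T := by unfold Par.T'; ring
  have e2 : P.Rs = 2000 * (P.s * P.D) * P.T := by unfold Par.Rs; ring
  refine ⟨by omega, ?_, ?_, by omega⟩
  · rw [e1, e2]
    have : 9 * P.T ≤ 1000 * (P.s * P.D) * P.T := Nat.mul_le_mul_right _ (by omega)
    nlinarith
  · rw [e1]
    have h1 : P.w + 2 ≤ 1000 * (P.s * P.D) := by
      have : P.D ≤ P.s * P.D := Nat.le_mul_of_pos_left _ (by omega)
      omega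
    calc 2 * P.Rh * (P.w + 2) ≤ P.T * (1000 * (P.s * P.D)) := Nat.mul_le_mul (by omega) h1
      _ = 1000 * (P.s * P.D) * P.T := by ring

/-- third part -/
theorem speca_p3 (P : Par) (hP : P.Ok) (ω : Config) (h : ℕ → Fin 4 → ℤ) (hN : Nuc2 P ω h)
    (hS : SpecOk P ω) (A : Finset Site)
    (hA : ∀ x, x ∈ A ↔ ω x = 2 ∧ x ∈ annulus P.Rh P.Rs)
    (Pt : Finset (Finset Site)) (hPt : IsParts Pt A)
    (hk : ∀ Q ∈ Pt, SpanLe P.k (Q : Set Site)) (t : ℕ) (x : Site) (h1 : (P.Rh : ℤ) < lay x)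
    (h9 : lay x ≤ 9 * P.T) (ht : t ≤ P.T') (h4 : 4 * (t : ℤ) ≤ P.v * lay x)
    (h2 : xi ω t x = 2) : x ∈ obst Pt := by
  obtain ⟨n1, n2, n3, n4⟩ := speca_numT P hP
  have n2' : (9 : ℤ) * P.T + P.T' ≤ P.Rs := by exact_mod_cast n2
  have ht' : (t : ℤ) ≤ P.T' := by exact_mod_cast ht
  rcases le_or_gt (2 * (P.Rh : ℤ)) (lay x) with g | g
  · by_contra hx
    obtain ⟨i, hi⟩ := speca_dirc_ex x
    obtain ⟨N, hN'⟩ : ∃ N : ℕ, (N : ℤ) = lay x - P.Rh := ⟨(lay x - P.Rh).toNat, by omega⟩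
    have hsub : {x | ω x = 2} ∩ ball x t ⊆ {y | (dirc i y).1 ≤ (P.Rh : ℤ)} ∪ obst Pt := by
      rintro y ⟨hy, hyb⟩
      have hly : lay y ≤ P.Rs := by
        have := speca_lay_close hyb.1 hyb.2
        linarith
      rcases le_or_gt (lay y) P.Rh with g' | g'
      · exact Or.inl ((speca_dirc_le i y).trans g')
      · exact Or.inr (sub_obst hPt ((hA y).mpr ⟨hy, g', hly⟩))
    have hb := boot_mono hsub t (boot_local _ t x (xi_two_boot ω t h2))
    obtain ⟨f, f1, f2, f3⟩ := seeds_chain i A Pt hPt P.k hk P.Rh N (by omega) t x hx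
      (by rw [hi]; omega) hb
    refine hS.chain i N (by omega) (by omega) ⟨f, fun j hj => (hA _).mp (f1 j hj), f2, ?_⟩
    refine f3.trans ?_
    have v0 : (0 : ℤ) ≤ P.v := by positivity
    have : (t : ℤ) ≤ N * P.v := by
      have e : lay x ≤ 2 * N := by linarith
      have := mul_le_mul_of_nonneg_left e v0
      nlinarith
    push_cast
    linarith
  · have hj := hP.hj
    have hRj := hP.hRj
    have hv := hP.hv
    have hO := speca_blob P hP ω h hN A hA Pt hPt hk (P.Rh - 4) t (by omega) (by omega) (by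
      have e1 : 4 * (t : ℤ) ≤ P.v * (2 * P.Rh) := by
        have v0 : (0 : ℤ) ≤ P.v := by positivity
        have := mul_le_mul_of_nonneg_left g.le v0
        linarith
      have e2 : (100 : ℤ) * P.v ≤ P.Rh := by exact_mod_cast hv
      have e3 : (100 : ℤ) * P.j0 ≤ P.Rh := by exact_mod_cast hRj
      have e4 : (1000 : ℤ) ≤ P.j0 := by exact_mod_cast hj
      have R0 : (0 : ℤ) ≤ P.Rh := by positivity
      have e5 := mul_le_mul_of_nonneg_right e2 R0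
      have e6 : (((100 * t + 4 * (P.j0 + 1) ^ 2 : ℕ)) : ℤ) ≤ (((P.Rh - 4) ^ 2 : ℕ) : ℤ) := by
        push_cast [show 4 ≤ P.Rh by omega]
        have e7 : 200 * (t : ℤ) ≤ (P.Rh : ℤ) * P.Rh := by nlinarith
        have e8 : 10000 * ((P.j0 : ℤ) * P.j0) ≤ P.Rh * P.Rh := by nlinarith
        nlinarith
      exact_mod_cast e6) x (by omega) (by linarith) h2
    rcases hO with (hO | hO) | hO
    · exfalso
      have : lay x ≤ P.j0 := hO
      omega
    · exfalso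
      linarith [hO.2.2]
    · exact hO

theorem speca_theta (P : Par) (hP : P.Ok) (hgw : P.g1 ≤ P.w) (r t : ℕ) (hr : 4 * P.j0 ≤ r)
    (hr2 : r < 2 * P.Rh) (ht : t ≤ theta P.j0 P.r2 P.g1 P.w (r + 1)) :
    t ≤ 2 * P.Rh * (P.w + 2) ∧
    100 * t + 4 * (P.j0 + 1) ^ 2 ≤ (min r (P.Rh - 4)) ^ 2 := by
  have hj := hP.hj
  have hj1 := hP.hj1
  have h2 := hP.hr2
  have h2w := hP.hr2w
  have hRr := hP.hRr
  have hRw := hP.hRw
  have hRj := hP.hRj
  unfold theta at ht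
  constructor
  · refine ht.trans ?_
    calc (min (r + 1) P.r2 - 4 * P.j0) * (P.g1 + 2) + (r + 1 - P.r2) * (P.w + 2)
        ≤ (min (r + 1) P.r2 - 4 * P.j0) * (P.w + 2) + (r + 1 - P.r2) * (P.w + 2) := by gcongr
      _ = ((min (r + 1) P.r2 - 4 * P.j0) + (r + 1 - P.r2)) * (P.w + 2) := by ring
      _ ≤ 2 * P.Rh * (P.w + 2) := Nat.mul_le_mul_right _ (by omega)
  · -- bound of 100 t
    have b1 : 100 * ((min (r + 1) P.r2 - 4 * P.j0) * (P.g1 + 2)) ≤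
        (min (r + 1) P.r2 - 4 * P.j0) * P.j0 := by
      calc 100 * ((min (r + 1) P.r2 - 4 * P.j0) * (P.g1 + 2))
          = (min (r + 1) P.r2 - 4 * P.j0) * (100 * (P.g1 + 2)) := by ring
        _ ≤ _ := Nat.mul_le_mul_left _ (by omega)
    rcases le_or_gt r (P.Rh - 4) with g | g
    · rw [min_eq_left g]
      rcases le_or_gt (r + 1) P.r2 with g2 | g2
      · have e1 : r + 1 - P.r2 = 0 := by omega
        have e2 : min (r + 1) P.r2 = r + 1 := min_eq_left g2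
        rw [e1, e2] at ht
        rw [e2] at b1
        have b2 : 100 * t ≤ (r + 1 - 4 * P.j0) * P.j0 := by omega
        have b3 : ((r + 1 - 4 * P.j0) + 4 * P.j0) * P.j0 = (r + 1) * P.j0 := by
          congr 1; omega
        nlinarith
      · have e2 : min (r + 1) P.r2 = P.r2 := min_eq_right (by omega)
        rw [e2] at b1 ht
        obtain ⟨c, hc⟩ : ∃ c, r + 1 = P.r2 + c := ⟨r + 1 - P.r2, by omega⟩
        have e3 : r + 1 - P.r2 = c := by omega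
        rw [e3] at ht
        have b3 : ((P.r2 - 4 * P.j0) + 4 * P.j0) * P.j0 = P.r2 * P.j0 := by
          congr 1; omega
        have b4 : 300 * (c * (P.w + 2)) ≤ c * P.r2 := by
          calc 300 * (c * (P.w + 2)) = c * (300 * (P.w + 2)) := by ring
            _ ≤ _ := Nat.mul_le_mul_left _ (by omega)
        have b5 : 300 * t ≤ 3 * ((P.r2 - 4 * P.j0) * P.j0) + c * P.r2 := by
          have := Nat.mul_le_mul_left 300 ht
          nlinarith
        have b3' : (P.r2 - 4 * P.j0) * P.j0 + 4 * (P.j0 * P.j0) = P.r2 * P.j0 := by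
          rw [← b3]; ring
        have b6 : 4 * (P.r2 * P.j0) ≤ P.r2 * P.r2 := by
          calc 4 * (P.r2 * P.j0) = P.r2 * (4 * P.j0) := by ring
            _ ≤ _ := Nat.mul_le_mul_left _ h2
        have b7 : 4 * (c * P.r2) ≤ (r + 1) * (r + 1) := by
          rw [hc]
          have := four_mul_le_sq_add P.r2 c
          calc 4 * (c * P.r2) = 4 * P.r2 * c := by ring
            _ ≤ (P.r2 + c) ^ 2 := this
            _ = _ := by ring
        have b8 : P.r2 * P.r2 ≤ r * r := Nat.mul_le_mul (by omega) (by omega)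
        have b9 : 4000 * r ≤ r * r := Nat.mul_le_mul_right _ (by omega)
        have b10 : (r + 1) * (r + 1) = r * r + 2 * r + 1 := by ring
        have b11 : 4 * (P.j0 + 1) ^ 2 = 4 * (P.j0 * P.j0) + 8 * P.j0 + 4 := by ring
        rw [b11, pow_two]
        omega
    · rw [min_eq_right g.le]
      have b2 : (min (r + 1) P.r2 - 4 * P.j0) * P.j0 ≤ P.Rh * P.j0 :=
        Nat.mul_le_mul_right _ (by omega)
      have b3 : 1000 * ((r + 1 - P.r2) * (P.w + 2)) ≤ 2 * P.Rh * P.Rh := by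
        calc 1000 * ((r + 1 - P.r2) * (P.w + 2)) = (r + 1 - P.r2) * (1000 * (P.w + 2)) := by ring
          _ ≤ 2 * P.Rh * P.Rh := Nat.mul_le_mul (by omega) (by omega)
      have b4 : 1000 * t ≤ 10 * (P.Rh * P.j0) + 2 * P.Rh * P.Rh := by
        have := Nat.mul_le_mul_left 1000 ht
        nlinarith
      have e6 : (((100 * t + 4 * (P.j0 + 1) ^ 2 : ℕ)) : ℤ) ≤ (((P.Rh - 4) ^ 2 : ℕ) : ℤ) := by
        push_cast [show 4 ≤ P.Rh by omega]
        have c1 : (1000 : ℤ) * t ≤ 10 * (P.Rh * P.j0) + 2 * P.Rh * P.Rh := by exact_mod_cast b4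
        have e3 : (100 : ℤ) * P.j0 ≤ P.Rh := by exact_mod_cast hRj
        have e4 : (1000 : ℤ) ≤ P.j0 := by exact_mod_cast hj
        have R0 : (0 : ℤ) ≤ P.Rh := by positivity
        have e5 := mul_le_mul_of_nonneg_right e3 R0
        have e8 : 10000 * ((P.j0 : ℤ) * P.j0) ≤ P.Rh * P.Rh := by nlinarith
        nlinarith
      exact_mod_cast e6

theorem speca_aux (P : Par) (hP : P.Ok) (hgw : P.g1 ≤ P.w) (ω : Config) (h : ℕ → Fin 4 → ℤ)
    (hN : Nuc2 P ω h) (hS : SpecOk P ω) (A : Finset Site)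
    (hA : ∀ x, x ∈ A ↔ ω x = 2 ∧ x ∈ annulus P.Rh P.Rs) (Pt : Finset (Finset Site))
    (hPt : IsParts Pt A) :
    (∀ Q ∈ Pt, SpanLe P.k (Q : Set Site)) ∧
    (∀ Q ∈ Pt, (∃ z ∈ hull Q, lay z ≤ 2 * (P.Rh : ℤ) - 2 * P.k - 10) → Q.card = 1) ∧
    (∀ (t : ℕ) (x : Site), (P.Rh : ℤ) < lay x → lay x ≤ 9 * P.T → t ≤ P.T' →
      4 * (t : ℤ) ≤ P.v * lay x → xi ω t x = 2 → x ∈ obst Pt) ∧
    (∀ r : ℕ, 4 * P.j0 ≤ r → (r : ℤ) < 2 * (P.Rh : ℤ) - 2 * P.k - 10 →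
      ∀ t ≤ theta P.j0 P.r2 P.g1 P.w (r + 1), ∀ x : Site, (r : ℤ) ≤ lay x → lay x ≤ r + 1 →
        xi ω t x = 2 → ω x = 2) := by
  have hR : ∀ Q ∈ Pt, ∀ x ∈ Q, ω x = 2 ∧ x ∈ annulus P.Rh P.Rs := fun Q hQ x hx =>
    (hA x).mp ((hPt.2.2 x).mpr ⟨Q, hQ, hx⟩)
  have hk : ∀ Q ∈ Pt, SpanLe P.k (Q : Set Site) := fun Q hQ =>
    speca_span P.k hP.hk ω _ hS.big Q (hPt.1 Q hQ) (hR Q hQ)
  refine ⟨hk, ?_, ?_, ?_⟩
  · rintro Q hQ ⟨z, hz, hl⟩
    exact speca_card P hP ω h hN Q (hPt.1 Q hQ) (hk Q hQ)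
      (fun x hx => ⟨(hR Q hQ x hx).1, (hR Q hQ x hx).2.1⟩) z hz hl
  · intro t x h1 h9 ht h4 h2
    exact speca_p3 P hP ω h hN hS A hA Pt hPt hk t x h1 h9 ht h4 h2
  · intro r hr hr2 t ht x hx hx1 h2
    have hj := hP.hj
    have hRj := hP.hRj
    obtain ⟨n1, n2, n3, n4⟩ := speca_numT P hP
    obtain ⟨q1, q2⟩ := speca_theta P hP hgw r t hr (by omega) ht
    have hO := speca_blob P hP ω h hN A hA Pt hPt hk (min r (P.Rh - 4)) t (by omega) (by omega)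
      q2 x (by omega) (by omega) h2
    rcases hO with (hO | hO) | hO
    · exfalso
      have : lay x ≤ P.j0 := hO
      omega
    · exact hO.1
    · exact (speca_obst P hP ω h hN A hA Pt hPt hk x hO (by omega)).1

/-- SPECA: control of the twos. -/
theorem speca (P : Par) (hP : P.Ok) (ω : Config) (h : ℕ → Fin 4 → ℤ) (hN : Nuc2 P ω h)
    (hS : SpecOk P ω) (A : Finset Site)
    (hA : ∀ x, x ∈ A ↔ ω x = 2 ∧ x ∈ annulus P.Rh P.Rs) (Pt : Finset (Finset Site))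
    (hPt : IsParts Pt A) :
    (∀ Q ∈ Pt, SpanLe P.k (Q : Set Site)) ∧
    (∀ Q ∈ Pt, (∃ z ∈ hull Q, lay z ≤ 2 * (P.Rh : ℤ) - 2 * P.k - 10) → Q.card = 1) ∧
    (∀ (t : ℕ) (x : Site), (P.Rh : ℤ) < lay x → lay x ≤ 9 * P.T → t ≤ P.T' →
      4 * (t : ℤ) ≤ P.v * lay x → xi ω t x = 2 → x ∈ obst Pt) ∧
    (∀ r : ℕ, 4 * P.j0 ≤ r → (r : ℤ) < 2 * (P.Rh : ℤ) - 2 * P.k - 10 →
      ∀ t ≤ theta P.j0 P.r2 P.g1 P.w (r + 1), ∀ x : Site, (r : ℤ) ≤ lay x → lay x ≤ r + 1 →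
        xi ω t x = 2 → ω x = 2) :=
  speca_aux P hP hP.hgw ω h hN hS A hA Pt hPt

end TSB
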