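import Pool.Agent.TSB.Dyn
import Pool.Agent.TSB.PartsA
import Pool.Agent.TSB.PartsB
import Pool.Agent.TSB.Giant
import Pool.Agent.TSB.Nonzero
import Pool.Agent.TSB.Onelay
import Pool.Agent.TSB.Speca
import Pool.Agent.TSB.Sspread

/-! Module SPECB: the ones fill the neighbourhood of the nucleus. -/

open MeasureTheory
open scoped Classical

set_option linter.unusedTactic false
set_option linter.unreachableTactic false

namespace TSB

/-- index of a window in the direction `i`, radial coordinate `a`, transversal coordinate `c` -/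
private def wd (i : Fin 4) (a c : ℤ) : Site :=
  match i with
  | 0 => (a, c)
  | 1 => (-a - 2, c)
  | 2 => (c, a)
  | 3 => (c, -a - 2)

private theorem win2_bounds (s D : ℕ) (o b : Site) (hb : b ∈ swin s (s * o.1, s * o.2))
    (x : Site) (hx : x ∈ win D 2 b) :
    (o.1 * (s * D) - 2 * D ≤ x.1 ∧ x.1 < (o.1 + 2) * (s * D) + 2 * D) ∧
      (o.2 * (s * D) - 2 * D ≤ x.2 ∧ x.2 < (o.2 + 2) * (s * D) + 2 * D) := by
  obtain ⟨h1, h2, h3, h4⟩ := hb
  obtain ⟨k1, k2, k3, k4⟩ := hx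
  have hD : (0 : ℤ) ≤ D := Int.natCast_nonneg D
  push_cast at k1 k2 k3 k4
  have e1 := mul_le_mul_of_nonneg_right h1 hD
  have e2 : b.1 * D ≤ (s * o.1 + 2 * s - 1) * D :=
    mul_le_mul_of_nonneg_right (by simp only at h2; linarith) hD
  have e3 := mul_le_mul_of_nonneg_right h3 hD
  have e4 : b.2 * D ≤ (s * o.2 + 2 * s - 1) * D :=
    mul_le_mul_of_nonneg_right (by simp only at h4; linarith) hD
  simp only at e1 e2 e3 e4
  refine ⟨⟨?_, ?_⟩, ⟨?_, ?_⟩⟩ <;> nlinarith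

private theorem wd_bounds (s D : ℕ) (i : Fin 4) (a c : ℤ) (ha : 0 ≤ a) (hc : |c| ≤ a + 2)
    (b : Site) (hb : b ∈ swin s (s * (wd i a c).1, s * (wd i a c).2))
    (x : Site) (hx : x ∈ win D 2 b) :
    a * (s * D) - 2 * D ≤ lay x ∧ lay x ≤ (a + 4) * (s * D) + 2 * D := by
  have h := win2_bounds s D (wd i a c) b hb x hx
  obtain ⟨⟨h1, h2⟩, ⟨h3, h4⟩⟩ := h
  have hsD : (0 : ℤ) ≤ (s : ℤ) * D := by positivity
  have hc1 : c ≤ a + 2 := (le_abs_self c).trans hc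
  have hc2 : -c ≤ a + 2 := (neg_le_abs c).trans hc
  have m1 : c * (s * D) ≤ (a + 2) * ((s : ℤ) * D) := mul_le_mul_of_nonneg_right hc1 hsD
  have m2 : -c * (s * D) ≤ (a + 2) * ((s : ℤ) * D) := mul_le_mul_of_nonneg_right hc2 hsD
  have m3 : 0 ≤ a * ((s : ℤ) * D) := mul_nonneg ha hsD
  have hD : (0 : ℤ) ≤ D := Int.natCast_nonneg D
  unfold lay
  fin_cases i <;> simp only [wd] at h1 h2 h3 h4
  · constructor
    · refine le_max_of_le_left (le_trans ?_ (le_abs_self _)); linarith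
    · refine max_le (abs_le.2 ⟨?_, ?_⟩) (abs_le.2 ⟨?_, ?_⟩) <;> nlinarith
  · constructor
    · refine le_max_of_le_left (le_trans ?_ (neg_le_abs _)); nlinarith
    · refine max_le (abs_le.2 ⟨?_, ?_⟩) (abs_le.2 ⟨?_, ?_⟩) <;> nlinarith
  · constructor
    · refine le_max_of_le_right (le_trans ?_ (le_abs_self _)); linarith
    · refine max_le (abs_le.2 ⟨?_, ?_⟩) (abs_le.2 ⟨?_, ?_⟩) <;> nlinarith
  · constructor
    · refine le_max_of_le_right (le_trans ?_ (neg_le_abs _)); nlinarith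
    · refine max_le (abs_le.2 ⟨?_, ?_⟩) (abs_le.2 ⟨?_, ?_⟩) <;> nlinarith

/-- the start windows are close -/
private theorem wd_start (s D : ℕ) (i : Fin 4) (a : ℤ) (ha : 0 ≤ a)
    (b : Site) (hb : b ∈ swin s (s * (wd i a 0).1, s * (wd i a 0).2))
    (x : Site) (hx : x ∈ win D 2 b) : lay x ≤ (a + 2) * (s * D) + 2 * D := by
  have h := win2_bounds s D (wd i a 0) b hb x hx
  obtain ⟨⟨h1, h2⟩, ⟨h3, h4⟩⟩ := h
  have hsD : (0 : ℤ) ≤ (s : ℤ) * D := by positivity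
  have m3 : 0 ≤ a * ((s : ℤ) * D) := mul_nonneg ha hsD
  have hD : (0 : ℤ) ≤ D := Int.natCast_nonneg D
  unfold lay
  fin_cases i <;> simp only [wd] at h1 h2 h3 h4 <;>
    (refine max_le (abs_le.2 ⟨?_, ?_⟩) (abs_le.2 ⟨?_, ?_⟩) <;> nlinarith)

/-- every window is `wd i a c` with `|c| ≤ a + 2` -/
private theorem exists_wd (o : Site) :
    ∃ (i : Fin 4) (c : ℤ), wd i (max (max o.1 (-o.1 - 2)) (max o.2 (-o.2 - 2))) c = o ∧
      |c| ≤ max (max o.1 (-o.1 - 2)) (max o.2 (-o.2 - 2)) + 2 := by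
  set M := max (max o.1 (-o.1 - 2)) (max o.2 (-o.2 - 2)) with hM
  have h1 : o.1 ≤ M := (le_max_left _ _).trans (le_max_left _ _)
  have h2 : -o.1 - 2 ≤ M := (le_max_right _ _).trans (le_max_left _ _)
  have h3 : o.2 ≤ M := (le_max_left _ _).trans (le_max_right _ _)
  have h4 : -o.2 - 2 ≤ M := (le_max_right _ _).trans (le_max_right _ _)
  have h5 : M = o.1 ∨ M = -o.1 - 2 ∨ M = o.2 ∨ M = -o.2 - 2 := by omega
  rcases h5 with h | h | h | h
  · refine ⟨0, o.2, ?_, abs_le.2 ⟨by linarith, by linarith⟩⟩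
    exact Prod.ext h rfl
  · refine ⟨1, o.2, ?_, abs_le.2 ⟨by linarith, by linarith⟩⟩
    exact Prod.ext (by simp only [wd]; linarith) rfl
  · refine ⟨2, o.1, ?_, abs_le.2 ⟨by linarith, by linarith⟩⟩
    exact Prod.ext rfl h
  · refine ⟨3, o.1, ?_, abs_le.2 ⟨by linarith, by linarith⟩⟩
    exact Prod.ext rfl (by simp only [wd]; linarith)


/-- the path of windows -/
private def pth (s : ℕ) (i : Fin 4) (J n1 : ℕ) (σ : ℤ) (k : ℕ) : Site :=
  (s * (wd i (J + min k n1 : ℕ) (σ * ((k - n1 : ℕ) : ℤ))).1,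
   s * (wd i (J + min k n1 : ℕ) (σ * ((k - n1 : ℕ) : ℤ))).2)

private theorem pth_step (s : ℕ) (i : Fin 4) (J n1 : ℕ) (σ : ℤ) (hσ : σ = 1 ∨ σ = -1) (k : ℕ) :
    pth s i J n1 σ (k + 1) = ((pth s i J n1 σ k).1 + s, (pth s i J n1 σ k).2) ∨
    pth s i J n1 σ (k + 1) = ((pth s i J n1 σ k).1 - s, (pth s i J n1 σ k).2) ∨
    pth s i J n1 σ (k + 1) = ((pth s i J n1 σ k).1, (pth s i J n1 σ k).2 + s) ∨
    pth s i J n1 σ (k + 1) = ((pth s i J n1 σ k).1, (pth s i J n1 σ k).2 - s) := by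
  rcases lt_or_ge k n1 with h | h
  · have e1 : min k n1 = k := by omega
    have e2 : min (k + 1) n1 = k + 1 := by omega
    have e3 : k - n1 = 0 := by omega
    have e4 : k + 1 - n1 = 0 := by omega
    unfold pth
    rw [e1, e2, e3, e4]
    fin_cases i <;> simp only [wd, Prod.mk.injEq] <;> push_cast
    · left; exact ⟨by first | trivial | ring, by first | trivial | ring⟩
    · right; left; exact ⟨by first | trivial | ring, by first | trivial | ring⟩
    · right; right; left; exact ⟨by first | trivial | ring, by first | trivial | ring⟩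
    · right; right; right; exact ⟨by first | trivial | ring, by first | trivial | ring⟩
  · have e1 : min k n1 = n1 := by omega
    have e2 : min (k + 1) n1 = n1 := by omega
    have e3 : k + 1 - n1 = (k - n1) + 1 := by omega
    unfold pth
    rw [e1, e2, e3]
    rcases hσ with rfl | rfl <;> fin_cases i <;> simp only [wd, Prod.mk.injEq] <;> push_cast
    · right; right; left; exact ⟨by first | trivial | ring, by first | trivial | ring⟩
    · right; right; left; exact ⟨by first | trivial | ring, by first | trivial | ring⟩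
    · left; exact ⟨by first | trivial | ring, by first | trivial | ring⟩
    · left; exact ⟨by first | trivial | ring, by first | trivial | ring⟩
    · right; right; right; exact ⟨by first | trivial | ring, by first | trivial | ring⟩
    · right; right; right; exact ⟨by first | trivial | ring, by first | trivial | ring⟩
    · right; left; exact ⟨by first | trivial | ring, by first | trivial | ring⟩
    · right; left; exact ⟨by first | trivial | ring, by first | trivial | ring⟩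


/-- the numerical facts that are used -/
private structure SNum (P : Par) (S D Rh w T k v s : ℤ) : Prop where
  hSD : S = s * D
  w3 : 3 ≤ w
  Dw : 2 * w ≤ D
  s2 : 2 ≤ s
  SD2 : 2 * D ≤ S
  kD : 4 * k + 20 ≤ D
  k0 : 0 ≤ k
  SR : 40 * S ≤ Rh
  wR : 1000 * (w + 10) ≤ Rh
  kR : 100 * k ≤ Rh
  RT : 10 * Rh ≤ T
  vS : 2000 * S ≤ v
  vR : 100 * v ≤ Rh
  T' : (P.T' : ℤ) = 1000 * S * T
  Rs : (P.Rs : ℤ) = 2000 * S * T

private theorem snum (P : Par) (hP : P.Ok) :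
    SNum P ((P.s : ℤ) * P.D) P.D P.Rh P.w P.T P.k P.v P.s := by
  have hw := hP.hw
  have hd := hP.hd
  have hs := hP.hs
  have hkD := hP.hkD
  have hf := hP.hf
  have hg := hP.hg
  have hRw := hP.hRw
  have hRk := hP.hRk
  have hRs := hP.hRs
  have hW := hP.hW
  have hv := hP.hv
  have hv' := hP.hv'
  have hs2 : 2 ≤ P.s := by omega
  have hd2 : 2 ≤ P.d := by omega
  have hDw : 2 * P.w ≤ P.D := Nat.mul_le_mul_right _ hd2
  have hSD2 : 2 * P.D ≤ P.s * P.D := Nat.mul_le_mul_right _ hs2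
  have hgpos : 1 ≤ P.g := by
    have h1 : 0 < P.s * P.D := Nat.mul_pos (by omega) (by omega)
    rw [mul_assoc] at hg
    omega
  have hWT : P.W ≤ P.T := by
    have h1 : P.W ≤ P.T0 := Nat.le_mul_of_pos_left _ hf
    have h2 : P.T0 ≤ P.T := Nat.le_mul_of_pos_left _ hgpos
    exact h1.trans h2
  refine ⟨rfl, by exact_mod_cast hw, by exact_mod_cast hDw, by exact_mod_cast hs2,
    by exact_mod_cast hSD2, by exact_mod_cast hkD, by positivity, ?_, by exact_mod_cast hRw,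
    by exact_mod_cast hRk, ?_, ?_, by exact_mod_cast hv, ?_, ?_⟩
  · have : 40 * (P.s * P.D) ≤ P.Rh := by rw [← mul_assoc]; exact hRs
    exact_mod_cast this
  · have : 10 * P.Rh ≤ P.T := hW.trans hWT
    exact_mod_cast this
  · have : 2000 * (P.s * P.D) ≤ P.v := by rw [← mul_assoc]; exact hv'
    exact_mod_cast this
  · unfold Par.T'; push_cast; ring
  · unfold Par.Rs; push_cast; ring

private theorem fin3_one {a : Fin 3} (h0 : a ≠ 0) (h2 : a ≠ 2) : a = 1 := by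
  revert h0 h2; revert a; decide

private theorem win_mono (D : ℕ) (b x : Site) (h : x ∈ win D 1 b) : x ∈ win D 2 b := by
  obtain ⟨k1, k2, k3, k4⟩ := h
  have hD : (0 : ℤ) ≤ D := Int.natCast_nonneg D
  push_cast at k1 k2 k3 k4
  refine ⟨?_, ?_, ?_, ?_⟩ <;> push_cast <;> nlinarith

private theorem box_win (D : ℕ) (b x : Site) (h : x ∈ box D b) : x ∈ win D 1 b := by
  obtain ⟨k1, k2, k3, k4⟩ := h
  have hD : (0 : ℤ) ≤ D := Int.natCast_nonneg D
  refine ⟨?_, ?_, ?_, ?_⟩ <;> push_cast <;> nlinarith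

/-- elements of a part are close to the points of its hull -/
private theorem hull_near {Q : Finset Site} {k : ℕ} (hk : SpanLe k (Q : Set Site)) {z x : Site}
    (hz : z ∈ hull Q) (hx : x ∈ Q) : |x.1 - z.1| ≤ k ∧ |x.2 - z.2| ≤ k := by
  obtain ⟨⟨a, ha, a1⟩, ⟨b, hb, b1⟩, ⟨c, hc, c1⟩, ⟨e, he, e1⟩⟩ := hz
  have h1 := abs_le.1 (hk x hx a ha).1
  have h2 := abs_le.1 (hk x hx b hb).1
  have h3 := abs_le.1 (hk x hx c hc).2
  have h4 := abs_le.1 (hk x hx e he).2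
  exact ⟨abs_le.2 ⟨by linarith, by linarith⟩, abs_le.2 ⟨by linarith, by linarith⟩⟩

private theorem loc_win (D k : ℕ) (hkD : k ≤ D) {Q : Finset Site} (hk : SpanLe k (Q : Set Site))
    {z x b : Site} (hz : z ∈ hull Q) (hx : x ∈ Q) (hzb : z ∈ win D 1 b) : x ∈ win D 2 b := by
  obtain ⟨h1, h2⟩ := hull_near hk hz hx
  rw [abs_le] at h1 h2
  obtain ⟨k1, k2, k3, k4⟩ := hzb
  have hkD' : (k : ℤ) ≤ D := by exact_mod_cast hkD
  push_cast at k1 k2 k3 k4
  refine ⟨?_, ?_, ?_, ?_⟩ <;> push_cast <;> nlinarith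

/-- time versus distance -/
private theorem num_time {P : Par} {S D Rh w T k v s : ℤ} (h : SNum P S D Rh w T k v s)
    {J a n θ : ℤ} (hJ2 : 3 * Rh < 2 * S * (J + 1)) (haJ : J ≤ a) (hn : n + 1 ≤ 2 * a + 3)
    (hθ : θ ≤ 2 * Rh * (w + 2)) {L : ℤ} (hL : a * S - 2 * D ≤ L) :
    Rh < L ∧ 4 * (θ + (n + 1) * (36 * S ^ 2)) ≤ v * L := by
  obtain ⟨hSD, w3, Dw, s2, SD2, kD, k0, SR, wR, kR, RT, vS, vR, -, -⟩ := h
  have S0 : 0 < S := by linarith
  have J59 : 59 ≤ J := by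
    by_contra hcon
    push Not at hcon
    have : J + 1 ≤ 59 := by omega
    nlinarith
  have h1 : J * S ≤ a * S := mul_le_mul_of_nonneg_right haJ S0.le
  have hR : Rh < L := by nlinarith
  refine ⟨hR, ?_⟩
  have L0 : 0 ≤ L := by nlinarith
  have h2 : 2000 * S * L ≤ v * L := mul_le_mul_of_nonneg_right vS L0
  have h3 : S * Rh ≤ S * L := mul_le_mul_of_nonneg_left hR.le S0.le
  have h4 : S * (a * S - 2 * D) ≤ S * L := mul_le_mul_of_nonneg_left hL S0.le
  have h5 : 2 * Rh * (w + 2) ≤ 2 * Rh * S := by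
    apply mul_le_mul_of_nonneg_left _ (by linarith)
    linarith
  have h6 : (n + 1) * (36 * S ^ 2) ≤ (2 * a + 3) * (36 * S ^ 2) :=
    mul_le_mul_of_nonneg_right hn (by positivity)
  have h7 : 2 * D * S ≤ S * S := mul_le_mul_of_nonneg_right SD2 S0.le
  have h8 : 59 * S ^ 2 ≤ a * S ^ 2 := mul_le_mul_of_nonneg_right (J59.trans haJ) (by positivity)
  nlinarith

private theorem num_T' {P : Par} {S D Rh w T k v s : ℤ} (h : SNum P S D Rh w T k v s)
    {a n θ : ℤ} (haT : a * S ≤ 8 * T) (hn : n + 1 ≤ 2 * a + 3)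
    (hθ : θ ≤ 2 * Rh * (w + 2)) : θ + (n + 1) * (36 * S ^ 2) + 1 ≤ P.T' := by
  obtain ⟨hSD, w3, Dw, s2, SD2, kD, k0, SR, wR, kR, RT, vS, vR, hT', -⟩ := h
  have S0 : 0 < S := by linarith
  rw [hT']
  have h5 : 2 * Rh * (w + 2) ≤ 2 * Rh * S := by
    apply mul_le_mul_of_nonneg_left _ (by linarith)
    linarith
  have h6 : (n + 1) * (36 * S ^ 2) ≤ (2 * a + 3) * (36 * S ^ 2) :=
    mul_le_mul_of_nonneg_right hn (by positivity)
  have h7 : S * (a * S) ≤ S * (8 * T) := mul_le_mul_of_nonneg_left haT S0.le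
  have h8 : S * S ≤ S * T := mul_le_mul_of_nonneg_left (by linarith) S0.le
  have h9 : Rh * S ≤ T * S := mul_le_mul_of_nonneg_right (by linarith) S0.le
  have h10 : 1 ≤ S * T := by nlinarith
  nlinarith


private theorem specb_path (P : Par) (hP : P.Ok) (ω : Config) (hS : SpecOk P ω) (A : Finset Site)
    (hA : ∀ x, x ∈ A ↔ ω x = 2 ∧ x ∈ annulus P.Rh P.Rs) (Pt : Finset (Finset Site))
    (hPt : IsParts Pt A) (hk : ∀ Q ∈ Pt, SpanLe P.k (Q : Set Site))
    (hc : ∀ (t : ℕ) (x : Site), (P.Rh : ℤ) < lay x → lay x ≤ 9 * P.T → t ≤ P.T' →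
      4 * (t : ℤ) ≤ P.v * lay x → xi ω t x = 2 → x ∈ obst Pt)
    (θ : ℕ) (hθ : (θ : ℤ) ≤ 2 * P.Rh * (P.w + 2))
    (hnz : ∀ x, lay x ≤ 2 * (P.Rh : ℤ) - 2 * P.k - 10 → xi ω θ x ≠ 0)
    (J : ℕ) (hJ1 : 2 * ((P.s : ℤ) * P.D) * J ≤ 3 * P.Rh)
    (hJ2 : 3 * (P.Rh : ℤ) < 2 * ((P.s : ℤ) * P.D) * (J + 1))
    (i : Fin 4) (a : ℕ) (c : ℤ) (haJ : J ≤ a) (hca : |c| ≤ a + 2)
    (haT : a * ((P.s : ℤ) * P.D) ≤ 8 * P.T) :
    ∀ G, IsGiant (swin P.s (P.s * (wd i a c).1, P.s * (wd i a c).2))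
      (dbad P.w P.d P.mw ω) P.m G → ∀ b ∈ G,
      Filled ω Pt P.D (θ + ((a - J + c.natAbs) + 1) * (36 * P.s ^ 2 * P.D ^ 2)) b := by
  have N := snum P hP
  have N' := N
  obtain ⟨-, w3, Dw, s2, SD2, kD, k0, SR, wR, kR, RT, vS, vR, hT', hRs⟩ := N'
  set S : ℤ := (P.s : ℤ) * P.D with hS'
  have S0 : 0 < S := by linarith
  have J59 : (59 : ℤ) ≤ J := by
    by_contra hcon
    push Not at hcon
    have : (J : ℤ) + 1 ≤ 59 := by omega
    nlinarith
  have hkD' : P.k ≤ P.D := by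
    have : (P.k : ℤ) ≤ P.D := by linarith
    exact_mod_cast this
  -- the sign of `c`
  obtain ⟨σ, hσ, hσc⟩ : ∃ σ : ℤ, (σ = 1 ∨ σ = -1) ∧ σ * (c.natAbs : ℤ) = c := by
    rcases le_total 0 c with h | h
    · exact ⟨1, Or.inl rfl, by rw [one_mul]; omega⟩
    · exact ⟨-1, Or.inr rfl, by omega⟩
  set n1 := a - J with hn1
  set n := n1 + c.natAbs with hn
  have hcn : (c.natAbs : ℤ) ≤ a + 2 := by
    have : (c.natAbs : ℤ) = |c| := Int.natCast_natAbs c
    rw [this]; exact hca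
  have hlast : pth P.s i J n1 σ n = (P.s * (wd i a c).1, P.s * (wd i a c).2) := by
    unfold pth
    have e1 : J + min n n1 = a := by omega
    have e2 : n - n1 = c.natAbs := by omega
    rw [e1, e2, hσc]
  -- the windows of the path
  have key : ∀ k ≤ n, ∀ b ∈ swin P.s (pth P.s i J n1 σ k), ∀ x ∈ win P.D 2 b,
      ((J + min k n1 : ℕ) : ℤ) * S - 2 * P.D ≤ lay x ∧
      lay x ≤ ((J + min k n1 : ℕ) + 4) * S + 2 * P.D := by
    intro k hk b hb x hx
    refine wd_bounds P.s P.D i _ _ (by positivity) ?_ b hb x hx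
    have : |σ * ((k - n1 : ℕ) : ℤ)| = ((k - n1 : ℕ) : ℤ) := by
      rcases hσ with rfl | rfl
      · rw [one_mul]; exact abs_of_nonneg (by positivity)
      · rw [neg_one_mul, abs_neg]; exact abs_of_nonneg (by positivity)
    rw [this]
    rcases lt_or_ge k n1 with h | h
    · have : k - n1 = 0 := by omega
      rw [this]; push_cast; positivity
    · have e1 : J + min k n1 = a := by omega
      rw [e1]
      have : k - n1 ≤ c.natAbs := by omega
      have : ((k - n1 : ℕ) : ℤ) ≤ c.natAbs := by exact_mod_cast this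
      linarith
  have kle : ∀ k ≤ n, (k : ℤ) + 1 ≤ 2 * ((J + min k n1 : ℕ) : ℤ) + 3 := by
    intro k hk
    have : (c.natAbs : ℤ) ≤ a + 2 := hcn
    omega
  have ale : ∀ k : ℕ, ((J + min k n1 : ℕ) : ℤ) * S ≤ 8 * P.T := by
    intro k
    have : ((J + min k n1 : ℕ) : ℤ) ≤ a := by omega
    exact (mul_le_mul_of_nonneg_right this S0.le).trans haT
  have Jle : ∀ k : ℕ, (J : ℤ) ≤ ((J + min k n1 : ℕ) : ℤ) := by
    intro k; push_cast; have : 0 ≤ min (k : ℤ) n1 := by positivity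
    linarith
  -- region
  have reg : ∀ k ≤ n, ∀ b ∈ swin P.s (pth P.s i J n1 σ k), ∀ x ∈ win P.D 2 b,
      (P.Rh : ℤ) < lay x ∧ lay x ≤ 9 * P.T ∧ lay x ≤ P.Rs ∧ ∀ s' : ℕ,
        s' ≤ θ + (k + 1) * (36 * P.s ^ 2 * P.D ^ 2) → s' ≤ P.T' ∧ 4 * (s' : ℤ) ≤ P.v * lay x := by
    intro k hk b hb x hx
    obtain ⟨h1, h2⟩ := key k hk b hb x hx
    have hA := ale k
    have h9 : lay x ≤ 9 * P.T := by
      rw [add_mul] at h2
      linarith
    have h3 := num_time N hJ2 (Jle k) (kle k hk) hθ h1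
    have h4 := num_T' N hA (kle k hk) hθ
    refine ⟨h3.1, h9, ?_, ?_⟩
    · rw [hRs]
      have hT0 : 0 ≤ (P.T : ℤ) := by positivity
      have hST : (P.T : ℤ) ≤ S * P.T := le_mul_of_one_le_left hT0 (by linarith)
      rw [mul_assoc]
      linarith
    · intro s' hs'
      have e : (s' : ℤ) ≤ θ + (k + 1) * (36 * S ^ 2) := by
        have : (s' : ℤ) ≤ ((θ + (k + 1) * (36 * P.s ^ 2 * P.D ^ 2) : ℕ) : ℤ) := by
          exact_mod_cast hs'
        refine this.trans (le_of_eq ?_)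
        rw [hS']; push_cast; ring
      refine ⟨?_, by linarith [h3.2]⟩
      have : (s' : ℤ) ≤ P.T' := by linarith
      exact_mod_cast this
  -- the state at time `θ`
  have hwin0 : ∀ k ≤ n, ∀ b ∈ swin P.s (pth P.s i J n1 σ k), ∀ x ∈ win P.D 2 b, x ∉ obst Pt →
      xi ω θ x ≠ 2 := by
    intro k hk b hb x hx hxo h2
    obtain ⟨r1, r2, r3, r4⟩ := reg k hk b hb x hx
    obtain ⟨r5, r6⟩ := r4 θ (Nat.le_add_right _ _)
    exact hxo (hc θ x r1 r2 r5 r6 h2)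
  have hDdw : P.d * P.w = P.D := rfl
  have hmain := sspread P.w P.d P.mw P.m P.s hP.hw hP.hd hP.hs ω ω A Pt hPt θ n
    (pth P.s i J n1 σ) (fun k _ => pth_step P.s i J n1 σ hσ k) ?_ ?_ ?_ ?_
  · rw [hlast] at hmain
    exact hmain
  · -- BlkOk
    intro k hkn b hb
    rw [hDdw]
    refine ⟨?_, ?_, ?_⟩
    · intro z hz hz2
      obtain ⟨r1, r2, r3, r4⟩ := reg k hkn b hb z (win_mono _ _ _ hz)
      exact (hA z).2 ⟨hz2, r1, r3⟩
    · rintro Q hQ ⟨z, hz, hzb⟩ x hx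
      have hxA : x ∈ A := (hPt.2.2 x).2 ⟨Q, hQ, hx⟩
      exact ⟨((hA x).1 hxA).1, loc_win P.D P.k hkD' (hk _ hQ) hz hx hzb⟩
    · intro s' hs' x hx h2
      obtain ⟨r1, r2, r3, r4⟩ := reg k hkn b hb x (win_mono _ _ _ hx)
      obtain ⟨r5, r6⟩ := r4 s' hs'
      exact hc s' x r1 r2 r5 r6 h2
  · intro k hk b hb x hx hx1 hxo
    rw [hDdw] at hx
    have h1 := xi_mono ω (Nat.zero_le θ) x
    have h1' : ω x ≤ xi ω θ x := h1
    rw [hx1] at h1'
    refine fin3_one ?_ (hwin0 k hk b hb x (win_mono _ _ _ hx) hxo)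
    intro h0
    rw [h0] at h1'
    exact absurd h1' (by decide)
  · intro k hk C hC hCb hconn
    refine hS.dspan C (fun b hb => ⟨?_, hCb hb⟩) hconn
    intro x hx
    obtain ⟨r1, r2, r3, r4⟩ := reg k hk b (hC hb) x hx
    exact ⟨r1, r3⟩
  · -- start
    have h0 : 0 ≤ n := Nat.zero_le _
    set o0 := pth P.s i J n1 σ 0 with ho0
    have hbs : BadSpan (swin P.s o0) (dbad P.w P.d P.mw ω) P.m := by
      intro C hC hCb hconn
      refine hS.dspan C (fun b hb => ⟨?_, hCb hb⟩) hconn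
      intro x hx
      obtain ⟨r1, r2, r3, r4⟩ := reg 0 h0 b (hC hb) x hx
      exact ⟨r1, r3⟩
    have hsm : (P.m : ℤ) + 2 ≤ P.s := by exact_mod_cast hP.hs
    rw [swin_eq_Icc] at hbs ⊢
    obtain ⟨G1, hG1⟩ := giant_exists _ _ P.m (by simp only; linarith) (by simp only; linarith)
      _ hbs
    obtain ⟨g1, g2, g3, g4, g5, g6, g7⟩ := hG1
    obtain ⟨b0, hb0⟩ := g3
    refine ⟨b0, g1 hb0, ?_, ?_⟩
    · intro G hG
      refine giant_absorb hG g1 g2 g4 ?_ hb0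
      intro hspan
      have m1 : (o0 : Site) ∈ Set.Icc o0 (o0.1 + 2 * (P.s : ℤ) - 1, o0.2 + 2 * (P.s : ℤ) - 1) :=
        ⟨le_refl _, ⟨by simp only; linarith, by simp only; linarith⟩⟩
      have m2 : ((o0.1 + 2 * (P.s : ℤ) - 1, o0.2 + 2 * (P.s : ℤ) - 1) : Site) ∈
          Set.Icc o0 (o0.1 + 2 * (P.s : ℤ) - 1, o0.2 + 2 * (P.s : ℤ) - 1) :=
        ⟨⟨by simp only; linarith, by simp only; linarith⟩, le_refl _⟩
      obtain ⟨y, hy, hy1⟩ := (g6 _ m1).1
      obtain ⟨y', hy', hy1'⟩ := (g6 _ m2).1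
      have h3 := (hspan y' hy' y hy).1
      rw [hy1, hy1'] at h3
      have h4 := (abs_le.1 h3).2
      simp only at h4
      have : (0 : ℤ) ≤ P.m := by positivity
      linarith
    · intro x hx hxo
      rw [hDdw] at hx
      have hb0' : b0 ∈ swin P.s o0 := by rw [swin_eq_Icc]; exact g1 hb0
      have hx2 : x ∈ win P.D 2 b0 := win_mono _ _ _ (box_win _ _ _ hx)
      refine fin3_one ?_ (hwin0 0 h0 b0 hb0' x hx2 hxo)
      apply hnz
      have hb0'' : b0 ∈ swin P.s (P.s * (wd i J 0).1, P.s * (wd i J 0).2) := by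
        have e : pth P.s i J n1 σ 0 = (P.s * (wd i J 0).1, P.s * (wd i J 0).2) := by
          unfold pth
          have e1 : J + min 0 n1 = J := by omega
          have e2 : 0 - n1 = 0 := by omega
          rw [e1, e2]; simp
        rw [← e]; exact hb0'
      have h5 := wd_start P.s P.D i J (by positivity) b0 hb0'' x hx2
      rw [← hS', add_mul] at h5
      have h6 : 2 * S * (J : ℤ) = 2 * (J * S) := by ring
      rw [h6] at hJ1
      linarith


/-- coordinates of a point in the window around it -/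
private theorem idx_bounds {s D : ℕ} (hs : 1 ≤ s) (hD : 1 ≤ D) (t : ℤ) :
    ((t / D - 1) / s) * ((s : ℤ) * D) + D ≤ t ∧ t < ((t / D - 1) / s + 1) * ((s : ℤ) * D) + D ∧
    (s : ℤ) * ((t / D - 1) / s) ≤ t / D - 1 ∧ t / D ≤ (s : ℤ) * ((t / D - 1) / s) + s := by
  have hs' : (0 : ℤ) < s := by exact_mod_cast hs
  have hD' : (0 : ℤ) < D := by exact_mod_cast hD
  set q := t / (D : ℤ) with hq
  set o := (q - 1) / (s : ℤ) with ho
  have h1 : q * D ≤ t := Int.ediv_mul_le t hD'.ne'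
  have h2 : t < (q + 1) * D := Int.lt_ediv_add_one_mul_self t hD'
  have h3 : o * s ≤ q - 1 := Int.ediv_mul_le _ hs'.ne'
  have h4 : q - 1 < (o + 1) * s := Int.lt_ediv_add_one_mul_self _ hs'
  have h5 : q ≤ (o + 1) * s := by omega
  have h6 : (o * s + 1) * D ≤ q * D := mul_le_mul_of_nonneg_right (by linarith) hD'.le
  have h7 : (q + 1) * D ≤ ((o + 1) * s + 1) * D := mul_le_mul_of_nonneg_right (by linarith) hD'.le
  refine ⟨by nlinarith, by nlinarith, by linarith, by linarith⟩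

/-- neighbouring points lie in neighbouring blocks -/
private theorem idx_near {D : ℕ} (hD : 1 ≤ D) (t t' : ℤ) (h : |t' - t| ≤ 1) :
    t / (D : ℤ) - 1 ≤ t' / (D : ℤ) ∧ t' / (D : ℤ) ≤ t / (D : ℤ) + 1 := by
  have hD' : (0 : ℤ) < D := by exact_mod_cast hD
  obtain ⟨h1, h2⟩ := abs_le.1 h
  constructor
  · rw [Int.le_ediv_iff_mul_le hD']
    have := Int.ediv_mul_le t hD'.ne'
    nlinarith
  · have h3 : t' / (D : ℤ) < t / (D : ℤ) + 1 + 1 := by
      rw [Int.ediv_lt_iff_lt_mul hD']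
      have := Int.lt_ediv_add_one_mul_self t hD'
      nlinarith
    linarith

private theorem mem_box_idx {D : ℕ} (hD : 1 ≤ D) (y : Site) :
    y ∈ box D (y.1 / (D : ℤ), y.2 / (D : ℤ)) := by
  have hD' : (0 : ℤ) < D := by exact_mod_cast hD
  exact ⟨Int.ediv_mul_le _ hD'.ne', Int.lt_ediv_add_one_mul_self _ hD',
    Int.ediv_mul_le _ hD'.ne', Int.lt_ediv_add_one_mul_self _ hD'⟩

private theorem idx_mem {s D : ℕ} (hs : 2 ≤ s) (hD : 1 ≤ D) (x y : Site) (hy : y ∈ ball x 1) :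
    ((y.1 / (D : ℤ), y.2 / (D : ℤ)) : Site) ∈
      swin s ((s : ℤ) * ((x.1 / D - 1) / s), (s : ℤ) * ((x.2 / D - 1) / s)) := by
  obtain ⟨-, -, a3, a4⟩ := idx_bounds (by omega : 1 ≤ s) hD x.1
  obtain ⟨-, -, b3, b4⟩ := idx_bounds (by omega : 1 ≤ s) hD x.2
  have n1 := idx_near hD x.1 y.1 hy.1
  have n2 := idx_near hD x.2 y.2 hy.2
  have hs' : (2 : ℤ) ≤ s := by exact_mod_cast hs
  obtain ⟨n11, n12⟩ := n1
  obtain ⟨n21, n22⟩ := n2
  refine ⟨?_, ?_, ?_, ?_⟩ <;> simp only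
  · linarith
  · linarith
  · linarith
  · linarith

private theorem self_ball (x : Site) : x ∈ ball x 1 := by
  constructor <;> simp

private theorem specb_key (P : Par) (hP : P.Ok) (ω : Config) (hS : SpecOk P ω) (A : Finset Site)
    (hA : ∀ x, x ∈ A ↔ ω x = 2 ∧ x ∈ annulus P.Rh P.Rs) (Pt : Finset (Finset Site))
    (hPt : IsParts Pt A) (hk : ∀ Q ∈ Pt, SpanLe P.k (Q : Set Site))
    (hc : ∀ (t : ℕ) (x : Site), (P.Rh : ℤ) < lay x → lay x ≤ 9 * P.T → t ≤ P.T' →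
      4 * (t : ℤ) ≤ P.v * lay x → xi ω t x = 2 → x ∈ obst Pt)
    (θ : ℕ) (hθ : (θ : ℤ) ≤ 2 * P.Rh * (P.w + 2))
    (hnz : ∀ x, lay x ≤ 2 * (P.Rh : ℤ) - 2 * P.k - 10 → xi ω θ x ≠ 0)
    (x : Site) (hx1 : 2 * (P.Rh : ℤ) - 2 * P.k - 10 < lay x) (hx2 : lay x ≤ 8 * P.T)
    (hgood : ∀ b ∈ swin P.s ((P.s : ℤ) * ((x.1 / P.D - 1) / P.s),
      (P.s : ℤ) * ((x.2 / P.D - 1) / P.s)), ¬ DBad P.w P.d P.mw ω b) :
    xi ω P.T' x ≠ 0 := by
  have N := snum P hP
  have N' := N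
  obtain ⟨-, w3, Dw, s2, SD2, kD, k0, SR, wR, kR, RT, vS, vR, hT', hRs⟩ := N'
  set S : ℤ := (P.s : ℤ) * P.D with hS'
  have S0 : 0 < S := by linarith
  have hs2 : 2 ≤ P.s := by exact_mod_cast s2
  have hs1 : 1 ≤ P.s := by omega
  have hD1 : 1 ≤ P.D := by have : (1 : ℤ) ≤ P.D := by linarith
                           exact_mod_cast this
  have hkD' : P.k ≤ P.D := by
    have : (P.k : ℤ) ≤ P.D := by linarith
    exact_mod_cast this
  obtain ⟨a1, a2, a3, a4⟩ := idx_bounds hs1 hD1 x.1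
  obtain ⟨b1, b2, b3, b4⟩ := idx_bounds hs1 hD1 x.2
  rw [← hS'] at a1 a2 b1 b2
  set o1 := (x.1 / (P.D : ℤ) - 1) / (P.s : ℤ) with ho1
  set o2 := (x.2 / (P.D : ℤ) - 1) / (P.s : ℤ) with ho2
  obtain ⟨i, c, hw1, hw2⟩ := exists_wd (o1, o2)
  set ρ := max (max ((o1, o2) : Site).1 (-((o1, o2) : Site).1 - 2))
    (max ((o1, o2) : Site).2 (-((o1, o2) : Site).2 - 2)) with hρ
  -- `J`
  set J := 3 * P.Rh / (2 * (P.s * P.D)) with hJ
  have hSpos : 0 < 2 * (P.s * P.D) := by positivity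
  have hJ1 : 2 * ((P.s : ℤ) * P.D) * J ≤ 3 * P.Rh := by
    have := Nat.mul_div_le (3 * P.Rh) (2 * (P.s * P.D))
    exact_mod_cast this
  have hJ2 : 3 * (P.Rh : ℤ) < 2 * ((P.s : ℤ) * P.D) * (J + 1) := by
    have := Nat.lt_mul_div_succ (3 * P.Rh) hSpos
    exact_mod_cast this
  rw [← hS'] at hJ1 hJ2
  have hJS : 2 * ((J : ℤ) * S) ≤ 3 * P.Rh := by linarith [mul_comm S (J : ℤ)]
  have l1 : x.1 ≤ lay x := (le_abs_self _).trans (le_max_left _ _)
  have l2 : -x.1 ≤ lay x := (neg_le_abs _).trans (le_max_left _ _)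
  have l3 : x.2 ≤ lay x := (le_abs_self _).trans (le_max_right _ _)
  have l4 : -x.2 ≤ lay x := (neg_le_abs _).trans (le_max_right _ _)
  have r1 : o1 ≤ ρ := (le_max_left _ _).trans (le_max_left _ _)
  have r2 : -o1 - 2 ≤ ρ := (le_max_right _ _).trans (le_max_left _ _)
  have r3 : o2 ≤ ρ := (le_max_left _ _).trans (le_max_right _ _)
  have r4 : -o2 - 2 ≤ ρ := (le_max_right _ _).trans (le_max_right _ _)
  have r5 : ρ = o1 ∨ ρ = -o1 - 2 ∨ ρ = o2 ∨ ρ = -o2 - 2 := by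
    simp only at hρ; omega
  have haT : ρ * S ≤ 8 * P.T := by
    rcases r5 with h | h | h | h <;> rw [h] <;> linarith
  have haJ : (J : ℤ) ≤ ρ := by
    have hlay : lay x = x.1 ∨ lay x = -x.1 ∨ lay x = x.2 ∨ lay x = -x.2 := by
      unfold lay
      rcases max_choice |x.1| |x.2| with h | h <;> rw [h]
      · rcases abs_choice x.1 with h' | h' <;> rw [h'] <;> tauto
      · rcases abs_choice x.2 with h' | h' <;> rw [h'] <;> tauto
    have main : (J : ℤ) * S < (ρ + 1) * S := by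
      have q1 : o1 * S ≤ ρ * S := mul_le_mul_of_nonneg_right r1 S0.le
      have q2 : (-o1 - 2) * S ≤ ρ * S := mul_le_mul_of_nonneg_right r2 S0.le
      have q3 : o2 * S ≤ ρ * S := mul_le_mul_of_nonneg_right r3 S0.le
      have q4 : (-o2 - 2) * S ≤ ρ * S := mul_le_mul_of_nonneg_right r4 S0.le
      rcases hlay with h | h | h | h <;> rw [h] at hx1
      · linarith
      · linarith
      · linarith
      · linarith
    have := lt_of_mul_lt_mul_right main S0.le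
    linarith
  have hρ0 : 0 ≤ ρ := le_trans (by positivity) haJ
  obtain ⟨a, ha⟩ := Int.eq_ofNat_of_zero_le hρ0
  rw [ha] at hw1 hw2 haT haJ
  have haJ' : J ≤ a := by exact_mod_cast haJ
  have hpath := specb_path P hP ω hS A hA Pt hPt hk hc θ hθ hnz J hJ1 hJ2 i a c haJ'
    (by exact_mod_cast hw2) haT
  have hw1' : wd i (a : ℤ) c = (o1, o2) := hw1
  rw [hw1'] at hpath
  simp only at hpath
  -- the giant
  have hsm : (P.m : ℤ) + 2 ≤ P.s := by exact_mod_cast hP.hs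
  have hbs : BadSpan (swin P.s ((P.s : ℤ) * o1, (P.s : ℤ) * o2)) (dbad P.w P.d P.mw ω) P.m := by
    intro C hC hCb _ y hy
    exact absurd (hCb hy) (hgood y (hC hy))
  have hbs' := hbs
  rw [swin_eq_Icc] at hbs'
  obtain ⟨G, hG⟩ := giant_exists _ _ P.m (by simp only; linarith) (by simp only; linarith) _ hbs'
  have hGall : ∀ b ∈ swin P.s ((P.s : ℤ) * o1, (P.s : ℤ) * o2), b ∈ G := by
    intro b hb
    by_contra hcon
    have hb' := hb
    rw [swin_eq_Icc] at hb'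
    obtain ⟨n, -, C, hC1, hC2, -, -, y, hy, -⟩ := giant_point hG hb' hcon
    rw [← swin_eq_Icc] at hC1
    exact hgood y (hC1 hy) (hC2 hy)
  rw [← swin_eq_Icc] at hG
  set t := θ + ((a - J + c.natAbs) + 1) * (36 * P.s ^ 2 * P.D ^ 2) with ht
  have hfill : ∀ b ∈ swin P.s ((P.s : ℤ) * o1, (P.s : ℤ) * o2), Filled ω Pt P.D t b :=
    fun b hb => hpath G hG b (hGall b hb)
  have htT : t + 1 ≤ P.T' := by
    have hcn : (c.natAbs : ℤ) ≤ a + 2 := by
      rw [Int.natCast_natAbs]; exact_mod_cast hw2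
    have hn2 : ((a - J + c.natAbs : ℕ) : ℤ) + 1 ≤ 2 * (a : ℤ) + 3 := by
      have e1 : ((a - J : ℕ) : ℤ) ≤ a := by exact_mod_cast Nat.sub_le a J
      push_cast
      rw [Int.natCast_natAbs] at hcn
      linarith
    have h1 := num_T' N (a := a) (n := ((a - J + c.natAbs : ℕ) : ℤ)) haT hn2 hθ
    have : ((t + 1 : ℕ) : ℤ) ≤ P.T' := by
      refine le_trans (le_of_eq ?_) h1
      rw [ht, hS']; push_cast; ring
    exact_mod_cast this
  have hxb : x ∈ box P.D (x.1 / (P.D : ℤ), x.2 / (P.D : ℤ)) := mem_box_idx hD1 x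
  have hbx : ((x.1 / (P.D : ℤ), x.2 / (P.D : ℤ)) : Site) ∈
      swin P.s ((P.s : ℤ) * o1, (P.s : ℤ) * o2) := idx_mem hs2 hD1 x x (self_ball x)
  have hnonzero : xi ω (t + 1) x ≠ 0 := by
    refine nonzero_of_filled ω A Pt hPt t x ?_ ?_
    · intro y hy hyo
      exact hfill (y.1 / (P.D : ℤ), y.2 / (P.D : ℤ)) (idx_mem hs2 hD1 x y hy) y
        (mem_box_idx hD1 y) hyo
    · intro Q hQ hxQ
      have hQA : ∀ z ∈ Q, ω z = 2 := fun z hz => ((hA z).1 ((hPt.2.2 z).2 ⟨Q, hQ, hz⟩)).1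
      refine ⟨?_, hQA⟩
      by_contra hcard
      push Not at hcard
      obtain ⟨B, hBQ, hB, hB3, hB4⟩ := mg_card_inter (hPt.1 Q hQ) hcard
      have hsp := mg_span hB
      have hB4' : (B.card : ℤ) ≤ 4 := by exact_mod_cast hB4
      obtain ⟨y1, hy1, y2, hy2, y3, hy3, h12, h13, h23⟩ := Finset.two_lt_card.1 hB3
      have hwn : ∀ z ∈ B, z ∈ win P.D 2 (x.1 / (P.D : ℤ), x.2 / (P.D : ℤ)) := fun z hz =>
        loc_win P.D P.k hkD' (hk Q hQ) hxQ (hBQ hz) (box_win _ _ _ hxb)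
      have hball : ∀ z ∈ B, z ∈ ball y1 6 := by
        intro z hz
        have := hsp z hz y1 hy1
        exact ⟨this.1.trans (by linarith), this.2.trans (by linarith)⟩
      refine hgood _ hbx (Or.inl ⟨y1, hwn _ hy1, y2, hwn _ hy2, y3, hwn _ hy3, hQA _ (hBQ hy1),
        hQA _ (hBQ hy2), hQA _ (hBQ hy3), h12, h13, h23, hball _ hy2, hball _ hy3⟩)
  intro h0
  have hm := xi_mono ω htT x
  rw [h0] at hm
  exact hnonzero (le_antisymm hm (Fin.zero_le _))


private theorem theta_le (P : Par) (hP : P.Ok) :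
    theta P.j0 P.r2 P.g1 P.w (2 * P.Rh - 2 * P.k - 10) ≤ 2 * P.Rh * (P.w + 2) := by
  have hg1w := hP.hgw
  have hr2 := hP.hr2
  have hRr := hP.hRr
  have hRk := hP.hRk
  have hRw := hP.hRw
  unfold theta
  have h1 : (min (2 * P.Rh - 2 * P.k - 10) P.r2 - 4 * P.j0) * (P.g1 + 2) ≤
      P.r2 * (P.w + 2) := by
    apply Nat.mul_le_mul <;> omega
  have h2 : (2 * P.Rh - 2 * P.k - 10 - P.r2) * (P.w + 2) + P.r2 * (P.w + 2) ≤
      2 * P.Rh * (P.w + 2) := by
    rw [← Nat.add_mul]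
    apply Nat.mul_le_mul_right; omega
  omega

private theorem lay_le_iff (x : Site) (r : ℤ) :
    lay x ≤ r ↔ (-r ≤ x.1 ∧ x.1 ≤ r) ∧ (-r ≤ x.2 ∧ x.2 ≤ r) := by
  unfold lay; rw [max_le_iff, abs_le, abs_le]

/-- SPECB: the ones fill the neighbourhood of the nucleus. -/
theorem specb (P : Par) (hP : P.Ok) (ω : Config) (h : ℕ → Fin 4 → ℤ)
    (hN : Nuc2 P ω h) (hS : SpecOk P ω) :
    (∀ x, lay x ≤ P.W → xi ω P.T' x ≠ 0) ∧
    (∀ β : Site, β ∉ Kset → box P.W β ⊆ {x | lay x ≤ 8 * P.T} →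
      ¬ WBad P.w P.d P.mw P.e P.s ω β → ∀ x ∈ box P.W β, xi ω P.T' x ≠ 0) := by
  have N := snum P hP
  have N' := N
  obtain ⟨-, w3, Dw, s2, SD2, kD, k0, SR, wR, kR, RT, vS, vR, hT', hRs⟩ := N'
  have hw := hP.hw
  have hd := hP.hd
  have hs := hP.hs
  have hkD := hP.hkD
  have hf := hP.hf
  have hg := hP.hg
  have hj := hP.hj
  have hj1 := hP.hj1
  have hr2 := hP.hr2
  have hr2w := hP.hr2w
  have hRr := hP.hRr
  have hRw := hP.hRw
  have hRj := hP.hRj
  have hRk := hP.hRk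
  have hRsD := hP.hRs
  have hW := hP.hW
  have hWT : P.W ≤ P.T := by
    have h1 : P.W ≤ P.T0 := Nat.le_mul_of_pos_left _ hf
    have hgpos : 1 ≤ P.g := by
      have h1 : 0 < P.s * P.D := Nat.mul_pos (by omega) (by omega)
      rw [mul_assoc] at hg
      omega
    have h2 : P.T0 ≤ P.T := Nat.le_mul_of_pos_left _ hgpos
    exact h1.trans h2
  have hs2 : 2 ≤ P.s := by omega
  have hD1 : 1 ≤ P.D := by omega
  -- the set of twos
  let A : Finset Site := (Finset.Icc ((-(P.Rs : ℤ), -(P.Rs : ℤ)) : Site)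
    ((P.Rs : ℤ), (P.Rs : ℤ))).filter (fun x => ω x = 2 ∧ x ∈ annulus P.Rh P.Rs)
  have hA : ∀ x, x ∈ A ↔ ω x = 2 ∧ x ∈ annulus P.Rh P.Rs := by
    intro x
    simp only [A, Finset.mem_filter, Finset.mem_Icc, and_iff_right_iff_imp]
    rintro ⟨-, -, h2⟩
    obtain ⟨⟨a1, a2⟩, ⟨a3, a4⟩⟩ := (lay_le_iff x _).1 h2
    exact ⟨⟨a1, a3⟩, ⟨a2, a4⟩⟩
  obtain ⟨Pt, hPt⟩ := exists_parts A
  obtain ⟨sa, sb, sc, sd'⟩ := speca P hP ω h hN hS A hA Pt hPt
  set R := 2 * P.Rh - 2 * P.k - 10 with hR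
  have hRZ : (R : ℤ) = 2 * (P.Rh : ℤ) - 2 * P.k - 10 := by omega
  have hone := onelay ω P.j0 P.r2 R P.g1 P.w (by omega) hr2 (by omega) (by omega) ?_ h ?_
    hN.dense1 ?_ ?_
  rotate_left
  · intro x hx
    rcases lt_or_ge (P.j0 : ℤ) (lay x) with h1 | h1
    · exact hN.ann x h1 hx
    · rw [hN.core x h1]; decide
  · intro r h1 h2
    exact hN.ctrl r (by omega) (by omega)
  · intro r h1 h2
    exact hN.dense2 r h1 (by omega)
  · intro r h1 h2 t ht x hx1 hx2 hx3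
    exact sd' r h1 (by omega) t ht x hx1 hx2 hx3
  have hnz : ∀ x, lay x ≤ 2 * (P.Rh : ℤ) - 2 * P.k - 10 →
      xi ω (theta P.j0 P.r2 P.g1 P.w R) x ≠ 0 := by
    intro x hx
    exact hone R (by omega) le_rfl x (by rw [hRZ]; exact hx)
  have hθ : ((theta P.j0 P.r2 P.g1 P.w R : ℕ) : ℤ) ≤ 2 * P.Rh * (P.w + 2) := by
    exact_mod_cast theta_le P hP
  have hθT : theta P.j0 P.r2 P.g1 P.w R ≤ P.T' := by
    have h1 := num_T' N (a := 0) (n := 0) (by simp) (by norm_num) hθ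
    have h2 : (0 : ℤ) ≤ (0 + 1) * (36 * ((P.s : ℤ) * P.D) ^ 2) := by positivity
    have : ((theta P.j0 P.r2 P.g1 P.w R : ℕ) : ℤ) ≤ P.T' := by linarith
    exact_mod_cast this
  have hkey := specb_key P hP ω hS A hA Pt hPt sa sc _ hθ hnz
  have mono : ∀ x, xi ω (theta P.j0 P.r2 P.g1 P.w R) x ≠ 0 → xi ω P.T' x ≠ 0 := by
    intro x hx h0
    have hm := xi_mono ω hθT x
    rw [h0] at hm
    exact hx (le_antisymm hm (Fin.zero_le _))
  constructor
  · intro x hx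
    rcases le_or_gt (lay x) (2 * (P.Rh : ℤ) - 2 * P.k - 10) with h1 | h1
    · exact mono x (hnz x h1)
    · have hWT' : (P.W : ℤ) ≤ P.T := by exact_mod_cast hWT
      refine hkey x h1 (by linarith) ?_
      intro b hb
      refine hS.near b ?_
      intro y hy
      have hb' := win2_bounds P.s P.D ((x.1 / P.D - 1) / P.s, (x.2 / P.D - 1) / P.s) b hb y hy
      simp only at hb'
      obtain ⟨⟨y1, y2⟩, ⟨y3, y4⟩⟩ := hb'
      obtain ⟨a1, a2, a3, a4⟩ := idx_bounds (by omega : 1 ≤ P.s) hD1 x.1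
      obtain ⟨b1, b2, b3, b4⟩ := idx_bounds (by omega : 1 ≤ P.s) hD1 x.2
      set o1 := (x.1 / (P.D : ℤ) - 1) / (P.s : ℤ) with ho1
      set o2 := (x.2 / (P.D : ℤ) - 1) / (P.s : ℤ) with ho2
      set S : ℤ := (P.s : ℤ) * P.D with hS'
      have e1 : (o1 + 2) * S = o1 * S + 2 * S := by ring
      have e2 : (o1 + 1) * S = o1 * S + S := by ring
      have e3 : (o2 + 2) * S = o2 * S + 2 * S := by ring
      have e4 : (o2 + 1) * S = o2 * S + S := by ring
      rw [e1] at y2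
      rw [e2] at a2
      rw [e3] at y4
      rw [e4] at b2
      have hWR : 10 * (P.Rh : ℤ) ≤ P.W := by exact_mod_cast hW
      refine ⟨?_, ?_⟩
      · rw [← not_le, lay_le_iff]
        rintro ⟨⟨c1, c2⟩, ⟨c3, c4⟩⟩
        rw [← not_le, lay_le_iff] at h1
        apply h1
        refine ⟨⟨?_, ?_⟩, ⟨?_, ?_⟩⟩ <;> linarith
      · rw [lay_le_iff] at hx ⊢
        obtain ⟨⟨c1, c2⟩, ⟨c3, c4⟩⟩ := hx
        refine ⟨⟨?_, ?_⟩, ⟨?_, ?_⟩⟩ <;> linarith
  · intro β hβ hβT hβW x hx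
    have hx8 : lay x ≤ 8 * P.T := hβT hx
    obtain ⟨x1, x2, x3, x4⟩ := hx
    have hWR : 10 * (P.Rh : ℤ) ≤ P.W := by exact_mod_cast hW
    have hW0 : (0 : ℤ) ≤ P.W := by positivity
    have hlay : (P.W : ℤ) ≤ lay x := by
      have l1 : x.1 ≤ lay x := (le_abs_self _).trans (le_max_left _ _)
      have l2 : -x.1 ≤ lay x := (neg_le_abs _).trans (le_max_left _ _)
      have l3 : x.2 ≤ lay x := (le_abs_self _).trans (le_max_right _ _)
      have l4 : -x.2 ≤ lay x := (neg_le_abs _).trans (le_max_right _ _)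
      have hcases : 1 ≤ β.1 ∨ β.1 + 1 ≤ -1 ∨ 1 ≤ β.2 ∨ β.2 + 1 ≤ -1 := by
        by_contra hcon
        push Not at hcon
        apply hβ
        refine ⟨?_, ?_⟩ <;> omega
      rcases hcases with h1 | h1 | h1 | h1
      · have := mul_le_mul_of_nonneg_right h1 hW0
        linarith
      · have := mul_le_mul_of_nonneg_right h1 hW0
        linarith
      · have := mul_le_mul_of_nonneg_right h1 hW0
        linarith
      · have := mul_le_mul_of_nonneg_right h1 hW0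
        linarith
    refine hkey x (by linarith) hx8 ?_
    intro b hb hbad
    apply hβW
    refine Or.inl ⟨b, ?_, hbad⟩
    obtain ⟨-, -, a3, a4⟩ := idx_bounds (by omega : 1 ≤ P.s) hD1 x.1
    obtain ⟨-, -, b3, b4⟩ := idx_bounds (by omega : 1 ≤ P.s) hD1 x.2
    obtain ⟨h1, h2, h3, h4⟩ := hb
    simp only at h1 h2 h3 h4
    have hDpos : (0 : ℤ) < P.D := by exact_mod_cast hD1
    have hWe : (P.W : ℤ) = P.e * P.D := by unfold Par.W; push_cast; rfl
    have q1 : β.1 * P.e ≤ x.1 / (P.D : ℤ) := by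
      rw [Int.le_ediv_iff_mul_le hDpos]
      rw [hWe] at x1; linarith
    have q2 : x.1 / (P.D : ℤ) < (β.1 + 1) * P.e := by
      rw [Int.ediv_lt_iff_lt_mul hDpos]
      rw [hWe] at x2; linarith
    have q3 : β.2 * P.e ≤ x.2 / (P.D : ℤ) := by
      rw [Int.le_ediv_iff_mul_le hDpos]
      rw [hWe] at x3; linarith
    have q4 : x.2 / (P.D : ℤ) < (β.2 + 1) * P.e := by
      rw [Int.ediv_lt_iff_lt_mul hDpos]
      rw [hWe] at x4; linarith
    refine ⟨?_, ?_, ?_, ?_⟩ <;> linarith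

end TSB
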