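import Pool.Agent.TSB.Defs
import Pool.Agent.TSB.Dyn
import Pool.Agent.TSB.Giant
import Pool.Agent.TSB.Closure
import Pool.Agent.TSB.Gen
import Pool.Agent.TSB.Specb

open MeasureTheory
open scoped Classical

namespace TSB

private lemma fd_arith (P : Par) (hP : P.Ok) :
    1000 ≤ P.W ∧ P.m + 2 ≤ P.g * P.f ∧ P.T = P.g * P.f * P.W ∧ P.W ≤ P.T ∧ P.T ≤ P.T' ∧
      8 * P.T ≤ P.Rs := by
  have hW : 1000 ≤ P.W := by
    have h1 := hP.hW
    have h2 := hP.hRj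
    have h3 := hP.hj
    omega
  have hD : 1 ≤ P.D := by
    have h1 := hP.hkD
    omega
  have hs : P.m + 2 ≤ P.s := hP.hs
  have hs1 : 1 ≤ P.s := by omega
  have hsD : P.s ≤ P.s * P.D := Nat.le_mul_of_pos_right _ hD
  have hg : P.s ≤ P.g := by
    have h1 := hP.hg
    have h2 : 400 * P.s * P.D = 400 * (P.s * P.D) := by ring
    rw [h2] at h1
    omega
  have hgf : P.g ≤ P.g * P.f := Nat.le_mul_of_pos_right _ hP.hf
  have hT : P.T = P.g * P.f * P.W := by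
    simp only [Par.T, Par.T0]; ring
  have hWT : P.W ≤ P.T := by
    rw [hT]
    exact Nat.le_mul_of_pos_left _ (by omega)
  have h1 : 1 ≤ P.s * P.D := by omega
  refine ⟨hW, by omega, hT, hWT, ?_, ?_⟩
  · have : P.T' = 1000 * (P.s * P.D) * P.T := by simp only [Par.T']; ring
    rw [this]
    exact Nat.le_mul_of_pos_left _ (by omega)
  · have : P.Rs = 2000 * (P.s * P.D) * P.T := by simp only [Par.Rs]; ring
    rw [this]
    exact Nat.mul_le_mul_right _ (by omega)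

private lemma fd_nearBad_mono {Λ bad bad' : Set Site} (h : bad ⊆ bad') {x : Site} {n : ℕ}
    (hb : NearBad Λ bad x n) : NearBad Λ bad' x n := by
  obtain ⟨C, h1, h2, h3, h4, h5⟩ := hb
  exact ⟨C, h1, h2.trans h, h3, h4, h5⟩

private lemma fd_badSpan_mono {Λ Λ' bad bad' : Set Site} (hΛ : Λ' ⊆ Λ) (h : bad' ⊆ bad) {m : ℕ}
    (hb : BadSpan Λ bad m) : BadSpan Λ' bad' m :=
  fun C h1 h2 h3 => hb C (h1.trans hΛ) (h2.trans h) h3

private lemma fd_conn_ind {r : Site → Site → Prop} {G : Set Site} (hc : Conn r G)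
    {Q : Site → Prop} {a : Site} (ha : a ∈ G) (hQ : Q a)
    (hstep : ∀ x ∈ G, ∀ y ∈ G, r x y → Q x → Q y) : ∀ b ∈ G, Q b := by
  intro b hb
  have := hc a ha b hb
  induction this with
  | refl => exact hQ
  | tail _ h2 ih => exact hstep _ h2.1 _ h2.2.1 h2.2.2 (ih h2.1)

/-- the box of a `W`-block in the window of `z` lies in the corresponding window -/
private lemma fd_box_win {g W : ℕ} (hW : 0 < W) {a : ℕ} {z β x : Site}
    (hβ : β ∈ win g a z) (hx : x ∈ box W β) : x ∈ win (g * W) a z := by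
  obtain ⟨b1, b2, b3, b4⟩ := hβ
  obtain ⟨x1, x2, x3, x4⟩ := hx
  have hW' : (0 : ℤ) < W := by exact_mod_cast hW
  refine ⟨?_, ?_, ?_, ?_⟩
  · push_cast; nlinarith
  · push_cast; nlinarith
  · push_cast; nlinarith
  · push_cast; nlinarith

private lemma fd_win_win {g W : ℕ} (hW : 0 < W) (hg : 0 < g) {a : ℕ} {z β x : Site}
    (hβ : β ∈ win g a z) (hx : x ∈ win W 1 β) : x ∈ win (g * W) (a + 1) z := by
  obtain ⟨b1, b2, b3, b4⟩ := hβ
  obtain ⟨x1, x2, x3, x4⟩ := hx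
  have hW' : (0 : ℤ) < W := by exact_mod_cast hW
  have hg' : (1 : ℤ) ≤ g := by exact_mod_cast hg
  have hgW : (W : ℤ) ≤ g * W := by nlinarith
  push_cast at x1 x2 x3 x4
  refine ⟨?_, ?_, ?_, ?_⟩
  · push_cast; nlinarith
  · push_cast; nlinarith
  · push_cast; nlinarith
  · push_cast; nlinarith

private lemma fd_conn_G {r : Site → Site → Prop} {G : Set Site} (hc : Conn r G)
    {Q : Site → Prop} (hQ : ∃ a ∈ G, Q a)
    (hstep : ∀ x ∈ G, ∀ y ∈ G, r x y → Q x → Q y) : ∀ b ∈ G, Q b := by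
  obtain ⟨a, ha, hQa⟩ := hQ
  exact fd_conn_ind hc ha hQa hstep

private lemma fd_two {ω : Config} {s t : ℕ} (h : s ≤ t) {x : Site} (h2 : xi ω s x = 2) :
    xi ω t x = 2 := by
  have h1 := xi_mono ω h x
  rw [h2] at h1
  exact le_antisymm (Fin.le_last _) h1

private lemma fd_nz {ω : Config} {s t : ℕ} (h : s ≤ t) {x : Site} (h2 : xi ω s x ≠ 0) :
    xi ω t x ≠ 0 := by
  have h1 := xi_mono ω h x
  intro h3
  rw [h3] at h1
  exact h2 (le_antisymm h1 (Fin.zero_le _))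

private lemma fd_lay {x : Site} {n : ℤ} : lay x ≤ n ↔ (-n ≤ x.1 ∧ x.1 ≤ n) ∧ (-n ≤ x.2 ∧ x.2 ≤ n) := by
  unfold lay
  rw [max_le_iff, abs_le, abs_le]

/-- window of `z` with `|z| ≤ N` -/
private lemma fd_win_lay {T a N : ℕ} {z x : Site} (hz : |z.1| ≤ (N : ℤ) ∧ |z.2| ≤ (N : ℤ))
    (hx : x ∈ win T a z) : lay x ≤ (((N + 1 + a) * T : ℕ) : ℤ) := by
  obtain ⟨x1, x2, x3, x4⟩ := hx
  obtain ⟨h1, h2⟩ := hz
  rw [abs_le] at h1 h2
  have hT : (0 : ℤ) ≤ T := by positivity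
  rw [fd_lay]
  push_cast
  refine ⟨⟨?_, ?_⟩, ?_, ?_⟩ <;> nlinarith

private lemma fd_twos (P : Par) (hP : P.Ok) (ω : Config) (h : ℕ → Fin 4 → ℤ) (hN : Nuc2 P ω h)
    (C Y : Set Site) (hC : ∀ x ∈ Y, 2 ≤ cnt C x → x ∈ C)
    (hY : ∀ x, lay x ≤ P.W → x ∈ Y) (h2 : ∀ x ∈ Y, ω x = 2 → x ∈ C) :
    ∀ x, lay x ≤ P.W → x ∈ C := by
  have hW1 := hP.hW
  have hW2 := hP.hRj
  have hW3 := hP.hj
  have hsd : ∀ (i : Fin 4) (r : ℕ) (y : ℤ), r ≤ P.W → |y| < r → lay (sd i r y) ≤ P.W := by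
    intro i r y hr hy
    rw [abs_lt] at hy
    have hr' : (r : ℤ) ≤ P.W := by exact_mod_cast hr
    rw [fd_lay]
    fin_cases i <;> simp only [sd] <;> refine ⟨⟨?_, ?_⟩, ?_, ?_⟩ <;> omega
  refine twolay C Y hC P.j0 P.W (by omega) hY ?_ ?_
  · intro x hx
    refine h2 x (hY x ?_) (hN.core x hx)
    have : (P.j0 : ℤ) ≤ P.W := by exact_mod_cast (by omega : P.j0 ≤ P.W)
    omega
  · intro r hr1 hr2 i
    by_cases hr : r ≤ 2 * P.Rh
    · obtain ⟨hz, h2'⟩ := (hN.ctrl r hr1 hr).1 i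
      have hlt : |h r i| < r := by
        have h3 : r % 4 < 4 := Nat.mod_lt _ (by norm_num)
        unfold zoneOK at hz
        have hr0 : (1000 : ℤ) ≤ r := by exact_mod_cast (by omega : 1000 ≤ r)
        rw [abs_lt]
        generalize hy : h r i = y at hz ⊢
        generalize hm : r % 4 = mm at hz h3
        interval_cases mm <;> constructor <;> push_cast at hz <;> nlinarith [hz.1, hz.2]
      exact ⟨h r i, hlt, h2 _ (hY _ (hsd i r _ hr2 hlt)) h2'⟩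
    · obtain ⟨y, hy, hy2⟩ := hN.outer r (by omega) hr2 i
      exact ⟨y, hy, h2 _ (hY _ (hsd i r _ hr2 hy)) hy2⟩

theorem finaldet (P : Par) (hP : P.Ok) (ω : Config) (h : ℕ → Fin 4 → ℤ) (hN : Nuc2 P ω h)
    (hS : SpecOk P ω) (M mT : ℕ) (hM : mT + 10 ≤ M) (z0 : Site)
    (hz0 : |z0.1| ≤ M ∧ |z0.2| ≤ M)
    (c1 : BadSpan (Set.Icc (z0.1 - M, z0.2 - M) (z0.1 + M, z0.2 + M)) {z | TBad P ω z} mT)
    (c2 : ∀ n : ℕ, ¬ NearBad (Set.Icc (z0.1 - M, z0.2 - M) (z0.1 + M, z0.2 + M))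
      {z | TBad P ω z} z0 n)
    (c3 : ∀ n ≤ mT, ¬ NearBad (Set.Icc (z0.1 - M, z0.2 - M) (z0.1 + M, z0.2 + M))
      {z | TBad P ω z ∧ ¬ (|z.1| ≤ 4 ∧ |z.2| ≤ 4)} (0, 0) n)
    (c4 : ∀ τ : Site, box P.T0 τ ⊆ {x | lay x ≤ (2 * M + 10) * P.T} →
      ∃ b : Site, (∀ b' ∈ swin P.s b, box P.D b' ⊆ box P.T0 τ) ∧ Nuc1 P ω b)
    (c5 : ∀ n : ℕ, ¬ NearBad (win (P.g * P.f) 1 z0) {β | WBad P.w P.d P.mw P.e P.s ω β}
      (z0.1 * (P.g * P.f : ℕ), z0.2 * (P.g * P.f : ℕ)) n) :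
    xi ω (P.T' + (5 * (2 * M + 10) * P.T) ^ 2) (z0.1 * P.T, z0.2 * P.T) = 2 := by
  obtain ⟨hW, hgf, hT, hWT, hTT', hTRs⟩ := fd_arith P hP
  -- the giant cluster of good `T`-boxes
  set badT : Set Site := {z | TBad P ω z ∧ ¬ (|z.1| ≤ 4 ∧ |z.2| ≤ 4)} with hbadT
  have hbT : badT ⊆ {z | TBad P ω z} := fun z hz => hz.1
  obtain ⟨GG, hGG⟩ := giant_exists (z0.1 - M, z0.2 - M) (z0.1 + M, z0.2 + M) mT
    (by simp only; omega) (by simp only; omega) badT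
    (fd_badSpan_mono subset_rfl hbT c1)
  have hz0G : z0 ∈ GG := by
    by_contra hcon
    obtain ⟨n, -, hn⟩ := giant_point hGG (x0 := z0)
      ⟨⟨by simp only; omega, by simp only; omega⟩, ⟨by simp only; omega, by simp only; omega⟩⟩ hcon
    exact c2 n (fd_nearBad_mono hbT hn)
  have h00G : ((0 : ℤ), (0 : ℤ)) ∈ GG := by
    by_contra hcon
    have h1 := abs_le.1 hz0.1
    have h2 := abs_le.1 hz0.2
    obtain ⟨n, hn', hn⟩ := giant_point hGG (x0 := (0, 0))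
      ⟨⟨by simp only; omega, by simp only; omega⟩, ⟨by simp only; omega, by simp only; omega⟩⟩ hcon
    exact c3 n hn' hn
  have hGG1 : ∀ z ∈ GG, |z.1| ≤ ((2 * M : ℕ) : ℤ) ∧ |z.2| ≤ ((2 * M : ℕ) : ℤ) := by
    intro z hz
    obtain ⟨⟨a1, a2⟩, ⟨a3, a4⟩⟩ := hGG.1 hz
    simp only at a1 a2 a3 a4
    have h1 := abs_le.1 hz0.1
    have h2 := abs_le.1 hz0.2
    constructor <;> rw [abs_le] <;> push_cast <;> constructor <;> omega
  -- the giant clusters of good `W`-blocks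
  set gf : ℕ := P.g * P.f with hgfdef
  set badW : Set Site := {β | WBad P.w P.d P.mw P.e P.s ω β ∧ β ∉ Kset} with hbadW
  have hbW : badW ⊆ {β | WBad P.w P.d P.mw P.e P.s ω β} := fun z hz => hz.1
  have hTz : (P.T : ℤ) = gf * P.W := by exact_mod_cast hT
  have hspanW : ∀ z ∈ GG, BadSpan (win gf 1 z) badW P.m := by
    intro z hz
    by_cases hz4 : |z.1| ≤ 4 ∧ |z.2| ≤ 4
    · intro C hC1 hC2 hC3
      refine hS.wspan C ?_ hC3
      intro β hβ
      refine ⟨(hC2 hβ).2, ?_, (hC2 hβ).1⟩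
      intro x hx
      have h1 : x ∈ win (gf * P.W) 2 z := fd_win_win (by omega) (by omega) (hC1 hβ) hx
      have h2 := fd_win_lay (N := 4) hz4 h1
      rw [← hT] at h2
      have h3 : (((4 + 1 + 2) * P.T : ℕ) : ℤ) ≤ P.Rs := by exact_mod_cast (by omega)
      exact h2.trans h3
    · have hnb : ¬ TBad P ω z := fun hc => hGG.2.1 z hz ⟨hc, hz4⟩
      intro C hC1 hC2 hC3
      by_contra hcon
      refine hnb (Or.inr (Or.inr ⟨C, ?_, hC3, hcon⟩))
      intro β hβ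
      refine ⟨?_, (hC2 hβ).1⟩
      intro x hx
      rw [hT]
      exact fd_win_win (by omega) (by omega) (hC1 hβ) hx
  have hG : ∀ z ∈ GG, ∃ G, IsGiant (win gf 1 z) badW P.m G := by
    intro z hz
    have h1 := hspanW z hz
    rw [win_eq_Icc] at h1 ⊢
    have h3 : (P.m : ℤ) + 2 ≤ gf := by exact_mod_cast hgf
    exact giant_exists _ _ P.m (by simp only; push_cast; nlinarith)
      (by simp only; push_cast; nlinarith) badW h1
  choose! G hG using hG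
  -- no zeros in the blocks of the giant clusters
  have hnz : ∀ z ∈ GG, ∀ β ∈ G z, β ∉ Kset → ∀ x ∈ box P.W β, xi ω P.T' x ≠ 0 := by
    intro z hz β hβ hK
    have hnW : ¬ WBad P.w P.d P.mw P.e P.s ω β := fun hc => (hG z hz).2.1 β hβ ⟨hc, hK⟩
    have hβw : β ∈ win gf 1 z := (hG z hz).1 hβ
    have hbox : box P.W β ⊆ win P.T 1 z := by
      intro x hx
      rw [hT]
      exact fd_box_win (by omega) hβw hx
    by_cases hz4 : |z.1| ≤ 4 ∧ |z.2| ≤ 4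
    · refine (specb P hP ω h hN hS).2 β hK ?_ hnW
      intro x hx
      have h2 := fd_win_lay (N := 4) hz4 (hbox hx)
      have h3 : (((4 + 1 + 1) * P.T : ℕ) : ℤ) ≤ 8 * P.T := by push_cast; nlinarith
      exact h2.trans h3
    · have hnb : ¬ TBad P ω z := fun hc => hGG.2.1 z hz ⟨hc, hz4⟩
      intro x hx
      refine fd_nz hTT' (gen P hP ω z hnb ?_ β hbox hnW x hx)
      intro τ hτ
      refine c4 τ ?_
      intro x hx
      have h2 := fd_win_lay (hGG1 z hz) (hτ hx)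
      refine h2.trans ?_
      push_cast
      nlinarith
  -- the closed set of twos
  set Y : Finset Site := (Finset.Icc ((-(((2 * M + 6) * P.T : ℕ) : ℤ), -(((2 * M + 6) * P.T : ℕ) : ℤ)) : Site)
    ((((2 * M + 6) * P.T : ℕ) : ℤ), (((2 * M + 6) * P.T : ℕ) : ℤ))).filter
      (fun x => xi ω P.T' x ≠ 0) with hYdef
  have hYmem : ∀ x, x ∈ Y ↔ lay x ≤ (((2 * M + 6) * P.T : ℕ) : ℤ) ∧ xi ω P.T' x ≠ 0 := by
    intro x
    rw [hYdef, Finset.mem_filter, Finset.mem_Icc, fd_lay]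
    constructor
    · rintro ⟨⟨⟨a1, a2⟩, ⟨a3, a4⟩⟩, h5⟩
      exact ⟨⟨⟨a1, a3⟩, ⟨a2, a4⟩⟩, h5⟩
    · rintro ⟨⟨⟨a1, a3⟩, ⟨a2, a4⟩⟩, h5⟩
      exact ⟨⟨⟨a1, a2⟩, ⟨a3, a4⟩⟩, h5⟩
  obtain ⟨C, hC1, hC2, hC3⟩ := twos_closed ω P.T' Y (fun x hx => ((hYmem x).1 hx).2)
  have hinit : ∀ x ∈ (Y : Set Site), ω x = 2 → x ∈ C := by
    intro x hx h2
    exact hC2 x hx (fd_two (Nat.zero_le _) h2)
  have hWlay : ∀ x, lay x ≤ P.W → x ∈ (Y : Set Site) := by
    intro x hx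
    refine (hYmem x).2 ⟨hx.trans ?_, (specb P hP ω h hN hS).1 x hx⟩
    have : P.W ≤ (2 * M + 6) * P.T := by nlinarith
    exact_mod_cast this
  have hcore : ∀ x, lay x ≤ P.W → x ∈ C :=
    fd_twos P hP ω h hN C Y hC3 hWlay hinit
  have hK : ∀ β ∈ Kset, box P.W β ⊆ C := by
    intro β hβ x hx
    refine hcore x ?_
    obtain ⟨x1, x2, x3, x4⟩ := hx
    rw [fd_lay]
    obtain ⟨h1 | h1, h2 | h2⟩ := hβ <;> rw [h1] at x1 x2 <;> rw [h2] at x3 x4 <;>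
      refine ⟨⟨?_, ?_⟩, ?_, ?_⟩ <;> nlinarith
  have hstep : ∀ z ∈ GG, ∀ β' ∈ G z, ∀ β ∈ G z, adj β' β → box P.W β' ⊆ C → box P.W β ⊆ C := by
    intro z hz β' hβ' β hβ hadj hb
    by_cases hKβ : β ∈ Kset
    · exact hK β hKβ
    · have hnW : ¬ WBad P.w P.d P.mw P.e P.s ω β := fun hc => (hG z hz).2.1 β hβ ⟨hc, hKβ⟩
      have hYb : box P.W β ⊆ (Y : Set Site) := by
        intro x hx
        refine (hYmem x).2 ⟨?_, hnz z hz β hβ hKβ x hx⟩
        have h1 := fd_box_win (by omega) ((hG z hz).1 hβ) hx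
        rw [← hT] at h1
        refine (fd_win_lay (hGG1 z hz) h1).trans ?_
        push_cast
        nlinarith
      refine wclose C Y hC3 P.W β β' (adj_symm hadj) hb hYb ?_ ?_
      · intro i hi1 hi2
        by_contra hcon
        push Not at hcon
        refine hnW (Or.inr (Or.inl ⟨i, hi1, hi2, ?_⟩))
        intro x hx hxi h2
        exact hcon x hx hxi (hinit x (hYb hx) h2)
      · intro i hi1 hi2
        by_contra hcon
        push Not at hcon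
        refine hnW (Or.inr (Or.inr ⟨i, hi1, hi2, ?_⟩))
        intro x hx hxi h2
        exact hcon x hx hxi (hinit x (hYb hx) h2)
  have hprop : ∀ z ∈ GG, (∃ β ∈ G z, box P.W β ⊆ C) → ∀ β ∈ G z, box P.W β ⊆ C := by
    intro z hz hex
    exact fd_conn_G (hG z hz).2.2.2.1 hex (fun x hx y hy hxy hQ => hstep z hz x hx y hy hxy hQ)
  have h00 : ((0 : ℤ), (0 : ℤ)) ∈ G (0, 0) := by
    by_contra hcon
    have h1 := hG _ h00G
    have h2 := hS.wnear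
    rw [win_eq_Icc] at h1 h2
    obtain ⟨n, hn', hn⟩ := giant_point h1 (x0 := (0, 0))
      ⟨⟨by simp only; push_cast; omega, by simp only; push_cast; omega⟩,
        ⟨by simp only; push_cast; omega, by simp only; push_cast; omega⟩⟩ hcon
    exact h2 n hn
  have hall : ∀ z ∈ GG, ∀ β ∈ G z, box P.W β ⊆ C := by
    refine fd_conn_ind hGG.2.2.2.1 h00G ?_ ?_
    · exact hprop _ h00G ⟨_, h00, hK _ ⟨Or.inl rfl, Or.inl rfl⟩⟩
    · intro z hz z' hz' hadj hQ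
      refine hprop z' hz' ?_
      have hIcc : ∃ u v : Site, u.1 + P.m + 1 ≤ v.1 ∧ u.2 + P.m + 1 ≤ v.2 ∧
          Set.Icc u v ⊆ win gf 1 z ∧ Set.Icc u v ⊆ win gf 1 z' := by
        have hgf' : (P.m : ℤ) + 2 ≤ gf := by exact_mod_cast hgf
        have hzz : (z.1 - 1 ≤ z'.1 ∧ z'.1 ≤ z.1 + 1) ∧ (z.2 - 1 ≤ z'.2 ∧ z'.2 ≤ z.2 + 1) := by
          simp only [adj, nb, Finset.mem_insert, Finset.mem_singleton] at hadj
          rcases hadj with h1 | h1 | h1 | h1 <;> rw [h1] <;> refine ⟨⟨?_, ?_⟩, ?_, ?_⟩ <;>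
            simp only <;> omega
        obtain ⟨⟨e1, e2⟩, e3, e4⟩ := hzz
        refine ⟨(z.1 * gf, z.2 * gf), ((z.1 + 1) * gf - 1, (z.2 + 1) * gf - 1), ?_, ?_, ?_, ?_⟩
        · simp only; nlinarith
        · simp only; nlinarith
        · rintro x ⟨⟨a1, a2⟩, ⟨a3, a4⟩⟩
          simp only at a1 a2 a3 a4
          refine ⟨?_, ?_, ?_, ?_⟩ <;> push_cast <;> nlinarith
        · rintro x ⟨⟨a1, a2⟩, ⟨a3, a4⟩⟩
          simp only at a1 a2 a3 a4
          refine ⟨?_, ?_, ?_, ?_⟩ <;> push_cast <;> nlinarith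
      obtain ⟨u, v, huv1, huv2, huv3, huv4⟩ := hIcc
      obtain ⟨x, -, hx1, hx2⟩ := giant_overlap u v huv1 huv2 huv3 huv4
        (fd_badSpan_mono huv3 subset_rfl (hspanW z hz)) (hG z hz) (hG z' hz')
      exact ⟨x, hx2, hQ x hx1⟩
  have hβ0 : ((z0.1 * (gf : ℕ), z0.2 * (gf : ℕ)) : Site) ∈ G z0 := by
    by_contra hcon
    have h1 := hG _ hz0G
    have h2 := c5
    rw [win_eq_Icc] at h1 h2
    obtain ⟨n, hn', hn⟩ := giant_point h1 (x0 := (z0.1 * (gf : ℕ), z0.2 * (gf : ℕ)))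
      ⟨⟨by simp only; push_cast; nlinarith, by simp only; push_cast; nlinarith⟩,
        ⟨by simp only; push_cast; nlinarith, by simp only; push_cast; nlinarith⟩⟩ hcon
    exact h2 n (fd_nearBad_mono hbW hn)
  have hmem : ((z0.1 * P.T, z0.2 * P.T) : Site) ∈ C := by
    refine hall z0 hz0G _ hβ0 ?_
    have hWpos : (0 : ℤ) < P.W := by exact_mod_cast (by omega : 0 < P.W)
    refine ⟨?_, ?_, ?_, ?_⟩ <;> simp only [hTz] <;> nlinarith
  refine fd_two ?_ (hC1 _ hmem).2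
  have hcard : Y.card ≤ (5 * (2 * M + 10) * P.T) ^ 2 := by
    refine (Finset.card_filter_le _ _).trans ?_
    rw [Finset.card_Icc_prod]
    simp only [Int.card_Icc]
    have h1 : ((((2 * M + 6) * P.T : ℕ) : ℤ) + 1 - -(((2 * M + 6) * P.T : ℕ) : ℤ)).toNat
        = 2 * ((2 * M + 6) * P.T) + 1 := by omega
    rw [h1, ← sq]
    refine Nat.pow_le_pow_left ?_ 2
    nlinarith
  omega

end TSB
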