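import Pool.Agent.TSB.Defs

open MeasureTheory
open scoped Classical

namespace TSB

/-! ## Module MU -/

theorem mu_siteLaw_apply (p q : ℝ) (A : Set (Fin 3)) :
    siteLaw p q A = ENNReal.ofReal (1 - p - q) * A.indicator 1 0 +
      ENNReal.ofReal p * A.indicator 1 1 + ENNReal.ofReal q * A.indicator 1 2 := by
  unfold siteLaw
  simp [Measure.dirac_apply' _ (MeasurableSet.of_discrete (s := A))]

theorem mu_siteLaw_isProb {p q : ℝ} (hp : 0 ≤ p) (hq : 0 ≤ q) (h : p + q ≤ 1) :
    IsProbabilityMeasure (siteLaw p q) := by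
  constructor
  rw [mu_siteLaw_apply]
  simp only [Set.indicator_univ, Pi.one_apply, mul_one]
  rw [← ENNReal.ofReal_add (by linarith) hp, ← ENNReal.ofReal_add (by linarith) hq,
    show 1 - p - q + p + q = 1 by ring, ENNReal.ofReal_one]

theorem law_isProb {p q : ℝ} (hp : 0 ≤ p) (hq : 0 ≤ q) (h : p + q ≤ 1) :
    IsProbabilityMeasure (law p q) := by
  have := mu_siteLaw_isProb hp hq h
  unfold law
  infer_instance

theorem siteLaw_real {p q : ℝ} (hp : 0 ≤ p) (hq : 0 ≤ q) (h : p + q ≤ 1) (A : Set (Fin 3)) :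
    (siteLaw p q).real A = (if (0 : Fin 3) ∈ A then 1 - p - q else 0)
      + (if (1 : Fin 3) ∈ A then p else 0) + (if (2 : Fin 3) ∈ A then q else 0) := by
  have h1 : (0 : ℝ) ≤ 1 - p - q := by linarith
  rw [Measure.real, mu_siteLaw_apply]
  have t1 : ∀ (i : Fin 3) (x : ℝ), ENNReal.ofReal x * A.indicator (1 : Fin 3 → ENNReal) i =
      ENNReal.ofReal (if i ∈ A then x else 0) := by
    intro i x
    by_cases hi : i ∈ A <;> simp [hi]
  rw [t1, t1, t1]
  have n0 : (0 : ℝ) ≤ if (0 : Fin 3) ∈ A then 1 - p - q else 0 := by split_ifs <;> linarith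
  have n1 : (0 : ℝ) ≤ if (1 : Fin 3) ∈ A then p else 0 := by split_ifs <;> linarith
  have n2 : (0 : ℝ) ≤ if (2 : Fin 3) ∈ A then q else 0 := by split_ifs <;> linarith
  rw [← ENNReal.ofReal_add n0 n1, ← ENNReal.ofReal_add (add_nonneg n0 n1) n2,
    ENNReal.toReal_ofReal (add_nonneg (add_nonneg n0 n1) n2)]

/-- the law of a product event -/
theorem law_sites {p q : ℝ} (hp : 0 ≤ p) (hq : 0 ≤ q) (h : p + q ≤ 1) (S : Finset Site)
    (A : Site → Set (Fin 3)) :
    (law p q).real {ω | ∀ x ∈ S, ω x ∈ A x} = ∏ x ∈ S, (siteLaw p q).real (A x) := by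
  have := mu_siteLaw_isProb hp hq h
  have e : {ω : Config | ∀ x ∈ S, ω x ∈ A x} = Set.pi (S : Set Site) A := by
    ext ω; simp [Set.mem_pi]
  rw [e, Measure.real, law, Measure.infinitePi_pi _ (fun i _ => MeasurableSet.of_discrete),
    ENNReal.toReal_prod]
  rfl

theorem law_cyl {p q : ℝ} (hp : 0 ≤ p) (hq : 0 ≤ q) (h : p + q ≤ 1) (τ : Tri) (hτ : Disj3 τ) :
    (law p q).real (cyl τ) = wt q (1 - p) (1 - q) τ := by
  obtain ⟨Z, Y, X⟩ := τ
  obtain ⟨h1, h2, h3⟩ := hτ
  simp only at h1 h2 h3
  have e : cyl (Z, Y, X) = {ω : Config | ∀ x ∈ Z ∪ (Y ∪ X), ω x ∈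
      (if x ∈ Z then {2} else if x ∈ Y then {1}ᶜ else {2}ᶜ : Set (Fin 3))} := by
    ext ω
    simp only [cyl, Set.mem_ofPred_eq, Finset.mem_union]
    constructor
    · rintro ⟨g1, g2, g3⟩ x hx
      by_cases hz : x ∈ Z
      · rw [if_pos hz]; exact g1 x hz
      · rw [if_neg hz]
        by_cases hy : x ∈ Y
        · rw [if_pos hy]; exact g2 x hy
        · rw [if_neg hy]
          exact g3 x (by tauto)
    · intro g
      refine ⟨fun x hx => ?_, fun x hx => ?_, fun x hx => ?_⟩
      · have := g x (Or.inl hx)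
        rwa [if_pos hx] at this
      · have := g x (Or.inr (Or.inl hx))
        rwa [if_neg (Finset.disjoint_right.mp h1 hx), if_pos hx] at this
      · have := g x (Or.inr (Or.inr hx))
        rwa [if_neg (Finset.disjoint_right.mp h2 hx), if_neg (Finset.disjoint_right.mp h3 hx)]
          at this
  rw [e, law_sites hp hq h, Finset.prod_union (Finset.disjoint_union_right.mpr ⟨h1, h2⟩),
    Finset.prod_union h3]
  have e1 : ∏ x ∈ Z, (siteLaw p q).real (if x ∈ Z then {2} else if x ∈ Y then {1}ᶜ else {2}ᶜ) =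
      q ^ Z.card := by
    rw [Finset.prod_congr rfl (g := fun _ => q), Finset.prod_const]
    intro x hx
    rw [if_pos hx, siteLaw_real hp hq h]
    simp
  have e2 : ∏ x ∈ Y, (siteLaw p q).real (if x ∈ Z then {2} else if x ∈ Y then {1}ᶜ else {2}ᶜ) =
      (1 - p) ^ Y.card := by
    rw [Finset.prod_congr rfl (g := fun _ => 1 - p), Finset.prod_const]
    intro x hx
    rw [if_neg (Finset.disjoint_right.mp h1 hx), if_pos hx, siteLaw_real hp hq h]
    simp
  have e3 : ∏ x ∈ X, (siteLaw p q).real (if x ∈ Z then {2} else if x ∈ Y then {1}ᶜ else {2}ᶜ) =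
      (1 - q) ^ X.card := by
    rw [Finset.prod_congr rfl (g := fun _ => 1 - q), Finset.prod_const]
    intro x hx
    rw [if_neg (Finset.disjoint_right.mp h2 hx), if_neg (Finset.disjoint_right.mp h3 hx),
      siteLaw_real hp hq h]
    simp
    ring
  rw [e1, e2, e3]
  unfold wt
  ring

theorem law_dom {p q : ℝ} (hp : 0 ≤ p) (hq : 0 ≤ q) (h : p + q ≤ 1) :
    Dom (law p q) (2 * q) (1 - p / 2) (1 - q) Set.univ Set.univ := by
  intro τ hτ _ _ _
  rw [law_cyl hp hq h τ hτ]
  unfold wt
  apply mul_le_mul_of_nonneg_right _ (pow_nonneg (by linarith) _)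
  apply mul_le_mul
  · exact pow_le_pow_left₀ hq (by linarith) _
  · exact pow_le_pow_left₀ (by linarith) (by linarith) _
  · exact pow_nonneg (by linarith) _
  · exact pow_nonneg (by linarith) _

theorem mu_dep_eq {E : Set Config} {R : Finset Site} (h : DepOn E R) :
    E = (fun (ω : Config) (i : R) => ω i) ⁻¹' ((fun (ω : Config) (i : R) => ω i) '' E) := by
  ext ω
  constructor
  · intro hω
    exact ⟨ω, hω, rfl⟩
  · rintro ⟨ω', hω', he⟩
    refine (h ω' ω fun x hx => ?_).mp hω'
    exact congrFun he ⟨x, hx⟩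

theorem mu_meas_restrict (R : Finset Site) :
    Measurable (fun (ω : Config) (i : R) => ω i) := by
  fun_prop

theorem depOn_measurable {E : Set Config} {R : Finset Site} (h : DepOn E R) :
    MeasurableSet E := by
  rw [mu_dep_eq h]
  exact mu_meas_restrict R (Set.toFinite _).measurableSet

theorem mu_indep {p q : ℝ} (hp : 0 ≤ p) (hq : 0 ≤ q) (h : p + q ≤ 1) {E F : Set Config}
    {R S : Finset Site} (hE : DepOn E R) (hF : DepOn F S) (hRS : Disjoint R S) :
    (law p q).real (E ∩ F) = (law p q).real E * (law p q).real F := by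
  have := mu_siteLaw_isProb hp hq h
  have h1 : ProbabilityTheory.iIndepFun (fun (x : Site) (ω : Config) => ω x) (law p q) := by
    unfold law
    exact ProbabilityTheory.iIndepFun_infinitePi (X := fun _ => id) (fun _ => measurable_id)
  have h2 := h1.indepFun_finset R S hRS (fun i => measurable_pi_apply i)
  have h3 := h2.measure_inter_preimage_eq_mul _ _
    (Set.toFinite ((fun (ω : Config) (i : R) => ω i) '' E)).measurableSet
    (Set.toFinite ((fun (ω : Config) (i : S) => ω i) '' F)).measurableSet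
  rw [← mu_dep_eq hE, ← mu_dep_eq hF] at h3
  rw [Measure.real, h3, ENNReal.toReal_mul]
  rfl

theorem law_prod {p q : ℝ} (hp : 0 ≤ p) (hq : 0 ≤ q) (h : p + q ≤ 1) {ι : Type*} (I : Finset ι)
    (E : ι → Set Config) (R : ι → Finset Site) (hE : ∀ i ∈ I, DepOn (E i) (R i))
    (hR : ∀ i ∈ I, ∀ j ∈ I, i ≠ j → Disjoint (R i) (R j)) :
    (law p q).real {ω | ∀ i ∈ I, ω ∈ E i} = ∏ i ∈ I, (law p q).real (E i) := by
  have := law_isProb hp hq h
  induction I using Finset.induction_on with
  | empty => simp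
  | insert a s ha ih =>
    rw [Finset.prod_insert ha]
    have h1 := ih (fun i hi => hE i (Finset.mem_insert_of_mem hi))
      (fun i hi j hj => hR i (Finset.mem_insert_of_mem hi) j (Finset.mem_insert_of_mem hj))
    rw [← h1]
    have e : {ω : Config | ∀ i ∈ insert a s, ω ∈ E i} = E a ∩ {ω | ∀ i ∈ s, ω ∈ E i} := by
      ext ω
      simp [Finset.mem_insert]
    rw [e]
    apply mu_indep hp hq h (hE a (Finset.mem_insert_self a s)) (S := s.biUnion R)
    · intro ω ω' hω
      simp only [Set.mem_ofPred_eq]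
      apply forall₂_congr
      intro i hi
      apply hE i (Finset.mem_insert_of_mem hi)
      intro x hx
      exact hω x (Finset.mem_biUnion.mpr ⟨i, hi, hx⟩)
    · rw [Finset.disjoint_biUnion_right]
      intro i hi
      apply hR a (Finset.mem_insert_self a s) i (Finset.mem_insert_of_mem hi)
      rintro rfl
      exact ha hi

theorem law_shift {p q : ℝ} (hp : 0 ≤ p) (hq : 0 ≤ q) (h : p + q ≤ 1) (u : Site)
    {E : Set Config} {R : Finset Site} (hE : DepOn E R) :
    (law p q).real {ω | shift u ω ∈ E} = (law p q).real E := by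
  have := mu_siteLaw_isProb hp hq h
  let e : Site ≃ Site := Equiv.subRight u
  have h1 := Measure.infinitePi_map_piCongrLeft (μ := fun _ : Site => siteLaw p q) e
  have hm : Measurable (shift u) := by
    unfold shift
    fun_prop
  have h2 : (law p q).map (shift u) = law p q := by
    unfold law
    refine Eq.trans ?_ h1
    congr 1
    funext ω x
    rw [MeasurableEquiv.coe_piCongrLeft]
    have hx : x = e (x.1 + u.1, x.2 + u.2) := by
      show x = (x.1 + u.1, x.2 + u.2) - u
      ext <;> simp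
    conv_rhs => rw [hx]
    rw [Equiv.piCongrLeft_apply_apply]
    rfl
  have h3 : (law p q).real E = ((law p q).map (shift u)).real E := by rw [h2]
  rw [h3, Measure.real, Measure.real, Measure.map_apply hm (depOn_measurable hE)]
  rfl

end TSB
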