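import Pool.Agent.TSB.Wit

open MeasureTheory
open scoped Classical

namespace TSB

private def pathsGraph (C : Set Site) : SimpleGraph Site where
  Adj a b := a ≠ b ∧ a ∈ C ∧ b ∈ C ∧ star a b
  symm := ⟨by
    rintro a b ⟨h1, h2, h3, h4, h5⟩
    refine ⟨h1.symm, h3, h2, ?_, ?_⟩
    · rw [abs_sub_comm]; exact h4
    · rw [abs_sub_comm]; exact h5⟩
  loopless := ⟨fun a h => h.1 rfl⟩

private theorem paths_reach {C : Set Site} {x y : Site}
    (h : Relation.ReflTransGen (fun a b => a ∈ C ∧ b ∈ C ∧ star a b) x y) :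
    (pathsGraph C).Reachable x y := by
  induction h with
  | refl => exact SimpleGraph.Reachable.refl _
  | @tail b c _ h2 ih =>
    by_cases hbc : b = c
    · rw [← hbc]; exact ih
    · exact ih.trans (SimpleGraph.Adj.reachable ⟨hbc, h2⟩)

theorem starPath_of_conn {C : Set Site} (hC : Conn star C) {x y : Site} (hx : x ∈ C) (hy : y ∈ C)
    {n : ℕ} (h : (n : ℤ) ≤ |x.1 - y.1| ∨ (n : ℤ) ≤ |x.2 - y.2|) : StarPath C x n := by
  obtain ⟨p⟩ := paths_reach (hC x hx y hy)
  set w : (pathsGraph C).Walk x y := p.bypass with hw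
  have hpath : w.IsPath := p.bypass_isPath
  have hstep : ∀ i, i < w.length → (pathsGraph C).Adj (w.getVert i) (w.getVert (i + 1)) :=
    fun i hi => w.adj_getVert_succ hi
  have hdist : ∀ i, i ≤ w.length → |x.1 - (w.getVert i).1| ≤ i ∧ |x.2 - (w.getVert i).2| ≤ i := by
    intro i
    induction i with
    | zero => intro _; simp
    | succ i ih =>
      intro hi
      obtain ⟨h1, h2⟩ := ih (by omega)
      obtain ⟨-, -, -, h3, h4⟩ := hstep i (by omega)
      rw [abs_le] at h1 h2 h3 h4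
      rw [abs_le, abs_le]
      push_cast
      constructor <;> constructor <;> linarith [h1.1, h1.2, h2.1, h2.2, h3.1, h3.2, h4.1, h4.2]
  have hn : n ≤ w.length := by
    obtain ⟨h1, h2⟩ := hdist w.length le_rfl
    rw [w.getVert_length] at h1 h2
    rcases h with h | h
    · have := h.trans h1; exact_mod_cast this
    · have := h.trans h2; exact_mod_cast this
  refine ⟨w.getVert, w.getVert_zero, ?_, ?_, ?_⟩
  · intro i hi
    rcases i with _ | i
    · rw [w.getVert_zero]; exact hx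
    · exact (hstep i (by omega)).2.2.1
  · intro i hi
    exact (hstep i (by omega)).2.2.2
  · exact hpath.getVert_injOn.mono fun i hi => by
      simp only [Set.mem_Iic] at hi
      simp only [Set.mem_ofPred_eq]
      omega

theorem far_subset (S : Finset Site) : ∃ S' ⊆ S, S.card ≤ 81 * S'.card ∧
    ∀ x ∈ S', ∀ y ∈ S', x ≠ y → 5 ≤ |x.1 - y.1| ∨ 5 ≤ |x.2 - y.2| := by
  induction S using Finset.strongInduction with
  | H S ih =>
    rcases S.eq_empty_or_nonempty with rfl | ⟨x, hx⟩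
    · exact ⟨∅, by simp, by simp, by simp⟩
    · set S1 := S.filter (fun y : Site => 5 ≤ |x.1 - y.1| ∨ 5 ≤ |x.2 - y.2|) with hS1
      have hss : S1 ⊂ S := by
        refine Finset.ssubset_iff_subset_ne.mpr ⟨Finset.filter_subset _ _, fun he => ?_⟩
        rw [← he, hS1, Finset.mem_filter] at hx
        simp at hx
      obtain ⟨S', h1, h2, h3⟩ := ih S1 hss
      have hxS : x ∉ S' := by
        intro h
        have := h1 h
        rw [hS1, Finset.mem_filter] at this
        simp at this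
      refine ⟨insert x S', ?_, ?_, ?_⟩
      · intro y hy
        rcases Finset.mem_insert.mp hy with rfl | hy
        · exact hx
        · exact (Finset.filter_subset _ _) (h1 hy)
      · rw [Finset.card_insert_of_notMem hxS]
        have h4 := Finset.card_filter_add_card_filter_not (s := S)
          (fun y : Site => 5 ≤ |x.1 - y.1| ∨ 5 ≤ |x.2 - y.2|)
        have h5 : (S.filter (fun y : Site => ¬ (5 ≤ |x.1 - y.1| ∨ 5 ≤ |x.2 - y.2|))).card ≤ 81 := by
          have hsub : S.filter (fun y : Site => ¬ (5 ≤ |x.1 - y.1| ∨ 5 ≤ |x.2 - y.2|)) ⊆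
              Finset.Icc (x.1 - 4) (x.1 + 4) ×ˢ Finset.Icc (x.2 - 4) (x.2 + 4) := by
            intro y hy
            rw [Finset.mem_filter, not_or, not_le, not_le, abs_lt, abs_lt] at hy
            rw [Finset.mem_product, Finset.mem_Icc, Finset.mem_Icc]
            omega
          refine (Finset.card_le_card hsub).trans (le_of_eq ?_)
          rw [Finset.card_product, Int.card_Icc, Int.card_Icc]
          have e1 : (x.1 + 4 + 1 - (x.1 - 4)).toNat = 9 := by
            rw [show x.1 + 4 + 1 - (x.1 - 4) = 9 by ring]; rfl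
          have e2 : (x.2 + 4 + 1 - (x.2 - 4)).toNat = 9 := by
            rw [show x.2 + 4 + 1 - (x.2 - 4) = 9 by ring]; rfl
          rw [e1, e2]
        rw [← hS1] at h4
        omega
      · intro y hy z hz hyz
        rcases Finset.mem_insert.mp hy with hy' | hy'
        · rcases Finset.mem_insert.mp hz with hz' | hz'
          · exact absurd (hy'.trans hz'.symm) hyz
          · rw [hy']
            exact (Finset.mem_filter.mp (h1 hz')).2
        · rcases Finset.mem_insert.mp hz with hz' | hz'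
          · have := (Finset.mem_filter.mp (h1 hy')).2
            rw [hz', abs_sub_comm, abs_sub_comm y.2]
            exact this
          · exact h3 y hy' z hz' hyz

private theorem paths_wit_empty {a b c : ℝ} {V R : Set Site} {δ : ℝ} (hδ : 0 ≤ δ) :
    Wit a b c V R δ ∅ :=
  ⟨∅, fun τ hτ => absurd hτ (Finset.notMem_empty τ), fun ω hω => absurd hω (Set.notMem_empty ω),
    by simpa using hδ⟩

private theorem paths_wit_inter {a b c : ℝ} {V : Set Site} {δ : ℝ} (ha : 0 ≤ a) (hb : 0 ≤ b)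
    (hc : 0 ≤ c) (Bad : Site → Set Config) (Reg : Site → Set Site) (S : Finset Site)
    (hbad : ∀ z ∈ S, Wit a b c V (Reg z) δ (Bad z))
    (hdisj : ∀ z ∈ S, ∀ z' ∈ S, z ≠ z' → Disjoint (Reg z) (Reg z')) :
    Wit a b c V {y | ∃ z ∈ S, y ∈ Reg z} (δ ^ S.card) {ω | ∀ z ∈ S, ω ∈ Bad z} := by
  induction S using Finset.induction_on with
  | empty =>
    refine ⟨{(∅, ∅, ∅)}, ?_, ?_, ?_⟩
    · intro τ hτ
      rw [Finset.mem_singleton] at hτ
      subst hτ
      simp [Disj3]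
    · intro ω _
      exact ⟨(∅, ∅, ∅), Finset.mem_singleton_self _, by simp [cyl]⟩
    · simp [wt]
  | insert z S hz ih =>
    have h1 := hbad z (Finset.mem_insert_self _ _)
    have h2 := ih (fun y hy => hbad y (Finset.mem_insert_of_mem hy))
      (fun y hy y' hy' => hdisj y (Finset.mem_insert_of_mem hy) y' (Finset.mem_insert_of_mem hy'))
    have h3 : Disjoint (Reg z) {y | ∃ z ∈ S, y ∈ Reg z} := by
      rw [Set.disjoint_left]
      rintro y hy ⟨z', hz', hy'⟩
      refine Set.disjoint_left.mp (hdisj z (Finset.mem_insert_self _ _) z'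
        (Finset.mem_insert_of_mem hz') ?_) hy hy'
      rintro rfl
      exact hz hz'
    rw [Finset.card_insert_of_notMem hz, pow_succ, mul_comm]
    refine wit_mono (wit_inter ha hb hc h3 h1 h2) (fun _ h => h) ?_ le_rfl ?_
    · rintro y (hy | ⟨z', hz', hy⟩)
      · exact ⟨z, Finset.mem_insert_self _ _, hy⟩
      · exact ⟨z', Finset.mem_insert_of_mem hz', hy⟩
    · intro ω hω
      exact ⟨hω z (Finset.mem_insert_self _ _), fun y hy => hω y (Finset.mem_insert_of_mem hy)⟩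

private def pathsSteps : Finset Site :=
  {(1, 0), (-1, 0), (0, 1), (0, -1), (1, 1), (1, -1), (-1, 1), (-1, -1)}

private def pathsVert (x : Site) (n : ℕ) (s : Fin n → Site) (i : ℕ) : Site :=
  x + ∑ j ∈ Finset.range i, (if h : j < n then s ⟨j, h⟩ else 0)

private theorem paths_mem_steps {y z : Site} (h : star y z) (hne : y ≠ z) : z - y ∈ pathsSteps := by
  obtain ⟨h1, h2⟩ := h
  rw [abs_le] at h1 h2
  obtain ⟨y1, y2⟩ := y
  obtain ⟨z1, z2⟩ := z
  simp only at h1 h2
  have h3 : ¬ (y1 = z1 ∧ y2 = z2) := fun h => hne (by rw [h.1, h.2])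
  simp only [pathsSteps, Finset.mem_insert, Finset.mem_singleton, Prod.mk_sub_mk, Prod.mk.injEq]
  omega

theorem wit_path {a b c : ℝ} {V R : Set Site} {δ : ℝ} (ha : 0 ≤ a) (hb : 0 ≤ b) (hc : 0 ≤ c)
    (hδ : 0 ≤ δ) (hδ1 : δ ≤ 1) (Λ : Set Site) (Bad : Site → Set Config) (Reg : Site → Set Site)
    (hbad : ∀ z ∈ Λ, Wit a b c V (Reg z) δ (Bad z)) (hreg : ∀ z ∈ Λ, Reg z ⊆ R)
    (hdisj : ∀ z ∈ Λ, ∀ z' ∈ Λ, 5 ≤ |z.1 - z'.1| ∨ 5 ≤ |z.2 - z'.2| → Disjoint (Reg z) (Reg z'))
    (x : Site) (n : ℕ) :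
    Wit a b c V R (8 ^ n * δ ^ ((n + 81) / 81)) {ω | StarPath {z | z ∈ Λ ∧ ω ∈ Bad z} x n} := by
  have hone : ∀ s : Fin n → Site, Wit a b c V R (δ ^ ((n + 81) / 81))
      {ω | Set.InjOn (pathsVert x n s) (Set.Iic n) ∧
        ∀ i ≤ n, pathsVert x n s i ∈ Λ ∧ ω ∈ Bad (pathsVert x n s i)} := by
    intro s
    by_cases hs : Set.InjOn (pathsVert x n s) (Set.Iic n) ∧ ∀ i ≤ n, pathsVert x n s i ∈ Λ
    · obtain ⟨hs1, hs2⟩ := hs
      set S := (Finset.range (n + 1)).image (pathsVert x n s) with hS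
      have hcard : S.card = n + 1 := by
        rw [hS, Finset.card_image_of_injOn, Finset.card_range]
        intro i hi j hj hij
        simp only [Finset.coe_range, Set.mem_Iio] at hi hj
        exact hs1 (Set.mem_Iic.mpr (by omega)) (Set.mem_Iic.mpr (by omega)) hij
      obtain ⟨S', h1, h2, h3⟩ := far_subset S
      have hSΛ : ∀ z ∈ S', z ∈ Λ := by
        intro z hz
        obtain ⟨i, hi, rfl⟩ := Finset.mem_image.mp (h1 hz)
        exact hs2 i (by rw [Finset.mem_range] at hi; omega)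
      have h4 := paths_wit_inter ha hb hc Bad Reg S' (fun z hz => hbad z (hSΛ z hz))
        (fun z hz z' hz' hne => hdisj z (hSΛ z hz) z' (hSΛ z' hz') (h3 z hz z' hz' hne))
      refine wit_mono h4 (fun _ h => h) ?_ ?_ ?_
      · rintro y ⟨z, hz, hy⟩
        exact hreg z (hSΛ z hz) hy
      · refine pow_le_pow_of_le_one hδ hδ1 ?_
        omega
      · rintro ω ⟨-, hω⟩ z hz
        obtain ⟨i, hi, rfl⟩ := Finset.mem_image.mp (h1 hz)
        exact (hω i (by rw [Finset.mem_range] at hi; omega)).2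
    · refine wit_mono (paths_wit_empty (V := V) (R := R) (pow_nonneg hδ _)) (fun _ h => h)
        (fun _ h => h) le_rfl ?_
      rintro ω ⟨h1, h2⟩
      exact (hs ⟨h1, fun i hi => (h2 i hi).1⟩).elim
  have hall := wit_biUnion (Fintype.piFinset (fun _ : Fin n => pathsSteps))
    (fun _ => δ ^ ((n + 81) / 81)) (fun s => {ω | Set.InjOn (pathsVert x n s) (Set.Iic n) ∧
        ∀ i ≤ n, pathsVert x n s i ∈ Λ ∧ ω ∈ Bad (pathsVert x n s i)}) ha hb hc
    (fun s _ => hone s)
  rw [Finset.sum_const, Fintype.card_piFinset_const, nsmul_eq_mul] at hall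
  have hc8 : pathsSteps.card = 8 := by decide
  rw [hc8] at hall
  push_cast at hall
  refine wit_mono hall (fun _ h => h) (fun _ h => h) le_rfl ?_
  rintro ω ⟨f, hf0, hf1, hf2, hf3⟩
  set s : Fin n → Site := fun i => f (i + 1) - f i with hs
  have hvert : ∀ i ≤ n, pathsVert x n s i = f i := by
    intro i
    induction i with
    | zero =>
      intro _
      simp [pathsVert, hf0]
    | succ i ih =>
      intro hi
      have h1 := ih (by omega)
      unfold pathsVert at h1 ⊢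
      rw [Finset.sum_range_succ, ← add_assoc, h1, dif_pos (by omega)]
      simp [hs]
  refine ⟨s, ?_, ?_, ?_⟩
  · rw [Fintype.mem_piFinset]
    intro i
    refine paths_mem_steps (hf2 i i.2) ?_
    intro he
    have := hf3 (Set.mem_Iic.mpr i.2.le) (Set.mem_Iic.mpr (show (i : ℕ) + 1 ≤ n from i.2)) he
    omega
  · intro i hi j hj hij
    rw [hvert i hi, hvert j hj] at hij
    exact hf3 hi hj hij
  · intro i hi
    rw [hvert i hi]
    exact hf1 i hi

private theorem paths_starPath_mono {C C' : Set Site} (h : C ⊆ C') {x : Site} {n : ℕ}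
    (hp : StarPath C x n) : StarPath C' x n := by
  obtain ⟨f, h0, h1, h2, h3⟩ := hp
  exact ⟨f, h0, fun i hi => h (h1 i hi), h2, h3⟩

theorem wit_badspan {a b c : ℝ} {V R : Set Site} {δ : ℝ} (ha : 0 ≤ a) (hb : 0 ≤ b) (hc : 0 ≤ c)
    (hδ : 0 ≤ δ) (hδ1 : δ ≤ 1) (Λ : Finset Site) (Bad : Site → Set Config)
    (Reg : Site → Set Site)
    (hbad : ∀ z ∈ Λ, Wit a b c V (Reg z) δ (Bad z)) (hreg : ∀ z ∈ Λ, Reg z ⊆ R)
    (hdisj : ∀ z ∈ Λ, ∀ z' ∈ Λ, 5 ≤ |z.1 - z'.1| ∨ 5 ≤ |z.2 - z'.2| → Disjoint (Reg z) (Reg z'))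
    (m : ℕ) :
    Wit a b c V R (spanW m δ Λ.card)
      {ω | ∃ C : Set Site, (∀ z ∈ C, z ∈ Λ ∧ ω ∈ Bad z) ∧ Conn star C ∧ ¬ SpanLe m C} := by
  have h1 := wit_biUnion Λ (fun _ => 8 ^ (m + 1) * δ ^ ((m + 1 + 81) / 81))
    (fun x => {ω | StarPath {z | z ∈ (Λ : Set Site) ∧ ω ∈ Bad z} x (m + 1)}) ha hb hc
    (fun x _ => wit_path (V := V) (R := R) ha hb hc hδ hδ1 (Λ : Set Site) Bad Reg hbad hreg hdisj
      x (m + 1))
  rw [Finset.sum_const, nsmul_eq_mul, ← mul_assoc] at h1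
  refine wit_mono h1 (fun _ h => h) (fun _ h => h) le_rfl ?_
  rintro ω ⟨C, hC1, hC2, hC3⟩
  unfold SpanLe at hC3
  push Not at hC3
  obtain ⟨x, hx, y, hy, hxy⟩ := hC3
  refine ⟨x, (hC1 x hx).1, ?_⟩
  refine paths_starPath_mono (C := C) (fun z hz => hC1 z hz) ?_
  refine starPath_of_conn hC2 hx hy ?_
  by_cases h : |x.1 - y.1| ≤ m
  · right
    have := hxy h
    push_cast
    omega
  · left
    push_cast
    omega

theorem wit_nearbad {a b c : ℝ} {V R : Set Site} {δ : ℝ} (ha : 0 ≤ a) (hb : 0 ≤ b) (hc : 0 ≤ c)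
    (hδ : 0 ≤ δ) (hδ1 : δ ≤ 1) (Λ : Set Site) (Bad : Site → Set Config) (Reg : Site → Set Site)
    (hbad : ∀ z ∈ Λ, Wit a b c V (Reg z) δ (Bad z)) (hreg : ∀ z ∈ Λ, Reg z ⊆ R)
    (hdisj : ∀ z ∈ Λ, ∀ z' ∈ Λ, 5 ≤ |z.1 - z'.1| ∨ 5 ≤ |z.2 - z'.2| → Disjoint (Reg z) (Reg z'))
    (x : Site) (n : ℕ) :
    Wit a b c V R ((2 * (n : ℝ) + 1) ^ 2 * 8 ^ n * δ ^ ((n + 81) / 81))
      {ω | NearBad Λ {z | ω ∈ Bad z} x n} := by
  set Q : Finset Site := Finset.Icc (x.1 - n) (x.1 + n) ×ˢ Finset.Icc (x.2 - n) (x.2 + n) with hQ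
  have hcard : Q.card = (2 * n + 1) ^ 2 := by
    rw [hQ, Finset.card_product, Int.card_Icc, Int.card_Icc]
    have e1 : (x.1 + n + 1 - (x.1 - n)).toNat = 2 * n + 1 := by omega
    have e2 : (x.2 + n + 1 - (x.2 - n)).toNat = 2 * n + 1 := by omega
    rw [e1, e2]
    ring
  have h1 := wit_biUnion Q (fun _ => 8 ^ n * δ ^ ((n + 81) / 81))
    (fun x => {ω | StarPath {z | z ∈ Λ ∧ ω ∈ Bad z} x n}) ha hb hc
    (fun x _ => wit_path (V := V) (R := R) ha hb hc hδ hδ1 Λ Bad Reg hbad hreg hdisj x n)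
  rw [Finset.sum_const, nsmul_eq_mul, ← mul_assoc, hcard] at h1
  push_cast at h1
  refine wit_mono h1 (fun _ h => h) (fun _ h => h) le_rfl ?_
  rintro ω ⟨C, hC1, hC2, hC3, hC4, y, hy, z, hz, hyz⟩
  refine ⟨y, ?_, ?_⟩
  · obtain ⟨h2, h3⟩ := hC4 y hy
    rw [abs_le] at h2 h3
    rw [hQ, Finset.mem_product, Finset.mem_Icc, Finset.mem_Icc]
    omega
  · refine paths_starPath_mono (C := C) (C' := {z | z ∈ Λ ∧ ω ∈ Bad z})
      (fun z hz => ⟨hC1 hz, hC2 hz⟩) ?_
    refine starPath_of_conn hC3 hy hz ?_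
    rcases hyz with h | h
    · left; exact h.ge
    · right; exact h.ge

end TSB
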