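import Pool.Agent.TSB.Wit

open MeasureTheory
open scoped Classical

namespace TSB

private noncomputable def hoB (r : ℤ) : Finset Site := Finset.Icc (-r) r ×ˢ Finset.Icc (-r) r

@[irreducible] private noncomputable def hoU : Finset (Fin 6 → Site) := Fintype.piFinset (fun _ => hoB 3)

private def hoV (l1 l2 l3 : ℕ) (p p' s : Site) : Fin 6 → Site :=
  ![p, (p.1 + l1, p.2), p', (p'.1 + l2, p'.2), s, (s.1, s.2 + l3)]

private def hoZ (l1 l2 l3 : ℕ) (p p' s : Site) (u : Fin 6 → Site) : Finset Site :=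
  Finset.univ.image fun i => hoV l1 l2 l3 p p' s i + u i

private noncomputable def hoY (l1 l2 l3 : ℕ) (p p' s : Site) : Finset Site :=
  (Finset.Icc p.1 (p.1 + l1) ×ˢ {p.2}) ∪ ((Finset.Icc p'.1 (p'.1 + l2) ×ˢ {p'.2}) ∪
    ({s.1} ×ˢ (Finset.Icc s.2 (s.2 + l3) \ {p.2, p'.2})))

private theorem hoY_card (l1 l2 l3 : ℕ) (p p' s : Site) (h : p.2 ≠ p'.2) :
    l1 + l2 + l3 ≤ (hoY l1 l2 l3 p p' s).card := by
  have c1 : (Finset.Icc p.1 (p.1 + l1) ×ˢ ({p.2} : Finset ℤ)).card = l1 + 1 := by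
    rw [Finset.card_product, Int.card_Icc, Finset.card_singleton]
    omega
  have c2 : (Finset.Icc p'.1 (p'.1 + l2) ×ˢ ({p'.2} : Finset ℤ)).card = l2 + 1 := by
    rw [Finset.card_product, Int.card_Icc, Finset.card_singleton]
    omega
  have c3 : l3 - 1 ≤ (({s.1} : Finset ℤ) ×ˢ
      (Finset.Icc s.2 (s.2 + l3) \ {p.2, p'.2})).card := by
    rw [Finset.card_product, Finset.card_singleton, one_mul]
    have h1 := Finset.le_card_sdiff ({p.2, p'.2} : Finset ℤ) (Finset.Icc s.2 (s.2 + l3))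
    have h2 : (Finset.Icc s.2 (s.2 + (l3 : ℤ))).card = l3 + 1 := by
      rw [Int.card_Icc]; omega
    have h3 : ({p.2, p'.2} : Finset ℤ).card ≤ 2 := Finset.card_le_two
    omega
  have d1 : Disjoint (Finset.Icc p'.1 (p'.1 + l2) ×ˢ ({p'.2} : Finset ℤ))
      (({s.1} : Finset ℤ) ×ˢ (Finset.Icc s.2 (s.2 + l3) \ {p.2, p'.2})) := by
    rw [Finset.disjoint_left]
    rintro ⟨x, y⟩ hx hy
    simp only [Finset.mem_product, Finset.mem_singleton, Finset.mem_sdiff, Finset.mem_insert,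
      not_or] at hx hy
    exact hy.2.2.2 hx.2
  have d2 : Disjoint (Finset.Icc p.1 (p.1 + l1) ×ˢ ({p.2} : Finset ℤ))
      ((Finset.Icc p'.1 (p'.1 + l2) ×ˢ {p'.2}) ∪
        ({s.1} ×ˢ (Finset.Icc s.2 (s.2 + l3) \ {p.2, p'.2}))) := by
    rw [Finset.disjoint_left]
    rintro ⟨x, y⟩ hx hy
    simp only [Finset.mem_union, Finset.mem_product, Finset.mem_singleton, Finset.mem_sdiff,
      Finset.mem_insert, not_or] at hx hy
    rcases hy with hy | hy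
    · exact h (hx.2.symm.trans hy.2)
    · exact hy.2.2.1 hx.2
  unfold hoY
  rw [Finset.card_union_of_disjoint d2, Finset.card_union_of_disjoint d1, c1, c2]
  omega

private def hoE (R : Set Site) (k l1 l2 l3 : ℕ) (p p' s : Site) (u : Fin 6 → Site) :
    Set Config :=
  {ω | k ≤ (hoZ l1 l2 l3 p p' s u).card ∧ p.2 ≠ p'.2 ∧
    (∀ z ∈ hoZ l1 l2 l3 p p' s u, ω z = 2 ∧ z ∈ R) ∧
    ∀ y ∈ hoY l1 l2 l3 p p' s, ω y = 0 ∧ y ∈ R}

private theorem hoE_wit {a b c : ℝ} (V R : Set Site) (ha : 0 ≤ a) (ha1 : a ≤ 1) (hb : 0 ≤ b)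
    (hb1 : b < 1) (k l1 l2 l3 : ℕ) (p p' s : Site) (u : Fin 6 → Site) :
    Wit a b c V R (a ^ k * b ^ (l1 + l2 + l3)) (hoE R k l1 l2 l3 p p' s u) := by
  set Z := hoZ l1 l2 l3 p p' s u with hZ
  set Y := hoY l1 l2 l3 p p' s with hY
  by_cases h : k ≤ Z.card ∧ p.2 ≠ p'.2 ∧ (∀ z ∈ Z, z ∈ R) ∧ (∀ y ∈ Y, y ∈ R) ∧ Disjoint Z Y
  · obtain ⟨h1, h2, h3, h4, h5⟩ := h
    refine ⟨{(Z, Y, ∅)}, ?_, ?_, ?_⟩
    · intro τ hτ
      rw [Finset.mem_singleton] at hτ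
      subst hτ
      refine ⟨⟨h5, by simp, by simp⟩, fun z hz => h3 z hz, fun y hy => h4 y hy, by simp⟩
    · rintro ω ⟨-, -, g1, g2⟩
      refine ⟨(Z, Y, ∅), Finset.mem_singleton_self _, fun z hz => (g1 z hz).1, fun y hy => ?_,
        by simp⟩
      rw [(g2 y hy).1]
      decide
    · rw [Finset.sum_singleton]
      unfold wt
      simp only [Finset.card_empty, pow_zero, mul_one]
      refine mul_le_mul (pow_le_pow_of_le_one ha ha1 h1) (pow_le_pow_of_le_one hb hb1.le ?_)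
        (by positivity) (by positivity)
      exact hoY_card l1 l2 l3 p p' s h2
  · refine ⟨∅, fun τ hτ => absurd hτ (Finset.notMem_empty τ), ?_, by simp; positivity⟩
    rintro ω ⟨g1, g2, g3, g4⟩
    refine (h ⟨g1, g2, fun z hz => (g3 z hz).2, fun y hy => (g4 y hy).2, ?_⟩).elim
    rw [Finset.disjoint_left]
    intro x hx hx'
    have e1 := (g3 x hx).1
    have e2 := (g4 x hx').1
    rw [e1] at e2
    exact absurd e2 (by decide)

private theorem ho_card {a b c : ℝ} {V R : Set Site} (ha : 0 ≤ a) (hb : 0 ≤ b) (hc : 0 ≤ c)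
    {ι : Type*} (J : Finset ι) (E : ι → Set Config) (δ : ℝ)
    (h : ∀ j, Wit a b c V R δ (E j)) :
    Wit a b c V R ((J.card : ℝ) * δ) {ω | ∃ j ∈ J, ω ∈ E j} := by
  have := wit_biUnion J (fun _ => δ) E ha hb hc (fun j _ => h j)
  rwa [Finset.sum_const, nsmul_eq_mul] at this

private theorem ho_geo {a b c : ℝ} {V R : Set Site} (ha : 0 ≤ a) (hb : 0 ≤ b) (hc : 0 ≤ c)
    (M1 M2 M3 : ℕ) (A1 A2 A3 : ℝ) (h1 : ∑ l ∈ Finset.range M1, b ^ l ≤ A1)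
    (h2 : ∑ l ∈ Finset.range M2, b ^ l ≤ A2) (h3 : ∑ l ∈ Finset.range M3, b ^ l ≤ A3) (K : ℝ)
    (hK : 0 ≤ K) (G : ℕ → ℕ → ℕ → Set Config)
    (h : ∀ l1 l2 l3, Wit a b c V R (K * b ^ (l1 + l2 + l3)) (G l1 l2 l3)) :
    Wit a b c V R (K * (A1 * A2 * A3))
      {ω | ∃ l1 < M1, ∃ l2 < M2, ∃ l3 < M3, ω ∈ G l1 l2 l3} := by
  have h4 := wit_biUnion (Finset.range M1 ×ˢ (Finset.range M2 ×ˢ Finset.range M3))
    (fun l => K * b ^ (l.1 + l.2.1 + l.2.2)) (fun l => G l.1 l.2.1 l.2.2) ha hb hc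
    (fun l _ => h l.1 l.2.1 l.2.2)
  have e : ∑ l ∈ Finset.range M1 ×ˢ (Finset.range M2 ×ˢ Finset.range M3),
      K * b ^ (l.1 + l.2.1 + l.2.2) = K * ((∑ l ∈ Finset.range M1, b ^ l) *
        ((∑ l ∈ Finset.range M2, b ^ l) * (∑ l ∈ Finset.range M3, b ^ l))) := by
    rw [← Finset.mul_sum, Finset.sum_mul_sum, Finset.sum_mul_sum, Finset.sum_product]
    congr 1
    refine Finset.sum_congr rfl fun x _ => ?_
    rw [Finset.sum_product]
    refine Finset.sum_congr rfl fun y _ => ?_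
    rw [Finset.mul_sum]
    refine Finset.sum_congr rfl fun z _ => ?_
    rw [pow_add, pow_add]
    ring
  rw [e] at h4
  have n1 : 0 ≤ ∑ l ∈ Finset.range M1, b ^ l := Finset.sum_nonneg fun l _ => pow_nonneg hb l
  have n2 : 0 ≤ ∑ l ∈ Finset.range M2, b ^ l := Finset.sum_nonneg fun l _ => pow_nonneg hb l
  have n3 : 0 ≤ ∑ l ∈ Finset.range M3, b ^ l := Finset.sum_nonneg fun l _ => pow_nonneg hb l
  refine wit_mono h4 (fun _ h => h) (fun _ h => h) ?_ ?_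
  · refine mul_le_mul_of_nonneg_left ?_ hK
    rw [mul_assoc]
    exact mul_le_mul h1 (mul_le_mul h2 h3 n3 (n2.trans h2)) (mul_nonneg n2 n3) (n1.trans h1)
  · rintro ω ⟨l1, g1, l2, g2, l3, g3, g4⟩
    refine ⟨(l1, l2, l3), ?_, g4⟩
    simp only [Finset.mem_product, Finset.mem_range]
    exact ⟨g1, g2, g3⟩

private theorem ho_geom (b : ℝ) (hb : 0 ≤ b) (hb1 : b < 1) (M : ℕ) :
    ∑ l ∈ Finset.range M, b ^ l ≤ 1 / (1 - b) := by
  have h0 : 0 < 1 - b := by linarith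
  rw [le_div_iff₀ h0, ← neg_sub b 1, mul_neg, geom_sum_mul]
  have := pow_nonneg hb M
  linarith

private theorem ho_geom13 (b : ℝ) (hb : 0 ≤ b) (hb1 : b < 1) :
    ∑ l ∈ Finset.range 13, b ^ l ≤ 13 := by
  calc ∑ l ∈ Finset.range 13, b ^ l ≤ ∑ l ∈ Finset.range 13, (1 : ℝ) :=
        Finset.sum_le_sum fun l _ => pow_le_one₀ hb hb1.le
    _ = 13 := by simp

/-- The data of a hole witness, in parametrised form. -/
private structure HoDat (ω : Config) (R : Set Site) (M : ℕ) (l1 l2 l3 : ℕ) (p p' s : Site)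
    (z : Fin 6 → Site) : Prop where
  hrow : p.2 ≠ p'.2
  hY1 : ∀ x : ℤ, p.1 ≤ x → x ≤ p.1 + l1 → ω (x, p.2) = 0 ∧ (x, p.2) ∈ R
  hY2 : ∀ x : ℤ, p'.1 ≤ x → x ≤ p'.1 + l2 → ω (x, p'.2) = 0 ∧ (x, p'.2) ∈ R
  hY3 : ∀ y : ℤ, s.2 ≤ y → y ≤ s.2 + l3 → ω (s.1, y) = 0 ∧ (s.1, y) ∈ R
  hz : ∀ i, ω (z i) = 2 ∧ z i ∈ R
  hn : ∀ i, z i - hoV l1 l2 l3 p p' s i ∈ hoB 3
  h01 : z 0 ≠ z 1
  h02 : z 0 ≠ z 2
  h03 : z 0 ≠ z 3
  h12 : z 1 ≠ z 2
  h13 : z 1 ≠ z 3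
  h23 : z 2 ≠ z 3
  h45 : z 4 ≠ z 5
  hl1 : l1 < M
  hl2 : l2 < M
  hl3 : l3 < M

private theorem HoDat.swap {ω : Config} {R : Set Site} {M l1 l2 l3 : ℕ} {p p' s : Site}
    {z : Fin 6 → Site} (h : HoDat ω R M l1 l2 l3 p p' s z) :
    HoDat ω R M l2 l1 l3 p' p s ![z 2, z 3, z 0, z 1, z 4, z 5] where
  hrow := h.hrow.symm
  hY1 := h.hY2
  hY2 := h.hY1
  hY3 := h.hY3
  hz := by
    intro i
    fin_cases i
    · exact h.hz 2
    · exact h.hz 3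
    · exact h.hz 0
    · exact h.hz 1
    · exact h.hz 4
    · exact h.hz 5
  hn := by
    intro i
    fin_cases i
    · exact h.hn 2
    · exact h.hn 3
    · exact h.hn 0
    · exact h.hn 1
    · exact h.hn 4
    · exact h.hn 5
  h01 := h.h23
  h02 := h.h02.symm
  h03 := h.h12.symm
  h12 := h.h03.symm
  h13 := h.h13.symm
  h23 := h.h01
  h45 := h.h45
  hl1 := h.hl2
  hl2 := h.hl1
  hl3 := h.hl3

private theorem HoDat.mem {ω : Config} {R : Set Site} {M l1 l2 l3 : ℕ} {p p' s : Site}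
    {z : Fin 6 → Site} (h : HoDat ω R M l1 l2 l3 p p' s z) {k : ℕ}
    (hk : k ≤ (Finset.univ.image z).card) :
    (fun i => z i - hoV l1 l2 l3 p p' s i) ∈ hoU ∧
      ω ∈ hoE R k l1 l2 l3 p p' s (fun i => z i - hoV l1 l2 l3 p p' s i) := by
  have e : hoZ l1 l2 l3 p p' s (fun i => z i - hoV l1 l2 l3 p p' s i) = Finset.univ.image z := by
    unfold hoZ
    refine Finset.image_congr fun i _ => ?_
    simp
  refine ⟨?_, ?_, h.hrow, ?_, ?_⟩
  · unfold hoU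
    rw [Fintype.mem_piFinset]
    intro i
    exact h.hn i
  · rw [e]; exact hk
  · rw [e]
    intro x hx
    obtain ⟨i, -, rfl⟩ := Finset.mem_image.mp hx
    exact h.hz i
  · rintro ⟨x, y⟩ hy
    unfold hoY at hy
    simp only [Finset.mem_union, Finset.mem_product, Finset.mem_singleton, Finset.mem_sdiff,
      Finset.mem_insert, not_or, Finset.mem_Icc] at hy
    rcases hy with ⟨⟨g1, g2⟩, g3⟩ | ⟨⟨g1, g2⟩, g3⟩ | ⟨g1, ⟨g2, g3⟩, -⟩
    · rw [g3]; exact h.hY1 x g1 g2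
    · rw [g3]; exact h.hY2 x g1 g2
    · rw [g1]; exact h.hY3 y g2 g3

private theorem hoB_sub {x y : Site} (hx : x ∈ hoB 3) (hy : y ∈ hoB 3) : x - y ∈ hoB 6 := by
  simp only [hoB, Finset.mem_product, Finset.mem_Icc, Prod.fst_sub, Prod.snd_sub] at *
  omega

private theorem hoB_card3 : (hoB 3).card = 49 := by
  unfold hoB
  rw [Finset.card_product, Int.card_Icc]
  rfl

private theorem hoB_card6 : (hoB 6).card = 169 := by
  unfold hoB
  rw [Finset.card_product, Int.card_Icc]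
  rfl

private theorem hoU_card : hoU.card = 49 ^ 6 := by
  unfold hoU
  rw [Fintype.card_piFinset_const, hoB_card3]

private def hoS (l1 l3 e e' : ℕ) (p v : Site) : Site :=
  (p.1 + (e * l1 : ℕ) + v.1, p.2 + v.2 - (e' * l3 : ℕ))

private def hoP (l2 l3 e : ℕ) (s v : Site) : Site :=
  (s.1 + v.1 - (e * l2 : ℕ), s.2 + l3 + v.2)

private def hoC6 (R : Set Site) (Rf : Finset Site) (M : ℕ) : Set Config :=
  {ω | ∃ l1 < M, ∃ l2 < M, ∃ l3 < M, ω ∈ {ω | ∃ j ∈ Rf ×ˢ (Rf ×ˢ (Rf ×ˢ hoU)),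
    ω ∈ hoE R 6 l1 l2 l3 j.1 j.2.1 j.2.2.1 j.2.2.2}}

private def hoC5 (R : Set Site) (Rf : Finset Site) (M : ℕ) : Set Config :=
  {ω | ∃ l1 < M, ∃ l2 < M, ∃ l3 < M, ω ∈ {ω | ∃ j ∈ (Finset.range 2 ×ˢ Finset.range 2) ×ˢ
      (Rf ×ˢ (Rf ×ˢ (hoB 6 ×ˢ hoU))),
    ω ∈ hoE R 5 l1 l2 l3 j.2.1 j.2.2.1 (hoS l1 l3 j.1.1 j.1.2 j.2.1 j.2.2.2.1) j.2.2.2.2}}

private def hoC4 (R : Set Site) (Rf : Finset Site) (M : ℕ) : Set Config :=
  {ω | ∃ l1 < M, ∃ l2 < M, ∃ l3 < M, ω ∈ {ω | ∃ j ∈ (Finset.range 2 ×ˢ Finset.range 2) ×ˢ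
      (Rf ×ˢ (hoB 6 ×ˢ (hoB 6 ×ˢ hoU))),
    ω ∈ hoE R 4 l1 l2 l3 j.2.1 (hoP l2 l3 j.1.2 (hoS l1 l3 j.1.1 0 j.2.1 j.2.2.1) j.2.2.2.1)
      (hoS l1 l3 j.1.1 0 j.2.1 j.2.2.1) j.2.2.2.2}}

private def hoC4s (R : Set Site) (Rf : Finset Site) (M : ℕ) : Set Config :=
  {ω | ∃ l1 < 13, ∃ l2 < M, ∃ l3 < 13, ω ∈ {ω | ∃ j ∈ Finset.range 2 ×ˢ
      (Rf ×ˢ (Rf ×ˢ (hoB 6 ×ˢ hoU))),
    ω ∈ hoE R 4 l1 l2 l3 j.2.1 j.2.2.1 (hoS l1 l3 j.1 0 j.2.1 j.2.2.2.1) j.2.2.2.2}}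

section weights

variable {a b c : ℝ} (V R : Set Site) (ha : 0 ≤ a) (ha1 : a ≤ 1) (hb : 0 ≤ b) (hb1 : b < 1)
  (hc : 0 ≤ c) (Rf : Finset Site) (M : ℕ)

include ha ha1 hb hb1 hc

private theorem hoC6_wit : Wit a b c V R
    ((Rf.card * (Rf.card * (Rf.card * 49 ^ 6)) : ℕ) * a ^ 6 *
      (1 / (1 - b) * (1 / (1 - b)) * (1 / (1 - b)))) (hoC6 R Rf M) := by
  refine ho_geo ha hb hc M M M _ _ _ (ho_geom b hb hb1 M) (ho_geom b hb hb1 M)
    (ho_geom b hb hb1 M) _ (by positivity) _ fun l1 l2 l3 => ?_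
  have := ho_card (V := V) (R := R) ha hb hc (Rf ×ˢ (Rf ×ˢ (Rf ×ˢ hoU)))
    (fun j => hoE R 6 l1 l2 l3 j.1 j.2.1 j.2.2.1 j.2.2.2) _
    (fun j => hoE_wit V R ha ha1 hb hb1 6 l1 l2 l3 j.1 j.2.1 j.2.2.1 j.2.2.2)
  rwa [Finset.card_product, Finset.card_product, Finset.card_product, hoU_card, ← mul_assoc]
    at this

private theorem hoC5_wit : Wit a b c V R
    ((2 * 2 * (Rf.card * (Rf.card * (169 * 49 ^ 6))) : ℕ) * a ^ 5 *
      (1 / (1 - b) * (1 / (1 - b)) * (1 / (1 - b)))) (hoC5 R Rf M) := by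
  refine ho_geo ha hb hc M M M _ _ _ (ho_geom b hb hb1 M) (ho_geom b hb hb1 M)
    (ho_geom b hb hb1 M) _ (by positivity) _ fun l1 l2 l3 => ?_
  have := ho_card (V := V) (R := R) ha hb hc ((Finset.range 2 ×ˢ Finset.range 2) ×ˢ
      (Rf ×ˢ (Rf ×ˢ (hoB 6 ×ˢ hoU))))
    (fun j => hoE R 5 l1 l2 l3 j.2.1 j.2.2.1 (hoS l1 l3 j.1.1 j.1.2 j.2.1 j.2.2.2.1) j.2.2.2.2) _
    (fun j => hoE_wit V R ha ha1 hb hb1 5 l1 l2 l3 j.2.1 j.2.2.1
      (hoS l1 l3 j.1.1 j.1.2 j.2.1 j.2.2.2.1) j.2.2.2.2)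
  rwa [Finset.card_product, Finset.card_product, Finset.card_product, Finset.card_product,
    Finset.card_product, hoU_card, hoB_card6, Finset.card_range, ← mul_assoc] at this

private theorem hoC4_wit : Wit a b c V R
    ((2 * 2 * (Rf.card * (169 * (169 * 49 ^ 6))) : ℕ) * a ^ 4 *
      (1 / (1 - b) * (1 / (1 - b)) * (1 / (1 - b)))) (hoC4 R Rf M) := by
  refine ho_geo ha hb hc M M M _ _ _ (ho_geom b hb hb1 M) (ho_geom b hb hb1 M)
    (ho_geom b hb hb1 M) _ (by positivity) _ fun l1 l2 l3 => ?_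
  have := ho_card (V := V) (R := R) ha hb hc ((Finset.range 2 ×ˢ Finset.range 2) ×ˢ
      (Rf ×ˢ (hoB 6 ×ˢ (hoB 6 ×ˢ hoU))))
    (fun j => hoE R 4 l1 l2 l3 j.2.1
      (hoP l2 l3 j.1.2 (hoS l1 l3 j.1.1 0 j.2.1 j.2.2.1) j.2.2.2.1)
      (hoS l1 l3 j.1.1 0 j.2.1 j.2.2.1) j.2.2.2.2) _
    (fun j => hoE_wit V R ha ha1 hb hb1 4 l1 l2 l3 j.2.1
      (hoP l2 l3 j.1.2 (hoS l1 l3 j.1.1 0 j.2.1 j.2.2.1) j.2.2.2.1)
      (hoS l1 l3 j.1.1 0 j.2.1 j.2.2.1) j.2.2.2.2)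
  rwa [Finset.card_product, Finset.card_product, Finset.card_product, Finset.card_product,
    Finset.card_product, hoU_card, hoB_card6, Finset.card_range, ← mul_assoc] at this

private theorem hoC4s_wit : Wit a b c V R
    ((2 * (Rf.card * (Rf.card * (169 * 49 ^ 6))) : ℕ) * a ^ 4 *
      (13 * (1 / (1 - b)) * 13)) (hoC4s R Rf M) := by
  refine ho_geo ha hb hc 13 M 13 _ _ _ (ho_geom13 b hb hb1) (ho_geom b hb hb1 M)
    (ho_geom13 b hb hb1) _ (by positivity) _ fun l1 l2 l3 => ?_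
  have := ho_card (V := V) (R := R) ha hb hc (Finset.range 2 ×ˢ
      (Rf ×ˢ (Rf ×ˢ (hoB 6 ×ˢ hoU))))
    (fun j => hoE R 4 l1 l2 l3 j.2.1 j.2.2.1 (hoS l1 l3 j.1 0 j.2.1 j.2.2.2.1) j.2.2.2.2) _
    (fun j => hoE_wit V R ha ha1 hb hb1 4 l1 l2 l3 j.2.1 j.2.2.1
      (hoS l1 l3 j.1 0 j.2.1 j.2.2.2.1) j.2.2.2.2)
  rwa [Finset.card_product, Finset.card_product, Finset.card_product,
    Finset.card_product, hoU_card, hoB_card6, Finset.card_range, ← mul_assoc] at this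

end weights

section cover

variable {ω : Config} {R : Set Site} {M l1 l2 l3 : ℕ} {p p' s : Site}
    {z : Fin 6 → Site} (Rf : Finset Site) (hRf : ∀ x, x ∈ R → x ∈ Rf)

include hRf

private theorem HoDat.p_mem (h : HoDat ω R M l1 l2 l3 p p' s z) : p ∈ Rf ∧ p' ∈ Rf ∧ s ∈ Rf :=
  ⟨hRf _ (h.hY1 p.1 le_rfl (by omega)).2, hRf _ (h.hY2 p'.1 le_rfl (by omega)).2,
    hRf _ (h.hY3 s.2 le_rfl (by omega)).2⟩

private theorem HoDat.case6 (h : HoDat ω R M l1 l2 l3 p p' s z)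
    (hk : 6 ≤ (Finset.univ.image z).card) : ω ∈ hoC6 R Rf M := by
  obtain ⟨g1, g2⟩ := h.mem hk
  obtain ⟨g3, g4, g5⟩ := h.p_mem Rf hRf
  refine ⟨l1, h.hl1, l2, h.hl2, l3, h.hl3,
    (p, p', s, fun i => z i - hoV l1 l2 l3 p p' s i), ?_, g2⟩
  simp only [Finset.mem_product]
  exact ⟨g3, g4, g5, g1⟩

private theorem HoDat.case5 (h : HoDat ω R M l1 l2 l3 p p' s z)
    (hk : 5 ≤ (Finset.univ.image z).card) (e e' : ℕ) (he : e < 2) (he' : e' < 2)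
    (hv : (s.1 - (p.1 + (e * l1 : ℕ)), s.2 + (e' * l3 : ℕ) - p.2) ∈ hoB 6) :
    ω ∈ hoC5 R Rf M := by
  obtain ⟨g1, g2⟩ := h.mem hk
  obtain ⟨g3, g4, g5⟩ := h.p_mem Rf hRf
  have es : hoS l1 l3 e e' p (s.1 - (p.1 + (e * l1 : ℕ)), s.2 + (e' * l3 : ℕ) - p.2) = s := by
    unfold hoS
    refine Prod.ext ?_ ?_
    · simp only; ring
    · simp only; ring
  refine ⟨l1, h.hl1, l2, h.hl2, l3, h.hl3,
    ((e, e'), (p, p', (s.1 - (p.1 + (e * l1 : ℕ)), s.2 + (e' * l3 : ℕ) - p.2),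
      fun i => z i - hoV l1 l2 l3 p p' s i)), ?_, ?_⟩
  · simp only [Finset.mem_product, Finset.mem_range]
    exact ⟨⟨he, he'⟩, g3, g4, hv, g1⟩
  · simp only [es]
    exact g2

private theorem HoDat.case4 (h : HoDat ω R M l1 l2 l3 p p' s z)
    (hk : 4 ≤ (Finset.univ.image z).card) (e e' : ℕ) (he : e < 2) (he' : e' < 2)
    (hv : (s.1 - (p.1 + (e * l1 : ℕ)), s.2 - p.2) ∈ hoB 6)
    (hv' : (p'.1 + (e' * l2 : ℕ) - s.1, p'.2 - (s.2 + l3)) ∈ hoB 6) :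
    ω ∈ hoC4 R Rf M := by
  obtain ⟨g1, g2⟩ := h.mem hk
  obtain ⟨g3, g4, g5⟩ := h.p_mem Rf hRf
  have es : hoS l1 l3 e 0 p (s.1 - (p.1 + (e * l1 : ℕ)), s.2 - p.2) = s := by
    unfold hoS
    refine Prod.ext ?_ ?_
    · simp only; ring
    · simp only; push_cast; ring
  have ep : hoP l2 l3 e' s (p'.1 + (e' * l2 : ℕ) - s.1, p'.2 - (s.2 + l3)) = p' := by
    unfold hoP
    refine Prod.ext ?_ ?_
    · simp only; ring
    · simp only; ring
  refine ⟨l1, h.hl1, l2, h.hl2, l3, h.hl3,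
    ((e, e'), (p, (s.1 - (p.1 + (e * l1 : ℕ)), s.2 - p.2),
      (p'.1 + (e' * l2 : ℕ) - s.1, p'.2 - (s.2 + l3)),
      fun i => z i - hoV l1 l2 l3 p p' s i)), ?_, ?_⟩
  · simp only [Finset.mem_product, Finset.mem_range]
    exact ⟨⟨he, he'⟩, g3, hv, hv', g1⟩
  · simp only [es, ep]
    exact g2

private theorem HoDat.case4s (h : HoDat ω R M l1 l2 l3 p p' s z)
    (hk : 4 ≤ (Finset.univ.image z).card) (e : ℕ) (he : e < 2)
    (hv : (s.1 - (p.1 + (e * l1 : ℕ)), s.2 - p.2) ∈ hoB 6) (h1 : l1 < 13) (h3 : l3 < 13) :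
    ω ∈ hoC4s R Rf M := by
  obtain ⟨g1, g2⟩ := h.mem hk
  obtain ⟨g3, g4, g5⟩ := h.p_mem Rf hRf
  have es : hoS l1 l3 e 0 p (s.1 - (p.1 + (e * l1 : ℕ)), s.2 - p.2) = s := by
    unfold hoS
    refine Prod.ext ?_ ?_
    · simp only; ring
    · simp only; push_cast; ring
  refine ⟨l1, h1, l2, h.hl2, l3, h3,
    (e, (p, p', (s.1 - (p.1 + (e * l1 : ℕ)), s.2 - p.2),
      fun i => z i - hoV l1 l2 l3 p p' s i)), ?_, ?_⟩
  · simp only [Finset.mem_product, Finset.mem_range]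
    exact ⟨he, g3, g4, hv, g1⟩
  · simp only [es]
    exact g2

omit hRf in
private theorem HoDat.near (h : HoDat ω R M l1 l2 l3 p p' s z) {i j : Fin 6} (hij : z i = z j) :
    hoV l1 l2 l3 p p' s j - hoV l1 l2 l3 p p' s i ∈ hoB 6 := by
  have := hoB_sub (h.hn i) (h.hn j)
  rw [hij] at this
  have e : z j - hoV l1 l2 l3 p p' s i - (z j - hoV l1 l2 l3 p p' s j) =
      hoV l1 l2 l3 p p' s j - hoV l1 l2 l3 p p' s i := by abel
  rwa [e] at this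

omit hRf in
private theorem HoDat.card4 (h : HoDat ω R M l1 l2 l3 p p' s z) :
    ({z 0, z 1, z 2, z 3} : Finset Site).card = 4 ∧
      ({z 0, z 1, z 2, z 3} : Finset Site) ⊆ Finset.univ.image z := by
  refine ⟨?_, ?_⟩
  · rw [Finset.card_insert_of_notMem, Finset.card_insert_of_notMem, Finset.card_insert_of_notMem,
      Finset.card_singleton]
    · simp [h.h23]
    · simp [h.h12, h.h13]
    · simp [h.h01, h.h02, h.h03]
  · intro x hx
    simp only [Finset.mem_insert, Finset.mem_singleton] at hx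
    rcases hx with rfl | rfl | rfl | rfl <;> exact Finset.mem_image_of_mem z (Finset.mem_univ _)

omit hRf in
private theorem HoDat.card5 (h : HoDat ω R M l1 l2 l3 p p' s z) (j : Fin 6)
    (hj : z j ∉ ({z 0, z 1, z 2, z 3} : Finset Site)) : 5 ≤ (Finset.univ.image z).card := by
  obtain ⟨g1, g2⟩ := h.card4
  have : (insert (z j) ({z 0, z 1, z 2, z 3} : Finset Site)) ⊆ Finset.univ.image z :=
    Finset.insert_subset (Finset.mem_image_of_mem z (Finset.mem_univ _)) g2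
  have h2 := Finset.card_le_card this
  rwa [Finset.card_insert_of_notMem hj, g1] at h2

omit hRf in
private theorem HoDat.card6 (h : HoDat ω R M l1 l2 l3 p p' s z)
    (h4 : z 4 ∉ ({z 0, z 1, z 2, z 3} : Finset Site))
    (h5 : z 5 ∉ ({z 0, z 1, z 2, z 3} : Finset Site)) : 6 ≤ (Finset.univ.image z).card := by
  obtain ⟨g1, g2⟩ := h.card4
  have : (insert (z 4) (insert (z 5) ({z 0, z 1, z 2, z 3} : Finset Site))) ⊆
      Finset.univ.image z :=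
    Finset.insert_subset (Finset.mem_image_of_mem z (Finset.mem_univ _))
      (Finset.insert_subset (Finset.mem_image_of_mem z (Finset.mem_univ _)) g2)
  have h2 := Finset.card_le_card this
  rwa [Finset.card_insert_of_notMem, Finset.card_insert_of_notMem h5, g1] at h2
  rw [Finset.mem_insert, not_or]
  exact ⟨h.h45, h4⟩

private theorem HoDat.caseA (h : HoDat ω R M l1 l2 l3 p p' s z)
    (h5 : z 5 ∉ ({z 0, z 1, z 2, z 3} : Finset Site)) (h4 : z 4 = z 0 ∨ z 4 = z 1) :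
    ω ∈ hoC5 R Rf M := by
  rcases h4 with h4 | h4
  · refine h.case5 Rf hRf (h.card5 5 h5) 0 0 (by norm_num) (by norm_num) ?_
    have := h.near h4.symm
    simp only [hoV, hoB, Finset.mem_product, Finset.mem_Icc] at this ⊢
    simp at this ⊢
    omega
  · refine h.case5 Rf hRf (h.card5 5 h5) 1 0 (by norm_num) (by norm_num) ?_
    have := h.near h4.symm
    simp only [hoV, hoB, Finset.mem_product, Finset.mem_Icc] at this ⊢
    simp at this ⊢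
    omega

private theorem HoDat.caseB (h : HoDat ω R M l1 l2 l3 p p' s z)
    (h4 : z 4 ∉ ({z 0, z 1, z 2, z 3} : Finset Site)) (h5 : z 5 = z 0 ∨ z 5 = z 1) :
    ω ∈ hoC5 R Rf M := by
  rcases h5 with h5 | h5
  · refine h.case5 Rf hRf (h.card5 4 h4) 0 1 (by norm_num) (by norm_num) ?_
    have := h.near h5.symm
    simp only [hoV, hoB, Finset.mem_product, Finset.mem_Icc] at this ⊢
    simp at this ⊢
    omega
  · refine h.case5 Rf hRf (h.card5 4 h4) 1 1 (by norm_num) (by norm_num) ?_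
    have := h.near h5.symm
    simp only [hoV, hoB, Finset.mem_product, Finset.mem_Icc] at this ⊢
    simp at this ⊢
    omega

omit hRf in
private theorem HoDat.cardle (h : HoDat ω R M l1 l2 l3 p p' s z) :
    4 ≤ (Finset.univ.image z).card := by
  obtain ⟨g1, g2⟩ := h.card4
  have h2 := Finset.card_le_card g2
  rwa [g1] at h2

private theorem HoDat.caseC (h : HoDat ω R M l1 l2 l3 p p' s z)
    (h4 : z 4 = z 0 ∨ z 4 = z 1) (h5 : z 5 = z 2 ∨ z 5 = z 3) :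
    ω ∈ hoC4 R Rf M := by
  have k1 : ∃ e < 2, (s.1 - (p.1 + (e * l1 : ℕ)), s.2 - p.2) ∈ hoB 6 := by
    rcases h4 with h4 | h4
    · refine ⟨0, by norm_num, ?_⟩
      have := h.near h4.symm
      simp only [hoV, hoB, Finset.mem_product, Finset.mem_Icc] at this ⊢
      simp at this ⊢
      omega
    · refine ⟨1, by norm_num, ?_⟩
      have := h.near h4.symm
      simp only [hoV, hoB, Finset.mem_product, Finset.mem_Icc] at this ⊢
      simp at this ⊢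
      omega
  have k2 : ∃ e' < 2, (p'.1 + (e' * l2 : ℕ) - s.1, p'.2 - (s.2 + l3)) ∈ hoB 6 := by
    rcases h5 with h5 | h5
    · refine ⟨0, by norm_num, ?_⟩
      have := h.near h5.symm
      simp only [hoV, hoB, Finset.mem_product, Finset.mem_Icc] at this ⊢
      simp at this ⊢
      omega
    · refine ⟨1, by norm_num, ?_⟩
      have := h.near h5.symm
      simp only [hoV, hoB, Finset.mem_product, Finset.mem_Icc] at this ⊢
      simp at this ⊢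
      omega
  obtain ⟨e, he, hv⟩ := k1
  obtain ⟨e', he', hv'⟩ := k2
  exact h.case4 Rf hRf h.cardle e e' he he' hv hv'

private theorem HoDat.caseD (h : HoDat ω R M l1 l2 l3 p p' s z)
    (h4 : (z 4 = z 0 ∧ z 5 = z 1) ∨ (z 4 = z 1 ∧ z 5 = z 0)) :
    ω ∈ hoC4s R Rf M := by
  rcases h4 with ⟨h4, h5⟩ | ⟨h4, h5⟩
  · have g1 := h.near h4.symm
    have g2 := h.near h5.symm
    simp only [hoV, hoB, Finset.mem_product, Finset.mem_Icc] at g1 g2
    simp at g1 g2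
    refine h.case4s Rf hRf h.cardle 0 (by norm_num) ?_ (by omega) (by omega)
    simp only [hoB, Finset.mem_product, Finset.mem_Icc]
    simp
    omega
  · have g1 := h.near h4.symm
    have g2 := h.near h5.symm
    simp only [hoV, hoB, Finset.mem_product, Finset.mem_Icc] at g1 g2
    simp at g1 g2
    refine h.case4s Rf hRf h.cardle 1 (by norm_num) ?_ (by omega) (by omega)
    simp only [hoB, Finset.mem_product, Finset.mem_Icc]
    simp
    omega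

private theorem HoDat.cover (h : HoDat ω R M l1 l2 l3 p p' s z) :
    ω ∈ hoC4 R Rf M ∪ (hoC4s R Rf M ∪ (hoC5 R Rf M ∪ hoC6 R Rf M)) := by
  have hsw : ∀ x : Site, x ∉ ({z 0, z 1, z 2, z 3} : Finset Site) →
      x ∉ ({z 2, z 3, z 0, z 1} : Finset Site) := by
    intro x hx
    simp only [Finset.mem_insert, Finset.mem_singleton, not_or] at hx ⊢
    tauto
  by_cases a4 : z 4 ∈ ({z 0, z 1, z 2, z 3} : Finset Site)
  · by_cases a5 : z 5 ∈ ({z 0, z 1, z 2, z 3} : Finset Site)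
    · have h45 := h.h45
      simp only [Finset.mem_insert, Finset.mem_singleton] at a4 a5
      rcases a4 with a4 | a4 | a4 | a4 <;> rcases a5 with a5 | a5 | a5 | a5
      · exact absurd (a4.trans a5.symm) h45
      · exact Or.inr (Or.inl (h.caseD Rf hRf (Or.inl ⟨a4, a5⟩)))
      · exact Or.inl (h.caseC Rf hRf (Or.inl a4) (Or.inl a5))
      · exact Or.inl (h.caseC Rf hRf (Or.inl a4) (Or.inr a5))
      · exact Or.inr (Or.inl (h.caseD Rf hRf (Or.inr ⟨a4, a5⟩)))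
      · exact absurd (a4.trans a5.symm) h45
      · exact Or.inl (h.caseC Rf hRf (Or.inr a4) (Or.inl a5))
      · exact Or.inl (h.caseC Rf hRf (Or.inr a4) (Or.inr a5))
      · exact Or.inl (h.swap.caseC Rf hRf (Or.inl a4) (Or.inl a5))
      · exact Or.inl (h.swap.caseC Rf hRf (Or.inl a4) (Or.inr a5))
      · exact absurd (a4.trans a5.symm) h45
      · exact Or.inr (Or.inl (h.swap.caseD Rf hRf (Or.inl ⟨a4, a5⟩)))
      · exact Or.inl (h.swap.caseC Rf hRf (Or.inr a4) (Or.inl a5))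
      · exact Or.inl (h.swap.caseC Rf hRf (Or.inr a4) (Or.inr a5))
      · exact Or.inr (Or.inl (h.swap.caseD Rf hRf (Or.inr ⟨a4, a5⟩)))
      · exact absurd (a4.trans a5.symm) h45
    · simp only [Finset.mem_insert, Finset.mem_singleton] at a4
      rcases a4 with a4 | a4 | a4 | a4
      · exact Or.inr (Or.inr (Or.inl (h.caseA Rf hRf a5 (Or.inl a4))))
      · exact Or.inr (Or.inr (Or.inl (h.caseA Rf hRf a5 (Or.inr a4))))
      · exact Or.inr (Or.inr (Or.inl (h.swap.caseA Rf hRf (hsw _ a5) (Or.inl a4))))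
      · exact Or.inr (Or.inr (Or.inl (h.swap.caseA Rf hRf (hsw _ a5) (Or.inr a4))))
  · by_cases a5 : z 5 ∈ ({z 0, z 1, z 2, z 3} : Finset Site)
    · simp only [Finset.mem_insert, Finset.mem_singleton] at a5
      rcases a5 with a5 | a5 | a5 | a5
      · exact Or.inr (Or.inr (Or.inl (h.caseB Rf hRf a4 (Or.inl a5))))
      · exact Or.inr (Or.inr (Or.inl (h.caseB Rf hRf a4 (Or.inr a5))))
      · exact Or.inr (Or.inr (Or.inl (h.swap.caseB Rf hRf (hsw _ a4) (Or.inl a5))))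
      · exact Or.inr (Or.inr (Or.inl (h.swap.caseB Rf hRf (hsw _ a4) (Or.inr a5))))
    · exact Or.inr (Or.inr (Or.inr (h.case6 Rf hRf (h.card6 a4 a5))))

end cover

private theorem ho_dat {ω : Config} {D : ℕ} {blk : Site} (h : HoleWit ω (win D 2 blk)) :
    ∃ l1 l2 l3 p p' s z, HoDat ω (win D 2 blk) (5 * D) l1 l2 l3 p p' s z := by
  obtain ⟨a, b, a', b', c, c', za, zb, za', zb', zc, zc', ⟨r1, r2, r3⟩, ⟨s1, s2, s3⟩,
    ⟨v1, v2, v3⟩, hrow, ⟨n1, n2, n3, n4⟩, ⟨m1, m2, m3, m4⟩, ⟨n1', n2', n3', n4'⟩,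
    ⟨m1', m2', m3', m4'⟩, ⟨o1, o2, o3, o4⟩, ⟨o1', o2', o3', o4'⟩, h01, h02, h03, h12, h13, h23,
    h45⟩ := h
  have e1 : ((b.1 - a.1).toNat : ℤ) = b.1 - a.1 := Int.toNat_of_nonneg (by omega)
  have e2 : ((b'.1 - a'.1).toNat : ℤ) = b'.1 - a'.1 := Int.toNat_of_nonneg (by omega)
  have e3 : ((c'.2 - c.2).toNat : ℤ) = c'.2 - c.2 := Int.toNat_of_nonneg (by omega)
  have ga := (r3 a rfl le_rfl r2.le).2
  have gb := (r3 b r1.symm r2.le le_rfl).2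
  have ga' := (s3 a' rfl le_rfl s2.le).2
  have gb' := (s3 b' s1.symm s2.le le_rfl).2
  have gc := (v3 c rfl le_rfl v2.le).2
  have gc' := (v3 c' v1.symm v2.le le_rfl).2
  refine ⟨(b.1 - a.1).toNat, (b'.1 - a'.1).toNat, (c'.2 - c.2).toNat, a, a', c,
    ![za, zb, za', zb', zc, zc'], ?_⟩
  refine ⟨hrow, ?_, ?_, ?_, ?_, ?_, h01, h02, h03, h12, h13, h23, h45, ?_, ?_, ?_⟩
  · intro x hx hx'
    exact r3 (x, a.2) rfl hx (by simp only; omega)
  · intro x hx hx'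
    exact s3 (x, a'.2) rfl hx (by simp only; omega)
  · intro x hx hx'
    exact v3 (c.1, x) rfl hx (by simp only; omega)
  · intro i
    fin_cases i
    · exact ⟨n1, n2⟩
    · exact ⟨m1, m2⟩
    · exact ⟨n1', n2'⟩
    · exact ⟨m1', m2'⟩
    · exact ⟨o1, o2⟩
    · exact ⟨o1', o2'⟩
  · rw [abs_le] at n3 n4 m3 m4 n3' n4' m3' m4' o3 o4 o3' o4'
    intro i
    fin_cases i <;> simp only [hoV, hoB, Finset.mem_product, Finset.mem_Icc] <;> simp <;> omega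
  · have h1 := ga.1
    have h2 := gb.2.1
    have : (((b.1 - a.1).toNat : ℕ) : ℤ) < ((5 * D : ℕ) : ℤ) := by
      rw [e1]
      push_cast at h1 h2 ⊢
      linarith
    exact_mod_cast this
  · have h1 := ga'.1
    have h2 := gb'.2.1
    have : (((b'.1 - a'.1).toNat : ℕ) : ℤ) < ((5 * D : ℕ) : ℤ) := by
      rw [e2]
      push_cast at h1 h2 ⊢
      linarith
    exact_mod_cast this
  · have h1 := gc.2.2.1
    have h2 := gc'.2.2.2
    have : (((c'.2 - c.2).toNat : ℕ) : ℤ) < ((5 * D : ℕ) : ℤ) := by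
      rw [e3]
      push_cast at h1 h2 ⊢
      linarith
    exact_mod_cast this

theorem wit_hole {a b c : ℝ} (V : Set Site) (ha : 0 ≤ a) (ha1 : a ≤ 1) (hb : 0 ≤ b) (hb1 : b < 1)
    (hc : 0 ≤ c) (D : ℕ) (hD : 1 ≤ D) (blk : Site) :
    Wit a b c V (win D 2 blk)
      (10 ^ 18 * ((D : ℝ) ^ 2 * a ^ 4 / (1 - b) ^ 3 + (D : ℝ) ^ 4 * a ^ 4 / (1 - b)
        + (D : ℝ) ^ 4 * a ^ 5 / (1 - b) ^ 3 + (D : ℝ) ^ 6 * a ^ 6 / (1 - b) ^ 3))
      {ω | HoleWit ω (win D 2 blk)} := by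
  set Rf : Finset Site := Finset.Ico ((blk.1 - 2) * D) ((blk.1 + 1 + 2) * D) ×ˢ
    Finset.Ico ((blk.2 - 2) * D) ((blk.2 + 1 + 2) * D) with hRfdef
  have hRf : ∀ x, x ∈ win D 2 blk → x ∈ Rf := by
    rintro x ⟨h1, h2, h3, h4⟩
    rw [hRfdef, Finset.mem_product, Finset.mem_Ico, Finset.mem_Ico]
    exact ⟨⟨h1, h2⟩, h3, h4⟩
  have hcard : Rf.card = 25 * D ^ 2 := by
    have e1 : ((blk.1 + 1 + 2) * (D : ℤ) - (blk.1 - 2) * D).toNat = 5 * D := by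
      rw [show (blk.1 + 1 + 2) * (D : ℤ) - (blk.1 - 2) * D = ((5 * D : ℕ) : ℤ) by push_cast; ring]
      exact Int.toNat_natCast _
    have e2 : ((blk.2 + 1 + 2) * (D : ℤ) - (blk.2 - 2) * D).toNat = 5 * D := by
      rw [show (blk.2 + 1 + 2) * (D : ℤ) - (blk.2 - 2) * D = ((5 * D : ℕ) : ℤ) by push_cast; ring]
      exact Int.toNat_natCast _
    rw [hRfdef, Finset.card_product, Int.card_Ico, Int.card_Ico, e1, e2]
    ring
  have w4 := hoC4_wit V (win D 2 blk) ha ha1 hb hb1 hc Rf (5 * D)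
  have w4s := hoC4s_wit V (win D 2 blk) ha ha1 hb hb1 hc Rf (5 * D)
  have w5 := hoC5_wit V (win D 2 blk) ha ha1 hb hb1 hc Rf (5 * D)
  have w6 := hoC6_wit V (win D 2 blk) ha ha1 hb hb1 hc Rf (5 * D)
  have w := wit_union ha hb hc w4 (wit_union ha hb hc w4s (wit_union ha hb hc w5 w6))
  refine wit_mono w (fun _ h => h) (fun _ h => h) ?_ ?_
  · rw [hcard]
    have hx : 0 < 1 / (1 - b) := by
      have : 0 < 1 - b := by linarith
      positivity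
    set x := 1 / (1 - b) with hxdef
    have d3 : ∀ y : ℝ, y / (1 - b) ^ 3 = y * (x * x * x) := by
      intro y
      rw [hxdef]
      field_simp
    have d1 : ∀ y : ℝ, y / (1 - b) = y * x := by
      intro y
      rw [hxdef]
      field_simp
    rw [d3, d3, d3, d1]
    push_cast
    have t1 : (0 : ℝ) ≤ (D : ℝ) ^ 2 * a ^ 4 * (x * x * x) := by positivity
    have t2 : (0 : ℝ) ≤ (D : ℝ) ^ 4 * a ^ 4 * x := by positivity
    have t3 : (0 : ℝ) ≤ (D : ℝ) ^ 4 * a ^ 5 * (x * x * x) := by positivity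
    have t4 : (0 : ℝ) ≤ (D : ℝ) ^ 6 * a ^ 6 * (x * x * x) := by positivity
    have k1 : 2 * 2 * (25 * (D : ℝ) ^ 2 * (169 * (169 * 49 ^ 6))) * a ^ 4 * (x * x * x) ≤
        10 ^ 18 * ((D : ℝ) ^ 2 * a ^ 4 * (x * x * x)) := by
      have : 2 * 2 * (25 * (D : ℝ) ^ 2 * (169 * (169 * 49 ^ 6))) * a ^ 4 * (x * x * x) =
        (2 * 2 * 25 * 169 * 169 * 49 ^ 6) * ((D : ℝ) ^ 2 * a ^ 4 * (x * x * x)) := by ring
      rw [this]
      exact mul_le_mul_of_nonneg_right (by norm_num) t1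
    have k2 : 2 * (25 * (D : ℝ) ^ 2 * (25 * (D : ℝ) ^ 2 * (169 * 49 ^ 6))) * a ^ 4 *
        (13 * x * 13) ≤ 10 ^ 18 * ((D : ℝ) ^ 4 * a ^ 4 * x) := by
      have : 2 * (25 * (D : ℝ) ^ 2 * (25 * (D : ℝ) ^ 2 * (169 * 49 ^ 6))) * a ^ 4 *
        (13 * x * 13) = (2 * 25 * 25 * 169 * 49 ^ 6 * 169) * ((D : ℝ) ^ 4 * a ^ 4 * x) := by ring
      rw [this]
      exact mul_le_mul_of_nonneg_right (by norm_num) t2
    have k3 : 2 * 2 * (25 * (D : ℝ) ^ 2 * (25 * (D : ℝ) ^ 2 * (169 * 49 ^ 6))) * a ^ 5 *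
        (x * x * x) ≤ 10 ^ 18 * ((D : ℝ) ^ 4 * a ^ 5 * (x * x * x)) := by
      have : 2 * 2 * (25 * (D : ℝ) ^ 2 * (25 * (D : ℝ) ^ 2 * (169 * 49 ^ 6))) * a ^ 5 *
        (x * x * x) = (2 * 2 * 25 * 25 * 169 * 49 ^ 6) * ((D : ℝ) ^ 4 * a ^ 5 * (x * x * x)) := by
        ring
      rw [this]
      exact mul_le_mul_of_nonneg_right (by norm_num) t3
    have k4 : 25 * (D : ℝ) ^ 2 * (25 * (D : ℝ) ^ 2 * (25 * (D : ℝ) ^ 2 * 49 ^ 6)) * a ^ 6 *
        (x * x * x) ≤ 10 ^ 18 * ((D : ℝ) ^ 6 * a ^ 6 * (x * x * x)) := by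
      have : 25 * (D : ℝ) ^ 2 * (25 * (D : ℝ) ^ 2 * (25 * (D : ℝ) ^ 2 * 49 ^ 6)) * a ^ 6 *
        (x * x * x) = (25 * 25 * 25 * 49 ^ 6) * ((D : ℝ) ^ 6 * a ^ 6 * (x * x * x)) := by ring
      rw [this]
      exact mul_le_mul_of_nonneg_right (by norm_num) t4
    linarith
  · intro ω hω
    obtain ⟨l1, l2, l3, p, p', s, z, h⟩ := ho_dat hω
    exact h.cover Rf hRf

end TSB
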