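import Pool.Agent.TSB.Wit
import Pool.Agent.TSB.Paths
import Pool.Agent.TSB.Whole
open MeasureTheory
open scoped Classical

namespace TSB

/-! ## Module WD1: the weight of a bad `D`-block -/

/-- the window as a finset -/
noncomputable def wd1_winF (n a : ℕ) (c : Site) : Finset Site :=
  Finset.Ico ((c.1 - a) * n) ((c.1 + 1 + a) * n) ×ˢ Finset.Ico ((c.2 - a) * n) ((c.2 + 1 + a) * n)

theorem wd1_mem_winF (n a : ℕ) (c x : Site) : x ∈ wd1_winF n a c ↔ x ∈ win n a c := by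
  simp only [wd1_winF, Finset.mem_product, Finset.mem_Ico, win, Set.mem_ofPred_eq]
  tauto

theorem wd1_card_winF (n a : ℕ) (c : Site) : (wd1_winF n a c).card = ((2 * a + 1) * n) ^ 2 := by
  rw [wd1_winF, Finset.card_product, Int.card_Ico, Int.card_Ico]
  have h1 : ((c.1 + 1 + a) * n - (c.1 - a) * n : ℤ) = (((2 * a + 1) * n : ℕ) : ℤ) := by
    push_cast; ring
  have h2 : ((c.2 + 1 + a) * n - (c.2 - a) * n : ℤ) = (((2 * a + 1) * n : ℕ) : ℤ) := by
    push_cast; ring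
  rw [h1, h2, Int.toNat_natCast]
  ring

/-- one cylinder is a witness -/
theorem wd1_cyl {a b c : ℝ} {V R : Set Site} (τ : Tri) (hd : Disj3 τ) (h1 : (τ.1 : Set Site) ⊆ R)
    (h2 : (τ.2.1 : Set Site) ⊆ R) (h3 : (τ.2.2 : Set Site) ⊆ R ∩ V) {E : Set Config}
    (hE : E ⊆ cyl τ) : Wit a b c V R (wt a b c τ) E := by
  refine ⟨{τ}, ?_, fun ω hω => ⟨τ, Finset.mem_singleton_self _, hE hω⟩, ?_⟩
  · intro τ' hτ'
    rw [Finset.mem_singleton] at hτ'
    subst hτ'
    exact ⟨hd, h1, h2, h3⟩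
  · simp

/-- a finite family of twos -/
theorem wd1_twos {a b c : ℝ} {V R : Set Site} (Z : Finset Site) (h1 : (Z : Set Site) ⊆ R)
    {E : Set Config} (hE : ∀ ω ∈ E, ∀ x ∈ Z, ω x = 2) : Wit a b c V R (a ^ Z.card) E := by
  have h := wd1_cyl (a := a) (b := b) (c := c) (V := V) (R := R) (E := E) (Z, ∅, ∅)
    (by simp [Disj3]) h1 (by simp) (by simp) (fun ω hω => ⟨hE ω hω, by simp, by simp⟩)
  simpa [wt] using h

/-- a finite family of sites that are not ones -/
theorem wd1_nones {a b c : ℝ} {V R : Set Site} (Y : Finset Site) (h1 : (Y : Set Site) ⊆ R)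
    {E : Set Config} (hE : ∀ ω ∈ E, ∀ x ∈ Y, ω x ≠ 1) : Wit a b c V R (b ^ Y.card) E := by
  have h := wd1_cyl (a := a) (b := b) (c := c) (V := V) (R := R) (E := E) (∅, Y, ∅)
    (by simp [Disj3]) (by simp) h1 (by simp) (fun ω hω => ⟨by simp, hE ω hω, by simp⟩)
  simpa [wt] using h

theorem wit_db1 {a b c : ℝ} (V : Set Site) (ha : 0 ≤ a) (hb : 0 ≤ b) (hc : 0 ≤ c) (D : ℕ)
    (hD : 1 ≤ D) (blk : Site) :
    Wit a b c V (win D 2 blk) (10 ^ 6 * (D : ℝ) ^ 2 * a ^ 3) {ω | DB1 D ω blk} := by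
  set Q : Finset (ℤ × ℤ) := Finset.Icc (-6 : ℤ) 6 ×ˢ Finset.Icc (-6 : ℤ) 6 with hQ
  have hQc : Q.card = 169 := by rw [hQ, Finset.card_product]; rfl
  set I : Finset (Site × (ℤ × ℤ) × (ℤ × ℤ)) := (wd1_winF D 2 blk ×ˢ (Q ×ˢ Q)).filter
    (fun t => (t.1.1 + t.2.1.1, t.1.2 + t.2.1.2) ∈ win D 2 blk ∧
      (t.1.1 + t.2.2.1, t.1.2 + t.2.2.2) ∈ win D 2 blk ∧ t.2.1 ≠ (0, 0) ∧ t.2.2 ≠ (0, 0) ∧
      t.2.1 ≠ t.2.2) with hI
  have hIc : (I.card : ℝ) ≤ 25 * (D : ℝ) ^ 2 * 169 ^ 2 := by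
    have h1 : I.card ≤ (wd1_winF D 2 blk ×ˢ (Q ×ˢ Q)).card := Finset.card_filter_le _ _
    rw [Finset.card_product, Finset.card_product, hQc, wd1_card_winF] at h1
    calc (I.card : ℝ) ≤ (((2 * 2 + 1) * D) ^ 2 * (169 * 169) : ℕ) := by exact_mod_cast h1
      _ = 25 * (D : ℝ) ^ 2 * 169 ^ 2 := by push_cast; ring
  have hmain := wit_biUnion (a := a) (b := b) (c := c) (V := V) (R := win D 2 blk) I
    (fun _ => a ^ 3)
    (fun t => {ω | ω t.1 = 2 ∧ ω (t.1.1 + t.2.1.1, t.1.2 + t.2.1.2) = 2 ∧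
      ω (t.1.1 + t.2.2.1, t.1.2 + t.2.2.2) = 2}) ha hb hc ?_
  · refine wit_mono hmain subset_rfl subset_rfl ?_ ?_
    · rw [Finset.sum_const, nsmul_eq_mul]
      have h3 : 0 ≤ a ^ 3 := by positivity
      have h4 : 0 ≤ (D : ℝ) ^ 2 * a ^ 3 := by positivity
      have h5 : (25 : ℝ) * 169 ^ 2 ≤ 10 ^ 6 := by norm_num
      calc (I.card : ℝ) * a ^ 3 ≤ (25 * (D : ℝ) ^ 2 * 169 ^ 2) * a ^ 3 :=
            mul_le_mul_of_nonneg_right hIc h3
        _ = (25 * 169 ^ 2) * ((D : ℝ) ^ 2 * a ^ 3) := by ring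
        _ ≤ 10 ^ 6 * ((D : ℝ) ^ 2 * a ^ 3) := mul_le_mul_of_nonneg_right h5 h4
        _ = 10 ^ 6 * (D : ℝ) ^ 2 * a ^ 3 := by ring
    · rintro ω ⟨x, hx, y, hy, z, hz, h1, h2, h3, hxy, hxz, hyz, hb1, hb2⟩
      refine ⟨(x, (y.1 - x.1, y.2 - x.2), (z.1 - x.1, z.2 - x.2)), ?_, ?_⟩
      · simp only [ball, Set.mem_ofPred_eq, abs_le] at hb1 hb2
        rw [hI, Finset.mem_filter]
        refine ⟨?_, ?_, ?_, ?_, ?_, ?_⟩
        · simp only [hQ, Finset.mem_product, Finset.mem_Icc]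
          refine ⟨(wd1_mem_winF _ _ _ _).2 hx, ⟨⟨?_, ?_⟩, ?_, ?_⟩, ⟨?_, ?_⟩, ?_, ?_⟩ <;> linarith
        · simpa using hy
        · simpa using hz
        · intro h
          simp only [Prod.mk.injEq] at h
          exact hxy (Prod.ext (by linarith) (by linarith))
        · intro h
          simp only [Prod.mk.injEq] at h
          exact hxz (Prod.ext (by linarith) (by linarith))
        · intro h
          simp only [Prod.mk.injEq] at h
          exact hyz (Prod.ext (by linarith) (by linarith))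
      · simp only [Set.mem_ofPred_eq, add_sub_cancel]
        exact ⟨h1, h2, h3⟩
  · intro t ht
    rw [hI, Finset.mem_filter] at ht
    obtain ⟨h1, h2, h3, h4, h5, h6⟩ := ht
    have hx := (wd1_mem_winF _ _ _ _).1 (Finset.mem_product.1 h1).1
    have hcard : ({t.1, (t.1.1 + t.2.1.1, t.1.2 + t.2.1.2),
        (t.1.1 + t.2.2.1, t.1.2 + t.2.2.2)} : Finset Site).card = 3 := by
      rw [Finset.card_eq_three]
      refine ⟨_, _, _, ?_, ?_, ?_, rfl⟩
      · intro h
        have e1 := congrArg Prod.fst h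
        have e2 := congrArg Prod.snd h
        simp only at e1 e2
        exact h4 (Prod.ext (by simp; linarith) (by simp; linarith))
      · intro h
        have e1 := congrArg Prod.fst h
        have e2 := congrArg Prod.snd h
        simp only at e1 e2
        exact h5 (Prod.ext (by simp; linarith) (by simp; linarith))
      · intro h
        have e1 := congrArg Prod.fst h
        have e2 := congrArg Prod.snd h
        simp only at e1 e2
        exact h6 (Prod.ext (by linarith) (by linarith))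
    have := wd1_twos (a := a) (b := b) (c := c) (V := V) (R := win D 2 blk)
      ({t.1, (t.1.1 + t.2.1.1, t.1.2 + t.2.1.2), (t.1.1 + t.2.2.1, t.1.2 + t.2.2.2)} : Finset Site)
      ?_ (E := {ω | ω t.1 = 2 ∧ ω (t.1.1 + t.2.1.1, t.1.2 + t.2.1.2) = 2 ∧
        ω (t.1.1 + t.2.2.1, t.1.2 + t.2.2.2) = 2}) ?_
    · rwa [hcard] at this
    · intro x hx'
      simp only [Finset.coe_insert, Finset.coe_singleton, Set.mem_insert_iff,
        Set.mem_singleton_iff] at hx'
      rcases hx' with rfl | rfl | rfl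
      · exact hx
      · exact h2
      · exact h3
    · rintro ω ⟨e1, e2, e3⟩ x hx'
      simp only [Finset.mem_insert, Finset.mem_singleton] at hx'
      rcases hx' with rfl | rfl | rfl
      · exact e1
      · exact e2
      · exact e3

/-- one direction of `DB2` -/
theorem wd1_seg {a b c : ℝ} (V : Set Site) (ha : 0 ≤ a) (hb : 0 ≤ b) (hc : 0 ≤ c) (w D : ℕ)
    (hw : 1 ≤ w) (blk : Site) (g : Site → ℕ → Site)
    (hg0 : ∀ x, g x 0 = x) (hg : ∀ x, Function.Injective (g x)) :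
    Wit a b c V (win D 2 blk) (25 * (D : ℝ) ^ 2 * b ^ w)
      {ω | ∃ x : Site, ∀ i : ℕ, i < w → g x i ∈ win D 2 blk ∧ ω (g x i) ≠ 1} := by
  set I := (wd1_winF D 2 blk).filter (fun x => ∀ i : ℕ, i < w → g x i ∈ win D 2 blk) with hI
  have hIc : (I.card : ℝ) ≤ 25 * (D : ℝ) ^ 2 := by
    have h1 : I.card ≤ (wd1_winF D 2 blk).card := Finset.card_filter_le _ _
    rw [wd1_card_winF] at h1
    calc (I.card : ℝ) ≤ (((2 * 2 + 1) * D) ^ 2 : ℕ) := by exact_mod_cast h1
      _ = 25 * (D : ℝ) ^ 2 := by push_cast; ring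
  have hmain := wit_biUnion (a := a) (b := b) (c := c) (V := V) (R := win D 2 blk) I
    (fun _ => b ^ w) (fun x => {ω | ∀ i : ℕ, i < w → ω (g x i) ≠ 1}) ha hb hc ?_
  · refine wit_mono hmain subset_rfl subset_rfl ?_ ?_
    · rw [Finset.sum_const, nsmul_eq_mul]
      exact mul_le_mul_of_nonneg_right hIc (by positivity)
    · rintro ω ⟨x, hx⟩
      refine ⟨x, ?_, fun i hi => (hx i hi).2⟩
      rw [hI, Finset.mem_filter, wd1_mem_winF]
      refine ⟨?_, fun i hi => (hx i hi).1⟩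
      have := (hx 0 (by omega)).1
      rwa [hg0] at this
  · intro x hx
    rw [hI, Finset.mem_filter] at hx
    have h := wd1_nones (a := a) (b := b) (c := c) (V := V) (R := win D 2 blk)
      ((Finset.range w).image (g x)) ?_ (E := {ω | ∀ i : ℕ, i < w → ω (g x i) ≠ 1}) ?_
    · rwa [Finset.card_image_of_injective _ (hg x), Finset.card_range] at h
    · intro y hy
      simp only [Finset.coe_image, Set.mem_image, Finset.mem_coe, Finset.mem_range] at hy
      obtain ⟨i, hi, rfl⟩ := hy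
      exact hx.2 i hi
    · intro ω hω y hy
      simp only [Finset.mem_image, Finset.mem_range] at hy
      obtain ⟨i, hi, rfl⟩ := hy
      exact hω i hi

theorem wit_db2 {a b c : ℝ} (V : Set Site) (ha : 0 ≤ a) (hb : 0 ≤ b) (hc : 0 ≤ c) (w D : ℕ)
    (hD : 1 ≤ D) (hw : 1 ≤ w) (blk : Site) :
    Wit a b c V (win D 2 blk) (50 * (D : ℝ) ^ 2 * b ^ w) {ω | DB2 w D ω blk} := by
  have h1 := wd1_seg (a := a) (b := b) (c := c) V ha hb hc w D hw blk
    (fun x i => (x.1 + i, x.2)) (fun x => by simp) (fun x i j h => by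
      simpa using h)
  have h2 := wd1_seg (a := a) (b := b) (c := c) V ha hb hc w D hw blk
    (fun x i => (x.1, x.2 + i)) (fun x => by simp) (fun x i j h => by
      simpa using h)
  refine wit_mono (wit_union ha hb hc h1 h2) subset_rfl subset_rfl (by linarith) ?_
  intro ω hω
  exact hω

theorem wit_db3 {a b c : ℝ} (V : Set Site) (ha : 0 ≤ a) (hb : 0 ≤ b) (hc : 0 ≤ c) (w d mw : ℕ)
    (hd : 1 ≤ d) (hw : 3 ≤ w) (haw : a * ((w : ℝ) + 4) ^ 2 ≤ 1) (blk : Site) :
    Wit a b c V (win (d * w) 2 blk)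
      (9 * (d : ℝ) ^ 2 * 8 ^ (mw + 1) * (a * ((w : ℝ) + 4) ^ 2) ^ ((mw + 82) / 81))
      {ω | DB3 w d mw ω blk} := by
  set Reg : Site → Finset Site := fun z =>
    Finset.Ico (z.1 * w - 2) ((z.1 + 1) * w + 2) ×ˢ Finset.Ico (z.2 * w - 2) ((z.2 + 1) * w + 2)
    with hReg
  have hmem : ∀ z x : Site, x ∈ Reg z ↔ z.1 * w - 2 ≤ x.1 ∧ x.1 < (z.1 + 1) * w + 2 ∧
      z.2 * w - 2 ≤ x.2 ∧ x.2 < (z.2 + 1) * w + 2 := by
    intro z x
    simp only [hReg, Finset.mem_product, Finset.mem_Ico]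
    tauto
  have hcard : ∀ z, ((Reg z).card : ℝ) = ((w : ℝ) + 4) ^ 2 := by
    intro z
    simp only [hReg, Finset.card_product, Int.card_Ico]
    have h1 : ((z.1 + 1) * w + 2 - (z.1 * w - 2) : ℤ) = ((w + 4 : ℕ) : ℤ) := by push_cast; ring
    have h2 : ((z.2 + 1) * w + 2 - (z.2 * w - 2) : ℤ) = ((w + 4 : ℕ) : ℤ) := by push_cast; ring
    rw [h1, h2, Int.toNat_natCast]
    push_cast; ring
  have hmain := wit_badspan (a := a) (b := b) (c := c) (V := V) (R := win (d * w) 2 blk)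
    (δ := a * ((w : ℝ) + 4) ^ 2) ha hb hc (by positivity) haw (wd1_winF d 1 blk)
    (fun z => {ω | wbad w ω z}) (fun z => (Reg z : Set Site)) ?_ ?_ ?_ mw
  · refine wit_mono hmain subset_rfl subset_rfl ?_ ?_
    · rw [spanW, wd1_card_winF]
      push_cast
      apply le_of_eq
      ring
    · rintro ω ⟨C, h1, h2, h3, h4⟩
      exact ⟨C, fun z hz => ⟨(wd1_mem_winF _ _ _ _).2 (h1 hz), h2 z hz⟩, h3, h4⟩
  · intro z _
    have h := wit_biUnion (a := a) (b := b) (c := c) (V := V) (R := (Reg z : Set Site)) (Reg z)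
      (fun _ => a) (fun x => {ω | ω x = 2}) ha hb hc ?_
    · refine wit_mono h subset_rfl subset_rfl ?_ ?_
      · rw [Finset.sum_const, nsmul_eq_mul, hcard z, mul_comm]
      · rintro ω ⟨x, hx, hx'⟩
        exact ⟨x, (hmem z x).2 hx', hx⟩
    · intro x hx
      have h' := wd1_twos (a := a) (b := b) (c := c) (V := V) (R := (Reg z : Set Site)) {x}
        (by simpa using hx) (E := {ω | ω x = 2}) (by intro ω hω y hy; simp at hy; subst hy; exact hω)
      simpa using h'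
  · intro z hz x hx
    rw [wd1_mem_winF] at hz
    have hx' := (hmem z x).1 hx
    obtain ⟨z1, z2, z3, z4⟩ := hz
    obtain ⟨x1, x2, x3, x4⟩ := hx'
    have hw' : (3 : ℤ) ≤ w := by exact_mod_cast hw
    have hd' : (1 : ℤ) ≤ d := by exact_mod_cast hd
    have hdw : (3 : ℤ) ≤ d * w := by nlinarith
    have e1 : ((blk.1 - 1) * d) * (w : ℤ) ≤ z.1 * w :=
      mul_le_mul_of_nonneg_right (by exact_mod_cast z1) (by linarith)
    have e2 : (z.1 + 1) * (w : ℤ) ≤ ((blk.1 + 1 + 1) * d) * w :=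
      mul_le_mul_of_nonneg_right (by push_cast at z2; linarith) (by linarith)
    have e3 : ((blk.2 - 1) * d) * (w : ℤ) ≤ z.2 * w :=
      mul_le_mul_of_nonneg_right (by exact_mod_cast z3) (by linarith)
    have e4 : (z.2 + 1) * (w : ℤ) ≤ ((blk.2 + 1 + 1) * d) * w :=
      mul_le_mul_of_nonneg_right (by push_cast at z4; linarith) (by linarith)
    refine ⟨?_, ?_, ?_, ?_⟩ <;> push_cast <;> nlinarith
  · intro z _ z' _ hzz
    rw [Set.disjoint_left]
    intro x hx hx'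
    have h1 := (hmem z x).1 hx
    have h2 := (hmem z' x).1 hx'
    have hw' : (3 : ℤ) ≤ w := by exact_mod_cast hw
    rcases hzz with h | h
    · rcases le_total z.1 z'.1 with h' | h'
      · rw [abs_of_nonpos (by linarith)] at h
        nlinarith
      · rw [abs_of_nonneg (by linarith)] at h
        nlinarith
    · rcases le_total z.2 z'.2 with h' | h'
      · rw [abs_of_nonpos (by linarith)] at h
        nlinarith
      · rw [abs_of_nonneg (by linarith)] at h
        nlinarith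

theorem wit_dbad {a b c : ℝ} (V : Set Site) (ha : 0 ≤ a) (ha1 : a ≤ 1) (hb : 0 ≤ b) (hb1 : b < 1)
    (hc : 0 ≤ c) (w d mw : ℕ) (hd : 1 ≤ d) (hw : 3 ≤ w) (haw : a * ((w : ℝ) + 4) ^ 2 ≤ 1)
    (blk : Site) :
    Wit a b c V (win (d * w) 2 blk) (deltaD w d mw a b) {ω | DBad w d mw ω blk} := by
  have hD : 1 ≤ d * w := Nat.mul_pos (by omega) (by omega)
  have h1 := wit_db1 (a := a) (b := b) (c := c) V ha hb hc (d * w) hD blk
  have h2 := wit_db2 (a := a) (b := b) (c := c) V ha hb hc w (d * w) hD (by omega) blk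
  have h3 := wit_db3 (a := a) (b := b) (c := c) V ha hb hc w d mw hd hw haw blk
  have h4 := wit_hole (a := a) (b := b) (c := c) V ha ha1 hb hb1 hc (d * w) hD blk
  refine wit_mono (wit_union ha hb hc (wit_union ha hb hc (wit_union ha hb hc h1 h2) h3) h4)
    subset_rfl subset_rfl (le_of_eq rfl) ?_
  rintro ω (h | h | h | h)
  · exact Or.inl (Or.inl (Or.inl h))
  · exact Or.inl (Or.inl (Or.inr h))
  · exact Or.inl (Or.inr h)
  · exact Or.inr h

end TSB
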