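import Pool.Agent.TSB.Defs

open MeasureTheory
open scoped Classical

namespace TSB

private theorem wit_wt_nonneg {a b c : ℝ} (ha : 0 ≤ a) (hb : 0 ≤ b) (hc : 0 ≤ c) (τ : Tri) :
    0 ≤ wt a b c τ := by
  unfold wt
  positivity

theorem wit_measure {a b c : ℝ} {U V R : Set Site} {δ : ℝ} {E : Set Config} {ν : Measure Config}
    [IsFiniteMeasure ν] (hW : Wit a b c V R δ E) (hD : Dom ν a b c U V) (hR : R ⊆ U) :
    ν.real E ≤ δ := by
  obtain ⟨F, h1, h2, h3⟩ := hW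
  have hsub : E ⊆ ⋃ τ ∈ F, cyl τ := by
    intro ω hω
    obtain ⟨τ, hτ, h⟩ := h2 ω hω
    exact Set.mem_biUnion hτ h
  calc ν.real E ≤ ν.real (⋃ τ ∈ F, cyl τ) := measureReal_mono hsub (measure_ne_top _ _)
    _ ≤ ∑ τ ∈ F, ν.real (cyl τ) := measureReal_biUnion_finset_le F cyl
    _ ≤ ∑ τ ∈ F, wt a b c τ := by
        refine Finset.sum_le_sum fun τ hτ => ?_
        obtain ⟨g1, g2, g3, g4⟩ := h1 τ hτ
        exact hD τ g1 (g2.trans hR) (g3.trans hR) (fun x hx => (g4 hx).2)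
    _ ≤ δ := h3

theorem wit_mono {a b c : ℝ} {V V' R R' : Set Site} {δ δ' : ℝ} {E E' : Set Config}
    (hW : Wit a b c V R δ E) (hV : V ⊆ V') (hR : R ⊆ R') (hδ : δ ≤ δ') (hE : E' ⊆ E) :
    Wit a b c V' R' δ' E' := by
  obtain ⟨F, h1, h2, h3⟩ := hW
  refine ⟨F, fun τ hτ => ?_, fun ω hω => h2 ω (hE hω), h3.trans hδ⟩
  obtain ⟨g1, g2, g3, g4⟩ := h1 τ hτ
  exact ⟨g1, g2.trans hR, g3.trans hR, fun x hx => ⟨hR (g4 hx).1, hV (g4 hx).2⟩⟩

theorem wit_union {a b c : ℝ} {V R : Set Site} {δ δ' : ℝ} {E E' : Set Config}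
    (ha : 0 ≤ a) (hb : 0 ≤ b) (hc : 0 ≤ c)
    (h : Wit a b c V R δ E) (h' : Wit a b c V R δ' E') : Wit a b c V R (δ + δ') (E ∪ E') := by
  obtain ⟨F, h1, h2, h3⟩ := h
  obtain ⟨F', h1', h2', h3'⟩ := h'
  refine ⟨F ∪ F', fun τ hτ => ?_, fun ω hω => ?_, ?_⟩
  · rcases Finset.mem_union.mp hτ with h | h
    · exact h1 τ h
    · exact h1' τ h
  · rcases hω with h | h
    · obtain ⟨τ, hτ, g⟩ := h2 ω h
      exact ⟨τ, Finset.mem_union_left _ hτ, g⟩
    · obtain ⟨τ, hτ, g⟩ := h2' ω h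
      exact ⟨τ, Finset.mem_union_right _ hτ, g⟩
  · have g1 := Finset.sum_union_inter (s₁ := F) (s₂ := F') (f := wt a b c)
    have g2 : 0 ≤ ∑ τ ∈ F ∩ F', wt a b c τ :=
      Finset.sum_nonneg fun τ _ => wit_wt_nonneg ha hb hc τ
    linarith

theorem wit_biUnion {a b c : ℝ} {V R : Set Site} {ι : Type*} (I : Finset ι) (δ : ι → ℝ)
    (E : ι → Set Config) (ha : 0 ≤ a) (hb : 0 ≤ b) (hc : 0 ≤ c)
    (h : ∀ i ∈ I, Wit a b c V R (δ i) (E i)) :
    Wit a b c V R (∑ i ∈ I, δ i) {ω | ∃ i ∈ I, ω ∈ E i} := by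
  induction I using Finset.induction_on with
  | empty =>
    refine ⟨∅, fun τ hτ => absurd hτ (Finset.notMem_empty τ), ?_, by simp⟩
    rintro ω ⟨i, hi, -⟩
    exact absurd hi (Finset.notMem_empty i)
  | insert j I hj ih =>
    rw [Finset.sum_insert hj]
    have g1 := h j (Finset.mem_insert_self _ _)
    have g2 := ih fun i hi => h i (Finset.mem_insert_of_mem hi)
    refine wit_mono (wit_union ha hb hc g1 g2) (fun _ h => h) (fun _ h => h) le_rfl ?_
    rintro ω ⟨i, hi, hω⟩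
    rcases Finset.mem_insert.mp hi with rfl | hi
    · exact Or.inl hω
    · exact Or.inr ⟨i, hi, hω⟩

private theorem wit_disjoint {R R' : Set Site} (hR : Disjoint R R') {A B : Finset Site}
    (hA : (A : Set Site) ⊆ R) (hB : (B : Set Site) ⊆ R') : Disjoint A B := by
  rw [Finset.disjoint_left]
  intro x hx hx'
  exact Set.disjoint_left.mp hR (hA hx) (hB hx')

private theorem wit_sum_image_le {α β : Type*} [DecidableEq β] (s : Finset α) (g : α → β) (f : β → ℝ)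
    (hf : ∀ y, 0 ≤ f y) : ∑ y ∈ s.image g, f y ≤ ∑ x ∈ s, f (g x) := by
  rw [← Finset.sum_fiberwise_of_maps_to (s := s) (t := s.image g) (g := g)
    (fun x hx => Finset.mem_image_of_mem g hx)]
  refine Finset.sum_le_sum fun y hy => ?_
  obtain ⟨x, hx, rfl⟩ := Finset.mem_image.mp hy
  exact Finset.single_le_sum (f := fun x => f (g x)) (fun _ _ => hf _)
    (Finset.mem_filter.mpr ⟨hx, rfl⟩)

theorem wit_inter {a b c : ℝ} {V R R' : Set Site} {δ δ' : ℝ} {E E' : Set Config}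
    (ha : 0 ≤ a) (hb : 0 ≤ b) (hc : 0 ≤ c) (hR : Disjoint R R')
    (h : Wit a b c V R δ E) (h' : Wit a b c V R' δ' E') :
    Wit a b c V (R ∪ R') (δ * δ') (E ∩ E') := by
  obtain ⟨F, h1, h2, h3⟩ := h
  obtain ⟨F', h1', h2', h3'⟩ := h'
  set g : Tri × Tri → Tri := fun p => (p.1.1 ∪ p.2.1, p.1.2.1 ∪ p.2.2.1, p.1.2.2 ∪ p.2.2.2)
    with hg
  refine ⟨(F ×ˢ F').image g, ?_, ?_, ?_⟩
  · intro τ hτ
    obtain ⟨⟨σ, σ'⟩, hσ, rfl⟩ := Finset.mem_image.mp hτ
    rw [Finset.mem_product] at hσ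
    obtain ⟨⟨d1, d2, d3⟩, g2, g3, g4⟩ := h1 σ hσ.1
    obtain ⟨⟨d1', d2', d3'⟩, g2', g3', g4'⟩ := h1' σ' hσ.2
    have g5 : (σ.2.2 : Set Site) ⊆ R := fun x hx => (g4 hx).1
    have g5' : (σ'.2.2 : Set Site) ⊆ R' := fun x hx => (g4' hx).1
    refine ⟨⟨?_, ?_, ?_⟩, ?_, ?_, ?_⟩
    · rw [hg, Finset.disjoint_union_left, Finset.disjoint_union_right,
        Finset.disjoint_union_right]
      exact ⟨⟨d1, wit_disjoint hR g2 g3'⟩, (wit_disjoint hR g3 g2').symm, d1'⟩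
    · rw [hg, Finset.disjoint_union_left, Finset.disjoint_union_right,
        Finset.disjoint_union_right]
      exact ⟨⟨d2, wit_disjoint hR g2 g5'⟩, (wit_disjoint hR g5 g2').symm, d2'⟩
    · rw [hg, Finset.disjoint_union_left, Finset.disjoint_union_right,
        Finset.disjoint_union_right]
      exact ⟨⟨d3, wit_disjoint hR g3 g5'⟩, (wit_disjoint hR g5 g3').symm, d3'⟩
    · rw [hg]
      simp only [Finset.coe_union]
      exact Set.union_subset_union g2 g2'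
    · rw [hg]
      simp only [Finset.coe_union]
      exact Set.union_subset_union g3 g3'
    · rw [hg]
      simp only [Finset.coe_union]
      rintro x (hx | hx)
      · exact ⟨Or.inl (g4 hx).1, (g4 hx).2⟩
      · exact ⟨Or.inr (g4' hx).1, (g4' hx).2⟩
  · rintro ω ⟨hω, hω'⟩
    obtain ⟨σ, hσ, k1, k2, k3⟩ := h2 ω hω
    obtain ⟨σ', hσ', k1', k2', k3'⟩ := h2' ω hω'
    refine ⟨g (σ, σ'), Finset.mem_image_of_mem g (Finset.mem_product.mpr ⟨hσ, hσ'⟩), ?_, ?_, ?_⟩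
    · intro x hx
      rcases Finset.mem_union.mp hx with hx | hx
      · exact k1 x hx
      · exact k1' x hx
    · intro x hx
      rcases Finset.mem_union.mp hx with hx | hx
      · exact k2 x hx
      · exact k2' x hx
    · intro x hx
      rcases Finset.mem_union.mp hx with hx | hx
      · exact k3 x hx
      · exact k3' x hx
  · refine (wit_sum_image_le (F ×ˢ F') g (wt a b c) (wit_wt_nonneg ha hb hc)).trans ?_
    have e : ∀ p ∈ F ×ˢ F', wt a b c (g p) = wt a b c p.1 * wt a b c p.2 := by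
      rintro ⟨σ, σ'⟩ hσ
      rw [Finset.mem_product] at hσ
      obtain ⟨⟨d1, d2, d3⟩, g2, g3, g4⟩ := h1 σ hσ.1
      obtain ⟨⟨d1', d2', d3'⟩, g2', g3', g4'⟩ := h1' σ' hσ.2
      have g5 : (σ.2.2 : Set Site) ⊆ R := fun x hx => (g4 hx).1
      have g5' : (σ'.2.2 : Set Site) ⊆ R' := fun x hx => (g4' hx).1
      simp only [hg, wt]
      rw [Finset.card_union_of_disjoint (wit_disjoint hR g2 g2'),
        Finset.card_union_of_disjoint (wit_disjoint hR g3 g3'),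
        Finset.card_union_of_disjoint (wit_disjoint hR g5 g5'), pow_add, pow_add, pow_add]
      ring
    rw [Finset.sum_congr rfl e, Finset.sum_product, ← Finset.sum_mul_sum]
    have n1 : 0 ≤ ∑ τ ∈ F, wt a b c τ := Finset.sum_nonneg fun τ _ => wit_wt_nonneg ha hb hc τ
    have n2 : 0 ≤ ∑ τ ∈ F', wt a b c τ := Finset.sum_nonneg fun τ _ => wit_wt_nonneg ha hb hc τ
    exact mul_le_mul h3 h3' n2 (n1.trans h3)

theorem wit_nonneg {a b c : ℝ} {V R : Set Site} {δ : ℝ} {E : Set Config}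
    (ha : 0 ≤ a) (hb : 0 ≤ b) (hc : 0 ≤ c) (h : Wit a b c V R δ E) : 0 ≤ δ := by
  obtain ⟨F, -, -, h3⟩ := h
  exact (Finset.sum_nonneg fun τ _ => wit_wt_nonneg ha hb hc τ).trans h3

end TSB
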