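import Pool.Agent.TSB.Defs
import Pool.Agent.TSB.Mu
import Pool.Agent.TSB.Wit
import Pool.Agent.TSB.Wd1

/-! Module NUC1: the probability of a nucleus of ones. -/

open MeasureTheory
open scoped Classical

namespace TSB

/-! ### Dependence -/

theorem nuc1_wbad_dep {w D : ℕ} {d : ℕ} (hD : D = d * w) (hD2 : 2 ≤ D) {ω ω' : Config} {b c : Site}
    (h : ∀ x ∈ win D 2 b, ω x = ω' x) (hc : c ∈ win d 1 b) (hb : wbad w ω c) : wbad w ω' c := by
  obtain ⟨z, hz, h1, h2, h3, h4⟩ := hb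
  refine ⟨z, ?_, h1, h2, h3, h4⟩
  rw [← h z _, hz]
  simp only [win, Set.mem_ofPred_eq] at hc ⊢
  obtain ⟨c1, c2, c3, c4⟩ := hc
  have hw : (0 : ℤ) ≤ w := Int.natCast_nonneg _
  have hD' : (D : ℤ) = d * w := by rw [hD]; push_cast; ring
  have hD3 : (2 : ℤ) ≤ D := by exact_mod_cast hD2
  push_cast at c1 c2 c3 c4 ⊢
  have e : ∀ t : ℤ, t * d * w = t * D := fun t => by rw [hD']; ring
  refine ⟨?_, ?_, ?_, ?_⟩
  · have := mul_le_mul_of_nonneg_right c1 hw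
    rw [e] at this
    linarith
  · have := mul_le_mul_of_nonneg_right (Int.add_one_le_iff.mpr c2) hw
    rw [e] at this
    linarith
  · have := mul_le_mul_of_nonneg_right c3 hw
    rw [e] at this
    linarith
  · have := mul_le_mul_of_nonneg_right (Int.add_one_le_iff.mpr c4) hw
    rw [e] at this
    linarith

theorem nuc1_dbad_dep1 {w d mw : ℕ} (hD2 : 2 ≤ d * w) {ω ω' : Config} {b : Site}
    (h : ∀ x ∈ win (d * w) 2 b, ω x = ω' x) (hb : DBad w d mw ω b) : DBad w d mw ω' b := by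
  rcases hb with hb | hb | hb | hb
  · obtain ⟨x, hx, y, hy, z, hz, h1, h2, h3, r⟩ := hb
    exact Or.inl ⟨x, hx, y, hy, z, hz, by rw [← h x hx]; exact h1, by rw [← h y hy]; exact h2,
      by rw [← h z hz]; exact h3, r⟩
  · right; left
    rcases hb with ⟨x, hx⟩ | ⟨x, hx⟩
    · exact Or.inl ⟨x, fun i hi => ⟨(hx i hi).1, by rw [← h _ (hx i hi).1]; exact (hx i hi).2⟩⟩
    · exact Or.inr ⟨x, fun i hi => ⟨(hx i hi).1, by rw [← h _ (hx i hi).1]; exact (hx i hi).2⟩⟩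
  · right; right; left
    obtain ⟨C, hC, h1, h2⟩ := hb
    exact ⟨C, hC, fun c hc => nuc1_wbad_dep rfl hD2 h (hC hc) (h1 c hc), h2⟩
  · right; right; right
    have hH : ∀ a a' : Site, HRun ω (win (d * w) 2 b) a a' → HRun ω' (win (d * w) 2 b) a a' := by
      rintro a a' ⟨k1, k2, k3⟩
      refine ⟨k1, k2, fun x e1 e2 e3 => ?_⟩
      have := k3 x e1 e2 e3
      exact ⟨by rw [← h x this.2]; exact this.1, this.2⟩
    have hV : ∀ a a' : Site, VRun ω (win (d * w) 2 b) a a' → VRun ω' (win (d * w) 2 b) a a' := by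
      rintro a a' ⟨k1, k2, k3⟩
      refine ⟨k1, k2, fun x e1 e2 e3 => ?_⟩
      have := k3 x e1 e2 e3
      exact ⟨by rw [← h x this.2]; exact this.1, this.2⟩
    have hN : ∀ a a' : Site, NearTwo ω (win (d * w) 2 b) a a' →
        NearTwo ω' (win (d * w) 2 b) a a' := by
      rintro a a' ⟨k1, k2, k3⟩
      exact ⟨by rw [← h _ k2]; exact k1, k2, k3⟩
    obtain ⟨a, b', a', b'', c, c', za, zb, za', zb', zc, zc', h1, h2, h3, h4, h5, h6, h7, h8, h9,
      h10, r⟩ := hb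
    exact ⟨a, b', a', b'', c, c', za, zb, za', zb', zc, zc', hH _ _ h1, hH _ _ h2, hV _ _ h3, h4,
      hN _ _ h5, hN _ _ h6, hN _ _ h7, hN _ _ h8, hN _ _ h9, hN _ _ h10, r⟩

theorem nuc1_dbad_dep {w d mw : ℕ} (hD2 : 2 ≤ d * w) {ω ω' : Config} {b : Site}
    (h : ∀ x ∈ win (d * w) 2 b, ω x = ω' x) : DBad w d mw ω b ↔ DBad w d mw ω' b :=
  ⟨nuc1_dbad_dep1 hD2 h, nuc1_dbad_dep1 hD2 (fun x hx => (h x hx).symm)⟩

theorem nuc1_Ok {P : Par} (hP : P.Ok) : 3 ≤ P.w ∧ 2 ≤ P.d ∧ 2 ≤ P.s ∧ 2 ≤ P.d * P.w ∧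
    (P.w : ℤ) ≤ P.D ∧ (1 : ℤ) ≤ P.D := by
  have h1 := hP.hw
  have h2 := hP.hd
  have h3 := hP.hs
  have h4 : P.w ≤ P.d * P.w := Nat.le_mul_of_pos_left _ (by omega)
  refine ⟨h1, by omega, by omega, by omega, ?_, ?_⟩
  · unfold Par.D; exact_mod_cast h4
  · unfold Par.D; exact_mod_cast (by omega : 1 ≤ P.d * P.w)

/-- the sites on which the event that `b` is a nucleus of ones depends -/
noncomputable def nuc1Reg (P : Par) (b : Site) : Finset Site :=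
  Finset.Icc ((b.1 - 2) * P.D, (b.2 - 2) * P.D)
    ((b.1 + 2 * P.s + 2) * P.D - 1, (b.2 + 2 * P.s + 2) * P.D - 1)

theorem nuc1_mem_reg {P : Par} {b x : Site} : x ∈ nuc1Reg P b ↔
    (b.1 - 2) * P.D ≤ x.1 ∧ x.1 < (b.1 + 2 * P.s + 2) * P.D ∧
    (b.2 - 2) * P.D ≤ x.2 ∧ x.2 < (b.2 + 2 * P.s + 2) * P.D := by
  unfold nuc1Reg
  rw [Finset.mem_Icc, Prod.le_def, Prod.le_def]
  simp only
  constructor
  · rintro ⟨⟨h1, h2⟩, h3, h4⟩
    exact ⟨h1, by linarith, h2, by linarith⟩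
  · rintro ⟨h1, h2, h3, h4⟩
    exact ⟨⟨h1, h3⟩, by linarith, by linarith⟩

theorem nuc1_win_reg {P : Par} (hP : P.Ok) {b b' x : Site} (hb' : b' ∈ swin P.s b)
    (hx : x ∈ win P.D 2 b') : x ∈ nuc1Reg P b := by
  obtain ⟨-, -, -, -, -, hD⟩ := nuc1_Ok hP
  have hD0 : (0 : ℤ) ≤ P.D := by linarith
  rw [nuc1_mem_reg]
  simp only [swin, win, Set.mem_ofPred_eq] at hb' hx
  obtain ⟨h1, h2, h3, h4⟩ := hb'
  obtain ⟨k1, k2, k3, k4⟩ := hx
  push_cast at k1 k2 k3 k4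
  have f1 : (b.1 - 2) * (P.D : ℤ) ≤ (b'.1 - 2) * P.D :=
    mul_le_mul_of_nonneg_right (by linarith) hD0
  have f2 : (b.2 - 2) * (P.D : ℤ) ≤ (b'.2 - 2) * P.D :=
    mul_le_mul_of_nonneg_right (by linarith) hD0
  have f3 : (b'.1 + 1 + 2) * (P.D : ℤ) ≤ (b.1 + 2 * P.s + 2) * P.D :=
    mul_le_mul_of_nonneg_right (by linarith [Int.add_one_le_iff.mpr h2]) hD0
  have f4 : (b'.2 + 1 + 2) * (P.D : ℤ) ≤ (b.2 + 2 * P.s + 2) * P.D :=
    mul_le_mul_of_nonneg_right (by linarith [Int.add_one_le_iff.mpr h4]) hD0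
  exact ⟨by linarith, by linarith, by linarith, by linarith⟩

theorem nuc1_self_mem {P : Par} (hP : P.Ok) (b : Site) : b ∈ swin P.s b := by
  obtain ⟨-, -, hs, -, -, -⟩ := nuc1_Ok hP
  have : (2 : ℤ) ≤ P.s := by exact_mod_cast hs
  simp only [swin, Set.mem_ofPred_eq]
  exact ⟨le_refl _, by linarith, le_refl _, by linarith⟩

theorem nuc1_corner_win {P : Par} (hP : P.Ok) (b : Site) {i j : ℕ} (hi : i < P.w) (hj : j < P.w) :
    (b.1 * P.D + (i : ℤ), b.2 * P.D + (j : ℤ)) ∈ win P.D 2 b := by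
  obtain ⟨-, -, -, -, hwD, hD⟩ := nuc1_Ok hP
  have hi' : (i : ℤ) < P.w := by exact_mod_cast hi
  have hj' : (j : ℤ) < P.w := by exact_mod_cast hj
  have hi0 : (0 : ℤ) ≤ i := Int.natCast_nonneg _
  have hj0 : (0 : ℤ) ≤ j := Int.natCast_nonneg _
  simp only [win, Set.mem_ofPred_eq]
  push_cast
  refine ⟨by linarith, by linarith, by linarith, by linarith⟩

theorem nuc1_dep1 {P : Par} (hP : P.Ok) {b : Site} {ω ω' : Config}
    (h : ∀ x ∈ nuc1Reg P b, ω x = ω' x) (hN : Nuc1 P ω b) : Nuc1 P ω' b := by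
  obtain ⟨h1, ⟨h2, h3⟩, h4⟩ := hN
  have hself := nuc1_self_mem hP b
  have hw := (nuc1_Ok hP).1
  refine ⟨fun z hz => ?_, ⟨?_, fun r hr hrw => ?_⟩, fun b' hb' hbad => ?_⟩
  · rw [← h z (nuc1_win_reg hP hself hz)]; exact h1 z hz
  · have h5 := nuc1_corner_win hP b (i := 0) (j := 0) (by omega) (by omega)
    simp only [Nat.cast_zero, add_zero] at h5
    rw [← h _ (nuc1_win_reg hP hself h5)]; exact h2
  · obtain ⟨⟨j, hj, hj1⟩, ⟨i, hi, hi1⟩⟩ := h3 r hr hrw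
    refine ⟨⟨j, hj, ?_⟩, ⟨i, hi, ?_⟩⟩
    · rw [← h _ (nuc1_win_reg hP hself (nuc1_corner_win hP b hrw (by omega)))]; exact hj1
    · rw [← h _ (nuc1_win_reg hP hself (nuc1_corner_win hP b (by omega) hrw))]; exact hi1
  · apply h4 b' hb'
    refine nuc1_dbad_dep1 (nuc1_Ok hP).2.2.2.1 (fun x hx => ?_) hbad
    unfold updw
    rw [h x (nuc1_win_reg hP hb' hx)]

theorem nuc1_depOn (P : Par) (hP : P.Ok) (b : Site) : DepOn {ω | Nuc1 P ω b} (nuc1Reg P b) :=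
  fun _ _ h => ⟨nuc1_dep1 hP h, nuc1_dep1 hP (fun x hx => (h x hx).symm)⟩

/-! ### One-cell estimates -/

theorem nuc1_noTwo {p q : ℝ} (hp : 0 ≤ p) (hq : 0 ≤ q) (h : p + q ≤ 1) (S : Finset Site) :
    (law p q).real {ω | ∀ x ∈ S, ω x ≠ 2} = (1 - q) ^ S.card := by
  have h1 := law_sites hp hq h S (fun _ => {v : Fin 3 | v ≠ 2})
  simp only [Set.mem_ofPred_eq] at h1
  rw [h1, Finset.prod_const]
  congr 1
  rw [siteLaw_real hp hq h]
  simp
  ring

theorem nuc1_allZero {p q : ℝ} (hp : 0 ≤ p) (hq : 0 ≤ q) (h : p + q ≤ 1) (S : Finset Site) :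
    (law p q).real {ω | ∀ x ∈ S, ω x = 0} = (1 - p - q) ^ S.card := by
  have h1 := law_sites hp hq h S (fun _ => {v : Fin 3 | v = 0})
  simp only [Set.mem_ofPred_eq] at h1
  rw [h1, Finset.prod_const]
  congr 1
  rw [siteLaw_real hp hq h]
  simp

theorem nuc1_seg {p q : ℝ} (hp : 0 ≤ p) (hq : 0 ≤ q) (h : p + q ≤ 1) (S : Finset Site) :
    (1 - q) ^ S.card * (1 - (1 - p) ^ S.card) ≤
      (law p q).real {ω | (∀ x ∈ S, ω x ≠ 2) ∧ ∃ x ∈ S, ω x = 1} := by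
  have := law_isProb hp hq h
  have h1 : (law p q).real {ω | ∀ x ∈ S, ω x ≠ 2} - (law p q).real {ω | ∀ x ∈ S, ω x = 0} ≤
      (law p q).real ({ω | ∀ x ∈ S, ω x ≠ 2} \ {ω | ∀ x ∈ S, ω x = 0}) := le_measureReal_sdiff
  have h2 : (law p q).real ({ω | ∀ x ∈ S, ω x ≠ 2} \ {ω | ∀ x ∈ S, ω x = 0}) ≤
      (law p q).real {ω | (∀ x ∈ S, ω x ≠ 2) ∧ ∃ x ∈ S, ω x = 1} := by
    apply measureReal_mono _ (measure_ne_top _ _)
    rintro ω ⟨k1, k2⟩
    refine ⟨k1, ?_⟩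
    simp only [Set.mem_ofPred_eq, not_forall] at k1 k2
    obtain ⟨x, hx, hx0⟩ := k2
    refine ⟨x, hx, ?_⟩
    have k3 := k1 x hx
    generalize ω x = v at *
    fin_cases v <;> simp_all
  rw [nuc1_noTwo hp hq h, nuc1_allZero hp hq h] at h1
  have h3 : (1 - p - q) ^ S.card ≤ ((1 - q) * (1 - p)) ^ S.card := by
    apply pow_le_pow_left₀ (by linarith)
    nlinarith [mul_nonneg hp hq]
  rw [mul_pow] at h3
  nlinarith

theorem nuc1_E1cyl {p q : ℝ} (hp : 0 ≤ p) (hq : 0 ≤ q) (h : p + q ≤ 1) (W' : Finset Site)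
    (τ : Tri) (hτ : Disjoint τ.1 τ.2.1) (c : ℝ) (hX : τ.2.2 = ∅) :
    (law p q).real ({ω | ∀ x ∈ W', ω x ≠ 2} ∩ cyl τ) ≤
      (1 - q) ^ W'.card * wt (2 * q) (1 - p / 2) c τ := by
  obtain ⟨Z, Y, X⟩ := τ
  simp only at hτ hX
  subst hX
  set S : Finset Site := W' ∪ Z ∪ Y with hS
  set A : Site → Set (Fin 3) := fun x => {v | (x ∈ W' → v ≠ 2) ∧ (x ∈ Z → v = 2) ∧ (x ∈ Y → v ≠ 1)}
    with hA
  have e : {ω : Config | ∀ x ∈ W', ω x ≠ 2} ∩ cyl (Z, Y, ∅) = {ω | ∀ x ∈ S, ω x ∈ A x} := by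
    ext ω
    simp only [cyl, Set.mem_inter_iff, Set.mem_ofPred_eq, hS, hA, Finset.mem_union,
      Finset.notMem_empty]
    constructor
    · rintro ⟨k1, k2, k3, -⟩ x -
      exact ⟨k1 x, k2 x, k3 x⟩
    · intro k
      exact ⟨fun x hx => (k x (Or.inl (Or.inl hx))).1 hx,
        fun x hx => (k x (Or.inl (Or.inr hx))).2.1 hx,
        fun x hx => (k x (Or.inr hx)).2.2 hx, fun x hx => hx.elim⟩
  rw [e, law_sites hp hq h]
  have key : ∏ x ∈ S, (siteLaw p q).real (A x) ≤ ∏ x ∈ S, ((if x ∈ W' then 1 - q else 1) *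
      (if x ∈ Z then 2 * q else 1) * (if x ∈ Y then 1 - p / 2 else 1)) := by
    apply Finset.prod_le_prod (fun x _ => measureReal_nonneg)
    intro x _
    rw [siteLaw_real hp hq h]
    have hpq := mul_nonneg hp hq
    by_cases h1 : x ∈ W' <;> by_cases h2 : x ∈ Z <;> by_cases h3 : x ∈ Y
    · exact absurd h3 (Finset.disjoint_left.mp hτ h2)
    · simp [hA, h1, h2, h3]; nlinarith
    · simp [hA, h1, h2, h3]; nlinarith
    · simp [hA, h1, h2, h3]; linarith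
    · exact absurd h3 (Finset.disjoint_left.mp hτ h2)
    · simp [hA, h1, h2, h3]; nlinarith
    · simp [hA, h1, h2, h3]; nlinarith
    · simp [hA, h1, h2, h3]; linarith
  refine key.trans (le_of_eq ?_)
  rw [Finset.prod_mul_distrib, Finset.prod_mul_distrib, Finset.prod_ite_mem, Finset.prod_ite_mem,
    Finset.prod_ite_mem, Finset.prod_const, Finset.prod_const, Finset.prod_const]
  have s1 : S ∩ W' = W' := Finset.inter_eq_right.mpr (fun x hx => by simp [hS, hx])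
  have s2 : S ∩ Z = Z := Finset.inter_eq_right.mpr (fun x hx => by simp [hS, hx])
  have s3 : S ∩ Y = Y := Finset.inter_eq_right.mpr (fun x hx => by simp [hS, hx])
  rw [s1, s2, s3]
  simp [wt]
  ring

/-! ### The window and the corner box -/

noncomputable def nuc1W (P : Par) (b : Site) : Finset Site :=
  Finset.Icc ((b.1 - 2) * P.D, (b.2 - 2) * P.D) ((b.1 + 3) * P.D - 1, (b.2 + 3) * P.D - 1)

theorem nuc1_mem_W {P : Par} {b x : Site} : x ∈ nuc1W P b ↔ x ∈ win P.D 2 b := by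
  unfold nuc1W
  rw [Finset.mem_Icc, Prod.le_def, Prod.le_def]
  simp only [win, Set.mem_ofPred_eq]
  push_cast
  constructor
  · rintro ⟨⟨h1, h2⟩, h3, h4⟩
    exact ⟨h1, by linarith, h2, by linarith⟩
  · rintro ⟨h1, h2, h3, h4⟩
    exact ⟨⟨h1, h3⟩, by linarith, by linarith⟩

theorem nuc1_card_W (P : Par) (b : Site) : (nuc1W P b).card = 25 * P.D ^ 2 := by
  unfold nuc1W
  rw [Finset.card_Icc_prod, Int.card_Icc, Int.card_Icc]
  simp only
  have e1 : (b.1 + 3) * (P.D : ℤ) - 1 + 1 - (b.1 - 2) * P.D = ((5 * P.D : ℕ) : ℤ) := by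
    push_cast; ring
  have e2 : (b.2 + 3) * (P.D : ℤ) - 1 + 1 - (b.2 - 2) * P.D = ((5 * P.D : ℕ) : ℤ) := by
    push_cast; ring
  rw [e1, e2, Int.toNat_natCast]
  ring

noncomputable def nuc1B (P : Par) (b : Site) : Finset Site :=
  Finset.Icc (b.1 * P.D, b.2 * P.D) (b.1 * P.D + P.w - 1, b.2 * P.D + P.w - 1)

theorem nuc1_mem_B {P : Par} {b x : Site} : x ∈ nuc1B P b ↔
    b.1 * P.D ≤ x.1 ∧ x.1 < b.1 * P.D + P.w ∧ b.2 * P.D ≤ x.2 ∧ x.2 < b.2 * P.D + P.w := by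
  unfold nuc1B
  rw [Finset.mem_Icc, Prod.le_def, Prod.le_def]
  simp only
  constructor
  · rintro ⟨⟨h1, h2⟩, h3, h4⟩
    exact ⟨h1, by linarith, h2, by linarith⟩
  · rintro ⟨h1, h2, h3, h4⟩
    exact ⟨⟨h1, h3⟩, by linarith, by linarith⟩

theorem nuc1_mem_box {P : Par} {b x : Site} :
    x ∈ nuc1B P b ↔ x ∈ box P.w (b.1 * P.d, b.2 * P.d) := by
  rw [nuc1_mem_B]
  simp only [box, Set.mem_ofPred_eq, Par.D]
  push_cast
  constructor
  · rintro ⟨h1, h2, h3, h4⟩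
    exact ⟨by linarith, by linarith, by linarith, by linarith⟩
  · rintro ⟨h1, h2, h3, h4⟩
    exact ⟨by linarith, by linarith, by linarith, by linarith⟩

theorem nuc1_B_sub_W {P : Par} (hP : P.Ok) (b : Site) : nuc1B P b ⊆ nuc1W P b := by
  intro x hx
  rw [nuc1_mem_B] at hx
  rw [nuc1_mem_W]
  obtain ⟨-, -, -, -, hwD, hD⟩ := nuc1_Ok hP
  obtain ⟨h1, h2, h3, h4⟩ := hx
  simp only [win, Set.mem_ofPred_eq]
  push_cast
  exact ⟨by linarith, by linarith, by linarith, by linarith⟩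

/-- classification of the sites of the corner box -/
noncomputable def nuc1cls (P : Par) (b x : Site) : ℕ × Bool :=
  if x.1 - b.1 * P.D = x.2 - b.2 * P.D then (0, decide (x.1 = b.1 * P.D))
  else if x.2 - b.2 * P.D < x.1 - b.1 * P.D then ((x.1 - b.1 * P.D).toNat, true)
  else ((x.2 - b.2 * P.D).toNat, false)

noncomputable def nuc1R (P : Par) (b : Site) (i : ℕ × Bool) : Finset Site :=
  (nuc1B P b).filter (fun x => nuc1cls P b x = i)

def nuc1I (P : Par) : Finset (ℕ × Bool) := Finset.range P.w ×ˢ Finset.univ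

theorem nuc1_cls_mem {P : Par} (hP : P.Ok) {b x : Site} (hx : x ∈ nuc1B P b) :
    nuc1cls P b x ∈ nuc1I P := by
  have hw := (nuc1_Ok hP).1
  rw [nuc1_mem_B] at hx
  unfold nuc1cls nuc1I
  simp only [Finset.mem_product, Finset.mem_range, Finset.mem_univ, and_true]
  split_ifs
  · simp only; omega
  · simp only; omega
  · simp only; omega

theorem nuc1_card_R (P : Par) (hP : P.Ok) (b : Site) :
    ∑ i ∈ nuc1I P, (nuc1R P b i).card = (nuc1B P b).card :=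
  (Finset.card_eq_sum_card_fiberwise (fun _ hx => nuc1_cls_mem hP hx)).symm

theorem nuc1_R_true {P : Par} (_hP : P.Ok) (b : Site) {r : ℕ} (hr : 1 ≤ r) (hrw : r < P.w) :
    nuc1R P b (r, true) =
      (Finset.range r).image (fun j : ℕ => (b.1 * P.D + (r : ℤ), b.2 * P.D + (j : ℤ))) := by
  ext x
  simp only [nuc1R, Finset.mem_filter, nuc1_mem_B, nuc1cls, Finset.mem_image, Finset.mem_range]
  constructor
  · rintro ⟨⟨h1, h2, h3, h4⟩, h5⟩
    split_ifs at h5 with k1 k2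
    · simp only [Prod.mk.injEq] at h5; omega
    · simp only [Prod.mk.injEq, and_true] at h5
      refine ⟨(x.2 - b.2 * P.D).toNat, by omega, ?_⟩
      apply Prod.ext <;> simp only <;> omega
    · simp at h5
  · rintro ⟨j, hj, rfl⟩
    simp only
    refine ⟨⟨by omega, by omega, by omega, by omega⟩, ?_⟩
    rw [if_neg (by omega), if_pos (by omega)]
    simp

theorem nuc1_R_false {P : Par} (_hP : P.Ok) (b : Site) {r : ℕ} (hr : 1 ≤ r) (hrw : r < P.w) :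
    nuc1R P b (r, false) =
      (Finset.range r).image (fun j : ℕ => (b.1 * P.D + (j : ℤ), b.2 * P.D + (r : ℤ))) := by
  ext x
  simp only [nuc1R, Finset.mem_filter, nuc1_mem_B, nuc1cls, Finset.mem_image, Finset.mem_range]
  constructor
  · rintro ⟨⟨h1, h2, h3, h4⟩, h5⟩
    split_ifs at h5 with k1 k2
    · simp only [Prod.mk.injEq] at h5; omega
    · simp at h5
    · simp only [Prod.mk.injEq, and_true] at h5
      refine ⟨(x.1 - b.1 * P.D).toNat, by omega, ?_⟩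
      apply Prod.ext <;> simp only <;> omega
  · rintro ⟨j, hj, rfl⟩
    simp only
    refine ⟨⟨by omega, by omega, by omega, by omega⟩, ?_⟩
    rw [if_neg (by omega), if_neg (by omega)]
    simp

theorem nuc1_R_zero {P : Par} (hP : P.Ok) (b : Site) :
    nuc1R P b (0, true) = {(b.1 * (P.D : ℤ), b.2 * (P.D : ℤ))} := by
  have hw := (nuc1_Ok hP).1
  ext x
  simp only [nuc1R, Finset.mem_filter, nuc1_mem_B, nuc1cls, Finset.mem_singleton]
  constructor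
  · rintro ⟨⟨h1, h2, h3, h4⟩, h5⟩
    split_ifs at h5 with k1 k2
    · simp only [Prod.mk.injEq, true_and, decide_eq_true_eq] at h5
      apply Prod.ext <;> simp only <;> omega
    · simp only [Prod.mk.injEq, and_true] at h5; omega
    · simp at h5
  · rintro rfl
    simp only
    refine ⟨⟨by omega, by omega, by omega, by omega⟩, ?_⟩
    simp

/-- the event on the corner box -/
def nuc1E2 (P : Par) (b : Site) : Set Config :=
  {ω | (∀ z ∈ nuc1B P b, ω z ≠ 2) ∧ AL P.w ω (b.1 * P.D, b.2 * P.D)}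

/-- the event outside the corner box -/
def nuc1E1 (P : Par) (b : Site) : Set Config :=
  {ω | ∀ z ∈ nuc1W P b \ nuc1B P b, ω z ≠ 2}

def nuc1Ei (P : Par) (b : Site) (i : ℕ × Bool) : Set Config :=
  {ω | (∀ z ∈ nuc1R P b i, ω z ≠ 2) ∧ (i ≠ (0, false) → ∃ z ∈ nuc1R P b i, ω z = 1)}

theorem nuc1_Ei_sub {P : Par} (hP : P.Ok) (b : Site) :
    {ω | ∀ i ∈ nuc1I P, ω ∈ nuc1Ei P b i} ⊆ nuc1E2 P b := by
  have hw := (nuc1_Ok hP).1
  intro ω hω
  simp only [Set.mem_ofPred_eq] at hω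
  have hmem : ∀ (r : ℕ) (c : Bool), r < P.w → (r, c) ∈ nuc1I P := by
    intro r c hr
    simp [nuc1I, hr]
  refine ⟨fun z hz => ?_, ?_, fun r hr hrw => ⟨?_, ?_⟩⟩
  · have h1 := hω _ (nuc1_cls_mem hP hz)
    apply h1.1 z
    simp [nuc1R, hz]
  · obtain ⟨z, hz, hz1⟩ := (hω _ (hmem 0 true (by omega))).2 (by simp)
    rw [nuc1_R_zero hP b, Finset.mem_singleton] at hz
    rw [hz] at hz1
    exact hz1
  · obtain ⟨z, hz, hz1⟩ := (hω _ (hmem r true hrw)).2 (by simp)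
    rw [nuc1_R_true hP b hr hrw, Finset.mem_image] at hz
    obtain ⟨j, hj, rfl⟩ := hz
    exact ⟨j, Finset.mem_range.mp hj, hz1⟩
  · obtain ⟨z, hz, hz1⟩ := (hω _ (hmem r false hrw)).2 (by simp; omega)
    rw [nuc1_R_false hP b hr hrw, Finset.mem_image] at hz
    obtain ⟨j, hj, rfl⟩ := hz
    exact ⟨j, Finset.mem_range.mp hj, hz1⟩

theorem nuc1_R_card {P : Par} (hP : P.Ok) (b : Site) {r : ℕ} (c : Bool) (hr : 1 ≤ r)
    (hrw : r < P.w) : (nuc1R P b (r, c)).card = r := by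
  cases c
  · rw [nuc1_R_false hP b hr hrw, Finset.card_image_of_injective _ (fun i j hij => by
      simpa using hij), Finset.card_range]
  · rw [nuc1_R_true hP b hr hrw, Finset.card_image_of_injective _ (fun i j hij => by
      simpa using hij), Finset.card_range]

theorem nuc1_E2_prob {p q : ℝ} (hp : 0 ≤ p) (hq : 0 ≤ q) (h : p + q ≤ 1) {P : Par} (hP : P.Ok)
    (b : Site) :
    (1 - q) ^ (nuc1B P b).card * (p * ∏ r ∈ Finset.Ico 1 P.w, (1 - (1 - p) ^ r) ^ 2) ≤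
      (law p q).real (nuc1E2 P b) := by
  have := law_isProb hp hq h
  have hw := (nuc1_Ok hP).1
  have hp1 : 0 ≤ 1 - p := by linarith
  have hq1 : 0 ≤ 1 - q := by linarith
  have hpow : ∀ n : ℕ, 0 ≤ 1 - (1 - p) ^ n := fun n =>
    sub_nonneg.mpr (pow_le_one₀ hp1 (by linarith))
  have h1 := law_prod hp hq h (nuc1I P) (nuc1Ei P b) (nuc1R P b) (by
    intro i _ ω ω' hω
    have hh : ∀ ω ω' : Config, (∀ x ∈ nuc1R P b i, ω x = ω' x) → ω ∈ nuc1Ei P b i →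
        ω' ∈ nuc1Ei P b i := by
      rintro ω ω' k ⟨k1, k2⟩
      refine ⟨fun z hz => by rw [← k z hz]; exact k1 z hz, fun hi => ?_⟩
      obtain ⟨z, hz, hz1⟩ := k2 hi
      exact ⟨z, hz, by rw [← k z hz]; exact hz1⟩
    exact ⟨hh ω ω' hω, hh ω' ω (fun x hx => (hω x hx).symm)⟩) (by
    intro i _ j _ hij
    rw [Finset.disjoint_left]
    intro x hx hx'
    simp only [nuc1R, Finset.mem_filter] at hx hx'
    exact hij (hx.2.symm.trans hx'.2))
  have h2 : (law p q).real {ω | ∀ i ∈ nuc1I P, ω ∈ nuc1Ei P b i} ≤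
      (law p q).real (nuc1E2 P b) :=
    measureReal_mono (nuc1_Ei_sub hP b) (measure_ne_top _ _)
  rw [h1] at h2
  refine le_trans ?_ h2
  set g : ℕ × Bool → ℝ := fun i => if i = (0, false) then 1 else 1 - (1 - p) ^ (nuc1R P b i).card
    with hg
  have h3 : ∏ i ∈ nuc1I P, ((1 - q) ^ (nuc1R P b i).card * g i) ≤
      ∏ i ∈ nuc1I P, (law p q).real (nuc1Ei P b i) := by
    apply Finset.prod_le_prod
    · intro i _
      apply mul_nonneg (pow_nonneg hq1 _)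
      simp only [hg]
      split_ifs
      · exact zero_le_one
      · exact hpow _
    · intro i _
      simp only [hg]
      split_ifs with hi
      · have e : nuc1Ei P b i = {ω | ∀ x ∈ nuc1R P b i, ω x ≠ 2} := by
          ext ω; simp [nuc1Ei, hi]
        rw [e, nuc1_noTwo hp hq h, mul_one]
      · have e : nuc1Ei P b i =
            {ω | (∀ x ∈ nuc1R P b i, ω x ≠ 2) ∧ ∃ x ∈ nuc1R P b i, ω x = 1} := by
          ext ω; simp [nuc1Ei, hi]
        rw [e]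
        exact nuc1_seg hp hq h _
  refine le_trans (le_of_eq ?_) h3
  rw [Finset.prod_mul_distrib, Finset.prod_pow_eq_pow_sum, nuc1_card_R P hP b]
  congr 1
  unfold nuc1I
  rw [Finset.prod_product, Finset.prod_range_eq_mul_Ico _ (by omega : 0 < P.w)]
  congr 1
  · simp [hg, nuc1_R_zero hP b]
  · apply Finset.prod_congr rfl
    intro r hr
    rw [Finset.mem_Ico] at hr
    simp only [hg, Fintype.prod_bool, Prod.mk.injEq, nuc1_R_card hP b _ hr.1 hr.2]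
    rw [if_neg (by omega), if_neg (by omega)]
    ring

theorem nuc1_E1_dep (P : Par) (b : Site) : DepOn (nuc1E1 P b) (nuc1W P b \ nuc1B P b) := by
  intro ω ω' hω
  constructor
  · intro k z hz; rw [← hω z hz]; exact k z hz
  · intro k z hz; rw [hω z hz]; exact k z hz

theorem nuc1_E2_dep {P : Par} (hP : P.Ok) (b : Site) : DepOn (nuc1E2 P b) (nuc1B P b) := by
  have hw := (nuc1_Ok hP).1
  have hh : ∀ ω ω' : Config, (∀ x ∈ nuc1B P b, ω x = ω' x) → ω ∈ nuc1E2 P b →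
      ω' ∈ nuc1E2 P b := by
    rintro ω ω' k ⟨k1, k2, k3⟩
    refine ⟨fun z hz => by rw [← k z hz]; exact k1 z hz, ?_, fun r hr hrw => ?_⟩
    · rw [← k _ (by rw [nuc1_mem_B]; simp only; omega)]; exact k2
    · obtain ⟨⟨j, hj, hj1⟩, ⟨i, hi, hi1⟩⟩ := k3 r hr hrw
      refine ⟨⟨j, hj, ?_⟩, ⟨i, hi, ?_⟩⟩
      · rw [← k _ (by rw [nuc1_mem_B]; simp only; omega)]; exact hj1
      · rw [← k _ (by rw [nuc1_mem_B]; simp only; omega)]; exact hi1
  exact fun ω ω' hω => ⟨hh ω ω' hω, hh ω' ω (fun x hx => (hω x hx).symm)⟩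

theorem nuc1_E0_eq {p q : ℝ} (hp : 0 ≤ p) (hq : 0 ≤ q) (h : p + q ≤ 1) {P : Par} (hP : P.Ok)
    (b : Site) : (law p q).real (nuc1E2 P b ∩ nuc1E1 P b) =
      (law p q).real (nuc1E2 P b) * (1 - q) ^ (nuc1W P b \ nuc1B P b).card := by
  rw [mu_indep hp hq h (nuc1_E2_dep hP b) (nuc1_E1_dep P b) Finset.disjoint_sdiff]
  congr 1
  exact nuc1_noTwo hp hq h _

theorem nuc1_E0_prob {p q : ℝ} (hp : 0 ≤ p) (hq : 0 ≤ q) (h : p + q ≤ 1) {P : Par} (hP : P.Ok)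
    (b : Site) :
    (1 - q) ^ (25 * P.D ^ 2) * p * (∏ r ∈ Finset.Ico 1 P.w, (1 - (1 - p) ^ r) ^ 2) ≤
      (law p q).real (nuc1E2 P b ∩ nuc1E1 P b) := by
  rw [nuc1_E0_eq hp hq h hP b]
  have h1 := nuc1_E2_prob hp hq h hP b
  have hc : (nuc1B P b).card + (nuc1W P b \ nuc1B P b).card = 25 * P.D ^ 2 := by
    rw [add_comm, Finset.card_sdiff_add_card_eq_card (nuc1_B_sub_W hP b), nuc1_card_W]
  rw [← hc, pow_add]
  have h2 : 0 ≤ (1 - q) ^ (nuc1W P b \ nuc1B P b).card := pow_nonneg (by linarith) _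
  have h3 := mul_le_mul_of_nonneg_right h1 h2
  refine le_trans (le_of_eq ?_) h3
  ring

/-- the bad event for the configuration with the corner box filled with ones -/
def nuc1G (P : Par) (b b' : Site) : Set Config :=
  {ω | DBad P.w P.d P.mw (updw P.w ω (b.1 * P.d, b.2 * P.d)) b'}

theorem nuc1_bad {p q : ℝ} (hp : 0 < p) (hq : 0 < q) (h : p + q ≤ 1 / 2) {P : Par} (hP : P.Ok)
    (haw : 2 * q * ((P.w : ℝ) + 4) ^ 2 ≤ 1) (b b' : Site) :
    (law p q).real (nuc1E2 P b ∩ nuc1E1 P b ∩ nuc1G P b b') ≤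
      (law p q).real (nuc1E2 P b ∩ nuc1E1 P b) * deltaD P.w P.d P.mw (2 * q) (1 - p / 2) := by
  have h' : p + q ≤ 1 := by linarith
  have := law_isProb hp.le hq.le h'
  obtain ⟨hw, hd, -, -, -, -⟩ := nuc1_Ok hP
  obtain ⟨F, hF1, hF2, hF3⟩ := wit_dbad (a := 2 * q) (b := 1 - p / 2) (c := 1) ∅ (by linarith)
    (by linarith) (by linarith) (by linarith) zero_le_one P.w P.d P.mw (by omega) hw haw b'
  set F' := F.filter (fun τ => Disjoint τ.1 (nuc1B P b) ∧ Disjoint τ.2.1 (nuc1B P b)) with hF'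
  set L := (law p q).real (nuc1E2 P b) * (1 - q) ^ (nuc1W P b \ nuc1B P b).card with hL
  have hcov : nuc1E2 P b ∩ nuc1E1 P b ∩ nuc1G P b b' ⊆
      ⋃ τ ∈ F', (nuc1E2 P b ∩ (nuc1E1 P b ∩ cyl τ)) := by
    rintro ω ⟨⟨k1, k2⟩, k3⟩
    obtain ⟨τ, hτ, k4, k5, k6⟩ := hF2 _ k3
    have hbox : ∀ x ∈ nuc1B P b, updw P.w ω (b.1 * P.d, b.2 * P.d) x = 1 := by
      intro x hx
      unfold updw
      rw [if_pos (nuc1_mem_box.1 hx)]
    have hnbox : ∀ x ∉ nuc1B P b, updw P.w ω (b.1 * P.d, b.2 * P.d) x = ω x := by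
      intro x hx
      unfold updw
      rw [if_neg (fun hh => hx (nuc1_mem_box.2 hh))]
    have d1 : Disjoint τ.1 (nuc1B P b) := by
      rw [Finset.disjoint_left]
      intro x hx hx'
      have := k4 x hx
      rw [hbox x hx'] at this
      exact absurd this (by decide)
    have d2 : Disjoint τ.2.1 (nuc1B P b) := by
      rw [Finset.disjoint_left]
      intro x hx hx'
      exact k5 x hx (hbox x hx')
    rw [Set.mem_iUnion₂]
    refine ⟨τ, by simp [hF', hτ, d1, d2], k1, k2, ?_, ?_, ?_⟩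
    · intro x hx
      rw [← hnbox x (Finset.disjoint_left.mp d1 hx)]; exact k4 x hx
    · intro x hx
      rw [← hnbox x (Finset.disjoint_left.mp d2 hx)]; exact k5 x hx
    · intro x hx
      have := (hF1 τ hτ).2.2.2 hx
      exact absurd this.2 (Set.notMem_empty x)
  have hcyl : ∀ τ ∈ F', (law p q).real (nuc1E2 P b ∩ (nuc1E1 P b ∩ cyl τ)) ≤
      L * wt (2 * q) (1 - p / 2) 1 τ := by
    intro τ hτ
    simp only [hF', Finset.mem_filter] at hτ
    obtain ⟨hτF, d1, d2⟩ := hτ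
    have hX : τ.2.2 = ∅ := by
      rw [Finset.eq_empty_iff_forall_notMem]
      intro x hx
      exact absurd ((hF1 τ hτF).2.2.2 hx).2 (Set.notMem_empty x)
    have hdep : DepOn (nuc1E1 P b ∩ cyl τ) ((nuc1W P b \ nuc1B P b) ∪ τ.1 ∪ τ.2.1) := by
      have hh : ∀ ω ω' : Config, (∀ x ∈ (nuc1W P b \ nuc1B P b) ∪ τ.1 ∪ τ.2.1, ω x = ω' x) →
          ω ∈ nuc1E1 P b ∩ cyl τ → ω' ∈ nuc1E1 P b ∩ cyl τ := by
        rintro ω ω' k ⟨k1, k2, k3, k4⟩
        refine ⟨fun z hz => ?_, fun x hx => ?_, fun x hx => ?_, fun x hx => ?_⟩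
        · rw [← k z (Finset.mem_union_left _ (Finset.mem_union_left _ hz))]; exact k1 z hz
        · rw [← k x (Finset.mem_union_left _ (Finset.mem_union_right _ hx))]; exact k2 x hx
        · rw [← k x (Finset.mem_union_right _ hx)]; exact k3 x hx
        · rw [hX] at hx; exact absurd hx (Finset.notMem_empty x)
      exact fun ω ω' hω => ⟨hh ω ω' hω, hh ω' ω (fun x hx => (hω x hx).symm)⟩
    have hdisj : Disjoint (nuc1B P b) ((nuc1W P b \ nuc1B P b) ∪ τ.1 ∪ τ.2.1) := by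
      rw [Finset.disjoint_union_right, Finset.disjoint_union_right]
      exact ⟨⟨Finset.disjoint_sdiff, d1.symm⟩, d2.symm⟩
    rw [mu_indep hp.le hq.le h' (nuc1_E2_dep hP b) hdep hdisj]
    have h2 := nuc1_E1cyl hp.le hq.le h' (nuc1W P b \ nuc1B P b) τ (hF1 τ hτF).1.1 1 hX
    have h3 := mul_le_mul_of_nonneg_left h2 (measureReal_nonneg (μ := law p q) (s := nuc1E2 P b))
    refine h3.trans (le_of_eq ?_)
    simp only [hL]; ring
  have hL0 : 0 ≤ L := mul_nonneg measureReal_nonneg (pow_nonneg (by linarith) _)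
  rw [nuc1_E0_eq hp.le hq.le h' hP b]
  calc (law p q).real (nuc1E2 P b ∩ nuc1E1 P b ∩ nuc1G P b b')
      ≤ (law p q).real (⋃ τ ∈ F', (nuc1E2 P b ∩ (nuc1E1 P b ∩ cyl τ))) :=
        measureReal_mono hcov (measure_ne_top _ _)
    _ ≤ ∑ τ ∈ F', (law p q).real (nuc1E2 P b ∩ (nuc1E1 P b ∩ cyl τ)) :=
        measureReal_biUnion_finset_le _ _
    _ ≤ ∑ τ ∈ F', L * wt (2 * q) (1 - p / 2) 1 τ := Finset.sum_le_sum hcyl
    _ = L * ∑ τ ∈ F', wt (2 * q) (1 - p / 2) 1 τ := by rw [Finset.mul_sum]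
    _ ≤ L * ∑ τ ∈ F, wt (2 * q) (1 - p / 2) 1 τ := by
        apply mul_le_mul_of_nonneg_left _ hL0
        apply Finset.sum_le_sum_of_subset_of_nonneg (Finset.filter_subset _ _)
        intro τ _ _
        unfold wt
        exact mul_nonneg (mul_nonneg (pow_nonneg (by linarith) _) (pow_nonneg (by linarith) _))
          (pow_nonneg zero_le_one _)
    _ ≤ L * deltaD P.w P.d P.mw (2 * q) (1 - p / 2) := mul_le_mul_of_nonneg_left hF3 hL0

/-- the indices of the blocks of the window as a finset -/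
noncomputable def nuc1S (P : Par) (b : Site) : Finset Site :=
  Finset.Icc (b.1, b.2) (b.1 + 2 * P.s - 1, b.2 + 2 * P.s - 1)

theorem nuc1_mem_S {P : Par} {b x : Site} : x ∈ nuc1S P b ↔ x ∈ swin P.s b := by
  unfold nuc1S
  rw [Finset.mem_Icc, Prod.le_def, Prod.le_def]
  simp only [swin, Set.mem_ofPred_eq]
  constructor
  · rintro ⟨⟨h1, h2⟩, h3, h4⟩
    exact ⟨h1, by linarith, h2, by linarith⟩
  · rintro ⟨h1, h2, h3, h4⟩
    exact ⟨⟨h1, h3⟩, by linarith, by linarith⟩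

theorem nuc1_card_S (P : Par) (b : Site) : (nuc1S P b).card = 4 * P.s ^ 2 := by
  unfold nuc1S
  rw [Finset.card_Icc_prod, Int.card_Icc, Int.card_Icc]
  simp only
  have e1 : b.1 + 2 * (P.s : ℤ) - 1 + 1 - b.1 = ((2 * P.s : ℕ) : ℤ) := by push_cast; ring
  have e2 : b.2 + 2 * (P.s : ℤ) - 1 + 1 - b.2 = ((2 * P.s : ℕ) : ℤ) := by push_cast; ring
  rw [e1, e2, Int.toNat_natCast]
  ring

theorem nuc1_prob {p q : ℝ} (hp : 0 < p) (hq : 0 < q) (h : p + q ≤ 1 / 2) (P : Par) (hP : P.Ok)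
    (haw : 2 * q * ((P.w : ℝ) + 4) ^ 2 ≤ 1) (b : Site) :
    nuc1Low P p q ≤ (law p q).real {ω | Nuc1 P ω b} := by
  have h' : p + q ≤ 1 := by linarith
  have := law_isProb hp.le hq.le h'
  have hp1 : 0 ≤ 1 - p := by linarith
  have hq1 : 0 ≤ 1 - q := by linarith
  set L := (law p q).real (nuc1E2 P b ∩ nuc1E1 P b) with hL
  set δ := deltaD P.w P.d P.mw (2 * q) (1 - p / 2) with hδ
  have hL0 := nuc1_E0_prob hp.le hq.le h' hP b
  have hcov : nuc1E2 P b ∩ nuc1E1 P b ⊆ {ω | Nuc1 P ω b} ∪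
      ⋃ b' ∈ nuc1S P b, (nuc1E2 P b ∩ nuc1E1 P b ∩ nuc1G P b b') := by
    rintro ω ⟨k1, k2⟩
    by_cases hk : ∃ b' ∈ nuc1S P b, ω ∈ nuc1G P b b'
    · obtain ⟨b', hb', hk⟩ := hk
      right
      rw [Set.mem_iUnion₂]
      exact ⟨b', hb', ⟨k1, k2⟩, hk⟩
    · left
      push Not at hk
      refine ⟨fun z hz => ?_, k1.2, fun b' hb' => hk b' (nuc1_mem_S.2 hb')⟩
      by_cases hzB : z ∈ nuc1B P b
      · exact k1.1 z hzB
      · exact k2 z (Finset.mem_sdiff.mpr ⟨nuc1_mem_W.2 hz, hzB⟩)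
  have hle : L ≤ (law p q).real {ω | Nuc1 P ω b} + 4 * (P.s : ℝ) ^ 2 * (L * δ) := by
    calc L ≤ (law p q).real ({ω | Nuc1 P ω b} ∪
          ⋃ b' ∈ nuc1S P b, (nuc1E2 P b ∩ nuc1E1 P b ∩ nuc1G P b b')) :=
          measureReal_mono hcov (measure_ne_top _ _)
      _ ≤ (law p q).real {ω | Nuc1 P ω b} + (law p q).real
          (⋃ b' ∈ nuc1S P b, (nuc1E2 P b ∩ nuc1E1 P b ∩ nuc1G P b b')) :=
          measureReal_union_le _ _
      _ ≤ (law p q).real {ω | Nuc1 P ω b} + ∑ b' ∈ nuc1S P b, L * δ := by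
          gcongr
          exact (measureReal_biUnion_finset_le _ _).trans
            (Finset.sum_le_sum (fun b' _ => nuc1_bad hp hq h hP haw b b'))
      _ = (law p q).real {ω | Nuc1 P ω b} + 4 * (P.s : ℝ) ^ 2 * (L * δ) := by
          rw [Finset.sum_const, nuc1_card_S, nsmul_eq_mul]
          push_cast
          ring
  have h0 : 0 ≤ (1 - q) ^ (25 * P.D ^ 2) * p *
      (∏ r ∈ Finset.Ico 1 P.w, (1 - (1 - p) ^ r) ^ 2) := by
    apply mul_nonneg (mul_nonneg (pow_nonneg hq1 _) hp.le)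
    exact Finset.prod_nonneg (fun r _ => sq_nonneg _)
  unfold nuc1Low
  by_cases hs : 0 ≤ 1 - 4 * (P.s : ℝ) ^ 2 * δ
  · have h2 := mul_le_mul_of_nonneg_right hL0 hs
    refine h2.trans ?_
    nlinarith
  · push Not at hs
    have h2 : (1 - q) ^ (25 * P.D ^ 2) * p *
      (∏ r ∈ Finset.Ico 1 P.w, (1 - (1 - p) ^ r) ^ 2) * (1 - 4 * (P.s : ℝ) ^ 2 * δ) ≤ 0 :=
      mul_nonpos_of_nonneg_of_nonpos h0 hs.le
    exact h2.trans measureReal_nonneg

/-- the positions of the trials -/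
def nuc1Pos (P : Par) (τ : Site) (i : ℕ × ℕ) : Site :=
  (τ.1 * (P.f * P.e : ℕ) + 2 + (2 * P.s + 5) * i.1, τ.2 * (P.f * P.e : ℕ) + 2 + (2 * P.s + 5) * i.2)

theorem nuc1_box_sub {P : Par} {τ : Site} {n : ℕ}
    (hn : n * (2 * P.s + 5) + 4 ≤ P.f * P.e) {i : ℕ × ℕ} (hi : i.1 < n ∧ i.2 < n) {b' : Site}
    (hb' : b' ∈ swin P.s (nuc1Pos P τ i)) : box P.D b' ⊆ box P.T0 τ := by
  intro x hx
  simp only [swin, nuc1Pos, box, Set.mem_ofPred_eq, Par.T0, Par.W] at hb' hx ⊢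
  obtain ⟨h1, h2, h3, h4⟩ := hb'
  obtain ⟨k1, k2, k3, k4⟩ := hx
  have hD : (0 : ℤ) ≤ P.D := Int.natCast_nonneg _
  have hs : (0 : ℤ) ≤ P.s := Int.natCast_nonneg _
  have hi1 : (0 : ℤ) ≤ i.1 := Int.natCast_nonneg _
  have hi2 : (0 : ℤ) ≤ i.2 := Int.natCast_nonneg _
  have hi1' : (i.1 : ℤ) + 1 ≤ n := by exact_mod_cast hi.1
  have hi2' : (i.2 : ℤ) + 1 ≤ n := by exact_mod_cast hi.2
  have hn' : (n : ℤ) * (2 * P.s + 5) + 4 ≤ (P.f * P.e : ℕ) := by exact_mod_cast hn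
  set F : ℤ := ((P.f * P.e : ℕ) : ℤ) with hF
  have e1 : ((P.f * (P.e * P.D) : ℕ) : ℤ) = F * P.D := by simp only [hF]; push_cast; ring
  rw [e1]
  have g1 : (2 * (P.s : ℤ) + 5) * i.1 ≤ (2 * P.s + 5) * (n - 1) :=
    mul_le_mul_of_nonneg_left (by linarith) (by linarith)
  have g2 : (2 * (P.s : ℤ) + 5) * i.2 ≤ (2 * P.s + 5) * (n - 1) :=
    mul_le_mul_of_nonneg_left (by linarith) (by linarith)
  have g3 : 0 ≤ (2 * (P.s : ℤ) + 5) * i.1 := mul_nonneg (by linarith) hi1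
  have g4 : 0 ≤ (2 * (P.s : ℤ) + 5) * i.2 := mul_nonneg (by linarith) hi2
  have f1 : (τ.1 * F) * (P.D : ℤ) ≤ b'.1 * P.D := mul_le_mul_of_nonneg_right (by linarith) hD
  have f2 : (τ.2 * F) * (P.D : ℤ) ≤ b'.2 * P.D := mul_le_mul_of_nonneg_right (by linarith) hD
  have f3 : (b'.1 + 1) * (P.D : ℤ) ≤ ((τ.1 + 1) * F) * P.D :=
    mul_le_mul_of_nonneg_right (by linarith) hD
  have f4 : (b'.2 + 1) * (P.D : ℤ) ≤ ((τ.2 + 1) * F) * P.D :=
    mul_le_mul_of_nonneg_right (by linarith) hD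
  refine ⟨by linarith, by linarith, by linarith, by linarith⟩

theorem nuc1_reg_disj {P : Par} (hP : P.Ok) (τ : Site) {i j : ℕ × ℕ} (hij : i ≠ j) :
    Disjoint (nuc1Reg P (nuc1Pos P τ i)) (nuc1Reg P (nuc1Pos P τ j)) := by
  obtain ⟨-, -, -, -, -, hD⟩ := nuc1_Ok hP
  have hD0 : (0 : ℤ) ≤ P.D := by linarith
  have hs : (0 : ℤ) ≤ P.s := Int.natCast_nonneg _
  rw [Finset.disjoint_left]
  intro x hx hx'
  rw [nuc1_mem_reg] at hx hx'
  simp only [nuc1Pos] at hx hx'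
  obtain ⟨h1, h2, h3, h4⟩ := hx
  obtain ⟨k1, k2, k3, k4⟩ := hx'
  have key : ∀ (A : ℤ) (a c : ℕ) (y : ℤ), a < c →
      y < (A + 2 + (2 * P.s + 5) * a + 2 * P.s + 2) * P.D →
      (A + 2 + (2 * P.s + 5) * c - 2) * P.D ≤ y → False := by
    intro A a c y hac e1 e2
    have hac' : (a : ℤ) + 1 ≤ c := by exact_mod_cast hac
    have g1 : (2 * (P.s : ℤ) + 5) * (a + 1) ≤ (2 * P.s + 5) * c :=
      mul_le_mul_of_nonneg_left hac' (by linarith)
    have f1 : (A + 2 + (2 * P.s + 5) * a + 2 * P.s + 2) * (P.D : ℤ) ≤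
        (A + 2 + (2 * P.s + 5) * c - 2) * P.D := mul_le_mul_of_nonneg_right (by linarith) hD0
    linarith
  rcases lt_trichotomy i.1 j.1 with h | h | h
  · exact key _ _ _ _ h h2 k1
  · rcases lt_trichotomy i.2 j.2 with h' | h' | h'
    · exact key _ _ _ _ h' h4 k3
    · exact hij (Prod.ext h h')
    · exact key _ _ _ _ h' k4 h3
  · exact key _ _ _ _ h k2 h1

/-- the probability that a given `T0`-box contains no nucleus of ones -/
theorem no_nuc1 {p q : ℝ} (hp : 0 < p) (hq : 0 < q) (h : p + q ≤ 1 / 2) (P : Par) (hP : P.Ok)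
    (haw : 2 * q * ((P.w : ℝ) + 4) ^ 2 ≤ 1) (h0 : 0 ≤ nuc1Low P p q) (τ : Site) (n : ℕ)
    (hn : n * (2 * P.s + 5) + 4 ≤ P.f * P.e) :
    (law p q).real {ω | ¬ ∃ b : Site, (∀ b' ∈ swin P.s b, box P.D b' ⊆ box P.T0 τ) ∧ Nuc1 P ω b}
      ≤ (1 - nuc1Low P p q) ^ (n ^ 2) := by
  have h' : p + q ≤ 1 := by linarith
  have := law_isProb hp.le hq.le h'
  have hsub : {ω | ¬ ∃ b : Site, (∀ b' ∈ swin P.s b, box P.D b' ⊆ box P.T0 τ) ∧ Nuc1 P ω b} ⊆
      {ω | ∀ i ∈ Finset.range n ×ˢ Finset.range n, ω ∈ {ω | Nuc1 P ω (nuc1Pos P τ i)}ᶜ} := by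
    intro ω hω i hi hN
    rw [Finset.mem_product, Finset.mem_range, Finset.mem_range] at hi
    exact hω ⟨nuc1Pos P τ i, fun b' hb' => nuc1_box_sub hn hi hb', hN⟩
  refine (measureReal_mono hsub (measure_ne_top _ _)).trans ?_
  rw [law_prod hp.le hq.le h' (Finset.range n ×ˢ Finset.range n)
    (fun i => {ω | Nuc1 P ω (nuc1Pos P τ i)}ᶜ) (fun i => nuc1Reg P (nuc1Pos P τ i))
    (fun i _ ω ω' hω => not_congr (nuc1_depOn P hP _ ω ω' hω))
    (fun i _ j _ hij => nuc1_reg_disj hP τ hij)]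
  have hcard : (Finset.range n ×ˢ Finset.range n).card = n ^ 2 := by
    rw [Finset.card_product, Finset.card_range]; ring
  rw [← hcard, ← Finset.prod_const]
  apply Finset.prod_le_prod (fun _ _ => measureReal_nonneg)
  intro i _
  rw [probReal_compl_eq_one_sub (depOn_measurable (nuc1_depOn P hP _))]
  have := nuc1_prob hp hq h P hP haw (nuc1Pos P τ i)
  linarith

end TSB
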