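import Pool.Agent.TSB.Defs

/-! Module TRANS: translation lemmas. -/

open MeasureTheory
open scoped Classical

namespace TSB

/-- translation of a site -/
abbrev trS (u x : Site) : Site := (x.1 + u.1, x.2 + u.2)

theorem trans_shift_apply (u : Site) (ω : Config) (x : Site) :
    shift u ω x = ω (trS u x) := rfl

theorem trans_trS_inj (u : Site) : Function.Injective (trS u) := by
  intro x y h
  simp only [trS, Prod.mk.injEq, add_left_inj] at h
  exact Prod.ext h.1 h.2

theorem trans_shift_shift (u v : Site) (ω : Config) :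
    shift u (shift v ω) = shift (u.1 + v.1, u.2 + v.2) ω := by
  funext x
  simp only [shift]
  congr 1
  simp only [Prod.mk.injEq]
  constructor <;> ring

theorem trans_shift_zero (ω : Config) : shift (0, 0) ω = ω := by
  funext x
  simp [shift]

theorem trans_nb (u x : Site) : nb (trS u x) = (nb x).image (trS u) := by
  simp only [nb, Finset.image_insert, Finset.image_singleton, trS]
  ring_nf

theorem trans_cnt (u x : Site) (S : Set Site) :
    cnt {y | trS u y ∈ S} x = cnt S (trS u x) := by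
  unfold cnt
  rw [trans_nb, Finset.filter_image, Finset.card_image_of_injective _ (trans_trS_inj u)]
  rfl

theorem xi_shift (ω : Config) (u : Site) (t : ℕ) (x : Site) :
    xi (shift u ω) t x = xi ω t (x.1 + u.1, x.2 + u.2) := by
  induction t generalizing x with
  | zero => rfl
  | succ t ih =>
    have h1 : xi (shift u ω) (t+1) x = step (xi (shift u ω) t) x := rfl
    have h2 : xi ω (t+1) (x.1 + u.1, x.2 + u.2) = step (xi ω t) (trS u x) := rfl
    rw [h1, h2]
    unfold step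
    have e1 : {y | xi (shift u ω) t y = 1} = {y | trS u y ∈ {z | xi ω t z = 1}} := by
      ext y; simp only [Set.mem_ofPred_eq]; rw [ih y]
    have e2 : {y | xi (shift u ω) t y = 2} = {y | trS u y ∈ {z | xi ω t z = 2}} := by
      ext y; simp only [Set.mem_ofPred_eq]; rw [ih y]
    rw [e1, e2, trans_cnt, trans_cnt, ih x]

theorem trans_trS_sub (v x : Site) : trS v (x.1 - v.1, x.2 - v.2) = x := by
  simp [trS]

theorem trans_trS_neg (u x : Site) : trS (-u.1, -u.2) (trS u x) = x := by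
  simp [trS]

theorem trans_conn {r : Site → Site → Prop} (u : Site)
    (hr : ∀ x y, r x y → r (trS u x) (trS u y)) {C : Set Site} (h : Conn r C) :
    Conn r (trS u '' C) := by
  rintro _ ⟨x, hx, rfl⟩ _ ⟨y, hy, rfl⟩
  have hl : ∀ z, Relation.ReflTransGen (fun a b => a ∈ C ∧ b ∈ C ∧ r a b) x z →
      Relation.ReflTransGen (fun a b => a ∈ trS u '' C ∧ b ∈ trS u '' C ∧ r a b)
        (trS u x) (trS u z) := by
    intro z hz
    induction hz with
    | refl => exact Relation.ReflTransGen.refl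
    | tail _ h2 ih =>
      exact ih.tail ⟨⟨_, h2.1, rfl⟩, ⟨_, h2.2.1, rfl⟩, hr _ _ h2.2.2⟩
  exact hl y (h x hx y hy)

theorem trans_star (u x y : Site) (h : star x y) : star (trS u x) (trS u y) := by
  simpa [star, trS] using h

theorem trans_span (u : Site) (m : ℕ) (C : Set Site) :
    SpanLe m (trS u '' C) ↔ SpanLe m C := by
  constructor
  · intro h x hx y hy
    have := h _ ⟨x, hx, rfl⟩ _ ⟨y, hy, rfl⟩
    simpa [trS] using this
  · rintro h _ ⟨x, hx, rfl⟩ _ ⟨y, hy, rfl⟩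
    simpa [trS] using h x hx y hy

theorem trans_win (n a : ℕ) (u c x : Site) :
    trS (u.1 * n, u.2 * n) x ∈ win n a (trS u c) ↔ x ∈ win n a c := by
  simp only [win, Set.mem_ofPred_eq, trS]
  constructor
  · rintro ⟨h1, h2, h3, h4⟩
    refine ⟨by linarith, by linarith, by linarith, by linarith⟩
  · rintro ⟨h1, h2, h3, h4⟩
    refine ⟨by linarith, by linarith, by linarith, by linarith⟩

theorem trans_box (n : ℕ) (u c x : Site) :
    trS (u.1 * n, u.2 * n) x ∈ box n (trS u c) ↔ x ∈ box n c := by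
  simp only [box, Set.mem_ofPred_eq, trS]
  constructor
  · rintro ⟨h1, h2, h3, h4⟩
    refine ⟨by linarith, by linarith, by linarith, by linarith⟩
  · rintro ⟨h1, h2, h3, h4⟩
    refine ⟨by linarith, by linarith, by linarith, by linarith⟩

theorem trans_db1 (D : ℕ) (ω : Config) (u b : Site)
    (h : DB1 D (shift (u.1 * D, u.2 * D) ω) b) : DB1 D ω (trS u b) := by
  obtain ⟨x, hx, y, hy, z, hz, h1, h2, h3, n1, n2, n3, b1, b2⟩ := h
  refine ⟨trS (u.1 * D, u.2 * D) x, (trans_win _ _ _ _ _).2 hx, trS (u.1 * D, u.2 * D) y,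
    (trans_win _ _ _ _ _).2 hy, trS (u.1 * D, u.2 * D) z, (trans_win _ _ _ _ _).2 hz, h1, h2, h3,
    fun h => n1 (trans_trS_inj _ h), fun h => n2 (trans_trS_inj _ h),
    fun h => n3 (trans_trS_inj _ h), ?_, ?_⟩
  · simpa [ball, trS] using b1
  · simpa [ball, trS] using b2

theorem trans_db2 (w D : ℕ) (ω : Config) (u b : Site)
    (h : DB2 w D (shift (u.1 * D, u.2 * D) ω) b) : DB2 w D ω (trS u b) := by
  rcases h with ⟨x, hx⟩ | ⟨x, hx⟩
  · left
    refine ⟨trS (u.1 * D, u.2 * D) x, fun i hi => ?_⟩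
    have e : ((trS (u.1 * D, u.2 * D) x).1 + (i : ℤ), (trS (u.1 * D, u.2 * D) x).2)
        = trS (u.1 * D, u.2 * D) (x.1 + i, x.2) := by
      simp only [trS, Prod.mk.injEq, and_true]; ring
    rw [e]
    exact ⟨(trans_win _ _ _ _ _).2 (hx i hi).1, (hx i hi).2⟩
  · right
    refine ⟨trS (u.1 * D, u.2 * D) x, fun i hi => ?_⟩
    have e : ((trS (u.1 * D, u.2 * D) x).1, (trS (u.1 * D, u.2 * D) x).2 + (i : ℤ))
        = trS (u.1 * D, u.2 * D) (x.1, x.2 + i) := by
      simp only [trS, Prod.mk.injEq, true_and]; ring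
    rw [e]
    exact ⟨(trans_win _ _ _ _ _).2 (hx i hi).1, (hx i hi).2⟩

theorem trans_wbox (w : ℕ) (ω : Config) (u c : Site)
    (h : wbad w (shift (u.1 * w, u.2 * w) ω) c) : wbad w ω (trS u c) := by
  obtain ⟨z, hz, h1, h2, h3, h4⟩ := h
  refine ⟨trS (u.1 * w, u.2 * w) z, hz, ?_, ?_, ?_, ?_⟩ <;> simp only [trS] <;> linarith

theorem trans_db3 (w d mw : ℕ) (ω : Config) (u b : Site)
    (h : DB3 w d mw (shift (u.1 * (d * w : ℕ), u.2 * (d * w : ℕ)) ω) b) :
    DB3 w d mw ω (trS u b) := by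
  obtain ⟨C, hC, hb, hconn, hsp⟩ := h
  refine ⟨trS (u.1 * d, u.2 * d) '' C, ?_, ?_, trans_conn _ (trans_star _) hconn, ?_⟩
  · rintro _ ⟨c, hc, rfl⟩
    exact (trans_win _ _ _ _ _).2 (hC hc)
  · rintro _ ⟨c, hc, rfl⟩
    apply trans_wbox
    have e : ((u.1 * d, u.2 * d) : Site).1 * (w : ℤ) = u.1 * (d * w : ℕ) := by push_cast; ring
    have e' : ((u.1 * d, u.2 * d) : Site).2 * (w : ℤ) = u.2 * (d * w : ℕ) := by push_cast; ring
    rw [e, e']
    exact hb c hc
  · rw [trans_span]; exact hsp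

theorem trans_hrun (ω : Config) (v : Site) {R R' : Set Site} (hR : ∀ x ∈ R, trS v x ∈ R')
    {a b : Site} (h : HRun (shift v ω) R a b) : HRun ω R' (trS v a) (trS v b) := by
  obtain ⟨h1, h2, h3⟩ := h
  refine ⟨by simp [trS, h1], by simpa [trS] using h2, fun x e1 e2 e3 => ?_⟩
  simp only [trS] at e1 e2 e3
  have := h3 (x.1 - v.1, x.2 - v.2) (by simp only; linarith) (by simp only; linarith)
    (by simp only; linarith)
  refine ⟨?_, ?_⟩
  · have h4 := this.1
    rw [trans_shift_apply, trans_trS_sub] at h4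
    exact h4
  · have h4 := hR _ this.2
    rw [trans_trS_sub] at h4
    exact h4

theorem trans_vrun (ω : Config) (v : Site) {R R' : Set Site} (hR : ∀ x ∈ R, trS v x ∈ R')
    {a b : Site} (h : VRun (shift v ω) R a b) : VRun ω R' (trS v a) (trS v b) := by
  obtain ⟨h1, h2, h3⟩ := h
  refine ⟨by simp [trS, h1], by simpa [trS] using h2, fun x e1 e2 e3 => ?_⟩
  simp only [trS] at e1 e2 e3
  have := h3 (x.1 - v.1, x.2 - v.2) (by simp only; linarith) (by simp only; linarith)
    (by simp only; linarith)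
  refine ⟨?_, ?_⟩
  · have h4 := this.1
    rw [trans_shift_apply, trans_trS_sub] at h4
    exact h4
  · have h4 := hR _ this.2
    rw [trans_trS_sub] at h4
    exact h4

theorem trans_nearTwo (ω : Config) (v : Site) {R R' : Set Site} (hR : ∀ x ∈ R, trS v x ∈ R')
    {x z : Site} (h : NearTwo (shift v ω) R x z) : NearTwo ω R' (trS v x) (trS v z) := by
  obtain ⟨h1, h2, h3, h4⟩ := h
  exact ⟨h1, hR _ h2, by simpa [trS] using h3, by simpa [trS] using h4⟩

theorem trans_hole (ω : Config) (v : Site) {R R' : Set Site} (hR : ∀ x ∈ R, trS v x ∈ R')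
    (h : HoleWit (shift v ω) R) : HoleWit ω R' := by
  obtain ⟨a, b, a', b', c, c', za, zb, za', zb', zc, zc', h1, h2, h3, h4, h5, h6, h7, h8, h9, h10,
    n1, n2, n3, n4, n5, n6, n7⟩ := h
  refine ⟨trS v a, trS v b, trS v a', trS v b', trS v c, trS v c', trS v za, trS v zb, trS v za',
    trS v zb', trS v zc, trS v zc', trans_hrun ω v hR h1, trans_hrun ω v hR h2,
    trans_vrun ω v hR h3, ?_, trans_nearTwo ω v hR h5, trans_nearTwo ω v hR h6,
    trans_nearTwo ω v hR h7, trans_nearTwo ω v hR h8, trans_nearTwo ω v hR h9,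
    trans_nearTwo ω v hR h10, fun h => n1 (trans_trS_inj _ h), fun h => n2 (trans_trS_inj _ h),
    fun h => n3 (trans_trS_inj _ h), fun h => n4 (trans_trS_inj _ h),
    fun h => n5 (trans_trS_inj _ h), fun h => n6 (trans_trS_inj _ h),
    fun h => n7 (trans_trS_inj _ h)⟩
  simpa [trS] using h4

theorem trans_dbad (w d mw : ℕ) (ω : Config) (u b : Site)
    (h : DBad w d mw (shift (u.1 * (d * w : ℕ), u.2 * (d * w : ℕ)) ω) b) :
    DBad w d mw ω (trS u b) := by
  rcases h with h | h | h | h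
  · exact Or.inl (trans_db1 _ _ _ _ h)
  · exact Or.inr (Or.inl (trans_db2 _ _ _ _ _ h))
  · exact Or.inr (Or.inr (Or.inl (trans_db3 _ _ _ _ _ _ h)))
  · refine Or.inr (Or.inr (Or.inr (trans_hole _ _ ?_ h)))
    intro x hx
    exact (trans_win _ _ _ _ _).2 hx

theorem trans_back (u : Site) (n : ℤ) (ω : Config) :
    ω = shift (((-u.1, -u.2) : Site).1 * n, ((-u.1, -u.2) : Site).2 * n)
      (shift (u.1 * n, u.2 * n) ω) := by
  rw [trans_shift_shift]
  have : (((-u.1, -u.2) : Site).1 * n + (u.1 * n, u.2 * n).1,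
    ((-u.1, -u.2) : Site).2 * n + (u.1 * n, u.2 * n).2) = ((0, 0) : Site) := by
    simp
  rw [this, trans_shift_zero]

theorem dbad_shift (w d mw : ℕ) (ω : Config) (u b : Site) :
    DBad w d mw (shift (u.1 * (d * w : ℕ), u.2 * (d * w : ℕ)) ω) b ↔
      DBad w d mw ω (b.1 + u.1, b.2 + u.2) := by
  constructor
  · exact trans_dbad w d mw ω u b
  · intro h
    rw [trans_back u ((d * w : ℕ) : ℤ) ω] at h
    have h2 := trans_dbad w d mw _ (-u.1, -u.2) _ h
    rwa [show (b.1 + u.1, b.2 + u.2) = trS u b from rfl, trans_trS_neg] at h2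

theorem trans_wbadW (w d mw e s : ℕ) (ω : Config) (u β : Site)
    (h : WBad w d mw e s (shift (u.1 * (e * (d * w) : ℕ), u.2 * (e * (d * w) : ℕ)) ω) β) :
    WBad w d mw e s ω (trS u β) := by
  rcases h with ⟨b, ⟨r1, r2, r3, r4⟩, hb⟩ | ⟨i, h1, h2, h3⟩ | ⟨i, h1, h2, h3⟩
  · left
    refine ⟨trS (u.1 * e, u.2 * e) b, ⟨?_, ?_, ?_, ?_⟩, ?_⟩
    · simp only [trS]; linarith
    · simp only [trS]; linarith
    · simp only [trS]; linarith
    · simp only [trS]; linarith
    · apply trans_dbad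
      have e1 : ((u.1 * e, u.2 * e) : Site).1 * ((d * w : ℕ) : ℤ) = u.1 * (e * (d * w) : ℕ) := by
        push_cast; ring
      have e2 : ((u.1 * e, u.2 * e) : Site).2 * ((d * w : ℕ) : ℤ) = u.2 * (e * (d * w) : ℕ) := by
        push_cast; ring
      rw [e1, e2]
      exact hb
  · right; left
    refine ⟨i + u.1 * (e * (d * w) : ℕ), ?_, ?_, ?_⟩
    · simp only [trS]; linarith
    · simp only [trS]; linarith
    · intro x hx hxi
      have hx' := (trans_box (e * (d * w)) u β
        (x.1 - u.1 * (e * (d * w) : ℕ), x.2 - u.2 * (e * (d * w) : ℕ))).1 (by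
          rw [show ((x.1 - u.1 * (e * (d * w) : ℕ), x.2 - u.2 * (e * (d * w) : ℕ)) : Site) =
            (x.1 - ((u.1 * (e * (d * w) : ℕ), u.2 * (e * (d * w) : ℕ)) : Site).1,
              x.2 - ((u.1 * (e * (d * w) : ℕ), u.2 * (e * (d * w) : ℕ)) : Site).2) from rfl,
            trans_trS_sub]
          exact hx)
      have h4 := h3 _ hx' (by simp only; linarith)
      rw [trans_shift_apply] at h4
      rwa [show ((x.1 - u.1 * (e * (d * w) : ℕ), x.2 - u.2 * (e * (d * w) : ℕ)) : Site) =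
            (x.1 - ((u.1 * (e * (d * w) : ℕ), u.2 * (e * (d * w) : ℕ)) : Site).1,
              x.2 - ((u.1 * (e * (d * w) : ℕ), u.2 * (e * (d * w) : ℕ)) : Site).2) from rfl,
            trans_trS_sub] at h4
  · right; right
    refine ⟨i + u.2 * (e * (d * w) : ℕ), ?_, ?_, ?_⟩
    · simp only [trS]; linarith
    · simp only [trS]; linarith
    · intro x hx hxi
      have hx' := (trans_box (e * (d * w)) u β
        (x.1 - u.1 * (e * (d * w) : ℕ), x.2 - u.2 * (e * (d * w) : ℕ))).1 (by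
          rw [show ((x.1 - u.1 * (e * (d * w) : ℕ), x.2 - u.2 * (e * (d * w) : ℕ)) : Site) =
            (x.1 - ((u.1 * (e * (d * w) : ℕ), u.2 * (e * (d * w) : ℕ)) : Site).1,
              x.2 - ((u.1 * (e * (d * w) : ℕ), u.2 * (e * (d * w) : ℕ)) : Site).2) from rfl,
            trans_trS_sub]
          exact hx)
      have h4 := h3 _ hx' (by simp only; linarith)
      rw [trans_shift_apply] at h4
      rwa [show ((x.1 - u.1 * (e * (d * w) : ℕ), x.2 - u.2 * (e * (d * w) : ℕ)) : Site) =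
            (x.1 - ((u.1 * (e * (d * w) : ℕ), u.2 * (e * (d * w) : ℕ)) : Site).1,
              x.2 - ((u.1 * (e * (d * w) : ℕ), u.2 * (e * (d * w) : ℕ)) : Site).2) from rfl,
            trans_trS_sub] at h4

theorem wbad_shift (w d mw e s : ℕ) (ω : Config) (u β : Site) :
    WBad w d mw e s (shift (u.1 * (e * (d * w) : ℕ), u.2 * (e * (d * w) : ℕ)) ω) β ↔
      WBad w d mw e s ω (β.1 + u.1, β.2 + u.2) := by
  constructor
  · exact trans_wbadW w d mw e s ω u β
  · intro h
    rw [trans_back u ((e * (d * w) : ℕ) : ℤ) ω] at h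
    have h2 := trans_wbadW w d mw e s _ (-u.1, -u.2) _ h
    rwa [show (β.1 + u.1, β.2 + u.2) = trS u β from rfl, trans_trS_neg] at h2

theorem trans_hull (v : Site) {A : Finset Site} {x : Site} (h : x ∈ hull A) :
    trS v x ∈ hull (A.image (trS v)) := by
  obtain ⟨⟨a, ha, h1⟩, ⟨b, hb, h2⟩, ⟨c, hc, h3⟩, ⟨d, hd, h4⟩⟩ := h
  refine ⟨⟨trS v a, Finset.mem_image_of_mem _ ha, ?_⟩, ⟨trS v b, Finset.mem_image_of_mem _ hb, ?_⟩,
    ⟨trS v c, Finset.mem_image_of_mem _ hc, ?_⟩, ⟨trS v d, Finset.mem_image_of_mem _ hd, ?_⟩⟩ <;>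
  simp only [trS] <;> linarith

theorem trans_near (v : Site) {A B : Finset Site} (h : Near A B) :
    Near (A.image (trS v)) (B.image (trS v)) := by
  obtain ⟨x, hx, y, hy, h1⟩ := h
  exact ⟨trS v x, trans_hull v hx, trS v y, trans_hull v hy, by simpa [trS] using h1⟩

theorem trans_mg (v : Site) {A : Finset Site} (h : Mg A) : Mg (A.image (trS v)) := by
  induction h with
  | single x => rw [Finset.image_singleton]; exact Mg.single _
  | merge A B _ _ hd hn ihA ihB =>
    rw [Finset.image_union]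
    exact Mg.merge _ _ ihA ihB ((Finset.disjoint_image (trans_trS_inj v)).2 hd) (trans_near v hn)

theorem trans_bigPart (k : ℕ) (ω : Config) (v : Site) {R R' : Set Site}
    (hR : ∀ x ∈ R, trS v x ∈ R') (h : BigPart k R (shift v ω)) : BigPart k R' ω := by
  obtain ⟨B, hB, h1, h2, x, hx, y, hy, h3⟩ := h
  refine ⟨B.image (trS v), trans_mg v hB, ?_, ?_, trS v x, Finset.mem_image_of_mem _ hx, trS v y,
    Finset.mem_image_of_mem _ hy, by simpa [trS] using h3⟩
  · intro z hz
    obtain ⟨z', hz', rfl⟩ := Finset.mem_image.1 hz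
    exact ⟨(h1 z' hz').1, hR _ (h1 z' hz').2⟩
  · rw [Finset.coe_image, trans_span]; exact h2

theorem trans_tbad (P : Par) (ω : Config) (u z : Site)
    (h : TBad P (shift (u.1 * P.T, u.2 * P.T) ω) z) : TBad P ω (trS u z) := by
  rcases h with h | ⟨C, h1, h2, h3⟩ | ⟨C, h1, h2, h3⟩
  · left
    refine trans_bigPart _ _ _ ?_ h
    intro x hx
    exact (trans_win _ _ _ _ _).2 hx
  · right; left
    set u' : Site := (u.1 * (P.g * P.f * P.e : ℕ), u.2 * (P.g * P.f * P.e : ℕ)) with hu'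
    have e1 : u'.1 * (P.D : ℤ) = u.1 * P.T := by
      simp only [hu', Par.T, Par.T0, Par.W]; push_cast; ring
    have e2 : u'.2 * (P.D : ℤ) = u.2 * P.T := by
      simp only [hu', Par.T, Par.T0, Par.W]; push_cast; ring
    refine ⟨trS u' '' C, ?_, trans_conn _ (trans_star _) h2, ?_⟩
    · rintro _ ⟨c, hc, rfl⟩
      obtain ⟨k1, k2⟩ := h1 c hc
      refine ⟨?_, ?_⟩
      · intro x hx
        rw [← trans_trS_sub (u'.1 * P.D, u'.2 * P.D) x, trans_win] at hx
        have h5 := (trans_win P.T 2 u z _).2 (k1 hx)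
        rw [← e1, ← e2, trans_trS_sub] at h5
        exact h5
      · apply trans_dbad
        have e3 : u'.1 * ((P.d * P.w : ℕ) : ℤ) = u.1 * P.T := e1
        have e4 : u'.2 * ((P.d * P.w : ℕ) : ℤ) = u.2 * P.T := e2
        rw [e3, e4]
        exact k2
    · rw [trans_span]; exact h3
  · right; right
    set u' : Site := (u.1 * (P.g * P.f : ℕ), u.2 * (P.g * P.f : ℕ)) with hu'
    have e1 : u'.1 * (P.W : ℤ) = u.1 * P.T := by
      simp only [hu', Par.T, Par.T0]; push_cast; ring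
    have e2 : u'.2 * (P.W : ℤ) = u.2 * P.T := by
      simp only [hu', Par.T, Par.T0]; push_cast; ring
    refine ⟨trS u' '' C, ?_, trans_conn _ (trans_star _) h2, ?_⟩
    · rintro _ ⟨c, hc, rfl⟩
      obtain ⟨k1, k2⟩ := h1 c hc
      refine ⟨?_, ?_⟩
      · intro x hx
        rw [← trans_trS_sub (u'.1 * P.W, u'.2 * P.W) x, trans_win] at hx
        have h5 := (trans_win P.T 2 u z _).2 (k1 hx)
        rw [← e1, ← e2, trans_trS_sub] at h5
        exact h5
      · apply trans_wbadW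
        have e3 : u'.1 * ((P.e * (P.d * P.w) : ℕ) : ℤ) = u.1 * P.T := e1
        have e4 : u'.2 * ((P.e * (P.d * P.w) : ℕ) : ℤ) = u.2 * P.T := e2
        rw [e3, e4]
        exact k2
    · rw [trans_span]; exact h3

theorem tbad_shift (P : Par) (ω : Config) (u z : Site) :
    TBad P (shift (u.1 * P.T, u.2 * P.T) ω) z ↔ TBad P ω (z.1 + u.1, z.2 + u.2) := by
  constructor
  · exact trans_tbad P ω u z
  · intro h
    rw [trans_back u (P.T : ℤ) ω] at h
    have h2 := trans_tbad P _ (-u.1, -u.2) _ h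
    rwa [show (z.1 + u.1, z.2 + u.2) = trS u z from rfl, trans_trS_neg] at h2

theorem trans_updw (w : ℕ) (ω : Config) (u c : Site) :
    updw w (shift (u.1 * w, u.2 * w) ω) c = shift (u.1 * w, u.2 * w) (updw w ω (trS u c)) := by
  funext x
  rw [trans_shift_apply]
  unfold updw
  rw [trans_shift_apply]
  simp only [trans_box]

theorem trans_nuc1 (P : Par) (ω : Config) (u b : Site)
    (h : Nuc1 P (shift (u.1 * P.D, u.2 * P.D) ω) b) : Nuc1 P ω (trS u b) := by
  obtain ⟨h1, ⟨h2, h3⟩, h4⟩ := h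
  refine ⟨?_, ⟨?_, ?_⟩, ?_⟩
  · intro z hz
    rw [← trans_trS_sub (u.1 * P.D, u.2 * P.D) z, trans_win] at hz
    have := h1 _ hz
    rwa [trans_shift_apply, trans_trS_sub] at this
  · rw [trans_shift_apply] at h2
    have e : trS (u.1 * P.D, u.2 * P.D) (b.1 * P.D, b.2 * P.D) =
      ((trS u b).1 * P.D, (trS u b).2 * P.D) := by
      simp only [trS, Prod.mk.injEq]; constructor <;> ring
    rwa [e] at h2
  · intro r hr hrw
    obtain ⟨⟨j, hj, hj1⟩, ⟨i, hi, hi1⟩⟩ := h3 r hr hrw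
    refine ⟨⟨j, hj, ?_⟩, ⟨i, hi, ?_⟩⟩
    · rw [trans_shift_apply] at hj1
      have e : trS (u.1 * P.D, u.2 * P.D) ((b.1 * P.D, b.2 * P.D).1 + (r:ℤ),
          (b.1 * P.D, b.2 * P.D).2 + (j:ℤ)) =
        (((trS u b).1 * P.D, (trS u b).2 * P.D).1 + (r:ℤ),
          ((trS u b).1 * P.D, (trS u b).2 * P.D).2 + (j:ℤ)) := by
        simp only [trS, Prod.mk.injEq]; constructor <;> ring
      rwa [e] at hj1
    · rw [trans_shift_apply] at hi1
      have e : trS (u.1 * P.D, u.2 * P.D) ((b.1 * P.D, b.2 * P.D).1 + (i:ℤ),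
          (b.1 * P.D, b.2 * P.D).2 + (r:ℤ)) =
        (((trS u b).1 * P.D, (trS u b).2 * P.D).1 + (i:ℤ),
          ((trS u b).1 * P.D, (trS u b).2 * P.D).2 + (r:ℤ)) := by
        simp only [trS, Prod.mk.injEq]; constructor <;> ring
      rwa [e] at hi1
  · intro b' hb' hbad
    apply h4 (b'.1 - u.1, b'.2 - u.2)
    · simp only [swin, Set.mem_ofPred_eq, trS] at hb' ⊢
      refine ⟨by linarith [hb'.1], by linarith [hb'.2.1], by linarith [hb'.2.2.1],
        by linarith [hb'.2.2.2]⟩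
    · have e0 : ((trS u b).1 * (P.d : ℤ), (trS u b).2 * (P.d : ℤ)) =
          trS (u.1 * P.d, u.2 * P.d) (b.1 * P.d, b.2 * P.d) := by
        simp only [trS, Prod.mk.injEq]; constructor <;> ring
      have e1 : ((u.1 * P.d, u.2 * P.d) : Site).1 * (P.w : ℤ) = u.1 * P.D := by
        simp only [Par.D]; push_cast; ring
      have e2 : ((u.1 * P.d, u.2 * P.d) : Site).2 * (P.w : ℤ) = u.2 * P.D := by
        simp only [Par.D]; push_cast; ring
      have e3 := trans_updw P.w ω (u.1 * P.d, u.2 * P.d) (b.1 * P.d, b.2 * P.d)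
      rw [e1, e2] at e3
      rw [e3, ← e0]
      have h5 := (dbad_shift P.w P.d P.mw (updw P.w ω ((trS u b).1 * P.d, (trS u b).2 * P.d)) u
        (b'.1 - u.1, b'.2 - u.2)).2 (by
          simp only [sub_add_cancel]
          exact hbad)
      exact h5

theorem nuc1_shift (P : Par) (ω : Config) (u b : Site) :
    Nuc1 P (shift (u.1 * P.D, u.2 * P.D) ω) b ↔ Nuc1 P ω (b.1 + u.1, b.2 + u.2) := by
  constructor
  · exact trans_nuc1 P ω u b
  · intro h
    rw [trans_back u (P.D : ℤ) ω] at h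
    have h2 := trans_nuc1 P _ (-u.1, -u.2) _ h
    rwa [show (b.1 + u.1, b.2 + u.2) = trS u b from rfl, trans_trS_neg] at h2

theorem trans_nearBad (Λ bad : Set Site) (x u : Site) (n : ℕ)
    (h : NearBad {z | trS u z ∈ Λ} {z | trS u z ∈ bad} x n) : NearBad Λ bad (trS u x) n := by
  obtain ⟨C, h1, h2, h3, h4, a, ha, b, hb, h5⟩ := h
  refine ⟨trS u '' C, ?_, ?_, trans_conn _ (trans_star _) h3, ?_, trS u a, ⟨a, ha, rfl⟩,
    trS u b, ⟨b, hb, rfl⟩, by simpa [trS] using h5⟩
  · rintro _ ⟨c, hc, rfl⟩; exact h1 hc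
  · rintro _ ⟨c, hc, rfl⟩; exact h2 hc
  · rintro _ ⟨c, hc, rfl⟩; simpa [trS] using h4 c hc

theorem nearBad_shift (Λ bad : Set Site) (x u : Site) (n : ℕ) :
    NearBad {z | (z.1 + u.1, z.2 + u.2) ∈ Λ} {z | (z.1 + u.1, z.2 + u.2) ∈ bad} x n ↔
      NearBad Λ bad (x.1 + u.1, x.2 + u.2) n := by
  constructor
  · exact trans_nearBad Λ bad x u n
  · intro h
    have e : ∀ S : Set Site, S = {z | trS (-u.1, -u.2) z ∈ {z : Site | (z.1 + u.1, z.2 + u.2) ∈ S}} := by
      intro S; ext z; simp [trS]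
    rw [e Λ, e bad] at h
    have h2 := trans_nearBad _ _ _ _ _ h
    rwa [show (x.1 + u.1, x.2 + u.2) = trS u x from rfl, trans_trS_neg] at h2

theorem badSpan_shift (Λ bad : Set Site) (u : Site) (m : ℕ) :
    BadSpan {z | (z.1 + u.1, z.2 + u.2) ∈ Λ} {z | (z.1 + u.1, z.2 + u.2) ∈ bad} m ↔
      BadSpan Λ bad m := by
  constructor
  · intro h C h1 h2 h3
    have h4 := h (trS (-u.1, -u.2) '' C) (by
      rintro _ ⟨c, hc, rfl⟩
      have := h1 hc
      simpa [trS] using this) (by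
      rintro _ ⟨c, hc, rfl⟩
      have := h2 hc
      simpa [trS] using this) (trans_conn _ (trans_star _) h3)
    rwa [trans_span] at h4
  · intro h C h1 h2 h3
    have h4 := h (trS u '' C) (by
      rintro _ ⟨c, hc, rfl⟩
      exact h1 hc) (by
      rintro _ ⟨c, hc, rfl⟩
      exact h2 hc) (trans_conn _ (trans_star _) h3)
    rwa [trans_span] at h4

end TSB
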