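import Pool.Agent.TSB.Nucdec

/-! Module NUCPA: the probabilities of the cells. -/

open MeasureTheory
open scoped Classical

namespace TSB

theorem zone_card {r : ℕ} (hr : 100 ≤ r) : ∃ Z : Finset ℤ, (∀ y, y ∈ Z ↔ zoneOK r y) ∧
    (r : ℝ) / 10 - 1 ≤ Z.card ∧ (r : ℝ) / 20 ≤ Z.card ∧ ∀ y ∈ Z, |y| < r := by
  obtain ⟨k, hk⟩ : ∃ k : ℤ, k = ((r % 4 : ℕ) : ℤ) := ⟨_, rfl⟩
  set A : ℤ := (-8 + 4 * k) * r with hA
  have hB : (-7 + 4 * k) * r = A + r := by rw [hA]; ring
  have hiff : ∀ y : ℤ, y ∈ Finset.Icc ((A + 9) / 10) ((A + r) / 10) ↔ zoneOK r y := by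
    intro y
    rw [Finset.mem_Icc, zoneOK, ← hk, ← hA, hB]
    constructor
    · rintro ⟨h1, h2⟩
      constructor <;> omega
    · rintro ⟨h1, h2⟩
      constructor <;> omega
  have hcard : (r : ℝ) / 10 - 1 ≤ ((Finset.Icc ((A + 9) / 10) ((A + r) / 10)).card : ℝ) := by
    rw [Int.card_Icc]
    have h1 : (r : ℤ) - 10 ≤ 10 * ((((A + r) / 10) + 1 - ((A + 9) / 10)).toNat : ℤ) := by omega
    have h2 : ((r : ℤ) : ℝ) - 10 ≤ 10 * (((((A + r) / 10) + 1 - ((A + 9) / 10)).toNat : ℤ) : ℝ) := by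
      exact_mod_cast h1
    push_cast at h2 ⊢
    linarith
  refine ⟨Finset.Icc ((A + 9) / 10) ((A + r) / 10), hiff, hcard, ?_, ?_⟩
  · have : (100 : ℝ) ≤ r := by exact_mod_cast hr
    linarith
  · intro y hy
    exact nd_zone_lt (by omega) ((hiff y).1 hy)

theorem np_core_card (j : ℕ) : (Finset.Icc ((-(j : ℤ), -(j : ℤ)) : ℤ × ℤ) ((j : ℤ), (j : ℤ))).card
    = (2 * j + 1) ^ 2 := by
  have h1 : Finset.Icc ((-(j : ℤ), -(j : ℤ)) : ℤ × ℤ) ((j : ℤ), (j : ℤ)) =
      Finset.Icc (-(j : ℤ)) j ×ˢ Finset.Icc (-(j : ℤ)) j := by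
    ext x
    simp only [Finset.mem_Icc, Finset.mem_product, Prod.le_def]
    tauto
  rw [h1, Finset.card_product, Int.card_Icc]
  have : ((j : ℤ) + 1 - -(j : ℤ)).toNat = 2 * j + 1 := by omega
  rw [this]
  ring

theorem np_core {p q : ℝ} (hp : 0 < p) (hq : 0 < q) (h : p + q ≤ 1 / 2) (P : Par) :
    (law p q).real (cev P none) = q ^ ((2 * P.j0 + 1) ^ 2) := by
  have e : cev P none = {ω : Config | ∀ x ∈ cell P none, ω x ∈ ({2} : Set (Fin 3))} := by
    ext ω
    simp only [cev, cell, Set.mem_ofPred_eq, Finset.mem_Icc, Set.mem_singleton_iff]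
    refine forall_congr' fun x => imp_congr_left ?_
    rw [lay, max_le_iff, abs_le, abs_le, Prod.le_def, Prod.le_def]
    tauto
  rw [e, law_sites hp.le hq.le (by linarith), Finset.prod_congr rfl (g := fun _ => q),
    Finset.prod_const, cell, np_core_card]
  intro x _
  rw [siteLaw_real hp.le hq.le (by linarith)]
  simp

theorem cev_core {p q : ℝ} (hp : 0 < p) (hq : 0 < q) (h : p + q ≤ 1 / 2) (P : Par) (hP : P.Ok) :
    q ^ ((2 * P.j0 + 1) ^ 2) ≤ (law p q).real (cev P none) := (np_core hp hq h P).ge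

/-- the side of a layer without corners -/
noncomputable def np_side (r : ℕ) (i : Fin 4) : Finset Site :=
  (Finset.Ioo (-(r : ℤ)) (r : ℤ)).image (sd i r)

theorem np_mem_side {r : ℕ} {i : Fin 4} {x : Site} :
    x ∈ np_side r i ↔ ∃ y : ℤ, |y| < r ∧ sd i r y = x := by
  simp only [np_side, Finset.mem_image, Finset.mem_Ioo, abs_lt]

theorem np_sd_inj {i : Fin 4} {r y y' : ℤ} (he : sd i r y = sd i r y') : y = y' := by
  fin_cases i <;> simp [sd, Prod.ext_iff] at he <;> omega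

theorem np_side_card {r : ℕ} (hr : 0 < r) (i : Fin 4) : (np_side r i).card = 2 * r - 1 := by
  rw [np_side, Finset.card_image_of_injective _ (fun a b => np_sd_inj), Int.card_Ioo]
  omega

/-- allowed states: a two at `h`, no two elsewhere -/
def np_ok (h x : Site) : Set (Fin 3) := if x = h then {2} else {2}ᶜ

theorem np_ok_real {p q : ℝ} (hp : 0 ≤ p) (hq : 0 ≤ q) (h : p + q ≤ 1) (z x : Site) :
    (siteLaw p q).real (np_ok z x) = if x = z then q else 1 - q := by
  rw [siteLaw_real hp hq h, np_ok]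
  by_cases hx : x = z
  · simp [hx]
  · simp [hx]
    ring

theorem np_ok1_real {p q : ℝ} (hp : 0 ≤ p) (hq : 0 ≤ q) (h : p + q ≤ 1) (z x : Site) :
    (siteLaw p q).real (np_ok z x \ {1}) = if x = z then q else 1 - p - q := by
  rw [siteLaw_real hp hq h, np_ok]
  split_ifs <;> simp_all

theorem np_prod_ok {q : ℝ} (S : Finset Site) (z : Site) :
    ∏ x ∈ S, (if x = z then q else 1 - q) =
      if z ∈ S then q * (1 - q) ^ (S.card - 1) else (1 - q) ^ S.card := by
  split_ifs with hz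
  · rw [← Finset.mul_prod_erase S _ hz, if_pos rfl, Finset.prod_congr rfl (g := fun _ => 1 - q),
      Finset.prod_const, Finset.card_erase_of_mem hz]
    intro x hx
    rw [if_neg (Finset.ne_of_mem_erase hx)]
  · rw [Finset.prod_congr rfl (g := fun _ => 1 - q), Finset.prod_const]
    intro x hx
    rw [if_neg]
    rintro rfl
    exact hz hx

/-- the event that the states are allowed -/
def np_G (S : Finset Site) (z : Site) : Set Config := {ω | ∀ x ∈ S, ω x ∈ np_ok z x}

theorem np_G_real {p q : ℝ} (hp : 0 ≤ p) (hq : 0 ≤ q) (h : p + q ≤ 1) (S : Finset Site)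
    (z : Site) : (law p q).real (np_G S z) = ∏ x ∈ S, (if x = z then q else 1 - q) := by
  rw [np_G, law_sites hp hq h]
  exact Finset.prod_congr rfl fun x _ => np_ok_real hp hq h z x

theorem np_G_dep (S : Finset Site) (z : Site) : DepOn (np_G S z) S := by
  intro ω ω' hω
  simp only [np_G, Set.mem_ofPred_eq]
  refine forall₂_congr fun x hx => ?_
  rw [hω x hx]

/-- allowed states and no ones in `B` -/
theorem np_noone {p q : ℝ} (hp : 0 ≤ p) (hq : 0 ≤ q) (h : p + q ≤ 1) (S B : Finset Site)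
    (hB : B ⊆ S) (z : Site) :
    (law p q).real {ω | ω ∈ np_G S z ∧ ∀ x ∈ B, ω x ≠ 1} ≤
      (law p q).real (np_G S z) * (1 - p) ^ (B.card - 1) := by
  have e : {ω : Config | ω ∈ np_G S z ∧ ∀ x ∈ B, ω x ≠ 1} = {ω | ∀ x ∈ S, ω x ∈
      (if x ∈ B then np_ok z x \ {1} else np_ok z x : Set (Fin 3))} := by
    ext ω
    simp only [np_G, Set.mem_ofPred_eq]
    constructor
    · rintro ⟨g1, g2⟩ x hx
      split_ifs with hxB
      · exact ⟨g1 x hx, g2 x hxB⟩
      · exact g1 x hx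
    · intro g
      refine ⟨fun x hx => ?_, fun x hx => ?_⟩
      · have := g x hx
        split_ifs at this with hxB
        · exact this.1
        · exact this
      · have := g x (hB hx)
        rw [if_pos hx] at this
        exact this.2
  rw [e, law_sites hp hq h, np_G_real hp hq h]
  have h1 : (1 - p) ^ (B.card - 1) ≥ ∏ x ∈ B, (if x = z then 1 else 1 - p) := by
    by_cases hz : z ∈ B
    · rw [← Finset.mul_prod_erase B _ hz, if_pos rfl, one_mul,
        Finset.prod_congr rfl (g := fun _ => 1 - p), Finset.prod_const, Finset.card_erase_of_mem hz]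
      intro x hx
      rw [if_neg (Finset.ne_of_mem_erase hx)]
    · rw [Finset.prod_congr rfl (g := fun _ => 1 - p), Finset.prod_const]
      · exact pow_le_pow_of_le_one (by linarith) (by linarith) (Nat.sub_le _ _)
      · intro x hx
        rw [if_neg]
        rintro rfl
        exact hz hx
  have h2 : ∏ x ∈ B, (if x = z then (1 : ℝ) else 1 - p) =
      ∏ x ∈ S, (if x ∈ B then (if x = z then (1 : ℝ) else 1 - p) else 1) := by
    rw [Finset.prod_ite_mem, Finset.inter_eq_right.2 hB]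
  have hG0 : 0 ≤ ∏ x ∈ S, (if x = z then q else 1 - q) :=
    Finset.prod_nonneg fun x _ => by split_ifs <;> linarith
  refine le_trans ?_ (mul_le_mul_of_nonneg_left h1 hG0)
  rw [h2, ← Finset.prod_mul_distrib]
  refine Finset.prod_le_prod (fun x _ => measureReal_nonneg) fun x _ => ?_
  by_cases hxB : x ∈ B
  · rw [if_pos hxB, if_pos hxB, np_ok1_real hp hq h]
    by_cases hxz : x = z
    · simp [hxz]
    · simp only [hxz, if_false]
      nlinarith
  · rw [if_neg hxB, if_neg hxB, np_ok_real hp hq h, mul_one]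

/-- independent blocks -/
theorem np_blocks {p q : ℝ} (hp : 0 ≤ p) (hq : 0 ≤ q) (h : p + q ≤ 1) (S : Finset Site)
    (z : Site) (N b : ℕ) (hb : (1 - p) ^ b ≤ 1 / 2) (B : ℕ → Finset Site)
    (hBS : ∀ j < N, B j ⊆ S) (hBd : ∀ i < N, ∀ j < N, i ≠ j → Disjoint (B i) (B j))
    (hBc : ∀ j < N, b + 1 ≤ (B j).card) :
    (law p q).real (np_G S z) * (1 / 2) ^ N ≤
      (law p q).real {ω | ω ∈ np_G S z ∧ ∀ j < N, ∃ x ∈ B j, ω x = 1} := by
  have := law_isProb hp hq h
  set R := S \ (Finset.range N).biUnion B with hR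
  set F : ℕ → Set Config := fun j => {ω | ω ∈ np_G (B j) z ∧ ∃ x ∈ B j, ω x = 1} with hF
  have hFd : ∀ j, DepOn (F j) (B j) := by
    intro j ω ω' hω
    simp only [hF, Set.mem_ofPred_eq]
    refine and_congr (np_G_dep _ _ ω ω' hω) (exists_congr fun x => and_congr_right fun hx => ?_)
    rw [hω x hx]
  have hdis : ∀ i ∈ Finset.range N, ∀ j ∈ Finset.range N, i ≠ j → Disjoint (B i) (B j) :=
    fun i hi j hj hij => hBd i (Finset.mem_range.1 hi) j (Finset.mem_range.1 hj) hij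
  have e1 : {ω : Config | ω ∈ np_G S z ∧ ∀ j < N, ∃ x ∈ B j, ω x = 1} =
      {ω | ∀ j ∈ Finset.range N, ω ∈ F j} ∩ np_G R z := by
    ext ω
    simp only [hF, np_G, Set.mem_ofPred_eq, Set.mem_inter_iff, Finset.mem_range, hR,
      Finset.mem_sdiff, Finset.mem_biUnion, not_exists, not_and]
    constructor
    · rintro ⟨g1, g2⟩
      exact ⟨fun j hj => ⟨fun x hx => g1 x (hBS j hj hx), g2 j hj⟩, fun x hx => g1 x hx.1⟩
    · rintro ⟨g1, g2⟩
      refine ⟨fun x hx => ?_, fun j hj => (g1 j hj).2⟩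
      by_cases hc : ∃ j < N, x ∈ B j
      · obtain ⟨j, hj, hxj⟩ := hc
        exact (g1 j hj).1 x hxj
      · exact g2 x ⟨hx, fun j hj hxj => hc ⟨j, hj, hxj⟩⟩
  have e2 : np_G S z = {ω | ∀ j ∈ Finset.range N, ω ∈ np_G (B j) z} ∩ np_G R z := by
    ext ω
    simp only [np_G, Set.mem_ofPred_eq, Set.mem_inter_iff, Finset.mem_range, hR,
      Finset.mem_sdiff, Finset.mem_biUnion, not_exists, not_and]
    constructor
    · intro g1
      exact ⟨fun j hj x hx => g1 x (hBS j hj hx), fun x hx => g1 x hx.1⟩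
    · rintro ⟨g1, g2⟩ x hx
      by_cases hc : ∃ j < N, x ∈ B j
      · obtain ⟨j, hj, hxj⟩ := hc
        exact g1 j hj x hxj
      · exact g2 x ⟨hx, fun j hj hxj => hc ⟨j, hj, hxj⟩⟩
  have hdep : ∀ E : ℕ → Set Config, (∀ j, DepOn (E j) (B j)) →
      DepOn {ω | ∀ j ∈ Finset.range N, ω ∈ E j} ((Finset.range N).biUnion B) := by
    intro E hE ω ω' hω
    simp only [Set.mem_ofPred_eq]
    exact forall₂_congr fun j hj => hE j ω ω'
      (fun x hx => hω x (Finset.mem_biUnion.2 ⟨j, hj, hx⟩))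
  rw [e1, mu_indep hp hq h (hdep F hFd) (np_G_dep R z) (hR ▸ Finset.disjoint_sdiff)]
  conv_lhs => rw [e2]
  rw [mu_indep hp hq h (hdep _ fun j => np_G_dep (B j) z) (np_G_dep R z)
      (hR ▸ Finset.disjoint_sdiff),
    law_prod hp hq h (Finset.range N) F B (fun j _ => hFd j) hdis,
    law_prod hp hq h (Finset.range N) (fun j => np_G (B j) z) B (fun j _ => np_G_dep _ z) hdis]
  rw [mul_right_comm]
  refine mul_le_mul_of_nonneg_right ?_ measureReal_nonneg
  have e3 : ((1 : ℝ) / 2) ^ N = ∏ j ∈ Finset.range N, (1 / 2 : ℝ) := by simp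
  rw [e3, ← Finset.prod_mul_distrib]
  refine Finset.prod_le_prod (fun j _ => mul_nonneg measureReal_nonneg (by norm_num))
    fun j hj => ?_
  have hj' := Finset.mem_range.1 hj
  have g1 := np_noone hp hq h (B j) (B j) (Finset.Subset.refl _) z
  have g2 : (law p q).real (np_G (B j) z) ≤ (law p q).real (F j) +
      (law p q).real {ω | ω ∈ np_G (B j) z ∧ ∀ x ∈ B j, ω x ≠ 1} := by
    refine le_trans (measureReal_mono ?_) (measureReal_union_le _ _)
    intro ω hω
    by_cases hc : ∃ x ∈ B j, ω x = 1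
    · exact Or.inl ⟨hω, hc⟩
    · push Not at hc
      exact Or.inr ⟨hω, hc⟩
  have g3 : (1 - p) ^ ((B j).card - 1) ≤ 1 / 2 := by
    refine le_trans (pow_le_pow_of_le_one (by linarith) (by linarith) ?_) hb
    have := hBc j hj'
    omega
  have g4 : 0 ≤ (law p q).real (np_G (B j) z) := measureReal_nonneg
  nlinarith

/-- sum over the positions of the two -/
theorem np_sum {p q : ℝ} (hp : 0 ≤ p) (hq : 0 ≤ q) (h : p + q ≤ 1) (r : ℕ) (i : Fin 4)
    (Z : Finset ℤ) (hZ : ∀ y ∈ Z, |y| < r) (E : ℤ → Set Config)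
    (hE : ∀ y ∈ Z, E y ⊆ np_G (np_side r i) (sd i r y))
    (hEd : ∀ y ∈ Z, DepOn (E y) (np_side r i)) (L : ℝ) (hL : ∀ y ∈ Z, L ≤ (law p q).real (E y))
    (F : Set Config) (hF : ∀ y ∈ Z, E y ⊆ F) :
    (Z.card : ℝ) * L ≤ (law p q).real F := by
  have := law_isProb hp hq h
  have h1 : (law p q).real (⋃ y ∈ Z, E y) = ∑ y ∈ Z, (law p q).real (E y) := by
    rw [measureReal_biUnion_finset]
    · intro y hy y' hy' hne
      rw [Function.onFun, Set.disjoint_left]
      intro ω h1 h2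
      have g1 := hE y hy h1 (sd i r y) (np_mem_side.2 ⟨y, hZ y hy, rfl⟩)
      have g2 := hE y' hy' h2 (sd i r y) (np_mem_side.2 ⟨y, hZ y hy, rfl⟩)
      rw [np_ok, if_pos rfl] at g1
      rw [np_ok, if_neg (fun h => hne (np_sd_inj h))] at g2
      exact g2 g1
    · intro y hy
      exact depOn_measurable (hEd y hy)
  have h2 : (law p q).real (⋃ y ∈ Z, E y) ≤ (law p q).real F :=
    measureReal_mono (Set.iUnion₂_subset hF)
  rw [h1] at h2
  refine le_trans ?_ h2
  rw [← nsmul_eq_mul]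
  exact Finset.card_nsmul_le_sum Z _ L hL

theorem np_G_side {p q : ℝ} (hp : 0 ≤ p) (hq : 0 ≤ q) (h : p + q ≤ 1) {r : ℕ} (hr : 0 < r)
    (i : Fin 4) {y : ℤ} (hy : |y| < r) :
    (law p q).real (np_G (np_side r i) (sd i r y)) = q * (1 - q) ^ (2 * r - 2) := by
  rw [np_G_real hp hq h, np_prod_ok, if_pos (np_mem_side.2 ⟨y, hy, rfl⟩), np_side_card hr]
  rfl

/-- what membership in `np_G` means on a side -/
theorem np_G_mem {r : ℕ} {i : Fin 4} {y : ℤ} (hy : |y| < r) {ω : Config}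
    (h : ω ∈ np_G (np_side r i) (sd i r y)) :
    ω (sd i r y) = 2 ∧ ∀ y' : ℤ, |y'| < r → y' ≠ y → ω (sd i r y') ≠ 2 := by
  constructor
  · have := h _ (np_mem_side.2 ⟨y, hy, rfl⟩)
    rwa [np_ok, if_pos rfl] at this
  · intro y' hy' hne
    have := h _ (np_mem_side.2 ⟨y', hy', rfl⟩)
    rwa [np_ok, if_neg (fun h => hne (np_sd_inj h))] at this

theorem cev_side1 {p q : ℝ} (hp : 0 < p) (hq : 0 < q) (h : p + q ≤ 1 / 2) (P : Par) (hP : P.Ok)
    (r : ℕ) (i : Fin 4) (hr : P.j0 < r) (hr' : r ≤ 4 * P.j0) :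
    (r : ℝ) / 20 * q * p ^ (2 * r) ≤ (law p q).real (cev P (some (r, i, false))) := by
  have h1 : p + q ≤ 1 := by linarith
  have hj := hP.hj
  have hr2 := hP.hr2
  have hRj := hP.hRj
  obtain ⟨Z, hZ, _, hZc, hZr⟩ := zone_card (r := r) (by omega)
  have key := np_sum hp.le hq.le h1 r i Z hZr
    (fun y => {ω | ∀ x ∈ np_side r i, ω x ∈ (if x = sd i r y then {2} else {1} : Set (Fin 3))})
    ?_ ?_ (q * p ^ (2 * r - 2)) ?_ (cev P (some (r, i, false))) ?_
  · refine le_trans ?_ key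
    have h2 : p ^ (2 * r) ≤ p ^ (2 * r - 2) :=
      pow_le_pow_of_le_one hp.le (by linarith) (Nat.sub_le _ _)
    have h3 : 0 < p ^ (2 * r) := pow_pos hp _
    rw [mul_assoc]
    exact mul_le_mul hZc (mul_le_mul_of_nonneg_left h2 hq.le) (by positivity) (by positivity)
  · intro y _ ω hω x hx
    have := hω x hx
    simp only [np_ok]
    split_ifs at this ⊢
    · exact this
    · rw [Set.mem_singleton_iff] at this
      simp [this]
  · intro y _ ω ω' hω
    simp only [Set.mem_ofPred_eq]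
    refine forall₂_congr fun x hx => ?_
    rw [hω x hx]
  · intro y hy
    rw [law_sites hp.le hq.le h1]
    apply le_of_eq
    have hm : sd i r y ∈ np_side r i := np_mem_side.2 ⟨y, hZr y hy, rfl⟩
    rw [← Finset.mul_prod_erase _ _ hm, if_pos rfl, siteLaw_real hp.le hq.le h1,
      Finset.prod_congr rfl (g := fun _ => p), Finset.prod_const, Finset.card_erase_of_mem hm,
      np_side_card (by omega)]
    · have e2 : 2 * r - 1 - 1 = 2 * r - 2 := rfl
      rw [e2]
      simp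
    · intro x hx
      rw [if_neg (Finset.ne_of_mem_erase hx), siteLaw_real hp.le hq.le h1]
      simp
  · intro y hy ω hω
    have hz := (hZ y).1 hy
    have hy' := hZr y hy
    have g1 : ω (sd i r y) = 2 := by
      have := hω _ (np_mem_side.2 ⟨y, hy', rfl⟩)
      rwa [if_pos rfl] at this
    have g2 : ∀ y' : ℤ, |y'| < r → y' ≠ y → ω (sd i r y') = 1 := by
      intro y' hy' hne
      have := hω _ (np_mem_side.2 ⟨y', hy', rfl⟩)
      rwa [if_neg (fun h => hne (np_sd_inj h))] at this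
    refine ⟨fun _ => ⟨y, hz, g1, ?_, ?_, ?_, ?_⟩, fun h => by omega⟩
    · intro y' a1 a2
      rw [g2 y' a1 a2]
      decide
    · intro _ y' a1
      by_cases a2 : y' = y
      · rw [a2, g1]; decide
      · rw [g2 y' a1 a2]; decide
    · intro h5
      omega
    · intro h5
      omega

/-- a block of the side -/
noncomputable def np_blk (r : ℕ) (i : Fin 4) (u : ℤ) (n : ℕ) : Finset Site :=
  (Finset.Ico u (u + n)).image (sd i r)

theorem np_blk_card (r : ℕ) (i : Fin 4) (u : ℤ) (n : ℕ) : (np_blk r i u n).card = n := by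
  rw [np_blk, Finset.card_image_of_injective _ (fun a b => np_sd_inj), Int.card_Ico]
  omega

theorem np_mem_blk {r : ℕ} {i : Fin 4} {u : ℤ} {n : ℕ} {x : Site} :
    x ∈ np_blk r i u n ↔ ∃ y : ℤ, (u ≤ y ∧ y < u + n) ∧ sd i r y = x := by
  simp only [np_blk, Finset.mem_image, Finset.mem_Ico]

theorem np_blk_sub {r : ℕ} {i : Fin 4} {u : ℤ} {n : ℕ} (h1 : -(r : ℤ) < u) (h2 : u + n ≤ r) :
    np_blk r i u n ⊆ np_side r i := by
  intro x hx
  rw [np_mem_blk] at hx
  obtain ⟨y, hy, rfl⟩ := hx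
  exact np_mem_side.2 ⟨y, by rw [abs_lt]; omega, rfl⟩

theorem cev_side2 {p q : ℝ} (hp : 0 < p) (hq : 0 < q) (h : p + q ≤ 1 / 2) (P : Par) (hP : P.Ok)
    (hg1 : (1 - p) ^ (P.g1 / 2 - 1) ≤ 1 / 4) (hg2 : 8 ≤ P.g1)
    (r : ℕ) (i : Fin 4) (hr : 4 * P.j0 < r) (hr' : r ≤ P.r2) :
    (r : ℝ) / 20 * q * (1 - q) ^ (2 * r) * (1 / 2) ^ (2 * r / (P.g1 / 2) + 1) ≤
      (law p q).real (cev P (some (r, i, false))) := by
  have h1 : p + q ≤ 1 := by linarith
  have hj := hP.hj
  have hRr := hP.hRr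
  obtain ⟨Z, hZ, _, hZc, hZr⟩ := zone_card (r := r) (by omega)
  obtain ⟨b, hb⟩ : ∃ b, b = P.g1 / 2 := ⟨_, rfl⟩
  rw [← hb] at hg1 ⊢
  have hb4 : 4 ≤ b := by omega
  obtain ⟨N, hN⟩ : ∃ N, N = (2 * r - 1) / b := ⟨_, rfl⟩
  have hNb : N * b ≤ 2 * r - 1 := hN ▸ Nat.div_mul_le_self _ _
  have hNb' : 2 * r - 1 < (N + 1) * b := by
    rw [Nat.mul_comm (N + 1) b, hN]
    exact Nat.lt_mul_div_succ _ (by omega)
  set B : ℕ → Finset Site := fun j => np_blk r i (-(r : ℤ) + 1 + j * b) b with hB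
  have key := np_sum hp.le hq.le h1 r i Z hZr
    (fun y => {ω | ω ∈ np_G (np_side r i) (sd i r y) ∧ ∀ j < N, ∃ x ∈ B j, ω x = 1})
    ?_ ?_ (q * (1 - q) ^ (2 * r - 2) * (1 / 2) ^ N) ?_ (cev P (some (r, i, false))) ?_
  · refine le_trans ?_ key
    have h2 : (1 - q) ^ (2 * r) ≤ (1 - q) ^ (2 * r - 2) :=
      pow_le_pow_of_le_one (by linarith) (by linarith) (Nat.sub_le _ _)
    have h3 : 0 < (1 - q) ^ (2 * r) := pow_pos (by linarith) _
    have h4 : ((1 : ℝ) / 2) ^ (2 * r / b + 1) ≤ (1 / 2) ^ N := by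
      refine pow_le_pow_of_le_one (by norm_num) (by norm_num) ?_
      rw [hN]
      exact (Nat.div_le_div_right (Nat.sub_le _ _)).trans (Nat.le_succ _)
    calc (r : ℝ) / 20 * q * (1 - q) ^ (2 * r) * (1 / 2) ^ (2 * r / b + 1)
        = (r : ℝ) / 20 * (q * (1 - q) ^ (2 * r) * (1 / 2) ^ (2 * r / b + 1)) := by ring
      _ ≤ (Z.card : ℝ) * (q * (1 - q) ^ (2 * r - 2) * (1 / 2) ^ N) := by
        refine mul_le_mul hZc ?_ (by positivity) (by positivity)
        exact mul_le_mul (mul_le_mul_of_nonneg_left h2 hq.le) h4 (by positivity)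
          (mul_nonneg hq.le (pow_nonneg (by linarith) _))
  · intro y _ ω hω
    exact hω.1
  · intro y _ ω ω' hω
    simp only [Set.mem_ofPred_eq]
    refine and_congr (np_G_dep _ _ ω ω' hω) (forall₂_congr fun j hj => exists_congr fun x =>
      and_congr_right fun hx => ?_)
    rw [hω x (np_blk_sub (i := i) ?_ ?_ hx)]
    · have : (0 : ℤ) ≤ j * b := by positivity
      linarith
    · have h5 : (j + 1) * b ≤ 2 * r - 1 := le_trans (Nat.mul_le_mul_right _ hj) hNb
      have h6 : ((j : ℤ) + 1) * b ≤ 2 * r - 1 := by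
        have : 1 ≤ 2 * r := by omega
        have h7 : (((j + 1) * b : ℕ) : ℤ) ≤ ((2 * r - 1 : ℕ) : ℤ) := by exact_mod_cast h5
        push_cast [this] at h7
        exact h7
      nlinarith
  · intro y hy
    rw [← np_G_side hp.le hq.le h1 (r := r) (by omega) i (hZr y hy)]
    refine np_blocks hp.le hq.le h1 (np_side r i) (sd i r y) N (b - 1) (by linarith) B ?_ ?_ ?_
    · intro j hj
      refine np_blk_sub ?_ ?_
      · have : (0 : ℤ) ≤ j * b := by positivity
        linarith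
      · have h5 : (j + 1) * b ≤ 2 * r - 1 := le_trans (Nat.mul_le_mul_right _ hj) hNb
        have h6 : ((j : ℤ) + 1) * b ≤ 2 * r - 1 := by
          have : 1 ≤ 2 * r := by omega
          have h7 : (((j + 1) * b : ℕ) : ℤ) ≤ ((2 * r - 1 : ℕ) : ℤ) := by exact_mod_cast h5
          push_cast [this] at h7
          exact h7
        nlinarith
    · intro j _ j' _ hjj
      rw [Finset.disjoint_left]
      intro x hx hx'
      simp only [hB, np_mem_blk] at hx hx'
      obtain ⟨u, hu, rfl⟩ := hx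
      obtain ⟨u', hu', he⟩ := hx'
      have := np_sd_inj he
      subst this
      apply hjj
      rcases lt_trichotomy j j' with hlt | hlt | hlt
      · exfalso
        have : ((j : ℤ) + 1) * b ≤ j' * b :=
          mul_le_mul_of_nonneg_right (by exact_mod_cast hlt) (by positivity)
        nlinarith
      · exact hlt
      · exfalso
        have : ((j' : ℤ) + 1) * b ≤ j * b :=
          mul_le_mul_of_nonneg_right (by exact_mod_cast hlt) (by positivity)
        nlinarith
    · intro j _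
      simp only [hB, np_blk_card]
      omega
  · rintro y hy ω ⟨hω, hblk⟩
    have hy' := hZr y hy
    obtain ⟨g1, g2⟩ := np_G_mem hy' hω
    refine ⟨fun _ => ⟨y, (hZ y).1 hy, g1, g2, ?_, ?_, ?_⟩, fun h => by omega⟩
    · intro h5
      omega
    · intro _ _ u hu1 hu2
      -- the first block starting at or after `u`
      have hbZ : (0 : ℤ) < b := by omega
      obtain ⟨t, ht⟩ : ∃ t : ℤ, t = (u + r - 1 + (b - 1)) / b := ⟨_, rfl⟩
      have ht1 : u + r - 1 ≤ t * b := by
        have := Int.lt_ediv_add_one_mul_self (u + r - 1 + (b - 1)) hbZ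
        rw [← ht] at this
        nlinarith
      have ht2 : t * b ≤ u + r - 1 + (b - 1) := by
        rw [ht]
        exact Int.ediv_mul_le _ hbZ.ne'
      have ht0 : 0 ≤ t := by
        rw [ht]
        exact Int.ediv_nonneg (by omega) hbZ.le
      obtain ⟨j, rfl⟩ := Int.eq_ofNat_of_zero_le ht0
      have hg : 2 * (b : ℤ) ≤ P.g1 := by omega
      have hjN : j < N := by
        by_contra hc
        push Not at hc
        have h5 : (N + 1) * b ≤ (j + 1) * b := Nat.mul_le_mul_right _ (by omega)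
        have h6 : (((N + 1) * b : ℕ) : ℤ) ≤ (((j + 1) * b : ℕ) : ℤ) := by exact_mod_cast h5
        have h7 : ((2 * r - 1 : ℕ) : ℤ) < (((N + 1) * b : ℕ) : ℤ) := by exact_mod_cast hNb'
        have : 1 ≤ 2 * r := by omega
        push_cast [this] at h6 h7
        nlinarith
      obtain ⟨x, hx, hx1⟩ := hblk j hjN
      simp only [hB, np_mem_blk] at hx
      obtain ⟨v, hv, rfl⟩ := hx
      refine ⟨(v - u).toNat, ?_, ?_⟩
      · zify
        rw [Int.toNat_of_nonneg (by linarith)]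
        linarith
      · rw [Int.toNat_of_nonneg (by linarith)]
        rw [show u + (v - u) = v by ring]
        exact hx1
    · intro h5
      omega

theorem cev_side3 {p q : ℝ} (hp : 0 < p) (hq : 0 < q) (h : p + q ≤ 1 / 2) (P : Par) (hP : P.Ok)
    (r : ℕ) (i : Fin 4) (hr : P.r2 < r) (hr' : r ≤ 2 * P.Rh) (Z : Finset ℤ)
    (hZ : ∀ y, y ∈ Z ↔ zoneOK r y) :
    (Z.card : ℝ) * q * (1 - q) ^ (2 * r - 2) * (1 - 2 * r * (1 - p) ^ (P.w - 1)) ≤
      (law p q).real (cev P (some (r, i, false))) := by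
  have h1 : p + q ≤ 1 := by linarith
  have := law_isProb hp.le hq.le h1
  have hj := hP.hj
  have hr2 := hP.hr2
  have hZr : ∀ y ∈ Z, |y| < r := fun y hy => nd_zone_lt (by omega) ((hZ y).1 hy)
  set U := Finset.Ioc (-(r : ℤ)) ((r : ℤ) - P.w) with hU
  have hUsub : ∀ u ∈ U, np_blk r i u P.w ⊆ np_side r i := by
    intro u hu
    rw [hU, Finset.mem_Ioc] at hu
    exact np_blk_sub hu.1 (by linarith [hu.2])
  have key := np_sum hp.le hq.le h1 r i Z hZr
    (fun y => {ω | ω ∈ np_G (np_side r i) (sd i r y) ∧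
      ∀ u ∈ U, ∃ x ∈ np_blk r i u P.w, ω x = 1})
    ?_ ?_ (q * (1 - q) ^ (2 * r - 2) * (1 - 2 * r * (1 - p) ^ (P.w - 1))) ?_
    (cev P (some (r, i, false))) ?_
  · refine le_trans (le_of_eq ?_) key
    ring
  · intro y _ ω hω
    exact hω.1
  · intro y _ ω ω' hω
    simp only [Set.mem_ofPred_eq]
    refine and_congr (np_G_dep _ _ ω ω' hω) (forall₂_congr fun u hu => exists_congr fun x =>
      and_congr_right fun hx => ?_)
    rw [hω x (hUsub u hu hx)]
  · intro y hy
    have hG := np_G_side hp.le hq.le h1 (r := r) (by omega) i (hZr y hy)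
    have g1 : (law p q).real (np_G (np_side r i) (sd i r y)) ≤
        (law p q).real {ω | ω ∈ np_G (np_side r i) (sd i r y) ∧
          ∀ u ∈ U, ∃ x ∈ np_blk r i u P.w, ω x = 1} +
        (law p q).real (⋃ u ∈ U, {ω | ω ∈ np_G (np_side r i) (sd i r y) ∧
          ∀ x ∈ np_blk r i u P.w, ω x ≠ 1}) := by
      refine le_trans (measureReal_mono ?_) (measureReal_union_le _ _)
      intro ω hω
      by_cases hc : ∀ u ∈ U, ∃ x ∈ np_blk r i u P.w, ω x = 1
      · exact Or.inl ⟨hω, hc⟩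
      · push Not at hc
        obtain ⟨u, hu, hux⟩ := hc
        exact Or.inr (Set.mem_iUnion₂.2 ⟨u, hu, hω, hux⟩)
    have g2 : (law p q).real (⋃ u ∈ U, {ω | ω ∈ np_G (np_side r i) (sd i r y) ∧
          ∀ x ∈ np_blk r i u P.w, ω x ≠ 1}) ≤
        ∑ u ∈ U, (law p q).real {ω | ω ∈ np_G (np_side r i) (sd i r y) ∧
          ∀ x ∈ np_blk r i u P.w, ω x ≠ 1} := measureReal_biUnion_finset_le _ _
    have g3 : ∑ u ∈ U, (law p q).real {ω | ω ∈ np_G (np_side r i) (sd i r y) ∧
          ∀ x ∈ np_blk r i u P.w, ω x ≠ 1} ≤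
        U.card • ((law p q).real (np_G (np_side r i) (sd i r y)) * (1 - p) ^ (P.w - 1)) := by
      refine Finset.sum_le_card_nsmul _ _ _ fun u hu => ?_
      have := np_noone hp.le hq.le h1 (np_side r i) (np_blk r i u P.w) (hUsub u hu) (sd i r y)
      rwa [np_blk_card] at this
    have g4 : (U.card : ℝ) ≤ 2 * r := by
      rw [hU, Int.card_Ioc]
      have : (((r : ℤ) - P.w - -(r : ℤ)).toNat) ≤ 2 * r := by omega
      exact_mod_cast this
    rw [nsmul_eq_mul] at g3
    have g5 : 0 ≤ (law p q).real (np_G (np_side r i) (sd i r y)) * (1 - p) ^ (P.w - 1) :=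
      mul_nonneg measureReal_nonneg (pow_nonneg (by linarith) _)
    have g6 := mul_le_mul_of_nonneg_right g4 g5
    rw [hG] at g1 g3 g6
    linarith
  · rintro y hy ω ⟨hω, hblk⟩
    have hy' := hZr y hy
    obtain ⟨g1, g2⟩ := np_G_mem hy' hω
    refine ⟨fun _ => ⟨y, (hZ y).1 hy, g1, g2, ?_, ?_, ?_⟩, fun h => by omega⟩
    · intro h5
      omega
    · intro h5 h6
      omega
    · intro _ u hu1 hu2
      obtain ⟨x, hx, hx1⟩ := hblk u (by rw [hU, Finset.mem_Ioc]; exact ⟨hu1, by linarith⟩)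
      rw [np_mem_blk] at hx
      obtain ⟨v, hv, rfl⟩ := hx
      refine ⟨(v - u).toNat, by omega, ?_⟩
      rw [Int.toNat_of_nonneg (by omega), show u + (v - u) = v by ring]
      exact hx1

theorem cev_side4 {p q : ℝ} (hp : 0 < p) (hq : 0 < q) (h : p + q ≤ 1 / 2) (P : Par) (hP : P.Ok)
    (r : ℕ) (i : Fin 4) (hr : 2 * P.Rh < r) :
    (law p q).real (cev P (some (r, i, false))) = 1 - (1 - q) ^ (2 * r - 1) := by
  have h1 : p + q ≤ 1 := by linarith
  have := law_isProb hp.le hq.le h1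
  have e : cev P (some (r, i, false)) = {ω : Config | ∀ x ∈ np_side r i, ω x ∈ ({2}ᶜ : Set (Fin 3))}ᶜ := by
    ext ω
    simp only [cev, Set.mem_ofPred_eq, Set.mem_compl_iff, Set.mem_singleton_iff, np_mem_side]
    constructor
    · rintro ⟨_, g⟩ hc
      obtain ⟨y, hy, hy2⟩ := g hr
      exact hc _ ⟨y, hy, rfl⟩ hy2
    · intro hc
      refine ⟨fun h => by omega, fun _ => ?_⟩
      push Not at hc
      obtain ⟨x, ⟨y, hy, rfl⟩, hx⟩ := hc
      exact ⟨y, hy, hx⟩
  rw [e, measureReal_compl, law_sites hp.le hq.le h1, Finset.prod_congr rfl (g := fun _ => 1 - q),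
    Finset.prod_const, np_side_card (by omega)]
  · simp
  · intro x _
    rw [siteLaw_real hp.le hq.le h1]
    simp
    ring
  · refine depOn_measurable (R := np_side r i) fun ω ω' hω => ?_
    simp only [Set.mem_ofPred_eq]
    refine forall₂_congr fun x hx => ?_
    rw [hω x hx]

theorem cev_corner1 {p q : ℝ} (hp : 0 < p) (hq : 0 < q) (h : p + q ≤ 1 / 2) (P : Par) (hP : P.Ok)
    (r : ℕ) (i : Fin 4) (hr' : r ≤ 4 * P.j0) :
    (law p q).real (cev P (some (r, i, true))) = p := by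
  have h1 : p + q ≤ 1 := by linarith
  have hRj := hP.hRj
  have e : cev P (some (r, i, true)) =
      {ω : Config | ∀ x ∈ ({corner i r} : Finset Site), ω x ∈ ({1} : Set (Fin 3))} := by
    ext ω
    simp only [cev, Set.mem_ofPred_eq, Finset.mem_singleton, forall_eq, Set.mem_singleton_iff]
    generalize ω (corner i r) = s
    have h2 : r ≤ 2 * P.Rh := by omega
    simp only [h2, hr', true_imp_iff]
    revert s
    decide
  rw [e, law_sites hp.le hq.le h1, Finset.prod_singleton, siteLaw_real hp.le hq.le h1]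
  simp

theorem cev_corner2 {p q : ℝ} (hp : 0 < p) (hq : 0 < q) (h : p + q ≤ 1 / 2) (P : Par) (hP : P.Ok)
    (r : ℕ) (i : Fin 4) (hr : 4 * P.j0 < r) (hr' : r ≤ 2 * P.Rh) :
    (law p q).real (cev P (some (r, i, true))) = 1 - q := by
  have h1 : p + q ≤ 1 := by linarith
  have e : cev P (some (r, i, true)) =
      {ω : Config | ∀ x ∈ ({corner i r} : Finset Site), ω x ∈ ({2}ᶜ : Set (Fin 3))} := by
    ext ω
    simp only [cev, Set.mem_ofPred_eq, Finset.mem_singleton, forall_eq, Set.mem_compl_iff,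
      Set.mem_singleton_iff]
    have h2 : ¬ r ≤ 4 * P.j0 := by omega
    simp [hr', h2]
  rw [e, law_sites hp.le hq.le h1, Finset.prod_singleton, siteLaw_real hp.le hq.le h1]
  simp
  ring

theorem cev_corner3 {p q : ℝ} (hp : 0 < p) (hq : 0 < q) (h : p + q ≤ 1 / 2) (P : Par) (hP : P.Ok)
    (r : ℕ) (i : Fin 4) (hr : 2 * P.Rh < r) :
    (law p q).real (cev P (some (r, i, true))) = 1 := by
  have := law_isProb hp.le hq.le (show p + q ≤ 1 by linarith)
  have e : cev P (some (r, i, true)) = Set.univ := by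
    ext ω
    have h2 : ¬ r ≤ 2 * P.Rh := by omega
    simp [cev, h2]
  rw [e]
  simp

end TSB
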