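import Pool.Agent.TSB.Nucdec
import Pool.Agent.TSB.Nucpa

/-! Two-stage bootstrap percolation (MP_a5207b_pr), module NUCDOM: domination for the law
conditioned on the controlled nucleus. -/

open MeasureTheory
open scoped Classical

namespace TSB

private lemma ndm_lay_sd (i : Fin 4) (r : ℕ) (y : ℤ) (hy : |y| < r) : lay (sd i r y) = r := by
  have hr : |(r : ℤ)| = r := abs_of_nonneg (by positivity)
  fin_cases i <;> simp only [sd, lay, abs_neg, hr] <;> omega

private lemma ndm_lay_corner (i : Fin 4) (r : ℕ) : lay (corner i r) = r := by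
  have hr : |(r : ℤ)| = r := abs_of_nonneg (by positivity)
  fin_cases i <;> simp only [corner, lay, abs_neg, hr] <;> omega

private lemma ndm_sd_inj (i : Fin 4) (r : ℤ) : Function.Injective (sd i r) := by
  intro a b hab
  fin_cases i <;> simp_all [sd]

private lemma ndm_mem_cell {P : Par} {r : ℕ} {i : Fin 4} {x : Site} :
    x ∈ cell P (some (r, i, false)) ↔ ∃ y : ℤ, |y| < r ∧ x = sd i r y := by
  simp only [cell, Finset.mem_image, Finset.mem_Ioo]
  constructor
  · rintro ⟨y, ⟨h1, h2⟩, rfl⟩
    exact ⟨y, abs_lt.mpr ⟨h1, h2⟩, rfl⟩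
  · rintro ⟨y, h, rfl⟩
    exact ⟨y, abs_lt.mp h, rfl⟩

private lemma ndm_card_cell (P : Par) (r : ℕ) (i : Fin 4) (hr : 1 ≤ r) :
    (cell P (some (r, i, false))).card = 2 * r - 1 := by
  simp only [cell]
  rw [Finset.card_image_of_injective _ (ndm_sd_inj i r), Int.card_Ioo]
  omega

private lemma ndm_lay_cell {P : Par} {r : ℕ} {i : Fin 4} {b : Bool} {x : Site}
    (hx : x ∈ cell P (some (r, i, b))) : lay x = r := by
  cases b with
  | false =>
    obtain ⟨y, hy, rfl⟩ := ndm_mem_cell.mp hx
    exact ndm_lay_sd i r y hy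
  | true =>
    simp only [cell, Finset.mem_singleton] at hx
    rw [hx]
    exact ndm_lay_corner i r

/-- one two at `h`, no other two in `S`, no one in `Y` -/
private def ndmE (S : Finset Site) (h : Site) (Y : Finset Site) : Set Config :=
  {ω | ω h = 2 ∧ (∀ x ∈ S, x ≠ h → ω x ≠ 2) ∧ (∀ x ∈ Y, ω x ≠ 1)}

private lemma ndm_E_le {p q : ℝ} (hp : 0 ≤ p) (hq : 0 ≤ q) (hpq : p + q ≤ 1) (S : Finset Site)
    (h : Site) (hh : h ∈ S) (Y : Finset Site) (hY : Y ⊆ S) :
    (law p q).real (ndmE S h Y) ≤ q * (1 - q) ^ (S.card - 1) * (1 - p) ^ (Y.erase h).card := by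
  have hE : ndmE S h Y = {ω | ∀ x ∈ S, ω x ∈ (fun x => {v : Fin 3 | (x = h → v = 2) ∧
      (x ≠ h → v ≠ 2) ∧ (x ∈ Y → v ≠ 1)}) x} := by
    ext ω
    simp only [ndmE, Set.mem_ofPred_eq]
    constructor
    · rintro ⟨h1, h2, h3⟩ x hx
      refine ⟨?_, h2 x hx, h3 x⟩
      rintro rfl
      exact h1
    · intro H
      exact ⟨(H h hh).1 rfl, fun x hx => (H x hx).2.1, fun x hx => (H x (hY hx)).2.2 hx⟩
  rw [hE, law_sites hp hq hpq, ← Finset.mul_prod_erase S _ hh]
  have e1 : (siteLaw p q).real {v : Fin 3 | (h = h → v = 2) ∧ (h ≠ h → v ≠ 2) ∧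
      (h ∈ Y → v ≠ 1)} = q := by
    rw [siteLaw_real hp hq hpq]
    simp
  have e2 : ∏ x ∈ S.erase h, (siteLaw p q).real {v : Fin 3 | (x = h → v = 2) ∧ (x ≠ h → v ≠ 2) ∧
      (x ∈ Y → v ≠ 1)} ≤ (1 - q) ^ (S.card - 1) * (1 - p) ^ (Y.erase h).card := by
    have e3 : (1 - q) ^ (S.card - 1) * (1 - p) ^ (Y.erase h).card =
        ∏ x ∈ S.erase h, ((1 - q) * (if x ∈ Y then (1 - p) else 1)) := by
      rw [Finset.prod_mul_distrib, Finset.prod_const, Finset.card_erase_of_mem hh,
        Finset.prod_ite, Finset.prod_const, Finset.prod_const_one, mul_one]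
      congr 3
      ext x
      simp only [Finset.mem_erase, Finset.mem_filter]
      constructor
      · rintro ⟨h1, h2⟩
        exact ⟨⟨h1, hY h2⟩, h2⟩
      · rintro ⟨⟨h1, _⟩, h2⟩
        exact ⟨h1, h2⟩
    rw [e3]
    apply Finset.prod_le_prod
    · intro x _; exact measureReal_nonneg
    · intro x hx
      have hxh : x ≠ h := (Finset.mem_erase.mp hx).1
      rw [siteLaw_real hp hq hpq]
      by_cases hxY : x ∈ Y
      · simp only [hxh, hxY, Set.mem_ofPred_eq, false_implies, true_and, ne_eq, not_false_eq_true,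
          true_implies, if_true]
        simp
        nlinarith [mul_nonneg hp hq]
      · simp only [hxh, hxY, Set.mem_ofPred_eq, false_implies, true_and, ne_eq, not_false_eq_true,
          true_implies, if_false, and_true]
        simp
        linarith
  show (siteLaw p q).real {v : Fin 3 | (h = h → v = 2) ∧ (h ≠ h → v ≠ 2) ∧
      (h ∈ Y → v ≠ 1)} * _ ≤ _
  rw [e1, mul_assoc]
  exact mul_le_mul_of_nonneg_left e2 hq

private lemma ndm_bern {p : ℝ} (hp : 0 ≤ p) (hp1 : p ≤ 1) (y : ℕ) :
    (1 - p / 2) ^ y * (1 + y * (p / 2)) ≤ 1 := by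
  have h1 := one_add_mul_le_pow (show (-2 : ℝ) ≤ p / 2 by linarith) y
  calc (1 - p / 2) ^ y * (1 + y * (p / 2)) ≤ (1 - p / 2) ^ y * (1 + p / 2) ^ y := by
        apply mul_le_mul_of_nonneg_left h1
        apply pow_nonneg; linarith
    _ = ((1 - p / 2) * (1 + p / 2)) ^ y := by rw [mul_pow]
    _ ≤ 1 := by
        apply pow_le_one₀
        · nlinarith
        · nlinarith

private lemma ndm_sq {p : ℝ} (hp1 : p ≤ 1) (y : ℕ) :
    (1 - p) ^ y ≤ (1 - p / 2) ^ y * (1 - p / 2) ^ y := by
  rw [← mul_pow]
  apply pow_le_pow_left₀ (by linarith)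
  nlinarith [sq_nonneg p]

private lemma ndm_wt_nonneg {p q : ℝ} (hp : 0 ≤ p) (hq : 0 ≤ q) (hpq : p + q ≤ 1) (τ : Tri) :
    0 ≤ wt (2 * q) (1 - p / 2) (1 - q) τ := by
  have h1 : 0 ≤ 1 - p / 2 := by linarith
  have h2 : 0 ≤ 1 - q := by linarith
  unfold wt
  positivity

/-- the trivial case: no sites prescribed -/
private lemma ndm_trivial {p q : ℝ} (hp : 0 ≤ p) (hq : 0 ≤ q) (hpq : p + q ≤ 1) (E : Set Config)
    (τ : Tri) (h1 : τ.1 = ∅) (h2 : τ.2.1 = ∅) (h3 : τ.2.2 = ∅) :
    (law p q).real (E ∩ cyl τ) ≤ (law p q).real E * wt (2 * q) (1 - p / 2) (1 - q) τ := by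
  have := law_isProb hp hq hpq
  have : wt (2 * q) (1 - p / 2) (1 - q) τ = 1 := by
    unfold wt
    rw [h1, h2, h3]
    simp
  rw [this, mul_one]
  exact measureReal_mono Set.inter_subset_left

private lemma ndm_inner {P : Par} {p q : ℝ} (hp : 0 ≤ p) (hq : 0 ≤ q) (hpq : p + q ≤ 1) (r : ℕ)
    (i : Fin 4) (b : Bool) (hr : r ≤ P.Rh) : CellDom P p q (some (r, i, b)) := by
  intro τ _ h1 h2 h3 h4 h5
  apply ndm_trivial hp hq hpq
  · apply Finset.eq_empty_of_forall_notMem
    intro x hx
    have a := ndm_lay_cell (h1 hx)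
    have := h4 x (Finset.mem_union_left _ hx)
    omega
  · apply Finset.eq_empty_of_forall_notMem
    intro x hx
    have a := ndm_lay_cell (h2 hx)
    have := h4 x (Finset.mem_union_right _ hx)
    omega
  · apply Finset.eq_empty_of_forall_notMem
    intro x hx
    have a := ndm_lay_cell (h3 hx)
    have := h5 x hx
    omega

theorem celldom_side {p q : ℝ} (hp : 0 < p) (hq : 0 < q) (hp' : p ≤ 1 / 100) (hqp : q ≤ p ^ 2)
    (P : Par) (hP : P.Ok) (hRh : 20 ≤ q * P.Rh)
    (hw : 100 * ((P.Rh : ℝ)) ^ 2 * (1 - p) ^ (P.w - 1) ≤ p / 100)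
    (r : ℕ) (i : Fin 4) (hr : P.Rh < r) (hr' : r ≤ 2 * P.Rh) :
    CellDom P p q (some (r, i, false)) := by
  intro τ hτ h1 h2 h3 h4 h5
  have hq1 : q ≤ 1 / 10000 := by nlinarith
  have hpq : p + q ≤ 1 := by linarith
  have := law_isProb hp.le hq.le hpq
  have hj := hP.hj
  have hr2 := hP.hr2
  have hRr := hP.hRr
  have hq0 : 0 < 1 - q := by linarith
  have hp0 : 0 < 1 - p := by linarith
  have hX : τ.2.2 = ∅ := by
    apply Finset.eq_empty_of_forall_notMem
    intro x hx
    have a := ndm_lay_cell (h3 hx)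
    have := h5 x hx
    omega
  set S := cell P (some (r, i, false)) with hS
  have hcard : S.card - 1 = 2 * r - 2 := by
    rw [hS, ndm_card_cell P r i (by omega)]
    omega
  obtain ⟨Z, hZ, hZ1, hZ2, hZ3⟩ := zone_card (r := r) (by omega)
  set ρ : ℝ := (1 - p) ^ (P.w - 1) with hρ
  have hρ0 : 0 ≤ ρ := by positivity
  have hlow := cev_side3 hp hq (by linarith) P hP r i (by omega) hr' Z hZ
  rw [← hρ] at hlow
  set K : ℝ := (Z.card : ℝ) with hK
  have hrR : (P.Rh : ℝ) ≤ r := by exact_mod_cast hr.le
  have hrR' : (r : ℝ) ≤ 2 * P.Rh := by exact_mod_cast hr'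
  have hRh1 : (1 : ℝ) ≤ P.Rh := by
    have : 1 ≤ P.Rh := by omega
    exact_mod_cast this
  have hKq : 19 / 10 ≤ K * q := by
    have : (P.Rh : ℝ) / 10 - 1 ≤ K := by linarith
    have h6 : ((P.Rh : ℝ) / 10 - 1) * q ≤ K * q := by gcongr
    nlinarith
  have hK100 : 100 ≤ K := by nlinarith
  set ε : ℝ := 2 * r * ρ with hε
  have hε0 : 0 ≤ ε := by positivity
  have hε1 : ε ≤ p / 100 := by
    have h6 : ε ≤ 4 * P.Rh * ρ := by rw [hε]; nlinarith
    have h7 : (4 : ℝ) * P.Rh * ρ ≤ 100 * (P.Rh : ℝ) ^ 2 * ρ := by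
      have : (4 : ℝ) * P.Rh ≤ 100 * (P.Rh : ℝ) ^ 2 := by nlinarith
      gcongr
    linarith
  set B : ℝ := q * (1 - q) ^ (2 * r - 2) with hB
  have hB0 : 0 ≤ B := by positivity
  have hlow' : K * B * (1 - ε) ≤ (law p q).real (cev P (some (r, i, false))) := by
    have : K * B * (1 - ε) = K * q * (1 - q) ^ (2 * r - 2) * (1 - ε) := by rw [hB]; ring
    rw [this]
    exact hlow
  have hwt : 0 ≤ wt (2 * q) (1 - p / 2) (1 - q) τ := ndm_wt_nonneg hp.le hq.le hpq τ
  have hwt' : wt (2 * q) (1 - p / 2) (1 - q) τ =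
      (2 * q) ^ τ.1.card * (1 - p / 2) ^ τ.2.1.card := by
    unfold wt
    rw [hX]
    simp
  -- the event
  have hsub : ∀ ω ∈ cev P (some (r, i, false)), ∃ h ∈ Z, ω (sd i r h) = 2 ∧
      ∀ x ∈ S, x ≠ sd i r h → ω x ≠ 2 := by
    intro ω hω
    obtain ⟨h, hz, h2, hne, _⟩ := (show r ≤ 2 * P.Rh → ω ∈ sideEv P r i from hω.1) hr'
    refine ⟨h, (hZ h).mpr hz, h2, ?_⟩
    intro x hx hxh
    obtain ⟨y, hy, rfl⟩ := ndm_mem_cell.mp hx
    exact hne y hy (fun e => hxh (by rw [e]))
  have hp2 : 0 ≤ 1 - p / 2 := by linarith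
  rcases Nat.lt_or_ge 1 τ.1.card with hc | hc
  · -- two different twos
    have : cev P (some (r, i, false)) ∩ cyl τ = ∅ := by
      apply Set.eq_empty_of_forall_notMem
      rintro ω ⟨hω, hcy⟩
      obtain ⟨h, -, -, hne⟩ := hsub ω hω
      obtain ⟨a, ha, b, hb, hab⟩ := Finset.one_lt_card.mp hc
      have ha2 := hcy.1 a ha
      have hb2 := hcy.1 b hb
      have ea : a = sd i r h := by
        by_contra hcon
        exact hne a (h1 ha) hcon ha2
      have eb : b = sd i r h := by
        by_contra hcon
        exact hne b (h1 hb) hcon hb2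
      exact hab (ea.trans eb.symm)
    rw [this]
    simp only [measureReal_empty]
    exact mul_nonneg measureReal_nonneg hwt
  · rcases Nat.eq_zero_or_pos τ.1.card with h0 | h0
    · -- no two prescribed
      rcases Nat.eq_zero_or_pos τ.2.1.card with hy0 | hy0
      · exact ndm_trivial hp.le hq.le hpq _ τ (Finset.card_eq_zero.mp h0)
          (Finset.card_eq_zero.mp hy0) hX
      · have step1 : (law p q).real (cev P (some (r, i, false)) ∩ cyl τ) ≤
            ∑ h ∈ Z, (law p q).real (ndmE S (sd i r h) τ.2.1) := by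
          refine le_trans (measureReal_mono ?_ (measure_ne_top _ _))
            (measureReal_biUnion_finset_le Z (fun h => ndmE S (sd i r h) τ.2.1))
          rintro ω ⟨hω, hcy⟩
          obtain ⟨h, hz, h2, hne⟩ := hsub ω hω
          simp only [Set.mem_iUnion]
          exact ⟨h, hz, h2, hne, hcy.2.1⟩
        set y := τ.2.1.card with hy
        have step2 : (1 - p) * ∑ h ∈ Z, (law p q).real (ndmE S (sd i r h) τ.2.1) ≤
            B * ((1 - p) ^ y * (K * (1 - p) + p * y)) := by
          rw [Finset.mul_sum]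
          have hterm : ∀ h ∈ Z, (1 - p) * (law p q).real (ndmE S (sd i r h) τ.2.1) ≤
              B * ((1 - p) ^ y * ((1 - p) + if sd i r h ∈ τ.2.1 then p else 0)) := by
            intro h hz
            have hm : sd i r h ∈ S := ndm_mem_cell.mpr ⟨h, hZ3 h hz, rfl⟩
            have := ndm_E_le hp.le hq.le hpq S (sd i r h) hm τ.2.1 h2
            rw [hcard] at this
            by_cases hmem : sd i r h ∈ τ.2.1
            · rw [if_pos hmem]
              have hc2 : (τ.2.1.erase (sd i r h)).card + 1 = y :=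
                Finset.card_erase_add_one hmem
              calc (1 - p) * (law p q).real (ndmE S (sd i r h) τ.2.1)
                  ≤ (1 - p) * (B * (1 - p) ^ (τ.2.1.erase (sd i r h)).card) := by
                    apply mul_le_mul_of_nonneg_left this hp0.le
                _ = B * ((1 - p) ^ y * ((1 - p) + p)) := by
                    rw [← hc2, pow_succ]; ring
            · rw [if_neg hmem]
              have hc2 : (τ.2.1.erase (sd i r h)).card = y := by
                rw [Finset.erase_eq_of_notMem hmem]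
              calc (1 - p) * (law p q).real (ndmE S (sd i r h) τ.2.1)
                  ≤ (1 - p) * (B * (1 - p) ^ (τ.2.1.erase (sd i r h)).card) := by
                    apply mul_le_mul_of_nonneg_left this hp0.le
                _ = B * ((1 - p) ^ y * ((1 - p) + 0)) := by
                    rw [hc2]; ring
          refine le_trans (Finset.sum_le_sum hterm) ?_
          rw [← Finset.mul_sum, ← Finset.mul_sum, Finset.sum_add_distrib]
          apply mul_le_mul_of_nonneg_left _ hB0
          apply mul_le_mul_of_nonneg_left _ (by positivity)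
          have : (∑ h ∈ Z, if sd i r h ∈ τ.2.1 then p else 0) ≤ p * y := by
            rw [← Finset.sum_filter, Finset.sum_const, nsmul_eq_mul, mul_comm]
            apply mul_le_mul_of_nonneg_left _ hp.le
            have : (Z.filter (fun h => sd i r h ∈ τ.2.1)).card ≤ y := by
              apply Finset.card_le_card_of_injOn (sd i r)
              · intro h hh
                simp only [Finset.coe_filter, Set.mem_ofPred_eq] at hh
                exact hh.2
              · exact (ndm_sd_inj i r).injOn
            exact_mod_cast this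
          simp only [Finset.sum_const, nsmul_eq_mul]
          linarith
        have step3 : (1 - p) ^ y * (K * (1 - p) + p * y) ≤
            (1 - p) * (K * (1 - ε) * (1 - p / 2) ^ y) := by
          have hb := ndm_bern hp.le (by linarith) y
          have hs := ndm_sq (p := p) (by linarith) y
          have hy1 : (1 : ℝ) ≤ y := by exact_mod_cast hy0
          have hKy : K * ε ≤ K * y * p / 100 := by
            have a1 : K * ε ≤ K * (p / 100) := by gcongr
            have a2 : K * (p / 100) * 1 ≤ K * (p / 100) * y := by gcongr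
            linarith
          have hpy : p * y ≤ K * y * p / 100 := by
            have : 100 * (y * p) ≤ K * (y * p) := by gcongr
            linarith
          have main : K * (1 - p) + p * y ≤ K * (1 - ε) * (1 - p) * (1 + y * (p / 2)) := by
            have a1 : K * (1 - p) * ε ≤ K * ε := by
              have : K * ε * (1 - p) ≤ K * ε * 1 := by
                apply mul_le_mul_of_nonneg_left (by linarith) (by positivity)
              linarith
            have a2 : 49 / 100 * (K * y * p) ≤ K * (1 - ε) * (1 - p) * (y * (p / 2)) := by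
              have a3 : (98 : ℝ) / 100 ≤ (1 - ε) * (1 - p) := by nlinarith
              have : K * (1 - ε) * (1 - p) * (y * (p / 2)) =
                  (1 - ε) * (1 - p) * (K * y * p / 2) := by ring
              rw [this]
              have a4 : 0 ≤ K * y * p / 2 := by positivity
              nlinarith
            have e : K * (1 - ε) * (1 - p) * (1 + y * (p / 2)) =
              K * (1 - p) - K * (1 - p) * ε + K * (1 - ε) * (1 - p) * (y * (p / 2)) := by ring
            rw [e]
            have a5 : 0 ≤ K * y * p := by positivity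
            linarith
          have hpy0 : 0 ≤ K * (1 - p) + p * y := by positivity
          have hpw : 0 ≤ (1 - p / 2) ^ y := by positivity
          have h1ε : 0 ≤ 1 - ε := by linarith
          calc (1 - p) ^ y * (K * (1 - p) + p * y)
              ≤ ((1 - p / 2) ^ y * (1 - p / 2) ^ y) * (K * (1 - p) + p * y) := by gcongr
            _ ≤ ((1 - p / 2) ^ y * (1 - p / 2) ^ y) *
                (K * (1 - ε) * (1 - p) * (1 + y * (p / 2))) := by gcongr
            _ = ((1 - p / 2) ^ y * (1 + y * (p / 2))) *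
                ((1 - p) * (K * (1 - ε) * (1 - p / 2) ^ y)) := by ring
            _ ≤ 1 * ((1 - p) * (K * (1 - ε) * (1 - p / 2) ^ y)) := by
                apply mul_le_mul_of_nonneg_right hb
                positivity
            _ = _ := by ring
        rw [hwt', h0]
        have step4 : (1 - p) * (law p q).real (cev P (some (r, i, false)) ∩ cyl τ) ≤
            (1 - p) * ((law p q).real (cev P (some (r, i, false))) * (1 - p / 2) ^ y) := by
          calc (1 - p) * (law p q).real (cev P (some (r, i, false)) ∩ cyl τ)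
              ≤ (1 - p) * ∑ h ∈ Z, (law p q).real (ndmE S (sd i r h) τ.2.1) := by gcongr
            _ ≤ B * ((1 - p) ^ y * (K * (1 - p) + p * y)) := step2
            _ ≤ B * ((1 - p) * (K * (1 - ε) * (1 - p / 2) ^ y)) := by gcongr
            _ = (1 - p) * ((K * B * (1 - ε)) * (1 - p / 2) ^ y) := by ring
            _ ≤ _ := by gcongr
        have := le_of_mul_le_mul_left step4 hp0
        simpa using this
    · -- one two prescribed
      have hc1 : τ.1.card = 1 := by omega
      obtain ⟨a, ha⟩ := Finset.card_eq_one.mp hc1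
      have ham : a ∈ τ.1 := by rw [ha]; exact Finset.mem_singleton_self a
      have haS : a ∈ S := h1 ham
      have hsub2 : cev P (some (r, i, false)) ∩ cyl τ ⊆ ndmE S a τ.2.1 := by
        rintro ω ⟨hω, hcy⟩
        obtain ⟨h, -, h2', hne⟩ := hsub ω hω
        have ea : a = sd i r h := by
          by_contra hcon
          exact hne a haS hcon (hcy.1 a ham)
        refine ⟨hcy.1 a ham, ?_, hcy.2.1⟩
        intro x hx hxa
        rw [ea] at hxa
        exact hne x hx hxa
      have haY : a ∉ τ.2.1 := Finset.disjoint_left.mp hτ.1 ham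
      have hle := ndm_E_le hp.le hq.le hpq S a haS τ.2.1 h2
      rw [hcard, Finset.erase_eq_of_notMem haY] at hle
      have hle2 : (law p q).real (cev P (some (r, i, false)) ∩ cyl τ) ≤
          B * (1 - p) ^ τ.2.1.card := (measureReal_mono hsub2 (measure_ne_top _ _)).trans hle
      rw [hwt', hc1, pow_one]
      set y := τ.2.1.card with hy
      have hpow : (1 - p) ^ y ≤ (1 - p / 2) ^ y := pow_le_pow_left₀ hp0.le (by linarith) y
      have hone : 1 ≤ K * (1 - ε) * (2 * q) := by
        have : K * (1 - ε) * (2 * q) = 2 * (K * q) * (1 - ε) := by ring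
        rw [this]
        nlinarith
      calc (law p q).real (cev P (some (r, i, false)) ∩ cyl τ)
          ≤ B * (1 - p) ^ y := hle2
        _ ≤ B * (1 - p / 2) ^ y := by gcongr
        _ = 1 * (B * (1 - p / 2) ^ y) := by ring
        _ ≤ (K * (1 - ε) * (2 * q)) * (B * (1 - p / 2) ^ y) := by gcongr
        _ = (K * B * (1 - ε)) * ((2 * q) * (1 - p / 2) ^ y) := by ring
        _ ≤ _ := by gcongr

theorem celldom_corner {p q : ℝ} (hp : 0 < p) (hq : 0 < q) (hp' : p ≤ 1 / 100) (hqp : q ≤ p ^ 2)
    (P : Par) (hP : P.Ok) (r : ℕ) (i : Fin 4) (hr : P.Rh < r) :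
    CellDom P p q (some (r, i, true)) := by
  intro τ hτ h1 h2 h3 h4 h5
  have hq1 : q ≤ 1 / 10000 := by nlinarith
  have hpq : p + q ≤ 1 := by linarith
  have := law_isProb hp.le hq.le hpq
  have hj := hP.hj
  have hr2 := hP.hr2
  have hRr := hP.hRr
  have hwt : 0 ≤ wt (2 * q) (1 - p / 2) (1 - q) τ := ndm_wt_nonneg hp.le hq.le hpq τ
  have hU : ∀ ω : Config, ω ∈ (Set.univ : Set Config) := fun _ => trivial
  rcases Nat.lt_or_ge (2 * P.Rh) r with hlt | hge
  · have hcev : cev P (some (r, i, true)) = Set.univ := by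
      apply Set.eq_univ_of_forall
      intro ω hle
      omega
    rw [hcev]
    have h6 : (law p q).real (Set.univ : Set Config) = 1 := by simp
    rw [h6, one_mul, Set.univ_inter]
    exact law_dom hp.le hq.le hpq τ hτ (Set.subset_univ _) (Set.subset_univ _)
      (Set.subset_univ _)
  · have hX : τ.2.2 = ∅ := by
      apply Finset.eq_empty_of_forall_notMem
      intro x hx
      have a := ndm_lay_cell (h3 hx)
      have := h5 x hx
      omega
    rcases Finset.eq_empty_or_nonempty τ.1 with hz | ⟨a, ha⟩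
    · rcases Finset.eq_empty_or_nonempty τ.2.1 with hy | ⟨b, hb⟩
      · exact ndm_trivial hp.le hq.le hpq _ τ hz hy hX
      · have hb' : b = corner i r := by simpa [cell] using h2 hb
        have hy1 : τ.2.1 = {corner i r} := by
          apply Finset.Subset.antisymm h2
          show ({corner i r} : Finset Site) ⊆ τ.2.1
          rw [Finset.singleton_subset_iff, ← hb']
          exact hb
        rw [cev_corner2 hp hq (by linarith) P hP r i (by omega) hge]
        have hsub : cev P (some (r, i, true)) ∩ cyl τ ⊆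
            {ω | ∀ x ∈ ({corner i r} : Finset Site), ω x ∈ (fun _ => ({0} : Set (Fin 3))) x} := by
          rintro ω ⟨hω, hcy⟩ x hx
          rw [Finset.mem_singleton] at hx
          subst hx
          have a1 := (hω hge).1
          have a2 := hcy.2.1 (corner i r) (by rw [hy1]; simp)
          simp only [Set.mem_singleton_iff]
          generalize ω (corner i r) = v at a1 a2
          fin_cases v <;> simp_all
        refine (measureReal_mono hsub (measure_ne_top _ _)).trans ?_
        rw [law_sites hp.le hq.le hpq, Finset.prod_singleton, siteLaw_real hp.le hq.le hpq]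
        unfold wt
        rw [hz, hX, hy1]
        simp
        nlinarith
    · have : cev P (some (r, i, true)) ∩ cyl τ = ∅ := by
        apply Set.eq_empty_of_forall_notMem
        rintro ω ⟨hω, hcy⟩
        have ha' : a = corner i r := by simpa [cell] using h1 ha
        have a1 := (hω hge).1
        have a2 := hcy.1 a ha
        rw [ha'] at a2
        exact a1 a2
      rw [this]
      simp only [measureReal_empty]
      exact mul_nonneg measureReal_nonneg hwt

private lemma ndm_depOn_outer (P : Par) (r : ℕ) (i : Fin 4) (hr : 2 * P.Rh < r) :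
    DepOn (cev P (some (r, i, false))) (cell P (some (r, i, false))) := by
  have key : ∀ ω ω' : Config, (∀ x ∈ cell P (some (r, i, false)), ω x = ω' x) →
      ω ∈ cev P (some (r, i, false)) → ω' ∈ cev P (some (r, i, false)) := by
    intro ω ω' he hω
    obtain ⟨y, hy, h2⟩ := hω.2 hr
    refine ⟨fun hle => by omega, fun _ => ⟨y, hy, ?_⟩⟩
    rw [← he _ (ndm_mem_cell.mpr ⟨y, hy, rfl⟩)]
    exact h2
  intro ω ω' he
  exact ⟨key ω ω' he, key ω' ω (fun x hx => (he x hx).symm)⟩

theorem celldom_outer {p q : ℝ} (hp : 0 < p) (hq : 0 < q) (hp' : p ≤ 1 / 100) (hqp : q ≤ p ^ 2)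
    (P : Par) (hP : P.Ok) (hRh : 20 ≤ q * P.Rh) (r : ℕ) (i : Fin 4) (hr : 2 * P.Rh < r) :
    CellDom P p q (some (r, i, false)) := by
  intro τ hτ h1 h2 h3 h4 h5
  have hq1 : q ≤ 1 / 10000 := by nlinarith
  have hpq : p + q ≤ 1 := by linarith
  have := law_isProb hp.le hq.le hpq
  have hq0 : 0 < 1 - q := by linarith
  have hp0 : 0 < 1 - p := by linarith
  have hwt : 0 ≤ wt (2 * q) (1 - p / 2) (1 - q) τ := ndm_wt_nonneg hp.le hq.le hpq τ
  rw [cev_side4 hp hq (by linarith) P hP r i hr]
  set S := cell P (some (r, i, false)) with hS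
  have hcard : S.card = 2 * r - 1 := ndm_card_cell P r i (by omega)
  set n := 2 * r - 1 with hn
  set c : ℝ := (1 - q) ^ n with hc
  have hc0 : 0 ≤ c := by positivity
  have hc2 : c ≤ 1 / 2 := by
    have h6 := one_add_mul_le_pow (show (-2 : ℝ) ≤ q by linarith) n
    have h7 : c * (1 + q) ^ n ≤ 1 := by
      rw [hc, ← mul_pow]
      apply pow_le_one₀ <;> nlinarith
    have h8 : (P.Rh : ℝ) ≤ n := by
      have : P.Rh ≤ n := by omega
      exact_mod_cast this
    have h9 : 20 ≤ (n : ℝ) * q := by nlinarith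
    have h10 : c * 21 ≤ c * (1 + q) ^ n := by
      apply mul_le_mul_of_nonneg_left _ hc0
      linarith
    linarith
  set y := τ.2.1.card with hy
  set x := τ.2.2.card with hx
  rcases Nat.eq_zero_or_pos τ.1.card with h0 | h0
  · -- no two prescribed
    have hz : τ.1 = ∅ := Finset.card_eq_zero.mp h0
    have hcyl : (law p q).real (cyl τ) = (1 - p) ^ y * (1 - q) ^ x := by
      rw [law_cyl hp.le hq.le hpq τ hτ]
      unfold wt
      rw [h0]
      ring
    -- the complement
    have hcomp : (law p q).real (cyl τ \ cev P (some (r, i, false))) =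
        (1 - q) ^ (n - y) * (1 - p - q) ^ y := by
      have hE : cyl τ \ cev P (some (r, i, false)) = {ω | ∀ z ∈ S, ω z ∈ (fun z => {v : Fin 3 |
          v ≠ 2 ∧ (z ∈ τ.2.1 → v ≠ 1)}) z} := by
        ext ω
        simp only [Set.mem_sdiff, Set.mem_ofPred_eq]
        constructor
        · rintro ⟨hcy, hnot⟩ z hz'
          refine ⟨?_, hcy.2.1 z⟩
          intro h2z
          apply hnot
          obtain ⟨y', hy', rfl⟩ := ndm_mem_cell.mp hz'
          exact ⟨fun hle => by omega, fun _ => ⟨y', hy', h2z⟩⟩
        · intro H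
          refine ⟨⟨?_, ?_, ?_⟩, ?_⟩
          · intro z hz'
            rw [hz] at hz'
            simp at hz'
          · intro z hz'
            exact (H z (h2 hz')).2 hz'
          · intro z hz'
            exact (H z (h3 hz')).1
          · intro hω
            obtain ⟨y', hy', h2y⟩ := hω.2 hr
            exact (H (sd i r y') (ndm_mem_cell.mpr ⟨y', hy', rfl⟩)).1 h2y
      rw [hE, law_sites hp.le hq.le hpq]
      have e3 : ∏ z ∈ S, (siteLaw p q).real {v : Fin 3 | v ≠ 2 ∧ (z ∈ τ.2.1 → v ≠ 1)} =
          ∏ z ∈ S, (if z ∈ τ.2.1 then (1 - p - q) else (1 - q)) := by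
        apply Finset.prod_congr rfl
        intro z _
        rw [siteLaw_real hp.le hq.le hpq]
        by_cases hzY : z ∈ τ.2.1
        · simp [hzY]
        · simp [hzY]
          ring
      rw [e3, Finset.prod_ite, Finset.prod_const, Finset.prod_const, mul_comm]
      have e4 : S.filter (fun z => z ∈ τ.2.1) = τ.2.1 := by
        ext z
        simp only [Finset.mem_filter]
        exact ⟨fun h => h.2, fun h => ⟨h2 h, h⟩⟩
      have e5 : (S.filter (fun z => z ∉ τ.2.1)).card = n - y := by
        have := Finset.card_filter_add_card_filter_not (s := S) (fun z => z ∈ τ.2.1)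
        rw [e4, hcard] at this
        omega
      rw [e4, e5]
    have hyn : y ≤ n := by
      rw [hy, ← hcard]
      exact Finset.card_le_card h2
    have hinter : (law p q).real (cev P (some (r, i, false)) ∩ cyl τ) =
        (1 - p) ^ y * (1 - q) ^ x - (1 - q) ^ (n - y) * (1 - p - q) ^ y := by
      have hmeas : MeasurableSet (cev P (some (r, i, false))) :=
        depOn_measurable (ndm_depOn_outer P r i hr)
      have := measureReal_inter_add_sdiff (μ := law p q) (s := cyl τ) hmeas (measure_ne_top _ _)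
      rw [hcyl, hcomp, Set.inter_comm] at this
      linarith
    rw [hinter]
    have hwt' : wt (2 * q) (1 - p / 2) (1 - q) τ = (1 - p / 2) ^ y * (1 - q) ^ x := by
      unfold wt
      rw [h0]
      ring
    rw [hwt']
    have hx1 : (1 - q) ^ x ≤ 1 := pow_le_one₀ hq0.le (by linarith)
    have hx0 : 0 ≤ (1 - q) ^ x := by positivity
    set u : ℝ := (1 - 2 * p * q) ^ y with hu
    have hpq2 : 2 * p * q ≤ 1 := by nlinarith
    have hu0 : 0 ≤ u := by
      apply pow_nonneg; linarith
    have hu1 : 1 - 2 * p * q * y ≤ u := by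
      have := one_add_mul_le_pow (show (-2 : ℝ) ≤ -(2 * p * q) by linarith) y
      have e : (1 + -(2 * p * q)) = 1 - 2 * p * q := by ring
      rw [e] at this
      rw [hu]
      linarith
    have hlow : (1 - p) ^ y * (c * u) ≤ (1 - q) ^ (n - y) * (1 - p - q) ^ y := by
      have e : c = (1 - q) ^ (n - y) * (1 - q) ^ y := by
        rw [hc, ← pow_add]; congr 1; omega
      rw [e, hu]
      have : (1 - p) ^ y * ((1 - q) ^ (n - y) * (1 - q) ^ y * (1 - 2 * p * q) ^ y) =
          (1 - q) ^ (n - y) * ((1 - p) * (1 - q) * (1 - 2 * p * q)) ^ y := by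
        rw [mul_pow, mul_pow]; ring
      rw [this]
      apply mul_le_mul_of_nonneg_left _ (by positivity)
      apply pow_le_pow_left₀
      · apply mul_nonneg (by positivity); linarith
      · have h7 : (1 : ℝ) / 2 ≤ (1 - p) * (1 - q) := by nlinarith
        have h8 : p * q ≤ (1 - p) * (1 - q) * (2 * p * q) := by
          have : 0 ≤ p * q := by positivity
          nlinarith
        nlinarith
    have hb := ndm_bern hp.le (by linarith) y
    have hs := ndm_sq (p := p) (by linarith) y
    have hpw : 0 ≤ (1 - p / 2) ^ y := by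
      apply pow_nonneg; linarith
    have key : (1 - p / 2) ^ y * (1 - c * u) ≤ 1 - c := by
      have a1 : 1 - c * u ≤ (1 - c) * (1 + y * (p / 2)) := by
        have a2 : c * (1 - u) ≤ c * (2 * p * q * y) := by
          apply mul_le_mul_of_nonneg_left _ hc0; linarith
        have a3 : c * (2 * p * q * y) ≤ (1 - c) * (y * (p / 2)) := by
          have a4 : c * (4 * q) ≤ 1 - c := by nlinarith
          have a5 : 0 ≤ (y : ℝ) * (p / 2) := by positivity
          have : c * (2 * p * q * y) = (c * (4 * q)) * (y * (p / 2)) := by ring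
          rw [this]
          exact mul_le_mul_of_nonneg_right a4 a5
        linarith
      calc (1 - p / 2) ^ y * (1 - c * u) ≤ (1 - p / 2) ^ y * ((1 - c) * (1 + y * (p / 2))) := by
            gcongr
        _ = ((1 - p / 2) ^ y * (1 + y * (p / 2))) * (1 - c) := by ring
        _ ≤ 1 * (1 - c) := by
            apply mul_le_mul_of_nonneg_right hb; linarith
        _ = 1 - c := one_mul _
    have hu1' : u ≤ 1 := by
      rw [hu]
      apply pow_le_one₀
      · linarith
      · have : 0 ≤ p * q := by positivity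
        linarith
    have hcu : 0 ≤ 1 - c * u := by nlinarith
    calc (1 - p) ^ y * (1 - q) ^ x - (1 - q) ^ (n - y) * (1 - p - q) ^ y
        ≤ (1 - p) ^ y * (1 - q) ^ x - (1 - p) ^ y * (c * u) := by linarith
      _ ≤ (1 - p) ^ y * ((1 - q) ^ x * (1 - c * u)) := by
          have a1 : c * u * (1 - q) ^ x ≤ c * u := by
            have : 0 ≤ c * u := by positivity
            nlinarith
          have a2 : 0 ≤ (1 - p) ^ y := by positivity
          nlinarith
      _ ≤ ((1 - p / 2) ^ y * (1 - p / 2) ^ y) * ((1 - q) ^ x * (1 - c * u)) := by gcongr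
      _ = ((1 - p / 2) ^ y * (1 - c * u)) * ((1 - p / 2) ^ y * (1 - q) ^ x) := by ring
      _ ≤ (1 - c) * ((1 - p / 2) ^ y * (1 - q) ^ x) := by
          apply mul_le_mul_of_nonneg_right key; positivity
  · -- at least one two prescribed
    have hle : (law p q).real (cev P (some (r, i, false)) ∩ cyl τ) ≤
        (law p q).real (cyl τ) := measureReal_mono Set.inter_subset_right (measure_ne_top _ _)
    rw [law_cyl hp.le hq.le hpq τ hτ] at hle
    refine hle.trans ?_
    unfold wt
    have hpow : (1 - p) ^ y ≤ (1 - p / 2) ^ y := pow_le_pow_left₀ hp0.le (by linarith) y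
    have h2z : (2 : ℝ) ≤ 2 ^ τ.1.card := by
      calc (2 : ℝ) = 2 ^ 1 := by norm_num
        _ ≤ 2 ^ τ.1.card := pow_le_pow_right₀ (by norm_num) h0
    have h12 : 1 ≤ (1 - c) * 2 ^ τ.1.card := by nlinarith
    have hpw : 0 ≤ (1 - p / 2) ^ y := by
      apply pow_nonneg; linarith
    calc q ^ τ.1.card * (1 - p) ^ y * (1 - q) ^ x
        ≤ q ^ τ.1.card * (1 - p / 2) ^ y * (1 - q) ^ x := by gcongr
      _ = 1 * (q ^ τ.1.card * (1 - p / 2) ^ y * (1 - q) ^ x) := by ring
      _ ≤ ((1 - c) * 2 ^ τ.1.card) * (q ^ τ.1.card * (1 - p / 2) ^ y * (1 - q) ^ x) := by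
          gcongr
      _ = (1 - c) * ((2 * q) ^ τ.1.card * (1 - p / 2) ^ y * (1 - q) ^ x) := by
          rw [mul_pow]; ring

theorem nuc_dom {p q : ℝ} (hp : 0 < p) (hq : 0 < q) (hp' : p ≤ 1 / 100) (hqp : q ≤ p ^ 2)
    (P : Par) (hP : P.Ok) (hRh : 20 ≤ q * P.Rh)
    (hw : 100 * ((P.Rh : ℝ)) ^ 2 * (1 - p) ^ (P.w - 1) ≤ p / 100) (hN : 0 < (law p q).real (Nev P)) :
    Dom (ProbabilityTheory.cond (law p q) (Nev P)) (2 * q) (1 - p / 2) (1 - q)
      {x | (P.Rh : ℤ) < lay x} {x | 2 * (P.Rh : ℤ) < lay x} := by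
  have hq1 : q ≤ 1 / 10000 := by nlinarith
  have hpq : p + q ≤ 1 := by linarith
  apply nev_dom hp.le hq.le hpq P hP hN
  intro c hc
  cases c with
  | none =>
    intro τ _ h1 h2 h3 h4 h5
    have hcore : ∀ x ∈ cell P none, lay x ≤ P.Rh := by
      intro x hx
      simp only [cell, Finset.mem_Icc, Prod.le_def] at hx
      have := hP.hj
      have := hP.hr2
      have := hP.hRr
      unfold lay
      obtain ⟨⟨a1, a2⟩, ⟨a3, a4⟩⟩ := hx
      rw [max_le_iff]
      constructor <;> rw [abs_le] <;> constructor <;> omega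
    apply ndm_trivial hp.le hq.le hpq
    · apply Finset.eq_empty_of_forall_notMem
      intro x hx
      have a := hcore x (h1 hx)
      have := h4 x (Finset.mem_union_left _ hx)
      omega
    · apply Finset.eq_empty_of_forall_notMem
      intro x hx
      have a := hcore x (h2 hx)
      have := h4 x (Finset.mem_union_right _ hx)
      omega
    · apply Finset.eq_empty_of_forall_notMem
      intro x hx
      have a := hcore x (h3 hx)
      have := h5 x hx
      omega
  | some c =>
    obtain ⟨r, i, b⟩ := c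
    rcases Nat.lt_or_ge P.Rh r with hr | hr
    · cases b with
      | true => exact celldom_corner hp hq hp' hqp P hP r i hr
      | false =>
        rcases Nat.lt_or_ge (2 * P.Rh) r with hr2 | hr2
        · exact celldom_outer hp hq hp' hqp P hP hRh r i hr2
        · exact celldom_side hp hq hp' hqp P hP hRh hw r i hr hr2
    · exact ndm_inner hp.le hq.le hpq r i b hr

end TSB
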