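import Pool.Agent.TSB.Nucdec
import Pool.Agent.TSB.Nucpa

/-! Two-stage bootstrap percolation (MP_a5207b_pr), module NUCPB: lower bound for the probability
of the controlled nucleus. -/

open MeasureTheory
open scoped Classical

namespace TSB

/-- the product over the cells of one layer -/
private noncomputable def nucpbG (P : Par) (p q : ℝ) (r : ℕ) : ℝ :=
  ∏ i : Fin 4, ((law p q).real (cev P (some (r, i, false))) *
    (law p q).real (cev P (some (r, i, true))))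

private lemma nucpb_prod (P : Par) (p q : ℝ) :
    ∏ c ∈ cidx P, (law p q).real (cev P c) =
      (law p q).real (cev P none) * ∏ r ∈ Finset.Icc (P.j0 + 1) P.W, nucpbG P p q r := by
  unfold cidx nucpbG
  rw [Finset.prod_insertNone, Finset.prod_product]
  congr 1
  apply Finset.prod_congr rfl
  intro r _
  rw [Finset.prod_product]
  apply Finset.prod_congr rfl
  intro i _
  rw [Fintype.prod_bool, mul_comm]

private lemma nucpb_pow4 {P : Par} {p q : ℝ} {r : ℕ} {a b : ℝ} (ha : 0 ≤ a) (hb : 0 ≤ b)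
    (h1 : ∀ i, a ≤ (law p q).real (cev P (some (r, i, false))))
    (h2 : ∀ i, b ≤ (law p q).real (cev P (some (r, i, true)))) :
    (a * b) ^ 4 ≤ nucpbG P p q r := by
  unfold nucpbG
  have : (a * b) ^ 4 = ∏ _i : Fin 4, (a * b) := by simp
  rw [this]
  apply Finset.prod_le_prod
  · intro i _; positivity
  · intro i _
    exact mul_le_mul (h1 i) (h2 i) hb (ha.trans (h1 i))

private noncomputable def nucpbA (q : ℝ) (r : ℕ) : ℝ := (r : ℝ) / 20 * q * (1 - q) ^ (2 * r)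

private lemma nucpb_sum1 (j : ℕ) (hj : 2 ≤ j) :
    ∑ r ∈ Finset.Ico (j + 1) (4 * j + 1), (8 * r + 4) ≤ (8 * j + 1) ^ 2 := by
  have h : ∀ n : ℕ, ∑ r ∈ Finset.range (n + 1), (8 * r + 4) = 4 * (n + 1) ^ 2 := by
    intro n
    induction n with
    | zero => simp
    | succ n ih => rw [Finset.sum_range_succ, ih]; ring
  have hs := Finset.sum_range_add_sum_Ico (fun r => 8 * r + 4) (show j + 1 ≤ 4 * j + 1 by omega)
  rw [h (4 * j), h j] at hs
  have : 4 * (4 * j + 1) ^ 2 ≤ (8 * j + 1) ^ 2 + 4 * (j + 1) ^ 2 := by nlinarith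
  omega

private lemma nucpb_sum2 (j r2 g1 : ℕ) (hg : 8 ≤ g1) :
    ∑ r ∈ Finset.Ico (4 * j + 1) (r2 + 1), (4 * (2 * r / (g1 / 2) + 1)) ≤
      64 * (r2 + 1) ^ 2 / g1 + 64 * r2 := by
  have h1 : ∑ r ∈ Finset.Ico (4 * j + 1) (r2 + 1), (4 * (2 * r / (g1 / 2) + 1)) ≤
      ∑ r ∈ Finset.Ico 1 (r2 + 1), (4 * (2 * r / (g1 / 2) + 1)) := by
    apply Finset.sum_le_sum_of_subset
    intro x hx
    simp only [Finset.mem_Ico] at hx ⊢
    omega
  have h2 : ∑ r ∈ Finset.Ico 1 (r2 + 1), (4 * (2 * r / (g1 / 2) + 1)) =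
      ∑ r ∈ Finset.Ico 1 (r2 + 1), (4 * (2 * r / (g1 / 2))) + 4 * r2 := by
    simp only [mul_add, Finset.sum_add_distrib]
    simp
    ring
  have h3 : ∑ r ∈ Finset.Ico 1 (r2 + 1), (4 * (2 * r / (g1 / 2))) ≤ 64 * (r2 + 1) ^ 2 / g1 := by
    rw [Nat.le_div_iff_mul_le (by omega), Finset.sum_mul]
    have h4 : ∀ r ∈ Finset.Ico 1 (r2 + 1), 4 * (2 * r / (g1 / 2)) * g1 ≤ 64 * (r2 + 1) := by
      intro r hr
      rw [Finset.mem_Ico] at hr
      have h5 : 2 * r / (g1 / 2) * (g1 / 2) ≤ 2 * r := Nat.div_mul_le_self _ _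
      have h6 : g1 ≤ 4 * (g1 / 2) := by omega
      calc 4 * (2 * r / (g1 / 2)) * g1 ≤ 4 * (2 * r / (g1 / 2)) * (4 * (g1 / 2)) := by gcongr
        _ = 16 * (2 * r / (g1 / 2) * (g1 / 2)) := by ring
        _ ≤ 16 * (2 * r) := by gcongr
        _ ≤ 64 * (r2 + 1) := by omega
    calc _ ≤ ∑ r ∈ Finset.Ico 1 (r2 + 1), 64 * (r2 + 1) := Finset.sum_le_sum h4
      _ = r2 * (64 * (r2 + 1)) := by simp
      _ ≤ 64 * (r2 + 1) ^ 2 := by nlinarith
  omega

theorem nuc_prob {p q : ℝ} (hp : 0 < p) (hq : 0 < q) (h : p + q ≤ 1 / 2) (P : Par) (hP : P.Ok)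
    (hg1 : (1 - p) ^ (P.g1 / 2 - 1) ≤ 1 / 4)
    (hg2 : 8 ≤ P.g1)
    (hw : 100 * ((P.Rh : ℝ)) ^ 2 * (1 - p) ^ (P.w - 1) ≤ 1 / 100) :
    nucLow P p q ≤ (law p q).real (Nev P) := by
  have hj := hP.hj
  have hr2 := hP.hr2
  have hRr := hP.hRr
  have hW := hP.hW
  have hq0 : 0 ≤ 1 - q := by linarith
  have hq1 : 1 - q ≤ 1 := by linarith
  have hp0 : 0 ≤ 1 - p := by linarith
  set ρ : ℝ := (1 - p) ^ (P.w - 1) with hρ
  have hρ0 : 0 ≤ ρ := by positivity
  set ε : ℝ := 4 * P.Rh * ρ with hε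
  have hε0 : 0 ≤ ε := by positivity
  have hRh1 : (1 : ℝ) ≤ P.Rh := by
    have : 1 ≤ P.Rh := by omega
    exact_mod_cast this
  have hε1 : 8 * (P.Rh : ℝ) * ε ≤ 1 / 2 := by
    have : 8 * (P.Rh : ℝ) * ε = 32 * (P.Rh : ℝ) ^ 2 * ρ := by rw [hε]; ring
    rw [this]
    nlinarith [mul_nonneg (sq_nonneg (P.Rh : ℝ)) hρ0]
  have hε2 : ε ≤ 1 := by nlinarith
  have hA0 : ∀ r, 0 ≤ nucpbA q r := fun r => by unfold nucpbA; positivity
  rw [nev_prod hp.le hq.le (by linarith) P hP, nucpb_prod]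
  -- split the layers
  have hsplit : ∏ r ∈ Finset.Icc (P.j0 + 1) P.W, nucpbG P p q r =
      (∏ r ∈ Finset.Ico (P.j0 + 1) (4 * P.j0 + 1), nucpbG P p q r) *
      (∏ r ∈ Finset.Ico (4 * P.j0 + 1) (P.r2 + 1), nucpbG P p q r) *
      (∏ r ∈ Finset.Ico (P.r2 + 1) (2 * P.Rh + 1), nucpbG P p q r) *
      (∏ r ∈ Finset.Ico (2 * P.Rh + 1) (P.W + 1), nucpbG P p q r) := by
    rw [Finset.prod_Ico_consecutive _ (by omega) (by omega),
      Finset.prod_Ico_consecutive _ (by omega) (by omega),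
      Finset.prod_Ico_consecutive _ (by omega) (by omega)]
    rfl
  have hsplitA : ∏ r ∈ Finset.Icc (P.j0 + 1) (2 * P.Rh), (nucpbA q r) ^ 4 =
      (∏ r ∈ Finset.Ico (P.j0 + 1) (4 * P.j0 + 1), (nucpbA q r) ^ 4) *
      (∏ r ∈ Finset.Ico (4 * P.j0 + 1) (P.r2 + 1), (nucpbA q r) ^ 4) *
      (∏ r ∈ Finset.Ico (P.r2 + 1) (2 * P.Rh + 1), (nucpbA q r) ^ 4) := by
    rw [Finset.prod_Ico_consecutive _ (by omega) (by omega),
      Finset.prod_Ico_consecutive _ (by omega) (by omega)]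
    rfl
  -- layer bounds
  have l1 : (∏ r ∈ Finset.Ico (P.j0 + 1) (4 * P.j0 + 1), (nucpbA q r) ^ 4) *
      p ^ ((8 * P.j0 + 1) ^ 2) ≤ ∏ r ∈ Finset.Ico (P.j0 + 1) (4 * P.j0 + 1), nucpbG P p q r := by
    calc _ ≤ (∏ r ∈ Finset.Ico (P.j0 + 1) (4 * P.j0 + 1), (nucpbA q r) ^ 4) *
          p ^ (∑ r ∈ Finset.Ico (P.j0 + 1) (4 * P.j0 + 1), (8 * r + 4)) := by
          apply mul_le_mul_of_nonneg_left
          · exact pow_le_pow_of_le_one hp.le (by linarith) (nucpb_sum1 _ (by omega))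
          · exact Finset.prod_nonneg fun r _ => by have := hA0 r; positivity
      _ = ∏ r ∈ Finset.Ico (P.j0 + 1) (4 * P.j0 + 1), ((nucpbA q r) ^ 4 * p ^ (8 * r + 4)) := by
          rw [← Finset.prod_pow_eq_pow_sum, ← Finset.prod_mul_distrib]
      _ ≤ _ := by
          apply Finset.prod_le_prod
          · intro r _; have := hA0 r; positivity
          · intro r hr
            rw [Finset.mem_Ico] at hr
            have e : (nucpbA q r) ^ 4 * p ^ (8 * r + 4) = (nucpbA q r * p ^ (2 * r) * p) ^ 4 := by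
              ring
            rw [e]
            apply nucpb_pow4 (by have := hA0 r; positivity) hp.le
            · intro i
              refine le_trans ?_ (cev_side1 hp hq h P hP r i (by omega) (by omega))
              apply mul_le_mul_of_nonneg_right _ (by positivity)
              unfold nucpbA
              have : (1 - q) ^ (2 * r) ≤ 1 := pow_le_one₀ hq0 hq1
              have h0 : 0 ≤ (r : ℝ) / 20 * q := by positivity
              nlinarith
            · intro i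
              rw [cev_corner1 hp hq h P hP r i (by omega)]
  have l2 : (∏ r ∈ Finset.Ico (4 * P.j0 + 1) (P.r2 + 1), (nucpbA q r) ^ 4) *
      ((1 - q) ^ (4 * (P.r2 - 4 * P.j0)) * (1 / 2) ^ (64 * (P.r2 + 1) ^ 2 / P.g1 + 64 * P.r2)) ≤
      ∏ r ∈ Finset.Ico (4 * P.j0 + 1) (P.r2 + 1), nucpbG P p q r := by
    calc _ ≤ (∏ r ∈ Finset.Ico (4 * P.j0 + 1) (P.r2 + 1), (nucpbA q r) ^ 4) *
          ((1 - q) ^ (4 * (P.r2 - 4 * P.j0)) * (1 / 2) ^
            (∑ r ∈ Finset.Ico (4 * P.j0 + 1) (P.r2 + 1), (4 * (2 * r / (P.g1 / 2) + 1)))) := by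
          apply mul_le_mul_of_nonneg_left
          · apply mul_le_mul_of_nonneg_left
            · exact pow_le_pow_of_le_one (by norm_num) (by norm_num)
                (nucpb_sum2 _ _ _ hg2)
            · positivity
          · exact Finset.prod_nonneg fun r _ => by have := hA0 r; positivity
      _ = ∏ r ∈ Finset.Ico (4 * P.j0 + 1) (P.r2 + 1), ((nucpbA q r) ^ 4 *
            ((1 - q) ^ 4 * (1 / 2) ^ (4 * (2 * r / (P.g1 / 2) + 1)))) := by
          rw [Finset.prod_mul_distrib, Finset.prod_mul_distrib, Finset.prod_const, ← pow_mul,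
            Finset.prod_pow_eq_pow_sum]
          simp
      _ ≤ _ := by
          apply Finset.prod_le_prod
          · intro r _; have := hA0 r; positivity
          · intro r hr
            rw [Finset.mem_Ico] at hr
            have e : (nucpbA q r) ^ 4 * ((1 - q) ^ 4 * (1 / 2) ^ (4 * (2 * r / (P.g1 / 2) + 1))) =
                (nucpbA q r * (1 / 2) ^ (2 * r / (P.g1 / 2) + 1) * (1 - q)) ^ 4 := by
              ring
            rw [e]
            apply nucpb_pow4 (by have := hA0 r; positivity) hq0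
            · intro i
              exact cev_side2 hp hq h P hP hg1 hg2 r i (by omega) (by omega)
            · intro i
              rw [cev_corner2 hp hq h P hP r i (by omega) (by omega)]
  have l3 : (∏ r ∈ Finset.Ico (P.r2 + 1) (2 * P.Rh + 1), (nucpbA q r) ^ 4) *
      ((1 - q) ^ (4 * (2 * P.Rh - P.r2)) * (1 / 2)) ≤
      ∏ r ∈ Finset.Ico (P.r2 + 1) (2 * P.Rh + 1), nucpbG P p q r := by
    calc _ ≤ (∏ r ∈ Finset.Ico (P.r2 + 1) (2 * P.Rh + 1), (nucpbA q r) ^ 4) *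
          ((1 - q) ^ (4 * (2 * P.Rh - P.r2)) * (1 - ε) ^ (4 * (2 * P.Rh - P.r2))) := by
          apply mul_le_mul_of_nonneg_left
          · apply mul_le_mul_of_nonneg_left _ (by positivity)
            have b := one_add_mul_le_pow (show (-2 : ℝ) ≤ -ε by linarith)
              (4 * (2 * P.Rh - P.r2))
            have b2 : ((4 * (2 * P.Rh - P.r2) : ℕ) : ℝ) ≤ 8 * P.Rh := by
              have : 4 * (2 * P.Rh - P.r2) ≤ 8 * P.Rh := by omega
              exact_mod_cast this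
            have b3 : ((4 * (2 * P.Rh - P.r2) : ℕ) : ℝ) * ε ≤ 8 * P.Rh * ε := by gcongr
            have e1 : (1 + -ε) = 1 - ε := by ring
            rw [e1] at b
            refine le_trans ?_ b
            linarith
          · exact Finset.prod_nonneg fun r _ => by have := hA0 r; positivity
      _ = ∏ r ∈ Finset.Ico (P.r2 + 1) (2 * P.Rh + 1), ((nucpbA q r) ^ 4 *
            ((1 - q) ^ 4 * (1 - ε) ^ 4)) := by
          rw [Finset.prod_mul_distrib, Finset.prod_mul_distrib,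
            Finset.prod_const, Finset.prod_const, ← pow_mul, ← pow_mul]
          simp
      _ ≤ _ := by
          apply Finset.prod_le_prod
          · intro r _
            have := hA0 r
            have : 0 ≤ 1 - ε := by linarith
            positivity
          · intro r hr
            rw [Finset.mem_Ico] at hr
            have e : (nucpbA q r) ^ 4 * ((1 - q) ^ 4 * (1 - ε) ^ 4) =
                (nucpbA q r * (1 - ε) * (1 - q)) ^ 4 := by
              ring
            rw [e]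
            have h1ε : 0 ≤ 1 - ε := by linarith
            apply nucpb_pow4 (by have := hA0 r; positivity) hq0
            · intro i
              obtain ⟨Z, hZ, _, hZ2, _⟩ := zone_card (r := r) (by omega)
              refine le_trans ?_ (cev_side3 hp hq h P hP r i (by omega) (by omega) Z hZ)
              have hr' : (r : ℝ) ≤ 2 * P.Rh := by
                have : r ≤ 2 * P.Rh := by omega
                exact_mod_cast this
              have c1 : 1 - ε ≤ 1 - 2 * r * ρ := by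
                rw [hε]
                nlinarith
              have c2 : (1 - q) ^ (2 * r) ≤ (1 - q) ^ (2 * r - 2) :=
                pow_le_pow_of_le_one hq0 hq1 (by omega)
              unfold nucpbA
              gcongr
            · intro i
              rw [cev_corner2 hp hq h P hP r i (by omega) (by omega)]
  have l4 : ∏ r ∈ Finset.Icc (2 * P.Rh + 1) P.W, (1 - (1 - q) ^ (2 * r - 1)) ^ 4 =
      ∏ r ∈ Finset.Ico (2 * P.Rh + 1) (P.W + 1), nucpbG P p q r := by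
    have : Finset.Icc (2 * P.Rh + 1) P.W = Finset.Ico (2 * P.Rh + 1) (P.W + 1) := rfl
    rw [this]
    apply Finset.prod_congr rfl
    intro r hr
    rw [Finset.mem_Ico] at hr
    unfold nucpbG
    have : ∀ i : Fin 4, (law p q).real (cev P (some (r, i, false))) *
        (law p q).real (cev P (some (r, i, true))) = 1 - (1 - q) ^ (2 * r - 1) := by
      intro i
      rw [cev_side4 hp hq h P hP r i (by omega), cev_corner3 hp hq h P hP r i (by omega), mul_one]
    simp only [this]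
    simp
  have l0 := cev_core hp hq h P hP
  have n4 : 0 ≤ ∏ r ∈ Finset.Ico (2 * P.Rh + 1) (P.W + 1), nucpbG P p q r := by
    rw [← l4]
    apply Finset.prod_nonneg
    intro r _
    positivity
  have nG : ∀ r, 0 ≤ nucpbG P p q r := by
    intro r
    unfold nucpbG
    positivity
  rw [hsplit]
  have hA' : ∏ r ∈ Finset.Icc (P.j0 + 1) (2 * P.Rh),
      ((r : ℝ) / 20 * q * (1 - q) ^ (2 * r)) ^ 4 =
      ∏ r ∈ Finset.Icc (P.j0 + 1) (2 * P.Rh), (nucpbA q r) ^ 4 := rfl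
  unfold nucLow
  rw [hA', hsplitA, l4]
  have hA1 : 0 ≤ ∏ r ∈ Finset.Ico (P.j0 + 1) (4 * P.j0 + 1), (nucpbA q r) ^ 4 :=
    Finset.prod_nonneg fun r _ => by have := hA0 r; positivity
  have hA2 : 0 ≤ ∏ r ∈ Finset.Ico (4 * P.j0 + 1) (P.r2 + 1), (nucpbA q r) ^ 4 :=
    Finset.prod_nonneg fun r _ => by have := hA0 r; positivity
  have hA3 : 0 ≤ ∏ r ∈ Finset.Ico (P.r2 + 1) (2 * P.Rh + 1), (nucpbA q r) ^ 4 :=
    Finset.prod_nonneg fun r _ => by have := hA0 r; positivity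
  have hcorner : (1 - q) ^ (8 * P.Rh) ≤
      (1 - q) ^ (4 * (P.r2 - 4 * P.j0)) * (1 - q) ^ (4 * (2 * P.Rh - P.r2)) := by
    rw [← pow_add]
    exact pow_le_pow_of_le_one hq0 hq1 (by omega)
  set X1 := ∏ r ∈ Finset.Ico (P.j0 + 1) (4 * P.j0 + 1), (nucpbA q r) ^ 4
  set X2 := ∏ r ∈ Finset.Ico (4 * P.j0 + 1) (P.r2 + 1), (nucpbA q r) ^ 4
  set X3 := ∏ r ∈ Finset.Ico (P.r2 + 1) (2 * P.Rh + 1), (nucpbA q r) ^ 4
  set Y1 := ∏ r ∈ Finset.Ico (P.j0 + 1) (4 * P.j0 + 1), nucpbG P p q r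
  set Y2 := ∏ r ∈ Finset.Ico (4 * P.j0 + 1) (P.r2 + 1), nucpbG P p q r
  set Y3 := ∏ r ∈ Finset.Ico (P.r2 + 1) (2 * P.Rh + 1), nucpbG P p q r
  set Y4 := ∏ r ∈ Finset.Ico (2 * P.Rh + 1) (P.W + 1), nucpbG P p q r
  set Y0 := (law p q).real (cev P none)
  have hY0 : 0 ≤ Y0 := measureReal_nonneg
  have hY1 : 0 ≤ Y1 := Finset.prod_nonneg fun r _ => nG r
  have hY2 : 0 ≤ Y2 := Finset.prod_nonneg fun r _ => nG r
  have hY3 : 0 ≤ Y3 := Finset.prod_nonneg fun r _ => nG r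
  calc q ^ ((2 * P.j0 + 1) ^ 2) * p ^ ((8 * P.j0 + 1) ^ 2) * (X1 * X2 * X3) *
        (1 - q) ^ (8 * P.Rh) * (1 / 2) ^ (64 * (P.r2 + 1) ^ 2 / P.g1 + 64 * P.r2) * Y4 * (1 / 2)
      ≤ q ^ ((2 * P.j0 + 1) ^ 2) * p ^ ((8 * P.j0 + 1) ^ 2) * (X1 * X2 * X3) *
        ((1 - q) ^ (4 * (P.r2 - 4 * P.j0)) * (1 - q) ^ (4 * (2 * P.Rh - P.r2))) *
        (1 / 2) ^ (64 * (P.r2 + 1) ^ 2 / P.g1 + 64 * P.r2) * Y4 * (1 / 2) := by
        gcongr
    _ = q ^ ((2 * P.j0 + 1) ^ 2) * ((X1 * p ^ ((8 * P.j0 + 1) ^ 2)) *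
        (X2 * ((1 - q) ^ (4 * (P.r2 - 4 * P.j0)) *
          (1 / 2) ^ (64 * (P.r2 + 1) ^ 2 / P.g1 + 64 * P.r2))) *
        (X3 * ((1 - q) ^ (4 * (2 * P.Rh - P.r2)) * (1 / 2))) * Y4) := by ring
    _ ≤ Y0 * (Y1 * Y2 * Y3 * Y4) := by
        gcongr

end TSB
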