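import Pool.Agent.TSB.Defs

/-! Two-stage bootstrap percolation: the weight of chains of twos. -/

open MeasureTheory
open scoped Classical

namespace TSB

theorem wch_dirc_inj (i : Fin 4) : Function.Injective (dirc i) := by
  rintro ⟨x1, x2⟩ ⟨y1, y2⟩ h
  fin_cases i <;> simp only [dirc, Prod.mk.injEq, neg_inj] at h ⊢ <;> tauto

theorem wch_sum (lam : ℝ) (hl : 0 < lam) (T : ℕ) :
    ∑ k ∈ Finset.Icc (-(T:ℤ)) T, Real.exp (-(lam * |(k:ℝ)|)) ≤ 1 + 2 / lam := by
  have h : ∑ k ∈ Finset.Icc (-(T:ℤ)) T, Real.exp (-(lam * |(k:ℝ)|)) ≤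
      1 + 2 * ((1 - Real.exp (-(lam * T))) / lam) := by
    induction T with
    | zero => simp
    | succ T ih =>
      have e : Finset.Icc (-((T+1 : ℕ):ℤ)) ((T+1 : ℕ):ℤ) =
          insert ((T:ℤ)+1) (insert (-((T:ℤ)+1)) (Finset.Icc (-(T:ℤ)) T)) := by
        ext k
        simp only [Finset.mem_Icc, Finset.mem_insert]
        push_cast
        omega
      rw [e, Finset.sum_insert, Finset.sum_insert]
      · have h1 : |(((T:ℤ)+1 : ℤ) : ℝ)| = (T:ℝ) + 1 := by
          push_cast
          exact abs_of_nonneg (by positivity)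
        have h2 : |((-((T:ℤ)+1) : ℤ) : ℝ)| = (T:ℝ) + 1 := by
          push_cast
          rw [abs_neg]
          exact abs_of_nonneg (by positivity)
        rw [h1, h2]
        have h3 : lam * Real.exp (-(lam * ((T:ℝ) + 1))) ≤
            Real.exp (-(lam * T)) - Real.exp (-(lam * ((T:ℝ) + 1))) := by
          have h4 : Real.exp (-(lam * T)) =
              Real.exp lam * Real.exp (-(lam * ((T:ℝ) + 1))) := by
            rw [← Real.exp_add]
            congr 1
            ring
          rw [h4]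
          have h5 := Real.add_one_le_exp lam
          have h6 := Real.exp_pos (-(lam * ((T:ℝ) + 1)))
          nlinarith
        have h7 : Real.exp (-(lam * ((T:ℝ) + 1))) ≤
            (Real.exp (-(lam * T)) - Real.exp (-(lam * ((T:ℝ) + 1)))) / lam := by
          rw [le_div_iff₀ hl]
          linarith
        push_cast
        have h8 : (1 - Real.exp (-(lam * ((T:ℝ) + 1)))) / lam =
            (1 - Real.exp (-(lam * T))) / lam +
            (Real.exp (-(lam * T)) - Real.exp (-(lam * ((T:ℝ) + 1)))) / lam := by ring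
        rw [h8]
        linarith
      · simp
      · simp only [Finset.mem_insert, Finset.mem_Icc]
        omega
  refine h.trans ?_
  have h1 : (1 - Real.exp (-(lam * T))) / lam ≤ 1 / lam := by
    refine div_le_div_of_nonneg_right ?_ hl.le
    linarith [Real.exp_pos (-(lam * T))]
  have h2 : 2 / lam = 2 * (1 / lam) := by ring
  rw [h2]
  linarith

theorem wch_count (n T : ℕ) (lam : ℝ) (hl : 0 < lam) :
    (((Fintype.piFinset (fun _ : Fin n => Finset.Icc (-(T:ℤ)) T)).filter
      (fun Δ => ∑ j, |Δ j| ≤ (T:ℤ))).card : ℝ) ≤ Real.exp (lam * T) * (1 + 2 / lam) ^ n := by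
  calc (((Fintype.piFinset (fun _ : Fin n => Finset.Icc (-(T:ℤ)) T)).filter
      (fun Δ => ∑ j, |Δ j| ≤ (T:ℤ))).card : ℝ)
      = ∑ Δ ∈ (Fintype.piFinset (fun _ : Fin n => Finset.Icc (-(T:ℤ)) T)).filter
          (fun Δ => ∑ j, |Δ j| ≤ (T:ℤ)), (1:ℝ) := by simp
    _ ≤ ∑ Δ ∈ (Fintype.piFinset (fun _ : Fin n => Finset.Icc (-(T:ℤ)) T)).filter
          (fun Δ => ∑ j, |Δ j| ≤ (T:ℤ)),
          Real.exp (lam * T) * ∏ j, Real.exp (-(lam * |(Δ j : ℝ)|)) := by
        refine Finset.sum_le_sum (fun Δ hΔ => ?_)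
        rw [Finset.mem_filter] at hΔ
        have h1 : (∑ j, |(Δ j : ℝ)|) ≤ T := by
          have := hΔ.2
          exact_mod_cast this
        rw [← Real.exp_sum, ← Real.exp_add]
        refine Real.one_le_exp ?_
        rw [Finset.sum_neg_distrib, ← Finset.mul_sum]
        nlinarith
    _ ≤ ∑ Δ ∈ Fintype.piFinset (fun _ : Fin n => Finset.Icc (-(T:ℤ)) T),
          Real.exp (lam * T) * ∏ j, Real.exp (-(lam * |(Δ j : ℝ)|)) :=
        Finset.sum_le_sum_of_subset_of_nonneg (Finset.filter_subset _ _)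
          (fun _ _ _ => by positivity)
    _ = Real.exp (lam * T) * (∑ k ∈ Finset.Icc (-(T:ℤ)) T, Real.exp (-(lam * |(k:ℝ)|))) ^ n := by
        rw [← Finset.mul_sum]
        congr 1
        rw [← Finset.prod_univ_sum (fun _ : Fin n => Finset.Icc (-(T:ℤ)) T)
          (fun _ k => Real.exp (-(lam * |(k:ℝ)|)))]
        rw [Finset.prod_const, Finset.card_univ, Fintype.card_fin]
    _ ≤ _ := by
        refine mul_le_mul_of_nonneg_left ?_ (by positivity)
        refine pow_le_pow_left₀ ?_ (wch_sum lam hl T) n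
        positivity

/-- chains as finite sequences -/
def WchOk (i : Fin 4) (n T : ℕ) (f : Fin (n+1) → Site) : Prop :=
  (∀ j : Fin n, 1 ≤ (dirc i (f j.castSucc)).1 - (dirc i (f j.succ)).1 ∧
      (dirc i (f j.castSucc)).1 - (dirc i (f j.succ)).1 ≤ 4) ∧
    ∑ j : Fin n, |(dirc i (f j.castSucc)).2 - (dirc i (f j.succ)).2| ≤ (T : ℤ)

theorem wch_inj (i : Fin 4) (n T : ℕ) (f : Fin (n+1) → Site) (hf : WchOk i n T f) :
    Function.Injective f := by
  have hanti : StrictAnti (fun j => (dirc i (f j)).1) := by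
    rw [Fin.strictAnti_iff_succ_lt]
    intro j
    have := (hf.1 j).1
    linarith
  intro x y h
  exact hanti.injective (by simp only [h])

theorem wch_card (i : Fin 4) (R : Finset Site) (n T : ℕ) (lam : ℝ) (hl : 0 < lam) :
    (((Fintype.piFinset (fun _ : Fin (n+1) => R)).filter (WchOk i n T)).card : ℝ) ≤
      R.card * (4 ^ n * (Real.exp (lam * T) * (1 + 2 / lam) ^ n)) := by
  have h1 : ((Fintype.piFinset (fun _ : Fin (n+1) => R)).filter (WchOk i n T)).card ≤
      (R ×ˢ ((Fintype.piFinset (fun _ : Fin n => Finset.Icc (1:ℤ) 4)) ×ˢ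
        ((Fintype.piFinset (fun _ : Fin n => Finset.Icc (-(T:ℤ)) T)).filter
      (fun Δ => ∑ j, |Δ j| ≤ (T:ℤ))))).card := by
    refine Finset.card_le_card_of_injOn
      (fun f => (f 0, (fun j => (dirc i (f j.castSucc)).1 - (dirc i (f j.succ)).1),
        (fun j => (dirc i (f j.castSucc)).2 - (dirc i (f j.succ)).2))) ?_ ?_
    · intro f hf
      rw [Finset.mem_coe, Finset.mem_filter, Fintype.mem_piFinset] at hf
      rw [Finset.mem_coe, Finset.mem_product, Finset.mem_product, Finset.mem_filter,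
        Fintype.mem_piFinset, Fintype.mem_piFinset]
      refine ⟨hf.1 0, fun j => ?_, fun j => ?_, hf.2.2⟩
      · exact Finset.mem_Icc.2 (hf.2.1 j)
      · rw [Finset.mem_Icc, ← abs_le]
        refine le_trans ?_ hf.2.2
        exact Finset.single_le_sum
          (f := fun j : Fin n => |(dirc i (f j.castSucc)).2 - (dirc i (f j.succ)).2|)
          (fun _ _ => abs_nonneg _) (Finset.mem_univ j)
    · intro f _ g _ h
      simp only [Prod.mk.injEq] at h
      obtain ⟨h0, h2, h3⟩ := h
      funext j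
      induction j using Fin.induction with
      | zero => exact h0
      | succ j ih =>
        have h4 : (dirc i (f j.castSucc)).1 - (dirc i (f j.succ)).1 =
            (dirc i (g j.castSucc)).1 - (dirc i (g j.succ)).1 := congrFun h2 j
        have h5 : (dirc i (f j.castSucc)).2 - (dirc i (f j.succ)).2 =
            (dirc i (g j.castSucc)).2 - (dirc i (g j.succ)).2 := congrFun h3 j
        rw [ih] at h4 h5
        refine wch_dirc_inj i (Prod.ext ?_ ?_)
        · linarith
        · linarith
  have h2 : (((Fintype.piFinset (fun _ : Fin (n+1) => R)).filter (WchOk i n T)).card : ℝ) ≤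
      ((R ×ˢ ((Fintype.piFinset (fun _ : Fin n => Finset.Icc (1:ℤ) 4)) ×ˢ
        ((Fintype.piFinset (fun _ : Fin n => Finset.Icc (-(T:ℤ)) T)).filter
      (fun Δ => ∑ j, |Δ j| ≤ (T:ℤ))))).card : ℝ) := by exact_mod_cast h1
  refine h2.trans ?_
  rw [Finset.card_product, Finset.card_product, Fintype.card_piFinset]
  push_cast
  refine mul_le_mul_of_nonneg_left ?_ (by positivity)
  refine mul_le_mul ?_ (wch_count n T lam hl) (by positivity) (by positivity)
  simp

/-! ## Module WCHAIN -/

theorem wit_chain {a b c : ℝ} (V : Set Site) (ha : 0 ≤ a) (hb : 0 ≤ b) (hc : 0 ≤ c) (i : Fin 4)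
    (R : Finset Site) (n T : ℕ) (lam : ℝ) (hl : 0 < lam) :
    Wit a b c V (R : Set Site)
      ((R.card : ℝ) * a * (4 * a * (1 + 2 / lam)) ^ n * Real.exp (lam * T))
      {ω | SeedChain i ω (R : Set Site) n T} := by
  refine ⟨((Fintype.piFinset (fun _ : Fin (n+1) => R)).filter (WchOk i n T)).image
    (fun f => ((Finset.univ.image f, ∅, ∅) : Tri)), ?_, ?_, ?_⟩
  · intro τ hτ
    rw [Finset.mem_image] at hτ
    obtain ⟨f, hf, rfl⟩ := hτ
    rw [Finset.mem_filter, Fintype.mem_piFinset] at hf
    refine ⟨⟨by simp, by simp, by simp⟩, ?_, by simp, by simp⟩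
    intro x hx
    simp only [Finset.coe_image, Finset.coe_univ, Set.image_univ, Set.mem_range] at hx
    obtain ⟨j, rfl⟩ := hx
    exact hf.1 j
  · rintro ω ⟨f, h1, h2, h3⟩
    refine ⟨(Finset.univ.image (fun j : Fin (n+1) => f j), ∅, ∅), ?_, ?_⟩
    · rw [Finset.mem_image]
      refine ⟨fun j : Fin (n+1) => f j, ?_, rfl⟩
      rw [Finset.mem_filter, Fintype.mem_piFinset]
      refine ⟨fun j => (h1 j (by omega)).2, fun j => ?_, ?_⟩
      · have := h2 j j.2
        simpa using this
      · rw [Finset.sum_range] at h3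
        simpa using h3
    · refine ⟨?_, by simp, by simp⟩
      intro x hx
      rw [Finset.mem_image] at hx
      obtain ⟨j, _, rfl⟩ := hx
      exact (h1 j (by omega)).1
  · set S := (Fintype.piFinset (fun _ : Fin (n+1) => R)).filter (WchOk i n T) with hS
    have hw : ∀ f ∈ S, wt a b c ((Finset.univ.image f, ∅, ∅) : Tri) = a ^ (n + 1) := by
      intro f hf
      rw [hS, Finset.mem_filter] at hf
      unfold wt
      simp only [Finset.card_empty, pow_zero, mul_one]
      rw [Finset.card_image_of_injective _ (wch_inj i n T f hf.2), Finset.card_univ,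
        Fintype.card_fin]
    have h1 : ∑ τ ∈ S.image (fun f => ((Finset.univ.image f, ∅, ∅) : Tri)), wt a b c τ ≤
        ∑ f ∈ S, wt a b c ((Finset.univ.image f, ∅, ∅) : Tri) := by
      refine Finset.sum_image_le_of_nonneg (fun τ _ => ?_)
      unfold wt
      positivity
    refine h1.trans ?_
    rw [Finset.sum_congr rfl hw, Finset.sum_const, nsmul_eq_mul]
    have h2 := mul_le_mul_of_nonneg_right (wch_card i R n T lam hl)
      (by positivity : 0 ≤ a ^ (n + 1))
    refine h2.trans (le_of_eq ?_)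
    rw [mul_pow, mul_pow, pow_succ]
    ring

end TSB
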