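import Pool.Agent.TSB.WW
import Pool.Agent.TSB.Wchain

/-! Two-stage bootstrap percolation: the weight of atypical surroundings of the nucleus. -/

open MeasureTheory
open scoped Classical

namespace TSB

/-! ### squares and annuli as finite sets -/

/-- the square of radius `n` -/
noncomputable def wsSq (n : ℕ) : Finset Site :=
  Finset.Icc (-(n:ℤ)) n ×ˢ Finset.Icc (-(n:ℤ)) n

theorem wsSq_card (n : ℕ) : ((wsSq n).card : ℝ) = (2 * (n:ℝ) + 1) ^ 2 := by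
  have h1 : (Finset.Icc (-(n:ℤ)) n).card = 2 * n + 1 := by
    rw [Int.card_Icc]
    omega
  rw [wsSq, Finset.card_product, h1]
  push_cast
  ring

theorem mem_wsSq (n : ℕ) (x : Site) : x ∈ wsSq n ↔ lay x ≤ n := by
  rw [wsSq, Finset.mem_product, Finset.mem_Icc, Finset.mem_Icc, ← abs_le, ← abs_le, lay, max_le_iff]

/-- the annulus -/
noncomputable def wsAnn (m n : ℕ) : Finset Site := (wsSq n).filter (fun x => (m:ℤ) < lay x)

theorem wsAnn_coe (m n : ℕ) : (wsAnn m n : Set Site) = annulus m n := by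
  ext x
  simp only [wsAnn, annulus, Finset.coe_filter, mem_wsSq, Set.mem_ofPred_eq]
  tauto

theorem wsAnn_card (m n : ℕ) : ((wsAnn m n).card : ℝ) ≤ (2 * (n:ℝ) + 1) ^ 2 := by
  rw [← wsSq_card]
  exact_mod_cast Finset.card_filter_le _ _

/-! ### positions of the windows -/

theorem ws_Rh_pos {P : Par} (hP : P.Ok) : 0 < P.Rh := by
  have := hP.hRw
  omega

theorem ws_wreg_far {P : Par} (hP : P.Ok) (β : Site) (hβ : β ∉ Kset) :
    wreg P β ⊆ {x | 2 * (P.Rh : ℤ) < lay x} := by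
  rintro ⟨x1, x2⟩ hx
  simp only [wreg, Set.mem_ofPred_eq] at hx
  have hRh : (0:ℤ) < P.Rh := by exact_mod_cast ws_Rh_pos hP
  have hW : (10 * P.Rh : ℤ) ≤ P.W := by exact_mod_cast hP.hW
  have he : (10 * P.s + 10 : ℤ) ≤ P.e := by exact_mod_cast hP.he
  have hD : (0:ℤ) ≤ P.D := Int.natCast_nonneg _
  have hWe : ((P.W : ℕ) : ℤ) = P.e * P.D := by
    unfold Par.W
    push_cast
    rfl
  have h1 : 10 * ((3 * P.s + 3 : ℤ) * P.D) ≤ 3 * P.W := by
    rw [hWe]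
    have := mul_le_mul_of_nonneg_right he hD
    nlinarith
  have key : ∀ β1 y : ℤ, (β1 ≠ 0 ∧ β1 ≠ -1) → β1 * P.W - (3 * P.s + 3) * P.D ≤ y →
      y < (β1 + 1) * P.W + (3 * P.s + 3) * P.D → 2 * (P.Rh : ℤ) < |y| := by
    intro β1 y h g1 g2
    have hW0 : (0:ℤ) ≤ P.W := by linarith
    rcases (by omega : 1 ≤ β1 ∨ β1 ≤ -2) with h2 | h2
    · have h3 : 1 * (P.W:ℤ) ≤ β1 * P.W := mul_le_mul_of_nonneg_right h2 hW0
      refine lt_of_lt_of_le ?_ (le_abs_self y)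
      linarith
    · have h3 : (β1 + 1) * (P.W:ℤ) ≤ (-1) * P.W := mul_le_mul_of_nonneg_right (by linarith) hW0
      refine lt_of_lt_of_le ?_ (neg_le_abs y)
      linarith
  have hβ' : (β.1 ≠ 0 ∧ β.1 ≠ -1) ∨ (β.2 ≠ 0 ∧ β.2 ≠ -1) := by
    by_contra hcon
    apply hβ
    unfold Kset
    rw [Set.mem_ofPred_eq]
    tauto
  rw [Set.mem_ofPred_eq, lay, lt_max_iff]
  rcases hβ' with h | h
  · left
    exact key β.1 x1 h hx.1 hx.2.1
  · right
    exact key β.2 x2 h hx.2.2.1 hx.2.2.2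

theorem ws_T_ge {P : Par} (hP : P.Ok) : P.W ≤ P.T := by
  have hf := hP.hf
  have hg : 1 ≤ P.g := by
    have h1 := hP.hg
    have h2 := hP.hs
    have h3 := hP.hkD
    have h4 : 1 ≤ P.s := by omega
    have h5 : 1 ≤ P.D := by omega
    have : 1 ≤ 400 * P.s * P.D := by nlinarith
    omega
  unfold Par.T Par.T0
  calc P.W = 1 * (1 * P.W) := by ring
    _ ≤ P.g * (P.f * P.W) := Nat.mul_le_mul hg (Nat.mul_le_mul_right _ hf)

theorem ws_twin_far {P : Par} (hP : P.Ok) (z : Site) (hz : ¬ (|z.1| ≤ 4 ∧ |z.2| ≤ 4)) :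
    win P.T 2 z ⊆ {x | 2 * (P.Rh : ℤ) < lay x} := by
  rintro ⟨x1, x2⟩ hx
  simp only [win, Set.mem_ofPred_eq] at hx
  have hRh : (0:ℤ) < P.Rh := by exact_mod_cast ws_Rh_pos hP
  have hW : (10 * P.Rh : ℤ) ≤ P.T := by
    have := hP.hW.trans (ws_T_ge hP)
    exact_mod_cast this
  have hT0 : (0:ℤ) ≤ P.T := Int.natCast_nonneg _
  have key : ∀ z1 y : ℤ, ¬ |z1| ≤ 4 → (z1 - ((2:ℕ):ℤ)) * P.T ≤ y →
      y < (z1 + 1 + ((2:ℕ):ℤ)) * P.T → 2 * (P.Rh : ℤ) < |y| := by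
    intro z1 y h g1 g2
    push_cast at g1 g2
    rcases abs_cases z1 with ⟨h1, h2⟩ | ⟨h1, h2⟩
    · have h3 : 3 * (P.T:ℤ) ≤ (z1 - 2) * P.T := mul_le_mul_of_nonneg_right (by omega) hT0
      refine lt_of_lt_of_le ?_ (le_abs_self y)
      linarith
    · have h3 : (z1 + 1 + 2) * (P.T:ℤ) ≤ (-2) * P.T := mul_le_mul_of_nonneg_right (by omega) hT0
      refine lt_of_lt_of_le ?_ (neg_le_abs y)
      linarith
  rw [Set.mem_ofPred_eq, lay, lt_max_iff]
  by_cases h : |z.1| ≤ 4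
  · right
    exact key z.2 x2 (fun h' => hz ⟨h, h'⟩) hx.2.2.1 hx.2.2.2
  · left
    exact key z.1 x1 h hx.1 hx.2.1

/-- the index of a window inside a square -/
theorem ws_index {n a r : ℕ} (hn : 0 < n) (b : Site) (h : win n a b ⊆ {x | lay x ≤ r}) :
    b ∈ wsSq r := by
  have hn' : (1:ℤ) ≤ n := by exact_mod_cast hn
  have h1 : ((b.1 * n, b.2 * n) : Site) ∈ win n a b := by
    simp only [win, Set.mem_ofPred_eq]
    have : (0:ℤ) ≤ a * n := by positivity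
    refine ⟨by linarith, by linarith, by linarith, by linarith⟩
  have h2 := h h1
  rw [Set.mem_ofPred_eq] at h2
  rw [mem_wsSq]
  refine le_trans ?_ h2
  have key : ∀ y : ℤ, |y| ≤ |y * n| := by
    intro y
    rw [abs_mul, abs_of_nonneg (by linarith : (0:ℤ) ≤ n)]
    nlinarith [abs_nonneg y]
  unfold lay
  exact max_le_max (key _) (key _)

theorem ws_near_index {P : Par} (hP : P.Ok) (b : Site)
    (h : win P.D 2 b ⊆ annulus P.Rh (2 * P.W)) :
    b ∈ Finset.Ico (-(2 * (P.e:ℤ) + 2)) (2 * P.e + 2) ×ˢ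
      Finset.Ico (-(2 * (P.e:ℤ) + 2)) (2 * P.e + 2) := by
  have hD1 : 2 ≤ P.D := by have := hP.hkD; omega
  have hD' : (2:ℤ) ≤ P.D := by exact_mod_cast hD1
  have hWe : ((P.W : ℕ) : ℤ) = P.e * P.D := by
    unfold Par.W
    push_cast
    rfl
  have h1 : ((b.1 * P.D, b.2 * P.D) : Site) ∈ win P.D 2 b := by
    simp only [win, Set.mem_ofPred_eq]
    push_cast
    refine ⟨by linarith, by linarith, by linarith, by linarith⟩
  have h2 := (h h1).2
  unfold lay at h2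
  rw [max_le_iff, hWe] at h2
  have key : ∀ y : ℤ, |y * P.D| ≤ 2 * (P.e * P.D) → -(2 * (P.e:ℤ) + 2) ≤ y ∧
      y < 2 * P.e + 2 := by
    intro y hy
    rw [abs_mul, abs_of_nonneg (by linarith : (0:ℤ) ≤ P.D)] at hy
    have h3 : |y| ≤ 2 * P.e := by
      have : |y| * P.D ≤ (2 * P.e) * P.D := by linarith
      exact le_of_mul_le_mul_right this (by linarith)
    rw [abs_le] at h3
    constructor <;> linarith
  rw [Finset.mem_product, Finset.mem_Ico, Finset.mem_Ico]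
  exact ⟨key _ h2.1, key _ h2.2⟩

/-! ## Module WSPEC -/

theorem wit_spec {a b c : ℝ} (ha : 0 ≤ a) (ha1 : a ≤ 1) (hb : 0 ≤ b) (hb1 : b < 1)
    (hc : 0 ≤ c) (P : Par) (hP : P.Ok) (haw : a * ((P.w : ℝ) + 4) ^ 2 ≤ 1)
    (hD1 : deltaD P.w P.d P.mw a b ≤ 1) (hW1 : deltaW P.w P.d P.mw P.e P.s a b c ≤ 1)
    (hT1 : deltaT P a b c ≤ 1) (mT : ℕ) (lam : ℝ) (hl : 0 < lam) :
    Wit a b c {x | 2 * (P.Rh : ℤ) < lay x} {x | (P.Rh : ℤ) < lay x} (deltaS P mT a b c lam)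
      {ω | ¬ SpecOk P ω ∨ ∃ n ≤ mT, NearBad (ball (0, 0) mT)
        {z | TBad P ω z ∧ ¬ (|z.1| ≤ 4 ∧ |z.2| ≤ 4)} (0, 0) n} := by
  set V : Set Site := {x | 2 * (P.Rh : ℤ) < lay x} with hV
  set R : Set Site := {x | (P.Rh : ℤ) < lay x} with hR
  have hRh : (0:ℤ) < P.Rh := by exact_mod_cast ws_Rh_pos hP
  have hVR : V ⊆ R := by
    intro x hx
    rw [hV, Set.mem_ofPred_eq] at hx
    rw [hR, Set.mem_ofPred_eq]
    linarith
  have hD0 := ww_D_pos hP
  have he0 : 0 < P.e := by have := hP.he; omega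
  have hW0 : 0 < P.W := Nat.mul_pos he0 hD0
  have hδD : 0 ≤ deltaD P.w P.d P.mw a b := wit_nonneg ha hb hc
    (wit_dbad V ha ha1 hb hb1 hc P.w P.d P.mw (ww_d_pos hP) hP.hw haw (0, 0))
  have hδW : 0 ≤ deltaW P.w P.d P.mw P.e P.s a b c := wit_nonneg ha hb hc
    (wit_wbad Set.univ ha ha1 hb hb1 hc P hP haw (0, 0) (Set.subset_univ _))
  have hδT : 0 ≤ deltaT P a b c := wit_nonneg ha hb hc
    (wit_tbad Set.univ ha ha1 hb hb1 hc P hP haw hD1 hW1 (0, 0) (Set.subset_univ _))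
  have hann : annulus P.Rh P.Rs ⊆ R := fun x hx => hx.1
  -- big parts
  have w1 : Wit a b c V R (bigW P.k a ((2 * (P.Rs : ℝ) + 1) ^ 2))
      {ω | BigPart P.k (annulus P.Rh P.Rs) ω} := by
    have h := wit_bigpart V ha hb hc P.k (wsAnn P.Rh P.Rs)
    rw [wsAnn_coe] at h
    refine wit_mono h (le_refl V) hann ?_ (le_refl _)
    unfold bigW
    have h1 := wsAnn_card P.Rh P.Rs
    have h2 : 0 ≤ (2 * (4 * (P.k:ℝ) + 1) * a) ^ (P.k / 2) := by positivity
    have h3 : 2 * ((wsAnn P.Rh P.Rs).card : ℝ) ≤ 2 * (2 * (P.Rs:ℝ) + 1) ^ 2 := by linarith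
    exact mul_le_mul_of_nonneg_right h3 h2
  -- bad `D`-blocks
  have w2 : Wit a b c V R (spanW P.m (deltaD P.w P.d P.mw a b) ((2 * (P.Rs : ℝ) + 1) ^ 2))
      {ω | ∃ C : Set Site, (∀ b' ∈ C, win P.D 2 b' ⊆ annulus P.Rh P.Rs ∧
        DBad P.w P.d P.mw ω b') ∧ Conn star C ∧ ¬ SpanLe P.m C} := by
    have h := wit_badspan (a := a) (b := b) (c := c) (V := V) (R := R) ha hb hc hδD hD1
      ((wsSq P.Rs).filter (fun b' => win P.D 2 b' ⊆ annulus P.Rh P.Rs))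
      (fun b' => {ω | DBad P.w P.d P.mw ω b'}) (fun b' => win P.D 2 b')
      (fun b' _ => wit_dbad V ha ha1 hb hb1 hc P.w P.d P.mw (ww_d_pos hP) hP.hw haw b')
      (fun b' hb' => (Finset.mem_filter.1 hb').2.trans hann)
      (fun b' _ b'' _ h => ww_win_disj P.D 2 b' b'' 5 (by norm_num) h) P.m
    refine wit_mono h (le_refl V) (le_refl _) (ww_spanW_mono hδD ?_) ?_
    · rw [← wsSq_card]
      exact_mod_cast Finset.card_filter_le _ _
    · rintro ω ⟨C, h1, h2, h3⟩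
      refine ⟨C, fun b' hb' => ⟨?_, (h1 b' hb').2⟩, h2, h3⟩
      exact Finset.mem_filter.2 ⟨ws_index hD0 b' (fun x hx => ((h1 b' hb').1 hx).2), (h1 b' hb').1⟩
  -- chains
  have w3 : Wit a b c V R (∑ N ∈ Finset.Icc P.Rh P.Rs, 4 * ((2 * (P.Rs : ℝ) + 1) ^ 2 * a *
      (4 * a * (1 + 2 / lam)) ^ ((N - 1) / 4) *
      Real.exp (lam * (N * P.v + 2 * (P.k + 1) * ((N - 1) / 4) : ℕ))))
      {ω | ∃ N ∈ Finset.Icc P.Rh P.Rs, ω ∈ {ω | ∃ i ∈ (Finset.univ : Finset (Fin 4)),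
        ω ∈ {ω | SeedChain i ω (annulus P.Rh P.Rs) ((N - 1) / 4)
          (N * P.v + 2 * (P.k + 1) * ((N - 1) / 4))}}} := by
    refine wit_biUnion (a := a) (b := b) (c := c) (V := V) (R := R) (Finset.Icc P.Rh P.Rs) _ _
      ha hb hc (fun N _ => ?_)
    have h := wit_biUnion (a := a) (b := b) (c := c) (V := V) (R := R)
      (Finset.univ : Finset (Fin 4)) (fun _ => (2 * (P.Rs : ℝ) + 1) ^ 2 * a *
      (4 * a * (1 + 2 / lam)) ^ ((N - 1) / 4) *
      Real.exp (lam * (N * P.v + 2 * (P.k + 1) * ((N - 1) / 4) : ℕ)))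
      (fun i => {ω | SeedChain i ω (annulus P.Rh P.Rs) ((N - 1) / 4)
          (N * P.v + 2 * (P.k + 1) * ((N - 1) / 4))}) ha hb hc (fun i _ => by
        have h := wit_chain V ha hb hc i (wsAnn P.Rh P.Rs) ((N - 1) / 4)
          (N * P.v + 2 * (P.k + 1) * ((N - 1) / 4)) lam hl
        rw [wsAnn_coe] at h
        refine wit_mono h (le_refl V) hann ?_ (le_refl _)
        have h1 := wsAnn_card P.Rh P.Rs
        gcongr)
    rw [Finset.sum_const, Finset.card_univ, Fintype.card_fin, nsmul_eq_mul] at h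
    push_cast at h
    push_cast
    exact h
  -- bad `D`-blocks near the nucleus
  have w4 : Wit a b c V R ((4 * (P.e : ℝ) + 4) ^ 2 * deltaD P.w P.d P.mw a b)
      {ω | ∃ b' : Site, win P.D 2 b' ⊆ annulus P.Rh (2 * P.W) ∧ DBad P.w P.d P.mw ω b'} := by
    set I : Finset Site := Finset.Ico (-(2 * (P.e:ℤ) + 2)) (2 * P.e + 2) ×ˢ
      Finset.Ico (-(2 * (P.e:ℤ) + 2)) (2 * P.e + 2) with hI
    have h := wit_biUnion (a := a) (b := b) (c := c) (V := V) (R := R)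
      (I.filter (fun b' => win P.D 2 b' ⊆ annulus P.Rh (2 * P.W)))
      (fun _ => deltaD P.w P.d P.mw a b) (fun b' => {ω | DBad P.w P.d P.mw ω b'}) ha hb hc
      (fun b' hb' => wit_mono
        (wit_dbad V ha ha1 hb hb1 hc P.w P.d P.mw (ww_d_pos hP) hP.hw haw b') (le_refl V)
        (fun x hx => ((Finset.mem_filter.1 hb').2 hx).1) le_rfl (le_refl _))
    rw [Finset.sum_const, nsmul_eq_mul] at h
    refine wit_mono h (le_refl V) (le_refl _) ?_ ?_
    · refine mul_le_mul_of_nonneg_right ?_ hδD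
      have h1 : ((I.filter (fun b' => win P.D 2 b' ⊆ annulus P.Rh (2 * P.W))).card : ℝ) ≤
          I.card := by exact_mod_cast Finset.card_filter_le _ _
      refine h1.trans (le_of_eq ?_)
      have h2 : (Finset.Ico (-(2 * (P.e:ℤ) + 2)) (2 * P.e + 2)).card = 4 * P.e + 4 := by
        rw [Int.card_Ico]
        omega
      rw [hI, Finset.card_product, h2]
      push_cast
      ring
    · rintro ω ⟨b', h1, h2⟩
      exact ⟨b', Finset.mem_filter.2 ⟨ws_near_index hP b' h1, h1⟩, h2⟩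
  -- bad `W`-blocks
  have hwb : ∀ β : Site, β ∉ Kset → Wit a b c V (wreg P β)
      (deltaW P.w P.d P.mw P.e P.s a b c) {ω | WBad P.w P.d P.mw P.e P.s ω β} := fun β hβ =>
    wit_wbad V ha ha1 hb hb1 hc P hP haw β ((ww_box_sub_wreg P β).trans (ws_wreg_far hP β hβ))
  have hwd : ∀ β β' : Site, 5 ≤ |β.1 - β'.1| ∨ 5 ≤ |β.2 - β'.2| →
      Disjoint (wreg P β) (wreg P β') := fun β β' h =>
    Disjoint.mono (ww_wreg_sub_win hP β) (ww_wreg_sub_win hP β')
      (ww_win_disj P.W 1 β β' 5 (by norm_num) h)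
  have w5 : Wit a b c V R (spanW P.m (deltaW P.w P.d P.mw P.e P.s a b c)
      ((2 * (P.Rs : ℝ) + 1) ^ 2))
      {ω | ∃ C : Set Site, (∀ β ∈ C, β ∉ Kset ∧ win P.W 1 β ⊆ {x | lay x ≤ P.Rs} ∧
        WBad P.w P.d P.mw P.e P.s ω β) ∧ Conn star C ∧ ¬ SpanLe P.m C} := by
    have h := wit_badspan (a := a) (b := b) (c := c) (V := V) (R := R) ha hb hc hδW hW1
      ((wsSq P.Rs).filter (fun β => β ∉ Kset))
      (fun β => {ω | WBad P.w P.d P.mw P.e P.s ω β}) (fun β => wreg P β)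
      (fun β hβ => hwb β (Finset.mem_filter.1 hβ).2)
      (fun β hβ => (ws_wreg_far hP β (Finset.mem_filter.1 hβ).2).trans hVR)
      (fun β _ β' _ h => hwd β β' h) P.m
    refine wit_mono h (le_refl V) (le_refl _) (ww_spanW_mono hδW ?_) ?_
    · rw [← wsSq_card]
      exact_mod_cast Finset.card_filter_le _ _
    · rintro ω ⟨C, h1, h2, h3⟩
      refine ⟨C, fun β hβ => ⟨?_, (h1 β hβ).2.2⟩, h2, h3⟩
      exact Finset.mem_filter.2 ⟨ws_index hW0 β (h1 β hβ).2.1, (h1 β hβ).1⟩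
  -- bad `W`-blocks near the origin
  have w6 : Wit a b c V R (nearSum (deltaW P.w P.d P.mw P.e P.s a b c) (3 * P.g * P.f))
      {ω | ∃ n : ℕ, NearBad (win (P.g * P.f) 1 (0, 0))
        {β | WBad P.w P.d P.mw P.e P.s ω β ∧ β ∉ Kset} (0, 0) n} := by
    have h := wit_biUnion (a := a) (b := b) (c := c) (V := V) (R := R)
      (Finset.range (3 * P.g * P.f + 1))
      (fun n => (2 * (n : ℝ) + 1) ^ 2 * 8 ^ n *
        (deltaW P.w P.d P.mw P.e P.s a b c) ^ ((n + 81) / 81))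
      (fun n => {ω | NearBad (win (P.g * P.f) 1 (0, 0) ∩ {β | β ∉ Kset})
        {β | ω ∈ {ω | WBad P.w P.d P.mw P.e P.s ω β}} (0, 0) n}) ha hb hc
      (fun n _ => wit_nearbad (a := a) (b := b) (c := c) (V := V) (R := R) ha hb hc hδW hW1
        (win (P.g * P.f) 1 (0, 0) ∩ {β | β ∉ Kset})
        (fun β => {ω | WBad P.w P.d P.mw P.e P.s ω β}) (fun β => wreg P β)
        (fun β hβ => hwb β hβ.2) (fun β hβ => (ws_wreg_far hP β hβ.2).trans hVR)
        (fun β _ β' _ h => hwd β β' h) (0, 0) n)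
    refine wit_mono h (le_refl V) (le_refl _) (le_refl _) ?_
    rintro ω ⟨n, C, h1, h2, h3, h4, x, hx, y, hy, h5⟩
    refine ⟨n, ?_, C, fun β hβ => ⟨h1 hβ, (h2 hβ).2⟩, fun β hβ => (h2 hβ).1, h3, h4, x, hx, y, hy,
      h5⟩
    have g1 := h1 hx
    have g2 := h1 hy
    simp only [win, Set.mem_ofPred_eq] at g1 g2
    push_cast at g1 g2
    have h6 : (n:ℤ) ≤ 3 * P.g * P.f := by
      rcases h5 with h | h
      · rw [← h, abs_le]
        constructor <;> linarith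
      · rw [← h, abs_le]
        constructor <;> linarith
    have h7 : n ≤ 3 * P.g * P.f := by exact_mod_cast h6
    exact Finset.mem_range.2 (by omega)
  -- bad `T`-boxes near the origin
  have w7 : Wit a b c V R (nearSum (deltaT P a b c) mT)
      {ω | ∃ n ≤ mT, NearBad (ball (0, 0) mT)
        {z | TBad P ω z ∧ ¬ (|z.1| ≤ 4 ∧ |z.2| ≤ 4)} (0, 0) n} := by
    have h := wit_biUnion (a := a) (b := b) (c := c) (V := V) (R := R)
      (Finset.range (mT + 1))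
      (fun n => (2 * (n : ℝ) + 1) ^ 2 * 8 ^ n * (deltaT P a b c) ^ ((n + 81) / 81))
      (fun n => {ω | NearBad (ball (0, 0) mT ∩ {z | ¬ (|z.1| ≤ 4 ∧ |z.2| ≤ 4)})
        {z | ω ∈ {ω | TBad P ω z}} (0, 0) n}) ha hb hc
      (fun n _ => wit_nearbad (a := a) (b := b) (c := c) (V := V) (R := R) ha hb hc hδT hT1
        (ball (0, 0) mT ∩ {z | ¬ (|z.1| ≤ 4 ∧ |z.2| ≤ 4)})
        (fun z => {ω | TBad P ω z}) (fun z => win P.T 2 z)
        (fun z hz => wit_tbad V ha ha1 hb hb1 hc P hP haw hD1 hW1 z (ws_twin_far hP z hz.2))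
        (fun z hz => (ws_twin_far hP z hz.2).trans hVR)
        (fun z _ z' _ h => ww_win_disj P.T 2 z z' 5 (by norm_num) h) (0, 0) n)
    refine wit_mono h (le_refl V) (le_refl _) (le_refl _) ?_
    rintro ω ⟨n, hn, C, h1, h2, h3, h4, h5⟩
    exact ⟨n, Finset.mem_range.2 (by omega), C, fun z hz => ⟨h1 hz, (h2 hz).2⟩,
      fun z hz => (h2 hz).1, h3, h4, h5⟩
  -- the union
  refine wit_mono (wit_union ha hb hc (wit_union ha hb hc (wit_union ha hb hc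
    (wit_union ha hb hc (wit_union ha hb hc (wit_union ha hb hc w1 w2) w3) w4) w5) w6) w7)
    (le_refl V) (le_refl _) (le_refl _) ?_
  rintro ω (hω | hω)
  · left
    by_contra hcon
    simp only [Set.mem_union, not_or] at hcon
    obtain ⟨⟨⟨⟨⟨c1, c2⟩, c3⟩, c4⟩, c5⟩, c6⟩ := hcon
    apply hω
    refine ⟨c1, ?_, ?_, ?_, ?_, ?_⟩
    · intro C h1 h2
      by_contra h3
      exact c2 ⟨C, h1, h2, h3⟩
    · intro i N h1 h2 h3
      exact c3 ⟨N, Finset.mem_Icc.2 ⟨h1, h2⟩, i, Finset.mem_univ _, h3⟩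
    · intro b' h1 h2
      exact c4 ⟨b', h1, h2⟩
    · intro C h1 h2
      by_contra h3
      exact c5 ⟨C, h1, h2, h3⟩
    · intro n h1
      exact c6 ⟨n, h1⟩
  · right
    exact hω

end TSB
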