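import Pool.Agent.TSB.Mu
import Pool.Agent.TSB.Wspec
import Pool.Agent.TSB.Nucdom
import Pool.Agent.TSB.Nucpb
open MeasureTheory
open scoped Classical

namespace TSB

/-! ## Module TRIAL2 -/

theorem tr2_bigPart {k : ℕ} {R : Set Site} {ω ω' : Config} (h : ∀ x ∈ R, ω x = ω' x)
    (hB : BigPart k R ω) : BigPart k R ω' := by
  obtain ⟨B, h1, h2, h3, h4⟩ := hB
  exact ⟨B, h1, fun x hx => ⟨(h x (h2 x hx).2) ▸ (h2 x hx).1, (h2 x hx).2⟩, h3, h4⟩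

theorem tr2_seedChain {i : Fin 4} {R : Set Site} {n T : ℕ} {ω ω' : Config}
    (h : ∀ x ∈ R, ω x = ω' x) (hB : SeedChain i ω R n T) : SeedChain i ω' R n T := by
  obtain ⟨f, h1, h2⟩ := hB
  exact ⟨f, fun j hj => ⟨(h _ (h1 j hj).2) ▸ (h1 j hj).1, (h1 j hj).2⟩, h2⟩

theorem tr2_hrun {ω ω' : Config} {R : Set Site} {a b : Site} (h : ∀ x ∈ R, ω x = ω' x)
    (hB : HRun ω R a b) : HRun ω' R a b := by
  obtain ⟨h1, h2, h3⟩ := hB
  refine ⟨h1, h2, fun x e1 e2 e3 => ?_⟩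
  have := h3 x e1 e2 e3
  exact ⟨(h x this.2) ▸ this.1, this.2⟩

theorem tr2_vrun {ω ω' : Config} {R : Set Site} {a b : Site} (h : ∀ x ∈ R, ω x = ω' x)
    (hB : VRun ω R a b) : VRun ω' R a b := by
  obtain ⟨h1, h2, h3⟩ := hB
  refine ⟨h1, h2, fun x e1 e2 e3 => ?_⟩
  have := h3 x e1 e2 e3
  exact ⟨(h x this.2) ▸ this.1, this.2⟩

theorem tr2_near {ω ω' : Config} {R : Set Site} {a b : Site} (h : ∀ x ∈ R, ω x = ω' x)
    (hB : NearTwo ω R a b) : NearTwo ω' R a b := by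
  obtain ⟨h1, h2, h3⟩ := hB
  exact ⟨(h b h2) ▸ h1, h2, h3⟩

theorem tr2_hole {ω ω' : Config} {R : Set Site} (h : ∀ x ∈ R, ω x = ω' x)
    (hB : HoleWit ω R) : HoleWit ω' R := by
  obtain ⟨a, b, a', b', c, c', za, zb, za', zb', zc, zc', h1, h2, h3, h4, n1, n2, n3, n4, n5, n6,
    rest⟩ := hB
  exact ⟨a, b, a', b', c, c', za, zb, za', zb', zc, zc', tr2_hrun h h1, tr2_hrun h h2,
    tr2_vrun h h3, h4, tr2_near h n1, tr2_near h n2, tr2_near h n3, tr2_near h n4, tr2_near h n5,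
    tr2_near h n6, rest⟩

theorem tr2_dbad {w d mw : ℕ} (hw : 3 ≤ w) (hd : 1 ≤ d) {ω ω' : Config} {b : Site}
    (h : ∀ x ∈ win (d * w) 2 b, ω x = ω' x) (hB : DBad w d mw ω b) : DBad w d mw ω' b := by
  rcases hB with hB | hB | hB | hB
  · refine Or.inl ?_
    obtain ⟨x, hx, y, hy, z, hz, h1, h2, h3, rest⟩ := hB
    exact ⟨x, hx, y, hy, z, hz, (h x hx) ▸ h1, (h y hy) ▸ h2, (h z hz) ▸ h3, rest⟩
  · refine Or.inr (Or.inl ?_)
    rcases hB with ⟨x, hx⟩ | ⟨x, hx⟩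
    · exact Or.inl ⟨x, fun i hi => ⟨(hx i hi).1, (h _ (hx i hi).1) ▸ (hx i hi).2⟩⟩
    · exact Or.inr ⟨x, fun i hi => ⟨(hx i hi).1, (h _ (hx i hi).1) ▸ (hx i hi).2⟩⟩
  · refine Or.inr (Or.inr (Or.inl ?_))
    obtain ⟨C, h1, h2, h3, h4⟩ := hB
    refine ⟨C, h1, fun c hc => ?_, h3, h4⟩
    obtain ⟨z, hz, x1, x2, x3, x4⟩ := h2 c hc
    refine ⟨z, ?_, x1, x2, x3, x4⟩
    rw [← h z ?_]
    · exact hz
    obtain ⟨z1, z2, z3, z4⟩ := h1 hc
    have hw' : (3 : ℤ) ≤ w := by exact_mod_cast hw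
    have hd' : (1 : ℤ) ≤ d := by exact_mod_cast hd
    have hdw : (3 : ℤ) ≤ d * w := by nlinarith
    have e1 : ((b.1 - 1) * d) * (w : ℤ) ≤ c.1 * w :=
      mul_le_mul_of_nonneg_right (by exact_mod_cast z1) (by linarith)
    have e2 : (c.1 + 1) * (w : ℤ) ≤ ((b.1 + 1 + 1) * d) * w :=
      mul_le_mul_of_nonneg_right (by push_cast at z2; linarith) (by linarith)
    have e3 : ((b.2 - 1) * d) * (w : ℤ) ≤ c.2 * w :=
      mul_le_mul_of_nonneg_right (by exact_mod_cast z3) (by linarith)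
    have e4 : (c.2 + 1) * (w : ℤ) ≤ ((b.2 + 1 + 1) * d) * w :=
      mul_le_mul_of_nonneg_right (by push_cast at z4; linarith) (by linarith)
    refine ⟨?_, ?_, ?_, ?_⟩ <;> push_cast <;> nlinarith
  · exact Or.inr (Or.inr (Or.inr (tr2_hole h hB)))

theorem tr2_wbad {P : Par} (hP : P.Ok) {ω ω' : Config} {β : Site}
    (h : ∀ x ∈ wreg P β, ω x = ω' x) (hB : WBad P.w P.d P.mw P.e P.s ω β) :
    WBad P.w P.d P.mw P.e P.s ω' β := by
  have hD : (0 : ℤ) ≤ ((P.d * P.w : ℕ) : ℤ) := by positivity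
  have hs : (0 : ℤ) ≤ (P.s : ℤ) := by positivity
  have hbox : box (P.e * (P.d * P.w)) β ⊆ wreg P β := by
    rintro x ⟨x1, x2, x3, x4⟩
    simp only [wreg, Par.W, Par.D, Set.mem_ofPred_eq]
    have hpos : (0 : ℤ) ≤ (3 * (P.s : ℤ) + 3) * ((P.d * P.w : ℕ) : ℤ) := by positivity
    refine ⟨?_, ?_, ?_, ?_⟩ <;> linarith
  rcases hB with ⟨b, ⟨b1, b2, b3, b4⟩, hb⟩ | ⟨i, i1, i2, hi⟩ | ⟨i, i1, i2, hi⟩
  · refine Or.inl ⟨b, ⟨b1, b2, b3, b4⟩, tr2_dbad hP.hw (by have := hP.hd; omega) ?_ hb⟩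
    rintro x ⟨x1, x2, x3, x4⟩
    apply h
    have m1 := mul_le_mul_of_nonneg_right b1 hD
    have m2 := mul_le_mul_of_nonneg_right (Int.add_one_le_iff.2 b2) hD
    have m3 := mul_le_mul_of_nonneg_right b3 hD
    have m4 := mul_le_mul_of_nonneg_right (Int.add_one_le_iff.2 b4) hD
    simp only [wreg, Par.W, Par.D, Set.mem_ofPred_eq]
    push_cast at *
    refine ⟨?_, ?_, ?_, ?_⟩ <;> nlinarith
  · exact Or.inr (Or.inl ⟨i, i1, i2, fun x hx hxi => (h x (hbox hx)) ▸ hi x hx hxi⟩)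
  · exact Or.inr (Or.inr ⟨i, i1, i2, fun x hx hxi => (h x (hbox hx)) ▸ hi x hx hxi⟩)

theorem tr2_wreg_sub {P : Par} (hP : P.Ok) (β : Site) : wreg P β ⊆ win P.W 1 β := by
  rintro x ⟨x1, x2, x3, x4⟩
  have he : (3 * (P.s : ℤ) + 3) * (P.D : ℤ) ≤ P.W := by
    have h1 : 3 * P.s + 3 ≤ P.e := by have := hP.he; omega
    have h2 : (3 * P.s + 3) * P.D ≤ P.e * P.D := Nat.mul_le_mul_right _ h1
    exact_mod_cast h2
  refine ⟨?_, ?_, ?_, ?_⟩ <;> push_cast <;> linarith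

theorem tr2_tbad {P : Par} (hP : P.Ok) {ω ω' : Config} {z : Site}
    (h : ∀ x ∈ win P.T 2 z, ω x = ω' x) (hB : TBad P ω z) : TBad P ω' z := by
  rcases hB with hB | ⟨C, h1, h2, h3⟩ | ⟨C, h1, h2, h3⟩
  · exact Or.inl (tr2_bigPart h hB)
  · refine Or.inr (Or.inl ⟨C, fun b hb => ⟨(h1 b hb).1, ?_⟩, h2, h3⟩)
    exact tr2_dbad hP.hw (by have := hP.hd; omega) (fun x hx => h x ((h1 b hb).1 hx)) (h1 b hb).2
  · refine Or.inr (Or.inr ⟨C, fun b hb => ⟨(h1 b hb).1, ?_⟩, h2, h3⟩)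
    exact tr2_wbad hP (fun x hx => h x ((h1 b hb).1 (tr2_wreg_sub hP b hx))) (h1 b hb).2

theorem tr2_nearBad {Λ bad bad' : Set Site} {x : Site} {n : ℕ} (h : ∀ z ∈ Λ, z ∈ bad → z ∈ bad')
    (hB : NearBad Λ bad x n) : NearBad Λ bad' x n := by
  obtain ⟨C, h1, h2, h3⟩ := hB
  exact ⟨C, h1, fun z hz => h z (h1 hz) (h2 hz), h3⟩

theorem tr2_lay_sd (i : Fin 4) {r y : ℤ} (h : |y| ≤ r) : lay (sd i r y) = r := by
  have hr : 0 ≤ r := le_trans (abs_nonneg _) h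
  fin_cases i <;> simp [lay, sd, abs_of_nonneg hr, h]

theorem tr2_zone {r : ℕ} {y : ℤ} (h : zoneOK r y) : |y| ≤ r := by
  obtain ⟨h1, h2⟩ := h
  have h3 : ((r % 4 : ℕ) : ℤ) ≤ 3 := by
    have : r % 4 < 4 := Nat.mod_lt _ (by norm_num)
    omega
  have h4 : (0 : ℤ) ≤ ((r % 4 : ℕ) : ℤ) := by positivity
  have hr : (0 : ℤ) ≤ r := by positivity
  rw [abs_le]
  constructor <;> nlinarith

/-- sizes -/
theorem tr2_sizes {P : Par} (hP : P.Ok) : 4 * P.j0 ≤ P.W ∧ 2 * P.Rh ≤ P.W ∧ P.j0 ≤ P.W ∧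
    1 ≤ P.D ∧ P.W ≤ P.T ∧ 3 * P.T ≤ P.Rs := by
  have h1 := hP.hRj
  have h2 := hP.hW
  have hD : 1 ≤ P.D := by
    have a1 := hP.hw
    have a2 := hP.hd
    exact Nat.mul_pos (by omega) (by omega)
  have hs : 2 ≤ P.s := by have := hP.hs; omega
  have hg : 1 ≤ P.g := by
    have h3 : 400 * P.s * P.D ≤ P.g := hP.hg
    have h4 : 1 ≤ 400 * P.s * P.D := Nat.mul_pos (by omega) (by omega)
    omega
  have hWT : P.W ≤ P.T := by
    have h5 : P.W ≤ P.T0 := Nat.le_mul_of_pos_left _ hP.hf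
    exact le_trans h5 (Nat.le_mul_of_pos_left _ hg)
  have hRs : 3 * P.T ≤ P.Rs := by
    have h6 : 3 ≤ 2000 * P.s * P.D := by nlinarith
    exact Nat.mul_le_mul_right _ h6
  refine ⟨by omega, by omega, by omega, hD, hWT, hRs⟩

theorem tr2_nuc {P : Par} (hP : P.Ok) {ω ω' : Config} (h : ∀ x, lay x ≤ P.W → ω x = ω' x)
    {hh : ℕ → Fin 4 → ℤ} (hN : Nuc2 P ω hh) : Nuc2 P ω' hh := by
  obtain ⟨s1, s2, s3, s4, s5, s6⟩ := tr2_sizes hP
  have s1' : 4 * (P.j0 : ℤ) ≤ P.W := by exact_mod_cast s1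
  have s2' : 2 * (P.Rh : ℤ) ≤ P.W := by exact_mod_cast s2
  have s3' : (P.j0 : ℤ) ≤ P.W := by exact_mod_cast s3
  have hdense : ∀ r g : ℕ, r ≤ P.W → DenseSide ω r g → DenseSide ω' r g := by
    intro r g hr hd i y y1 y2
    obtain ⟨j, hj, hj'⟩ := hd i y y1 y2
    refine ⟨j, hj, ?_⟩
    rw [← h _ ?_]
    · exact hj'
    have hr' : (r : ℤ) ≤ P.W := by exact_mod_cast hr
    rw [tr2_lay_sd]
    · exact hr'
    · rw [abs_le]
      constructor <;> linarith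
  refine ⟨?_, ?_, ?_, ?_, ?_, ?_⟩
  · intro x hx
    rw [← h x (by linarith)]
    exact hN.core x hx
  · intro r hr1 hr2
    obtain ⟨c1, c2⟩ := hN.ctrl r hr1 hr2
    have hr' : (r : ℤ) ≤ P.W := by
      have : r ≤ P.W := by omega
      exact_mod_cast this
    refine ⟨fun i => ⟨(c1 i).1, ?_⟩, fun x hx hx' => c2 x hx ?_⟩
    · rw [← h _ ?_]
      · exact (c1 i).2
      · rw [tr2_lay_sd i (tr2_zone (c1 i).1)]
        exact hr'
    · rw [h x (by linarith)]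
      exact hx'
  · intro x hx1 hx2
    rw [← h x (by linarith)]
    exact hN.ann x hx1 hx2
  · intro r hr1 hr2
    refine hdense _ _ ?_ (hN.dense1 r hr1 hr2)
    have := hP.hRr
    omega
  · intro r hr1 hr2
    exact hdense _ _ (by omega) (hN.dense2 r hr1 hr2)
  · intro r hr1 hr2 i
    obtain ⟨y, hy, hy'⟩ := hN.outer r hr1 hr2 i
    refine ⟨y, hy, ?_⟩
    rw [← h _ ?_]
    · exact hy'
    · rw [tr2_lay_sd i hy.le]
      exact_mod_cast hr2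

theorem tr2_mem_sq (R : ℕ) (x : Site) :
    x ∈ Finset.Icc (-(R : ℤ), -(R : ℤ)) ((R : ℤ), (R : ℤ)) ↔ lay x ≤ R := by
  rw [Finset.mem_Icc, Prod.le_def, Prod.le_def]
  simp only [lay, max_le_iff, abs_le]
  tauto

theorem tr2_nev_depOn (P : Par) (hP : P.Ok) :
    DepOn (Nev P) (Finset.Icc (-(P.W : ℤ), -(P.W : ℤ)) ((P.W : ℤ), (P.W : ℤ))) := by
  have key : ∀ ω ω' : Config, (∀ x, lay x ≤ P.W → ω x = ω' x) → ω ∈ Nev P → ω' ∈ Nev P := by
    rintro ω ω' h ⟨hh, hN⟩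
    exact ⟨hh, tr2_nuc hP h hN⟩
  intro ω ω' h
  have h' : ∀ x, lay x ≤ P.W → ω x = ω' x := fun x hx => h x ((tr2_mem_sq _ _).2 hx)
  exact ⟨key ω ω' h', key ω' ω fun x hx => (h' x hx).symm⟩

theorem tr2_spec {P : Par} (hP : P.Ok) {ω ω' : Config} (h : ∀ x, lay x ≤ P.Rs → ω x = ω' x)
    (hS : SpecOk P ω) : SpecOk P ω' := by
  obtain ⟨s1, s2, s3, s4, s5, s6⟩ := tr2_sizes hP
  have hd : 1 ≤ P.d := by have := hP.hd; omega
  have h' : ∀ x, lay x ≤ P.Rs → ω' x = ω x := fun x hx => (h x hx).symm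
  have han : ∀ x ∈ annulus P.Rh P.Rs, ω' x = ω x := fun x hx => h' x hx.2
  have hW2 : 2 * (P.W : ℤ) ≤ P.Rs := by
    have : 2 * P.W ≤ P.Rs := by omega
    exact_mod_cast this
  refine ⟨?_, ?_, ?_, ?_, ?_, ?_⟩
  · exact fun hB => hS.big (tr2_bigPart han hB)
  · intro C hC hconn
    exact hS.dspan C (fun b hb => ⟨(hC b hb).1, tr2_dbad hP.hw hd
      (fun x hx => han x ((hC b hb).1 hx)) (hC b hb).2⟩) hconn
  · intro i N hN1 hN2 hB
    exact hS.chain i N hN1 hN2 (tr2_seedChain han hB)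
  · intro b hb hB
    refine hS.near b hb (tr2_dbad hP.hw hd (fun x hx => h' x ?_) hB)
    exact le_trans (hb hx).2 hW2
  · intro C hC hconn
    refine hS.wspan C (fun β hβ => ⟨(hC β hβ).1, (hC β hβ).2.1, ?_⟩) hconn
    exact tr2_wbad hP (fun x hx => h' x ((hC β hβ).2.1 (tr2_wreg_sub hP β hx))) (hC β hβ).2.2
  · intro n hB
    refine hS.wnear n (tr2_nearBad (fun β hβ hbad => ⟨?_, hbad.2⟩) hB)
    refine tr2_wbad hP (fun x hx => h' x ?_) hbad.1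
    obtain ⟨x1, x2, x3, x4⟩ := tr2_wreg_sub hP β hx
    obtain ⟨b1, b2, b3, b4⟩ := hβ
    simp only [Nat.cast_one] at x1 x2 x3 x4 b1 b2 b3 b4
    have hT : (P.T : ℤ) = (P.g * P.f : ℕ) * (P.W : ℤ) := by
      simp only [Par.T, Par.T0]; push_cast; ring
    have hWp : (0 : ℤ) ≤ P.W := by positivity
    have s6' : 3 * (P.T : ℤ) ≤ P.Rs := by exact_mod_cast s6
    have s5' : (P.W : ℤ) ≤ P.T := by exact_mod_cast s5
    have m1 := mul_le_mul_of_nonneg_right b1 hWp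
    have m2 := mul_le_mul_of_nonneg_right (Int.add_one_le_iff.2 b2) hWp
    have m3 := mul_le_mul_of_nonneg_right b3 hWp
    have m4 := mul_le_mul_of_nonneg_right (Int.add_one_le_iff.2 b4) hWp
    simp only [lay, max_le_iff, abs_le]
    refine ⟨⟨?_, ?_⟩, ?_, ?_⟩ <;> nlinarith

theorem tr_depOn (P : Par) (hP : P.Ok) (mT : ℕ) :
    DepOn (Tr P mT) (Finset.Icc (-(trRadius P mT : ℤ), -(trRadius P mT : ℤ))
      ((trRadius P mT : ℤ), (trRadius P mT : ℤ))) := by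
  obtain ⟨s1, s2, s3, s4, s5, s6⟩ := tr2_sizes hP
  have hW : (P.W : ℤ) ≤ trRadius P mT := by
    have : P.W ≤ trRadius P mT := by
      unfold trRadius
      omega
    exact_mod_cast this
  have hRs : (P.Rs : ℤ) ≤ trRadius P mT := by
    have : P.Rs ≤ trRadius P mT := Nat.le_add_right _ _
    exact_mod_cast this
  have hT : ((mT : ℤ) + 4) * P.T ≤ trRadius P mT := by
    have : (mT + 4) * P.T ≤ trRadius P mT := Nat.le_add_left _ _
    exact_mod_cast this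
  have key : ∀ ω ω' : Config, (∀ x, lay x ≤ trRadius P mT → ω x = ω' x) →
      ω ∈ Tr P mT → ω' ∈ Tr P mT := by
    rintro ω ω' h ⟨⟨hh, hN⟩, hS, hT'⟩
    refine ⟨⟨hh, tr2_nuc hP (fun x hx => h x (le_trans hx hW)) hN⟩,
      tr2_spec hP (fun x hx => h x (le_trans hx hRs)) hS, fun n hn hB => hT' n hn ?_⟩
    refine tr2_nearBad (fun z hz hbad => ⟨?_, hbad.2⟩) hB
    refine tr2_tbad hP (fun x hx => (h x ?_).symm) hbad.1
    obtain ⟨x1, x2, x3, x4⟩ := hx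
    obtain ⟨z1, z2⟩ := hz
    simp only [sub_zero, abs_le] at z1 z2
    have hTp : (0 : ℤ) ≤ P.T := by positivity
    refine le_trans ?_ hT
    simp only [lay, max_le_iff, abs_le]
    push_cast at x1 x2 x3 x4
    have m1 := mul_le_mul_of_nonneg_right z1.1 hTp
    have m2 := mul_le_mul_of_nonneg_right z1.2 hTp
    have m3 := mul_le_mul_of_nonneg_right z2.1 hTp
    have m4 := mul_le_mul_of_nonneg_right z2.2 hTp
    refine ⟨⟨?_, ?_⟩, ?_, ?_⟩ <;> nlinarith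
  intro ω ω' h
  have h' : ∀ x, lay x ≤ trRadius P mT → ω x = ω' x := fun x hx => h x ((tr2_mem_sq _ _).2 hx)
  exact ⟨key ω ω' h', key ω' ω fun x hx => (h' x hx).symm⟩

theorem tr2_nucLow_nonneg {p q : ℝ} (hp : 0 ≤ p) (hq : 0 ≤ q) (hq1 : q ≤ 1) (P : Par) :
    0 ≤ nucLow P p q := by
  unfold nucLow
  have h1 : 0 ≤ 1 - q := by linarith
  refine mul_nonneg (mul_nonneg (mul_nonneg (mul_nonneg (mul_nonneg (by positivity) ?_)
    (by positivity)) (by positivity)) ?_) (by norm_num)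
  · exact Finset.prod_nonneg fun r _ => by positivity
  · exact Finset.prod_nonneg fun r _ => by positivity

theorem tr_prob {p q lam : ℝ} (hp : 0 < p) (hq : 0 < q) (hp' : p ≤ 1 / 100) (hqp : q ≤ p ^ 2)
    (hl : 0 < lam) (P : Par) (hP : P.Ok) (mT : ℕ) (hRh : 20 ≤ q * P.Rh)
    (hg1 : (1 - p) ^ (P.g1 / 2 - 1) ≤ 1 / 4) (hg2 : 8 ≤ P.g1)
    (hw : 100 * ((P.Rh : ℝ)) ^ 2 * (1 - p) ^ (P.w - 1) ≤ p / 100)
    (haw : 2 * q * ((P.w : ℝ) + 4) ^ 2 ≤ 1)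
    (hD1 : deltaD P.w P.d P.mw (2 * q) (1 - p / 2) ≤ 1)
    (hW1 : deltaW P.w P.d P.mw P.e P.s (2 * q) (1 - p / 2) (1 - q) ≤ 1)
    (hT1 : deltaT P (2 * q) (1 - p / 2) (1 - q) ≤ 1)
    (hS : deltaS P mT (2 * q) (1 - p / 2) (1 - q) lam ≤ 1 / 2) :
    nucLow P p q / 2 ≤ (law p q).real (Tr P mT) := by
  have hq2 : q ≤ 1 / 10000 := by nlinarith
  have hpq : p + q ≤ 1 / 2 := by linarith
  have := law_isProb hp.le hq.le (by linarith : p + q ≤ 1)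
  have hlow := nuc_prob hp hq hpq P hP hg1 hg2 (by linarith)
  have hnn := tr2_nucLow_nonneg hp.le hq.le (by linarith) P
  by_cases hN : (law p q).real (Nev P) = 0
  · have : nucLow P p q = 0 := le_antisymm (by linarith) hnn
    rw [this]
    simp
  have hN' : 0 < (law p q).real (Nev P) := lt_of_le_of_ne measureReal_nonneg (Ne.symm hN)
  have hdom := nuc_dom hp hq hp' hqp P hP hRh hw hN'
  have hwit := wit_spec (a := 2 * q) (b := 1 - p / 2) (c := 1 - q) (by linarith) (by linarith)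
    (by linarith) (by linarith) (by linarith) P hP haw hD1 hW1 hT1 mT lam hl
  set E : Set Config := {ω | ¬ SpecOk P ω ∨ ∃ n ≤ mT, NearBad (ball (0, 0) mT)
        {z | TBad P ω z ∧ ¬ (|z.1| ≤ 4 ∧ |z.2| ≤ 4)} (0, 0) n} with hE
  have hmeas : MeasurableSet (Nev P) := depOn_measurable (tr2_nev_depOn P hP)
  have hle := wit_measure hwit hdom subset_rfl
  have hcond : (law p q).real (Nev P ∩ E) ≤ (law p q).real (Nev P) * (1 / 2) := by
    have h1 : (ProbabilityTheory.cond (law p q) (Nev P)).real E =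
        ((law p q).real (Nev P))⁻¹ * (law p q).real (Nev P ∩ E) := by
      rw [measureReal_def, ProbabilityTheory.cond_apply hmeas, ENNReal.toReal_mul,
        ENNReal.toReal_inv]
      rfl
    rw [h1] at hle
    have h2 : ((law p q).real (Nev P))⁻¹ * (law p q).real (Nev P ∩ E) ≤ 1 / 2 := le_trans hle hS
    rw [inv_mul_le_iff₀ hN'] at h2
    exact h2
  have hunion : (law p q).real (Nev P) ≤ (law p q).real (Nev P ∩ E) + (law p q).real (Tr P mT) := by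
    refine le_trans (measureReal_mono (μ := law p q) (s₂ := (Nev P ∩ E) ∪ Tr P mT) ?_)
      (measureReal_union_le _ _)
    intro ω hω
    by_cases hωE : ω ∈ E
    · exact Or.inl ⟨hω, hωE⟩
    · refine Or.inr ⟨hω, ?_, fun n hn hB => ?_⟩
      · by_contra hc
        exact hωE (Or.inl hc)
      · exact hωE (Or.inr ⟨n, hn, hB⟩)
  linarith

end TSB
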