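import Pool.Agent.TSB.Defs
import Pool.Agent.TSB.PartsB

open scoped Classical

namespace TSB

/-! ## Module WBIG: the weight of a merged set of twos of intermediate size -/

/-- the candidate sites of the witness -/
private def wbSite {K : ℕ} (p : Site) (dir : Bool) (f : Fin K → ℕ × ℤ) (j : Fin K) : Site :=
  if dir then (p.1 + 2 * (j : ℕ) + (f j).1, p.2 + (f j).2)
  else (p.1 + (f j).2, p.2 + 2 * (j : ℕ) + (f j).1)

private noncomputable def wbIdx (k K : ℕ) (R : Finset Site) :
    Finset (Site × Bool × (Fin K → ℕ × ℤ)) :=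
  R ×ˢ (Finset.univ : Finset Bool) ×ˢ
    Fintype.piFinset (fun _ : Fin K => Finset.range 2 ×ˢ Finset.Icc (-(2 * k : ℕ) : ℤ) (2 * k : ℕ))

private noncomputable def wbTri {K : ℕ} (i : Site × Bool × (Fin K → ℕ × ℤ)) : Tri :=
  (Finset.univ.image (wbSite i.1 i.2.1 i.2.2), ∅, ∅)

private theorem wbIdx_card (k K : ℕ) (R : Finset Site) :
    (wbIdx k K R).card = R.card * (2 * (2 * (4 * k + 1)) ^ K) := by
  unfold wbIdx
  rw [Finset.card_product, Finset.card_product, Fintype.card_piFinset_const,
    Finset.card_product, Finset.card_range, Int.card_Icc]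
  congr 2
  congr 2
  omega

private theorem wbTri_card {k K : ℕ} {R : Finset Site} {i : Site × Bool × (Fin K → ℕ × ℤ)}
    (hi : i ∈ wbIdx k K R) : (wbTri i).1.card = K := by
  unfold wbTri
  simp only
  rw [Finset.card_image_of_injective, Finset.card_univ, Fintype.card_fin]
  intro j j' hjj
  unfold wbIdx at hi
  rw [Finset.mem_product, Finset.mem_product] at hi
  have hf := Fintype.mem_piFinset.1 hi.2.2
  have h1 := Finset.mem_range.1 (Finset.mem_product.1 (hf j)).1
  have h2 := Finset.mem_range.1 (Finset.mem_product.1 (hf j')).1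
  unfold wbSite at hjj
  split_ifs at hjj with hd
  · have := (Prod.mk.inj hjj).1
    apply Fin.ext
    omega
  · have := (Prod.mk.inj hjj).2
    apply Fin.ext
    omega

theorem wit_bigpart {a b c : ℝ} (V : Set Site) (ha : 0 ≤ a) (hb : 0 ≤ b) (hc : 0 ≤ c) (k : ℕ)
    (R : Finset Site) :
    Wit a b c V (R : Set Site) (bigW k a R.card) {ω | BigPart k (R : Set Site) ω} := by
  set K := k / 2 with hK
  refine ⟨((wbIdx k K R).image wbTri).filter (fun τ => τ.1 ⊆ R), ?_, ?_, ?_⟩
  · intro τ hτ
    obtain ⟨h1, h2⟩ := Finset.mem_filter.1 hτ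
    obtain ⟨i, _, rfl⟩ := Finset.mem_image.1 h1
    refine ⟨⟨?_, ?_, ?_⟩, ?_, ?_, ?_⟩
    · exact Finset.disjoint_empty_right _
    · exact Finset.disjoint_empty_right _
    · exact Finset.disjoint_empty_right _
    · exact_mod_cast h2
    · simp [wbTri]
    · simp [wbTri]
  · rintro ω ⟨B, hB, hBR, hsp, x, hx, y, hy, hxy⟩
    -- choose the direction and the first site
    have key : ∃ (p : Site) (dir : Bool) (f : Fin K → ℕ × ℤ), p ∈ R ∧
        (∀ j, (f j).1 < 2 ∧ -((2 * k : ℕ) : ℤ) ≤ (f j).2 ∧ (f j).2 ≤ (2 * k : ℕ)) ∧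
        ∀ j, wbSite p dir f j ∈ B := by
      rcases hxy with hxy | hxy
      · obtain ⟨p, hp, hmin⟩ := B.exists_min_image (fun a => a.1) ⟨x, hx⟩
        have hfar : ∃ z ∈ B, p.1 + k ≤ z.1 := by
          have h1 := hmin x hx
          have h2 := hmin y hy
          rcases le_total x.1 y.1 with hle | hle
          · exact ⟨y, hy, by rw [abs_of_nonpos (by omega)] at hxy; omega⟩
          · exact ⟨x, hx, by rw [abs_of_nonneg (by omega)] at hxy; omega⟩
        obtain ⟨z, hz, hpz⟩ := hfar
        have hch : ∀ j : Fin K, ∃ q : ℕ × ℤ, (q.1 < 2 ∧ -((2 * k : ℕ) : ℤ) ≤ q.2 ∧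
            q.2 ≤ (2 * k : ℕ)) ∧ ((p.1 + 2 * (j : ℕ) + q.1, p.2 + q.2) : Site) ∈ B := by
          intro j
          have hj := j.2
          obtain ⟨a', ha', hc'⟩ := mg_tight1 hB (p.1 + 2 * (j : ℕ)) ⟨p, hp, by omega⟩
            ⟨z, hz, by omega⟩
          have hs := (hsp a' ha' p hp).2
          rw [abs_le] at hs
          rcases hc' with hc' | hc'
          · refine ⟨(0, a'.2 - p.2), ⟨by simp, ?_, ?_⟩, ?_⟩
            · simp only; omega
            · simp only; omega
            · have : ((p.1 + 2 * ((j : ℕ) : ℤ) + ((0 : ℕ) : ℤ), p.2 + (a'.2 - p.2)) : Site) = a' := by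
                apply Prod.ext
                · simp only; omega
                · simp only; omega
              rw [this]; exact ha'
          · refine ⟨(1, a'.2 - p.2), ⟨by simp, ?_, ?_⟩, ?_⟩
            · simp only; omega
            · simp only; omega
            · have : ((p.1 + 2 * ((j : ℕ) : ℤ) + ((1 : ℕ) : ℤ), p.2 + (a'.2 - p.2)) : Site) = a' := by
                apply Prod.ext
                · simp only; omega
                · simp only; omega
              rw [this]; exact ha'
        choose f hf1 hf2 using hch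
        refine ⟨p, true, f, by exact_mod_cast (hBR p hp).2, hf1, fun j => ?_⟩
        unfold wbSite
        rw [if_pos rfl]
        exact hf2 j
      · obtain ⟨p, hp, hmin⟩ := B.exists_min_image (fun a => a.2) ⟨x, hx⟩
        have hfar : ∃ z ∈ B, p.2 + k ≤ z.2 := by
          have h1 := hmin x hx
          have h2 := hmin y hy
          rcases le_total x.2 y.2 with hle | hle
          · exact ⟨y, hy, by rw [abs_of_nonpos (by omega)] at hxy; omega⟩
          · exact ⟨x, hx, by rw [abs_of_nonneg (by omega)] at hxy; omega⟩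
        obtain ⟨z, hz, hpz⟩ := hfar
        have hch : ∀ j : Fin K, ∃ q : ℕ × ℤ, (q.1 < 2 ∧ -((2 * k : ℕ) : ℤ) ≤ q.2 ∧
            q.2 ≤ (2 * k : ℕ)) ∧ ((p.1 + q.2, p.2 + 2 * (j : ℕ) + q.1) : Site) ∈ B := by
          intro j
          have hj := j.2
          obtain ⟨a', ha', hc'⟩ := mg_tight2 hB (p.2 + 2 * (j : ℕ)) ⟨p, hp, by omega⟩
            ⟨z, hz, by omega⟩
          have hs := (hsp a' ha' p hp).1
          rw [abs_le] at hs
          rcases hc' with hc' | hc'
          · refine ⟨(0, a'.1 - p.1), ⟨by simp, ?_, ?_⟩, ?_⟩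
            · simp only; omega
            · simp only; omega
            · have : ((p.1 + (a'.1 - p.1), p.2 + 2 * ((j : ℕ) : ℤ) + ((0 : ℕ) : ℤ)) : Site) = a' := by
                apply Prod.ext
                · simp only; omega
                · simp only; omega
              rw [this]; exact ha'
          · refine ⟨(1, a'.1 - p.1), ⟨by simp, ?_, ?_⟩, ?_⟩
            · simp only; omega
            · simp only; omega
            · have : ((p.1 + (a'.1 - p.1), p.2 + 2 * ((j : ℕ) : ℤ) + ((1 : ℕ) : ℤ)) : Site) = a' := by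
                apply Prod.ext
                · simp only; omega
                · simp only; omega
              rw [this]; exact ha'
        choose f hf1 hf2 using hch
        refine ⟨p, false, f, by exact_mod_cast (hBR p hp).2, hf1, fun j => ?_⟩
        unfold wbSite
        rw [if_neg (by simp)]
        exact hf2 j
    obtain ⟨p, dir, f, hpR, hf, hfB⟩ := key
    have hsub : (wbTri (p, dir, f)).1 ⊆ B := by
      intro z hz
      obtain ⟨j, _, rfl⟩ := Finset.mem_image.1 hz
      exact hfB j
    refine ⟨wbTri (p, dir, f), Finset.mem_filter.2 ⟨Finset.mem_image.2 ⟨(p, dir, f), ?_, rfl⟩, ?_⟩,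
      ?_, ?_, ?_⟩
    · unfold wbIdx
      rw [Finset.mem_product, Finset.mem_product]
      refine ⟨hpR, Finset.mem_univ _, Fintype.mem_piFinset.2 fun j => ?_⟩
      rw [Finset.mem_product, Finset.mem_range, Finset.mem_Icc]
      exact hf j
    · intro z hz
      exact_mod_cast (hBR z (hsub hz)).2
    · intro z hz
      exact (hBR z (hsub hz)).1
    · intro z hz
      simp [wbTri] at hz
    · intro z hz
      simp [wbTri] at hz
  · have hwn : ∀ τ : Tri, 0 ≤ wt a b c τ := fun τ => by
      unfold wt; positivity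
    calc ∑ τ ∈ ((wbIdx k K R).image wbTri).filter (fun τ => τ.1 ⊆ R), wt a b c τ
        ≤ ∑ τ ∈ (wbIdx k K R).image wbTri, wt a b c τ :=
          Finset.sum_le_sum_of_subset_of_nonneg (Finset.filter_subset _ _)
            (fun τ _ _ => hwn τ)
      _ ≤ ∑ i ∈ wbIdx k K R, wt a b c (wbTri i) :=
          Finset.sum_image_le_of_nonneg (fun τ _ => hwn τ)
      _ = ∑ i ∈ wbIdx k K R, a ^ K := by
          refine Finset.sum_congr rfl fun i hi => ?_
          unfold wt
          rw [wbTri_card hi]
          simp [wbTri]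
      _ = bigW k a R.card := by
          rw [Finset.sum_const, wbIdx_card, nsmul_eq_mul]
          unfold bigW
          rw [← hK, mul_pow (2 * (4 * (k : ℝ) + 1)) a K]
          push_cast
          generalize (2 * (4 * (k : ℝ) + 1)) ^ K = X
          ring

end TSB
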