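import Pool.Agent.TSB.Wit
import Pool.Agent.TSB.Paths
import Pool.Agent.TSB.Wd1
import Pool.Agent.TSB.Wbig

/-! Two-stage bootstrap percolation: the weight of bad `W`-blocks and of bad `T`-boxes. -/

open MeasureTheory
open scoped Classical

namespace TSB

/-! ### elementary facts about windows -/

theorem ww_D_pos {P : Par} (hP : P.Ok) : 0 < P.D := by
  have := hP.hkD
  omega

theorem ww_W_eq (P : Par) : P.W = P.e * (P.d * P.w) := rfl

theorem ww_D_eq (P : Par) : P.D = P.d * P.w := rfl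

theorem ww_d_pos {P : Par} (hP : P.Ok) : 1 ≤ P.d := by
  have := hP.hd
  omega

/-- the window of a `D`-block near `β` is in `wreg` -/
theorem ww_win_sub_wreg (P : Par) (β b : Site)
    (h1 : β.1 * P.e - 3 * P.s ≤ b.1) (h2 : b.1 < (β.1 + 1) * P.e + 3 * P.s)
    (h3 : β.2 * P.e - 3 * P.s ≤ b.2) (h4 : b.2 < (β.2 + 1) * P.e + 3 * P.s) :
    win P.D 2 b ⊆ wreg P β := by
  rintro ⟨x1, x2⟩ hx
  simp only [win, wreg, Set.mem_ofPred_eq] at hx ⊢
  have hD : (0:ℤ) ≤ P.D := Int.natCast_nonneg _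
  have hW : ((P.W : ℕ) : ℤ) = P.e * P.D := by
    unfold Par.W
    push_cast
    rfl
  rw [hW]
  push_cast at hx
  have key : ∀ (β1 b1 y : ℤ), β1 * P.e - 3 * P.s ≤ b1 → b1 < (β1 + 1) * P.e + 3 * P.s →
      (b1 - 2) * P.D ≤ y → y < (b1 + 1 + 2) * P.D →
      β1 * (P.e * P.D) - (3 * P.s + 3) * P.D ≤ y ∧
        y < (β1 + 1) * (P.e * P.D) + (3 * P.s + 3) * P.D := by
    intro β1 b1 y g1 g2 g3 g4
    constructor
    · have : (β1 * P.e - 3 * P.s) * P.D ≤ b1 * P.D := mul_le_mul_of_nonneg_right g1 hD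
      nlinarith
    · have g2' : b1 + 1 ≤ (β1 + 1) * P.e + 3 * P.s := by omega
      have : (b1 + 1) * P.D ≤ ((β1 + 1) * P.e + 3 * P.s) * P.D :=
        mul_le_mul_of_nonneg_right g2' hD
      nlinarith
  have k1 := key β.1 b.1 x1 h1 h2 hx.1 hx.2.1
  have k2 := key β.2 b.2 x2 h3 h4 hx.2.2.1 hx.2.2.2
  exact ⟨k1.1, k1.2, k2.1, k2.2⟩

theorem ww_box_sub_wreg (P : Par) (β : Site) : box P.W β ⊆ wreg P β := by
  rintro ⟨x1, x2⟩ hx
  simp only [box, wreg, Set.mem_ofPred_eq] at hx ⊢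
  have : (0:ℤ) ≤ (3 * P.s + 3) * P.D := by positivity
  refine ⟨by linarith, by linarith, by linarith, by linarith⟩

theorem ww_wreg_sub_win {P : Par} (hP : P.Ok) (β : Site) : wreg P β ⊆ win P.W 1 β := by
  rintro ⟨x1, x2⟩ hx
  simp only [win, wreg, Set.mem_ofPred_eq] at hx ⊢
  have hW : ((P.W : ℕ) : ℤ) = P.e * P.D := by
    unfold Par.W
    push_cast
    rfl
  have he : (10 * P.s + 10 : ℤ) ≤ P.e := by exact_mod_cast hP.he
  have hD : (0:ℤ) ≤ P.D := Int.natCast_nonneg _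
  have hs : (0:ℤ) ≤ P.s := Int.natCast_nonneg _
  have h1 : (3 * P.s + 3 : ℤ) * P.D ≤ P.W := by
    rw [hW]
    exact mul_le_mul_of_nonneg_right (by linarith) hD
  push_cast
  refine ⟨by linarith, by linarith, by linarith, by linarith⟩

theorem ww_box_sub_win (n a : ℕ) (β : Site) : box n β ⊆ win n a β := by
  rintro ⟨x1, x2⟩ hx
  simp only [win, box, Set.mem_ofPred_eq] at hx ⊢
  have : (0:ℤ) ≤ a * n := by positivity
  refine ⟨by linarith, by linarith, by linarith, by linarith⟩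

theorem ww_win_disj (n a : ℕ) (b b' : Site) (k : ℤ) (hk : 2 * (a:ℤ) + 1 ≤ k)
    (h : k ≤ |b.1 - b'.1| ∨ k ≤ |b.2 - b'.2|) : Disjoint (win n a b) (win n a b') := by
  rw [Set.disjoint_left]
  rintro ⟨x1, x2⟩ hx hx'
  simp only [win, Set.mem_ofPred_eq] at hx hx'
  have hn : (0:ℤ) ≤ n := Int.natCast_nonneg _
  have key : ∀ (b1 b1' y : ℤ), k ≤ |b1 - b1'| → (b1 - a) * n ≤ y → y < (b1 + 1 + a) * n →
      (b1' - a) * n ≤ y → y < (b1' + 1 + a) * n → False := by
    intro b1 b1' y g g1 g2 g3 g4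
    rcases le_total b1 b1' with h1 | h1
    · rw [abs_of_nonpos (by linarith)] at g
      have : (b1 + 1 + a) * n ≤ (b1' - a) * n := mul_le_mul_of_nonneg_right (by linarith) hn
      linarith
    · rw [abs_of_nonneg (by linarith)] at g
      have : (b1' + 1 + a) * n ≤ (b1 - a) * n := mul_le_mul_of_nonneg_right (by linarith) hn
      linarith
  rcases h with h | h
  · exact key b.1 b'.1 x1 h hx.1 hx.2.1 hx'.1 hx'.2.1
  · exact key b.2 b'.2 x2 h hx.2.2.1 hx.2.2.2 hx'.2.2.1 hx'.2.2.2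

/-! ### bad `W`-blocks -/

/-- a set of sites without twos -/
theorem ww_wit_noTwo {a b c : ℝ} {V R : Set Site} (_hc : 0 ≤ c) (X : Finset Site)
    (hX : (X : Set Site) ⊆ R ∩ V) (E : Set Config) (hE : ∀ ω ∈ E, ∀ x ∈ X, ω x ≠ 2) :
    Wit a b c V R (c ^ X.card) E := by
  refine ⟨{(∅, ∅, X)}, ?_, ?_, ?_⟩
  · intro τ hτ
    rw [Finset.mem_singleton] at hτ
    subst hτ
    refine ⟨⟨by simp, by simp, by simp⟩, by simp, by simp, hX⟩
  · intro ω hω
    exact ⟨_, Finset.mem_singleton_self _, by simp, by simp, hE ω hω⟩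
  · simp [wt]

theorem wit_wbad {a b c : ℝ} (V : Set Site) (ha : 0 ≤ a) (ha1 : a ≤ 1) (hb : 0 ≤ b) (hb1 : b < 1)
    (hc : 0 ≤ c) (P : Par) (hP : P.Ok) (haw : a * ((P.w : ℝ) + 4) ^ 2 ≤ 1)
    (β : Site) (hV : box P.W β ⊆ V) :
    Wit a b c V (wreg P β) (deltaW P.w P.d P.mw P.e P.s a b c)
      {ω | WBad P.w P.d P.mw P.e P.s ω β} := by
  -- the bad `D`-blocks
  set I : Finset Site := Finset.Ico (β.1 * P.e - 3 * P.s) ((β.1 + 1) * P.e + 3 * P.s) ×ˢ
    Finset.Ico (β.2 * P.e - 3 * P.s) ((β.2 + 1) * P.e + 3 * P.s) with hI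
  have hIc : (I.card : ℝ) = ((P.e : ℝ) + 6 * P.s) ^ 2 := by
    have h1 : ∀ β1 : ℤ, (Finset.Ico (β1 * P.e - 3 * P.s) ((β1 + 1) * P.e + 3 * P.s)).card =
        P.e + 6 * P.s := by
      intro β1
      rw [Int.card_Ico]
      have : (β1 + 1) * (P.e:ℤ) + 3 * P.s - (β1 * P.e - 3 * P.s) = ((P.e + 6 * P.s : ℕ) : ℤ) := by
        push_cast
        ring
      rw [this, Int.toNat_natCast]
    rw [hI, Finset.card_product, h1, h1]
    push_cast
    ring
  have w1 := wit_biUnion (a := a) (b := b) (c := c) (V := V) (R := wreg P β) I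
    (fun _ => deltaD P.w P.d P.mw a b) (fun b' => {ω | DBad P.w P.d P.mw ω b'}) ha hb hc
    (fun b' hb' => by
      rw [hI, Finset.mem_product, Finset.mem_Ico, Finset.mem_Ico] at hb'
      exact wit_mono (wit_dbad V ha ha1 hb hb1 hc P.w P.d P.mw (ww_d_pos hP) hP.hw haw b')
        (le_refl V) (ww_win_sub_wreg P β b' hb'.1.1 hb'.1.2 hb'.2.1 hb'.2.2) le_rfl (le_refl _))
  rw [Finset.sum_const, nsmul_eq_mul, hIc] at w1
  -- columns
  have hWc : ∀ β1 : ℤ, (Finset.Ico (β1 * P.W) ((β1 + 1) * P.W)).card = P.W := by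
    intro β1
    rw [Int.card_Ico]
    have : (β1 + 1) * (P.W:ℤ) - β1 * P.W = P.W := by ring
    rw [this, Int.toNat_natCast]
  have w2 := wit_biUnion (a := a) (b := b) (c := c) (V := V) (R := wreg P β)
    (Finset.Ico (β.1 * P.W) ((β.1 + 1) * P.W)) (fun _ => c ^ P.W)
    (fun i => {ω | ∀ x ∈ box P.W β, x.1 = i → ω x ≠ 2}) ha hb hc (fun i hi => by
      rw [Finset.mem_Ico] at hi
      have := ww_wit_noTwo (a := a) (b := b) (V := V) (R := wreg P β) hc
        ((Finset.Ico (β.2 * P.W) ((β.2 + 1) * P.W)).map ⟨fun y => (i, y), fun y y' h => by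
          simpa using h⟩) (by
          intro x hx
          rw [Finset.mem_coe, Finset.mem_map] at hx
          obtain ⟨y, hy, rfl⟩ := hx
          rw [Finset.mem_Ico] at hy
          have hb' : ((i, y) : Site) ∈ box P.W β := ⟨hi.1, hi.2, hy.1, hy.2⟩
          exact ⟨ww_box_sub_wreg P β hb', hV hb'⟩)
        {ω | ∀ x ∈ box P.W β, x.1 = i → ω x ≠ 2} (fun ω hω x hx => by
          rw [Finset.mem_map] at hx
          obtain ⟨y, hy, rfl⟩ := hx
          rw [Finset.mem_Ico] at hy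
          exact hω _ ⟨hi.1, hi.2, hy.1, hy.2⟩ rfl)
      rw [Finset.card_map, hWc] at this
      exact this)
  rw [Finset.sum_const, nsmul_eq_mul, hWc] at w2
  -- rows
  have w3 := wit_biUnion (a := a) (b := b) (c := c) (V := V) (R := wreg P β)
    (Finset.Ico (β.2 * P.W) ((β.2 + 1) * P.W)) (fun _ => c ^ P.W)
    (fun i => {ω | ∀ x ∈ box P.W β, x.2 = i → ω x ≠ 2}) ha hb hc (fun i hi => by
      rw [Finset.mem_Ico] at hi
      have := ww_wit_noTwo (a := a) (b := b) (V := V) (R := wreg P β) hc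
        ((Finset.Ico (β.1 * P.W) ((β.1 + 1) * P.W)).map ⟨fun y => (y, i), fun y y' h => by
          simpa using h⟩) (by
          intro x hx
          rw [Finset.mem_coe, Finset.mem_map] at hx
          obtain ⟨y, hy, rfl⟩ := hx
          rw [Finset.mem_Ico] at hy
          have hb' : ((y, i) : Site) ∈ box P.W β := ⟨hy.1, hy.2, hi.1, hi.2⟩
          exact ⟨ww_box_sub_wreg P β hb', hV hb'⟩)
        {ω | ∀ x ∈ box P.W β, x.2 = i → ω x ≠ 2} (fun ω hω x hx => by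
          rw [Finset.mem_map] at hx
          obtain ⟨y, hy, rfl⟩ := hx
          rw [Finset.mem_Ico] at hy
          exact hω _ ⟨hy.1, hy.2, hi.1, hi.2⟩ rfl)
      rw [Finset.card_map, hWc] at this
      exact this)
  rw [Finset.sum_const, nsmul_eq_mul, hWc] at w3
  refine wit_mono (wit_union ha hb hc w1 (wit_union ha hb hc w2 w3)) (le_refl V) (le_refl _) ?_ ?_
  · unfold deltaW
    rw [← ww_W_eq]
    linarith
  · rintro ω (⟨b', ⟨h1, h2, h3, h4⟩, h5⟩ | ⟨i, h1, h2, h3⟩ | ⟨i, h1, h2, h3⟩)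
    · left
      refine ⟨b', ?_, h5⟩
      rw [hI, Finset.mem_product, Finset.mem_Ico, Finset.mem_Ico]
      exact ⟨⟨h1, h2⟩, ⟨h3, h4⟩⟩
    · right; left
      exact ⟨i, Finset.mem_Ico.2 ⟨h1, h2⟩, h3⟩
    · right; right
      exact ⟨i, Finset.mem_Ico.2 ⟨h1, h2⟩, h3⟩

/-! ### bad `T`-boxes -/

/-- the window as a finite set -/
noncomputable def wwWin (n a : ℕ) (z : Site) : Finset Site :=
  Finset.Ico ((z.1 - a) * n) ((z.1 + 1 + a) * n) ×ˢ Finset.Ico ((z.2 - a) * n) ((z.2 + 1 + a) * n)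

theorem wwWin_coe (n a : ℕ) (z : Site) : (wwWin n a z : Set Site) = win n a z := by
  ext ⟨x1, x2⟩
  simp only [wwWin, win, Finset.coe_product, Finset.coe_Ico, Set.mem_prod, Set.mem_Ico,
    Set.mem_ofPred_eq]
  tauto

theorem wwWin_card (n a : ℕ) (z : Site) : ((wwWin n a z).card : ℝ) = ((2 * a + 1) * n) ^ 2 := by
  have h1 : ∀ z1 : ℤ, (Finset.Ico ((z1 - a) * n) ((z1 + 1 + a) * n)).card = (2 * a + 1) * n := by
    intro z1
    rw [Int.card_Ico]
    have : (z1 + 1 + a) * (n:ℤ) - (z1 - a) * n = (((2 * a + 1) * n : ℕ) : ℤ) := by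
      push_cast
      ring
    rw [this, Int.toNat_natCast]
  rw [wwWin, Finset.card_product, h1, h1]
  push_cast
  ring

/-- windows contained in a window -/
theorem ww_index {n N a k : ℕ} (hn : 0 < n) (hN : N = k * n) (z b : Site)
    (h : win n a b ⊆ win N 2 z) : b ∈ wwWin k 2 z := by
  have hn' : (0:ℤ) < n := by exact_mod_cast hn
  -- the lower left corner and the upper right corner
  have h1 : (((b.1 - a) * n, (b.2 - a) * n) : Site) ∈ win n a b := by
    simp only [win, Set.mem_ofPred_eq]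
    have : (0:ℤ) < (2 * a + 1) * n := by positivity
    refine ⟨le_refl _, by linarith, le_refl _, by linarith⟩
  have h2 : (((b.1 + 1 + a) * n - 1, (b.2 + 1 + a) * n - 1) : Site) ∈ win n a b := by
    simp only [win, Set.mem_ofPred_eq]
    have : (0:ℤ) < (2 * a + 1) * n := by positivity
    refine ⟨by linarith, by linarith, by linarith, by linarith⟩
  have g1 := h h1
  have g2 := h h2
  simp only [win, Set.mem_ofPred_eq, hN] at g1 g2
  push_cast at g1 g2
  have key : ∀ z1 b1 : ℤ, (z1 - 2) * (k * n) ≤ (b1 - a) * n → (b1 + 1 + a) * n - 1 <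
      (z1 + 1 + 2) * (k * n) → (z1 - 2) * k ≤ b1 ∧ b1 < (z1 + 1 + 2) * k := by
    intro z1 b1 e1 e2
    have e1' : (z1 - 2) * k * n ≤ (b1 - a) * n := by linarith
    have e2' : (b1 + 1 + a) * n ≤ (z1 + 1 + 2) * k * n := by linarith
    have f1 := le_of_mul_le_mul_right e1' hn'
    have f2 := le_of_mul_le_mul_right e2' hn'
    have ha : (0:ℤ) ≤ a := Int.natCast_nonneg _
    exact ⟨by linarith, by linarith⟩
  have k1 := key z.1 b.1 g1.1 g2.2.1
  have k2 := key z.2 b.2 g1.2.2.1 g2.2.2.2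
  rw [wwWin, Finset.mem_product, Finset.mem_Ico, Finset.mem_Ico]
  push_cast
  exact ⟨k1, k2⟩

theorem ww_spanW_mono {m : ℕ} {δ n n' : ℝ} (hδ : 0 ≤ δ) (h : n ≤ n') :
    spanW m δ n ≤ spanW m δ n' := by
  unfold spanW
  gcongr

theorem wit_tbad {a b c : ℝ} (V : Set Site) (ha : 0 ≤ a) (ha1 : a ≤ 1) (hb : 0 ≤ b) (hb1 : b < 1)
    (hc : 0 ≤ c) (P : Par) (hP : P.Ok) (haw : a * ((P.w : ℝ) + 4) ^ 2 ≤ 1)
    (hD1 : deltaD P.w P.d P.mw a b ≤ 1) (hW1 : deltaW P.w P.d P.mw P.e P.s a b c ≤ 1)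
    (z : Site) (hV : win P.T 2 z ⊆ V) :
    Wit a b c V (win P.T 2 z) (deltaT P a b c) {ω | TBad P ω z} := by
  have hD0 := ww_D_pos hP
  have he0 : 0 < P.e := by have := hP.he; omega
  have hW0 : 0 < P.W := Nat.mul_pos he0 hD0
  have hδD : 0 ≤ deltaD P.w P.d P.mw a b := wit_nonneg ha hb hc
    (wit_dbad V ha ha1 hb hb1 hc P.w P.d P.mw (ww_d_pos hP) hP.hw haw (0, 0))
  have hδW : 0 ≤ deltaW P.w P.d P.mw P.e P.s a b c := wit_nonneg ha hb hc
    (wit_wbad Set.univ ha ha1 hb hb1 hc P hP haw (0, 0) (Set.subset_univ _))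
  -- big parts
  have w1 := wit_bigpart V ha hb hc P.k (wwWin P.T 2 z)
  rw [wwWin_card, wwWin_coe] at w1
  -- bad `D`-blocks
  have w2 := wit_badspan (a := a) (b := b) (c := c) (V := V) (R := win P.T 2 z) ha hb hc hδD hD1
    ((wwWin (P.g * P.f * P.e) 2 z).filter (fun b' => win P.D 2 b' ⊆ win P.T 2 z))
    (fun b' => {ω | DBad P.w P.d P.mw ω b'}) (fun b' => win P.D 2 b')
    (fun b' _ => wit_dbad V ha ha1 hb hb1 hc P.w P.d P.mw (ww_d_pos hP) hP.hw haw b')
    (fun b' hb' => (Finset.mem_filter.1 hb').2)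
    (fun b' _ b'' _ h => ww_win_disj P.D 2 b' b'' 5 (by norm_num) h) P.m
  -- bad `W`-blocks
  have w3 := wit_badspan (a := a) (b := b) (c := c) (V := V) (R := win P.T 2 z) ha hb hc hδW hW1
    ((wwWin (P.g * P.f) 2 z).filter (fun β => win P.W 1 β ⊆ win P.T 2 z))
    (fun β => {ω | WBad P.w P.d P.mw P.e P.s ω β}) (fun β => wreg P β)
    (fun β hβ => wit_wbad V ha ha1 hb hb1 hc P hP haw β
      ((ww_box_sub_win P.W 1 β).trans ((Finset.mem_filter.1 hβ).2.trans hV)))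
    (fun β hβ => (ww_wreg_sub_win hP β).trans (Finset.mem_filter.1 hβ).2)
    (fun β _ β' _ h => Disjoint.mono (ww_wreg_sub_win hP β) (ww_wreg_sub_win hP β')
      (ww_win_disj P.W 1 β β' 5 (by norm_num) h)) P.m
  refine wit_mono (wit_union ha hb hc w1 (wit_union ha hb hc w2 w3)) (le_refl V) (le_refl _) ?_ ?_
  · unfold deltaT
    have e1 : bigW P.k a (((2 * ((2:ℕ):ℝ) + 1) * P.T) ^ 2) = bigW P.k a (25 * (P.T:ℝ) ^ 2) := by
      congr 1
      push_cast
      ring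
    have e2 : spanW P.m (deltaD P.w P.d P.mw a b) ((wwWin (P.g * P.f * P.e) 2 z).filter
        (fun b' => win P.D 2 b' ⊆ win P.T 2 z)).card ≤
        spanW P.m (deltaD P.w P.d P.mw a b) (25 * ((P.g * P.f * P.e : ℕ) : ℝ) ^ 2) := by
      refine ww_spanW_mono hδD ?_
      have h1 : (((wwWin (P.g * P.f * P.e) 2 z).filter
        (fun b' => win P.D 2 b' ⊆ win P.T 2 z)).card : ℝ) ≤ (wwWin (P.g * P.f * P.e) 2 z).card := by
        exact_mod_cast Finset.card_filter_le _ _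
      refine h1.trans (le_of_eq ?_)
      rw [wwWin_card]
      push_cast
      ring
    have e3 : spanW P.m (deltaW P.w P.d P.mw P.e P.s a b c) ((wwWin (P.g * P.f) 2 z).filter
        (fun β => win P.W 1 β ⊆ win P.T 2 z)).card ≤
        spanW P.m (deltaW P.w P.d P.mw P.e P.s a b c) (25 * ((P.g * P.f : ℕ) : ℝ) ^ 2) := by
      refine ww_spanW_mono hδW ?_
      have h1 : (((wwWin (P.g * P.f) 2 z).filter
        (fun β => win P.W 1 β ⊆ win P.T 2 z)).card : ℝ) ≤ (wwWin (P.g * P.f) 2 z).card := by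
        exact_mod_cast Finset.card_filter_le _ _
      refine h1.trans (le_of_eq ?_)
      rw [wwWin_card]
      push_cast
      ring
    rw [e1]
    linarith
  · have hT : P.T = (P.g * P.f * P.e) * P.D := by
      unfold Par.T Par.T0 Par.W
      ring
    have hT' : P.T = (P.g * P.f) * P.W := by
      unfold Par.T Par.T0
      ring
    rintro ω (h | ⟨C, h1, h2, h3⟩ | ⟨C, h1, h2, h3⟩)
    · left
      exact h
    · right; left
      refine ⟨C, fun b' hb' => ⟨?_, (h1 b' hb').2⟩, h2, h3⟩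
      exact Finset.mem_filter.2 ⟨ww_index hD0 hT z b' (h1 b' hb').1, (h1 b' hb').1⟩
    · right; right
      refine ⟨C, fun β hβ => ⟨?_, (h1 β hβ).2⟩, h2, h3⟩
      exact Finset.mem_filter.2 ⟨ww_index hW0 hT' z β (h1 β hβ).1, (h1 β hβ).1⟩

end TSB
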