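import Pool.Agent.TSB.Mu
import Pool.Agent.TSB.Paths
import Pool.Agent.TSB.WW
import Pool.Agent.TSB.Nuc1
import Pool.Agent.TSB.Trial2
import Pool.Agent.TSB.Trans
import Pool.Agent.TSB.Finaldet

/-! Module EVENT: union bound, the deterministic theorem applied. -/

open MeasureTheory
open scoped Classical

namespace TSB

/-! ### The deterministic part -/

theorem event_pos {P : Par} (hP : P.Ok) : 1 ≤ P.D ∧ 1 ≤ P.W ∧ 1 ≤ P.T0 ∧ 1 ≤ P.T ∧ 1 ≤ P.g := by
  obtain ⟨h1, h2, h3, h4, -, -⟩ := nuc1_Ok hP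
  have hD : 1 ≤ P.D := by unfold Par.D; omega
  have he : 1 ≤ P.e := by have := hP.he; omega
  have hf := hP.hf
  have hg : 1 ≤ P.g := by
    have h5 := hP.hg
    have h6 : 1 ≤ 400 * P.s * P.D := Nat.mul_pos (by omega) hD
    omega
  have hW : 1 ≤ P.W := Nat.mul_pos he hD
  have hT0 : 1 ≤ P.T0 := Nat.mul_pos hf hW
  exact ⟨hD, hW, hT0, Nat.mul_pos hg hT0, hg⟩

theorem event_lay {x : Site} {r : ℤ} : lay x ≤ r ↔ |x.1| ≤ r ∧ |x.2| ≤ r := max_le_iff

theorem event_Icc (u : Site) (M : ℤ) :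
    Set.Icc ((-u.1 - M, -u.2 - M) : Site) (-u.1 + M, -u.2 + M) =
      {z | (z.1 + u.1, z.2 + u.2) ∈ Set.Icc ((-M, -M) : Site) (M, M)} := by
  ext z
  simp only [Set.mem_Icc, Prod.le_def, Set.mem_ofPred_eq]
  constructor
  · rintro ⟨⟨h1, h2⟩, h3, h4⟩
    exact ⟨⟨by linarith, by linarith⟩, by linarith, by linarith⟩
  · rintro ⟨⟨h1, h2⟩, h3, h4⟩
    exact ⟨⟨by linarith, by linarith⟩, by linarith, by linarith⟩

theorem event_det (P : Par) (hP : P.Ok) (mT M : ℕ) (hM : mT + 10 ≤ M) (ω : Config) (u : Site)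
    (hu : |u.1| ≤ M ∧ |u.2| ≤ M) (hT : shift (u.1 * P.T, u.2 * P.T) ω ∈ Tr P mT)
    (b1 : BadSpan (Set.Icc (-(M : ℤ), -(M : ℤ)) ((M : ℤ), (M : ℤ))) {z | TBad P ω z} mT)
    (b2 : ∀ n ≤ 2 * M, ¬ NearBad (Set.Icc (-(M : ℤ), -(M : ℤ)) ((M : ℤ), (M : ℤ)))
      {z | TBad P ω z} (0, 0) n)
    (b3 : ∀ n ≤ 3 * P.g * P.f, ¬ NearBad (win (P.g * P.f) 1 (0, 0))
      {β | WBad P.w P.d P.mw P.e P.s ω β} (0, 0) n)
    (b4 : ∀ τ : Site, box P.T0 τ ⊆ {x | lay x ≤ (3 * M + 10) * P.T} →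
      ∃ b : Site, (∀ b' ∈ swin P.s b, box P.D b' ⊆ box P.T0 τ) ∧ Nuc1 P ω b) :
    xi ω (P.T' + (5 * (2 * M + 10) * P.T) ^ 2) (0, 0) = 2 := by
  obtain ⟨hD1, hW1, hT01, hT1, hg1⟩ := event_pos hP
  set ω' := shift (u.1 * P.T, u.2 * P.T) ω with hω'
  obtain ⟨⟨h, hN⟩, hS, hc3⟩ := hT
  have e2 : {z | TBad P ω' z} = {z | (z.1 + u.1, z.2 + u.2) ∈ {z | TBad P ω z}} := by
    ext z
    exact tbad_shift P ω u z
  have c1 : BadSpan (Set.Icc ((-u.1, -u.2).1 - (M : ℤ), (-u.1, -u.2).2 - (M : ℤ))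
      ((-u.1, -u.2).1 + (M : ℤ), (-u.1, -u.2).2 + (M : ℤ))) {z | TBad P ω' z} mT := by
    simp only
    rw [event_Icc, e2, badSpan_shift]
    exact b1
  have c2 : ∀ n : ℕ, ¬ NearBad (Set.Icc ((-u.1, -u.2).1 - (M : ℤ), (-u.1, -u.2).2 - (M : ℤ))
      ((-u.1, -u.2).1 + (M : ℤ), (-u.1, -u.2).2 + (M : ℤ))) {z | TBad P ω' z} (-u.1, -u.2) n := by
    intro n
    simp only
    rw [event_Icc, e2, nearBad_shift]
    simp only [neg_add_cancel]
    by_cases hn : n ≤ 2 * M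
    · exact b2 n hn
    · rintro ⟨C, k1, -, -, -, x, hx, y, hy, k2⟩
      have k3 := k1 hx
      have k4 := k1 hy
      simp only [Set.mem_Icc, Prod.le_def] at k3 k4
      push Not at hn
      have hn' : (2 * M : ℤ) < n := by exact_mod_cast hn
      rcases k2 with k2 | k2
      · have : |x.1 - y.1| ≤ 2 * M := by rw [abs_le]; constructor <;> linarith [k3.1.1, k3.2.1, k4.1.1, k4.2.1]
        linarith
      · have : |x.2 - y.2| ≤ 2 * M := by rw [abs_le]; constructor <;> linarith [k3.1.2, k3.2.2, k4.1.2, k4.2.2]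
        linarith
  have c3 : ∀ n ≤ mT, ¬ NearBad (Set.Icc ((-u.1, -u.2).1 - (M : ℤ), (-u.1, -u.2).2 - (M : ℤ))
      ((-u.1, -u.2).1 + (M : ℤ), (-u.1, -u.2).2 + (M : ℤ)))
      {z | TBad P ω' z ∧ ¬ (|z.1| ≤ 4 ∧ |z.2| ≤ 4)} (0, 0) n := by
    intro n hn
    rintro ⟨C, k1, k2, k3, k4, k5⟩
    apply hc3 n hn
    refine ⟨C, fun c hc => ?_, k2, k3, k4, k5⟩
    have hn' : (n : ℤ) ≤ mT := by exact_mod_cast hn
    exact ⟨(k4 c hc).1.trans hn', (k4 c hc).2.trans hn'⟩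
  have eT : ∀ t : ℤ, t * P.T = t * (P.g * P.f * P.e : ℕ) * P.D := by
    intro t
    simp only [Par.T, Par.T0, Par.W]; push_cast; ring
  have eT0 : ∀ t : ℤ, t * P.T = t * (P.g : ℕ) * P.T0 := by
    intro t
    simp only [Par.T]; push_cast; ring
  have eW : ∀ t : ℤ, t * P.T = t * (P.g * P.f : ℕ) * (P.e * (P.d * P.w) : ℕ) := by
    intro t
    simp only [Par.T, Par.T0, Par.W, Par.D]; push_cast; ring
  have c4 : ∀ τ : Site, box P.T0 τ ⊆ {x | lay x ≤ (2 * M + 10) * P.T} →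
      ∃ b : Site, (∀ b' ∈ swin P.s b, box P.D b' ⊆ box P.T0 τ) ∧ Nuc1 P ω' b := by
    intro τ hτ
    obtain ⟨b, hb1, hb2⟩ := b4 (trS (u.1 * P.g, u.2 * P.g) τ) (by
      intro x hx
      rw [← trans_trS_sub ((u.1 * P.g, u.2 * P.g).1 * P.T0, (u.1 * P.g, u.2 * P.g).2 * P.T0) x,
        trans_box] at hx
      have h1 := hτ hx
      simp only [Set.mem_ofPred_eq] at h1 ⊢
      rw [event_lay] at h1 ⊢
      simp only at h1
      rw [← eT0, ← eT0] at h1
      have hT0 : (0 : ℤ) ≤ P.T := Int.natCast_nonneg _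
      have g1 : |u.1 * (P.T : ℤ)| ≤ M * P.T := by
        rw [abs_mul, abs_of_nonneg hT0]; exact mul_le_mul_of_nonneg_right hu.1 hT0
      have g2 : |u.2 * (P.T : ℤ)| ≤ M * P.T := by
        rw [abs_mul, abs_of_nonneg hT0]; exact mul_le_mul_of_nonneg_right hu.2 hT0
      rw [abs_le] at h1 g1 g2 ⊢
      rw [abs_le] at h1 ⊢
      refine ⟨⟨by linarith [h1.1.1, g1.1], by linarith [h1.1.2, g1.2]⟩,
        ⟨by linarith [h1.2.1, g2.1], by linarith [h1.2.2, g2.2]⟩⟩)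
    set v : Site := (u.1 * (P.g * P.f * P.e : ℕ), u.2 * (P.g * P.f * P.e : ℕ)) with hv
    refine ⟨(b.1 - v.1, b.2 - v.2), fun b' hb' => ?_, ?_⟩
    · intro x hx
      have h1 : trS v b' ∈ swin P.s b := by
        simp only [swin, Set.mem_ofPred_eq, trS] at hb' ⊢
        obtain ⟨h1, h2, h3, h4⟩ := hb'
        exact ⟨by linarith, by linarith, by linarith, by linarith⟩
      have h2 := hb1 _ h1 ((trans_box P.D v b' x).2 hx)
      have e1 : trS (v.1 * P.D, v.2 * P.D) x =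
          trS ((u.1 * P.g, u.2 * P.g).1 * P.T0, (u.1 * P.g, u.2 * P.g).2 * P.T0) x := by
        simp only [hv]
        rw [← eT, ← eT, ← eT0, ← eT0]
      rw [e1, trans_box] at h2
      exact h2
    · have h1 := (nuc1_shift P ω v (b.1 - v.1, b.2 - v.2)).2 (by
        simp only [sub_add_cancel]; exact hb2)
      have e1 : ((v.1 * P.D, v.2 * P.D) : Site) = (u.1 * P.T, u.2 * P.T) := by
        simp only [hv]
        rw [← eT, ← eT]
      rw [e1] at h1
      exact h1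
  have c5 : ∀ n : ℕ, ¬ NearBad (win (P.g * P.f) 1 (-u.1, -u.2))
      {β | WBad P.w P.d P.mw P.e P.s ω' β}
      ((-u.1, -u.2).1 * (P.g * P.f : ℕ), (-u.1, -u.2).2 * (P.g * P.f : ℕ)) n := by
    intro n
    set v : Site := (u.1 * (P.g * P.f : ℕ), u.2 * (P.g * P.f : ℕ)) with hv
    have e3 : win (P.g * P.f) 1 (-u.1, -u.2) =
        {z | (z.1 + v.1, z.2 + v.2) ∈ win (P.g * P.f) 1 (0, 0)} := by
      ext z
      have := trans_win (P.g * P.f) 1 u (-u.1, -u.2) z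
      rw [show trS u (-u.1, -u.2) = (0, 0) by simp [trS]] at this
      exact this.symm
    have e4 : {β | WBad P.w P.d P.mw P.e P.s ω' β} =
        {z | (z.1 + v.1, z.2 + v.2) ∈ {β | WBad P.w P.d P.mw P.e P.s ω β}} := by
      ext z
      have := wbad_shift P.w P.d P.mw P.e P.s ω v z
      simp only [hv] at this
      rw [← eW, ← eW] at this
      exact this
    rw [e3, e4, nearBad_shift]
    have e5 : (((-u.1, -u.2).1 * ((P.g * P.f : ℕ) : ℤ), (-u.1, -u.2).2 * ((P.g * P.f : ℕ) : ℤ)).1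
        + v.1, ((-u.1, -u.2).1 * ((P.g * P.f : ℕ) : ℤ),
        (-u.1, -u.2).2 * ((P.g * P.f : ℕ) : ℤ)).2 + v.2) = ((0, 0) : Site) := by
      simp [hv]
    rw [e5]
    by_cases hn : n ≤ 3 * P.g * P.f
    · exact b3 n hn
    · rintro ⟨C, k1, -, -, -, x, hx, y, hy, k2⟩
      have k3 := k1 hx
      have k4 := k1 hy
      simp only [win, Set.mem_ofPred_eq] at k3 k4
      push Not at hn
      have hn' : (3 * (P.g * P.f : ℕ) : ℤ) < n := by
        have : 3 * (P.g * P.f) < n := by rw [← mul_assoc]; exact hn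
        exact_mod_cast this
      push_cast at k3 k4 hn'
      rcases k2 with k2 | k2
      · have : |x.1 - y.1| ≤ 3 * (P.g * P.f) := by
          rw [abs_le]; constructor <;> linarith [k3.1, k3.2.1, k4.1, k4.2.1]
        linarith
      · have : |x.2 - y.2| ≤ 3 * (P.g * P.f) := by
          rw [abs_le]; constructor <;> linarith [k3.2.2.1, k3.2.2.2, k4.2.2.1, k4.2.2.2]
        linarith
  have key := finaldet P hP ω' h hN hS M mT hM (-u.1, -u.2) (by simpa using hu) c1 c2 c3 c4 c5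
  rw [hω', xi_shift] at key
  simpa using key

/-! ### The probabilistic part -/

/-- a square of indices -/
noncomputable def evSq (N : ℕ) : Finset Site := Finset.Icc (-(N : ℤ), -(N : ℤ)) ((N : ℤ), (N : ℤ))

theorem event_mem_sq {N : ℕ} {x : Site} : x ∈ evSq N ↔ |x.1| ≤ N ∧ |x.2| ≤ N := by
  unfold evSq
  rw [Finset.mem_Icc, Prod.le_def, Prod.le_def, abs_le, abs_le]
  simp only
  tauto

theorem event_card_sq (N : ℕ) : (evSq N).card = (2 * N + 1) ^ 2 := by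
  unfold evSq
  rw [Finset.card_Icc_prod, Int.card_Icc]
  simp only
  have e1 : (N : ℤ) + 1 - -(N : ℤ) = ((2 * N + 1 : ℕ) : ℤ) := by push_cast; ring
  rw [e1, Int.toNat_natCast]
  ring

theorem event_win_disj {n : ℕ} (z z' : Site) (h : 5 ≤ |z.1 - z'.1| ∨ 5 ≤ |z.2 - z'.2|) :
    Disjoint (win n 2 z) (win n 2 z') := by
  rw [Set.disjoint_left]
  intro x hx hx'
  simp only [win, Set.mem_ofPred_eq] at hx hx'
  push_cast at hx hx'
  obtain ⟨h1, h2, h3, h4⟩ := hx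
  obtain ⟨k1, k2, k3, k4⟩ := hx'
  have hn : (0 : ℤ) ≤ n := Int.natCast_nonneg _
  have key : ∀ a b y : ℤ, 5 ≤ |a - b| → (a - 2) * n ≤ y → y < (a + 1 + 2) * n →
      (b - 2) * n ≤ y → y < (b + 1 + 2) * n → False := by
    intro a b y hab e1 e2 e3 e4
    rcases le_abs.mp hab with g | g
    · have : (b + 3) * (n : ℤ) ≤ (a - 2) * n := mul_le_mul_of_nonneg_right (by linarith) hn
      linarith
    · have : (a + 3) * (n : ℤ) ≤ (b - 2) * n := mul_le_mul_of_nonneg_right (by linarith) hn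
      linarith
  rcases h with h | h
  · exact key _ _ _ h h1 h2 k1 k2
  · exact key _ _ _ h h3 h4 k3 k4

theorem event_wreg_disj {P : Par} (hP : P.Ok) (z z' : Site)
    (h : 5 ≤ |z.1 - z'.1| ∨ 5 ≤ |z.2 - z'.2|) : Disjoint (wreg P z) (wreg P z') := by
  rw [Set.disjoint_left]
  intro x hx hx'
  simp only [wreg, Set.mem_ofPred_eq] at hx hx'
  obtain ⟨h1, h2, h3, h4⟩ := hx
  obtain ⟨k1, k2, k3, k4⟩ := hx'
  have hD : (0 : ℤ) ≤ P.D := Int.natCast_nonneg _
  have hW : (0 : ℤ) ≤ P.W := Int.natCast_nonneg _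
  have he : 2 * ((3 * (P.s : ℤ) + 3) * P.D) ≤ P.W := by
    have h5 := hP.he
    have h6 : 2 * ((3 * P.s + 3) * P.D) ≤ P.W := by
      unfold Par.W
      rw [← mul_assoc]
      exact Nat.mul_le_mul_right _ (by omega)
    exact_mod_cast h6
  have key : ∀ a b y : ℤ, 5 ≤ |a - b| → a * P.W - (3 * P.s + 3) * P.D ≤ y →
      y < (a + 1) * P.W + (3 * P.s + 3) * P.D →
      b * P.W - (3 * P.s + 3) * P.D ≤ y → y < (b + 1) * P.W + (3 * P.s + 3) * P.D → False := by
    intro a b y hab e1 e2 e3 e4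
    rcases le_abs.mp hab with g | g
    · have : (b + 5) * (P.W : ℤ) ≤ a * P.W := mul_le_mul_of_nonneg_right (by linarith) hW
      linarith
    · have : (a + 5) * (P.W : ℤ) ≤ b * P.W := mul_le_mul_of_nonneg_right (by linarith) hW
      linarith
  rcases h with h | h
  · exact key _ _ _ h h1 h2 k1 k2
  · exact key _ _ _ h h3 h4 k3 k4

/-- elementary consequences of the numerical conditions -/
theorem event_num {p q : ℝ} (hp : 0 < p) (_hq : 0 < q) (hp' : p ≤ 1 / 100) (hqp : q ≤ p ^ 2) :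
    p + q ≤ 1 / 2 ∧ 2 * q ≤ 1 ∧ 1 - p / 2 < 1 ∧ 0 ≤ 1 - p / 2 ∧ 0 ≤ 1 - q := by
  have h1 : q ≤ p := by nlinarith
  exact ⟨by linarith, by linarith, by linarith, by linarith, by linarith⟩

/-- spacing of the trials -/
def evSp (P : Par) (mT : ℕ) : ℕ := 4000 * P.s * P.D + 2 * mT + 10

/-- positions of the trials -/
def evPos (P : Par) (mT : ℕ) (i : ℕ × ℕ) : Site := ((evSp P mT : ℤ) * i.1, (evSp P mT : ℤ) * i.2)

noncomputable def evReg (P : Par) (mT : ℕ) (u : Site) : Finset Site :=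
  (Finset.Icc (-(trRadius P mT : ℤ), -(trRadius P mT : ℤ))
      ((trRadius P mT : ℤ), (trRadius P mT : ℤ))).image (trS (u.1 * P.T, u.2 * P.T))

theorem event_shift_dep {E : Set Config} {R : Finset Site} (hE : DepOn E R) (v : Site) :
    DepOn {ω | shift v ω ∈ E} (R.image (trS v)) := by
  intro ω ω' h
  apply hE
  intro x hx
  exact h _ (Finset.mem_image_of_mem _ hx)

theorem event_reg_disj {P : Par} (hP : P.Ok) (mT : ℕ) {i j : ℕ × ℕ} (hij : i ≠ j) :
    Disjoint (evReg P mT (evPos P mT i)) (evReg P mT (evPos P mT j)) := by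
  obtain ⟨hD1, hW1, hT01, hT1, hg1⟩ := event_pos hP
  have hT : (1 : ℤ) ≤ P.T := by exact_mod_cast hT1
  have hT0 : (0 : ℤ) ≤ P.T := by linarith
  have hrad : 2 * (trRadius P mT : ℤ) < evSp P mT * P.T := by
    have : 2 * trRadius P mT < evSp P mT * P.T := by
      unfold trRadius evSp Par.Rs
      have e : (4000 * P.s * P.D + 2 * mT + 10) * P.T =
        2 * (2000 * P.s * P.D * P.T + (mT + 4) * P.T) + 2 * P.T := by ring
      rw [e]; omega
    exact_mod_cast this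
  rw [Finset.disjoint_left]
  intro x hx hx'
  simp only [evReg, Finset.mem_image, Finset.mem_Icc, Prod.le_def] at hx hx'
  obtain ⟨y, ⟨⟨h1, h2⟩, h3, h4⟩, rfl⟩ := hx
  obtain ⟨y', ⟨⟨k1, k2⟩, k3, k4⟩, he⟩ := hx'
  simp only [trS, Prod.mk.injEq, evPos] at he
  obtain ⟨he1, he2⟩ := he
  have hSp : (0 : ℤ) ≤ evSp P mT := Int.natCast_nonneg _
  have hST : (0 : ℤ) ≤ evSp P mT * P.T := mul_nonneg hSp hT0
  have key : ∀ (a b : ℕ) (y z : ℤ), a < b → -(trRadius P mT : ℤ) ≤ z → y ≤ trRadius P mT →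
      y + (evSp P mT : ℤ) * a * P.T = z + (evSp P mT : ℤ) * b * P.T → False := by
    intro a b y z hab e1 e2 e3
    have hab' : (a : ℤ) + 1 ≤ b := by exact_mod_cast hab
    have g : (evSp P mT * P.T : ℤ) * (a + 1) ≤ (evSp P mT * P.T : ℤ) * b :=
      mul_le_mul_of_nonneg_left hab' hST
    linarith
  rcases lt_trichotomy i.1 j.1 with h | h | h
  · exact key _ _ _ _ h k1 h3 he1.symm
  · rcases lt_trichotomy i.2 j.2 with h' | h' | h'
    · exact key _ _ _ _ h' k2 h4 he2.symm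
    · exact hij (Prod.ext h h')
    · exact key _ _ _ _ h' h2 k4 he2
  · exact key _ _ _ _ h h1 k3 he1

theorem event_bound (P : Par) (hP : P.Ok) (mT M n K : ℕ) (p q lam : ℝ)
    (h : ProbOk P mT M n K p q lam) :
    1 - failSum P mT M n K p q ≤ (law p q).real
      {ω | xi ω (P.T' + (5 * (2 * M + 10) * P.T) ^ 2) (0, 0) = 2} := by
  obtain ⟨hpq, ha1, hb1, hb0, hc0⟩ := event_num h.hp h.hq h.hp' h.hqp
  obtain ⟨hD1, hW1, hT01, hT1, hg1⟩ := event_pos hP
  have hp := h.hp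
  have hq := h.hq
  have h' : p + q ≤ 1 := by linarith
  have hprob := law_isProb hp.le hq.le h'
  have ha0 : 0 ≤ 2 * q := by linarith
  have hdom := law_dom hp.le hq.le h'
  set μ := law p q with hμ
  set δT := deltaT P (2 * q) (1 - p / 2) (1 - q) with hδT
  set δW := deltaW P.w P.d P.mw P.e P.s (2 * q) (1 - p / 2) (1 - q) with hδW
  have witT : ∀ z : Site, Wit (2 * q) (1 - p / 2) (1 - q) Set.univ (win P.T 2 z) δT
      {ω | TBad P ω z} := fun z =>
    wit_tbad Set.univ ha0 ha1 hb0 hb1 hc0 P hP h.haw h.hD1 h.hW1 z (Set.subset_univ _)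
  have witW : ∀ β : Site, Wit (2 * q) (1 - p / 2) (1 - q) Set.univ (wreg P β) δW
      {ω | WBad P.w P.d P.mw P.e P.s ω β} := fun β =>
    wit_wbad Set.univ ha0 ha1 hb0 hb1 hc0 P hP h.haw β (Set.subset_univ _)
  have hδT0 : 0 ≤ δT := wit_nonneg ha0 hb0 hc0 (witT (0, 0))
  have hδW0 : 0 ≤ δW := wit_nonneg ha0 hb0 hc0 (witW (0, 0))
  -- the bad events
  set B1 : Set Config := {ω | ∃ C : Set Site, (∀ z ∈ C, z ∈ evSq M ∧ ω ∈ {ω | TBad P ω z}) ∧
    Conn star C ∧ ¬ SpanLe mT C} with hB1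
  set B2 : ℕ → Set Config := fun k => {ω | NearBad (Set.Icc (-(M : ℤ), -(M : ℤ)) ((M : ℤ), (M : ℤ)))
    {z | ω ∈ {ω | TBad P ω z}} (0, 0) k} with hB2
  set B3 : ℕ → Set Config := fun k => {ω | NearBad (win (P.g * P.f) 1 (0, 0))
    {β | ω ∈ {ω | WBad P.w P.d P.mw P.e P.s ω β}} (0, 0) k} with hB3
  set B4 : Site → Set Config := fun τ =>
    {ω | ¬ ∃ b : Site, (∀ b' ∈ swin P.s b, box P.D b' ⊆ box P.T0 τ) ∧ Nuc1 P ω b} with hB4
  set B5 : Set Config := {ω | ∀ i ∈ Finset.range K ×ˢ Finset.range K,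
    ω ∈ {ω | shift ((evPos P mT i).1 * P.T, (evPos P mT i).2 * P.T) ω ∈ Tr P mT}ᶜ} with hB5
  set G : Set Config := {ω | xi ω (P.T' + (5 * (2 * M + 10) * P.T) ^ 2) (0, 0) = 2} with hG
  have p1 : μ.real B1 ≤ spanW mT δT ((2 * (M : ℝ) + 1) ^ 2) := by
    have hw := wit_badspan (V := Set.univ) (R := Set.univ) ha0 hb0 hc0 hδT0 h.hT1 (evSq M)
      (fun z => {ω | TBad P ω z}) (fun z => win P.T 2 z) (fun z _ => witT z)
      (fun z _ => Set.subset_univ _) (fun z _ z' _ hzz => event_win_disj z z' hzz) mT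
    have := wit_measure (ν := μ) hw hdom (Set.subset_univ _)
    rw [event_card_sq] at this
    push_cast at this
    exact this
  have p2 : ∀ k, μ.real (B2 k) ≤ (2 * (k : ℝ) + 1) ^ 2 * 8 ^ k * δT ^ ((k + 81) / 81) := by
    intro k
    have hw := wit_nearbad (V := Set.univ) (R := Set.univ) ha0 hb0 hc0 hδT0 h.hT1
      (Set.Icc (-(M : ℤ), -(M : ℤ)) ((M : ℤ), (M : ℤ)))
      (fun z => {ω | TBad P ω z}) (fun z => win P.T 2 z) (fun z _ => witT z)
      (fun z _ => Set.subset_univ _) (fun z _ z' _ hzz => event_win_disj z z' hzz) (0, 0) k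
    exact wit_measure (ν := μ) hw hdom (Set.subset_univ _)
  have p3 : ∀ k, μ.real (B3 k) ≤ (2 * (k : ℝ) + 1) ^ 2 * 8 ^ k * δW ^ ((k + 81) / 81) := by
    intro k
    have hw := wit_nearbad (V := Set.univ) (R := Set.univ) ha0 hb0 hc0 hδW0 h.hW1
      (win (P.g * P.f) 1 (0, 0))
      (fun β => {ω | WBad P.w P.d P.mw P.e P.s ω β}) (fun β => wreg P β) (fun β _ => witW β)
      (fun z _ => Set.subset_univ _) (fun z _ z' _ hzz => event_wreg_disj hP z z' hzz) (0, 0) k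
    exact wit_measure (ν := μ) hw hdom (Set.subset_univ _)
  have p4 : ∀ τ, μ.real (B4 τ) ≤ (1 - nuc1Low P p q) ^ (n ^ 2) := fun τ =>
    no_nuc1 hp hq hpq P hP h.haw h.h0 τ n h.hn
  have hlow1 : nuc1Low P p q ≤ 1 :=
    (nuc1_prob hp hq hpq P hP h.haw (0, 0)).trans measureReal_le_one
  have p5 : μ.real B5 ≤ (1 - nucLow P p q / 2) ^ (K ^ 2) := by
    have htr := tr_prob hp hq h.hp' h.hqp h.hl P hP mT h.hRh h.hg1 h.hg2 h.hw h.haw h.hD1 h.hW1
      h.hT1 h.hS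
    have hdep := tr_depOn P hP mT
    rw [hB5, hμ, law_prod hp.le hq.le h' (Finset.range K ×ˢ Finset.range K)
      (fun i => {ω | shift ((evPos P mT i).1 * P.T, (evPos P mT i).2 * P.T) ω ∈ Tr P mT}ᶜ)
      (fun i => evReg P mT (evPos P mT i))
      (fun i _ ω ω' hω => not_congr (event_shift_dep hdep _ ω ω' hω))
      (fun i _ j _ hij => event_reg_disj hP mT hij)]
    have hcard : (Finset.range K ×ˢ Finset.range K).card = K ^ 2 := by
      rw [Finset.card_product, Finset.card_range]; ring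
    rw [← hcard, ← Finset.prod_const]
    apply Finset.prod_le_prod (fun _ _ => measureReal_nonneg)
    intro i _
    rw [probReal_compl_eq_one_sub (depOn_measurable (event_shift_dep hdep _)),
      law_shift hp.le hq.le h' _ hdep]
    linarith
  -- the covering
  have hcov : (Set.univ : Set Config) ⊆ G ∪ (B1 ∪ ((⋃ k ∈ Finset.range (2 * M + 1), B2 k) ∪
      ((⋃ k ∈ Finset.range (3 * P.g * P.f + 1), B3 k) ∪
        ((⋃ τ ∈ evSq ((3 * M + 20) * P.g), B4 τ) ∪ B5)))) := by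
    intro ω _
    by_contra hcon
    simp only [Set.mem_union, Set.mem_iUnion, not_or, not_exists] at hcon
    obtain ⟨n0, n1, n2, n3, n4, n5⟩ := hcon
    apply n0
    have hex : ∃ i ∈ Finset.range K ×ˢ Finset.range K,
        shift ((evPos P mT i).1 * P.T, (evPos P mT i).2 * P.T) ω ∈ Tr P mT := by
      by_contra hc
      push Not at hc
      exact n5 (fun i hi => hc i hi)
    obtain ⟨i, hi, hTr⟩ := hex
    rw [Finset.mem_product, Finset.mem_range, Finset.mem_range] at hi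
    have hKM : K * evSp P mT ≤ M := h.hK
    have hu : ∀ a : ℕ, a < K → |(evSp P mT : ℤ) * a| ≤ M := by
      intro a ha
      have h0 : (0 : ℤ) ≤ (evSp P mT : ℤ) * a :=
        mul_nonneg (Int.natCast_nonneg _) (Int.natCast_nonneg _)
      rw [abs_of_nonneg h0]
      have h1 : evSp P mT * a ≤ M :=
        (Nat.mul_le_mul_left _ ha.le).trans (by rw [mul_comm]; exact hKM)
      exact_mod_cast h1
    refine event_det P hP mT M h.hM ω (evPos P mT i) ⟨hu _ hi.1, hu _ hi.2⟩ hTr ?_ ?_ ?_ ?_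
    · intro C hC hbad hconn
      by_contra hsp
      apply n1
      refine ⟨C, fun z hz => ⟨?_, hbad hz⟩, hconn, hsp⟩
      have := hC hz
      unfold evSq
      rw [Finset.mem_Icc]
      exact this
    · intro k hk
      exact n2 k (Finset.mem_range.mpr (by omega))
    · intro k hk
      exact n3 k (Finset.mem_range.mpr (by omega))
    · intro τ hτ
      by_contra hno
      refine n4 τ ?_ hno
      rw [event_mem_sq]
      have hcor : ((τ.1 * P.T0, τ.2 * P.T0) : Site) ∈ box P.T0 τ := by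
        simp only [box, Set.mem_ofPred_eq]
        have : (0 : ℤ) < P.T0 := by exact_mod_cast hT01
        exact ⟨le_refl _, by linarith, le_refl _, by linarith⟩
      have h1 := hτ hcor
      simp only [Set.mem_ofPred_eq] at h1
      rw [event_lay] at h1
      simp only [abs_mul, Nat.abs_cast] at h1
      have hT0 : (0 : ℤ) < P.T0 := by exact_mod_cast hT01
      have eT : (3 * (M : ℤ) + 10) * P.T = ((3 * M + 10) * P.g) * P.T0 := by
        simp only [Par.T]; push_cast; ring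
      rw [eT] at h1
      have g1 : |τ.1| ≤ (3 * (M : ℤ) + 10) * P.g := le_of_mul_le_mul_right h1.1 hT0
      have g2 : |τ.2| ≤ (3 * (M : ℤ) + 10) * P.g := le_of_mul_le_mul_right h1.2 hT0
      have g3 : (3 * (M : ℤ) + 10) * P.g ≤ (((3 * M + 20) * P.g : ℕ) : ℤ) := by
        push_cast
        apply mul_le_mul_of_nonneg_right (by linarith) (Int.natCast_nonneg _)
      exact ⟨g1.trans g3, g2.trans g3⟩
  -- the union bound
  have h1 : (1 : ℝ) ≤ μ.real (G ∪ (B1 ∪ ((⋃ k ∈ Finset.range (2 * M + 1), B2 k) ∪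
      ((⋃ k ∈ Finset.range (3 * P.g * P.f + 1), B3 k) ∪
        ((⋃ τ ∈ evSq ((3 * M + 20) * P.g), B4 τ) ∪ B5))))) := by
    rw [← probReal_univ (μ := μ)]
    exact measureReal_mono hcov (measure_ne_top _ _)
  have s2 : μ.real (⋃ k ∈ Finset.range (2 * M + 1), B2 k) ≤ nearSum δT (2 * M) :=
    (measureReal_biUnion_finset_le _ _).trans (Finset.sum_le_sum (fun k _ => p2 k))
  have s3 : μ.real (⋃ k ∈ Finset.range (3 * P.g * P.f + 1), B3 k) ≤
      nearSum δW (3 * P.g * P.f) :=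
    (measureReal_biUnion_finset_le _ _).trans (Finset.sum_le_sum (fun k _ => p3 k))
  have hpow0 : 0 ≤ (1 - nuc1Low P p q) ^ (n ^ 2) := pow_nonneg (by linarith) _
  have s4 : μ.real (⋃ τ ∈ evSq ((3 * M + 20) * P.g), B4 τ) ≤
      (2 * ((3 * (M : ℝ) + 20) * P.g) + 2) ^ 2 * (1 - nuc1Low P p q) ^ (n ^ 2) := by
    refine (measureReal_biUnion_finset_le _ _).trans
      ((Finset.sum_le_sum (fun τ _ => p4 τ)).trans ?_)
    rw [Finset.sum_const, event_card_sq, nsmul_eq_mul]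
    apply mul_le_mul_of_nonneg_right _ hpow0
    push_cast
    have hM0 : (0 : ℝ) ≤ M := Nat.cast_nonneg _
    have hg0 : (0 : ℝ) ≤ P.g := Nat.cast_nonneg _
    apply pow_le_pow_left₀ (by positivity)
    linarith
  have u1 := measureReal_union_le (μ := μ) G (B1 ∪ ((⋃ k ∈ Finset.range (2 * M + 1), B2 k) ∪
      ((⋃ k ∈ Finset.range (3 * P.g * P.f + 1), B3 k) ∪
        ((⋃ τ ∈ evSq ((3 * M + 20) * P.g), B4 τ) ∪ B5))))
  have u2 := measureReal_union_le (μ := μ) B1 ((⋃ k ∈ Finset.range (2 * M + 1), B2 k) ∪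
      ((⋃ k ∈ Finset.range (3 * P.g * P.f + 1), B3 k) ∪
        ((⋃ τ ∈ evSq ((3 * M + 20) * P.g), B4 τ) ∪ B5)))
  have u3 := measureReal_union_le (μ := μ) (⋃ k ∈ Finset.range (2 * M + 1), B2 k)
      ((⋃ k ∈ Finset.range (3 * P.g * P.f + 1), B3 k) ∪
        ((⋃ τ ∈ evSq ((3 * M + 20) * P.g), B4 τ) ∪ B5))
  have u4 := measureReal_union_le (μ := μ) (⋃ k ∈ Finset.range (3 * P.g * P.f + 1), B3 k)
        ((⋃ τ ∈ evSq ((3 * M + 20) * P.g), B4 τ) ∪ B5)
  have u5 := measureReal_union_le (μ := μ) (⋃ τ ∈ evSq ((3 * M + 20) * P.g), B4 τ) B5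
  unfold failSum
  linarith

end TSB
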