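import Pool.Agent.TSB.Param1

/-! Module PARAM2: the numerical conditions `Ok` and the bounds on `T`. -/

open MeasureTheory Filter
open scoped Classical Topology

namespace TSB

/-- the elementary bounds on the parameters, with `u = 1 / p`, `Q = 1 / q`, `z = u / L` -/
private structure P2F (P : Par) (L u Q z : ℝ) : Prop where
  L1 : 10 ^ 13 ≤ L
  u1 : 10 ^ 13 ≤ u
  z0 : 0 ≤ z
  zL : z * L = u
  Q1 : 10 ^ 13 * (L ^ 2 * u ^ 2) ≤ Q
  wl : 100 * L * u ≤ P.w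
  wu : (P.w : ℝ) ≤ 100 * L * u + 1
  dl : 81 * L ≤ P.d
  du : (P.d : ℝ) ≤ 81 * L + 3
  dm : P.d = P.mw + 2
  ml : 10 ^ 5 * (z + 1) ≤ P.m
  mu : (P.m : ℝ) ≤ 10 ^ 5 * (z + 1) + 1
  ks : P.k = P.m
  sm : P.s = P.m + 2
  el : 100 * L * Q ≤ P.e * ((P.d : ℝ) * P.w)
  eu : (P.e : ℝ) * ((P.d : ℝ) * P.w) ≤ 100 * L * Q + (P.d : ℝ) * P.w
  fl : Real.exp (10 * (u + L)) ≤ P.f
  fu : (P.f : ℝ) ≤ Real.exp (10 * (u + L)) + 1
  gg : P.g = 400 * P.s * (P.d * P.w)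
  gl : 20 * u ≤ P.g1
  gu : (P.g1 : ℝ) ≤ 20 * u + 1
  jj : P.j0 = 100 * (P.g1 + 10)
  rr : P.r2 = 300 * (P.w + 10)
  Rl : 20 * Q ≤ P.Rh
  Ru : (P.Rh : ℝ) ≤ 20 * Q + 1
  vv : P.v = 2000 * P.s * (P.d * P.w)

private theorem p2_facts : ∃ η > 0, ∀ p q : ℝ, Small p q η → 0 < p ∧ 0 < q ∧
    (1 / q) ^ (1 / 100 : ℝ) * 10 ^ (-13 : ℤ) ≥ (Real.log (1 / q)) ^ 2 ∧
    P2F (pr p q) (Real.log (1 / q)) (1 / p) (1 / q) (1 / p / Real.log (1 / q)) := by
  obtain ⟨η, hη, H⟩ := small_basic (10 ^ (-13 : ℤ)) (by positivity) 2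
  refine ⟨η, hη, fun p q hs => ?_⟩
  obtain ⟨h1, h2, h3, h4, h5, h6⟩ := H p q hs
  obtain ⟨hp, -, hq, -⟩ := hs
  set L := Real.log (1 / q) with hL
  have hL1 : (10 : ℝ) ^ 13 ≤ L := by
    have e : (1 : ℝ) / 10 ^ (-13 : ℤ) = 10 ^ 13 := by norm_num
    rw [e] at h5
    exact h5
  have hL0 : 0 < L := lt_of_lt_of_le (by norm_num) hL1
  have hu1 : (10 : ℝ) ^ 13 ≤ 1 / p := by
    rw [le_div_iff₀ hp]
    calc (10 : ℝ) ^ 13 * p ≤ 10 ^ 13 * 10 ^ (-13 : ℤ) := by gcongr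
      _ = 1 := by norm_num
  refine ⟨hp, hq, ?_, ?_⟩
  · have e1 : (1 / q) ^ (1 / 100 : ℝ) * q ^ (1 / 100 : ℝ) = 1 := by
      rw [← Real.mul_rpow (by positivity) hq.le, one_div_mul_cancel hq.ne', Real.one_rpow]
    calc (L : ℝ) ^ 2 = (1 / q) ^ (1 / 100 : ℝ) * (q ^ (1 / 100 : ℝ) * L ^ 2) := by
          rw [← mul_assoc, e1, one_mul]
      _ ≤ (1 / q) ^ (1 / 100 : ℝ) * 10 ^ (-13 : ℤ) := by gcongr
  · have hw0 : 0 < 100 * L / p := by positivity
    have hwl : 100 * L / p ≤ (pr p q).w := Nat.le_ceil _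
    have hwu : ((pr p q).w : ℝ) ≤ 100 * L / p + 1 := (Nat.ceil_lt_add_one hw0.le).le
    have hmwl : 81 * L ≤ (pr p q).mw := Nat.le_ceil _
    have hmwu : ((pr p q).mw : ℝ) ≤ 81 * L + 1 := (Nat.ceil_lt_add_one (by positivity)).le
    have hdm : (pr p q).d = (pr p q).mw + 2 := rfl
    have hdmR : ((pr p q).d : ℝ) = (pr p q).mw + 2 := by rw [hdm]; push_cast; ring
    have hD0 : (0 : ℝ) < ((pr p q).d : ℝ) * (pr p q).w := by
      have : (0 : ℝ) < (pr p q).w := hw0.trans_le hwl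
      have : (0 : ℝ) < (pr p q).d := by rw [hdmR]; positivity
      positivity
    have hcast : (((pr p q).d * (pr p q).w : ℕ) : ℝ) = ((pr p q).d : ℝ) * (pr p q).w := by
      push_cast; ring
    have hel : 100 * L / (q * (((pr p q).d : ℝ) * (pr p q).w)) ≤ (pr p q).e := by
      rw [← hcast]; exact Nat.le_ceil _
    have heu : ((pr p q).e : ℝ) ≤ 100 * L / (q * (((pr p q).d : ℝ) * (pr p q).w)) + 1 := by
      have h0 : (0 : ℝ) ≤ 100 * L / (q * (((pr p q).d * (pr p q).w : ℕ) : ℝ)) := by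
        rw [hcast]; positivity
      rw [← hcast]; exact (Nat.ceil_lt_add_one h0).le
    have hee : 100 * L / (q * (((pr p q).d : ℝ) * (pr p q).w)) *
        (((pr p q).d : ℝ) * (pr p q).w) = 100 * L * (1 / q) := by
      have h1 := hD0.ne'
      have h2 := hq.ne'
      generalize ((pr p q).d : ℝ) * (pr p q).w = X at h1
      field_simp
    have hmm : 10 ^ 5 * (1 / p + L) / L = 10 ^ 5 * (1 / p / L + 1) := by
      have := hL0.ne'
      field_simp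
    constructor
    · exact hL1
    · exact hu1
    · positivity
    · exact div_mul_cancel₀ _ hL0.ne'
    · have e : (10 : ℝ) ^ 13 * (L ^ 2 * (1 / p) ^ 2) = 10 ^ 13 * (q * L ^ 2) / p ^ 2 * (1 / q) := by
        have := hq.ne'
        have := hp.ne'
        field_simp
      rw [e]
      have e2 : (10 : ℝ) ^ 13 * (q * L ^ 2) / p ^ 2 ≤ 1 := by
        rw [div_le_one (by positivity)]
        calc (10 : ℝ) ^ 13 * (q * L ^ 2) ≤ 10 ^ 13 * (10 ^ (-13 : ℤ) * p ^ 2) := by gcongr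
          _ = p ^ 2 := by
            rw [← mul_assoc]
            norm_num
      calc _ ≤ 1 * (1 / q) := by gcongr
        _ = 1 / q := one_mul _
    · rw [mul_one_div]; exact hwl
    · rw [mul_one_div]; exact hwu
    · rw [hdmR]; linarith
    · rw [hdmR]; linarith
    · exact hdm
    · rw [← hmm]; exact Nat.le_ceil _
    · rw [← hmm]; exact (Nat.ceil_lt_add_one (by positivity)).le
    · rfl
    · rfl
    · rw [← hee]; gcongr
    · calc ((pr p q).e : ℝ) * (((pr p q).d : ℝ) * (pr p q).w)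
          ≤ (100 * L / (q * (((pr p q).d : ℝ) * (pr p q).w)) + 1) *
            (((pr p q).d : ℝ) * (pr p q).w) := by gcongr
        _ = 100 * L * (1 / q) + ((pr p q).d : ℝ) * (pr p q).w := by
          rw [add_mul, hee, one_mul]
    · exact Nat.le_ceil _
    · exact (Nat.ceil_lt_add_one (by positivity)).le
    · rfl
    · rw [mul_one_div]; exact Nat.le_ceil _
    · rw [mul_one_div]; exact (Nat.ceil_lt_add_one (by positivity)).le
    · rfl
    · rfl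
    · rw [mul_one_div]; exact Nat.le_ceil _
    · rw [mul_one_div]; exact (Nat.ceil_lt_add_one (by positivity)).le
    · rfl


/-- consequences of the elementary bounds, all over the reals -/
private structure P2G (P : Par) (L u Q A : ℝ) : Prop where
  AQ : 10 ^ 13 * A ≤ Q
  Lu : 10 ^ 26 * (L * u) ≤ A
  LLu : 10 ^ 13 * (L ^ 2 * u) ≤ A
  Luu : 10 ^ 13 * (L * u ^ 2) ≤ A
  uA : 10 ^ 39 * u ≤ A
  A1 : 10 ^ 52 ≤ A
  Dl : 8100 * (L ^ 2 * u) ≤ (P.d : ℝ) * P.w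
  Du : (P.d : ℝ) * P.w ≤ 8400 * (L ^ 2 * u)
  su : (P.s : ℝ) ≤ 10 ^ 5 * u + 100003
  sD : (P.s : ℝ) * ((P.d : ℝ) * P.w) ≤ 850000000 * (L * u ^ 2 + L ^ 2 * u)
  eLu : 10 ^ 11 * (L * u) ≤ P.e

private theorem p2_g {P : Par} {L u Q z : ℝ} (F : P2F P L u Q z) :
    P2G P L u Q (L ^ 2 * u ^ 2) := by
  obtain ⟨L1, u1, z0, zL, Q1, wl, wu, dl, du, dm, ml, mu, ks, sm, el, eu, fl, fu, gg, gl, gu, jj,
    rr, Rl, Ru, vv⟩ := F
  have hL : 0 < L := by linarith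
  have hu : 0 < u := by linarith
  have hLu1 : (10 : ℝ) ^ 26 ≤ L * u := by
    calc (10 : ℝ) ^ 26 = 10 ^ 13 * 10 ^ 13 := by norm_num
      _ ≤ L * u := by gcongr
  have hLuL : L ≤ 1 / 10 ^ 13 * (L * u) := by
    calc L = 1 / 10 ^ 13 * (L * 10 ^ 13) := by ring
      _ ≤ 1 / 10 ^ 13 * (L * u) := by gcongr
  have hLuu : u ≤ 1 / 10 ^ 13 * (L * u) := by
    calc u = 1 / 10 ^ 13 * (10 ^ 13 * u) := by ring
      _ ≤ 1 / 10 ^ 13 * (L * u) := by gcongr
  have hLLu : 10 ^ 13 * (L * u) ≤ L ^ 2 * u := by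
    calc 10 ^ 13 * (L * u) ≤ L * (L * u) := by gcongr
      _ = L ^ 2 * u := by ring
  have hzu : z ≤ u := by
    calc z = z * 1 := (mul_one z).symm
      _ ≤ z * L := by gcongr; linarith
      _ = u := zL
  have hDu : (P.d : ℝ) * P.w ≤ 8400 * (L ^ 2 * u) := by
    calc (P.d : ℝ) * P.w ≤ (81 * L + 3) * (100 * L * u + 1) := by gcongr
      _ = 8100 * (L ^ 2 * u) + 81 * L + 300 * (L * u) + 3 := by ring
      _ ≤ 8400 * (L ^ 2 * u) := by nlinarith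
  have hD0 : (0 : ℝ) < (P.d : ℝ) * P.w := by
    have h1 : (0 : ℝ) < P.d := lt_of_lt_of_le (by positivity) dl
    have h2 : (0 : ℝ) < P.w := lt_of_lt_of_le (by positivity) wl
    positivity
  have hsm : (P.s : ℝ) = P.m + 2 := by rw [sm]; push_cast; ring
  have hsu' : (P.s : ℝ) ≤ 10 ^ 5 * z + 100003 := by rw [hsm]; linarith
  constructor
  · exact Q1
  · calc 10 ^ 26 * (L * u) ≤ (L * u) * (L * u) := by gcongr
      _ = _ := by ring
  · calc 10 ^ 13 * (L ^ 2 * u) ≤ u * (L ^ 2 * u) := by gcongr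
      _ = _ := by ring
  · calc 10 ^ 13 * (L * u ^ 2) ≤ L * (L * u ^ 2) := by gcongr
      _ = _ := by ring
  · calc 10 ^ 39 * u = (10 ^ 13 * 10 ^ 13 * 10 ^ 13) * u := by norm_num
      _ ≤ (L * L * u) * u := by gcongr
      _ = _ := by ring
  · calc (10 : ℝ) ^ 52 = 10 ^ 26 * 10 ^ 26 := by norm_num
      _ ≤ (L * u) * (L * u) := by gcongr
      _ = _ := by ring
  · calc 8100 * (L ^ 2 * u) = (81 * L) * (100 * L * u) := by ring
      _ ≤ _ := by gcongr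
  · exact hDu
  · linarith
  · calc (P.s : ℝ) * ((P.d : ℝ) * P.w) ≤ (10 ^ 5 * z + 100003) * (8400 * (L ^ 2 * u)) := by
          gcongr
      _ = 840000000 * ((z * L) * (L * u)) + 840025200 * (L ^ 2 * u) := by ring
      _ = 840000000 * (L * u ^ 2) + 840025200 * (L ^ 2 * u) := by rw [zL]; ring
      _ ≤ _ := by nlinarith [show 0 < L * u ^ 2 by positivity, show 0 < L ^ 2 * u by positivity]
  · have h1 : 100 * L * Q ≤ P.e * (8400 * (L ^ 2 * u)) := el.trans (by gcongr)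
    have h2 : L * (10 ^ 13 * (L ^ 2 * u ^ 2)) ≤ L * Q := by gcongr
    have h3 : (L ^ 2 * u) * (10 ^ 13 * (L * u)) ≤ (L ^ 2 * u) * (84 * P.e) := by nlinarith
    have h4 := le_of_mul_le_mul_left h3 (by positivity)
    nlinarith

theorem pr_ok : ∃ η > 0, ∀ p q : ℝ, Small p q η → (pr p q).Ok := by
  obtain ⟨η, hη, H⟩ := p2_facts
  refine ⟨η, hη, fun p q hs => ?_⟩
  obtain ⟨hp, hq, -, F⟩ := H p q hs
  have G := p2_g F
  generalize Real.log (1 / q) = L at F G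
  generalize 1 / p = u at F G
  generalize 1 / q = Q at F G
  generalize pr p q = P at F G
  generalize u / L = z at F
  obtain ⟨L1, u1, z0, zL, Q1, wl, wu, dl, du, dm, ml, mu, ks, sm, el, eu, fl, fu, gg, gl, gu, jj,
    rr, Rl, Ru, vv⟩ := F
  obtain ⟨AQ, hLu, hLLu, hLuu, huA, hA1, hDl, hDu, hsu, hsD, heLu⟩ := G
  have hL : 0 < L := by linarith
  have hu : 0 < u := by linarith
  have hLu0 : 0 < L * u := by positivity
  have hLLu0 : 0 < L ^ 2 * u := by positivity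
  have hLu1 : (10 : ℝ) ^ 13 * u ≤ L * u := by gcongr
  have hLLu1 : (10 : ℝ) ^ 13 * (L * u) ≤ L ^ 2 * u := by
    calc (10 : ℝ) ^ 13 * (L * u) ≤ L * (L * u) := by gcongr
      _ = L ^ 2 * u := by ring
  have hsmR : (P.s : ℝ) = P.m + 2 := by rw [sm]; push_cast; ring
  have hkR : (P.k : ℝ) = P.m := by rw [ks]
  have hjR : (P.j0 : ℝ) = 100 * (P.g1 + 10) := by rw [jj]; push_cast; ring
  have hrR : (P.r2 : ℝ) = 300 * (P.w + 10) := by rw [rr]; push_cast; ring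
  have hvR : (P.v : ℝ) = 2000 * (P.s * (P.d * P.w)) := by rw [vv]; push_cast; ring
  have hDR : (P.D : ℝ) = P.d * P.w := by rw [Par.D]; push_cast; ring
  have hWR : (P.W : ℝ) = P.e * (P.d * P.w) := by rw [Par.W, Par.D]; push_cast; ring
  have hLQ : 10 ^ 13 * Q ≤ L * Q := by
    have : 0 ≤ Q := by linarith
    gcongr
  generalize L ^ 2 * u ^ 2 = A at *
  refine ⟨?_, ?_, ?_, ?_, ?_, ?_, ?_, ?_, ?_, ?_, ?_, ?_, ?_, ?_, ?_, ?_, ?_, ?_, ?_, ?_, ?_, ?_⟩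
  · have : (3 : ℝ) ≤ P.w := by linarith
    exact_mod_cast this
  · omega
  · omega
  · have : (1 : ℝ) ≤ P.k := by linarith
    exact_mod_cast this
  · have : (4 : ℝ) * P.k + 20 ≤ P.D := by rw [hkR, hDR]; linarith
    exact_mod_cast this
  · have : (10 : ℝ) * P.s + 10 ≤ P.e := by linarith
    exact_mod_cast this
  · have h1 : 1 ≤ Real.exp (10 * (u + L)) := Real.one_le_exp (by positivity)
    have : (1 : ℝ) ≤ P.f := h1.trans fl
    exact_mod_cast this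
  · rw [gg, Par.D]
  · have : (1 : ℝ) ≤ P.g1 := by linarith
    exact_mod_cast this
  · have : (P.g1 : ℝ) ≤ P.w := by linarith
    exact_mod_cast this
  · omega
  · omega
  · have : (4 : ℝ) * P.j0 ≤ P.r2 := by rw [hjR, hrR]; linarith
    exact_mod_cast this
  · omega
  · have : (P.r2 : ℝ) ≤ P.Rh := by rw [hrR]; linarith
    exact_mod_cast this
  · have : (1000 : ℝ) * (P.w + 10) ≤ P.Rh := by linarith
    exact_mod_cast this
  · have : (100 : ℝ) * P.j0 ≤ P.Rh := by rw [hjR]; linarith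
    exact_mod_cast this
  · have : (100 : ℝ) * P.k ≤ P.Rh := by rw [hkR]; linarith
    exact_mod_cast this
  · have : (40 : ℝ) * P.s * P.D ≤ P.Rh := by rw [hDR, mul_assoc]; linarith
    exact_mod_cast this
  · have : (10 : ℝ) * P.Rh ≤ P.W := by rw [hWR]; linarith
    exact_mod_cast this
  · have : (100 : ℝ) * P.v ≤ P.Rh := by rw [hvR]; linarith
    exact_mod_cast this
  · rw [vv, Par.D]

theorem pr_T : ∃ η > 0, ∀ p q : ℝ, Small p q η →
    Real.exp (10 * (1 / p + Real.log (1 / q))) ≤ (pr p q).T ∧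
    ((pr p q).T : ℝ) ≤ Real.exp (20 * (1 / p + Real.log (1 / q))) ∧
    (1000 * ((pr p q).s : ℝ) * (pr p q).D) ≤ q ^ (-(1 / 2 + 1 / 10) : ℝ) * (1 / p) ∧
    q * ((pr p q).s : ℝ) * (pr p q).D ≤ 10 ^ (-12 : ℝ) := by
  obtain ⟨η, hη, H⟩ := p2_facts
  refine ⟨η, hη, fun p q hs => ?_⟩
  obtain ⟨hp, hq, hE, F⟩ := H p q hs
  have G := p2_g F
  have hQL : Real.exp (Real.log (1 / q)) = 1 / q := Real.exp_log (by positivity)
  have hQr : q ^ (-(1 / 2 + 1 / 10) : ℝ) = (1 / q) ^ (1 / 2 + 1 / 10 : ℝ) := by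
    rw [one_div q, Real.inv_rpow hq.le, Real.rpow_neg hq.le]
  have hqQ : q * (1 / q) = 1 := mul_one_div_cancel hq.ne'
  rw [hQr]
  generalize Real.log (1 / q) = L at *
  generalize 1 / p = u at *
  generalize 1 / q = Q at *
  generalize pr p q = P at *
  generalize u / L = z at F
  obtain ⟨L1, u1, z0, zL, Q1, wl, wu, dl, du, dm, ml, mu, ks, sm, el, eu, fl, fu, gg, gl, gu, jj,
    rr, Rl, Ru, vv⟩ := F
  obtain ⟨AQ, hLu, hLLu, hLuu, huA, hA1, hDl, hDu, hsu, hsD, heLu⟩ := G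
  have hL : 0 < L := by linarith
  have hu : 0 < u := by linarith
  have hLu0 : 0 < L * u := by positivity
  have hLLu0 : 0 < L ^ 2 * u := by positivity
  have hQ0 : 0 < Q := by linarith
  have hQ1 : 1 ≤ Q := by linarith
  have hDR : (P.D : ℝ) = P.d * P.w := by rw [Par.D]; push_cast; ring
  have hsDA : (P.s : ℝ) * ((P.d : ℝ) * P.w) ≤ 1 / 10 ^ 3 * (L ^ 2 * u ^ 2) := by
    linarith
  have hgR : (P.g : ℝ) = 400 * (P.s * (P.d * P.w)) := by rw [gg]; push_cast; ring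
  have hgQ : (P.g : ℝ) ≤ Q := by rw [hgR]; linarith
  have hTR : (P.T : ℝ) = P.g * (P.f * (P.e * (P.d * P.w))) := by
    rw [Par.T, Par.T0, Par.W, Par.D]; push_cast; ring
  have hE1 : 1 ≤ Real.exp (10 * (u + L)) := Real.one_le_exp (by positivity)
  have hLQ : 10 ^ 13 * Q ≤ L * Q := by gcongr
  have hLQ2 : L ^ 2 * u ≤ L * Q := by
    have h1 : L ^ 2 * u ≤ Q := by
      have : 0 ≤ L ^ 2 * u := hLLu0.le
      linarith
    linarith
  have hWl : 1 ≤ (P.e : ℝ) * (P.d * P.w) := by linarith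
  have hWu : (P.e : ℝ) * (P.d * P.w) ≤ 10000 * (L * Q) := by linarith
  have hgl : (1 : ℝ) ≤ P.g := by
    have h1 : (1 : ℝ) ≤ P.s := by
      have : (P.s : ℝ) = P.m + 2 := by rw [sm]; push_cast; ring
      rw [this]
      linarith
    have h10 : (1 : ℝ) ≤ L ^ 2 * u := by
      calc (1 : ℝ) = 1 ^ 2 * 1 := by norm_num
        _ ≤ L ^ 2 * u := by gcongr <;> linarith
    have h2 : (1 : ℝ) ≤ P.d * P.w := by linarith
    have h3 : (1 : ℝ) ≤ P.s * (P.d * P.w) := one_le_mul_of_one_le_of_one_le h1 h2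
    rw [hgR]
    linarith
  have hLQ3 : 20000 * L ≤ Q := by
    have : L * 1 ≤ L * u := by gcongr; linarith
    linarith
  refine ⟨?_, ?_, ?_, ?_⟩
  · rw [hTR]
    calc Real.exp (10 * (u + L)) ≤ 1 * (P.f * 1) := by simpa using fl
      _ ≤ _ := by gcongr
  · rw [hTR]
    have e20 : Real.exp (20 * (u + L)) =
        Real.exp (10 * (u + L)) * (Real.exp (10 * u) * Q ^ 10) := by
      rw [← hQL, ← Real.exp_nat_mul, ← Real.exp_add, ← Real.exp_add]
      congr 1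
      push_cast
      ring
    have hQ10 : Q ^ 3 ≤ Q ^ 10 := pow_le_pow_right₀ hQ1 (by norm_num)
    have hu1' : 1 ≤ Real.exp (10 * u) := Real.one_le_exp (by positivity)
    calc (P.g : ℝ) * (P.f * (P.e * (P.d * P.w)))
        ≤ Q * ((Real.exp (10 * (u + L)) + 1) * (10000 * (L * Q))) := by gcongr
      _ ≤ Q * ((Real.exp (10 * (u + L)) + Real.exp (10 * (u + L))) * (10000 * (L * Q))) := by
          gcongr
      _ = Real.exp (10 * (u + L)) * ((20000 * L) * Q ^ 2) := by ring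
      _ ≤ Real.exp (10 * (u + L)) * (Q * Q ^ 2) := by gcongr
      _ = Real.exp (10 * (u + L)) * (1 * Q ^ 3) := by ring
      _ ≤ Real.exp (10 * (u + L)) * (Real.exp (10 * u) * Q ^ 10) := by gcongr
      _ = _ := e20.symm
  · rw [hDR, mul_assoc]
    have hQs : Q ^ (1 / 2 + 1 / 10 : ℝ) = Q ^ (1 / 2 : ℝ) * Q ^ (1 / 10 : ℝ) :=
      Real.rpow_add hQ0 _ _
    have hQs2 : Q ^ (1 / 2 : ℝ) * Q ^ (1 / 2 : ℝ) = Q := by
      rw [← Real.rpow_add hQ0]
      norm_num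
    have hQh1 : 1 ≤ Q ^ (1 / 2 : ℝ) := Real.one_le_rpow hQ1 (by norm_num)
    have hQ01 : Q ^ (1 / 100 : ℝ) ≤ Q ^ (1 / 10 : ℝ) :=
      Real.rpow_le_rpow_of_exponent_le hQ1 (by norm_num)
    have hEE : 10 ^ 13 * L ^ 2 ≤ Q ^ (1 / 10 : ℝ) := by
      have e1 : Q ^ (1 / 100 : ℝ) = 10 ^ 13 * (Q ^ (1 / 100 : ℝ) * 10 ^ (-13 : ℤ)) := by
        rw [mul_left_comm]
        norm_num
      calc 10 ^ 13 * L ^ 2 ≤ 10 ^ 13 * (Q ^ (1 / 100 : ℝ) * 10 ^ (-13 : ℤ)) := by gcongr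
        _ = Q ^ (1 / 100 : ℝ) := e1.symm
        _ ≤ _ := hQ01
    have hLuQ : L * u ≤ Q ^ (1 / 2 : ℝ) := by
      by_contra h
      push Not at h
      have : Q < (L * u) * (L * u) := by
        rw [← hQs2]
        exact mul_lt_mul'' h h (by positivity) (by positivity)
      have e5 : (L * u) * (L * u) = L ^ 2 * u ^ 2 := by ring
      rw [e5] at this
      linarith
    have hL26 : (10 : ℝ) ^ 26 ≤ L ^ 2 := by
      calc (10 : ℝ) ^ 26 = (10 ^ 13) ^ 2 := by norm_num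
        _ ≤ L ^ 2 := by gcongr
    rw [hQs]
    have h5 : L * u + L ^ 2 ≤ Q ^ (1 / 2 : ℝ) + L ^ 2 := by linarith
    have h6 : 850000000000 * (Q ^ (1 / 2 : ℝ) + L ^ 2) ≤ Q ^ (1 / 2 : ℝ) * Q ^ (1 / 10 : ℝ) := by
      have h7 : Q ^ (1 / 2 : ℝ) * (10 ^ 13 * L ^ 2) ≤ Q ^ (1 / 2 : ℝ) * Q ^ (1 / 10 : ℝ) := by
        gcongr
      have h8 : 1 * (L ^ 2) ≤ Q ^ (1 / 2 : ℝ) * L ^ 2 := by gcongr
      have h9 : Q ^ (1 / 2 : ℝ) * 10 ^ 26 ≤ Q ^ (1 / 2 : ℝ) * L ^ 2 := by gcongr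
      linarith
    calc 1000 * ((P.s : ℝ) * (P.d * P.w)) ≤ 1000 * (850000000 * (L * u ^ 2 + L ^ 2 * u)) := by
          gcongr
      _ = 850000000000 * (L * u + L ^ 2) * u := by ring
      _ ≤ 850000000000 * (Q ^ (1 / 2 : ℝ) + L ^ 2) * u := by gcongr
      _ ≤ _ := by gcongr
  · rw [hDR, mul_assoc]
    have e1 : (10 : ℝ) ^ (-12 : ℝ) = 1 / 10 ^ 12 := by
      rw [Real.rpow_neg (by norm_num)]
      norm_num
    rw [e1]
    have h7 : (P.s : ℝ) * (P.d * P.w) ≤ 1 / 10 ^ 16 * Q := by linarith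
    calc q * ((P.s : ℝ) * (P.d * P.w)) ≤ q * (1 / 10 ^ 16 * Q) :=
          mul_le_mul_of_nonneg_left h7 hq.le
      _ = 1 / 10 ^ 16 * (q * Q) := by ring
      _ = 1 / 10 ^ 16 := by rw [hqQ, mul_one]
      _ ≤ _ := by norm_num


end TSB
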