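import Pool.Agent.TSB.Param6
open scoped Classical

/-! Module PARAM7: the numerical conditions of the probabilistic part. -/

namespace TSB

namespace PSmall

variable {p q : ℝ}

theorem two_le_exp1 : (2 : ℝ) ≤ Real.exp 1 := by
  have := Real.exp_one_gt_d9
  linarith

theorem pk_g1 (h : PSmall p q) : (1 - p) ^ ((pr p q).g1 / 2 - 1) ≤ 1 / 4 := by
  have hp := h.hp
  have h1 := h.g1_lb
  have hi := h.inv_p
  calc (1 - p) ^ ((pr p q).g1 / 2 - 1) ≤ Real.exp (-p) ^ ((pr p q).g1 / 2 - 1) :=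
        pow_le_pow_left₀ (by linarith [h.p_lt_one]) (Real.one_sub_le_exp_neg p) _
    _ = Real.exp ((((pr p q).g1 / 2 - 1 : ℕ) : ℝ) * (-p)) := by rw [← Real.exp_nat_mul]
    _ ≤ Real.exp ((2 : ℕ) * (-1)) := by
        apply Real.exp_le_exp.mpr
        have h2 : (pr p q).g1 ≤ 2 * ((pr p q).g1 / 2 - 1) + 4 := by omega
        have h3 : ((pr p q).g1 : ℝ) ≤ 2 * (((pr p q).g1 / 2 - 1 : ℕ) : ℝ) + 4 := by exact_mod_cast h2
        have h4 : (4 : ℝ) ≤ 10 ^ 100 := by norm_num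
        have h5 : 20 / p = 20 * (1 / p) := by ring
        rw [h5] at h1
        have h6 : 2 * (1 / p) ≤ (((pr p q).g1 / 2 - 1 : ℕ) : ℝ) := by linarith
        have h7 : 2 * (1 / p) * p = 2 := by field_simp
        have h8 := mul_le_mul_of_nonneg_right h6 hp.le
        rw [h7] at h8
        push_cast at h8 ⊢
        linarith
    _ = Real.exp (-1) ^ 2 := by rw [← Real.exp_nat_mul]
    _ ≤ (1 / 2) ^ 2 := pow_le_pow_left₀ (Real.exp_pos _).le half_ge 2
    _ = 1 / 4 := by norm_num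

theorem pk_g2 (h : PSmall p q) : 8 ≤ (pr p q).g1 := by
  have h1 := h.g1_lb
  have hi := h.inv_p
  have h5 : 20 / p = 20 * (1 / p) := by ring
  rw [h5] at h1
  have h4 : (8 : ℝ) ≤ 10 ^ 100 := by norm_num
  have h6 : (8 : ℝ) ≤ (pr p q).g1 := by linarith
  exact_mod_cast h6

theorem pk_w (h : PSmall p q) : 100 * (((pr p q).Rh : ℝ)) ^ 2 * (1 - p) ^ ((pr p q).w - 1) ≤ p / 100 := by
  have hp := h.hp
  have hq := h.hq
  have hL := h.L_pos
  have h1 : (1 - p) ^ ((pr p q).w - 1) ≤ q ^ 50 := by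
    calc (1 - p) ^ ((pr p q).w - 1) ≤ Real.exp (-p) ^ ((pr p q).w - 1) :=
          pow_le_pow_left₀ (by linarith [h.p_lt_one]) (Real.one_sub_le_exp_neg p) _
      _ = Real.exp ((((pr p q).w - 1 : ℕ) : ℝ) * (-p)) := by rw [← Real.exp_nat_mul]
      _ ≤ Real.exp (-((50 : ℕ) * Real.log (1 / q))) := by
          apply Real.exp_le_exp.mpr
          have h2 : (pr p q).w ≤ ((pr p q).w - 1) + 1 := by omega
          have h3 : ((pr p q).w : ℝ) ≤ (((pr p q).w - 1 : ℕ) : ℝ) + 1 := by exact_mod_cast h2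
          have h4 := h.w_lb
          rw [div_le_iff₀ hp] at h4
          have h5 := h.L_one
          have h6 := h.p_lt_one
          push_cast
          nlinarith
      _ = q ^ 50 := by rw [h.q_npow]
  have h2 := h.Rh_ub'
  have h3 : q ^ 48 ≤ q ^ 2 := pow_le_pow_of_le_one hq.le h.q_lt_one.le (by norm_num)
  have h4 := h.hqe
  have h5 := h.q_le_p
  calc 100 * (((pr p q).Rh : ℝ)) ^ 2 * (1 - p) ^ ((pr p q).w - 1)
      ≤ 100 * ((41 / 2) / q) ^ 2 * q ^ 50 := by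
        have h6 : 0 ≤ (1 - p) ^ ((pr p q).w - 1) := pow_nonneg (by linarith [h.p_lt_one]) _
        gcongr
    _ = 100 * (41 / 2) ^ 2 * q ^ 48 := by field_simp
    _ ≤ 100 * (41 / 2) ^ 2 * q ^ 2 := by gcongr
    _ = 100 * (41 / 2) ^ 2 * q * q := by ring
    _ ≤ 100 * (41 / 2) ^ 2 * (1 / 10 ^ 100) * p := by gcongr
    _ ≤ 1 / 100 * p := mul_le_mul_of_nonneg_right (by norm_num) hp.le
    _ = p / 100 := by ring

theorem pk_aw (h : PSmall p q) : 2 * q * (((pr p q).w : ℝ) + 4) ^ 2 ≤ 1 :=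
  h.two_q_w.trans (by norm_num)

theorem rpow_le_one' (h : PSmall p q) (c : ℝ) (hc : 0 ≤ c) : q ^ c ≤ 1 :=
  Real.rpow_le_one h.hq.le h.q_lt_one.le hc

theorem Th_q (h : PSmall p q) : 1 / p + Real.log (1 / q) ≤ 1 / q := by
  have h1 := h.Th_le
  have h2 := h.Th_pos
  have h3 : (1 : ℝ) * (1 / p + Real.log (1 / q)) ≤ 10 ^ 80 * (1 / p + Real.log (1 / q)) := by
    gcongr
    norm_num
  linarith

theorem prmT_ub (h : PSmall p q) : ((prmT p q : ℕ) : ℝ) + 10 ≤ 1 / q := by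
  have hq := h.hq
  have hT := h.Th_big
  have hT0 := h.Th_pos
  have h1 : ((prmT p q : ℕ) : ℝ) ≤ 2 * 10 ^ 6 / (q * (1 / p + Real.log (1 / q))) + 1 :=
    (Nat.ceil_lt_add_one (by positivity)).le
  have h2 : 2 * 10 ^ 6 / (q * (1 / p + Real.log (1 / q))) ≤ 2 * 10 ^ 6 / (q * 10 ^ 100) := by gcongr
  have h3 : 2 * 10 ^ 6 / (q * 10 ^ 100) = (2 * 10 ^ 6 / 10 ^ 100) * (1 / q) := by
    field_simp
  have h4 : (2 * 10 ^ 6 / 10 ^ 100 : ℝ) * (1 / q) ≤ 1 / 2 * (1 / q) :=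
    mul_le_mul_of_nonneg_right (by norm_num) (by positivity)
  have h5 := h.inv_q
  have h6 : (22 : ℝ) ≤ 10 ^ 100 := by norm_num
  linarith

theorem prM_lb (q : ℝ) : Real.exp (20000 / q) ≤ prM q := Nat.le_ceil _

theorem prM_ub (q : ℝ) : ((prM q : ℕ) : ℝ) ≤ Real.exp (20000 / q) + 1 :=
  (Nat.ceil_lt_add_one (Real.exp_pos _).le).le

theorem pk_M (h : PSmall p q) : prmT p q + 10 ≤ prM q := by
  have h1 := h.prmT_ub
  have h2 := prM_lb q
  have h3 := Real.add_one_le_exp (20000 / q)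
  have hq := h.hq
  have h4 : 1 / q ≤ 20000 / q := by
    gcongr
    norm_num
  have h5 : ((prmT p q + 10 : ℕ) : ℝ) ≤ (prM q : ℕ) := by
    push_cast
    linarith
  exact_mod_cast h5

theorem pk_K (h : PSmall p q) :
    prK p q * (4000 * (pr p q).s * (pr p q).D + 2 * prmT p q + 10) ≤ prM q :=
  Nat.div_mul_le_self _ _

theorem f_four (h : PSmall p q) : 4 ≤ (pr p q).f := by
  have h1 := h.f_lb
  have h2 := Real.add_one_le_exp (10 * (1 / p + Real.log (1 / q)))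
  have h3 := h.Th_big
  have h4 : (4 : ℝ) ≤ 10 ^ 100 := by norm_num
  have h5 : (4 : ℝ) ≤ (pr p q).f := by linarith
  exact_mod_cast h5

theorem pk_n (h : PSmall p q) (he : 1 ≤ (pr p q).e) :
    prn p q * (2 * (pr p q).s + 5) + 4 ≤ (pr p q).f * (pr p q).e := by
  have h4 := h.f_four
  obtain ⟨x, hx⟩ : ∃ x, x = (pr p q).f * (pr p q).e := ⟨_, rfl⟩
  obtain ⟨y, hy⟩ : ∃ y, y = 2 * (pr p q).s + 5 := ⟨_, rfl⟩
  have hn : prn p q = x / y - 1 := by rw [hx, hy]; rfl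
  rw [hn, ← hx, ← hy]
  have h5 : 4 ≤ x := by rw [hx]; nlinarith
  have hy5 : 5 ≤ y := by omega
  rcases Nat.eq_zero_or_pos (x / y) with h0 | h0
  · rw [h0]
    simpa using h5
  · have h6 : x / y * y ≤ x := Nat.div_mul_le_self x y
    have h7 : (x / y - 1) * y + y = x / y * y := by
      obtain ⟨k, hk⟩ : ∃ k, x / y = k + 1 := ⟨x / y - 1, by omega⟩
      rw [hk]
      simp
      ring
    omega

theorem probOk (h : PSmall p q) (hT : PT p q) (hO : (pr p q).Ok) :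
    ProbOk (pr p q) (prmT p q) (prM q) (prn p q) (prK p q) p q (1600 * q) where
  hp := h.hp
  hq := h.hq
  hp' := h.hpe.trans (by norm_num)
  hqp := by
    have h1 := h.hqp
    have h2 : 0 ≤ p ^ 2 := sq_nonneg p
    have h3 : (1 : ℝ) / 10 ^ 100 * p ^ 2 ≤ 1 * p ^ 2 := by
      gcongr
      norm_num
    linarith
  hl := by
    have := h.hq
    positivity
  hRh := by
    have h1 := h.Rh_lb
    rw [div_le_iff₀ h.hq] at h1
    linarith
  hg1 := h.pk_g1
  hg2 := h.pk_g2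
  hw := h.pk_w
  haw := h.pk_aw
  hD1 := h.deltaD_le65.trans (h.rpow_le_one' _ (by norm_num))
  hW1 := (h.deltaW_le hT.qsD).trans (h.rpow_le_one' _ (by norm_num))
  hT1 := (h.deltaT_le hT).trans ((h.exp_neg_Th 160 (by norm_num)).trans (exp_1000'.trans (by norm_num)))
  hS := h.deltaS_le hT
  h0 := (Real.exp_pos _).le.trans (h.nuc1Low_ge hT)
  hn := h.pk_n (by
    have := hO.he
    omega)
  hM := h.pk_M
  hK := h.pk_K

end PSmall

theorem psmall_all : ∃ η > 0, ∀ p q : ℝ, Small p q η → PSmall p q ∧ PT p q ∧ (pr p q).Ok := by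
  obtain ⟨η, hη, H⟩ := small_and psmall_T pr_ok
  exact ⟨η, hη, fun p q hs => ⟨(H p q hs).1.1, (H p q hs).1.2, (H p q hs).2⟩⟩

theorem pr_probOk : ∃ η > 0, ∀ p q : ℝ, Small p q η →
    ProbOk (pr p q) (prmT p q) (prM q) (prn p q) (prK p q) p q (1600 * q) := by
  obtain ⟨η, hη, H⟩ := psmall_all
  exact ⟨η, hη, fun p q hs => (H p q hs).1.probOk (H p q hs).2.1 (H p q hs).2.2⟩

end TSB
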