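import Pool.Agent.TSB.Param7
open scoped Classical

/-! Module PARAM8: the exceptional events have small probability; the time bound. -/

namespace TSB

namespace PSmall

variable {p q : ℝ}

theorem exp_Th (h : PSmall p q) (c : ℝ) (hc : c ≤ 10 ^ 80) :
    Real.exp (c * (1 / p + Real.log (1 / q))) ≤ Real.exp (1 / q) := by
  apply Real.exp_le_exp.mpr
  have h1 := h.Th_le
  have h2 := h.Th_pos
  have h3 : c * (1 / p + Real.log (1 / q)) ≤ 10 ^ 80 * (1 / p + Real.log (1 / q)) :=
    mul_le_mul_of_nonneg_right hc h2.le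
  linarith

/-- constants are absorbed by `exp (1/q)` -/
theorem const_q (h : PSmall p q) (C : ℝ) (hC : C ≤ 10 ^ 100) : C ≤ Real.exp (1 / q) := by
  have h1 := Real.add_one_le_exp (1 / q)
  have h2 := h.inv_q
  linarith

theorem expq_mul (a b : ℝ) : Real.exp (a / q) * Real.exp (b / q) = Real.exp ((a + b) / q) := by
  rw [← Real.exp_add, ← add_div]

theorem M_ub (h : PSmall p q) : ((prM q : ℕ) : ℝ) ≤ 2 * Real.exp (20000 / q) := by
  have h1 := prM_ub q
  have hq := h.hq
  have h2 : 1 ≤ Real.exp (20000 / q) := Real.one_le_exp (by positivity)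
  linarith

theorem exp_neg_q (h : PSmall p q) : Real.exp (-(1 / q)) ≤ q ^ (1 / 10 : ℝ) := by
  rw [h.q_rpow]
  apply Real.exp_le_exp.mpr
  have h1 := h.Th_q
  have h2 := h.L_le_Th
  have h3 := h.L_pos
  linarith

theorem fail1 (h : PSmall p q) (hT : PT p q) :
    spanW (prmT p q) (deltaT (pr p q) (2 * q) (1 - p / 2) (1 - q)) ((2 * ((prM q : ℕ) : ℝ) + 1) ^ 2) ≤
      q ^ (1 / 10 : ℝ) := by
  refine le_trans ?_ h.exp_neg_q
  have hq := h.hq
  have hT0 := h.Th_pos
  have hmT := h.prmT_ub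
  have h1 := h.M_ub
  have hE1 : 1 ≤ Real.exp (20000 / q) := Real.one_le_exp (by positivity)
  have n1 : (2 * ((prM q : ℕ) : ℝ) + 1) ^ 2 ≤ Real.exp (40001 / q) := by
    calc (2 * ((prM q : ℕ) : ℝ) + 1) ^ 2 ≤ (5 * Real.exp (20000 / q)) ^ 2 := by
          apply pow_le_pow_left₀ (by positivity)
          linarith
      _ = 25 * Real.exp (40000 / q) := by
          rw [mul_pow, ← Real.exp_nat_mul]
          norm_num
          ring_nf
      _ ≤ Real.exp (1 / q) * Real.exp (40000 / q) := by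
          have := h.const_q 25 (by norm_num)
          gcongr
      _ = Real.exp (40001 / q) := by
          rw [expq_mul]
          norm_num
  have n2 : (8 : ℝ) ^ (prmT p q + 1) ≤ Real.exp (3 / q) := by
    calc (8 : ℝ) ^ (prmT p q + 1) ≤ Real.exp 3 ^ (prmT p q + 1) := by
          gcongr
          exact eight_le
      _ = Real.exp (((prmT p q + 1 : ℕ) : ℝ) * 3) := by rw [← Real.exp_nat_mul]
      _ ≤ _ := by
          apply Real.exp_le_exp.mpr
          have h3 : 3 / q = 3 * (1 / q) := by ring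
          rw [h3]
          push_cast
          linarith
  have n3 : (deltaT (pr p q) (2 * q) (1 - p / 2) (1 - q)) ^ ((prmT p q + 82) / 81) ≤
      Real.exp (-(10 ^ 6 / q)) := by
    have h2 := h.deltaT_le hT
    have h3 := h.deltaT_nonneg
    calc (deltaT (pr p q) (2 * q) (1 - p / 2) (1 - q)) ^ ((prmT p q + 82) / 81)
        ≤ Real.exp (-(160 * (1 / p + Real.log (1 / q)))) ^ ((prmT p q + 82) / 81) :=
          pow_le_pow_left₀ h3 h2 _
      _ = Real.exp ((((prmT p q + 82) / 81 : ℕ) : ℝ) * (-(160 * (1 / p + Real.log (1 / q))))) := by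
          rw [← Real.exp_nat_mul]
      _ ≤ _ := by
          apply Real.exp_le_exp.mpr
          have h4 : prmT p q ≤ 81 * ((prmT p q + 82) / 81) := by omega
          have h5 : ((prmT p q : ℕ) : ℝ) ≤ 81 * (((prmT p q + 82) / 81 : ℕ) : ℝ) := by exact_mod_cast h4
          have h6 : 2 * 10 ^ 6 / (q * (1 / p + Real.log (1 / q))) ≤ ((prmT p q : ℕ) : ℝ) := Nat.le_ceil _
          have h7 : 2 * 10 ^ 6 / q ≤ 81 * (((prmT p q + 82) / 81 : ℕ) : ℝ) *
              (1 / p + Real.log (1 / q)) := by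
            calc 2 * 10 ^ 6 / q = 2 * 10 ^ 6 / (q * (1 / p + Real.log (1 / q))) *
                  (1 / p + Real.log (1 / q)) := by
                    field_simp
              _ ≤ _ := by
                  have := h6.trans h5
                  gcongr
          have h8 : 2 * 10 ^ 6 / q = 2 * (10 ^ 6 / q) := by ring
          rw [h8] at h7
          have h9 : 0 ≤ 10 ^ 6 / q := by positivity
          nlinarith
  unfold spanW
  have h0 : 0 ≤ (deltaT (pr p q) (2 * q) (1 - p / 2) (1 - q)) ^ ((prmT p q + 82) / 81) :=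
    pow_nonneg h.deltaT_nonneg _
  calc (2 * ((prM q : ℕ) : ℝ) + 1) ^ 2 * 8 ^ (prmT p q + 1) *
      (deltaT (pr p q) (2 * q) (1 - p / 2) (1 - q)) ^ ((prmT p q + 82) / 81)
      ≤ Real.exp (40001 / q) * Real.exp (3 / q) * Real.exp (-(10 ^ 6 / q)) := by gcongr
    _ = Real.exp (40001 / q + 3 / q + -(10 ^ 6 / q)) := by rw [Real.exp_add, Real.exp_add]
    _ ≤ Real.exp (-(1 / q)) := by
        apply Real.exp_le_exp.mpr
        have h2 := h.inv_q
        have h3 : 40001 / q = 40001 * (1 / q) := by ring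
        have h4 : 3 / q = 3 * (1 / q) := by ring
        have h5 : 10 ^ 6 / q = 10 ^ 6 * (1 / q) := by ring
        have h6 : 0 < 1 / q := by positivity
        rw [h3, h4, h5]
        linarith

theorem tiny_zpow : Real.exp (-1000) ≤ 8 ^ (-200 : ℤ) := by
  refine exp_1000.trans ?_
  have k1 : (1 : ℝ) / 8 ^ 110 ≤ 1 := by
    rw [div_le_one (by positivity)]
    exact one_le_pow₀ (by norm_num)
  have k2 : (0 : ℝ) ≤ 1 / 8 ^ 110 := by positivity
  have k3 : (0 : ℝ) ≤ 1 / 8 ^ 200 := by positivity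
  have h3 : (8 : ℝ) ^ (-200 : ℤ) = 1 / 8 ^ 200 := by
    rw [zpow_neg, one_div]
    norm_cast
  rw [h3]
  calc (1 : ℝ) / 20 * (1 / 8 ^ 200) * (1 / 8 ^ 110) ≤ 1 * (1 / 8 ^ 200) * 1 :=
        mul_le_mul (mul_le_mul_of_nonneg_right (by norm_num) k3) k1 k2 (by positivity)
    _ = 1 / 8 ^ 200 := by rw [one_mul, mul_one]

theorem fail2 (h : PSmall p q) (hT : PT p q) (M : ℕ) :
    nearSum (deltaT (pr p q) (2 * q) (1 - p / 2) (1 - q)) M ≤ q ^ (1 / 10 : ℝ) := by
  have h1 := h.deltaT_le hT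
  have h2 : deltaT (pr p q) (2 * q) (1 - p / 2) (1 - q) ≤ 8 ^ (-200 : ℤ) :=
    h1.trans ((h.exp_neg_Th 160 (by norm_num)).trans tiny_zpow)
  refine (nearSum_le _ h.deltaT_nonneg h2 M).trans ?_
  have h3 := h.const_le (8 ^ 110) (by norm_num)
  have hTp := h.Th_pos
  have hL := h.L_le_Th
  calc 8 ^ 110 * deltaT (pr p q) (2 * q) (1 - p / 2) (1 - q)
      ≤ Real.exp (1 / p + Real.log (1 / q)) * Real.exp (-(160 * (1 / p + Real.log (1 / q)))) := by
        have := h.deltaT_nonneg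
        exact mul_le_mul h3 h1 this (Real.exp_pos _).le
    _ = Real.exp (1 / p + Real.log (1 / q) + -(160 * (1 / p + Real.log (1 / q)))) := by
        rw [← Real.exp_add]
    _ ≤ Real.exp (-(1 / 10 * Real.log (1 / q))) := by
        apply Real.exp_le_exp.mpr
        linarith
    _ = _ := by rw [h.q_rpow]

theorem fail3 (h : PSmall p q) (hT : PT p q) (M : ℕ) :
    nearSum (deltaW (pr p q).w (pr p q).d (pr p q).mw (pr p q).e (pr p q).s (2 * q) (1 - p / 2) (1 - q)) M
      ≤ q ^ (1 / 10 : ℝ) := by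
  have h1 := h.deltaW_le hT.qsD
  have h2 := h1.trans ((h.q_rpow_le (3 / 10) (by norm_num)).trans tiny_zpow)
  refine (nearSum_le _ h.deltaW_nonneg h2 M).trans ?_
  have h3 := h.absorb (8 ^ 110) (by positivity) (by norm_num) 0 (by norm_num) (1 / 10) (3 / 10) (by norm_num)
  rw [pow_zero, mul_one] at h3
  refine le_trans ?_ h3
  exact mul_le_mul_of_nonneg_left h1 (by positivity)

theorem nuc1Low_le (h : PSmall p q) : nuc1Low (pr p q) p q ≤ 1 := by
  have hp := h.hp
  have hq := h.hq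
  have hp1 := h.p_lt_one
  have hq1 := h.q_lt_one
  have a1 : (1 - q) ^ (25 * (pr p q).D ^ 2) ≤ 1 := pow_le_one₀ (by linarith) (by linarith)
  have a1' : 0 ≤ (1 - q) ^ (25 * (pr p q).D ^ 2) := pow_nonneg (by linarith) _
  have a3 : ∏ r ∈ Finset.Ico 1 (pr p q).w, (1 - (1 - p) ^ r) ^ 2 ≤ 1 := by
    apply Finset.prod_le_one
    · intro r _
      positivity
    · intro r _
      have h1 : 0 ≤ (1 - p) ^ r := pow_nonneg (by linarith) _
      have h2 : (1 - p) ^ r ≤ 1 := pow_le_one₀ (by linarith) (by linarith)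
      exact pow_le_one₀ (by linarith) (by linarith)
  have a3' : 0 ≤ ∏ r ∈ Finset.Ico 1 (pr p q).w, (1 - (1 - p) ^ r) ^ 2 :=
    Finset.prod_nonneg fun r _ => by positivity
  have a4 : 1 - 4 * ((pr p q).s : ℝ) ^ 2 * deltaD (pr p q).w (pr p q).d (pr p q).mw (2 * q) (1 - p / 2)
      ≤ 1 := by
    have := h.deltaD_nonneg
    have h2 : 0 ≤ 4 * ((pr p q).s : ℝ) ^ 2 *
      deltaD (pr p q).w (pr p q).d (pr p q).mw (2 * q) (1 - p / 2) := by positivity
    linarith
  unfold nuc1Low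
  have b1 : (1 - q) ^ (25 * (pr p q).D ^ 2) * p ≤ 1 := mul_le_one₀ a1 hp.le hp1.le
  have b2 : (1 - q) ^ (25 * (pr p q).D ^ 2) * p *
      (∏ r ∈ Finset.Ico 1 (pr p q).w, (1 - (1 - p) ^ r) ^ 2) ≤ 1 := mul_le_one₀ b1 a3' a3
  have b3 : 0 ≤ (1 - q) ^ (25 * (pr p q).D ^ 2) * p *
      (∏ r ∈ Finset.Ico 1 (pr p q).w, (1 - (1 - p) ^ r) ^ 2) := by positivity
  calc _ ≤ (1 - q) ^ (25 * (pr p q).D ^ 2) * p *
      (∏ r ∈ Finset.Ico 1 (pr p q).w, (1 - (1 - p) ^ r) ^ 2) * 1 :=
        mul_le_mul_of_nonneg_left a4 b3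
    _ ≤ 1 := by rw [mul_one]; exact b2

theorem one_sub_pow_le {x : ℝ} (hx : x ≤ 1) (n : ℕ) : (1 - x) ^ n ≤ Real.exp (-(n * x)) := by
  calc (1 - x) ^ n ≤ Real.exp (-x) ^ n :=
        pow_le_pow_left₀ (by linarith) (Real.one_sub_le_exp_neg x) _
    _ = Real.exp (-(n * x)) := by
        rw [← Real.exp_nat_mul]
        congr 1
        ring

theorem n_lb (h : PSmall p q) (he : 2 * (pr p q).s + 5 ≤ (pr p q).e) :
    Real.exp (10 * (1 / p + Real.log (1 / q))) / 2 ≤ (prn p q : ℕ) := by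
  have hf := h.f_lb
  have hf4 := h.f_four
  obtain ⟨f, hf'⟩ : ∃ f, f = (pr p q).f := ⟨_, rfl⟩
  obtain ⟨e, he'⟩ : ∃ e, e = (pr p q).e := ⟨_, rfl⟩
  obtain ⟨y, hy⟩ : ∃ y, y = 2 * (pr p q).s + 5 := ⟨_, rfl⟩
  have hn : prn p q = f * e / y - 1 := by rw [hf', he', hy]; rfl
  rw [← hf'] at hf hf4
  rw [← he', ← hy] at he
  have hy5 : 0 < y := by omega
  have h1 : f ≤ f * e / y := by
    rw [Nat.le_div_iff_mul_le hy5]
    exact Nat.mul_le_mul_left f he
  have h2 : f ≤ prn p q + 1 := by rw [hn]; omega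
  have h3 : (f : ℝ) ≤ (prn p q : ℕ) + 1 := by exact_mod_cast h2
  have h4 : 2 ≤ Real.exp (10 * (1 / p + Real.log (1 / q))) := by
    have h5 := Real.add_one_le_exp (10 * (1 / p + Real.log (1 / q)))
    have h6 := h.Th_big
    have h7 : (1 : ℝ) ≤ 10 ^ 100 := by norm_num
    linarith
  linarith

theorem g_ub (h : PSmall p q) (hT : PT p q) : ((pr p q).g : ℝ) ≤ Real.exp (1 / q) := by
  have h1 := h.sD_le hT
  have h2 := h.exp_Th 1 (by norm_num)
  rw [one_mul] at h2
  rw [g_eq]
  have h3 : (0 : ℝ) ≤ (pr p q).s * (pr p q).D := by positivity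
  nlinarith

theorem fail4 (h : PSmall p q) (hT : PT p q) (he : 2 * (pr p q).s + 5 ≤ (pr p q).e) :
    (2 * ((3 * ((prM q : ℕ) : ℝ) + 20) * (pr p q).g) + 2) ^ 2 *
      (1 - nuc1Low (pr p q) p q) ^ ((prn p q) ^ 2) ≤ q ^ (1 / 10 : ℝ) := by
  refine le_trans ?_ h.exp_neg_q
  have hq := h.hq
  have hp := h.hp
  have hM := h.M_ub
  have hg := h.g_ub hT
  have hE1 : 1 ≤ Real.exp (20000 / q) := Real.one_le_exp (by positivity)
  have hE2 : 1 ≤ Real.exp (20001 / q) := Real.one_le_exp (by positivity)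
  have n1 : (2 * ((3 * ((prM q : ℕ) : ℝ) + 20) * (pr p q).g) + 2) ^ 2 ≤ Real.exp (40003 / q) := by
    have h1 : (3 * ((prM q : ℕ) : ℝ) + 20) * (pr p q).g ≤ 26 * Real.exp (20001 / q) := by
      calc (3 * ((prM q : ℕ) : ℝ) + 20) * (pr p q).g
          ≤ (26 * Real.exp (20000 / q)) * Real.exp (1 / q) := by
            apply mul_le_mul _ hg (by positivity) (by positivity)
            linarith
        _ = 26 * Real.exp (20001 / q) := by
            rw [mul_assoc, expq_mul]
            norm_num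
    calc (2 * ((3 * ((prM q : ℕ) : ℝ) + 20) * (pr p q).g) + 2) ^ 2 ≤ (54 * Real.exp (20001 / q)) ^ 2 := by
          apply pow_le_pow_left₀ (by positivity)
          linarith
      _ = 2916 * Real.exp (40002 / q) := by
          rw [mul_pow, ← Real.exp_nat_mul]
          norm_num
          ring_nf
      _ ≤ Real.exp (1 / q) * Real.exp (40002 / q) := by
          have := h.const_q 2916 (by norm_num)
          gcongr
      _ = Real.exp (40003 / q) := by
          rw [expq_mul]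
          norm_num
  have hx1 := h.nuc1Low_le
  have hx0 := h.nuc1Low_ge hT
  have hn := h.n_lb he
  have n2 : (1 - nuc1Low (pr p q) p q) ^ ((prn p q) ^ 2) ≤ Real.exp (-(10 ^ 6 / q)) := by
    refine (one_sub_pow_le hx1 _).trans ?_
    apply Real.exp_le_exp.mpr
    have h1 : Real.exp (20 * (1 / p + Real.log (1 / q))) / 4 ≤ ((prn p q ^ 2 : ℕ) : ℝ) := by
      push_cast
      calc Real.exp (20 * (1 / p + Real.log (1 / q))) / 4
          = (Real.exp (10 * (1 / p + Real.log (1 / q))) / 2) ^ 2 := by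
            rw [div_pow, ← Real.exp_nat_mul]
            congr 2
            · push_cast
              ring
            · norm_num
        _ ≤ _ := by gcongr
    have h2 : Real.exp (20 * (1 / p + Real.log (1 / q))) / 4 * Real.exp (-(15 / p)) ≤
        ((prn p q ^ 2 : ℕ) : ℝ) * nuc1Low (pr p q) p q := by
      apply mul_le_mul h1 hx0 (Real.exp_pos _).le (by positivity)
    have h3 : 10 ^ 6 / q ≤ Real.exp (20 * (1 / p + Real.log (1 / q))) / 4 * Real.exp (-(15 / p)) := by
      have h4 : Real.exp (20 * (1 / p + Real.log (1 / q))) / 4 * Real.exp (-(15 / p)) =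
          Real.exp (20 * (1 / p + Real.log (1 / q)) + -(15 / p)) / 4 := by
        rw [Real.exp_add]
        ring
      have h5 : Real.exp (2 * Real.log (1 / q)) ≤ Real.exp (20 * (1 / p + Real.log (1 / q)) + -(15 / p)) := by
        apply Real.exp_le_exp.mpr
        have h6 : 15 / p = 15 * (1 / p) := by ring
        have h7 : 0 < 1 / p := by positivity
        have h8 := h.L_pos
        rw [h6]
        linarith
      have h6 : Real.exp (2 * Real.log (1 / q)) = (1 / q) * (1 / q) := by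
        rw [two_mul, Real.exp_add, Real.exp_log (by positivity)]
      rw [h4]
      rw [h6] at h5
      have h7 := h.inv_q
      have h8 : (4 * 10 ^ 6 : ℝ) ≤ 10 ^ 100 := by norm_num
      have h9 : 10 ^ 6 / q = 10 ^ 6 * (1 / q) := by ring
      have h10 : 0 < 1 / q := by positivity
      rw [h9]
      nlinarith
    linarith
  have h0 : 0 ≤ (1 - nuc1Low (pr p q) p q) ^ ((prn p q) ^ 2) := pow_nonneg (by linarith) _
  calc _ ≤ Real.exp (40003 / q) * Real.exp (-(10 ^ 6 / q)) := by gcongr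
    _ = Real.exp (40003 / q + -(10 ^ 6 / q)) := by rw [Real.exp_add]
    _ ≤ Real.exp (-(1 / q)) := by
        apply Real.exp_le_exp.mpr
        have h3 : 40003 / q = 40003 * (1 / q) := by ring
        have h5 : 10 ^ 6 / q = 10 ^ 6 * (1 / q) := by ring
        have h6 : 0 < 1 / q := by positivity
        rw [h3, h5]
        linarith

theorem prod_a3 (h : PSmall p q) (a b : ℕ) :
    (∏ r ∈ Finset.Icc a b, ((r : ℝ) / 20 * q * (1 - q) ^ (2 * r)) ^ 4) ≤ 1 := by
  have hq := h.hq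
  have hq1 := h.q_lt_one
  have h0 : 0 ≤ 1 - q := by linarith
  apply Finset.prod_le_one
  · intro r _
    positivity
  · intro r _
    apply pow_le_one₀ (by positivity)
    have h1 : (1 - q) ^ (2 * r) ≤ Real.exp (-(((2 * r : ℕ) : ℝ) * q)) := one_sub_pow_le hq1.le _
    have h2 := Real.add_one_le_exp (((2 * r : ℕ) : ℝ) * q)
    have h3 : (r : ℝ) / 20 * q ≤ Real.exp (((2 * r : ℕ) : ℝ) * q) := by
      push_cast at h2 ⊢
      have h4 : 0 ≤ (r : ℝ) * q := by positivity
      nlinarith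
    calc (r : ℝ) / 20 * q * (1 - q) ^ (2 * r)
        ≤ Real.exp (((2 * r : ℕ) : ℝ) * q) * Real.exp (-(((2 * r : ℕ) : ℝ) * q)) := by gcongr
      _ = 1 := by rw [← Real.exp_add, add_neg_cancel, Real.exp_zero]

theorem prod_b3 (h : PSmall p q) (a b : ℕ) :
    0 ≤ (∏ r ∈ Finset.Icc a b, ((r : ℝ) / 20 * q * (1 - q) ^ (2 * r)) ^ 4) := by
  have hq := h.hq
  exact Finset.prod_nonneg fun r _ => by positivity

theorem prod_a6 (h : PSmall p q) (a b : ℕ) :
    (∏ r ∈ Finset.Icc a b, (1 - (1 - q) ^ (2 * r - 1)) ^ 4) ≤ 1 := by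
  have hq := h.hq
  have hq1 := h.q_lt_one
  apply Finset.prod_le_one
  · intro r _
    positivity
  · intro r _
    have h1 : 0 ≤ (1 - q) ^ (2 * r - 1) := pow_nonneg (by linarith) _
    have h2 : (1 - q) ^ (2 * r - 1) ≤ 1 := pow_le_one₀ (by linarith) (by linarith)
    exact pow_le_one₀ (by linarith) (by linarith)

theorem prod_b6 (h : PSmall p q) (a b : ℕ) :
    0 ≤ (∏ r ∈ Finset.Icc a b, (1 - (1 - q) ^ (2 * r - 1)) ^ 4) :=
  Finset.prod_nonneg fun r _ => by positivity

theorem nucLow_le (h : PSmall p q) : nucLow (pr p q) p q ≤ 1 := by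
  have hp := h.hp
  have hq := h.hq
  have hp1 := h.p_lt_one
  have hq1 := h.q_lt_one
  have a1 : q ^ ((2 * (pr p q).j0 + 1) ^ 2) ≤ 1 := pow_le_one₀ hq.le hq1.le
  have a2 : p ^ ((8 * (pr p q).j0 + 1) ^ 2) ≤ 1 := pow_le_one₀ hp.le hp1.le
  have a3 := h.prod_a3 ((pr p q).j0 + 1) (2 * (pr p q).Rh)
  have a4 : (1 - q) ^ (8 * (pr p q).Rh) ≤ 1 := pow_le_one₀ (by linarith) (by linarith)
  have a5 : (1 / 2 : ℝ) ^ (64 * ((pr p q).r2 + 1) ^ 2 / (pr p q).g1 + 64 * (pr p q).r2) ≤ 1 :=
    pow_le_one₀ (by norm_num) (by norm_num)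
  have a6 := h.prod_a6 (2 * (pr p q).Rh + 1) (pr p q).W
  have b3 := h.prod_b3 ((pr p q).j0 + 1) (2 * (pr p q).Rh)
  have b4 : 0 ≤ (1 - q) ^ (8 * (pr p q).Rh) := pow_nonneg (by linarith) _
  have b6 := h.prod_b6 (2 * (pr p q).Rh + 1) (pr p q).W
  unfold nucLow
  have c2 := mul_le_one₀ a1 (pow_nonneg hp.le ((8 * (pr p q).j0 + 1) ^ 2)) a2
  have c3 := mul_le_one₀ c2 b3 a3
  have c4 := mul_le_one₀ c3 b4 a4
  have c5 := mul_le_one₀ c4 (by positivity) a5
  have c6 := mul_le_one₀ c5 b6 a6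
  exact mul_le_one₀ c6 (by norm_num) (by norm_num)

theorem K_lb (h : PSmall p q) (hT : PT p q) : Real.exp (19990 / q) ≤ (prK p q : ℕ) := by
  have hq := h.hq
  have hM := prM_lb q
  have hmT := h.prmT_ub
  obtain ⟨den, hden⟩ : ∃ den, den = 4000 * (pr p q).s * (pr p q).D + 2 * prmT p q + 10 := ⟨_, rfl⟩
  obtain ⟨M, hM'⟩ : ∃ M, M = prM q := ⟨_, rfl⟩
  have hK : prK p q = M / den := by rw [hM', hden]; rfl
  have hd0 : 0 < den := by omega
  have hdr : (den : ℝ) ≤ 3 / q := by
    have h1 := hT.qsD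
    rw [e12] at h1
    have h2 : ((pr p q).s : ℝ) * (pr p q).D ≤ (1 / 10 ^ 12) / q := by
      rw [le_div_iff₀ hq]
      linarith
    have h3 : (1 / 10 ^ 12 : ℝ) / q = 1 / 10 ^ 12 * (1 / q) := by ring
    have h4 : 3 / q = 3 * (1 / q) := by ring
    have h5 : 0 < 1 / q := by positivity
    have h6 := h.inv_q
    rw [hden, h4]
    rw [h3] at h2
    push_cast
    nlinarith
  have h1 : M < (M / den + 1) * den := by
    rw [mul_comm]
    exact Nat.lt_mul_div_succ M hd0
  have h2 : (M : ℝ) ≤ (((M / den : ℕ) : ℝ) + 1) * den := by exact_mod_cast h1.le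
  rw [← hM'] at hM
  rw [hK]
  have h3 : Real.exp (20000 / q) ≤ (((M / den : ℕ) : ℝ) + 1) * (3 / q) := by
    refine hM.trans (h2.trans ?_)
    gcongr
  have h4 : Real.exp (20000 / q) = Real.exp (19990 / q) * Real.exp (10 / q) := by
    rw [expq_mul]
    norm_num
  have h5 : 6 / q ≤ Real.exp (10 / q) := by
    have := Real.add_one_le_exp (10 / q)
    have h6 : 6 / q ≤ 10 / q := by
      gcongr
      norm_num
    linarith
  have hE1 : 1 ≤ Real.exp (19990 / q) := Real.one_le_exp (by positivity)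
  have h6 : Real.exp (19990 / q) * (6 / q) ≤ (((M / den : ℕ) : ℝ) + 1) * (3 / q) := by
    refine le_trans ?_ h3
    rw [h4]
    gcongr
  have h7 : 2 * Real.exp (19990 / q) ≤ ((M / den : ℕ) : ℝ) + 1 := by
    have h8 : 0 < 3 / q := by positivity
    have h9 : 6 / q = 2 * (3 / q) := by ring
    rw [h9] at h6
    by_contra hcon
    push Not at hcon
    have := mul_lt_mul_of_pos_right hcon h8
    linarith
  linarith

theorem fail5 (h : PSmall p q) (hT : PT p q) :
    (1 - nucLow (pr p q) p q / 2) ^ ((prK p q) ^ 2) ≤ q ^ (1 / 10 : ℝ) := by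
  refine le_trans ?_ h.exp_neg_q
  have hq := h.hq
  have h1 := h.nucLow_le
  have h2 := h.nucLow_ge
  have h3 := h.K_lb hT
  refine (one_sub_pow_le (by linarith) _).trans ?_
  apply Real.exp_le_exp.mpr
  have h4 : Real.exp (39980 / q) ≤ ((prK p q ^ 2 : ℕ) : ℝ) := by
    push_cast
    calc Real.exp (39980 / q) = Real.exp (19990 / q) ^ 2 := by
          rw [← Real.exp_nat_mul]
          congr 1
          push_cast
          ring
      _ ≤ _ := by gcongr
  have h5 : Real.exp (39980 / q) * (Real.exp (-(19000 / q)) / 2) ≤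
      ((prK p q ^ 2 : ℕ) : ℝ) * (nucLow (pr p q) p q / 2) := by
    apply mul_le_mul h4 (by linarith) (by positivity) (by positivity)
  have h6 : 1 / q ≤ Real.exp (39980 / q) * (Real.exp (-(19000 / q)) / 2) := by
    have h7 : Real.exp (39980 / q) * (Real.exp (-(19000 / q)) / 2) = Real.exp (20980 / q) / 2 := by
      rw [← mul_div_assoc, ← Real.exp_add]
      congr 2
      ring
    have h8 := Real.add_one_le_exp (20980 / q)
    have h9 : 20980 / q = 20980 * (1 / q) := by ring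
    have h10 : 0 < 1 / q := by positivity
    rw [h7]
    rw [h9] at h8 ⊢
    linarith
  linarith

theorem time_bound (h : PSmall p q) (hT : PT p q) :
    (((pr p q).T' + (5 * (2 * prM q + 10) * (pr p q).T) ^ 2 : ℕ) : ℝ) < Real.exp (50000 / q) := by
  have hq := h.hq
  have hM := h.M_ub
  have hTu := hT.Tub
  have hTq : ((pr p q).T : ℝ) ≤ Real.exp (1 / q) := hTu.trans (h.exp_Th 20 (by norm_num))
  have hT0 : (0 : ℝ) ≤ (pr p q).T := by positivity
  have hE1 : 1 ≤ Real.exp (20000 / q) := Real.one_le_exp (by positivity)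
  have h1 : ((pr p q).T' : ℝ) ≤ Real.exp (2 / q) := by
    have h2 : ((pr p q).T' : ℝ) = 1000 * (pr p q).s * (pr p q).D * (pr p q).T := by
      unfold Par.T'
      push_cast
      ring
    have h3' := h.exp_Th 1 (by norm_num)
    rw [one_mul] at h3'
    have h3 := (h.sD_le hT).trans h3'
    rw [h2]
    calc 1000 * ((pr p q).s : ℝ) * (pr p q).D * (pr p q).T ≤ Real.exp (1 / q) * Real.exp (1 / q) := by
          gcongr
      _ = Real.exp (2 / q) := by
          rw [expq_mul]
          norm_num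
  have h2 : (5 * (2 * ((prM q : ℕ) : ℝ) + 10) * (pr p q).T) ^ 2 ≤ Real.exp (40003 / q) := by
    have h3 : 5 * (2 * ((prM q : ℕ) : ℝ) + 10) * (pr p q).T ≤ 70 * Real.exp (20001 / q) := by
      calc 5 * (2 * ((prM q : ℕ) : ℝ) + 10) * (pr p q).T
          ≤ (70 * Real.exp (20000 / q)) * Real.exp (1 / q) := by
            apply mul_le_mul _ hTq hT0 (by positivity)
            linarith
        _ = 70 * Real.exp (20001 / q) := by
            rw [mul_assoc, expq_mul]
            norm_num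
    calc (5 * (2 * ((prM q : ℕ) : ℝ) + 10) * (pr p q).T) ^ 2 ≤ (70 * Real.exp (20001 / q)) ^ 2 := by
          gcongr
      _ = 4900 * Real.exp (40002 / q) := by
          rw [mul_pow, ← Real.exp_nat_mul]
          norm_num
          ring_nf
      _ ≤ Real.exp (1 / q) * Real.exp (40002 / q) := by
          have := h.const_q 4900 (by norm_num)
          gcongr
      _ = Real.exp (40003 / q) := by
          rw [expq_mul]
          norm_num
  push_cast
  have h3 : Real.exp (2 / q) ≤ Real.exp (40003 / q) := by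
    apply Real.exp_le_exp.mpr
    gcongr
    norm_num
  have h4 : 2 ≤ Real.exp (1 / q) := h.const_q 2 (by norm_num)
  have h5 : 2 * Real.exp (40003 / q) ≤ Real.exp (40004 / q) := by
    calc 2 * Real.exp (40003 / q) ≤ Real.exp (1 / q) * Real.exp (40003 / q) := by gcongr
      _ = Real.exp (40004 / q) := by
          rw [expq_mul]
          norm_num
  have h6 : Real.exp (40004 / q) < Real.exp (50000 / q) := by
    apply Real.exp_lt_exp.mpr
    gcongr
    norm_num
  linarith

end PSmall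

theorem pr_fail (ε : ℝ) (hε : 0 < ε) : ∃ η > 0, ∀ p q : ℝ, Small p q η →
    failSum (pr p q) (prmT p q) (prM q) (prn p q) (prK p q) p q ≤ ε := by
  obtain ⟨η, hη, H⟩ := small_and psmall_all (small_basic (ε / 5) (by positivity) 0)
  refine ⟨η, hη, fun p q hs => ?_⟩
  obtain ⟨⟨h, hT, hO⟩, -, -, -, -, -, h6⟩ := H p q hs
  rw [pow_zero, mul_one] at h6
  have h7 : q ^ (1 / 10 : ℝ) ≤ ε / 5 :=
    (Real.rpow_le_rpow_of_exponent_ge h.hq h.q_lt_one.le (by norm_num)).trans h6
  have he : 2 * (pr p q).s + 5 ≤ (pr p q).e := by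
    have := hO.he
    omega
  have f1 := h.fail1 hT
  have f2 := h.fail2 hT (2 * prM q)
  have f3 := h.fail3 hT (3 * (pr p q).g * (pr p q).f)
  have f4 := h.fail4 hT he
  have f5 := h.fail5 hT
  unfold failSum
  linarith

theorem pr_time : ∃ η > 0, ∀ p q : ℝ, Small p q η →
    (((pr p q).T' + (5 * (2 * prM q + 10) * (pr p q).T) ^ 2 : ℕ) : ℝ) < Real.exp (50000 / q) := by
  obtain ⟨η, hη, H⟩ := psmall_T
  exact ⟨η, hη, fun p q hs => (H p q hs).1.time_bound (H p q hs).2⟩

end TSB
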