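import Pool.Agent.TSB.Defs
import Pool.Agent.TSB.Mu
import Pool.Agent.TSB.Event
import Pool.Agent.TSB.Param2
import Pool.Agent.TSB.Param7
import Pool.Agent.TSB.Param8
open MeasureTheory Filter
open scoped Classical Topology

namespace TSB

/-! ## Module MAIN -/

theorem main : ∃ C₀ : ℝ, 0 < C₀ ∧ ∀ C : ℝ, C₀ ≤ C → ∀ q : ℝ → ℝ,
    (∀ᶠ p in 𝓝[>] (0 : ℝ), 0 < q p) →
    Tendsto (fun p => q p * (Real.log (1 / p)) ^ 2 / p ^ 2) (𝓝[>] 0) (𝓝 0) →
    Tendsto (fun p => (law p (q p)).real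
      {ω | ∃ n : ℕ, (n : ℝ) < Real.exp (C / q p) ∧ T2 ω ≤ n}) (𝓝[>] 0) (𝓝 1) := by
  refine ⟨50000, by norm_num, ?_⟩
  intro C hC q hq hlim
  rw [Metric.tendsto_nhds]
  intro ε hε
  obtain ⟨η1, h1, H1⟩ := pr_ok
  obtain ⟨η2, h2, H2⟩ := pr_probOk
  obtain ⟨η3, h3, H3⟩ := pr_fail (ε / 2) (by positivity)
  obtain ⟨η4, h4, H4⟩ := pr_time
  set η := min (min η1 η2) (min η3 η4) with hη
  have hηpos : 0 < η := by positivity
  have hsmall : ∀ᶠ p in 𝓝[>] (0 : ℝ), Small p (q p) η := by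
    have e1 : ∀ᶠ p in 𝓝[>] (0 : ℝ), 0 < p := eventually_mem_nhdsWithin
    have e2 : ∀ᶠ p in 𝓝[>] (0 : ℝ), p ≤ η :=
      (eventually_le_nhds hηpos).filter_mono nhdsWithin_le_nhds
    have e3 : ∀ᶠ p in 𝓝[>] (0 : ℝ), q p * (Real.log (1 / p)) ^ 2 / p ^ 2 < η :=
      hlim.eventually_lt_const hηpos
    filter_upwards [e1, e2, e3, hq] with p a1 a2 a3 a4
    refine ⟨a1, a2, a4, ?_⟩
    rw [div_lt_iff₀ (by positivity)] at a3
    exact a3.le
  have mono : ∀ p q η', Small p q η → η ≤ η' → Small p q η' := by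
    rintro p q η' ⟨a, b, c, d⟩ h
    exact ⟨a, b.trans h, c, d.trans (by gcongr)⟩
  filter_upwards [hsmall] with p hp
  have g1 := mono p (q p) η1 hp ((min_le_left _ _).trans (min_le_left _ _))
  have g2 := mono p (q p) η2 hp ((min_le_left _ _).trans (min_le_right _ _))
  have g3 := mono p (q p) η3 hp ((min_le_right _ _).trans (min_le_left _ _))
  have g4 := mono p (q p) η4 hp ((min_le_right _ _).trans (min_le_right _ _))
  have hPO := H2 p (q p) g2
  have key := event_bound _ (H1 p (q p) g1) _ _ _ _ _ _ _ hPO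
  have hfail := H3 p (q p) g3
  have htime := H4 p (q p) g4
  have hprob : IsProbabilityMeasure (law p (q p)) := by
    refine law_isProb hPO.hp.le hPO.hq.le ?_
    have h1 := hPO.hp'
    have h2 := hPO.hqp
    have h3 := hPO.hp
    nlinarith
  have hle : (law p (q p)).real
      {ω | xi ω ((pr p (q p)).T' + (5 * (2 * prM (q p) + 10) * (pr p (q p)).T) ^ 2) (0, 0) = 2}
      ≤ (law p (q p)).real {ω | ∃ n : ℕ, (n : ℝ) < Real.exp (C / q p) ∧ T2 ω ≤ n} := by
    apply measureReal_mono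
    · intro ω hω
      refine ⟨_, lt_of_lt_of_le htime ?_, ?_⟩
      · apply Real.exp_le_exp.mpr
        have : 0 < q p := hPO.hq
        gcongr
      · exact biInf_le (fun t : ℕ => (t : ℕ∞)) hω
    · exact measure_ne_top _ _
  have hle1 : (law p (q p)).real {ω | ∃ n : ℕ, (n : ℝ) < Real.exp (C / q p) ∧ T2 ω ≤ n} ≤ 1 :=
    measureReal_le_one
  rw [Real.dist_eq, abs_lt]
  constructor <;> linarith

end TSB
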