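import Pool.Agent.TSB.Mu

/-! Module NUCDEC: the controlled nucleus is an intersection of independent events. -/

open MeasureTheory
open scoped Classical

namespace TSB

theorem nd_lay_sd (i : Fin 4) {r y : ℤ} (h : |y| ≤ r) : lay (sd i r y) = r := by
  rw [abs_le] at h
  fin_cases i <;> simp only [lay, sd] <;> rw [max_def] <;> split_ifs <;> grind

theorem nd_lay_corner (i : Fin 4) {r : ℤ} (h : 0 ≤ r) : lay (corner i r) = r := by
  fin_cases i <;> simp [lay, corner, abs_of_nonneg h]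

theorem nd_layer_cases {x : Site} {r : ℤ} (_hr : 0 < r) (h : lay x = r) :
    (∃ i, x = corner i r) ∨ ∃ i y, |y| < r ∧ x = sd i r y := by
  obtain ⟨a, b⟩ := x
  simp only [lay] at h
  rcases lt_trichotomy |a| |b| with hab | hab | hab
  · rw [max_eq_right hab.le] at h
    rw [h] at hab
    right
    rcases abs_choice b with hb | hb
    · exact ⟨2, a, hab, by simp [sd]; omega⟩
    · exact ⟨3, a, hab, by simp [sd]; omega⟩
  · rw [hab, max_self] at h
    rw [h] at hab
    left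
    rcases abs_choice a with ha | ha <;> rcases abs_choice b with hb | hb
    · exact ⟨0, by simp [corner]; omega⟩
    · exact ⟨2, by simp [corner]; omega⟩
    · exact ⟨1, by simp [corner]; omega⟩
    · exact ⟨3, by simp [corner]; omega⟩
  · rw [max_eq_left hab.le] at h
    rw [h] at hab
    right
    rcases abs_choice a with hb | hb
    · exact ⟨0, b, hab, by simp [sd]; omega⟩
    · exact ⟨1, b, hab, by simp [sd]; omega⟩

theorem nd_sd_inj {i i' : Fin 4} {r y y' : ℤ} (h : |y| < r) (h' : |y'| < r)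
    (he : sd i r y = sd i' r y') : i = i' ∧ y = y' := by
  rw [abs_lt] at h h'
  fin_cases i <;> fin_cases i' <;> simp [sd, Prod.ext_iff] at he ⊢ <;> omega

theorem nd_sd_ne_corner (i i' : Fin 4) {r y : ℤ} (h : |y| < r) : sd i r y ≠ corner i' r := by
  intro he
  rw [abs_lt] at h
  fin_cases i <;> fin_cases i' <;> simp [sd, corner, Prod.ext_iff] at he <;> omega

theorem nd_corner_inj {i i' : Fin 4} {r : ℤ} (h : 0 < r) (he : corner i r = corner i' r) :
    i = i' := by
  fin_cases i <;> fin_cases i' <;> simp [corner, Prod.ext_iff] at he ⊢ <;> omega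

theorem nd_zone_lt {r : ℕ} (hr : 0 < r) {y : ℤ} (h : zoneOK r y) : |y| < r := by
  obtain ⟨h1, h2⟩ := h
  have h3 : r % 4 < 4 := Nat.mod_lt _ (by norm_num)
  have hr' : (0 : ℤ) < r := by exact_mod_cast hr
  rw [abs_lt]
  generalize r % 4 = k at *
  interval_cases k <;> push_cast at h1 h2 <;> constructor <;> omega

theorem nd_mem_idx {P : Par} {c : Option (ℕ × Fin 4 × Bool)} :
    c ∈ cidx P ↔ c = none ∨ ∃ r i b, c = some (r, i, b) ∧ P.j0 < r ∧ r ≤ P.W := by
  unfold cidx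
  rw [Finset.mem_insertNone]
  rcases c with _ | ⟨r, i, b⟩
  · simp
  · simp

theorem nd_lay_cell {P : Par} {c : Option (ℕ × Fin 4 × Bool)} {x : Site} (hx : x ∈ cell P c) :
    (c = none ∧ lay x ≤ P.j0) ∨ ∃ r i b, c = some (r, i, b) ∧ lay x = r := by
  rcases c with _ | ⟨r, i, b⟩
  · left
    refine ⟨rfl, ?_⟩
    simp only [cell, Finset.mem_Icc] at hx
    obtain ⟨⟨h1, h2⟩, ⟨h3, h4⟩⟩ := hx
    simp only at h1 h2 h3 h4
    exact max_le (abs_le.2 ⟨h1, h3⟩) (abs_le.2 ⟨h2, h4⟩)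
  · right
    refine ⟨r, i, b, rfl, ?_⟩
    cases b
    · simp only [cell, Finset.mem_image, Finset.mem_Ioo] at hx
      obtain ⟨y, hy, rfl⟩ := hx
      exact nd_lay_sd i (abs_le.2 ⟨hy.1.le, hy.2.le⟩)
    · simp only [cell, Finset.mem_singleton] at hx
      rw [hx]
      exact nd_lay_corner i (by positivity)

theorem cell_disjoint (P : Par) (hP : P.Ok) : ∀ c ∈ cidx P, ∀ c' ∈ cidx P, c ≠ c' →
    Disjoint (cell P c) (cell P c') := by
  intro c hc c' hc' hne
  rw [Finset.disjoint_left]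
  intro x hx hx'
  have h1 := nd_lay_cell hx
  have h2 := nd_lay_cell hx'
  rw [nd_mem_idx] at hc hc'
  rcases h1 with ⟨rfl, h1⟩ | ⟨r, i, b, rfl, h1⟩ <;> rcases h2 with ⟨rfl, h2⟩ | ⟨r', i', b', rfl, h2⟩
  · exact hne rfl
  · simp only [reduceCtorEq, Option.some.injEq, Prod.mk.injEq, false_or] at hc'
    obtain ⟨_, _, _, ⟨rfl, rfl, rfl⟩, h3, _⟩ := hc'
    omega
  · simp only [reduceCtorEq, Option.some.injEq, Prod.mk.injEq, false_or] at hc
    obtain ⟨_, _, _, ⟨rfl, rfl, rfl⟩, h3, _⟩ := hc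
    omega
  · simp only [reduceCtorEq, Option.some.injEq, Prod.mk.injEq, false_or] at hc
    obtain ⟨_, _, _, ⟨rfl, rfl, rfl⟩, h3, _⟩ := hc
    have hrr : r = r' := by omega
    subst hrr
    cases b <;> cases b' <;> simp only [cell, Finset.mem_image, Finset.mem_Ioo,
      Finset.mem_singleton] at hx hx'
    · obtain ⟨y, hy, rfl⟩ := hx
      obtain ⟨y', hy', he⟩ := hx'
      have := nd_sd_inj (abs_lt.2 hy') (abs_lt.2 hy) he
      exact hne (by rw [this.1])
    · obtain ⟨y, hy, rfl⟩ := hx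
      exact nd_sd_ne_corner _ _ (abs_lt.2 hy) hx'
    · obtain ⟨y, hy, rfl⟩ := hx'
      exact nd_sd_ne_corner _ _ (abs_lt.2 hy) hx
    · have := nd_corner_inj (by omega) (hx.symm.trans hx')
      exact hne (by rw [this])

theorem nd_mem_side {P : Par} {r : ℕ} {i : Fin 4} {y : ℤ} (h : |y| < r) :
    sd i r y ∈ cell P (some (r, i, false)) := by
  simp only [cell, Finset.mem_image, Finset.mem_Ioo]
  exact ⟨y, abs_lt.1 h, rfl⟩

theorem cev_depOn (P : Par) (hP : P.Ok) : ∀ c ∈ cidx P, DepOn (cev P c) (cell P c) := by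
  intro c hc ω ω' hω
  rw [nd_mem_idx] at hc
  rcases c with _ | ⟨r, i, b⟩
  · simp only [cev, Set.mem_ofPred_eq]
    refine forall₂_congr fun x hx => ?_
    rw [hω x]
    simp only [cell, Finset.mem_Icc]
    have := max_le_iff.1 hx
    rw [abs_le, abs_le] at this
    exact ⟨⟨this.1.1, this.2.1⟩, ⟨this.1.2, this.2.2⟩⟩
  · simp only [reduceCtorEq, Option.some.injEq, Prod.mk.injEq, false_or] at hc
    obtain ⟨_, _, _, ⟨rfl, rfl, rfl⟩, h3, _⟩ := hc
    cases b
    · have hs : ∀ y : ℤ, |y| < r → ω (sd i r y) = ω' (sd i r y) := fun y hy =>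
        hω _ (nd_mem_side hy)
      have hs' : ∀ y : ℤ, -(r : ℤ) < y → y < r → ω (sd i r y) = ω' (sd i r y) := fun y hy hy' =>
        hs y (abs_lt.2 ⟨hy, hy'⟩)
      simp only [cev, sideEv, Set.mem_ofPred_eq]
      have hz : ∀ h : ℤ, zoneOK r h → ω (sd i r h) = ω' (sd i r h) := fun h hh =>
        hs h (nd_zone_lt (by omega) hh)
      have hw : ∀ (g : ℕ) (y : ℤ), -(r : ℤ) < y → y + g ≤ r →
          ((∃ j : ℕ, j < g ∧ ω (sd i r (y + j)) = 1) ↔ ∃ j : ℕ, j < g ∧ ω' (sd i r (y + j)) = 1) := by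
        intro g y h1 h2
        refine exists_congr fun j => and_congr_right fun hj => ?_
        rw [hs' (y + j) (by omega) (by omega)]
      refine and_congr (imp_congr_right fun h4 => exists_congr fun h => and_congr_right fun hh =>
        and_congr ?_ (and_congr ?_ (and_congr ?_ (and_congr ?_ ?_)))) ?_
      · rw [hz h hh]
      · refine forall₃_congr fun y hy _ => ?_
        rw [hs y hy]
      · refine imp_congr_right fun _ => forall₂_congr fun y hy => ?_
        rw [hs y hy]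
      · exact imp_congr_right fun _ => imp_congr_right fun _ => forall₃_congr fun y h1 h2 => hw _ y h1 h2
      · exact imp_congr_right fun _ => forall₃_congr fun y h1 h2 => hw _ y h1 h2
      · refine imp_congr_right fun _ => exists_congr fun y => and_congr_right fun hy => ?_
        rw [hs y hy]
    · simp only [cev, Set.mem_ofPred_eq]
      rw [hω (corner i r) (by simp [cell])]

theorem nev_eq (P : Par) (hP : P.Ok) : Nev P = {ω | ∀ c ∈ cidx P, ω ∈ cev P c} := by
  have hW : 2 * P.Rh ≤ P.W := by have := hP.hW; omega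
  have hj := hP.hj
  have hRj := hP.hRj
  have hRr := hP.hRr
  have hr2 := hP.hr2
  ext ω
  simp only [Nev, Set.mem_ofPred_eq]
  constructor
  · rintro ⟨h, hN⟩ c hc
    rw [nd_mem_idx] at hc
    rcases hc with rfl | ⟨r, i, b, rfl, h1, h2⟩
    · exact hN.core
    cases b
    · refine ⟨fun h3 => ?_, fun h3 => hN.outer r h3 h2 i⟩
      obtain ⟨c1, c2⟩ := hN.ctrl r h1 h3
      refine ⟨h r i, (c1 i).1, (c1 i).2, ?_, ?_, ?_, ?_⟩
      · intro y hy hne h4
        obtain ⟨i', hi'⟩ := c2 _ (nd_lay_sd i hy.le) h4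
        have := nd_sd_inj hy (nd_zone_lt (by omega) (c1 i').1) hi'
        apply hne
        rw [this.2, this.1]
      · intro h4 y hy
        apply hN.ann
        · rw [nd_lay_sd i hy.le]; exact_mod_cast h1
        · rw [nd_lay_sd i hy.le]; exact_mod_cast h4
      · intro h4 h5 y h6 h7
        exact hN.dense1 r h4 h5 i y h6 h7
      · intro h4 y h6 h7
        exact hN.dense2 r h4 h3 i y h6 h7
    · intro h3
      obtain ⟨c1, c2⟩ := hN.ctrl r h1 h3
      refine ⟨fun h4 => ?_, fun h4 => ?_⟩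
      · obtain ⟨i', hi'⟩ := c2 _ (nd_lay_corner i (by positivity)) h4
        exact nd_sd_ne_corner _ _ (nd_zone_lt (by omega) (c1 i').1) hi'.symm
      · apply hN.ann
        · rw [nd_lay_corner i (by positivity)]; exact_mod_cast h1
        · rw [nd_lay_corner i (by positivity)]; exact_mod_cast h4
  · intro hc
    have hcore := hc none (by rw [nd_mem_idx]; exact Or.inl rfl)
    have hside : ∀ r : ℕ, P.j0 < r → r ≤ P.W → ∀ i, ω ∈ cev P (some (r, i, false)) :=
      fun r h1 h2 i => hc _ (by rw [nd_mem_idx]; exact Or.inr ⟨r, i, false, rfl, h1, h2⟩)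
    have hcor : ∀ r : ℕ, P.j0 < r → r ≤ P.W → ∀ i, ω ∈ cev P (some (r, i, true)) :=
      fun r h1 h2 i => hc _ (by rw [nd_mem_idx]; exact Or.inr ⟨r, i, true, rfl, h1, h2⟩)
    have hch : ∀ (r : ℕ) (i : Fin 4), ∃ h : ℤ, P.j0 < r → r ≤ 2 * P.Rh → zoneOK r h ∧
        ω (sd i r h) = 2 ∧
        (∀ y : ℤ, |y| < r → y ≠ h → ω (sd i r y) ≠ 2) ∧
        (r ≤ 4 * P.j0 → ∀ y : ℤ, |y| < r → ω (sd i r y) ≠ 0) ∧
        (4 * P.j0 < r → r ≤ P.r2 → ∀ y : ℤ, -(r : ℤ) < y → y + P.g1 ≤ r →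
          ∃ j : ℕ, j < P.g1 ∧ ω (sd i r (y + j)) = 1) ∧
        (P.r2 < r → ∀ y : ℤ, -(r : ℤ) < y → y + P.w ≤ r →
          ∃ j : ℕ, j < P.w ∧ ω (sd i r (y + j)) = 1) := by
      intro r i
      by_cases h1 : P.j0 < r ∧ r ≤ 2 * P.Rh
      · obtain ⟨h, hh⟩ := (hside r h1.1 (by omega) i).1 h1.2
        exact ⟨h, fun _ _ => hh⟩
      · exact ⟨0, fun h2 h3 => absurd ⟨h2, h3⟩ h1⟩
    choose h hh using hch
    refine ⟨h, hcore, ?_, ?_, ?_, ?_, ?_⟩
    · intro r h1 h2
      refine ⟨fun i => ⟨(hh r i h1 h2).1, (hh r i h1 h2).2.1⟩, ?_⟩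
      intro x hx hx2
      rcases nd_layer_cases (by omega) hx with ⟨i, rfl⟩ | ⟨i, y, hy, rfl⟩
      · exact absurd hx2 (hcor r h1 (by omega) i h2).1
      · refine ⟨i, ?_⟩
        by_contra hne
        refine (hh r i h1 h2).2.2.1 y hy ?_ hx2
        rintro rfl
        exact hne rfl
    · intro x h1 h2
      obtain ⟨r, hr⟩ : ∃ r : ℕ, lay x = r := ⟨(lay x).toNat, by omega⟩
      rw [hr] at h1 h2
      have h1' : P.j0 < r := by exact_mod_cast h1
      have h2' : r ≤ 4 * P.j0 := by exact_mod_cast h2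
      rcases nd_layer_cases (by omega) hr with ⟨i, rfl⟩ | ⟨i, y, hy, rfl⟩
      · exact (hcor r h1' (by omega) i (by omega)).2 h2'
      · exact (hh r i h1' (by omega)).2.2.2.1 h2' y hy
    · intro r h1 h2 i y h3 h4
      exact (hh r i (by omega) (by omega)).2.2.2.2.1 h1 h2 y h3 h4
    · intro r h1 h2 i y h3 h4
      exact (hh r i (by omega) h2).2.2.2.2.2 h1 y h3 h4
    · intro r h1 h2 i
      exact (hside r (by omega) h2 i).2 h1

theorem nev_prod {p q : ℝ} (hp : 0 ≤ p) (hq : 0 ≤ q) (h : p + q ≤ 1) (P : Par) (hP : P.Ok) :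
    (law p q).real (Nev P) = ∏ c ∈ cidx P, (law p q).real (cev P c) := by
  rw [nev_eq P hP]
  exact law_prod hp hq h (cidx P) (cev P) (cell P) (cev_depOn P hP) (cell_disjoint P hP)

/-- the trace of a triple -/
noncomputable def nd_tr (S : Finset Site) (τ : Tri) : Tri := (τ.1 ∩ S, τ.2.1 ∩ S, τ.2.2 ∩ S)

/-- the rest of a triple -/
noncomputable def nd_rest (S : Finset Site) (τ : Tri) : Tri := (τ.1 \ S, τ.2.1 \ S, τ.2.2 \ S)

theorem nd_cyl_dep {S : Finset Site} {τ : Tri} (h1 : τ.1 ⊆ S) (h2 : τ.2.1 ⊆ S) (h3 : τ.2.2 ⊆ S) :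
    DepOn (cyl τ) S := by
  intro ω ω' hω
  simp only [cyl, Set.mem_ofPred_eq]
  refine and_congr (forall₂_congr fun x hx => ?_) (and_congr (forall₂_congr fun x hx => ?_)
    (forall₂_congr fun x hx => ?_))
  · rw [hω x (h1 hx)]
  · rw [hω x (h2 hx)]
  · rw [hω x (h3 hx)]

theorem nd_card {ι : Type*} (I : Finset ι) (R : ι → Finset Site)
    (hR : ∀ i ∈ I, ∀ j ∈ I, i ≠ j → Disjoint (R i) (R j)) (Z : Finset Site) :
    Z.card = ∑ i ∈ I, (Z ∩ R i).card + (Z \ I.biUnion R).card := by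
  rw [← Finset.card_biUnion, ← Finset.inter_biUnion]
  · rw [add_comm, Finset.card_sdiff_add_card_inter]
  · intro i hi j hj hij
    exact (hR i hi j hj hij).mono Finset.inter_subset_right Finset.inter_subset_right

theorem nd_wt {ι : Type*} (a b c : ℝ) (I : Finset ι) (R : ι → Finset Site)
    (hR : ∀ i ∈ I, ∀ j ∈ I, i ≠ j → Disjoint (R i) (R j)) (τ : Tri) :
    wt a b c τ = (∏ i ∈ I, wt a b c (nd_tr (R i) τ)) * wt a b c (nd_rest (I.biUnion R) τ) := by
  simp only [wt, nd_tr, nd_rest]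
  rw [Finset.prod_mul_distrib, Finset.prod_mul_distrib, Finset.prod_pow_eq_pow_sum,
    Finset.prod_pow_eq_pow_sum, Finset.prod_pow_eq_pow_sum]
  rw [nd_card I R hR τ.1, nd_card I R hR τ.2.1, nd_card I R hR τ.2.2, pow_add, pow_add, pow_add]
  ring

theorem nd_cyl_split {ι : Type*} (I : Finset ι) (R : ι → Finset Site) (τ : Tri) (ω : Config) :
    ω ∈ cyl τ ↔ (∀ i ∈ I, ω ∈ cyl (nd_tr (R i) τ)) ∧ ω ∈ cyl (nd_rest (I.biUnion R) τ) := by
  simp only [cyl, nd_tr, nd_rest, Set.mem_ofPred_eq, Finset.mem_inter, Finset.mem_sdiff,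
    Finset.mem_biUnion, not_exists, not_and]
  constructor
  · rintro ⟨h1, h2, h3⟩
    exact ⟨fun i _ => ⟨fun x hx => h1 x hx.1, fun x hx => h2 x hx.1, fun x hx => h3 x hx.1⟩,
      fun x hx => h1 x hx.1, fun x hx => h2 x hx.1, fun x hx => h3 x hx.1⟩
  · rintro ⟨h, h1, h2, h3⟩
    refine ⟨fun x hx => ?_, fun x hx => ?_, fun x hx => ?_⟩
    · by_cases hc : ∃ i ∈ I, x ∈ R i
      · obtain ⟨i, hi, hxi⟩ := hc
        exact (h i hi).1 x ⟨hx, hxi⟩
      · exact h1 x ⟨hx, fun i hi hxi => hc ⟨i, hi, hxi⟩⟩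
    · by_cases hc : ∃ i ∈ I, x ∈ R i
      · obtain ⟨i, hi, hxi⟩ := hc
        exact (h i hi).2.1 x ⟨hx, hxi⟩
      · exact h2 x ⟨hx, fun i hi hxi => hc ⟨i, hi, hxi⟩⟩
    · by_cases hc : ∃ i ∈ I, x ∈ R i
      · obtain ⟨i, hi, hxi⟩ := hc
        exact (h i hi).2.2 x ⟨hx, hxi⟩
      · exact h3 x ⟨hx, fun i hi hxi => hc ⟨i, hi, hxi⟩⟩

theorem nd_disj_tr {τ : Tri} (h : Disj3 τ) (S : Finset Site) : Disj3 (nd_tr S τ) :=
  ⟨h.1.mono Finset.inter_subset_left Finset.inter_subset_left,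
    h.2.1.mono Finset.inter_subset_left Finset.inter_subset_left,
    h.2.2.mono Finset.inter_subset_left Finset.inter_subset_left⟩

theorem nd_disj_rest {τ : Tri} (h : Disj3 τ) (S : Finset Site) : Disj3 (nd_rest S τ) :=
  ⟨h.1.mono Finset.sdiff_subset Finset.sdiff_subset,
    h.2.1.mono Finset.sdiff_subset Finset.sdiff_subset,
    h.2.2.mono Finset.sdiff_subset Finset.sdiff_subset⟩

theorem nev_dom {p q : ℝ} (hp : 0 ≤ p) (hq : 0 ≤ q) (h : p + q ≤ 1) (P : Par) (hP : P.Ok)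
    (hN : 0 < (law p q).real (Nev P)) (hdom : ∀ c ∈ cidx P, CellDom P p q c) :
    Dom (ProbabilityTheory.cond (law p q) (Nev P)) (2 * q) (1 - p / 2) (1 - q)
      {x | (P.Rh : ℤ) < lay x} {x | 2 * (P.Rh : ℤ) < lay x} := by
  intro τ hτ h1 h2 h3
  have := law_isProb hp hq h
  have hdep := cev_depOn P hP
  have hdis := cell_disjoint P hP
  have hNd : DepOn (Nev P) ((cidx P).biUnion (cell P)) := by
    rw [nev_eq P hP]
    intro ω ω' hω
    simp only [Set.mem_ofPred_eq]
    exact forall₂_congr fun c hc => hdep c hc ω ω'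
      (fun x hx => hω x (Finset.mem_biUnion.2 ⟨c, hc, hx⟩))
  have hcond : (ProbabilityTheory.cond (law p q) (Nev P)).real (cyl τ) =
      ((law p q).real (Nev P))⁻¹ * (law p q).real (Nev P ∩ cyl τ) := by
    rw [Measure.real, ProbabilityTheory.cond_apply (depOn_measurable hNd), ENNReal.toReal_mul,
      ENNReal.toReal_inv]
    rfl
  rw [hcond, inv_mul_le_iff₀ hN]
  set E : Option (ℕ × Fin 4 × Bool) → Set Config := fun c => cev P c ∩ cyl (nd_tr (cell P c) τ)
    with hE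
  have hEd : ∀ c ∈ cidx P, DepOn (E c) (cell P c) := by
    intro c hc ω ω' hω
    have a1 := hdep c hc ω ω' hω
    have a2 := nd_cyl_dep (S := cell P c) (τ := nd_tr (cell P c) τ) Finset.inter_subset_right
      Finset.inter_subset_right Finset.inter_subset_right ω ω' hω
    simp only [hE, Set.mem_inter_iff]
    rw [a1, a2]
  have hsplit : Nev P ∩ cyl τ = {ω | ∀ c ∈ cidx P, ω ∈ E c} ∩
      cyl (nd_rest ((cidx P).biUnion (cell P)) τ) := by
    ext ω
    rw [Set.mem_inter_iff, nd_cyl_split (cidx P) (cell P) τ, nev_eq P hP]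
    simp only [hE, Set.mem_inter_iff, Set.mem_ofPred_eq]
    constructor
    · rintro ⟨g1, g2, g3⟩
      exact ⟨fun c hc => ⟨g1 c hc, g2 c hc⟩, g3⟩
    · rintro ⟨g1, g2⟩
      exact ⟨fun c hc => (g1 c hc).1, fun c hc => (g1 c hc).2, g2⟩
  set S := (cidx P).biUnion (cell P) with hS
  have hE1 : DepOn {ω | ∀ c ∈ cidx P, ω ∈ E c} S := by
    intro ω ω' hω
    simp only [Set.mem_ofPred_eq]
    exact forall₂_congr fun c hc => hEd c hc ω ω'
      (fun x hx => hω x (Finset.mem_biUnion.2 ⟨c, hc, hx⟩))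
  have hE2 : DepOn (cyl (nd_rest S τ)) ((τ.1 ∪ (τ.2.1 ∪ τ.2.2)) \ S) := by
    apply nd_cyl_dep
    · exact Finset.sdiff_subset_sdiff Finset.subset_union_left (Finset.Subset.refl _)
    · exact Finset.sdiff_subset_sdiff
        (Finset.subset_union_left.trans Finset.subset_union_right) (Finset.Subset.refl _)
    · exact Finset.sdiff_subset_sdiff
        (Finset.subset_union_right.trans Finset.subset_union_right) (Finset.Subset.refl _)
  rw [hsplit, mu_indep hp hq h hE1 hE2 Finset.disjoint_sdiff,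
    law_prod hp hq h (cidx P) E (cell P) hEd hdis, nev_prod hp hq h P hP,
    nd_wt (2 * q) (1 - p / 2) (1 - q) (cidx P) (cell P) hdis τ, ← mul_assoc,
    ← Finset.prod_mul_distrib]
  have hwt : ∀ σ : Tri, 0 ≤ wt (2 * q) (1 - p / 2) (1 - q) σ := fun σ =>
    mul_nonneg (mul_nonneg (pow_nonneg (by linarith) _) (pow_nonneg (by linarith) _))
      (pow_nonneg (by linarith) _)
  refine mul_le_mul ?_ ?_ measureReal_nonneg ?_
  · refine Finset.prod_le_prod (fun c _ => measureReal_nonneg) (fun c hc => ?_)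
    refine hdom c hc (nd_tr (cell P c) τ) (nd_disj_tr hτ _) Finset.inter_subset_right
      Finset.inter_subset_right Finset.inter_subset_right ?_ ?_
    · intro x hx
      rcases Finset.mem_union.1 hx with hx | hx
      · exact h1 (Finset.mem_inter.1 hx).1
      · exact h2 (Finset.mem_inter.1 hx).1
    · intro x hx
      exact h3 (Finset.mem_inter.1 hx).1
  · exact law_dom hp hq h _ (nd_disj_rest hτ _) (Set.subset_univ _) (Set.subset_univ _)
      (Set.subset_univ _)
  · exact Finset.prod_nonneg fun c _ => mul_nonneg measureReal_nonneg (hwt _)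

end TSB
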