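import Pool.Agent.TSB.Defs

/-! Module PARAM1: elementary consequences of the smallness of `p` and `q`; the sum of the
bounds for `NearBad`. -/

open MeasureTheory Filter
open scoped Classical Topology

namespace TSB

/-- for small `q` powers of the logarithm are small -/
private theorem p1_log_small (ε : ℝ) (hε : 0 < ε) (j : ℕ) : ∃ q0 > 0, ∀ q : ℝ, 0 < q → q ≤ q0 →
    q ^ (1 / 100 : ℝ) * (Real.log (1 / q)) ^ j ≤ ε := by
  have h := isLittleO_log_rpow_rpow_atTop (j : ℝ) (show (0 : ℝ) < 1 / 100 by norm_num)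
  have h2 := (h.def hε).and (eventually_ge_atTop (1 : ℝ))
  obtain ⟨t0, ht0⟩ := eventually_atTop.1 h2
  refine ⟨1 / max t0 1, by positivity, fun q hq hq0 => ?_⟩
  have hm : (0 : ℝ) < max t0 1 := by positivity
  have h3 : max t0 1 ≤ 1 / q := by
    rw [le_div_iff₀ hq]
    rw [le_div_iff₀ hm] at hq0
    linarith
  obtain ⟨h4, h5⟩ := ht0 (1 / q) ((le_max_left _ _).trans h3)
  have hlog : 0 ≤ Real.log (1 / q) := Real.log_nonneg h5
  rw [Real.rpow_natCast, Real.norm_of_nonneg (by positivity),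
    Real.norm_of_nonneg (by positivity)] at h4
  have e1 : q ^ (1 / 100 : ℝ) * (1 / q) ^ (1 / 100 : ℝ) = 1 := by
    rw [← Real.mul_rpow hq.le (by positivity), mul_one_div_cancel hq.ne', Real.one_rpow]
  calc q ^ (1 / 100 : ℝ) * (Real.log (1 / q)) ^ j
      ≤ q ^ (1 / 100 : ℝ) * (ε * (1 / q) ^ (1 / 100 : ℝ)) :=
        mul_le_mul_of_nonneg_left h4 (by positivity)
    _ = ε * (q ^ (1 / 100 : ℝ) * (1 / q) ^ (1 / 100 : ℝ)) := by ring
    _ = ε := by rw [e1, mul_one]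

/-- basic consequences of the smallness of `p` and `q`. -/
theorem small_basic (ε : ℝ) (hε : 0 < ε) (j : ℕ) : ∃ η > 0, ∀ p q : ℝ, Small p q η →
    p ≤ ε ∧ q ≤ ε ∧ q ≤ ε * p ^ 2 ∧ q * (Real.log (1 / q)) ^ 2 ≤ ε * p ^ 2 ∧
    1 / ε ≤ Real.log (1 / q) ∧ q ^ (1 / 100 : ℝ) * (Real.log (1 / q)) ^ j ≤ ε := by
  obtain ⟨q1, hq1, H1⟩ := p1_log_small 1 one_pos 2
  obtain ⟨q2, hq2, H2⟩ := p1_log_small ε hε j
  set η : ℝ := min (min (min q1 q2) (min (ε / 100) (Real.exp (-1 / ε)))) (Real.exp (-1)) with hη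
  have hη0 : 0 < η := by positivity
  have a1 : η ≤ q1 := (min_le_left _ _).trans ((min_le_left _ _).trans (min_le_left _ _))
  have a2 : η ≤ q2 := (min_le_left _ _).trans ((min_le_left _ _).trans (min_le_right _ _))
  have a3 : η ≤ ε / 100 := (min_le_left _ _).trans ((min_le_right _ _).trans (min_le_left _ _))
  have a4 : η ≤ Real.exp (-1 / ε) :=
    (min_le_left _ _).trans ((min_le_right _ _).trans (min_le_right _ _))
  have a5 : η ≤ Real.exp (-1) := min_le_right _ _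
  have a6 : η ≤ 1 := a5.trans (by rw [Real.exp_le_one_iff]; norm_num)
  refine ⟨η, hη0, fun p q hs => ?_⟩
  obtain ⟨hp, hpη, hq, hpq⟩ := hs
  have hp1 : p ≤ 1 := hpη.trans a6
  have hlp : 1 ≤ Real.log (1 / p) := by
    rw [Real.le_log_iff_exp_le (by positivity), le_div_iff₀ hp]
    calc Real.exp 1 * p ≤ Real.exp 1 * Real.exp (-1) := by gcongr; exact hpη.trans a5
      _ = 1 := by rw [← Real.exp_add]; norm_num
  have hqp : q ≤ η * p ^ 2 := by
    calc q = q * 1 ^ 2 := by ring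
      _ ≤ q * (Real.log (1 / p)) ^ 2 := by gcongr
      _ ≤ η * p ^ 2 := hpq
  have hp2 : p ^ 2 ≤ 1 := pow_le_one₀ hp.le hp1
  have hqη : q ≤ η := hqp.trans (by nlinarith)
  have hεη : η ≤ ε := a3.trans (by linarith)
  have hq1' : q ≤ 1 := hqη.trans a6
  have hL0 : 0 ≤ Real.log (1 / q) := Real.log_nonneg (by rw [le_div_iff₀ hq]; linarith)
  refine ⟨hpη.trans hεη, hqη.trans hεη, hqp.trans (by gcongr), ?_, ?_, H2 q hq (hqη.trans a2)⟩
  · rcases le_total (p ^ 10) q with h | h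
    · have e1 : Real.log (1 / q) ≤ 10 * Real.log (1 / p) := by
        rw [← Real.log_rpow (by positivity)]
        apply Real.log_le_log (by positivity)
        have : (1 / p) ^ (10 : ℝ) = 1 / p ^ 10 := by
          rw [show (10 : ℝ) = ((10 : ℕ) : ℝ) by norm_num, Real.rpow_natCast, one_div_pow]
        rw [this]
        exact one_div_le_one_div_of_le (by positivity) h
      calc q * (Real.log (1 / q)) ^ 2 ≤ q * (10 * Real.log (1 / p)) ^ 2 := by gcongr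
        _ = 100 * (q * (Real.log (1 / p)) ^ 2) := by ring
        _ ≤ 100 * (η * p ^ 2) := by gcongr
        _ ≤ 100 * (ε / 100 * p ^ 2) := by gcongr
        _ = ε * p ^ 2 := by ring
    · have e1 := H1 q hq (hqη.trans a1)
      have e2 : q = q ^ (1 / 2 : ℝ) * (q ^ (49 / 100 : ℝ) * q ^ (1 / 100 : ℝ)) := by
        rw [← Real.rpow_add hq, ← Real.rpow_add hq]
        norm_num
      have e3 : q ^ (49 / 100 : ℝ) ≤ 1 := Real.rpow_le_one hq.le hq1' (by norm_num)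
      have e4 : q ^ (1 / 2 : ℝ) ≤ p ^ 5 := by
        calc q ^ (1 / 2 : ℝ) ≤ (p ^ 10) ^ (1 / 2 : ℝ) :=
              Real.rpow_le_rpow hq.le h (by norm_num)
          _ = p ^ 5 := by
              rw [← Real.rpow_natCast, ← Real.rpow_mul hp.le, ← Real.rpow_natCast]
              norm_num
      have e5 : p ^ 5 ≤ p ^ 2 * ε := by
        have : p ^ 3 ≤ ε := by
          calc p ^ 3 ≤ p ^ 1 := pow_le_pow_of_le_one hp.le hp1 (by norm_num)
            _ = p := pow_one p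
            _ ≤ ε := hpη.trans hεη
        calc p ^ 5 = p ^ 2 * p ^ 3 := by ring
          _ ≤ p ^ 2 * ε := by gcongr
      calc q * (Real.log (1 / q)) ^ 2
          = q ^ (1 / 2 : ℝ) * (q ^ (49 / 100 : ℝ) *
            (q ^ (1 / 100 : ℝ) * (Real.log (1 / q)) ^ 2)) := by
              generalize Real.log (1 / q) = l
              linear_combination l ^ 2 * e2
        _ ≤ q ^ (1 / 2 : ℝ) * (1 * 1) := by gcongr
        _ ≤ p ^ 5 := by rw [mul_one, mul_one]; exact e4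
        _ ≤ p ^ 2 * ε := e5
        _ = ε * p ^ 2 := by ring
  · rw [Real.le_log_iff_exp_le (by positivity), le_div_iff₀ hq]
    calc Real.exp (1 / ε) * q ≤ Real.exp (1 / ε) * Real.exp (-1 / ε) := by
          gcongr
          exact hqη.trans a4
      _ = 1 := by
          rw [← Real.exp_add]
          have : 1 / ε + -1 / ε = 0 := by ring
          rw [this, Real.exp_zero]

private theorem p1_nat (n : ℕ) (hn : 81 ≤ n) :
    (2 * n + 1) ^ 2 * 16 ^ n ≤ 8 ^ 85 * 8 ^ (200 * (n / 81)) := by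
  obtain ⟨k, hk⟩ : ∃ k, k = n / 81 := ⟨_, rfl⟩
  rw [← hk]
  have h1 : n ≤ 81 * k + 80 := by omega
  have hk1 : 1 ≤ k := by omega
  have h2 : 2 * n + 1 ≤ 323 * k := by omega
  have h3 : k ≤ 2 ^ k := Nat.lt_two_pow_self.le
  have h4 : (2 * n + 1) ^ 2 ≤ 2 ^ 17 * 2 ^ (2 * k) := by
    calc (2 * n + 1) ^ 2 ≤ (323 * 2 ^ k) ^ 2 :=
          Nat.pow_le_pow_left (h2.trans (Nat.mul_le_mul_left _ h3)) 2
      _ = 323 ^ 2 * 2 ^ (2 * k) := by rw [mul_pow, ← pow_mul, mul_comm k 2]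
      _ ≤ 2 ^ 17 * 2 ^ (2 * k) := Nat.mul_le_mul_right _ (by norm_num)
  have h5 : 16 ^ n ≤ 2 ^ (4 * (81 * k + 80)) := by
    calc 16 ^ n ≤ 16 ^ (81 * k + 80) := Nat.pow_le_pow_right (by norm_num) h1
      _ = 2 ^ (4 * (81 * k + 80)) := by
          rw [pow_mul]
          norm_num
  calc (2 * n + 1) ^ 2 * 16 ^ n ≤ (2 ^ 17 * 2 ^ (2 * k)) * 2 ^ (4 * (81 * k + 80)) :=
        Nat.mul_le_mul h4 h5
    _ = 2 ^ (17 + 2 * k + 4 * (81 * k + 80)) := by rw [← pow_add, ← pow_add]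
    _ ≤ 2 ^ (3 * 85 + 3 * (200 * k)) := Nat.pow_le_pow_right (by norm_num) (by omega)
    _ = 8 ^ 85 * 8 ^ (200 * k) := by
        rw [pow_add, pow_mul, pow_mul]
        norm_num

private theorem p1_term (δ : ℝ) (h0 : 0 ≤ δ) (h : δ ≤ 8 ^ (-200 : ℤ)) (n : ℕ) :
    (2 * (n : ℝ) + 1) ^ 2 * 8 ^ n * δ ^ ((n + 81) / 81) ≤
      (if n < 81 then 8 ^ 85 * δ else 0) + 8 ^ 85 * δ * (1 / 2) ^ n := by
  have e0 : (n + 81) / 81 = n / 81 + 1 := by omega
  rw [e0, pow_succ δ]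
  have hp : (0 : ℝ) ≤ 8 ^ 85 * δ * (1 / 2) ^ n := by positivity
  by_cases hn : n < 81
  · rw [if_pos hn]
    have h1 : n / 81 = 0 := by omega
    rw [h1, pow_zero, one_mul]
    have h2 : (2 * (n : ℝ) + 1) ^ 2 ≤ 8 ^ 5 := by
      have : (n : ℝ) ≤ 80 := by exact_mod_cast (by omega : n ≤ 80)
      have h3 : 2 * (n : ℝ) + 1 ≤ 161 := by linarith
      calc (2 * (n : ℝ) + 1) ^ 2 ≤ 161 ^ 2 := by gcongr
        _ ≤ 8 ^ 5 := by norm_num
    have h3 : (8 : ℝ) ^ n ≤ 8 ^ 80 := pow_le_pow_right₀ (by norm_num) (by omega)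
    calc (2 * (n : ℝ) + 1) ^ 2 * 8 ^ n * δ ≤ 8 ^ 5 * 8 ^ 80 * δ := by gcongr
      _ = 8 ^ 85 * δ := by ring
      _ ≤ _ := le_add_of_nonneg_right hp
  · rw [if_neg hn, zero_add]
    have h1 : ((2 * (n : ℝ) + 1) ^ 2 * 16 ^ n) ≤ 8 ^ 85 * 8 ^ (200 * (n / 81)) := by
      exact_mod_cast p1_nat n (by omega)
    have h2 : δ ^ (n / 81) ≤ ((8 : ℝ) ^ (200 * (n / 81)))⁻¹ := by
      calc δ ^ (n / 81) ≤ ((8 : ℝ) ^ (-200 : ℤ)) ^ (n / 81) := by gcongr
        _ = ((8 : ℝ) ^ (200 * (n / 81)))⁻¹ := by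
          rw [pow_mul, ← inv_pow]
          congr 1
    have h3 : (2 * (n : ℝ) + 1) ^ 2 * 8 ^ n * ((8 : ℝ) ^ (200 * (n / 81)))⁻¹ ≤
        8 ^ 85 * (1 / 2) ^ n := by
      have h16 : (16 : ℝ) ^ n = 8 ^ n * 2 ^ n := by
        rw [← mul_pow]; norm_num
      rw [h16] at h1
      rw [one_div, inv_pow, ← div_eq_mul_inv, ← div_eq_mul_inv,
        div_le_div_iff₀ (by positivity) (by positivity)]
      linarith
    calc (2 * (n : ℝ) + 1) ^ 2 * 8 ^ n * (δ ^ (n / 81) * δ)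
        ≤ (2 * (n : ℝ) + 1) ^ 2 * 8 ^ n * (((8 : ℝ) ^ (200 * (n / 81)))⁻¹ * δ) := by gcongr
      _ = ((2 * (n : ℝ) + 1) ^ 2 * 8 ^ n * ((8 : ℝ) ^ (200 * (n / 81)))⁻¹) * δ := by ring
      _ ≤ (8 ^ 85 * (1 / 2) ^ n) * δ := by gcongr
      _ = 8 ^ 85 * δ * (1 / 2) ^ n := by ring

theorem nearSum_le (δ : ℝ) (h0 : 0 ≤ δ) (h : δ ≤ 8 ^ (-200 : ℤ)) (M : ℕ) :
    nearSum δ M ≤ 8 ^ 110 * δ := by
  unfold nearSum
  refine (Finset.sum_le_sum fun n _ => p1_term δ h0 h n).trans ?_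
  rw [Finset.sum_add_distrib, ← Finset.mul_sum, ← Finset.sum_filter, Finset.sum_const,
    nsmul_eq_mul]
  have h1 : (((Finset.range (M + 1)).filter (· < 81)).card : ℝ) ≤ 81 := by
    have : ((Finset.range (M + 1)).filter (· < 81)).card ≤ (Finset.range 81).card :=
      Finset.card_le_card fun n hn => by
        rw [Finset.mem_filter] at hn
        exact Finset.mem_range.2 hn.2
    rw [Finset.card_range] at this
    exact_mod_cast this
  have h2 : ∑ n ∈ Finset.range (M + 1), (1 / 2 : ℝ) ^ n ≤ 2 := by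
    rw [geom_sum_eq (by norm_num)]
    have : (0 : ℝ) < (1 / 2) ^ (M + 1) := by positivity
    rw [div_le_iff_of_neg (by norm_num)]
    linarith
  calc (((Finset.range (M + 1)).filter (· < 81)).card : ℝ) * (8 ^ 85 * δ) +
        8 ^ 85 * δ * ∑ n ∈ Finset.range (M + 1), (1 / 2 : ℝ) ^ n
      ≤ 81 * (8 ^ 85 * δ) + 8 ^ 85 * δ * 2 := by gcongr
    _ = (83 * 8 ^ 85) * δ := by ring
    _ ≤ 8 ^ 110 * δ := by
        gcongr
        norm_num

end TSB
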