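import Pool.Agent.TSB.ParamBase
open scoped Classical

/-! Module PARAM3: the weights of bad blocks. -/

namespace TSB

namespace PSmall

variable {p q : ℝ}

theorem sqrt_small (h : PSmall p q) : Real.sqrt q ≤ 1 / 10 ^ 100 := h.sqrt_le.trans h.hpe

theorem one_sub_pow_w (h : PSmall p q) : (1 - p / 2) ^ (pr p q).w ≤ q ^ 50 := by
  have hp := h.hp
  have h1 : 0 ≤ 1 - p / 2 := by linarith [h.p_lt_one]
  have h2 : 1 - p / 2 ≤ Real.exp (-(p / 2)) := Real.one_sub_le_exp_neg (p / 2)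
  calc (1 - p / 2) ^ (pr p q).w ≤ Real.exp (-(p / 2)) ^ (pr p q).w := pow_le_pow_left₀ h1 h2 _
    _ = Real.exp (((pr p q).w : ℝ) * (-(p / 2))) := by rw [← Real.exp_nat_mul]
    _ ≤ Real.exp (-((50 : ℕ) * Real.log (1 / q))) := by
        apply Real.exp_le_exp.mpr
        have h3 := h.w_lb
        rw [div_le_iff₀ hp] at h3
        push_cast
        nlinarith
    _ = q ^ 50 := by rw [h.q_npow]

theorem two_q_w (h : PSmall p q) : 2 * q * (((pr p q).w : ℝ) + 4) ^ 2 ≤ 22050 / 10 ^ 100 := by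
  have hp := h.hp
  have hq := h.hq
  have hL := h.L_pos
  have h1 := h.w_ub
  have h2 := h.Lp_one
  have h3 : ((pr p q).w : ℝ) + 4 ≤ 105 * (Real.log (1 / q) / p) := by
    have : 101 * Real.log (1 / q) / p = 101 * (Real.log (1 / q) / p) := by ring
    linarith
  calc 2 * q * (((pr p q).w : ℝ) + 4) ^ 2 ≤ 2 * q * (105 * (Real.log (1 / q) / p)) ^ 2 := by gcongr
    _ = 22050 * (q * Real.log (1 / q) ^ 2) / p ^ 2 := by ring
    _ ≤ 22050 * (1 / 10 ^ 100 * p ^ 2) / p ^ 2 := by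
        have := h.hqL
        gcongr
    _ = 22050 / 10 ^ 100 := by field_simp

/-- main estimate for the weight of a bad block -/
theorem deltaD_le (h : PSmall p q) :
    deltaD (pr p q).w (pr p q).d (pr p q).mw (2 * q) (1 - p / 2) ≤
      10 ^ 40 * ((pr p q).D : ℝ) ^ 2 * Real.log (1 / q) ^ 8 * Real.sqrt q ^ 5 := by
  have hDD : (((pr p q).d * (pr p q).w : ℕ) : ℝ) = (pr p q).D := rfl
  have hp := h.hp
  have hq := h.hq
  have hL := h.L_pos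
  have hL1 := h.L_one
  have hu0 := h.sqrt_pos
  have hu1 := h.sqrt_le
  have hus := h.sqrt_small
  have huq : Real.sqrt q ^ 2 = q := Real.sq_sqrt hq.le
  have hD0 := h.D_pos
  have hDu := h.D_ub
  have hdD := h.d_le_D
  have hw50 := h.one_sub_pow_w
  have hB := h.two_q_w
  unfold deltaD
  rw [hDD, show (1 : ℝ) - (1 - p / 2) = p / 2 by ring]
  set L := Real.log (1 / q) with hLdef
  set u := Real.sqrt q with hudef
  set x : ℝ := ((pr p q).D : ℝ) with hx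
  have hL8 : 1 ≤ L ^ 8 := one_le_pow₀ hL1
  have hK : 0 ≤ x ^ 2 * u ^ 5 := by positivity
  have hu1' : u ≤ 1 := hus.trans (by norm_num)
  -- the unit of measure
  have hbase : x ^ 2 * u ^ 5 ≤ x ^ 2 * L ^ 8 * u ^ 5 := by nlinarith
  -- term 1
  have t1 : 10 ^ 6 * x ^ 2 * (2 * q) ^ 3 ≤ x ^ 2 * L ^ 8 * u ^ 5 := by
    have e1 : 10 ^ 6 * x ^ 2 * (2 * q) ^ 3 = (8 * 10 ^ 6 * u) * (x ^ 2 * u ^ 5) := by
      rw [← huq]; ring
    have e2 : 8 * 10 ^ 6 * u ≤ 1 := by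
      calc 8 * 10 ^ 6 * u ≤ 8 * 10 ^ 6 * (1 / 10 ^ 100) := by gcongr
        _ ≤ 1 := by norm_num
    rw [e1]
    nlinarith
  -- term 2
  have t2 : 50 * x ^ 2 * (1 - p / 2) ^ (pr p q).w ≤ x ^ 2 * L ^ 8 * u ^ 5 := by
    have e1 : q ^ 50 = u ^ 95 * u ^ 5 := by rw [← huq]; ring
    have e2 : 50 * u ^ 95 ≤ 1 := by
      have e3 : u ^ 95 ≤ u := by
        calc u ^ 95 ≤ u ^ 1 := pow_le_pow_of_le_one hu0.le hu1' (by norm_num)
          _ = u := pow_one u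
      calc 50 * u ^ 95 ≤ 50 * (1 / 10 ^ 100) := by
            have := e3.trans hus
            gcongr
        _ ≤ 1 := by norm_num
    calc 50 * x ^ 2 * (1 - p / 2) ^ (pr p q).w ≤ 50 * x ^ 2 * q ^ 50 := by gcongr
      _ = (50 * u ^ 95) * (x ^ 2 * u ^ 5) := by rw [e1]; ring
      _ ≤ 1 * (x ^ 2 * u ^ 5) := by gcongr
      _ ≤ x ^ 2 * L ^ 8 * u ^ 5 := by linarith
  -- term 3
  have t3 : 9 * ((pr p q).d : ℝ) ^ 2 * 8 ^ ((pr p q).mw + 1) *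
      (2 * q * (((pr p q).w : ℝ) + 4) ^ 2) ^ (((pr p q).mw + 82) / 81) ≤ x ^ 2 * L ^ 8 * u ^ 5 := by
    set E := ((pr p q).mw + 82) / 81 with hE
    have hE1 : (pr p q).mw + 1 ≤ 81 * E := by omega
    have hE2 : L ≤ E := by
      have h1 := h.mw_lb
      have h2 : (((pr p q).mw : ℕ) : ℝ) ≤ 81 * (E : ℝ) := by
        have : (pr p q).mw ≤ 81 * E := by omega
        exact_mod_cast this
      linarith
    have hB0 : 0 ≤ 2 * q * (((pr p q).w : ℝ) + 4) ^ 2 := by positivity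
    have e1 : (8 : ℝ) ^ ((pr p q).mw + 1) ≤ (8 ^ 81) ^ E := by
      rw [← pow_mul]
      exact pow_le_pow_right₀ (by norm_num) hE1
    have e2 : (8 : ℝ) ^ 81 * (2 * q * (((pr p q).w : ℝ) + 4) ^ 2) ≤ Real.exp (-40) := by
      have e3 : ((1 : ℝ) / 3) ^ 40 ≤ Real.exp (-40) := by
        have e4 : (1 : ℝ) / 3 ≤ Real.exp (-1) := by
          have := Real.exp_neg_one_gt_d9
          linarith
        calc ((1 : ℝ) / 3) ^ 40 ≤ Real.exp (-1) ^ 40 := by gcongr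
          _ = Real.exp (-40) := by rw [← Real.exp_nat_mul]; norm_num
      calc (8 : ℝ) ^ 81 * (2 * q * (((pr p q).w : ℝ) + 4) ^ 2)
          ≤ 8 ^ 81 * (22050 / 10 ^ 100) := by gcongr
        _ ≤ ((1 : ℝ) / 3) ^ 40 := by norm_num
        _ ≤ _ := e3
    have e5 : (8 : ℝ) ^ ((pr p q).mw + 1) * (2 * q * (((pr p q).w : ℝ) + 4) ^ 2) ^ E ≤ q ^ 40 := by
      calc (8 : ℝ) ^ ((pr p q).mw + 1) * (2 * q * (((pr p q).w : ℝ) + 4) ^ 2) ^ E
          ≤ (8 ^ 81) ^ E * (2 * q * (((pr p q).w : ℝ) + 4) ^ 2) ^ E := by gcongr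
        _ = (8 ^ 81 * (2 * q * (((pr p q).w : ℝ) + 4) ^ 2)) ^ E := (mul_pow _ _ _).symm
        _ ≤ Real.exp (-40) ^ E := pow_le_pow_left₀ (by positivity) e2 _
        _ = Real.exp ((E : ℝ) * (-40)) := by rw [← Real.exp_nat_mul]
        _ ≤ Real.exp (-((40 : ℕ) * L)) := by
            apply Real.exp_le_exp.mpr
            push_cast
            nlinarith
        _ = q ^ 40 := by rw [h.q_npow]
    have e6 : q ^ 40 = u ^ 75 * u ^ 5 := by rw [← huq]; ring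
    have e7 : 9 * u ^ 75 ≤ 1 := by
      have e3 : u ^ 75 ≤ u := by
        calc u ^ 75 ≤ u ^ 1 := pow_le_pow_of_le_one hu0.le hu1' (by norm_num)
          _ = u := pow_one u
      calc 9 * u ^ 75 ≤ 9 * (1 / 10 ^ 100) := by
            have := e3.trans hus
            gcongr
        _ ≤ 1 := by norm_num
    calc 9 * ((pr p q).d : ℝ) ^ 2 * 8 ^ ((pr p q).mw + 1) *
        (2 * q * (((pr p q).w : ℝ) + 4) ^ 2) ^ E
        = 9 * ((pr p q).d : ℝ) ^ 2 * (8 ^ ((pr p q).mw + 1) *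
        (2 * q * (((pr p q).w : ℝ) + 4) ^ 2) ^ E) := by ring
      _ ≤ 9 * x ^ 2 * q ^ 40 := by gcongr
      _ = (9 * u ^ 75) * (x ^ 2 * u ^ 5) := by rw [e6]; ring
      _ ≤ 1 * (x ^ 2 * u ^ 5) := by gcongr
      _ ≤ x ^ 2 * L ^ 8 * u ^ 5 := by linarith
  -- term 4
  have t4 : x ^ 2 * (2 * q) ^ 4 / (p / 2) ^ 3 + x ^ 4 * (2 * q) ^ 4 / (p / 2)
      + x ^ 4 * (2 * q) ^ 5 / (p / 2) ^ 3 + x ^ 6 * (2 * q) ^ 6 / (p / 2) ^ 3 ≤
      10 ^ 20 * (x ^ 2 * L ^ 8 * u ^ 5) := by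
    set r := u / p with hr
    set y := x * p with hy
    have hr0 : 0 ≤ r := by positivity
    have hr1 : r ≤ 1 := by rw [hr, div_le_one hp]; exact hu1
    have hy0 : 0 ≤ y := by positivity
    have hy1 : y ≤ 8282 * L ^ 2 := by
      rw [hy]
      calc x * p ≤ (8282 * L ^ 2 / p) * p := by gcongr
        _ = 8282 * L ^ 2 := by field_simp
    have a1 : x ^ 2 * (2 * q) ^ 4 / (p / 2) ^ 3 = 128 * (x ^ 2 * u ^ 5) * r ^ 3 := by
      rw [hr, ← huq]; field_simp; ring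
    have a2 : x ^ 4 * (2 * q) ^ 4 / (p / 2) = 32 * (x ^ 2 * u ^ 5) * (y ^ 2 * r ^ 3) := by
      rw [hr, hy, ← huq]; field_simp; ring
    have a3 : x ^ 4 * (2 * q) ^ 5 / (p / 2) ^ 3 = 256 * (x ^ 2 * u ^ 5) * (y ^ 2 * r ^ 5) := by
      rw [hr, hy, ← huq]; field_simp; ring
    have a4 : x ^ 6 * (2 * q) ^ 6 / (p / 2) ^ 3 = 512 * (x ^ 2 * u ^ 5) * (y ^ 4 * r ^ 7) := by
      rw [hr, hy, ← huq]; field_simp; ring
    have r3 : r ^ 3 ≤ 1 := pow_le_one₀ hr0 hr1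
    have r5 : r ^ 5 ≤ 1 := pow_le_one₀ hr0 hr1
    have r7 : r ^ 7 ≤ 1 := pow_le_one₀ hr0 hr1
    have hL4 : L ^ 4 ≤ L ^ 8 := pow_le_pow_right₀ hL1 (by norm_num)
    have y2 : y ^ 2 ≤ 8282 ^ 2 * L ^ 8 := by
      calc y ^ 2 ≤ (8282 * L ^ 2) ^ 2 := by gcongr
        _ = 8282 ^ 2 * L ^ 4 := by ring
        _ ≤ _ := by gcongr
    have y4 : y ^ 4 ≤ 8282 ^ 4 * L ^ 8 := by
      calc y ^ 4 ≤ (8282 * L ^ 2) ^ 4 := by gcongr
        _ = 8282 ^ 4 * L ^ 8 := by ring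
    rw [a1, a2, a3, a4]
    have b1 : 128 * (x ^ 2 * u ^ 5) * r ^ 3 ≤ 128 * (x ^ 2 * u ^ 5) * L ^ 8 := by gcongr; linarith
    have b2 : 32 * (x ^ 2 * u ^ 5) * (y ^ 2 * r ^ 3) ≤ 32 * (x ^ 2 * u ^ 5) * (8282 ^ 2 * L ^ 8 * 1) := by
      gcongr
    have b3 : 256 * (x ^ 2 * u ^ 5) * (y ^ 2 * r ^ 5) ≤ 256 * (x ^ 2 * u ^ 5) * (8282 ^ 2 * L ^ 8 * 1) := by
      gcongr
    have b4 : 512 * (x ^ 2 * u ^ 5) * (y ^ 4 * r ^ 7) ≤ 512 * (x ^ 2 * u ^ 5) * (8282 ^ 4 * L ^ 8 * 1) := by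
      gcongr
    have b5 : 0 ≤ x ^ 2 * L ^ 8 * u ^ 5 := by positivity
    nlinarith
  have b5 : 0 ≤ x ^ 2 * L ^ 8 * u ^ 5 := by positivity
  nlinarith

theorem deltaD_nonneg (h : PSmall p q) :
    0 ≤ deltaD (pr p q).w (pr p q).d (pr p q).mw (2 * q) (1 - p / 2) := by
  have hp := h.hp
  have hq := h.hq
  have h1 : 0 < 1 - p / 2 := by linarith [h.p_lt_one]
  have h2 : 0 < 1 - (1 - p / 2) := by linarith
  unfold deltaD
  positivity

theorem sqrt_one (h : PSmall p q) : Real.sqrt q = q ^ (1 / 2 : ℝ) := Real.sqrt_eq_rpow q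

theorem deltaD_le65 (h : PSmall p q) :
    deltaD (pr p q).w (pr p q).d (pr p q).mw (2 * q) (1 - p / 2) ≤ q ^ (6 / 5 : ℝ) := by
  have h1 := h.deltaD_le
  have h2 := h.D_ub
  have hp := h.hp
  have hL := h.L_pos
  have hu0 := h.sqrt_pos
  have hu1 := h.sqrt_le
  have h3 := h.absorb (10 ^ 40 * 8282 ^ 2) (by norm_num) (by norm_num) 12 (by norm_num) (6 / 5) (3 / 2)
    (by norm_num)
  have h4 : q ^ (3 / 2 : ℝ) = Real.sqrt q ^ 3 := by rw [h.sqrt_rpow]; norm_num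
  rw [h4] at h3
  refine h1.trans (le_trans ?_ h3)
  calc 10 ^ 40 * ((pr p q).D : ℝ) ^ 2 * Real.log (1 / q) ^ 8 * Real.sqrt q ^ 5
      ≤ 10 ^ 40 * (8282 * Real.log (1 / q) ^ 2 / p) ^ 2 * Real.log (1 / q) ^ 8 * Real.sqrt q ^ 5 := by
        gcongr
    _ = 10 ^ 40 * 8282 ^ 2 * Real.log (1 / q) ^ 12 * Real.sqrt q ^ 3 * (Real.sqrt q / p) ^ 2 := by
        field_simp
    _ ≤ 10 ^ 40 * 8282 ^ 2 * Real.log (1 / q) ^ 12 * Real.sqrt q ^ 3 * 1 ^ 2 := by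
        have : Real.sqrt q / p ≤ 1 := by rw [div_le_one hp]; exact hu1
        gcongr
    _ = _ := by ring

/-- `s D` is small compared with `1/q` -/
theorem edeltaD_le (h : PSmall p q) (hsD : q * ((pr p q).s : ℝ) * (pr p q).D ≤ 10 ^ (-12 : ℝ)) :
    (4 * ((pr p q).e : ℝ) + 6 * (pr p q).s + 4) ^ 2 *
      deltaD (pr p q).w (pr p q).d (pr p q).mw (2 * q) (1 - p / 2) ≤ q ^ (2 / 5 : ℝ) := by
  have h1 := h.deltaD_le
  have hq := h.hq
  have hp := h.hp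
  have hL := h.L_pos
  have hL1 := h.L_one
  have hu0 := h.sqrt_pos
  have hW := h.W_ub
  rw [W_eq] at hW
  have hD0 := h.D_pos
  have hs1 : (1 : ℝ) ≤ (pr p q).s := by
    rw [s_eq]
    have : (0 : ℝ) ≤ (pr p q).m := by positivity
    linarith
  have h12 : (10 : ℝ) ^ (-12 : ℝ) ≤ 1 := by
    calc (10 : ℝ) ^ (-12 : ℝ) ≤ 10 ^ (0 : ℝ) :=
          Real.rpow_le_rpow_of_exponent_le (by norm_num) (by norm_num)
      _ = 1 := Real.rpow_zero _
  have hsD' : ((pr p q).s : ℝ) * (pr p q).D ≤ 1 / q := by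
    rw [le_div_iff₀ hq]
    linarith
  have hDs : ((pr p q).D : ℝ) ≤ 1 / q := by
    refine le_trans ?_ hsD'
    nlinarith
  have hX : (4 * ((pr p q).e : ℝ) + 6 * (pr p q).s + 4) * (pr p q).D ≤ 414 * Real.log (1 / q) / q := by
    have e1 : (4 * ((pr p q).e : ℝ) + 6 * (pr p q).s + 4) * (pr p q).D =
        4 * (((pr p q).e : ℝ) * (pr p q).D) + 6 * (((pr p q).s : ℝ) * (pr p q).D) + 4 * (pr p q).D := by
      ring
    have e2 : 1 / q ≤ Real.log (1 / q) / q := by gcongr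
    have e3 : 101 * Real.log (1 / q) / q = 101 * (Real.log (1 / q) / q) := by ring
    have e4 : 414 * Real.log (1 / q) / q = 414 * (Real.log (1 / q) / q) := by ring
    rw [e1, e4]
    rw [e3] at hW
    linarith
  have h3 := h.absorb (10 ^ 40 * 414 ^ 2) (by norm_num) (by norm_num) 10 (by norm_num) (2 / 5) (1 / 2)
    (by norm_num)
  rw [← Real.sqrt_eq_rpow] at h3
  refine le_trans ?_ h3
  calc (4 * ((pr p q).e : ℝ) + 6 * (pr p q).s + 4) ^ 2 *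
      deltaD (pr p q).w (pr p q).d (pr p q).mw (2 * q) (1 - p / 2)
      ≤ (4 * ((pr p q).e : ℝ) + 6 * (pr p q).s + 4) ^ 2 *
        (10 ^ 40 * ((pr p q).D : ℝ) ^ 2 * Real.log (1 / q) ^ 8 * Real.sqrt q ^ 5) := by gcongr
    _ = 10 ^ 40 * ((4 * ((pr p q).e : ℝ) + 6 * (pr p q).s + 4) * (pr p q).D) ^ 2 *
        Real.log (1 / q) ^ 8 * Real.sqrt q ^ 5 := by ring
    _ ≤ 10 ^ 40 * (414 * Real.log (1 / q) / q) ^ 2 *
        Real.log (1 / q) ^ 8 * Real.sqrt q ^ 5 := by gcongr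
    _ = 10 ^ 40 * (414 * Real.log (1 / q) / (Real.sqrt q ^ 2)) ^ 2 *
        Real.log (1 / q) ^ 8 * Real.sqrt q ^ 5 := by rw [Real.sq_sqrt hq.le]
    _ = 10 ^ 40 * 414 ^ 2 * Real.log (1 / q) ^ 10 * Real.sqrt q := by
        field_simp

theorem one_sub_pow_W (h : PSmall p q) :
    2 * ((pr p q).W : ℝ) * (1 - q) ^ (pr p q).W ≤ 202 * Real.log (1 / q) ^ 1 * q ^ (99 : ℝ) := by
  have hq := h.hq
  have hq1 := h.q_lt_one
  have hL := h.L_pos
  have h1 := h.W_ub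
  have h2 := h.W_lb
  have h3 : (1 - q) ^ (pr p q).W ≤ q ^ (100 : ℝ) := by
    calc (1 - q) ^ (pr p q).W ≤ Real.exp (-q) ^ (pr p q).W :=
          pow_le_pow_left₀ (by linarith) (Real.one_sub_le_exp_neg q) _
      _ = Real.exp (((pr p q).W : ℝ) * (-q)) := by rw [← Real.exp_nat_mul]
      _ ≤ Real.exp (-(100 * Real.log (1 / q))) := by
          apply Real.exp_le_exp.mpr
          rw [div_le_iff₀ hq] at h2
          linarith
      _ = q ^ (100 : ℝ) := by rw [h.q_rpow]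
  have h4 : q ^ (100 : ℝ) = q * q ^ (99 : ℝ) := by
    rw [show (100 : ℝ) = 1 + 99 by norm_num, Real.rpow_add hq, Real.rpow_one]
  have h5 : 0 ≤ q ^ (99 : ℝ) := Real.rpow_nonneg hq.le _
  have h6 : 0 ≤ (1 - q) ^ (pr p q).W := pow_nonneg (by linarith) _
  calc 2 * ((pr p q).W : ℝ) * (1 - q) ^ (pr p q).W
      ≤ 2 * (101 * Real.log (1 / q) / q) * (q * q ^ (99 : ℝ)) := by
        rw [← h4]
        gcongr
    _ = 202 * Real.log (1 / q) ^ 1 * q ^ (99 : ℝ) := by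
        field_simp
        ring

theorem deltaW_nonneg (h : PSmall p q) :
    0 ≤ deltaW (pr p q).w (pr p q).d (pr p q).mw (pr p q).e (pr p q).s (2 * q) (1 - p / 2) (1 - q) := by
  have h1 := h.deltaD_nonneg
  have h2 : 0 ≤ 1 - q := by linarith [h.q_lt_one]
  unfold deltaW
  positivity

theorem deltaW_le (h : PSmall p q) (hsD : q * ((pr p q).s : ℝ) * (pr p q).D ≤ 10 ^ (-12 : ℝ)) :
    deltaW (pr p q).w (pr p q).d (pr p q).mw (pr p q).e (pr p q).s (2 * q) (1 - p / 2) (1 - q)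
      ≤ q ^ (3 / 10 : ℝ) := by
  have h1 := h.edeltaD_le hsD
  have h2 := h.one_sub_pow_W
  have h0 := h.deltaD_nonneg
  have hWW : (((pr p q).e * ((pr p q).d * (pr p q).w) : ℕ) : ℝ) = (pr p q).W := rfl
  have h3 := h.absorb 2 (by norm_num) (by norm_num) 0 (by norm_num) (3 / 10) (2 / 5) (by norm_num)
  have h4 := h.absorb 404 (by norm_num) (by norm_num) 1 (by norm_num) (3 / 10) 99 (by norm_num)
  unfold deltaW
  rw [hWW]
  have h5 : (((pr p q).e : ℝ) + 6 * (pr p q).s) ^ 2 * deltaD (pr p q).w (pr p q).d (pr p q).mw (2 * q)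
      (1 - p / 2) ≤ (4 * ((pr p q).e : ℝ) + 6 * (pr p q).s + 4) ^ 2 *
      deltaD (pr p q).w (pr p q).d (pr p q).mw (2 * q) (1 - p / 2) := by
    have h6 : (((pr p q).e : ℝ) + 6 * (pr p q).s) ≤ (4 * ((pr p q).e : ℝ) + 6 * (pr p q).s + 4) := by
      have : (0 : ℝ) ≤ (pr p q).e := by positivity
      linarith
    gcongr
  have h7 : (1 - q) ^ ((pr p q).e * ((pr p q).d * (pr p q).w)) = (1 - q) ^ (pr p q).W := rfl
  rw [h7]
  rw [pow_zero, mul_one] at h3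
  linarith

end PSmall

theorem pr_edeltaD : ∃ η > 0, ∀ p q : ℝ, Small p q η →
    (4 * ((pr p q).e : ℝ) + 6 * (pr p q).s + 4) ^ 2 *
      deltaD (pr p q).w (pr p q).d (pr p q).mw (2 * q) (1 - p / 2) ≤ q ^ (2 / 5 : ℝ) := by
  obtain ⟨η, hη, H⟩ := small_and psmall pr_T
  exact ⟨η, hη, fun p q hs => (H p q hs).1.edeltaD_le (H p q hs).2.2.2.2⟩

theorem pr_deltaD : ∃ η > 0, ∀ p q : ℝ, Small p q η →
    deltaD (pr p q).w (pr p q).d (pr p q).mw (2 * q) (1 - p / 2) ≤ q ^ (6 / 5 : ℝ) := by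
  obtain ⟨η, hη, H⟩ := psmall
  exact ⟨η, hη, fun p q hs => (H p q hs).deltaD_le65⟩

theorem pr_deltaW : ∃ η > 0, ∀ p q : ℝ, Small p q η →
    deltaW (pr p q).w (pr p q).d (pr p q).mw (pr p q).e (pr p q).s (2 * q) (1 - p / 2) (1 - q)
      ≤ q ^ (3 / 10 : ℝ) := by
  obtain ⟨η, hη, H⟩ := small_and psmall pr_T
  exact ⟨η, hη, fun p q hs => (H p q hs).1.deltaW_le (H p q hs).2.2.2.2⟩

end TSB
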