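import Pool.Agent.TSB.Param3
open scoped Classical

/-! Module PARAM4: the weights of bad `T`-boxes and of failed trials. -/

namespace TSB

/-- the information from `pr_T` -/
structure PT (p q : ℝ) : Prop where
  Tlb : Real.exp (10 * (1 / p + Real.log (1 / q))) ≤ (pr p q).T
  Tub : ((pr p q).T : ℝ) ≤ Real.exp (20 * (1 / p + Real.log (1 / q)))
  sD : (1000 * ((pr p q).s : ℝ) * (pr p q).D) ≤ q ^ (-(1 / 2 + 1 / 10) : ℝ) * (1 / p)
  qsD : q * ((pr p q).s : ℝ) * (pr p q).D ≤ 10 ^ (-12 : ℝ)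

theorem psmall_T : ∃ η > 0, ∀ p q : ℝ, Small p q η → PSmall p q ∧ PT p q := by
  obtain ⟨η, hη, H⟩ := small_and psmall pr_T
  exact ⟨η, hη, fun p q hs => ⟨(H p q hs).1, (H p q hs).2.1, (H p q hs).2.2.1,
    (H p q hs).2.2.2.1, (H p q hs).2.2.2.2⟩⟩

namespace PSmall

variable {p q : ℝ}

theorem L_le_Th (h : PSmall p q) : Real.log (1 / q) ≤ 1 / p + Real.log (1 / q) := by
  have := h.hp
  have : 0 < 1 / p := by positivity
  linarith

theorem Th_big (h : PSmall p q) : 10 ^ 100 ≤ 1 / p + Real.log (1 / q) := h.hL.trans h.L_le_Th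

theorem Lm_lb (h : PSmall p q) :
    10 ^ 5 * (1 / p + Real.log (1 / q)) ≤ Real.log (1 / q) * (pr p q).m := by
  have h1 := h.m_lb
  rw [div_le_iff₀ h.L_pos] at h1
  linarith

theorem m_ub' (h : PSmall p q) : 3 * (((pr p q).m : ℝ) + 1) ≤ 1 / p + Real.log (1 / q) := by
  have h1 := h.m_ub
  have hL := h.hL
  have hL0 := h.L_pos
  have hT := h.Th_big
  have hT0 := h.Th_pos
  have h2 : 10 ^ 5 * (1 / p + Real.log (1 / q)) / Real.log (1 / q) ≤
      10 ^ 5 * (1 / p + Real.log (1 / q)) / 10 ^ 100 := by gcongr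
  have h3 : 10 ^ 5 * (1 / p + Real.log (1 / q)) / 10 ^ 100 ≤ (1 / p + Real.log (1 / q)) / 10 := by
    rw [div_le_iff₀ (by positivity)]
    nlinarith
  have h4 : (100 : ℝ) ≤ 10 ^ 100 := by norm_num
  linarith

theorem m_one (h : PSmall p q) : (1 : ℝ) ≤ (pr p q).m := by
  refine le_trans ?_ h.m_lb
  rw [le_div_iff₀ h.L_pos]
  have h1 := h.L_le_Th
  have h2 := h.L_pos
  linarith

theorem qm_le (h : PSmall p q) : q * (pr p q).m ≤ 10 ^ 6 * Real.sqrt q := by
  have h1 := h.m_ub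
  have hL := h.L_one
  have hL0 := h.L_pos
  have hp := h.hp
  have hq := h.hq
  have hi := h.inv_p
  have h2 : 10 ^ 5 * (1 / p + Real.log (1 / q)) / Real.log (1 / q) ≤ 10 ^ 5 * (1 / p) + 10 ^ 5 := by
    rw [div_le_iff₀ hL0]
    have : 0 < 1 / p := by positivity
    nlinarith
  have h3 : ((pr p q).m : ℝ) ≤ 10 ^ 6 * (1 / p) := by
    have : (10 : ℝ) ^ 6 ≤ 10 ^ 100 := by norm_num
    linarith
  have h4 := h.sqrt_le
  have h5 := h.sqrt_pos
  calc q * (pr p q).m ≤ q * (10 ^ 6 * (1 / p)) := by gcongr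
    _ = 10 ^ 6 * ((Real.sqrt q ^ 2) / p) := by rw [Real.sq_sqrt hq.le]; ring
    _ = 10 ^ 6 * (Real.sqrt q * (Real.sqrt q / p)) := by ring
    _ ≤ 10 ^ 6 * (Real.sqrt q * 1) := by
        have : Real.sqrt q / p ≤ 1 := by rw [div_le_one hp]; exact h4
        gcongr
    _ = _ := by ring

theorem eight_le : (8 : ℝ) ≤ Real.exp 3 := by
  have h1 := Real.exp_one_gt_d9
  calc (8 : ℝ) ≤ 2.7 ^ 3 := by norm_num
    _ ≤ Real.exp 1 ^ 3 := by gcongr; linarith
    _ = Real.exp 3 := by rw [← Real.exp_nat_mul]; norm_num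

theorem bigW_le (h : PSmall p q) (n : ℝ) (hn : 0 ≤ n) :
    bigW (pr p q).k (2 * q) n ≤ 2 * n * Real.exp (-(19999 * (1 / p + Real.log (1 / q)))) := by
  have hq := h.hq
  have hm1 := h.m_one
  have h1 := h.qm_le
  have h2 := h.absorb (2 * 10 ^ 7) (by norm_num) (by norm_num) 0 (by norm_num) (2 / 5) (1 / 2)
    (by norm_num)
  rw [← Real.sqrt_eq_rpow, pow_zero, mul_one] at h2
  have h3 : 2 * (4 * (((pr p q).m : ℕ) : ℝ) + 1) * (2 * q) ≤ q ^ (2 / 5 : ℝ) := by
    refine le_trans ?_ h2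
    nlinarith
  unfold bigW
  rw [k_eq]
  have h0 : 0 ≤ 2 * (4 * (((pr p q).m : ℕ) : ℝ) + 1) * (2 * q) := by positivity
  have h4 : (2 * (4 * (((pr p q).m : ℕ) : ℝ) + 1) * (2 * q)) ^ ((pr p q).m / 2) ≤
      Real.exp (-(19999 * (1 / p + Real.log (1 / q)))) := by
    calc (2 * (4 * (((pr p q).m : ℕ) : ℝ) + 1) * (2 * q)) ^ ((pr p q).m / 2)
        ≤ (q ^ (2 / 5 : ℝ)) ^ ((pr p q).m / 2) := pow_le_pow_left₀ h0 h3 _
      _ = Real.exp ((((pr p q).m / 2 : ℕ) : ℝ) * (-(2 / 5 * Real.log (1 / q)))) := by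
          rw [h.q_rpow, ← Real.exp_nat_mul]
      _ ≤ _ := by
          apply Real.exp_le_exp.mpr
          have h5 := h.Lm_lb
          have h6 := h.L_le_Th
          have hL := h.L_pos
          have h7 : ((pr p q).m : ℝ) ≤ 2 * (((pr p q).m / 2 : ℕ) : ℝ) + 1 := by
            have : (pr p q).m ≤ 2 * ((pr p q).m / 2) + 1 := by omega
            exact_mod_cast this
          nlinarith
  gcongr

theorem spanW_le (h : PSmall p q) (δ n c : ℝ) (hδ0 : 0 ≤ δ) (hδ : δ ≤ q ^ c) (hn : 0 ≤ n)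
    (hc : 0 ≤ c) :
    spanW (pr p q).m δ n ≤ n * Real.exp ((1 - 1234 * c) * (1 / p + Real.log (1 / q))) := by
  have hq := h.hq
  have h8 : (8 : ℝ) ^ ((pr p q).m + 1) ≤ Real.exp (1 / p + Real.log (1 / q)) := by
    calc (8 : ℝ) ^ ((pr p q).m + 1) ≤ Real.exp 3 ^ ((pr p q).m + 1) := by
          gcongr
          exact eight_le
      _ = Real.exp ((((pr p q).m + 1 : ℕ) : ℝ) * 3) := by rw [← Real.exp_nat_mul]
      _ ≤ _ := by
          apply Real.exp_le_exp.mpr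
          have := h.m_ub'
          push_cast
          linarith
  have h1 : δ ^ (((pr p q).m + 82) / 81) ≤ Real.exp (-(1234 * c * (1 / p + Real.log (1 / q)))) := by
    calc δ ^ (((pr p q).m + 82) / 81) ≤ (q ^ c) ^ (((pr p q).m + 82) / 81) := pow_le_pow_left₀ hδ0 hδ _
      _ = Real.exp (((((pr p q).m + 82) / 81 : ℕ) : ℝ) * (-(c * Real.log (1 / q)))) := by
          rw [h.q_rpow, ← Real.exp_nat_mul]
      _ ≤ _ := by
          apply Real.exp_le_exp.mpr
          have h5 := h.Lm_lb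
          have hL := h.L_pos
          have hT := h.Th_pos
          have h7 : ((pr p q).m : ℝ) ≤ 81 * ((((pr p q).m + 82) / 81 : ℕ) : ℝ) := by
            have : (pr p q).m ≤ 81 * (((pr p q).m + 82) / 81) := by omega
            exact_mod_cast this
          have h8 : 1234 * (1 / p + Real.log (1 / q)) ≤
              Real.log (1 / q) * ((((pr p q).m + 82) / 81 : ℕ) : ℝ) := by nlinarith
          nlinarith
  have h0 : 0 ≤ δ ^ (((pr p q).m + 82) / 81) := pow_nonneg hδ0 _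
  unfold spanW
  calc n * 8 ^ ((pr p q).m + 1) * δ ^ (((pr p q).m + 82) / 81)
      ≤ n * Real.exp (1 / p + Real.log (1 / q)) *
        Real.exp (-(1234 * c * (1 / p + Real.log (1 / q)))) := by gcongr
    _ = n * Real.exp ((1 - 1234 * c) * (1 / p + Real.log (1 / q))) := by
        rw [mul_assoc, ← Real.exp_add]
        ring_nf

/-- constants are absorbed by `exp Θ` -/
theorem const_le (h : PSmall p q) (C : ℝ) (hC : C ≤ 10 ^ 100) :
    C ≤ Real.exp (1 / p + Real.log (1 / q)) := by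
  have h1 := Real.add_one_le_exp (1 / p + Real.log (1 / q))
  have h2 := h.Th_big
  linarith

theorem T_eq (p q : ℝ) : (pr p q).T = (pr p q).g * ((pr p q).f * ((pr p q).e * (pr p q).D)) := rfl

theorem gfe_le (h : PSmall p q) : (((pr p q).g * (pr p q).f * (pr p q).e : ℕ) : ℝ) ≤ (pr p q).T := by
  have h1 := h.D_one
  have h2 : 1 ≤ (pr p q).D := by exact_mod_cast h1
  have h3 : (pr p q).g * (pr p q).f * (pr p q).e ≤ (pr p q).T := by
    rw [T_eq]
    calc (pr p q).g * (pr p q).f * (pr p q).e = (pr p q).g * ((pr p q).f * ((pr p q).e * 1)) := by ring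
      _ ≤ _ := by gcongr
  exact_mod_cast h3

theorem W_one (h : PSmall p q) : 1 ≤ (pr p q).W := by
  have h1 := h.W_lb
  have h2 : (0 : ℝ) < 100 * Real.log (1 / q) / q := by
    have := h.L_pos
    have := h.hq
    positivity
  have h3 : (0 : ℝ) < (pr p q).W := lt_of_lt_of_le h2 h1
  exact_mod_cast h3

theorem gf_le (h : PSmall p q) : (((pr p q).g * (pr p q).f : ℕ) : ℝ) ≤ (pr p q).T := by
  have h2 := h.W_one
  have h3 : (pr p q).g * (pr p q).f ≤ (pr p q).T := by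
    rw [T_eq]
    calc (pr p q).g * (pr p q).f = (pr p q).g * ((pr p q).f * 1) := by ring
      _ ≤ _ := by
        gcongr
        exact h2
  exact_mod_cast h3

theorem deltaT_le (h : PSmall p q) (hT : PT p q) :
    deltaT (pr p q) (2 * q) (1 - p / 2) (1 - q) ≤ Real.exp (-(160 * (1 / p + Real.log (1 / q)))) := by
  set Θ := 1 / p + Real.log (1 / q) with hΘ
  have hTh := h.Th_big
  have hTh0 := h.Th_pos
  rw [← hΘ] at hTh hTh0
  have hTT : 25 * ((pr p q).T : ℝ) ^ 2 ≤ Real.exp (41 * Θ) := by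
    have h1 := hT.Tub
    have h2 : (0 : ℝ) ≤ (pr p q).T := by positivity
    have h3 := h.const_le 25 (by norm_num)
    calc 25 * ((pr p q).T : ℝ) ^ 2 ≤ Real.exp Θ * (Real.exp (20 * Θ)) ^ 2 := by gcongr
      _ = Real.exp (41 * Θ) := by
          rw [← Real.exp_nat_mul, ← Real.exp_add]
          congr 1
          push_cast
          ring
  have g1 := h.gfe_le
  have g2 := h.gf_le
  have t1 := h.bigW_le (25 * ((pr p q).T : ℝ) ^ 2) (by positivity)
  have t2 := h.spanW_le _ (25 * (((pr p q).g * (pr p q).f * (pr p q).e : ℕ) : ℝ) ^ 2) (6 / 5)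
    h.deltaD_nonneg h.deltaD_le65 (by positivity) (by norm_num)
  have t3 := h.spanW_le _ (25 * (((pr p q).g * (pr p q).f : ℕ) : ℝ) ^ 2) (3 / 10)
    h.deltaW_nonneg (h.deltaW_le hT.qsD) (by positivity) (by norm_num)
  rw [← hΘ] at t1 t2 t3
  have hgfe : 25 * (((pr p q).g * (pr p q).f * (pr p q).e : ℕ) : ℝ) ^ 2 ≤ Real.exp (41 * Θ) := by
    refine le_trans ?_ hTT
    gcongr
  have hgf : 25 * (((pr p q).g * (pr p q).f : ℕ) : ℝ) ^ 2 ≤ Real.exp (41 * Θ) := by
    refine le_trans ?_ hTT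
    gcongr
  have s1 : bigW (pr p q).k (2 * q) (25 * ((pr p q).T : ℝ) ^ 2) ≤ 2 * Real.exp (-(200 * Θ)) := by
    refine t1.trans ?_
    calc 2 * (25 * ((pr p q).T : ℝ) ^ 2) * Real.exp (-(19999 * Θ))
        ≤ 2 * Real.exp (41 * Θ) * Real.exp (-(19999 * Θ)) := by gcongr
      _ = 2 * Real.exp (41 * Θ + -(19999 * Θ)) := by rw [mul_assoc, ← Real.exp_add]
      _ ≤ 2 * Real.exp (-(200 * Θ)) := by
          gcongr
          linarith
  have s2 : spanW (pr p q).m (deltaD (pr p q).w (pr p q).d (pr p q).mw (2 * q) (1 - p / 2))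
      (25 * (((pr p q).g * (pr p q).f * (pr p q).e : ℕ) : ℝ) ^ 2) ≤ Real.exp (-(200 * Θ)) := by
    refine t2.trans ?_
    calc 25 * (((pr p q).g * (pr p q).f * (pr p q).e : ℕ) : ℝ) ^ 2 *
        Real.exp ((1 - 1234 * (6 / 5)) * Θ)
        ≤ Real.exp (41 * Θ) * Real.exp ((1 - 1234 * (6 / 5)) * Θ) := by gcongr
      _ = Real.exp (41 * Θ + (1 - 1234 * (6 / 5)) * Θ) := by rw [← Real.exp_add]
      _ ≤ Real.exp (-(200 * Θ)) := by
          gcongr
          linarith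
  have s3 : spanW (pr p q).m (deltaW (pr p q).w (pr p q).d (pr p q).mw (pr p q).e (pr p q).s
      (2 * q) (1 - p / 2) (1 - q))
      (25 * (((pr p q).g * (pr p q).f : ℕ) : ℝ) ^ 2) ≤ Real.exp (-(200 * Θ)) := by
    refine t3.trans ?_
    calc 25 * (((pr p q).g * (pr p q).f : ℕ) : ℝ) ^ 2 *
        Real.exp ((1 - 1234 * (3 / 10)) * Θ)
        ≤ Real.exp (41 * Θ) * Real.exp ((1 - 1234 * (3 / 10)) * Θ) := by gcongr
      _ = Real.exp (41 * Θ + (1 - 1234 * (3 / 10)) * Θ) := by rw [← Real.exp_add]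
      _ ≤ Real.exp (-(200 * Θ)) := by
          gcongr
          linarith
  have h4 := h.const_le 4 (by norm_num)
  rw [← hΘ] at h4
  unfold deltaT
  calc _ ≤ 2 * Real.exp (-(200 * Θ)) + Real.exp (-(200 * Θ)) + Real.exp (-(200 * Θ)) := by
        gcongr
    _ = 4 * Real.exp (-(200 * Θ)) := by ring
    _ ≤ Real.exp Θ * Real.exp (-(200 * Θ)) := by gcongr
    _ = Real.exp (Θ + -(200 * Θ)) := by rw [← Real.exp_add]
    _ ≤ Real.exp (-(160 * Θ)) := by
        gcongr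
        linarith

theorem deltaT_nonneg (h : PSmall p q) : 0 ≤ deltaT (pr p q) (2 * q) (1 - p / 2) (1 - q) := by
  have h1 := h.deltaD_nonneg
  have h2 := h.deltaW_nonneg
  have hq := h.hq
  unfold deltaT bigW spanW
  positivity

end PSmall

theorem pr_deltaT : ∃ η > 0, ∀ p q : ℝ, Small p q η →
    deltaT (pr p q) (2 * q) (1 - p / 2) (1 - q) ≤ ((pr p q).T : ℝ) ^ (-8 : ℤ) := by
  obtain ⟨η, hη, H⟩ := psmall_T
  refine ⟨η, hη, fun p q hs => ?_⟩
  obtain ⟨h, hT⟩ := H p q hs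
  refine (h.deltaT_le hT).trans ?_
  have h1 := hT.Tub
  have h2 : (0 : ℝ) < (pr p q).T := lt_of_lt_of_le (Real.exp_pos _) hT.Tlb
  have h3 : ((pr p q).T : ℝ) ^ (-8 : ℤ) = (((pr p q).T : ℝ) ^ 8)⁻¹ := by
    rw [zpow_neg]
    norm_cast
  rw [h3, Real.exp_neg]
  apply inv_anti₀ (by positivity)
  calc ((pr p q).T : ℝ) ^ 8 ≤ Real.exp (20 * (1 / p + Real.log (1 / q))) ^ 8 := by gcongr
    _ = Real.exp (160 * (1 / p + Real.log (1 / q))) := by
        rw [← Real.exp_nat_mul]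
        congr 1
        push_cast
        ring

namespace PSmall

variable {p q : ℝ}

/-- small powers of `q` are smaller than any constant -/
theorem q_rpow_le (h : PSmall p q) (c : ℝ) (hc : 1 / 100 ≤ c) : q ^ c ≤ Real.exp (-1000) := by
  rw [h.q_rpow]
  apply Real.exp_le_exp.mpr
  have h1 := h.hL
  have h2 : (10 : ℝ) ^ 5 ≤ 10 ^ 100 := by norm_num
  nlinarith

theorem exp_neg_Th (h : PSmall p q) (c : ℝ) (hc : 1 / 100 ≤ c) :
    Real.exp (-(c * (1 / p + Real.log (1 / q)))) ≤ Real.exp (-1000) := by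
  apply Real.exp_le_exp.mpr
  have h1 := h.Th_big
  have h2 : (10 : ℝ) ^ 5 ≤ 10 ^ 100 := by norm_num
  nlinarith

theorem exp_1000 : Real.exp (-1000) ≤ 1 / 20 * (1 / 8 ^ 200) * (1 / 8 ^ 110) := by
  have a1 : (20 : ℝ) ≤ Real.exp 6 := by
    calc (20 : ℝ) ≤ 8 ^ 2 := by norm_num
      _ ≤ Real.exp 3 ^ 2 := by
          gcongr
          exact eight_le
      _ = Real.exp 6 := by
          rw [← Real.exp_nat_mul]
          norm_num
  have a2 : (8 : ℝ) ^ 200 ≤ Real.exp 600 := by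
    calc (8 : ℝ) ^ 200 ≤ Real.exp 3 ^ 200 := by
          gcongr
          exact eight_le
      _ = Real.exp 600 := by
          rw [← Real.exp_nat_mul]
          norm_num
  have a3 : (8 : ℝ) ^ 110 ≤ Real.exp 330 := by
    calc (8 : ℝ) ^ 110 ≤ Real.exp 3 ^ 110 := by
          gcongr
          exact eight_le
      _ = Real.exp 330 := by
          rw [← Real.exp_nat_mul]
          norm_num
  have h1 : (20 : ℝ) * 8 ^ 200 * 8 ^ 110 ≤ Real.exp 1000 := by
    calc (20 : ℝ) * 8 ^ 200 * 8 ^ 110 ≤ Real.exp 6 * Real.exp 600 * Real.exp 330 := by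
          gcongr
      _ = Real.exp (6 + 600 + 330) := by rw [Real.exp_add, Real.exp_add]
      _ ≤ Real.exp 1000 := by
          apply Real.exp_le_exp.mpr
          norm_num
  rw [Real.exp_neg]
  have h2 : (1 : ℝ) / 20 * (1 / 8 ^ 200) * (1 / 8 ^ 110) = (20 * 8 ^ 200 * 8 ^ 110)⁻¹ := by
    rw [mul_inv, mul_inv, one_div, one_div, one_div]
  rw [h2]
  exact inv_anti₀ (by positivity) h1

theorem exp_1000' : Real.exp (-1000) ≤ 1 / 20 := by
  refine exp_1000.trans ?_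
  have h1 : (1 : ℝ) / 8 ^ 200 ≤ 1 := by
    rw [div_le_one (by positivity)]
    exact one_le_pow₀ (by norm_num)
  have h2 : (1 : ℝ) / 8 ^ 110 ≤ 1 := by
    rw [div_le_one (by positivity)]
    exact one_le_pow₀ (by norm_num)
  have h3 : (0 : ℝ) ≤ 1 / 8 ^ 110 := by positivity
  have h4 : (0 : ℝ) ≤ 1 / 8 ^ 200 := by positivity
  calc (1 : ℝ) / 20 * (1 / 8 ^ 200) * (1 / 8 ^ 110) ≤ 1 / 20 * 1 * 1 :=
        mul_le_mul (mul_le_mul_of_nonneg_left h1 (by norm_num)) h2 h3 (by norm_num)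
    _ = 1 / 20 := by norm_num

/-- `nearSum` of something tiny -/
theorem nearSum_small (δ : ℝ) (h0 : 0 ≤ δ) (h : δ ≤ Real.exp (-1000)) (M : ℕ) :
    nearSum δ M ≤ 1 / 20 := by
  have h1 := h.trans exp_1000
  have k1 : (1 : ℝ) / 8 ^ 110 ≤ 1 := by
    rw [div_le_one (by positivity)]
    exact one_le_pow₀ (by norm_num)
  have k2 : (0 : ℝ) ≤ 1 / 8 ^ 110 := by positivity
  have k3 : (0 : ℝ) ≤ 1 / 8 ^ 200 := by positivity
  have k4 : (1 : ℝ) / 8 ^ 200 ≤ 1 := by
    rw [div_le_one (by positivity)]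
    exact one_le_pow₀ (by norm_num)
  have h2 : δ ≤ 8 ^ (-200 : ℤ) := by
    refine h1.trans ?_
    have h3 : (8 : ℝ) ^ (-200 : ℤ) = 1 / 8 ^ 200 := by
      rw [zpow_neg, one_div]
      norm_cast
    rw [h3]
    calc (1 : ℝ) / 20 * (1 / 8 ^ 200) * (1 / 8 ^ 110) ≤ 1 * (1 / 8 ^ 200) * 1 :=
          mul_le_mul (mul_le_mul_of_nonneg_right (by norm_num) k3) k1 k2 (by positivity)
      _ = 1 / 8 ^ 200 := by rw [one_mul, mul_one]
  refine (nearSum_le δ h0 h2 M).trans ?_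
  calc (8 : ℝ) ^ 110 * δ ≤ 8 ^ 110 * (1 / 20 * (1 / 8 ^ 200) * (1 / 8 ^ 110)) :=
        mul_le_mul_of_nonneg_left h1 (by positivity)
    _ = 1 / 20 * (1 / 8 ^ 200) * (8 ^ 110 / 8 ^ 110) := by ring
    _ = 1 / 20 * (1 / 8 ^ 200) := by rw [div_self (by positivity), mul_one]
    _ ≤ 1 / 20 * 1 := mul_le_mul_of_nonneg_left k4 (by norm_num)
    _ = 1 / 20 := by norm_num

theorem sD_le (h : PSmall p q) (hT : PT p q) :
    1000 * ((pr p q).s : ℝ) * (pr p q).D ≤ Real.exp (1 / p + Real.log (1 / q)) := by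
  refine hT.sD.trans ?_
  have hL := h.L_pos
  have hp := h.hp
  have h1 : q ^ (-(1 / 2 + 1 / 10) : ℝ) ≤ Real.exp (Real.log (1 / q)) := by
    rw [h.q_rpow]
    apply Real.exp_le_exp.mpr
    linarith
  have h2 : 1 / p ≤ Real.exp (1 / p) := by
    have := Real.add_one_le_exp (1 / p)
    linarith
  rw [add_comm (1 / p) _, Real.exp_add]
  have h3 : 0 ≤ q ^ (-(1 / 2 + 1 / 10) : ℝ) := Real.rpow_nonneg h.hq.le _
  gcongr

theorem Rs_le (h : PSmall p q) (hT : PT p q) :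
    2 * ((pr p q).Rs : ℝ) + 1 ≤ 5 * Real.exp (21 * (1 / p + Real.log (1 / q))) := by
  have h1 : ((pr p q).Rs : ℝ) = 2 * (1000 * (pr p q).s * (pr p q).D) * (pr p q).T := by
    unfold Par.Rs
    push_cast
    ring
  have h2 := h.sD_le hT
  have h3 := hT.Tub
  have h0 : (0 : ℝ) ≤ (pr p q).T := by positivity
  have h4 : ((pr p q).Rs : ℝ) ≤ 2 * Real.exp (21 * (1 / p + Real.log (1 / q))) := by
    rw [h1]
    calc 2 * (1000 * ((pr p q).s : ℝ) * (pr p q).D) * (pr p q).T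
        ≤ 2 * Real.exp (1 / p + Real.log (1 / q)) * Real.exp (20 * (1 / p + Real.log (1 / q))) := by
          gcongr
      _ = 2 * Real.exp (21 * (1 / p + Real.log (1 / q))) := by
          rw [mul_assoc, ← Real.exp_add]
          ring_nf
  have h5 : 1 ≤ Real.exp (21 * (1 / p + Real.log (1 / q))) := by
    apply Real.one_le_exp
    have := h.Th_pos
    positivity
  linarith

theorem Rs_sq_le (h : PSmall p q) (hT : PT p q) :
    (2 * ((pr p q).Rs : ℝ) + 1) ^ 2 ≤ Real.exp (43 * (1 / p + Real.log (1 / q))) := by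
  have h1 := h.Rs_le hT
  have h2 := h.const_le 25 (by norm_num)
  calc (2 * ((pr p q).Rs : ℝ) + 1) ^ 2 ≤ (5 * Real.exp (21 * (1 / p + Real.log (1 / q)))) ^ 2 := by
        gcongr
    _ = 25 * Real.exp (42 * (1 / p + Real.log (1 / q))) := by
        rw [mul_pow, ← Real.exp_nat_mul]
        push_cast
        ring_nf
    _ ≤ Real.exp (1 / p + Real.log (1 / q)) * Real.exp (42 * (1 / p + Real.log (1 / q))) := by gcongr
    _ = _ := by
        rw [← Real.exp_add]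
        ring_nf

/-- `q Θ` is tiny -/
theorem qTh (h : PSmall p q) : q * (1 / p + Real.log (1 / q)) ≤ 1 / 10 ^ 90 := by
  have hp := h.hp
  have hq := h.hq
  have hL := h.L_pos
  have hL1 := h.L_one
  have h1 : q * (1 / p) ≤ 1 / 10 ^ 100 := by
    calc q * (1 / p) = Real.sqrt q ^ 2 / p := by rw [Real.sq_sqrt hq.le]; ring
      _ = Real.sqrt q * (Real.sqrt q / p) := by ring
      _ ≤ 1 / 10 ^ 100 * 1 := by
          have h2 : Real.sqrt q / p ≤ 1 := by rw [div_le_one hp]; exact h.sqrt_le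
          have h3 := h.sqrt_small
          gcongr
      _ = 1 / 10 ^ 100 := by norm_num
  have h2 : q * Real.log (1 / q) ≤ 1 / 10 ^ 100 := by
    have h3 := h.hqL
    have h4 : q * Real.log (1 / q) ≤ q * Real.log (1 / q) ^ 2 := by
      gcongr
      nlinarith
    have h5 : p ^ 2 ≤ 1 := pow_le_one₀ hp.le h.p_lt_one.le
    have h6 : (1 : ℝ) / 10 ^ 100 * p ^ 2 ≤ 1 / 10 ^ 100 * 1 := by gcongr
    linarith
  have h3 : (1 : ℝ) / 10 ^ 100 + 1 / 10 ^ 100 ≤ 1 / 10 ^ 90 := by norm_num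
  linarith

theorem Th_le (h : PSmall p q) : 10 ^ 80 * (1 / p + Real.log (1 / q)) ≤ 1 / q := by
  have h1 := h.qTh
  rw [le_div_iff₀ h.hq]
  have h2 : (10 : ℝ) ^ 80 * (1 / 10 ^ 90) ≤ 1 := by norm_num
  have h3 : 10 ^ 80 * (1 / p + Real.log (1 / q)) * q = 10 ^ 80 * (q * (1 / p + Real.log (1 / q))) := by
    ring
  rw [h3]
  have h4 : (10 : ℝ) ^ 80 * (q * (1 / p + Real.log (1 / q))) ≤ 10 ^ 80 * (1 / 10 ^ 90) := by gcongr
  linarith

theorem e12 : (10 : ℝ) ^ (-12 : ℝ) = 1 / 10 ^ 12 := by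
  rw [Real.rpow_neg (by norm_num)]
  norm_num

theorem D_one' (h : PSmall p q) : ((pr p q).s : ℝ) ≤ (pr p q).s * (pr p q).D := by
  have := h.D_one
  have h2 : (0 : ℝ) ≤ (pr p q).s := by positivity
  nlinarith

/-- one term of the chain sum -/
theorem chain_term (h : PSmall p q) (hT : PT p q) (N : ℕ) (hN : (pr p q).Rh ≤ N) :
    4 * ((2 * ((pr p q).Rs : ℝ) + 1) ^ 2 * (2 * q) *
      (4 * (2 * q) * (1 + 2 / (1600 * q))) ^ ((N - 1) / 4) *
      Real.exp ((1600 * q) * (N * (pr p q).v + 2 * ((pr p q).k + 1) * ((N - 1) / 4) : ℕ))) ≤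
    Real.exp (44 * (1 / p + Real.log (1 / q)) - 10 / q) := by
  have hp := h.hp
  have hq := h.hq
  have hRs := h.Rs_sq_le hT
  have hqs := h.hqe
  have hRh := h.Rh_lb
  have hTh := h.Th_big
  -- the base
  have hbase : 4 * (2 * q) * (1 + 2 / (1600 * q)) ≤ Real.exp (-4) := by
    have e1 : 4 * (2 * q) * (1 + 2 / (1600 * q)) = 8 * q + 1 / 100 := by
      field_simp
      ring
    have e2 : 8 * q + 1 / 100 ≤ 12 / 1000 := by
      have : 8 * q ≤ 8 * (1 / 10 ^ 100) := by gcongr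
      have h3 : 8 * ((1 : ℝ) / 10 ^ 100) ≤ 1 / 1000 := by norm_num
      linarith
    have e3 : (12 : ℝ) / 1000 ≤ Real.exp (-4) := by
      have e4 : (36 : ℝ) / 100 ≤ Real.exp (-1) := by
        have := Real.exp_neg_one_gt_d9
        linarith
      calc (12 : ℝ) / 1000 ≤ (36 / 100) ^ 4 := by norm_num
        _ ≤ Real.exp (-1) ^ 4 := by gcongr
        _ = Real.exp (-4) := by rw [← Real.exp_nat_mul]; norm_num
    rw [e1]
    linarith
  have hbase0 : 0 ≤ 4 * (2 * q) * (1 + 2 / (1600 * q)) := by positivity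
  have hpow : (4 * (2 * q) * (1 + 2 / (1600 * q))) ^ ((N - 1) / 4) ≤ Real.exp (-((N : ℝ) - 4)) := by
    calc (4 * (2 * q) * (1 + 2 / (1600 * q))) ^ ((N - 1) / 4)
        ≤ Real.exp (-4) ^ ((N - 1) / 4) := pow_le_pow_left₀ hbase0 hbase _
      _ = Real.exp ((((N - 1) / 4 : ℕ) : ℝ) * (-4)) := by rw [← Real.exp_nat_mul]
      _ ≤ _ := by
          apply Real.exp_le_exp.mpr
          have h1 : N ≤ 4 * ((N - 1) / 4) + 4 := by omega
          have h2 : (N : ℝ) ≤ 4 * (((N - 1) / 4 : ℕ) : ℝ) + 4 := by exact_mod_cast h1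
          linarith
  -- the exponent
  have hexp : (1600 * q) * ((N * (pr p q).v + 2 * ((pr p q).k + 1) * ((N - 1) / 4) : ℕ) : ℝ) ≤
      (N : ℝ) / 2 := by
    have h1 : (((N - 1) / 4 : ℕ) : ℝ) ≤ (N : ℝ) / 2 := by
      have : 2 * ((N - 1) / 4) ≤ N := by omega
      have h2 : (2 : ℝ) * (((N - 1) / 4 : ℕ) : ℝ) ≤ N := by exact_mod_cast this
      linarith
    have h2 : (((pr p q).k : ℕ) : ℝ) + 1 ≤ (pr p q).s := by
      rw [k_eq, s_eq]
      linarith
    have h3 : ((N * (pr p q).v + 2 * ((pr p q).k + 1) * ((N - 1) / 4) : ℕ) : ℝ) ≤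
        N * (2001 * ((pr p q).s * (pr p q).D)) := by
      push_cast
      have h4 := h.D_one'
      rw [v_eq]
      have h5 : 2 * ((((pr p q).k : ℕ) : ℝ) + 1) * (((N - 1) / 4 : ℕ) : ℝ) ≤
          2 * ((pr p q).s * (pr p q).D) * ((N : ℝ) / 2) := by
        gcongr
        linarith
      nlinarith
    have h4 := hT.qsD
    rw [e12] at h4
    calc (1600 * q) * ((N * (pr p q).v + 2 * ((pr p q).k + 1) * ((N - 1) / 4) : ℕ) : ℝ)
        ≤ (1600 * q) * (N * (2001 * ((pr p q).s * (pr p q).D))) := by gcongr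
      _ = N * (1600 * 2001 * (q * (pr p q).s * (pr p q).D)) := by ring
      _ ≤ N * (1600 * 2001 * (1 / 10 ^ 12)) := by gcongr
      _ ≤ (N : ℝ) / 2 := by
          have : (0 : ℝ) ≤ N := by positivity
          nlinarith
  have hNR : (20 : ℝ) / q ≤ N := hRh.trans (by exact_mod_cast hN)
  have hq8 : 8 * q ≤ 1 := by
    have h3 : 8 * ((1 : ℝ) / 10 ^ 100) ≤ 1 := by norm_num
    linarith
  calc 4 * ((2 * ((pr p q).Rs : ℝ) + 1) ^ 2 * (2 * q) *
      (4 * (2 * q) * (1 + 2 / (1600 * q))) ^ ((N - 1) / 4) *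
      Real.exp ((1600 * q) * (N * (pr p q).v + 2 * ((pr p q).k + 1) * ((N - 1) / 4) : ℕ)))
      = (8 * q) * ((2 * ((pr p q).Rs : ℝ) + 1) ^ 2 *
      (4 * (2 * q) * (1 + 2 / (1600 * q))) ^ ((N - 1) / 4) *
      Real.exp ((1600 * q) * (N * (pr p q).v + 2 * ((pr p q).k + 1) * ((N - 1) / 4) : ℕ))) := by
        ring
    _ ≤ 1 * (Real.exp (43 * (1 / p + Real.log (1 / q))) * Real.exp (-((N : ℝ) - 4)) *
        Real.exp ((N : ℝ) / 2)) := by gcongr
    _ = Real.exp (43 * (1 / p + Real.log (1 / q)) + -((N : ℝ) - 4) + (N : ℝ) / 2) := by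
        rw [one_mul, Real.exp_add, Real.exp_add]
    _ ≤ _ := by
        apply Real.exp_le_exp.mpr
        have h5 : (4 : ℝ) ≤ 10 ^ 100 := by norm_num
        have h6 : 10 / q = 1 / 2 * (20 / q) := by ring
        rw [h6]
        linarith

theorem chain_sum (h : PSmall p q) (hT : PT p q) :
    ∑ N ∈ Finset.Icc (pr p q).Rh (pr p q).Rs, 4 * ((2 * ((pr p q).Rs : ℝ) + 1) ^ 2 * (2 * q) *
      (4 * (2 * q) * (1 + 2 / (1600 * q))) ^ ((N - 1) / 4) *
      Real.exp ((1600 * q) * (N * (pr p q).v + 2 * ((pr p q).k + 1) * ((N - 1) / 4) : ℕ))) ≤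
    1 / 20 := by
  have h1 := h.Rs_sq_le hT
  have hRs0 : (0 : ℝ) ≤ (pr p q).Rs := by positivity
  have hcard : ((Finset.Icc (pr p q).Rh (pr p q).Rs).card : ℝ) ≤
      Real.exp (43 * (1 / p + Real.log (1 / q))) := by
    refine le_trans ?_ h1
    have h2 : (Finset.Icc (pr p q).Rh (pr p q).Rs).card ≤ (pr p q).Rs + 1 := by
      rw [Nat.card_Icc]
      omega
    have h3 : ((Finset.Icc (pr p q).Rh (pr p q).Rs).card : ℝ) ≤ (pr p q).Rs + 1 := by
      exact_mod_cast h2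
    nlinarith
  calc _ ≤ ∑ N ∈ Finset.Icc (pr p q).Rh (pr p q).Rs,
        Real.exp (44 * (1 / p + Real.log (1 / q)) - 10 / q) :=
        Finset.sum_le_sum fun N hN => h.chain_term hT N (Finset.mem_Icc.mp hN).1
    _ = ((Finset.Icc (pr p q).Rh (pr p q).Rs).card : ℝ) *
        Real.exp (44 * (1 / p + Real.log (1 / q)) - 10 / q) := by
        rw [Finset.sum_const, nsmul_eq_mul]
    _ ≤ Real.exp (43 * (1 / p + Real.log (1 / q))) *
        Real.exp (44 * (1 / p + Real.log (1 / q)) - 10 / q) := by gcongr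
    _ = Real.exp (43 * (1 / p + Real.log (1 / q)) + (44 * (1 / p + Real.log (1 / q)) - 10 / q)) := by
        rw [← Real.exp_add]
    _ ≤ Real.exp (-1000) := by
        apply Real.exp_le_exp.mpr
        have h5 := h.Th_le
        have h6 := h.Th_big
        have h7 : 10 / q = 10 * (1 / q) := by ring
        rw [h7]
        have h8 : (1000 : ℝ) ≤ 10 ^ 80 * 10 ^ 100 := by norm_num
        have h9 : (10 : ℝ) ^ 80 * 10 ^ 100 ≤ 10 ^ 80 * (1 / p + Real.log (1 / q)) := by gcongr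
        have h10 : 87 * (1 / p + Real.log (1 / q)) ≤ 10 ^ 80 * (1 / p + Real.log (1 / q)) := by
          gcongr
          norm_num
        linarith
    _ ≤ _ := exp_1000'

theorem deltaS_le (h : PSmall p q) (hT : PT p q) :
    deltaS (pr p q) (prmT p q) (2 * q) (1 - p / 2) (1 - q) (1600 * q) ≤ 1 / 2 := by
  have hTh0 := h.Th_pos
  have h1 := h.Rs_sq_le hT
  have t1 := h.bigW_le ((2 * ((pr p q).Rs : ℝ) + 1) ^ 2) (by positivity)
  have t2 := h.spanW_le _ ((2 * ((pr p q).Rs : ℝ) + 1) ^ 2) (6 / 5)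
    h.deltaD_nonneg h.deltaD_le65 (by positivity) (by norm_num)
  have t5 := h.spanW_le _ ((2 * ((pr p q).Rs : ℝ) + 1) ^ 2) (3 / 10)
    h.deltaW_nonneg (h.deltaW_le hT.qsD) (by positivity) (by norm_num)
  have t3 := h.chain_sum hT
  have hE : 2 * Real.exp (43 * (1 / p + Real.log (1 / q))) *
      Real.exp ((1 - 1234 * (3 / 10)) * (1 / p + Real.log (1 / q))) ≤ 1 / 20 := by
    have h2 := h.const_le 2 (by norm_num)
    calc 2 * Real.exp (43 * (1 / p + Real.log (1 / q))) *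
        Real.exp ((1 - 1234 * (3 / 10)) * (1 / p + Real.log (1 / q)))
        ≤ Real.exp (1 / p + Real.log (1 / q)) * Real.exp (43 * (1 / p + Real.log (1 / q))) *
        Real.exp ((1 - 1234 * (3 / 10)) * (1 / p + Real.log (1 / q))) := by gcongr
      _ = Real.exp (-((3252 / 10) * (1 / p + Real.log (1 / q)))) := by
          rw [← Real.exp_add, ← Real.exp_add]
          congr 1
          ring
      _ ≤ Real.exp (-1000) := h.exp_neg_Th _ (by norm_num)
      _ ≤ _ := exp_1000'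
  have s1 : bigW (pr p q).k (2 * q) ((2 * ((pr p q).Rs : ℝ) + 1) ^ 2) ≤ 1 / 20 := by
    refine t1.trans (le_trans ?_ hE)
    have e1 : Real.exp (-(19999 * (1 / p + Real.log (1 / q)))) ≤
        Real.exp ((1 - 1234 * (3 / 10)) * (1 / p + Real.log (1 / q))) := by
      apply Real.exp_le_exp.mpr
      linarith
    gcongr
  have s2 : spanW (pr p q).m (deltaD (pr p q).w (pr p q).d (pr p q).mw (2 * q) (1 - p / 2))
      ((2 * ((pr p q).Rs : ℝ) + 1) ^ 2) ≤ 1 / 20 := by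
    refine t2.trans (le_trans ?_ hE)
    have e1 : Real.exp ((1 - 1234 * (6 / 5)) * (1 / p + Real.log (1 / q))) ≤
        Real.exp ((1 - 1234 * (3 / 10)) * (1 / p + Real.log (1 / q))) := by
      apply Real.exp_le_exp.mpr
      linarith
    have e2 : (2 * ((pr p q).Rs : ℝ) + 1) ^ 2 ≤ 2 * Real.exp (43 * (1 / p + Real.log (1 / q))) := by
      have := Real.exp_pos (43 * (1 / p + Real.log (1 / q)))
      linarith
    gcongr
  have s5 : spanW (pr p q).m (deltaW (pr p q).w (pr p q).d (pr p q).mw (pr p q).e (pr p q).s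
      (2 * q) (1 - p / 2) (1 - q)) ((2 * ((pr p q).Rs : ℝ) + 1) ^ 2) ≤ 1 / 20 := by
    refine t5.trans (le_trans ?_ hE)
    have e2 : (2 * ((pr p q).Rs : ℝ) + 1) ^ 2 ≤ 2 * Real.exp (43 * (1 / p + Real.log (1 / q))) := by
      have := Real.exp_pos (43 * (1 / p + Real.log (1 / q)))
      linarith
    gcongr
  have s4 : (4 * ((pr p q).e : ℝ) + 4) ^ 2 *
      deltaD (pr p q).w (pr p q).d (pr p q).mw (2 * q) (1 - p / 2) ≤ 1 / 20 := by
    have e1 := h.edeltaD_le hT.qsD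
    have e2 := h.q_rpow_le (2 / 5) (by norm_num)
    have e3 : (4 * ((pr p q).e : ℝ) + 4) ^ 2 *
        deltaD (pr p q).w (pr p q).d (pr p q).mw (2 * q) (1 - p / 2) ≤
        (4 * ((pr p q).e : ℝ) + 6 * (pr p q).s + 4) ^ 2 *
        deltaD (pr p q).w (pr p q).d (pr p q).mw (2 * q) (1 - p / 2) := by
      have e4 : 4 * ((pr p q).e : ℝ) + 4 ≤ 4 * ((pr p q).e : ℝ) + 6 * (pr p q).s + 4 := by
        have : (0 : ℝ) ≤ (pr p q).s := by positivity
        linarith
      have e5 := h.deltaD_nonneg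
      gcongr
    exact e3.trans (e1.trans (e2.trans exp_1000'))
  have s6 := nearSum_small _ h.deltaW_nonneg ((h.deltaW_le hT.qsD).trans (h.q_rpow_le (3 / 10) (by norm_num)))
    (3 * (pr p q).g * (pr p q).f)
  have s7 := nearSum_small _ h.deltaT_nonneg ((h.deltaT_le hT).trans (h.exp_neg_Th 160 (by norm_num)))
    (prmT p q)
  unfold deltaS
  calc _ ≤ (1 / 20 : ℝ) + 1 / 20 + 1 / 20 + 1 / 20 + 1 / 20 + 1 / 20 + 1 / 20 := by gcongr
    _ ≤ 1 / 2 := by norm_num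

end PSmall

theorem pr_deltaS : ∃ η > 0, ∀ p q : ℝ, Small p q η →
    deltaS (pr p q) (prmT p q) (2 * q) (1 - p / 2) (1 - q) (1600 * q) ≤ 1 / 2 := by
  obtain ⟨η, hη, H⟩ := psmall_T
  exact ⟨η, hη, fun p q hs => (H p q hs).1.deltaS_le (H p q hs).2⟩

end TSB
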