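import Pool.Agent.TSB.Defs
import Pool.Agent.TSB.Param1

open MeasureTheory
open scoped Classical

namespace TSB

private lemma p5_half (n : ℕ) (a : ℝ) (h : (n : ℝ) ≤ a) : Real.exp (-a) ≤ (1 / 2 : ℝ) ^ n := by
  have h1 : Real.exp (-1) ≤ 1 / 2 := by
    rw [Real.exp_neg]
    have := Real.add_one_le_exp (1 : ℝ)
    rw [one_div]
    exact inv_anti₀ (by norm_num) (by linarith)
  calc Real.exp (-a) ≤ Real.exp (n * (-1)) := Real.exp_le_exp.2 (by linarith)
    _ = Real.exp (-1) ^ n := by rw [Real.exp_nat_mul]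
    _ ≤ (1 / 2) ^ n := pow_le_pow_left₀ (Real.exp_pos _).le h1 n

private lemma p5_one_sub (x : ℝ) (h0 : 0 ≤ x) (h1 : x ≤ 1 / 2) : Real.exp (-(2 * x)) ≤ 1 - x := by
  rw [Real.exp_neg]
  have h2 := Real.add_one_le_exp (2 * x)
  have h3 : (0 : ℝ) < 2 * x + 1 := by linarith
  calc (Real.exp (2 * x))⁻¹ ≤ (2 * x + 1)⁻¹ := inv_anti₀ h3 h2
    _ ≤ 1 - x := by
      rw [inv_le_iff_one_le_mul₀ h3]
      nlinarith

private lemma p5_pow (q : ℝ) (hq : 0 < q) (hq1 : q ≤ 1 / 2) (n : ℕ) (a : ℝ)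
    (h : 2 * q * n ≤ a) : Real.exp (-a) ≤ (1 - q) ^ n := by
  calc Real.exp (-a) ≤ Real.exp (n * (-(2 * q))) := Real.exp_le_exp.2 (by linarith)
    _ = Real.exp (-(2 * q)) ^ n := by rw [Real.exp_nat_mul]
    _ ≤ (1 - q) ^ n := pow_le_pow_left₀ (Real.exp_pos _).le (p5_one_sub q hq.le hq1) n

/-- factorial bound -/
private lemma p5_fact (k : ℕ) (u : ℝ) (hu : 0 ≤ u) (hk : 1 ≤ k * u) :
    Real.exp (-k) ≤ (k.factorial : ℝ) * u ^ k := by
  have h1 := Real.pow_div_factorial_le_exp (k : ℝ) (by positivity) k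
  have hf : (0 : ℝ) < k.factorial := by exact_mod_cast Nat.factorial_pos k
  rw [div_le_iff₀ hf] at h1
  have h2 : (1 : ℝ) ≤ (k * u) ^ k := one_le_pow₀ hk
  rw [mul_pow] at h2
  rw [Real.exp_neg]
  have h3 : (k : ℝ) ^ k * u ^ k ≤ Real.exp k * k.factorial * u ^ k :=
    mul_le_mul_of_nonneg_right h1 (by positivity)
  have hE := Real.exp_pos (k : ℝ)
  rw [inv_le_iff_one_le_mul₀ hE]
  nlinarith

private lemma p5_prod (j N : ℕ) (hjN : j ≤ N) (u : ℝ) (hu : 0 ≤ u) (hk : 1 ≤ ((N - j : ℕ) : ℝ) * u) :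
    Real.exp (-(N : ℝ)) ≤ ∏ r ∈ Finset.Icc (j + 1) N, ((r : ℝ) * u) := by
  have h1 : Finset.Icc (j + 1) N = Finset.Ico (j + 1) (N + 1) := by
    ext x; simp only [Finset.mem_Icc, Finset.mem_Ico]; omega
  rw [h1, Finset.prod_Ico_eq_prod_range]
  have h2 : N + 1 - (j + 1) = N - j := by omega
  rw [h2]
  calc Real.exp (-(N : ℝ)) ≤ Real.exp (-((N - j : ℕ) : ℝ)) := by
        apply Real.exp_le_exp.2
        have : ((N - j : ℕ) : ℝ) ≤ N := by exact_mod_cast Nat.sub_le _ _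
        linarith
    _ ≤ ((N - j).factorial : ℝ) * u ^ (N - j) := p5_fact _ u hu hk
    _ = ∏ i ∈ Finset.range (N - j), (((i + 1 : ℕ) : ℝ) * u) := by
        rw [Finset.prod_mul_distrib, Finset.prod_const, Finset.card_range,
          ← Finset.prod_range_add_one_eq_factorial]
        push_cast
        rfl
    _ ≤ ∏ i ∈ Finset.range (N - j), (((j + 1 + i : ℕ) : ℝ) * u) := by
        apply Finset.prod_le_prod
        · intro i _; positivity
        · intro i _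
          apply mul_le_mul_of_nonneg_right _ hu
          exact_mod_cast (by omega)

private lemma p5_mid (q : ℝ) (hq : 0 < q) (hq1 : q ≤ 1 / 2) (j N : ℕ) (hjN : j ≤ N)
    (hk : 20 ≤ ((N - j : ℕ) : ℝ) * q) :
    Real.exp (-(4 * N + 8 * q * N * (N + 1))) ≤
      ∏ r ∈ Finset.Icc (j + 1) N, ((r : ℝ) / 20 * q * (1 - q) ^ (2 * r)) ^ 4 := by
  rw [Finset.prod_pow]
  have h1 : Real.exp (-(4 * N + 8 * q * N * (N + 1)))
      = (Real.exp (-(N : ℝ)) * Real.exp (-(2 * q * (N * (N + 1))))) ^ 4 := by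
    rw [← Real.exp_add, ← Real.exp_nat_mul]
    congr 1
    push_cast
    ring
  rw [h1]
  refine pow_le_pow_left₀ (by positivity) ?_ 4
  rw [Finset.prod_mul_distrib]
  refine mul_le_mul ?_ ?_ (by positivity) ?_
  · have h2 := p5_prod j N hjN (q / 20) (by positivity) (by linarith)
    refine h2.trans (le_of_eq ?_)
    apply Finset.prod_congr rfl
    intro r _
    ring
  · rw [Finset.prod_pow_eq_pow_sum]
    apply p5_pow q hq hq1
    have h3 : ∑ r ∈ Finset.Icc (j + 1) N, 2 * r ≤ N * (N + 1) := by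
      calc ∑ r ∈ Finset.Icc (j + 1) N, 2 * r ≤ ∑ r ∈ Finset.range (N + 1), 2 * r := by
            apply Finset.sum_le_sum_of_subset
            intro x hx
            simp only [Finset.mem_Icc, Finset.mem_range] at hx ⊢
            omega
        _ = N * (N + 1) := by
            rw [← Finset.mul_sum, mul_comm 2, Finset.sum_range_id_mul_two]
            simp [mul_comm]
    have h4 : ((∑ r ∈ Finset.Icc (j + 1) N, 2 * r : ℕ) : ℝ) ≤ N * (N + 1) := by exact_mod_cast h3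
    exact mul_le_mul_of_nonneg_left h4 (by linarith)
  · apply Finset.prod_nonneg
    intro r _
    positivity

private lemma p5_outer (q : ℝ) (hq : 0 < q) (hq1 : q ≤ 1 / 2) (N W : ℕ) (hN : 40 ≤ q * N) :
    Real.exp (-(8 / q)) ≤ ∏ r ∈ Finset.Icc (N + 1) W, (1 - (1 - q) ^ (2 * r - 1)) ^ 4 := by
  rw [Finset.prod_pow]
  have h1 : Real.exp (-(8 / q)) = Real.exp (-(2 / q)) ^ 4 := by
    rw [← Real.exp_nat_mul]
    congr 1
    push_cast
    ring
  rw [h1]
  refine pow_le_pow_left₀ (by positivity) ?_ 4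
  have hx : ∀ r ∈ Finset.Icc (N + 1) W, (1 - q) ^ (2 * r - 1) ≤ 1 / 2 := by
    intro r hr
    rw [Finset.mem_Icc] at hr
    have hN1 : (N : ℝ) ≤ ((2 * r - 1 : ℕ) : ℝ) := by exact_mod_cast (by omega)
    calc (1 - q) ^ (2 * r - 1) ≤ Real.exp (-q) ^ (2 * r - 1) :=
          pow_le_pow_left₀ (by linarith) (by linarith [Real.add_one_le_exp (-q)]) _
      _ = Real.exp (((2 * r - 1 : ℕ) : ℝ) * (-q)) := by rw [← Real.exp_nat_mul]
      _ ≤ Real.exp (-1) := by
          apply Real.exp_le_exp.2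
          nlinarith
      _ ≤ 1 / 2 := by
          rw [Real.exp_neg]
          have := Real.add_one_le_exp (1 : ℝ)
          rw [one_div]
          exact inv_anti₀ (by norm_num) (by linarith)
  have hsum : ∑ r ∈ Finset.Icc (N + 1) W, (1 - q) ^ (2 * r - 1) ≤ 1 / q := by
    calc ∑ r ∈ Finset.Icc (N + 1) W, (1 - q) ^ (2 * r - 1)
        ≤ ∑ r ∈ Finset.Icc (N + 1) W, (1 - q) ^ r := by
          apply Finset.sum_le_sum
          intro r hr
          rw [Finset.mem_Icc] at hr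
          exact pow_le_pow_of_le_one (by linarith) (by linarith) (by omega)
      _ ≤ ∑ r ∈ Finset.range (W + 1), (1 - q) ^ r := by
          apply Finset.sum_le_sum_of_subset_of_nonneg
          · intro x hx
            simp only [Finset.mem_Icc, Finset.mem_range] at hx ⊢
            omega
          · intro i _ _
            exact pow_nonneg (by linarith) _
      _ ≤ 1 / q := by
          have h2 := geom_sum_eq (x := 1 - q) (by linarith) (W + 1)
          rw [h2]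
          have h3 : ((1 - q) ^ (W + 1) - 1) / (1 - q - 1) = (1 - (1 - q) ^ (W + 1)) / q := by
            rw [div_eq_div_iff (by linarith) (by linarith)]
            ring
          rw [h3]
          apply div_le_div_of_nonneg_right _ hq.le
          have := pow_nonneg (show (0 : ℝ) ≤ 1 - q by linarith) (W + 1)
          linarith
  calc Real.exp (-(2 / q)) ≤ Real.exp (-(2 * ∑ r ∈ Finset.Icc (N + 1) W, (1 - q) ^ (2 * r - 1))) := by
        apply Real.exp_le_exp.2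
        have : 2 / q = 2 * (1 / q) := by ring
        linarith
    _ = ∏ r ∈ Finset.Icc (N + 1) W, Real.exp (-(2 * (1 - q) ^ (2 * r - 1))) := by
        rw [← Real.exp_sum]
        congr 1
        rw [Finset.mul_sum, ← Finset.sum_neg_distrib]
    _ ≤ ∏ r ∈ Finset.Icc (N + 1) W, (1 - (1 - q) ^ (2 * r - 1)) := by
        apply Finset.prod_le_prod
        · intro i _; positivity
        · intro r hr
          exact p5_one_sub _ (pow_nonneg (by linarith) _) (hx r hr)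

private lemma p5_comb {a1 a2 a3 a4 a5 a6 a7 b1 b2 b3 b4 b5 b6 b7 : ℝ} (h1 : 0 ≤ a1) (h2 : 0 ≤ a2)
    (h3 : 0 ≤ a3) (h4 : 0 ≤ a4) (h5 : 0 ≤ a5) (h6 : 0 ≤ a6) (h7 : 0 ≤ a7)
    (k1 : a1 ≤ b1) (k2 : a2 ≤ b2) (k3 : a3 ≤ b3) (k4 : a4 ≤ b4) (k5 : a5 ≤ b5) (k6 : a6 ≤ b6)
    (k7 : a7 ≤ b7) : a1 * a2 * a3 * a4 * a5 * a6 * a7 ≤ b1 * b2 * b3 * b4 * b5 * b6 * b7 := by
  have l1 := h1.trans k1
  have l2 := h2.trans k2
  have l3 := h3.trans k3
  have l4 := h4.trans k4
  have l5 := h5.trans k5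
  have l6 := h6.trans k6
  gcongr

private lemma p5_main (p q : ℝ) (hp : 0 < p) (hq : 0 < q) (hp1 : p ≤ 1 / 10 ^ 12)
    (hq1 : q ≤ 1 / 10 ^ 12) (hqp : q ≤ 1 / 10 ^ 12 * p ^ 2)
    (hL : q * (Real.log (1 / q)) ^ 2 ≤ 1 / 10 ^ 12 * p ^ 2) (hL1 : 10 ^ 12 ≤ Real.log (1 / q)) :
    Real.exp (-(19000 / q)) ≤ nucLow (pr p q) p q := by
  set L : ℝ := Real.log (1 / q) with hLdef
  have hlogq : Real.log q = -L := by rw [hLdef, one_div, Real.log_inv]; ring
  have hpq : q ≤ p := by nlinarith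
  have hlogp : -L ≤ Real.log p := by rw [← hlogq]; exact Real.log_le_log hq hpq
  have hp0 : p ≤ 1 := hp1.trans (by norm_num)
  -- key ratio bounds
  have hX : 10 ^ 12 ≤ 1 / q := by
    rw [le_div_iff₀ hq]; linarith
  have hLp : L ^ 2 / p ^ 2 ≤ 1 / 10 ^ 12 * (1 / q) := by
    rw [div_le_iff₀ (by positivity)]
    have : 1 / 10 ^ 12 * (1 / q) * p ^ 2 = (1 / 10 ^ 12 * p ^ 2) / q := by ring
    rw [this, le_div_iff₀ hq]
    linarith
  have hL0 : 0 < L := lt_of_lt_of_le (by norm_num) hL1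
  have hLp1 : L / p ^ 2 ≤ 1 / 10 ^ 12 * (1 / q) := by
    refine le_trans ?_ hLp
    gcongr
    nlinarith
  have hLp2 : L ^ 2 / p ≤ 1 / 10 ^ 12 * (1 / q) := by
    refine le_trans ?_ hLp
    apply div_le_div_of_nonneg_left (by positivity) (by positivity)
    nlinarith
  have hLp3 : L / p ≤ 1 / 10 ^ 12 * (1 / q) := by
    refine le_trans ?_ hLp2
    gcongr
    nlinarith
  have hpinv : 10 ^ 12 ≤ 1 / p := by
    rw [le_div_iff₀ hp]; linarith
  -- the parameters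
  set g1 : ℕ := ⌈20 / p⌉₊ with hg1
  set w : ℕ := ⌈100 * L / p⌉₊ with hw
  set Rh : ℕ := ⌈20 / q⌉₊ with hRh
  set j0 : ℕ := 100 * (g1 + 10) with hj0
  set r2 : ℕ := 300 * (w + 10) with hr2
  have e1 : (pr p q).j0 = j0 := rfl
  have e2 : (pr p q).g1 = g1 := rfl
  have e3 : (pr p q).r2 = r2 := rfl
  have e4 : (pr p q).Rh = Rh := rfl
  have hg1l : 20 / p ≤ g1 := Nat.le_ceil _
  have hg1u : (g1 : ℝ) ≤ 20 / p + 1 := (Nat.ceil_lt_add_one (by positivity)).le
  have hwu : (w : ℝ) ≤ 100 * L / p + 1 := (Nat.ceil_lt_add_one (by positivity)).le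
  have hRl : 20 / q ≤ Rh := Nat.le_ceil _
  have hRu : (Rh : ℝ) ≤ 20 / q + 1 := (Nat.ceil_lt_add_one (by positivity)).le
  have r20 : 20 / p = 20 * (1 / p) := by ring
  have r21 : 20 / q = 20 * (1 / q) := by ring
  have r22 : 100 * L / p = 100 * (L / p) := by ring
  rw [r20] at hg1l hg1u
  rw [r21] at hRl hRu
  rw [r22] at hwu
  have hj0r : (j0 : ℝ) = 100 * (g1 + 10) := by rw [hj0]; push_cast; ring
  have hr2r : (r2 : ℝ) = 300 * (w + 10) := by rw [hr2]; push_cast; ring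
  have hj0u : (j0 : ℝ) ≤ 2100 * (1 / p) := by rw [hj0r]; linarith
  have hr2u : (r2 : ℝ) + 1 ≤ 31000 * (L / p) := by
    rw [hr2r]
    have : 10 ^ 12 ≤ L / p := by
      rw [le_div_iff₀ hp]
      calc (10 : ℝ) ^ 12 * p ≤ 10 ^ 12 * 1 := mul_le_mul_of_nonneg_left hp0 (by norm_num)
        _ = 10 ^ 12 := mul_one _
        _ ≤ L := hL1
    linarith
  -- the factors
  have F1 : Real.exp (-(1 / q)) ≤ q ^ ((2 * j0 + 1) ^ 2) := by
    have h1 : q ^ ((2 * j0 + 1) ^ 2) = Real.exp (-(((2 * j0 + 1 : ℕ) : ℝ) ^ 2 * L)) := by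
      rw [← Real.exp_log (pow_pos hq _), Real.log_pow, hlogq]
      congr 1
      push_cast
      ring
    rw [h1]
    apply Real.exp_le_exp.2
    have h2 : ((2 * j0 + 1 : ℕ) : ℝ) ≤ 5000 * (1 / p) := by push_cast; linarith
    have h3 : ((2 * j0 + 1 : ℕ) : ℝ) ^ 2 * L ≤ (5000 * (1 / p)) ^ 2 * L := by gcongr
    have h4 : (5000 * (1 / p)) ^ 2 * L = 25000000 * (L / p ^ 2) := by ring
    rw [h4] at h3
    linarith
  have F2 : Real.exp (-(1 / q)) ≤ p ^ ((8 * j0 + 1) ^ 2) := by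
    have h1 : p ^ ((8 * j0 + 1) ^ 2) = Real.exp (((8 * j0 + 1 : ℕ) : ℝ) ^ 2 * Real.log p) := by
      rw [← Real.exp_log (pow_pos hp _), Real.log_pow]
      congr 1
      push_cast
      ring
    rw [h1]
    apply Real.exp_le_exp.2
    have h2 : ((8 * j0 + 1 : ℕ) : ℝ) ≤ 17000 * (1 / p) := by push_cast; linarith
    have h3 : ((8 * j0 + 1 : ℕ) : ℝ) ^ 2 * L ≤ (17000 * (1 / p)) ^ 2 * L := by gcongr
    have h4 : (17000 * (1 / p)) ^ 2 * L = 289000000 * (L / p ^ 2) := by ring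
    rw [h4] at h3
    have h5 : ((8 * j0 + 1 : ℕ) : ℝ) ^ 2 * (-L) ≤ ((8 * j0 + 1 : ℕ) : ℝ) ^ 2 * Real.log p :=
      mul_le_mul_of_nonneg_left hlogp (by positivity)
    linarith
  have hqh : q ≤ 1 / 2 := hq1.trans (by norm_num)
  have hNr : ((2 * Rh : ℕ) : ℝ) = 2 * Rh := by push_cast; ring
  have hpq2 : 1 / p ≤ 1 / 10 ^ 12 * (1 / q) := by
    rw [div_le_iff₀ hp]
    have : 1 / 10 ^ 12 * (1 / q) * p = (1 / 10 ^ 12 * p) / q := by ring
    rw [this, le_div_iff₀ hq, one_mul]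
    refine hqp.trans ?_
    exact mul_le_mul_of_nonneg_left (pow_le_of_le_one hp.le hp0 (by norm_num)) (by norm_num)
  have hjN : j0 ≤ 2 * Rh := by
    have : (j0 : ℝ) ≤ ((2 * Rh : ℕ) : ℝ) := by rw [hNr]; linarith
    exact_mod_cast this
  have F3 : Real.exp (-(12961 * (1 / q))) ≤ ∏ r ∈ Finset.Icc (j0 + 1) (2 * Rh),
      ((r : ℝ) / 20 * q * (1 - q) ^ (2 * r)) ^ 4 := by
    refine le_trans ?_ (p5_mid q hq hqh j0 (2 * Rh) hjN ?_)
    · apply Real.exp_le_exp.2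
      rw [hNr]
      have hR0 : (0 : ℝ) ≤ Rh := by positivity
      have h1 : 8 * q * (2 * (Rh : ℝ)) * (2 * Rh + 1)
          ≤ 8 * q * (2 * (20 * (1 / q) + 1)) * (2 * (20 * (1 / q) + 1) + 1) := by gcongr
      have h2 : 8 * q * (2 * (20 * (1 / q) + 1)) * (2 * (20 * (1 / q) + 1) + 1)
          = 12800 * (1 / q) + 1600 + 48 * q := by
        field_simp
        ring
      linarith
    · have h3 : ((2 * Rh - j0 : ℕ) : ℝ) = 2 * Rh - j0 := by rw [Nat.cast_sub hjN]; push_cast; ring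
      rw [h3]
      have h4 : 20 * (1 / q) ≤ 2 * (Rh : ℝ) - j0 := by linarith
      have h5 : 20 = 20 * (1 / q) * q := by field_simp
      rw [h5]
      exact mul_le_mul_of_nonneg_right h4 hq.le
  have F4 : Real.exp (-(1 / q)) ≤ (1 - q) ^ (8 * Rh) := by
    apply p5_pow q hq hqh
    have h1 : 2 * q * ((8 * Rh : ℕ) : ℝ) ≤ 2 * q * (8 * (20 * (1 / q) + 1)) := by
      push_cast; gcongr
    have h2 : 2 * q * (8 * (20 * (1 / q) + 1)) = 320 + 16 * q := by
      field_simp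
      ring
    linarith
  have F5 : Real.exp (-(2 * (1 / q))) ≤ (1 / 2 : ℝ) ^ (64 * (r2 + 1) ^ 2 / g1 + 64 * r2) := by
    apply p5_half
    have hg1pos : (0 : ℝ) < g1 := lt_of_lt_of_le (by positivity) hg1l
    have h1 : ((64 * (r2 + 1) ^ 2 / g1 : ℕ) : ℝ) ≤ 64 * (31000 * (L / p)) ^ 2 * p := by
      refine (Nat.cast_div_le).trans ?_
      rw [div_le_iff₀ hg1pos]
      push_cast
      have h2 : ((r2 : ℝ) + 1) ^ 2 ≤ (31000 * (L / p)) ^ 2 := by gcongr
      have h3 : 1 ≤ p * g1 := by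
        have : p * (20 * (1 / p)) ≤ p * g1 := mul_le_mul_of_nonneg_left hg1l hp.le
        have h4 : p * (20 * (1 / p)) = 20 := by field_simp
        linarith
      calc 64 * ((r2 : ℝ) + 1) ^ 2 ≤ 64 * (31000 * (L / p)) ^ 2 :=
            mul_le_mul_of_nonneg_left h2 (by norm_num)
        _ = 64 * (31000 * (L / p)) ^ 2 * 1 := (mul_one _).symm
        _ ≤ 64 * (31000 * (L / p)) ^ 2 * (p * g1) :=
            mul_le_mul_of_nonneg_left h3 (by positivity)
        _ = 64 * (31000 * (L / p)) ^ 2 * p * g1 := (mul_assoc _ _ _).symm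
    have h5 : 64 * (31000 * (L / p)) ^ 2 * p = 61504000000 * (L ^ 2 / p) := by
      field_simp
      ring
    rw [h5] at h1
    push_cast at h1 ⊢
    linarith
  have F6 : Real.exp (-(8 * (1 / q))) ≤
      ∏ r ∈ Finset.Icc (2 * Rh + 1) (pr p q).W, (1 - (1 - q) ^ (2 * r - 1)) ^ 4 := by
    have h1 : 8 * (1 / q) = 8 / q := by ring
    rw [h1]
    apply p5_outer q hq hqh
    rw [hNr]
    have h5 : 40 = q * (2 * (20 * (1 / q))) := by field_simp; norm_num
    rw [h5]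
    gcongr
  have F7 : Real.exp (-(1 / q)) ≤ 1 / 2 := by
    have := p5_half 1 (1 / q) (by push_cast; linarith)
    simpa using this
  unfold nucLow
  rw [e1, e2, e3, e4]
  have hsplit : Real.exp (-(19000 / q)) ≤ Real.exp (-(1 / q)) * Real.exp (-(1 / q))
      * Real.exp (-(12961 * (1 / q))) * Real.exp (-(1 / q)) * Real.exp (-(2 * (1 / q)))
      * Real.exp (-(8 * (1 / q))) * Real.exp (-(1 / q)) := by
    simp only [← Real.exp_add]
    apply Real.exp_le_exp.2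
    have : 19000 / q = 19000 * (1 / q) := by ring
    rw [this]
    linarith
  refine hsplit.trans ?_
  exact p5_comb (Real.exp_pos _).le (Real.exp_pos _).le (Real.exp_pos _).le (Real.exp_pos _).le
    (Real.exp_pos _).le (Real.exp_pos _).le (Real.exp_pos _).le F1 F2 F3 F4 F5 F6 F7

theorem pr_nucLow : ∃ η > 0, ∀ p q : ℝ, Small p q η →
    Real.exp (-(19000 / q)) ≤ nucLow (pr p q) p q := by
  obtain ⟨η, hη, H⟩ := small_basic (1 / 10 ^ 12) (by positivity) 0
  refine ⟨η, hη, ?_⟩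
  intro p q hs
  obtain ⟨h1, h2, h3, h4, h5, -⟩ := H p q hs
  refine p5_main p q hs.1 hs.2.2.1 h1 h2 h3 h4 ?_
  refine le_trans (by norm_num) h5

end TSB
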