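import Pool.Agent.TSB.ParamNuc
open scoped Classical

/-! Module PARAM6: lower bound for the probability of a nucleus of ones. -/

namespace TSB

theorem par_one_sub_exp {y : ℝ} (h0 : 0 ≤ y) (h1 : y ≤ 1) : Real.exp (-y) ≤ 1 - y / 2 := by
  have h2 := Real.add_one_le_exp y
  rw [Real.exp_neg, inv_le_iff_one_le_mul₀ (Real.exp_pos _)]
  have h3 : 0 ≤ 1 - y / 2 := by linarith
  nlinarith

theorem par_quarter : Real.exp (-3) ≤ 1 / 4 * Real.exp (-1) := by
  have h1 := Real.exp_neg_one_lt_d9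
  have h2 := Real.exp_pos (-1)
  have h3 : Real.exp (-3) = Real.exp (-1) * Real.exp (-1) * Real.exp (-1) := by
    rw [← Real.exp_add, ← Real.exp_add]
    norm_num
  rw [h3]
  nlinarith

/-- product bound for the growth of a square of ones -/
theorem par_growth (p : ℝ) (h0 : 0 < p) (h1 : p ≤ 1 / 2) (w : ℕ) :
    Real.exp (-(5 / p)) ≤ ∏ r ∈ Finset.Ico 1 w, (1 - (1 - p) ^ r) := by
  obtain ⟨n, hn⟩ : ∃ n, n = ⌊1 / p⌋₊ := ⟨_, rfl⟩
  have hip : 0 ≤ 1 / p := by positivity
  have hn1 : (n : ℝ) ≤ 1 / p := by rw [hn]; exact Nat.floor_le hip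
  have hn2 : 1 / p < n + 1 := by rw [hn]; exact Nat.lt_floor_add_one _
  have hnp : 1 / 2 ≤ n * p := by
    rw [div_lt_iff₀ h0] at hn2
    nlinarith
  have hq1 : (0 : ℝ) ≤ 1 - p := by linarith
  have key : ∀ r ∈ Finset.Ico 1 w, (if r ≤ n then (r : ℝ) * (p / 2) else 1) *
      Real.exp (-(2 * (1 - p) ^ r)) ≤ 1 - (1 - p) ^ r := by
    intro r hr
    have hr1 := (Finset.mem_Ico.mp hr).1
    have he : (1 - p) ^ r ≤ Real.exp (-((r : ℝ) * p)) := by
      calc (1 - p) ^ r ≤ Real.exp (-p) ^ r :=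
            pow_le_pow_left₀ hq1 (Real.one_sub_le_exp_neg p) _
        _ = _ := by
            rw [← Real.exp_nat_mul]
            congr 1
            ring
    have hp0 : 0 ≤ (1 - p) ^ r := pow_nonneg hq1 _
    split_ifs with hrn
    · have h2 : (r : ℝ) * p ≤ 1 := by
        have h3 : (r : ℝ) ≤ n := by exact_mod_cast hrn
        have h4 : (r : ℝ) ≤ 1 / p := h3.trans hn1
        rw [le_div_iff₀ h0] at h4
        exact h4
      have h3 := par_one_sub_exp (y := (r : ℝ) * p) (by positivity) h2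
      have h4 : Real.exp (-(2 * (1 - p) ^ r)) ≤ 1 := Real.exp_le_one_iff.mpr (by linarith)
      have h5 : 0 ≤ (r : ℝ) * (p / 2) := by positivity
      calc (r : ℝ) * (p / 2) * Real.exp (-(2 * (1 - p) ^ r)) ≤ (r : ℝ) * (p / 2) * 1 := by gcongr
        _ ≤ 1 - (1 - p) ^ r := by linarith
    · rw [one_mul]
      apply par_one_sub_ge2 hp0
      refine he.trans ?_
      have h3 : (n : ℝ) + 1 ≤ r := by
        have : n + 1 ≤ r := by omega
        exact_mod_cast this
      have h4 : 1 / p < r := lt_of_lt_of_le hn2 h3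
      rw [div_lt_iff₀ h0] at h4
      calc Real.exp (-((r : ℝ) * p)) ≤ Real.exp (-1) := by
            apply Real.exp_le_exp.mpr
            linarith
        _ ≤ 1 / 2 := PSmall.half_ge
  have hfirst : Real.exp (-(3 / p)) ≤
      ∏ r ∈ Finset.Ico 1 w, (if r ≤ n then (r : ℝ) * (p / 2) else 1) := by
    -- product over `Icc 1 n`
    have a1 : ∏ r ∈ Finset.Icc 1 n, ((r : ℝ) * (p / 2)) ≤
        ∏ r ∈ Finset.Ico 1 w, (if r ≤ n then (r : ℝ) * (p / 2) else 1) := by
      rw [← Finset.prod_filter]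
      have hsub : (Finset.Ico 1 w).filter (fun r => r ≤ n) ⊆ Finset.Icc 1 n := by
        intro x hx
        simp only [Finset.mem_filter, Finset.mem_Ico] at hx
        rw [Finset.mem_Icc]
        omega
      rw [← Finset.prod_sdiff hsub]
      have b1 : ∏ r ∈ Finset.Icc 1 n \ (Finset.Ico 1 w).filter (fun r => r ≤ n), ((r : ℝ) * (p / 2)) ≤ 1 := by
        apply Finset.prod_le_one
        · intro r _
          positivity
        · intro r hr
          have h2 : r ≤ n := (Finset.mem_Icc.mp (Finset.mem_sdiff.mp hr).1).2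
          have h3 : (r : ℝ) ≤ n := by exact_mod_cast h2
          have h4 : (r : ℝ) ≤ 1 / p := h3.trans hn1
          rw [le_div_iff₀ h0] at h4
          linarith
      have b2 : 0 ≤ ∏ r ∈ (Finset.Ico 1 w).filter (fun r => r ≤ n), ((r : ℝ) * (p / 2)) :=
        Finset.prod_nonneg fun r _ => by positivity
      nlinarith
    refine le_trans ?_ a1
    have c1 : ∏ r ∈ Finset.Icc 1 n, ((r : ℝ) * (p / 2)) =
        (1 / 4) ^ n * ∏ r ∈ Finset.Icc 1 n, ((r : ℝ) * (2 * p)) := by
      have : ∏ r ∈ Finset.Icc 1 n, ((r : ℝ) * (p / 2)) =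
          ∏ r ∈ Finset.Icc 1 n, (1 / 4 * ((r : ℝ) * (2 * p))) := by
        apply Finset.prod_congr rfl
        intro r _
        ring
      rw [this, Finset.prod_mul_distrib, Finset.prod_const, Nat.card_Icc, Nat.add_sub_cancel]
    have c2 := par_prod_ge n (2 * p) (by positivity) (by linarith)
    rw [c1]
    calc Real.exp (-(3 / p)) ≤ Real.exp (-3) ^ n := by
          rw [← Real.exp_nat_mul]
          apply Real.exp_le_exp.mpr
          have : 3 / p = 3 * (1 / p) := by ring
          rw [this]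
          linarith
      _ ≤ (1 / 4 * Real.exp (-1)) ^ n := pow_le_pow_left₀ (Real.exp_pos _).le par_quarter _
      _ = (1 / 4) ^ n * Real.exp (-(n : ℝ)) := by
          rw [mul_pow, ← Real.exp_nat_mul]
          congr 2
          ring
      _ ≤ _ := by gcongr
  have hsecond : Real.exp (-(2 / p)) ≤ ∏ r ∈ Finset.Ico 1 w, Real.exp (-(2 * (1 - p) ^ r)) := by
    rw [← Real.exp_sum]
    apply Real.exp_le_exp.mpr
    rw [Finset.sum_neg_distrib, ← Finset.mul_sum]
    have h2 : ∑ r ∈ Finset.Ico 1 w, (1 - p) ^ r ≤ ∑ r ∈ Finset.range w, (1 - p) ^ r := by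
      apply Finset.sum_le_sum_of_subset_of_nonneg
      · intro x hx
        rw [Finset.mem_Ico] at hx
        rw [Finset.mem_range]
        omega
      · intro x _ _
        exact pow_nonneg hq1 _
    have h3 := par_geom p h0 (by linarith) w
    have h4 : 2 / p = 2 * (1 / p) := by ring
    rw [h4]
    linarith
  calc Real.exp (-(5 / p)) = Real.exp (-(3 / p)) * Real.exp (-(2 / p)) := by
        rw [← Real.exp_add]
        congr 1
        ring
    _ ≤ (∏ r ∈ Finset.Ico 1 w, (if r ≤ n then (r : ℝ) * (p / 2) else 1)) *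
        ∏ r ∈ Finset.Ico 1 w, Real.exp (-(2 * (1 - p) ^ r)) :=
        mul_le_mul hfirst hsecond (Real.exp_pos _).le ((Real.exp_pos _).le.trans hfirst)
    _ = ∏ r ∈ Finset.Ico 1 w, ((if r ≤ n then (r : ℝ) * (p / 2) else 1) *
        Real.exp (-(2 * (1 - p) ^ r))) := by rw [Finset.prod_mul_distrib]
    _ ≤ _ := by
        apply Finset.prod_le_prod _ key
        intro r _
        split_ifs <;> positivity

namespace PSmall

variable {p q : ℝ}

theorem nuc1_f1 (h : PSmall p q) : Real.exp (-(1 / p)) ≤ (1 - q) ^ (25 * (pr p q).D ^ 2) := by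
  have hp := h.hp
  have hq := h.hq
  have hL := h.L_pos
  refine le_trans ?_ (h.one_sub_q_pow _)
  apply Real.exp_le_exp.mpr
  have h1 := h.D_ub
  have h0 := h.D_pos
  have h2 := h.absorb (10 ^ 10) (by norm_num) (by norm_num) 4 (by norm_num) 0 (1 / 2) (by norm_num)
  rw [← Real.sqrt_eq_rpow, Real.rpow_zero] at h2
  have hu := h.sqrt_le
  have hu0 := h.sqrt_pos
  have h3 : ((25 * (pr p q).D ^ 2 : ℕ) : ℝ) * (1001 / 1000 * q) ≤ 1 / p := by
    push_cast
    calc 25 * ((pr p q).D : ℝ) ^ 2 * (1001 / 1000 * q)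
        ≤ 25 * (8282 * Real.log (1 / q) ^ 2 / p) ^ 2 * (1001 / 1000 * q) := by gcongr
      _ = 25 * 8282 ^ 2 * (1001 / 1000) * Real.log (1 / q) ^ 4 / p ^ 2 * Real.sqrt q ^ 2 := by
          rw [Real.sq_sqrt hq.le]
          ring
      _ = 25 * 8282 ^ 2 * (1001 / 1000) * Real.log (1 / q) ^ 4 * Real.sqrt q * (Real.sqrt q / p) *
          (1 / p) := by
          field_simp
      _ ≤ 10 ^ 10 * Real.log (1 / q) ^ 4 * Real.sqrt q * 1 * (1 / p) := by
          have h4 : Real.sqrt q / p ≤ 1 := by rw [div_le_one hp]; exact hu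
          gcongr
          norm_num
      _ ≤ 1 * 1 * (1 / p) := by gcongr
      _ = 1 / p := by ring
  linarith

theorem nuc1_f2 (h : PSmall p q) : Real.exp (-(1 / p)) ≤ p := by
  have hp := h.hp
  have h1 : Real.log (1 / p) ≤ 1 / p := by
    have := Real.log_le_sub_one_of_pos (x := 1 / p) (by positivity)
    linarith
  calc Real.exp (-(1 / p)) ≤ Real.exp (-Real.log (1 / p)) := by
        apply Real.exp_le_exp.mpr
        linarith
    _ = p := by
        rw [one_div, Real.log_inv, neg_neg, Real.exp_log hp]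

theorem nuc1_f3 (h : PSmall p q) : Real.exp (-(10 / p)) ≤
    ∏ r ∈ Finset.Ico 1 (pr p q).w, (1 - (1 - p) ^ r) ^ 2 := by
  have hp := h.hp
  have h1 := par_growth p hp (h.hpe.trans (by norm_num)) (pr p q).w
  rw [Finset.prod_pow]
  calc Real.exp (-(10 / p)) = Real.exp (-(5 / p)) ^ 2 := by
        rw [← Real.exp_nat_mul]
        congr 1
        push_cast
        ring
    _ ≤ _ := pow_le_pow_left₀ (Real.exp_pos _).le h1 2

theorem nuc1_f4 (h : PSmall p q) (hT : PT p q) : 1 / 2 ≤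
    1 - 4 * ((pr p q).s : ℝ) ^ 2 * deltaD (pr p q).w (pr p q).d (pr p q).mw (2 * q) (1 - p / 2) := by
  have e1 := h.edeltaD_le hT.qsD
  have e2 := h.q_rpow_le (2 / 5) (by norm_num)
  have e0 := h.deltaD_nonneg
  have e3 : 4 * ((pr p q).s : ℝ) ^ 2 *
      deltaD (pr p q).w (pr p q).d (pr p q).mw (2 * q) (1 - p / 2) ≤
      (4 * ((pr p q).e : ℝ) + 6 * (pr p q).s + 4) ^ 2 *
      deltaD (pr p q).w (pr p q).d (pr p q).mw (2 * q) (1 - p / 2) := by
    have e5 : 4 * ((pr p q).s : ℝ) ^ 2 = (2 * ((pr p q).s : ℝ)) ^ 2 := by ring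
    have e4 : 2 * ((pr p q).s : ℝ) ≤ 4 * ((pr p q).e : ℝ) + 6 * (pr p q).s + 4 := by
      have h1 : (0 : ℝ) ≤ (pr p q).s := by positivity
      have h2 : (0 : ℝ) ≤ (pr p q).e := by positivity
      linarith
    rw [e5]
    gcongr
  have e6 := e3.trans (e1.trans (e2.trans exp_1000'))
  linarith

theorem nuc1Low_ge (h : PSmall p q) (hT : PT p q) :
    Real.exp (-(15 / p)) ≤ nuc1Low (pr p q) p q := by
  have hp := h.hp
  have f1 := h.nuc1_f1
  have f2 := h.nuc1_f2
  have f3 := h.nuc1_f3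
  have f4 := h.nuc1_f4 hT
  have hE : ∀ x : ℝ, 0 ≤ Real.exp x := fun x => (Real.exp_pos x).le
  unfold nuc1Low
  calc Real.exp (-(15 / p)) ≤ Real.exp (-(1 / p)) * Real.exp (-(1 / p)) * Real.exp (-(10 / p)) *
        Real.exp (-1) := by
        rw [← Real.exp_add, ← Real.exp_add, ← Real.exp_add]
        apply Real.exp_le_exp.mpr
        have h1 := h.inv_p
        have h2 : (1 : ℝ) ≤ 10 ^ 100 := by norm_num
        have h3 : 15 / p = 15 * (1 / p) := by ring
        have h4 : 10 / p = 10 * (1 / p) := by ring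
        rw [h3, h4]
        linarith
    _ ≤ _ := by
        have g1 := mul_le_mul f1 f2 (hE _) ((hE _).trans f1)
        have g2 := mul_le_mul g1 f3 (hE _) ((mul_nonneg (hE _) (hE _)).trans g1)
        exact mul_le_mul g2 (half_ge.trans f4) (hE _)
          ((mul_nonneg (mul_nonneg (hE _) (hE _)) (hE _)).trans g2)

end PSmall

theorem pr_nuc1Low : ∃ η > 0, ∀ p q : ℝ, Small p q η →
    Real.exp (-(15 / p)) ≤ nuc1Low (pr p q) p q := by
  obtain ⟨η, hη, H⟩ := psmall_T
  exact ⟨η, hη, fun p q hs => (H p q hs).1.nuc1Low_ge (H p q hs).2⟩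

end TSB
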