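import Pool.Agent.TSB.Param2
open scoped Classical

/-! Elementary bounds for the parameters, used in the modules PARAM3 .. PARAM8. -/

namespace TSB

/-- consequences of smallness -/
structure PSmall (p q : ℝ) : Prop where
  hp : 0 < p
  hq : 0 < q
  hpe : p ≤ 1 / 10 ^ 100
  hqe : q ≤ 1 / 10 ^ 100
  hqp : q ≤ 1 / 10 ^ 100 * p ^ 2
  hqL : q * (Real.log (1 / q)) ^ 2 ≤ 1 / 10 ^ 100 * p ^ 2
  hL : 10 ^ 100 ≤ Real.log (1 / q)
  hj : q ^ (1 / 100 : ℝ) * (Real.log (1 / q)) ^ 20 ≤ 1 / 10 ^ 100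

theorem psmall : ∃ η > 0, ∀ p q : ℝ, Small p q η → PSmall p q := by
  obtain ⟨η, hη, h⟩ := small_basic (1 / 10 ^ 100) (by positivity) 20
  refine ⟨η, hη, fun p q hs => ?_⟩
  obtain ⟨h1, h2, h3, h4, h5, h6⟩ := h p q hs
  exact ⟨hs.1, hs.2.2.1, h1, h2, h3, h4, by simpa using h5, h6⟩

theorem Small.mono {p q η η' : ℝ} (h : Small p q η) (hη : η ≤ η') : Small p q η' :=
  ⟨h.1, h.2.1.trans hη, h.2.2.1, h.2.2.2.trans (mul_le_mul_of_nonneg_right hη (sq_nonneg p))⟩

theorem small_and {A B : ℝ → ℝ → Prop} (hA : ∃ η > 0, ∀ p q : ℝ, Small p q η → A p q)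
    (hB : ∃ η > 0, ∀ p q : ℝ, Small p q η → B p q) :
    ∃ η > 0, ∀ p q : ℝ, Small p q η → A p q ∧ B p q := by
  obtain ⟨a, ha, hA⟩ := hA
  obtain ⟨b, hb, hB⟩ := hB
  exact ⟨min a b, lt_min ha hb, fun p q h =>
    ⟨hA p q (h.mono (min_le_left _ _)), hB p q (h.mono (min_le_right _ _))⟩⟩

namespace PSmall

variable {p q : ℝ}

theorem L_pos (h : PSmall p q) : 0 < Real.log (1 / q) := lt_of_lt_of_le (by positivity) h.hL

theorem L_one (h : PSmall p q) : 1 ≤ Real.log (1 / q) := le_trans (by norm_num) h.hL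

theorem q_eq (h : PSmall p q) : q = Real.exp (-Real.log (1 / q)) := by
  rw [one_div, Real.log_inv, neg_neg, Real.exp_log h.hq]

theorem q_rpow (h : PSmall p q) (y : ℝ) : q ^ y = Real.exp (-(y * Real.log (1 / q))) := by
  rw [Real.rpow_def_of_pos h.hq, one_div, Real.log_inv]
  ring_nf

theorem q_npow (h : PSmall p q) (n : ℕ) : q ^ n = Real.exp (-(n * Real.log (1 / q))) := by
  rw [← Real.rpow_natCast, h.q_rpow]

theorem p_lt_one (h : PSmall p q) : p < 1 := lt_of_le_of_lt h.hpe (by norm_num)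

theorem q_lt_one (h : PSmall p q) : q < 1 := lt_of_le_of_lt h.hqe (by norm_num)

theorem inv_p (h : PSmall p q) : 10 ^ 100 ≤ 1 / p := by
  rw [le_div_iff₀ h.hp]
  have := h.hpe
  calc (10 : ℝ) ^ 100 * p ≤ 10 ^ 100 * (1 / 10 ^ 100) := by gcongr
    _ = 1 := by norm_num

theorem inv_q (h : PSmall p q) : 10 ^ 100 ≤ 1 / q := by
  rw [le_div_iff₀ h.hq]
  have := h.hqe
  calc (10 : ℝ) ^ 100 * q ≤ 10 ^ 100 * (1 / 10 ^ 100) := by gcongr
    _ = 1 := by norm_num

/-- powers of `L` and constants are absorbed by a small power of `q` -/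
theorem absorb (h : PSmall p q) (C : ℝ) (hC0 : 0 ≤ C) (hC : C ≤ 10 ^ 100) (j : ℕ) (hj : j ≤ 20)
    (x y : ℝ) (hxy : x + 1 / 100 ≤ y) : C * (Real.log (1 / q)) ^ j * q ^ y ≤ q ^ x := by
  have h1 : q ^ y ≤ q ^ x * q ^ (1 / 100 : ℝ) := by
    rw [← Real.rpow_add h.hq]
    exact Real.rpow_le_rpow_of_exponent_ge h.hq h.q_lt_one.le hxy
  have h2 : (Real.log (1 / q)) ^ j ≤ (Real.log (1 / q)) ^ 20 := pow_le_pow_right₀ h.L_one hj
  have hx : 0 ≤ q ^ x := Real.rpow_nonneg h.hq.le _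
  have hL := h.L_pos
  have h100 : 0 ≤ q ^ (1 / 100 : ℝ) := Real.rpow_nonneg h.hq.le _
  have hy : 0 ≤ q ^ y := Real.rpow_nonneg h.hq.le _
  calc C * (Real.log (1 / q)) ^ j * q ^ y
      ≤ 10 ^ 100 * (Real.log (1 / q)) ^ 20 * (q ^ x * q ^ (1 / 100 : ℝ)) :=
        mul_le_mul (mul_le_mul hC h2 (by positivity) (by positivity)) h1 hy (by positivity)
    _ = q ^ x * (10 ^ 100 * (q ^ (1 / 100 : ℝ) * (Real.log (1 / q)) ^ 20)) := by ring
    _ ≤ q ^ x * (10 ^ 100 * (1 / 10 ^ 100)) := by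
        have := h.hj
        gcongr
    _ = q ^ x := by norm_num

/-- `√q ≤ p` -/
theorem sqrt_le (h : PSmall p q) : Real.sqrt q ≤ p := by
  rw [Real.sqrt_le_left h.hp.le]
  have h1 := h.hqp
  have h2 : 0 ≤ p ^ 2 := sq_nonneg p
  have h3 : (1 : ℝ) / 10 ^ 100 * p ^ 2 ≤ 1 * p ^ 2 := by
    gcongr
    norm_num
  linarith

theorem sqrt_pos (h : PSmall p q) : 0 < Real.sqrt q := Real.sqrt_pos.mpr h.hq

theorem sqrt_rpow (h : PSmall p q) (n : ℕ) : Real.sqrt q ^ n = q ^ ((n : ℝ) / 2) := by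
  rw [Real.sqrt_eq_rpow, ← Real.rpow_natCast, ← Real.rpow_mul h.hq.le]
  congr 1
  ring

theorem q_le_sqrt (h : PSmall p q) : q ≤ Real.sqrt q := by
  have h1 := Real.mul_self_sqrt h.hq.le
  have h2 : Real.sqrt q ≤ 1 := Real.sqrt_le_one.mpr h.q_lt_one.le
  nlinarith [h.sqrt_pos]

theorem q_le_p (h : PSmall p q) : q ≤ p := h.q_le_sqrt.trans h.sqrt_le

theorem Lp_one (h : PSmall p q) : 1 ≤ Real.log (1 / q) / p := by
  rw [le_div_iff₀ h.hp]
  have := h.L_one
  linarith [h.p_lt_one]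

/-! ### bounds for the parameters -/

theorem w_lb (h : PSmall p q) : 100 * Real.log (1 / q) / p ≤ (pr p q).w := Nat.le_ceil _

theorem w_ub (h : PSmall p q) : ((pr p q).w : ℝ) ≤ 101 * Real.log (1 / q) / p := by
  have h0 : 0 ≤ 100 * Real.log (1 / q) / p := by
    have := h.L_pos
    have := h.hp
    positivity
  have h1 : ((pr p q).w : ℝ) < 100 * Real.log (1 / q) / p + 1 := Nat.ceil_lt_add_one h0
  have h2 := h.Lp_one
  have h3 : 101 * Real.log (1 / q) / p = 100 * Real.log (1 / q) / p + Real.log (1 / q) / p := by ring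
  linarith

theorem mw_lb (h : PSmall p q) : 81 * Real.log (1 / q) ≤ (pr p q).mw := Nat.le_ceil _

theorem mw_ub (h : PSmall p q) : ((pr p q).mw : ℝ) ≤ 81 * Real.log (1 / q) + 1 :=
  (Nat.ceil_lt_add_one (by have := h.L_pos; positivity)).le

theorem d_eq (p q : ℝ) : ((pr p q).d : ℝ) = (pr p q).mw + 2 := by
  have : (pr p q).d = (pr p q).mw + 2 := rfl
  rw [this]
  push_cast
  ring

theorem d_lb (h : PSmall p q) : 81 * Real.log (1 / q) ≤ (pr p q).d := by
  have := h.mw_lb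
  rw [d_eq]
  linarith

theorem d_ub (h : PSmall p q) : ((pr p q).d : ℝ) ≤ 82 * Real.log (1 / q) := by
  have h1 := h.mw_ub
  have h2 := h.hL
  have h3 : (3 : ℝ) ≤ 10 ^ 100 := by norm_num
  rw [d_eq]
  linarith

theorem D_eq (p q : ℝ) : ((pr p q).D : ℝ) = (pr p q).d * (pr p q).w := by
  unfold Par.D
  push_cast
  ring

theorem D_lb (h : PSmall p q) : 8100 * Real.log (1 / q) ^ 2 / p ≤ (pr p q).D := by
  have h1 := h.w_lb
  have h2 := h.d_lb
  have hL := h.L_pos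
  have hp := h.hp
  rw [D_eq]
  calc 8100 * Real.log (1 / q) ^ 2 / p
      = (81 * Real.log (1 / q)) * (100 * Real.log (1 / q) / p) := by ring
    _ ≤ _ := by gcongr

theorem D_ub (h : PSmall p q) : ((pr p q).D : ℝ) ≤ 8282 * Real.log (1 / q) ^ 2 / p := by
  have h1 := h.w_ub
  have h2 := h.d_ub
  have hL := h.L_pos
  have hp := h.hp
  rw [D_eq]
  calc ((pr p q).d : ℝ) * (pr p q).w
      ≤ (82 * Real.log (1 / q)) * (101 * Real.log (1 / q) / p) := by gcongr
    _ = _ := by ring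

theorem D_pos (h : PSmall p q) : (0 : ℝ) < (pr p q).D := by
  refine lt_of_lt_of_le ?_ h.D_lb
  have hL := h.L_pos
  have hp := h.hp
  positivity

theorem D_one (h : PSmall p q) : (1 : ℝ) ≤ (pr p q).D := by
  have := h.D_pos
  exact_mod_cast Nat.one_le_iff_ne_zero.mpr (by
    intro h0
    rw [h0] at this
    simp at this)

theorem w_one (h : PSmall p q) : (1 : ℝ) ≤ (pr p q).w := by
  refine le_trans ?_ h.w_lb
  have := h.Lp_one
  have h3 : 100 * Real.log (1 / q) / p = 100 * (Real.log (1 / q) / p) := by ring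
  linarith

theorem d_le_D (h : PSmall p q) : ((pr p q).d : ℝ) ≤ (pr p q).D := by
  rw [D_eq]
  have := h.w_one
  have h2 : (0 : ℝ) ≤ (pr p q).d := by positivity
  nlinarith

/-- `q D` is tiny -/
theorem qD_le (h : PSmall p q) : q * (pr p q).D ≤ 1 / 10 ^ 90 * p := by
  have h1 := h.D_ub
  have h2 := h.hqL
  have hp := h.hp
  have hq := h.hq
  calc q * (pr p q).D ≤ q * (8282 * Real.log (1 / q) ^ 2 / p) := by gcongr
    _ = 8282 * (q * Real.log (1 / q) ^ 2) / p := by ring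
    _ ≤ 8282 * (1 / 10 ^ 100 * p ^ 2) / p := by gcongr
    _ = 8282 / 10 ^ 100 * p := by field_simp
    _ ≤ 1 / 10 ^ 90 * p := mul_le_mul_of_nonneg_right (by norm_num) hp.le

theorem e_lb (h : PSmall p q) : 100 * Real.log (1 / q) / (q * (pr p q).D) ≤ (pr p q).e :=
  Nat.le_ceil _

theorem e_ub (h : PSmall p q) : ((pr p q).e : ℝ) ≤ 100 * Real.log (1 / q) / (q * (pr p q).D) + 1 :=
  (Nat.ceil_lt_add_one (by
    have := h.L_pos
    have := h.hq
    positivity)).le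

theorem W_eq (p q : ℝ) : ((pr p q).W : ℝ) = (pr p q).e * (pr p q).D := by
  unfold Par.W
  push_cast
  ring

theorem W_lb (h : PSmall p q) : 100 * Real.log (1 / q) / q ≤ (pr p q).W := by
  have h1 := h.e_lb
  have hD := h.D_pos
  have hq := h.hq
  rw [W_eq]
  calc 100 * Real.log (1 / q) / q = 100 * Real.log (1 / q) / (q * (pr p q).D) * (pr p q).D := by
        field_simp
    _ ≤ _ := by gcongr

theorem W_ub (h : PSmall p q) : ((pr p q).W : ℝ) ≤ 101 * Real.log (1 / q) / q := by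
  have h1 := h.e_ub
  have hD := h.D_pos
  have hq := h.hq
  have h2 := h.qD_le
  have h3 := h.p_lt_one
  have h4 := h.L_one
  have h5 : ((pr p q).D : ℝ) ≤ Real.log (1 / q) / q := by
    rw [le_div_iff₀ hq]
    have h6 : (1 : ℝ) / 10 ^ 90 * p ≤ 1 * 1 := by
      have hp := h.hp
      gcongr
      norm_num
    nlinarith
  rw [W_eq]
  calc ((pr p q).e : ℝ) * (pr p q).D
      ≤ (100 * Real.log (1 / q) / (q * (pr p q).D) + 1) * (pr p q).D := by gcongr
    _ = 100 * Real.log (1 / q) / q + (pr p q).D := by field_simp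
    _ ≤ 100 * Real.log (1 / q) / q + Real.log (1 / q) / q := by gcongr
    _ = _ := by ring

theorem Th_pos (h : PSmall p q) : 0 < 1 / p + Real.log (1 / q) := by
  have := h.L_pos
  have := h.hp
  positivity

theorem m_lb (h : PSmall p q) :
    10 ^ 5 * (1 / p + Real.log (1 / q)) / Real.log (1 / q) ≤ (pr p q).m := Nat.le_ceil _

theorem m_ub (h : PSmall p q) :
    ((pr p q).m : ℝ) ≤ 10 ^ 5 * (1 / p + Real.log (1 / q)) / Real.log (1 / q) + 1 :=
  (Nat.ceil_lt_add_one (by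
    have := h.L_pos
    have := h.Th_pos
    positivity)).le

theorem s_eq (p q : ℝ) : ((pr p q).s : ℝ) = (pr p q).m + 2 := by
  have : (pr p q).s = (pr p q).m + 2 := rfl
  rw [this]
  push_cast
  ring

theorem k_eq (p q : ℝ) : (pr p q).k = (pr p q).m := rfl

theorem f_lb (h : PSmall p q) : Real.exp (10 * (1 / p + Real.log (1 / q))) ≤ (pr p q).f :=
  Nat.le_ceil _

theorem g_eq (p q : ℝ) : ((pr p q).g : ℝ) = 400 * (pr p q).s * (pr p q).D := by
  have : (pr p q).g = 400 * (pr p q).s * (pr p q).D := rfl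
  rw [this]
  push_cast
  ring

theorem v_eq (p q : ℝ) : ((pr p q).v : ℝ) = 2000 * (pr p q).s * (pr p q).D := by
  have : (pr p q).v = 2000 * (pr p q).s * (pr p q).D := rfl
  rw [this]
  push_cast
  ring

theorem Rh_lb (h : PSmall p q) : 20 / q ≤ (pr p q).Rh := Nat.le_ceil _

theorem Rh_ub (h : PSmall p q) : ((pr p q).Rh : ℝ) ≤ 20 / q + 1 :=
  (Nat.ceil_lt_add_one (by
    have := h.hq
    positivity)).le

theorem g1_lb (h : PSmall p q) : 20 / p ≤ (pr p q).g1 := Nat.le_ceil _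

theorem g1_ub (h : PSmall p q) : ((pr p q).g1 : ℝ) ≤ 20 / p + 1 :=
  (Nat.ceil_lt_add_one (by
    have := h.hp
    positivity)).le

theorem j0_eq (p q : ℝ) : ((pr p q).j0 : ℝ) = 100 * ((pr p q).g1 + 10) := by
  have : (pr p q).j0 = 100 * ((pr p q).g1 + 10) := rfl
  rw [this]
  push_cast
  ring

theorem r2_eq (p q : ℝ) : ((pr p q).r2 : ℝ) = 300 * ((pr p q).w + 10) := by
  have : (pr p q).r2 = 300 * ((pr p q).w + 10) := rfl
  rw [this]
  push_cast
  ring

end PSmall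

end TSB
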