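import Pool.Agent.TSB.Param4
open scoped Classical

/-! Lower bound for the probability of the controlled nucleus in terms of `PSmall`, and some
elementary inequalities used in the modules PARAM6 and PARAM8. -/

namespace TSB

theorem par_one_sub_ge {x : ℝ} (h0 : 0 ≤ x) (h1 : x < 1) : Real.exp (-(x / (1 - x))) ≤ 1 - x := by
  have h2 : 0 < 1 - x := by linarith
  have h3 := Real.add_one_le_exp (x / (1 - x))
  have h4 : x / (1 - x) + 1 = (1 - x)⁻¹ := by field_simp; ring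
  rw [h4] at h3
  rw [Real.exp_neg]
  calc (Real.exp (x / (1 - x)))⁻¹ ≤ ((1 - x)⁻¹)⁻¹ := inv_anti₀ (by positivity) h3
    _ = 1 - x := inv_inv _

theorem par_one_sub_ge2 {x : ℝ} (h0 : 0 ≤ x) (h1 : x ≤ 1 / 2) : Real.exp (-(2 * x)) ≤ 1 - x := by
  refine le_trans ?_ (par_one_sub_ge h0 (by linarith))
  apply Real.exp_le_exp.mpr
  have h2 : x / (1 - x) ≤ 2 * x := by
    rw [div_le_iff₀ (by linarith)]
    nlinarith
  linarith

/-- `∏ r a ≥ exp (-M)` if `M a ≥ 1` -/
theorem par_prod_ge (M : ℕ) (a : ℝ) (ha : 0 ≤ a) (hM : 1 ≤ M * a) :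
    Real.exp (-(M : ℝ)) ≤ ∏ r ∈ Finset.Icc 1 M, ((r : ℝ) * a) := by
  have h1 : ∏ r ∈ Finset.Icc 1 M, ((r : ℝ) * a) = (M.factorial : ℝ) * a ^ M := by
    rw [Finset.prod_mul_distrib, Finset.prod_const, Nat.card_Icc, Nat.add_sub_cancel]
    congr 1
    clear hM
    induction M with
    | zero => simp
    | succ n ih => rw [Finset.prod_Icc_succ_top (by omega), ih, Nat.factorial_succ]; push_cast; ring
  have h2 := Real.pow_div_factorial_le_exp (x := (M : ℝ)) (by positivity) M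
  have h3 : (0 : ℝ) < M.factorial := by exact_mod_cast Nat.factorial_pos M
  rw [div_le_iff₀ h3] at h2
  rw [h1, Real.exp_neg]
  have h4 : 1 ≤ (M : ℝ) ^ M * a ^ M := by
    rw [← mul_pow]
    exact one_le_pow₀ hM
  have h5 : 1 ≤ Real.exp M * (M.factorial : ℝ) * a ^ M := by
    refine h4.trans ?_
    have : 0 ≤ a ^ M := by positivity
    gcongr
  rw [inv_le_iff_one_le_mul₀' (Real.exp_pos _)]
  linarith

theorem par_geom (x : ℝ) (h0 : 0 < x) (h1 : x ≤ 1) (n : ℕ) :
    ∑ r ∈ Finset.range n, (1 - x) ^ r ≤ 1 / x := by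
  have h2 := mul_neg_geom_sum (1 - x) n
  have h3 : 0 ≤ (1 - x) ^ n := pow_nonneg (by linarith) _
  rw [le_div_iff₀ h0]
  have h4 : (1 : ℝ) - (1 - x) = x := by ring
  rw [h4] at h2
  linarith

namespace PSmall

variable {p q : ℝ}

theorem one_sub_q_pow (h : PSmall p q) (n : ℕ) :
    Real.exp (-((n : ℝ) * (1001 / 1000 * q))) ≤ (1 - q) ^ n := by
  have hq := h.hq
  have h1 : Real.exp (-(1001 / 1000 * q)) ≤ 1 - q := by
    refine le_trans ?_ (par_one_sub_ge hq.le h.q_lt_one)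
    apply Real.exp_le_exp.mpr
    have h2 : q / (1 - q) ≤ 1001 / 1000 * q := by
      rw [div_le_iff₀ (by linarith [h.q_lt_one])]
      have h3 := h.hqe
      have h4 : (1 : ℝ) / 10 ^ 100 ≤ 1 / 10 ^ 4 := by norm_num
      nlinarith
    linarith
  calc Real.exp (-((n : ℝ) * (1001 / 1000 * q))) = Real.exp (-(1001 / 1000 * q)) ^ n := by
        rw [← Real.exp_nat_mul]
        congr 1
        ring
    _ ≤ _ := pow_le_pow_left₀ (Real.exp_pos _).le h1 n

theorem j0_ub (h : PSmall p q) : ((pr p q).j0 : ℝ) ≤ 2001 / p := by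
  have h1 := h.g1_ub
  have h2 := h.inv_p
  have h3 : (1100 : ℝ) ≤ 10 ^ 100 := by norm_num
  have h4 : 2001 / p = 100 * (20 / p) + 1 / p := by ring
  rw [j0_eq, h4]
  linarith

theorem q_pow_ge (h : PSmall p q) (n : ℕ) (hn : (n : ℝ) ≤ 10 ^ 10 / p ^ 2) :
    Real.exp (-(1 / q)) ≤ q ^ n := by
  rw [h.q_npow]
  apply Real.exp_le_exp.mpr
  have hp := h.hp
  have hq := h.hq
  have hL := h.L_pos
  have hL1 := h.L_one
  have h1 := h.hqL
  have h2 : (n : ℝ) * Real.log (1 / q) ≤ 1 / q := by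
    rw [le_div_iff₀ hq]
    calc (n : ℝ) * Real.log (1 / q) * q ≤ (10 ^ 10 / p ^ 2) * Real.log (1 / q) * q := by gcongr
      _ = 10 ^ 10 / p ^ 2 * (q * (Real.log (1 / q) * 1)) := by ring
      _ ≤ 10 ^ 10 / p ^ 2 * (q * (Real.log (1 / q) * Real.log (1 / q))) := by gcongr
      _ = 10 ^ 10 / p ^ 2 * (q * Real.log (1 / q) ^ 2) := by ring
      _ ≤ 10 ^ 10 / p ^ 2 * (1 / 10 ^ 100 * p ^ 2) := by gcongr
      _ = 10 ^ 10 / 10 ^ 100 := by field_simp
      _ ≤ 1 := by norm_num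
  linarith

theorem nuc_f1 (h : PSmall p q) : Real.exp (-(1 / q)) ≤ q ^ ((2 * (pr p q).j0 + 1) ^ 2) := by
  apply h.q_pow_ge
  have hp := h.hp
  have h1 := h.j0_ub
  have h2 : (1 : ℝ) ≤ 1 / p := by
    rw [le_div_iff₀ hp]
    linarith [h.p_lt_one]
  push_cast
  have h3 : 2 * ((pr p q).j0 : ℝ) + 1 ≤ 4003 / p := by
    have h4 : 4003 / p = 2 * (2001 / p) + 1 / p := by ring
    rw [h4]
    linarith
  calc (2 * ((pr p q).j0 : ℝ) + 1) ^ 2 ≤ (4003 / p) ^ 2 := by gcongr
    _ = 4003 ^ 2 / p ^ 2 := by ring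
    _ ≤ 10 ^ 10 / p ^ 2 := by
        gcongr
        norm_num

theorem nuc_f2 (h : PSmall p q) : Real.exp (-(1 / q)) ≤ p ^ ((8 * (pr p q).j0 + 1) ^ 2) := by
  have hp := h.hp
  have hq := h.hq
  refine le_trans ?_ (pow_le_pow_left₀ hq.le h.q_le_p _)
  apply h.q_pow_ge
  have h1 := h.j0_ub
  have h2 : (1 : ℝ) ≤ 1 / p := by
    rw [le_div_iff₀ hp]
    linarith [h.p_lt_one]
  push_cast
  have h3 : 8 * ((pr p q).j0 : ℝ) + 1 ≤ 16009 / p := by
    have h4 : 16009 / p = 8 * (2001 / p) + 1 / p := by ring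
    rw [h4]
    linarith
  calc (8 * ((pr p q).j0 : ℝ) + 1) ^ 2 ≤ (16009 / p) ^ 2 := by gcongr
    _ = 16009 ^ 2 / p ^ 2 := by ring
    _ ≤ 10 ^ 10 / p ^ 2 := by
        gcongr
        norm_num

theorem Rh_ub' (h : PSmall p q) : ((pr p q).Rh : ℝ) ≤ (41 / 2) / q := by
  have h1 := h.Rh_ub
  have h2 := h.inv_q
  have h3 : (2 : ℝ) ≤ 10 ^ 100 := by norm_num
  have h4 : (41 / 2) / q = 20 / q + 1 / 2 * (1 / q) := by ring
  rw [h4]
  linarith

theorem nuc_f3 (h : PSmall p q) : Real.exp (-(14000 / q)) ≤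
    ∏ r ∈ Finset.Icc ((pr p q).j0 + 1) (2 * (pr p q).Rh),
      ((r : ℝ) / 20 * q * (1 - q) ^ (2 * r)) ^ 4 := by
  have hp := h.hp
  have hq := h.hq
  have hq1 := h.q_lt_one
  have hj0 := h.j0_ub
  obtain ⟨j, hj⟩ : ∃ j, j = (pr p q).j0 := ⟨_, rfl⟩
  obtain ⟨M, hM⟩ : ∃ M, M = 2 * (pr p q).Rh := ⟨_, rfl⟩
  have hMr : (M : ℝ) = 2 * (pr p q).Rh := by rw [hM]; push_cast; ring
  rw [← hj, ← hM]
  rw [← hj] at hj0
  have hMub : (M : ℝ) ≤ 41 / q := by
    have := h.Rh_ub'
    have h2 : 41 / q = 2 * ((41 / 2) / q) := by ring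
    rw [hMr, h2]
    linarith
  have hMlb : 40 / q ≤ (M : ℝ) := by
    have := h.Rh_lb
    have h2 : 40 / q = 2 * (20 / q) := by ring
    rw [hMr, h2]
    linarith
  have hjM : j ≤ M := by
    have h2 : (j : ℝ) ≤ M := by
      refine le_trans hj0 (le_trans ?_ hMlb)
      rw [div_le_div_iff₀ hp hq]
      have h3 := h.hqp
      have h4 := h.hpe
      have h5 : (1 : ℝ) / 10 ^ 100 * p ^ 2 ≤ 1 / 10 ^ 100 * p := by
        have : p ^ 2 ≤ p := by nlinarith [h.p_lt_one]
        gcongr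
      have h6 : 2001 * ((1 : ℝ) / 10 ^ 100 * p) ≤ 40 * p := by
        have : 2001 * ((1 : ℝ) / 10 ^ 100) ≤ 40 := by norm_num
        nlinarith
      linarith
    exact_mod_cast h2
  -- the linear factors
  have hlin : Real.exp (-(M : ℝ)) ≤ ∏ r ∈ Finset.Icc (j + 1) M, ((r : ℝ) * (q / 20)) := by
    have h1 := par_prod_ge M (q / 20) (by positivity) (by
      have h2 := mul_le_mul_of_nonneg_right hMlb hq.le
      have h3 : 40 / q * q = 40 := by field_simp
      rw [h3] at h2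
      linarith)
    refine h1.trans ?_
    have h2 : Finset.Icc 1 M = Finset.Icc 1 j ∪ Finset.Icc (j + 1) M := by
      ext x
      simp only [Finset.mem_Icc, Finset.mem_union]
      omega
    have h3 : Disjoint (Finset.Icc 1 j) (Finset.Icc (j + 1) M) := by
      rw [Finset.disjoint_left]
      intro x hx hx'
      simp only [Finset.mem_Icc] at hx hx'
      omega
    rw [h2, Finset.prod_union h3]
    have h4 : ∏ r ∈ Finset.Icc 1 j, ((r : ℝ) * (q / 20)) ≤ 1 := by
      apply Finset.prod_le_one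
      · intro r _
        positivity
      · intro r hr
        have h5 : (r : ℝ) ≤ j := by exact_mod_cast (Finset.mem_Icc.mp hr).2
        have h7 : (r : ℝ) ≤ 2001 / p := h5.trans hj0
        calc (r : ℝ) * (q / 20) ≤ 2001 / p * (q / 20) := by gcongr
          _ = 2001 / 20 * (q / p) := by ring
          _ ≤ 2001 / 20 * (1 / 10 ^ 100) := by
              have h8 : q / p ≤ 1 / 10 ^ 100 := by
                rw [div_le_iff₀ hp]
                have h3 := h.hqp
                have : p ^ 2 ≤ p := by nlinarith [h.p_lt_one]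
                have h9 : (1 : ℝ) / 10 ^ 100 * p ^ 2 ≤ 1 / 10 ^ 100 * p := by gcongr
                linarith
              gcongr
          _ ≤ 1 := by norm_num
    have h5 : 0 ≤ ∏ r ∈ Finset.Icc (j + 1) M, ((r : ℝ) * (q / 20)) :=
      Finset.prod_nonneg fun r _ => by positivity
    nlinarith
  -- all factors
  have hfac : ∏ r ∈ Finset.Icc (j + 1) M, (((r : ℝ) * (q / 20)) ^ 4 * ((1 - q) ^ (2 * M)) ^ 4) ≤
      ∏ r ∈ Finset.Icc (j + 1) M, ((r : ℝ) / 20 * q * (1 - q) ^ (2 * r)) ^ 4 := by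
    apply Finset.prod_le_prod
    · intro r _
      have : 0 ≤ 1 - q := by linarith
      positivity
    · intro r hr
      have hrM : r ≤ M := (Finset.mem_Icc.mp hr).2
      have h1 : (1 - q) ^ (2 * M) ≤ (1 - q) ^ (2 * r) :=
        pow_le_pow_of_le_one (by linarith) (by linarith) (by omega)
      rw [← mul_pow]
      have h2 : (r : ℝ) / 20 * q = (r : ℝ) * (q / 20) := by ring
      rw [h2]
      have h3 : 0 ≤ (1 - q) ^ (2 * M) := pow_nonneg (by linarith) _
      gcongr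
  refine le_trans ?_ hfac
  rw [Finset.prod_mul_distrib, Finset.prod_const, Finset.prod_pow, Nat.card_Icc]
  have h4 : Real.exp (-(13500 / q)) ≤ (((1 - q) ^ (2 * M)) ^ 4) ^ (M + 1 - (j + 1)) := by
    rw [← pow_mul, ← pow_mul]
    have h5 : 2 * M * (4 * (M + 1 - (j + 1))) ≤ 8 * M ^ 2 := by
      have : M + 1 - (j + 1) ≤ M := by omega
      nlinarith
    have h6 : (1 - q) ^ (8 * M ^ 2) ≤ (1 - q) ^ (2 * M * (4 * (M + 1 - (j + 1)))) :=
      pow_le_pow_of_le_one (by linarith) (by linarith) h5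
    have h6' : 2 * M * 4 * (M + 1 - (j + 1)) = 2 * M * (4 * (M + 1 - (j + 1))) := by ring
    try rw [h6']
    refine le_trans ?_ h6
    refine le_trans ?_ (h.one_sub_q_pow _)
    apply Real.exp_le_exp.mpr
    push_cast
    have h7 : (M : ℝ) ^ 2 ≤ (41 / q) ^ 2 := by gcongr
    have h8 : 8 * (M : ℝ) ^ 2 * (1001 / 1000 * q) ≤ 8 * (41 / q) ^ 2 * (1001 / 1000 * q) := by gcongr
    have h9 : 8 * (41 / q) ^ 2 * (1001 / 1000 * q) = (8 * 41 ^ 2 * (1001 / 1000)) / q := by
      field_simp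
    have h10 : (8 * (41 : ℝ) ^ 2 * (1001 / 1000)) / q ≤ 13500 / q := by
      gcongr
      norm_num
    linarith
  have h5 : Real.exp (-(164 / q)) ≤ (∏ r ∈ Finset.Icc (j + 1) M, ((r : ℝ) * (q / 20))) ^ 4 := by
    calc Real.exp (-(164 / q)) ≤ Real.exp (-(M : ℝ)) ^ 4 := by
          rw [← Real.exp_nat_mul]
          apply Real.exp_le_exp.mpr
          have h2 : 164 / q = 4 * (41 / q) := by ring
          rw [h2]
          push_cast
          linarith
      _ ≤ _ := pow_le_pow_left₀ (Real.exp_pos _).le hlin 4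
  calc Real.exp (-(14000 / q)) ≤ Real.exp (-(164 / q)) * Real.exp (-(13500 / q)) := by
        rw [← Real.exp_add]
        apply Real.exp_le_exp.mpr
        have h2 : 164 / q + 13500 / q ≤ 14000 / q := by
          rw [← add_div]
          gcongr
          norm_num
        linarith
    _ ≤ _ := mul_le_mul h5 h4 (Real.exp_pos _).le (le_trans (Real.exp_pos _).le h5)

theorem nuc_f4 (h : PSmall p q) : Real.exp (-(1 / q)) ≤ (1 - q) ^ (8 * (pr p q).Rh) := by
  refine le_trans ?_ (h.one_sub_q_pow _)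
  apply Real.exp_le_exp.mpr
  have hq := h.hq
  have h1 := h.Rh_ub'
  push_cast
  have h2 : 8 * ((pr p q).Rh : ℝ) * (1001 / 1000 * q) ≤ 8 * ((41 / 2) / q) * (1001 / 1000 * q) := by
    gcongr
  have h3 : 8 * ((41 / 2) / q) * (1001 / 1000 * q) = 8 * (41 / 2) * (1001 / 1000) := by field_simp
  have h4 := h.inv_q
  have h5 : 8 * (41 / 2) * (1001 / 1000) ≤ (10 : ℝ) ^ 100 := by norm_num
  linarith

theorem half_ge : Real.exp (-1) ≤ 1 / 2 := by
  have := Real.exp_neg_one_lt_d9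
  linarith

theorem nuc_f5 (h : PSmall p q) : Real.exp (-(1 / q)) ≤
    (1 / 2 : ℝ) ^ (64 * ((pr p q).r2 + 1) ^ 2 / (pr p q).g1 + 64 * (pr p q).r2) := by
  have hp := h.hp
  have hq := h.hq
  have hL := h.L_pos
  have hL1 := h.L_one
  have hw := h.w_ub
  have hg := h.g1_lb
  have hLp := h.Lp_one
  obtain ⟨K, hK⟩ : ∃ K, K = 64 * ((pr p q).r2 + 1) ^ 2 / (pr p q).g1 + 64 * (pr p q).r2 := ⟨_, rfl⟩
  rw [← hK]
  have hr2e := r2_eq p q
  obtain ⟨ww, hww⟩ : ∃ ww, ww = (pr p q).w := ⟨_, rfl⟩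
  obtain ⟨rr, hrr⟩ : ∃ rr, rr = (pr p q).r2 := ⟨_, rfl⟩
  obtain ⟨gg, hgg⟩ : ∃ gg, gg = (pr p q).g1 := ⟨_, rfl⟩
  rw [← hrr, ← hgg] at hK
  rw [← hgg] at hg
  rw [← hww] at hw
  rw [← hrr, ← hww] at hr2e
  have hr2 : (rr : ℝ) + 1 ≤ 33400 * (Real.log (1 / q) / p) := by
    rw [hr2e]
    have : 101 * Real.log (1 / q) / p = 101 * (Real.log (1 / q) / p) := by ring
    linarith
  have hg0 : (0 : ℝ) < gg := lt_of_lt_of_le (by positivity) hg
  have hKr : (K : ℝ) ≤ 10 ^ 12 * (Real.log (1 / q) ^ 2 / p) := by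
    have h1 : ((64 * (rr + 1) ^ 2 / gg : ℕ) : ℝ) ≤
        64 * ((rr : ℝ) + 1) ^ 2 / gg := by
      refine Nat.cast_div_le.trans (le_of_eq ?_)
      push_cast
      ring
    have h2 : 64 * ((rr : ℝ) + 1) ^ 2 / gg ≤
        64 * (33400 * (Real.log (1 / q) / p)) ^ 2 / (20 / p) := by gcongr
    have h3 : 64 * (33400 * (Real.log (1 / q) / p)) ^ 2 / (20 / p) =
        64 * 33400 ^ 2 / 20 * (Real.log (1 / q) ^ 2 / p) := by
      field_simp
    have h4 : 64 * (rr : ℝ) ≤ 64 * 33400 * (Real.log (1 / q) ^ 2 / p) := by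
      have h5 : Real.log (1 / q) / p ≤ Real.log (1 / q) ^ 2 / p := by
        gcongr
        nlinarith
      linarith
    have h5 : (K : ℝ) = ((64 * (rr + 1) ^ 2 / gg : ℕ) : ℝ) + 64 * rr := by
      rw [hK]
      push_cast
      ring
    have h6 : 0 ≤ Real.log (1 / q) ^ 2 / p := by positivity
    rw [h5]
    nlinarith
  have hKq : (K : ℝ) ≤ 1 / q := by
    rw [le_div_iff₀ hq]
    have h1 := h.hqL
    calc (K : ℝ) * q ≤ 10 ^ 12 * (Real.log (1 / q) ^ 2 / p) * q := by gcongr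
      _ = 10 ^ 12 / p * (q * Real.log (1 / q) ^ 2) := by ring
      _ ≤ 10 ^ 12 / p * (1 / 10 ^ 100 * p ^ 2) := by gcongr
      _ = 10 ^ 12 / 10 ^ 100 * p := by field_simp
      _ ≤ 1 * 1 := by
          have := h.p_lt_one
          have h2 : (10 : ℝ) ^ 12 / 10 ^ 100 ≤ 1 := by norm_num
          exact mul_le_mul h2 this.le hp.le (by norm_num)
      _ = 1 := by norm_num
  calc Real.exp (-(1 / q)) ≤ Real.exp (-1) ^ K := by
        rw [← Real.exp_nat_mul]
        apply Real.exp_le_exp.mpr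
        linarith
    _ ≤ _ := pow_le_pow_left₀ (Real.exp_pos _).le half_ge _

theorem nuc_f6 (h : PSmall p q) : Real.exp (-(8 / q)) ≤
    ∏ r ∈ Finset.Icc (2 * (pr p q).Rh + 1) (pr p q).W, (1 - (1 - q) ^ (2 * r - 1)) ^ 4 := by
  have hq := h.hq
  have hq1 := h.q_lt_one
  have hRh := h.Rh_lb
  obtain ⟨Rh, hRR⟩ : ∃ Rh, Rh = (pr p q).Rh := ⟨_, rfl⟩
  obtain ⟨W, hWW⟩ : ∃ W, W = (pr p q).W := ⟨_, rfl⟩
  rw [← hRR] at hRh
  rw [← hRR, ← hWW]
  have key : ∀ r ∈ Finset.Icc (2 * Rh + 1) W,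
      Real.exp (-(8 * (1 - q) ^ r)) ≤ (1 - (1 - q) ^ (2 * r - 1)) ^ 4 := by
    intro r hr
    have hr1 := (Finset.mem_Icc.mp hr).1
    have h1 : (1 - q) ^ (2 * r - 1) ≤ (1 - q) ^ r :=
      pow_le_pow_of_le_one (by linarith) (by linarith) (by omega)
    have h0 : 0 ≤ (1 - q) ^ r := pow_nonneg (by linarith) _
    have h2 : (1 - q) ^ r ≤ 1 / 2 := by
      calc (1 - q) ^ r ≤ Real.exp (-q) ^ r :=
            pow_le_pow_left₀ (by linarith) (Real.one_sub_le_exp_neg q) _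
        _ = Real.exp ((r : ℝ) * (-q)) := by rw [← Real.exp_nat_mul]
        _ ≤ Real.exp (-1) := by
            apply Real.exp_le_exp.mpr
            have h3 : (Rh : ℝ) ≤ r := by
              have : Rh ≤ r := by omega
              exact_mod_cast this
            have h4 : 20 / q ≤ r := hRh.trans h3
            rw [div_le_iff₀ hq] at h4
            linarith
        _ ≤ 1 / 2 := half_ge
    have h3 : Real.exp (-(2 * (1 - q) ^ r)) ≤ 1 - (1 - q) ^ (2 * r - 1) := by
      refine (par_one_sub_ge2 h0 h2).trans ?_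
      linarith
    calc Real.exp (-(8 * (1 - q) ^ r)) = Real.exp (-(2 * (1 - q) ^ r)) ^ 4 := by
          rw [← Real.exp_nat_mul]
          congr 1
          push_cast
          ring
      _ ≤ _ := pow_le_pow_left₀ (Real.exp_pos _).le h3 4
  calc Real.exp (-(8 / q)) ≤ Real.exp (∑ r ∈ Finset.Icc (2 * Rh + 1) W,
        (-(8 * (1 - q) ^ r))) := by
        apply Real.exp_le_exp.mpr
        rw [Finset.sum_neg_distrib, ← Finset.mul_sum]
        have h1 : ∑ r ∈ Finset.Icc (2 * Rh + 1) W, (1 - q) ^ r ≤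
            ∑ r ∈ Finset.range (W + 1), (1 - q) ^ r := by
          apply Finset.sum_le_sum_of_subset_of_nonneg
          · intro x hx
            rw [Finset.mem_Icc] at hx
            rw [Finset.mem_range]
            omega
          · intro x _ _
            exact pow_nonneg (by linarith) _
        have h2 := par_geom q hq hq1.le (W + 1)
        have h3 : 8 / q = 8 * (1 / q) := by ring
        rw [h3]
        linarith
    _ = ∏ r ∈ Finset.Icc (2 * Rh + 1) W, Real.exp (-(8 * (1 - q) ^ r)) := by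
        rw [Real.exp_sum]
    _ ≤ _ := Finset.prod_le_prod (fun r _ => (Real.exp_pos _).le) key

theorem nucLow_ge (h : PSmall p q) : Real.exp (-(19000 / q)) ≤ nucLow (pr p q) p q := by
  have hq := h.hq
  have f1 := h.nuc_f1
  have f2 := h.nuc_f2
  have f3 := h.nuc_f3
  have f4 := h.nuc_f4
  have f5 := h.nuc_f5
  have f6 := h.nuc_f6
  have f7 := half_ge
  have hE : ∀ x : ℝ, 0 ≤ Real.exp x := fun x => (Real.exp_pos x).le
  unfold nucLow
  calc Real.exp (-(19000 / q)) ≤ Real.exp (-(1 / q)) * Real.exp (-(1 / q)) * Real.exp (-(14000 / q)) *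
        Real.exp (-(1 / q)) * Real.exp (-(1 / q)) * Real.exp (-(8 / q)) * Real.exp (-1) := by
        rw [← Real.exp_add, ← Real.exp_add, ← Real.exp_add, ← Real.exp_add, ← Real.exp_add,
          ← Real.exp_add]
        apply Real.exp_le_exp.mpr
        have h1 := h.inv_q
        have h2 : (1 : ℝ) ≤ 10 ^ 100 := by norm_num
        have h3 : 19000 / q = 19000 * (1 / q) := by ring
        have h4 : 14000 / q = 14000 * (1 / q) := by ring
        have h5 : 8 / q = 8 * (1 / q) := by ring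
        rw [h3, h4, h5]
        linarith
    _ ≤ _ := by
        have g1 := mul_le_mul f1 f2 (hE _) ((hE _).trans f1)
        have g2 := mul_le_mul g1 f3 (hE _) ((mul_nonneg (hE _) (hE _)).trans g1)
        have g3 := mul_le_mul g2 f4 (hE _) ((mul_nonneg (mul_nonneg (hE _) (hE _)) (hE _)).trans g2)
        have g4 := mul_le_mul g3 f5 (hE _)
          ((mul_nonneg (mul_nonneg (mul_nonneg (hE _) (hE _)) (hE _)) (hE _)).trans g3)
        have g5 := mul_le_mul g4 f6 (hE _)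
          ((mul_nonneg (mul_nonneg (mul_nonneg (mul_nonneg (hE _) (hE _)) (hE _)) (hE _)) (hE _)).trans g4)
        exact mul_le_mul g5 f7 (hE _)
          ((mul_nonneg (mul_nonneg (mul_nonneg (mul_nonneg (mul_nonneg (hE _) (hE _)) (hE _)) (hE _))
            (hE _)) (hE _)).trans g5)

end PSmall

end TSB
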