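import Pool.Agent.TSB.Defs

open scoped Classical

namespace TSB

private theorem planar_ico_succ (a b : ℤ) (h : a ≤ b) :
    Finset.Ico a (b + 1) = insert b (Finset.Ico a b) := by
  ext z
  simp only [Finset.mem_Ico, Finset.mem_insert]
  omega

private theorem planar_sum_succ (a b : ℤ) (h : a ≤ b) (g : ℤ → ZMod 2) :
    ∑ i ∈ Finset.Ico a (b + 1), g i = (∑ i ∈ Finset.Ico a b, g i) + g b := by
  rw [planar_ico_succ a b h, Finset.sum_insert (by simp), add_comm]

private theorem planar_two {a b c d : ZMod 2} (h : a + b + c + d = 0) : a + b = c + d := by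
  revert a b c d
  decide

/-- discrete Poincaré lemma on a rectangle; `h x` is the value on the edge `x, x + (1,0)` and
`v x` the value on the edge `x, x + (0,1)`. -/
theorem poincare (u v' : Site) (h v : Site → ZMod 2)
    (hsq : ∀ x ∈ Set.Icc u v', (x.1 + 1, x.2 + 1) ∈ Set.Icc u v' →
      h x + v (x.1 + 1, x.2) + h (x.1, x.2 + 1) + v x = 0) :
    ∃ f : Site → ZMod 2,
      (∀ x ∈ Set.Icc u v', (x.1 + 1, x.2) ∈ Set.Icc u v' → f (x.1 + 1, x.2) = f x + h x) ∧
      (∀ x ∈ Set.Icc u v', (x.1, x.2 + 1) ∈ Set.Icc u v' → f (x.1, x.2 + 1) = f x + v x) := by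
  set f : Site → ZMod 2 := fun x =>
    ∑ i ∈ Finset.Ico u.1 x.1, h (i, u.2) + ∑ j ∈ Finset.Ico u.2 x.2, v (x.1, j) with hf
  have hv : ∀ x ∈ Set.Icc u v', (x.1, x.2 + 1) ∈ Set.Icc u v' → f (x.1, x.2 + 1) = f x + v x := by
    intro x hx _
    have h2 : u.2 ≤ x.2 := hx.1.2
    simp only [hf]
    rw [planar_sum_succ u.2 x.2 h2, add_assoc]
  refine ⟨f, ?_, hv⟩
  have key : ∀ a : ℤ, u.1 ≤ a → a + 1 ≤ v'.1 → ∀ b : ℤ, u.2 ≤ b → b ≤ v'.2 →
      f (a + 1, b) = f (a, b) + h (a, b) := by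
    intro a ha ha' b hb
    induction b, hb using Int.leInduction with
    | base =>
      intro _
      simp only [hf]
      rw [planar_sum_succ u.1 a ha]
      simp
    | succ b hb IH =>
      intro hb'
      have IH' := IH (by linarith)
      have m1 : ((a, b) : Site) ∈ Set.Icc u v' := ⟨⟨ha, hb⟩, ⟨by simp only; linarith, by simp only; linarith⟩⟩
      have m2 : ((a, b + 1) : Site) ∈ Set.Icc u v' :=
        ⟨⟨ha, by simp only; linarith⟩, ⟨by simp only; linarith, by simp only; linarith⟩⟩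
      have m3 : ((a + 1, b) : Site) ∈ Set.Icc u v' :=
        ⟨⟨by simp only; linarith, hb⟩, ⟨by simp only; linarith, by simp only; linarith⟩⟩
      have m4 : ((a + 1, b + 1) : Site) ∈ Set.Icc u v' :=
        ⟨⟨by simp only; linarith, by simp only; linarith⟩, ⟨by simp only; linarith, by simp only; linarith⟩⟩
      have e1 := hv (a, b) m1 m2
      have e2 := hv (a + 1, b) m3 m4
      have e3 := planar_two (hsq (a, b) m1 m4)
      simp only at e1 e2 e3
      rw [e2, IH', e1]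
      calc f (a, b) + h (a, b) + v (a + 1, b) = f (a, b) + (h (a, b) + v (a + 1, b)) := by ring
        _ = f (a, b) + (h (a, b + 1) + v (a, b)) := by rw [e3]
        _ = _ := by ring
  intro x hx hx'
  exact key x.1 hx.1.1 hx'.2.1 x.2 hx.1.2 hx.2.2

/-- The other end of an edge. -/
private def planar_oth (e : Site × Bool) : Site :=
  if e.2 then (e.1.1, e.1.2 + 1) else (e.1.1 + 1, e.1.2)

private theorem planar_edge {x y : Site} (h : adj x y) :
    ∃ e : Site × Bool, (e.1 = x ∧ planar_oth e = y) ∨ (e.1 = y ∧ planar_oth e = x) := by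
  have h' : y = (x.1 + 1, x.2) ∨ y = (x.1 - 1, x.2) ∨ y = (x.1, x.2 + 1) ∨ y = (x.1, x.2 - 1) := by
    simpa [adj, nb] using h
  rcases h' with h | h | h | h
  · exact ⟨(x, false), Or.inl ⟨rfl, by simp [planar_oth, h]⟩⟩
  · exact ⟨(y, false), Or.inr ⟨rfl, by simp [planar_oth, h]⟩⟩
  · exact ⟨(x, true), Or.inl ⟨rfl, by simp [planar_oth, h]⟩⟩
  · exact ⟨(y, true), Or.inr ⟨rfl, by simp [planar_oth, h]⟩⟩

private theorem planar_adj_oth (e : Site × Bool) : adj e.1 (planar_oth e) ∧ adj (planar_oth e) e.1 := by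
  rcases e with ⟨x, b⟩
  cases b <;> simp [adj, nb, planar_oth]

/-- the cut edges -/
private def planar_cut (u v : Site) (K : Set Site) (e : Site × Bool) : Prop :=
  e.1 ∈ Set.Icc u v ∧ planar_oth e ∈ Set.Icc u v ∧ ¬ (e.1 ∈ K ↔ planar_oth e ∈ K)

/-- the four edges of a unit square -/
private def planar_sq (z : Site) (e : Site × Bool) : Prop :=
  e = (z, false) ∨ e = ((z.1 + 1, z.2), true) ∨ e = ((z.1, z.2 + 1), false) ∨ e = (z, true)

private def planar_rel (u v : Site) (K : Set Site) (e e' : Site × Bool) : Prop :=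
  planar_cut u v K e ∧ planar_cut u v K e' ∧ ∃ z, planar_sq z e ∧ planar_sq z e'

private noncomputable def planar_kpt (K : Set Site) (e : Site × Bool) : Site :=
  if e.1 ∈ K then e.1 else planar_oth e

private theorem planar_sq_near {z : Site} {e : Site × Bool} (h : planar_sq z e) :
    (0 ≤ e.1.1 - z.1 ∧ e.1.1 - z.1 ≤ 1 ∧ 0 ≤ e.1.2 - z.2 ∧ e.1.2 - z.2 ≤ 1) ∧
    (0 ≤ (planar_oth e).1 - z.1 ∧ (planar_oth e).1 - z.1 ≤ 1 ∧
      0 ≤ (planar_oth e).2 - z.2 ∧ (planar_oth e).2 - z.2 ≤ 1) := by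
  rcases h with h | h | h | h <;> subst h <;> simp [planar_oth]

private theorem planar_kpt_near (K : Set Site) {z : Site} {e : Site × Bool} (h : planar_sq z e) :
    0 ≤ (planar_kpt K e).1 - z.1 ∧ (planar_kpt K e).1 - z.1 ≤ 1 ∧
      0 ≤ (planar_kpt K e).2 - z.2 ∧ (planar_kpt K e).2 - z.2 ≤ 1 := by
  unfold planar_kpt
  split
  · exact (planar_sq_near h).1
  · exact (planar_sq_near h).2

private theorem planar_ind {p q : Prop} (h : p ↔ q) [Decidable p] [Decidable q] :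
    (if p then (1 : ZMod 2) else 0) = if q then 1 else 0 := by
  by_cases hp : p
  · rw [if_pos hp, if_pos (h.1 hp)]
  · rw [if_neg hp, if_neg (fun hq => hp (h.2 hq))]

private theorem planar_par (a b c d : Prop) :
    (if ¬ (a ↔ b) then (1 : ZMod 2) else 0) + (if ¬ (b ↔ c) then 1 else 0)
      + (if ¬ (d ↔ c) then 1 else 0) + (if ¬ (a ↔ d) then 1 else 0) = 0 := by
  by_cases ha : a <;> by_cases hb : b <;> by_cases hc : c <;> by_cases hd : d <;>
    simp [ha, hb, hc, hd] <;> decide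

theorem boundary_star_conn (u v : Site) (A K : Set Site) (hA : A ⊆ Set.Icc u v)
    (hK : K ⊆ Set.Icc u v) (hAK : ∀ x ∈ K, x ∉ A) (cA : Conn adj A) (cK : Conn adj K)
    (hcomp : ∀ x ∈ K, ∀ y ∈ Set.Icc u v, adj x y → y ∉ A → y ∈ K) :
    Conn star {x | x ∈ K ∧ ∃ y ∈ A, adj x y} := by
  -- every boundary point has a cut edge
  have hedge : ∀ x ∈ K, ∀ a ∈ A, adj x a → ∃ e, planar_cut u v K e ∧ planar_kpt K e = x ∧
      ((e.1 = x ∧ planar_oth e = a) ∨ (e.1 = a ∧ planar_oth e = x)) := by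
    intro x hx a ha hxa
    have haK : a ∉ K := fun h => hAK a h ha
    obtain ⟨e, he⟩ := planar_edge hxa
    refine ⟨e, ?_, ?_, he⟩
    · rcases he with ⟨h1, h2⟩ | ⟨h1, h2⟩
      · refine ⟨h1 ▸ hK hx, h2 ▸ hA ha, ?_⟩
        rw [h1, h2]; tauto
      · refine ⟨h1 ▸ hA ha, h2 ▸ hK hx, ?_⟩
        rw [h1, h2]; tauto
    · unfold planar_kpt
      rcases he with ⟨h1, h2⟩ | ⟨h1, h2⟩
      · rw [h1, if_pos hx]
      · rw [h1, if_neg haK, h2]
  have hkpt : ∀ e, planar_cut u v K e →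
      planar_kpt K e ∈ {x | x ∈ K ∧ ∃ y ∈ A, adj x y} := by
    intro e he
    unfold planar_kpt
    by_cases h : e.1 ∈ K
    · rw [if_pos h]
      have ho : planar_oth e ∉ K := fun h' => he.2.2 ⟨fun _ => h', fun _ => h⟩
      refine ⟨h, planar_oth e, ?_, (planar_adj_oth e).1⟩
      by_contra hn
      exact ho (hcomp e.1 h (planar_oth e) he.2.1 (planar_adj_oth e).1 hn)
    · rw [if_neg h]
      have ho : planar_oth e ∈ K := by
        by_contra h'
        exact he.2.2 ⟨fun a => absurd a h, fun a => absurd a h'⟩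
      refine ⟨ho, e.1, ?_, (planar_adj_oth e).2⟩
      by_contra hn
      exact h (hcomp (planar_oth e) ho e.1 he.1 (planar_adj_oth e).2 hn)
  rintro k1 ⟨hk1, a1, ha1, hka1⟩ k2 ⟨hk2, a2, ha2, hka2⟩
  obtain ⟨e1, hc1, hp1, he1⟩ := hedge k1 hk1 a1 ha1 hka1
  obtain ⟨e2, hc2, hp2, he2⟩ := hedge k2 hk2 a2 ha2 hka2
  set E : Set (Site × Bool) := {e | Relation.ReflTransGen (planar_rel u v K) e1 e} with hE
  have hEcut : ∀ e ∈ E, planar_cut u v K e := by
    intro e he
    rcases Relation.ReflTransGen.cases_tail he with h | ⟨b, _, h⟩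
    · rw [h]; exact hc1
    · exact h.2.1
  have hEsq : ∀ z e e', planar_sq z e → planar_sq z e' → e ∈ E → planar_cut u v K e' → e' ∈ E := by
    intro z e e' hz hz' he hc
    exact Relation.ReflTransGen.tail he ⟨hEcut e he, hc, z, hz, hz'⟩
  -- the potential
  have hsq : ∀ x ∈ Set.Icc u v, (x.1 + 1, x.2 + 1) ∈ Set.Icc u v →
      (if (x, false) ∈ E then (1 : ZMod 2) else 0) + (if ((x.1 + 1, x.2), true) ∈ E then 1 else 0)
        + (if ((x.1, x.2 + 1), false) ∈ E then 1 else 0) + (if (x, true) ∈ E then 1 else 0) = 0 := by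
    intro x hx hx'
    have s1 : planar_sq x (x, false) := Or.inl rfl
    have s2 : planar_sq x ((x.1 + 1, x.2), true) := Or.inr (Or.inl rfl)
    have s3 : planar_sq x ((x.1, x.2 + 1), false) := Or.inr (Or.inr (Or.inl rfl))
    have s4 : planar_sq x (x, true) := Or.inr (Or.inr (Or.inr rfl))
    by_cases hne : ∃ e, planar_sq x e ∧ e ∈ E
    · obtain ⟨e0, hz0, he0⟩ := hne
      have hiff : ∀ e, planar_sq x e → (e ∈ E ↔ planar_cut u v K e) := fun e he =>
        ⟨hEcut e, fun hc => hEsq x e0 e hz0 he he0 hc⟩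
      have r1 : x ∈ Set.Icc u v := hx
      have r2 : (x.1 + 1, x.2) ∈ Set.Icc u v :=
        ⟨⟨by have := hx.1.1; simp only; linarith, hx.1.2⟩, ⟨hx'.2.1, hx.2.2⟩⟩
      have r3 : (x.1, x.2 + 1) ∈ Set.Icc u v :=
        ⟨⟨hx.1.1, by have := hx.1.2; simp only; linarith⟩, ⟨hx.2.1, hx'.2.2⟩⟩
      have c1 : (x, false) ∈ E ↔ ¬ (x ∈ K ↔ (x.1 + 1, x.2) ∈ K) := by
        rw [hiff _ s1]
        unfold planar_cut
        simp only [planar_oth]
        exact ⟨fun h => h.2.2, fun h => ⟨r1, r2, h⟩⟩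
      have c2 : ((x.1 + 1, x.2), true) ∈ E ↔ ¬ ((x.1 + 1, x.2) ∈ K ↔ (x.1 + 1, x.2 + 1) ∈ K) := by
        rw [hiff _ s2]
        unfold planar_cut
        simp only [planar_oth]
        exact ⟨fun h => h.2.2, fun h => ⟨r2, hx', h⟩⟩
      have c3 : ((x.1, x.2 + 1), false) ∈ E ↔ ¬ ((x.1, x.2 + 1) ∈ K ↔ (x.1 + 1, x.2 + 1) ∈ K) := by
        rw [hiff _ s3]
        unfold planar_cut
        simp only [planar_oth]
        exact ⟨fun h => h.2.2, fun h => ⟨r3, hx', h⟩⟩
      have c4 : (x, true) ∈ E ↔ ¬ (x ∈ K ↔ (x.1, x.2 + 1) ∈ K) := by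
        rw [hiff _ s4]
        unfold planar_cut
        simp only [planar_oth]
        exact ⟨fun h => h.2.2, fun h => ⟨r1, r3, h⟩⟩
      rw [planar_ind c1, planar_ind c2, planar_ind c3, planar_ind c4]
      exact planar_par (x ∈ K) ((x.1 + 1, x.2) ∈ K) ((x.1 + 1, x.2 + 1) ∈ K) ((x.1, x.2 + 1) ∈ K)
    · push Not at hne
      rw [if_neg (hne _ s1), if_neg (hne _ s2), if_neg (hne _ s3), if_neg (hne _ s4)]
      simp
  obtain ⟨f, hf1, hf2⟩ := poincare u v (fun x => if (x, false) ∈ E then 1 else 0)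
    (fun x => if (x, true) ∈ E then 1 else 0) hsq
  have hf : ∀ e : Site × Bool, e.1 ∈ Set.Icc u v → planar_oth e ∈ Set.Icc u v →
      f (planar_oth e) = f e.1 + if e ∈ E then 1 else 0 := by
    rintro ⟨x, b⟩ h1 h2
    cases b
    · simpa [planar_oth] using hf1 x h1 (by simpa [planar_oth] using h2)
    · simpa [planar_oth] using hf2 x h1 (by simpa [planar_oth] using h2)
  have hconst : ∀ S : Set Site, S ⊆ Set.Icc u v → Conn adj S →
      (∀ x ∈ S, ∀ y ∈ S, (x ∈ K ↔ y ∈ K)) → ∀ x ∈ S, ∀ y ∈ S, f x = f y := by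
    intro S hS cS hSK x hx y hy
    have hc := cS x hx y hy
    induction hc with
    | refl => rfl
    | tail _ hbc IH =>
      rename_i b c
      rw [IH hbc.1]
      obtain ⟨e, he⟩ := planar_edge hbc.2.2
      have hnot : e ∉ E := by
        intro hc
        have := (hEcut e hc).2.2
        rcases he with ⟨h1, h2⟩ | ⟨h1, h2⟩ <;> rw [h1, h2] at this
        · exact this (hSK _ hbc.1 _ hbc.2.1)
        · exact this (hSK _ hbc.2.1 _ hbc.1)
      rcases he with ⟨h1, h2⟩ | ⟨h1, h2⟩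
      · have := hf e (h1 ▸ hS hbc.1) (h2 ▸ hS hbc.2.1)
        rw [if_neg hnot, h1, h2, add_zero] at this
        exact this.symm
      · have := hf e (h1 ▸ hS hbc.2.1) (h2 ▸ hS hbc.1)
        rw [if_neg hnot, h1, h2, add_zero] at this
        exact this
  have hfK := hconst K hK cK (fun x hx y hy => ⟨fun _ => hy, fun _ => hx⟩) k1 hk1 k2 hk2
  have hfA := hconst A hA cA (fun x hx y hy => ⟨fun h => absurd hx (hAK x h), fun h => absurd hy (hAK y h)⟩)
    a1 ha1 a2 ha2
  have hE1 : e1 ∈ E := Relation.ReflTransGen.refl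
  have hE2 : e2 ∈ E := by
    by_contra hn
    have q1 := hf e1 hc1.1 hc1.2.1
    have q2 := hf e2 hc2.1 hc2.2.1
    rw [if_pos hE1] at q1
    rw [if_neg hn, add_zero] at q2
    have hd : f k1 ≠ f a1 := by
      rcases he1 with ⟨h1, h2⟩ | ⟨h1, h2⟩ <;> rw [h1, h2] at q1 <;> rw [q1]
      · intro hh
        have : f k1 = f k1 + 1 := hh
        simp at this
      · intro hh
        have : f a1 + 1 = f a1 := hh
        simp at this
    have hs : f k2 = f a2 := by
      rcases he2 with ⟨h1, h2⟩ | ⟨h1, h2⟩ <;> rw [h1, h2] at q2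
      · exact q2.symm
      · exact q2
    exact hd (by rw [hfK, hs, hfA])
  have hstep : ∀ a b, planar_rel u v K a b →
      (planar_kpt K a ∈ {x | x ∈ K ∧ ∃ y ∈ A, adj x y} ∧
        planar_kpt K b ∈ {x | x ∈ K ∧ ∃ y ∈ A, adj x y} ∧ star (planar_kpt K a) (planar_kpt K b)) := by
    intro a b hab
    obtain ⟨ha, hb, z, hz1, hz2⟩ := hab
    refine ⟨hkpt a ha, hkpt b hb, ?_⟩
    have n1 := planar_kpt_near K hz1
    have n2 := planar_kpt_near K hz2
    constructor <;> rw [abs_le] <;> constructor <;> linarith [n1.1, n1.2.1, n1.2.2.1, n1.2.2.2,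
      n2.1, n2.2.1, n2.2.2.1, n2.2.2.2]
  have hgo : ∀ e, Relation.ReflTransGen (planar_rel u v K) e1 e →
      Relation.ReflTransGen (fun a b => a ∈ {x | x ∈ K ∧ ∃ y ∈ A, adj x y} ∧
        b ∈ {x | x ∈ K ∧ ∃ y ∈ A, adj x y} ∧ star a b) (planar_kpt K e1) (planar_kpt K e) := by
    intro e he
    induction he with
    | refl => exact Relation.ReflTransGen.refl
    | tail _ h IH => exact IH.tail (hstep _ _ h)
  have hfin := hgo e2 hE2
  rw [hp1, hp2] at hfin
  exact hfin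

end TSB
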